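import Pool.Agent.Lib.MP_10e784_agQV.Defs
import Pool.Agent.Lib.MP_10e784_ag.QHall
import Pool.Agent.Lib.MP_10e784_ag.PT.PTRtSum

/-! JOB A1.  The upper bound sieve from Hall's inequality.
`QT.hall` with `w p = 0` for `p ∈ R` and `1` otherwise (`pf w n = ∏_{p | n} w p`, so the count on the left is at most `∑_{n ≤ x, sqf} pf w n`); the right side is at most `3 x ∏_{p ≤ x} (1 + w p / p)` (expand the product over the primes `p ≤ x`: every squarefree `n ≤ x` occurs; see how `hall` is used in the library, e.g. grep `hall`), at most `3 x exp (∑_{p ≤ x} w p / p)`, and `∑_{p ≤ x} w p / p = ∑_{p ≤ x} 1 / p - ∑_{p ≤ x, p ∈ R} 1 / p`, with `∑_{p ≤ x} 1 / p ≤ log log x + C` (`PT.rt_sum` for `G = X`, which has exactly one root modulo every `p`). Divide by `log x` (`x ≥ 2`). -/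

set_option autoImplicit false

namespace QV

open Finset

private theorem A1_sum_le_prod (w : ℕ → ℝ) (hw : ∀ p, p.Prime → 0 ≤ w p) (M : ℕ) :
    ∑ n ∈ (Icc 1 M).filter Squarefree, QT.pf w n / n ≤
      ∏ p ∈ (Icc 1 M).filter Nat.Prime, (1 + w p / p) := by
  classical
  rw [Finset.prod_one_add]
  have hterm : ∀ n ∈ (Icc 1 M).filter Squarefree, QT.pf w n / n =
      ∏ p ∈ n.primeFactors, (w p / p) := by
    intro n hn
    have hsq : Squarefree n := (Finset.mem_filter.mp hn).2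
    have hprod : ∏ p ∈ n.primeFactors, p = n := Nat.prod_primeFactors_of_squarefree hsq
    rw [Finset.prod_div_distrib]
    unfold QT.pf
    congr 1
    conv_lhs => rw [← hprod]
    push_cast
    rfl
  rw [Finset.sum_congr rfl hterm]
  have hinj : Set.InjOn Nat.primeFactors ((Icc 1 M).filter Squarefree : Finset ℕ) := by
    intro a ha b hb hab
    have h1 : Squarefree a := (Finset.mem_filter.mp ha).2
    have h2 : Squarefree b := (Finset.mem_filter.mp hb).2
    rw [← Nat.prod_primeFactors_of_squarefree h1, ← Nat.prod_primeFactors_of_squarefree h2, hab]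
  rw [← Finset.sum_image (f := fun s : Finset ℕ => ∏ p ∈ s, (w p / p)) hinj]
  apply Finset.sum_le_sum_of_subset_of_nonneg
  · intro s hs
    obtain ⟨n, hn, rfl⟩ := Finset.mem_image.mp hs
    rw [Finset.mem_powerset]
    intro p hp
    rw [Finset.mem_filter, Finset.mem_Icc]
    have hn' := (Finset.mem_filter.mp hn).1
    rw [Finset.mem_Icc] at hn'
    have h1 := Nat.le_of_mem_primeFactors hp
    have h2 := Nat.prime_of_mem_primeFactors hp
    exact ⟨⟨h2.one_lt.le, by omega⟩, h2⟩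
  · intro s hs _
    apply Finset.prod_nonneg
    intro p hp
    have hpp : p.Prime := by
      have := (Finset.mem_powerset.mp hs) hp
      exact (Finset.mem_filter.mp this).2
    exact div_nonneg (hw p hpp) (Nat.cast_nonneg p)

private theorem A1_rt {p : ℕ} (hp : p.Prime) : PT.rt Polynomial.X p = 1 := by
  have : Fact p.Prime := ⟨hp⟩
  unfold PT.rt
  rw [Nat.card_eq_one_iff_unique]
  refine ⟨⟨fun a b => ?_⟩, ⟨⟨0, by simp⟩⟩⟩
  have hx : ∀ c : {ρ : ZMod p // ((Polynomial.X : Polynomial ℤ).map (Int.castRingHom (ZMod p))).eval ρ = 0},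
      c.1 = 0 := by
    rintro ⟨c, hc⟩
    rw [Polynomial.map_X, Polynomial.eval_X] at hc
    exact hc
  exact Subtype.ext ((hx a).trans (hx b).symm)

private theorem A1_mertens : ∃ C : ℝ, ∀ x : ℕ, 2 ≤ x →
    ∑ p ∈ (Icc 1 x).filter Nat.Prime, (1 : ℝ) / p ≤ Real.log (Real.log x) + C := by
  have hirr : Irreducible ((Polynomial.X : Polynomial ℤ).map (Int.castRingHom ℚ)) := by
    rw [Polynomial.map_X]
    exact Polynomial.irreducible_X
  obtain ⟨C, hC⟩ := PT.rt_sum Polynomial.X hirr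
  refine ⟨C, fun x hx => ?_⟩
  have h1 := hC x (by exact_mod_cast hx)
  unfold PT.PS at h1
  rw [Nat.floor_natCast] at h1
  refine le_trans (le_of_eq (Finset.sum_congr rfl fun p hp => ?_)) h1
  show (1 : ℝ) / p = (PT.rt Polynomial.X p : ℝ) / p
  rw [A1_rt (Finset.mem_filter.1 hp).2, Nat.cast_one]

open Classical in
theorem hall_excl : ∃ C : ℝ, 0 < C ∧ ∀ (R : Set ℕ) (x : ℕ), 2 ≤ x →
    (((Icc 1 x).filter fun n => Squarefree n ∧ ∀ p : ℕ, p.Prime → p ∣ n → p ∉ R).card : ℝ) ≤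
      C * x * Real.exp (-∑ p ∈ (Icc 1 x).filter (fun p => p.Prime ∧ p ∈ R), (1 : ℝ) / p) := by
  obtain ⟨C₀, hC₀⟩ := A1_mertens
  refine ⟨3 * Real.exp C₀, by positivity, fun R x hx => ?_⟩
  have hx2 : (2 : ℝ) ≤ x := by exact_mod_cast hx
  have hx0 : (0 : ℝ) < x := by linarith
  have hL : 0 < Real.log x := Real.log_pos (by linarith)
  obtain ⟨w, hwd⟩ : ∃ w : ℕ → ℝ, ∀ p, w p = if p ∈ R then 0 else 1 :=
    ⟨fun p => if p ∈ R then 0 else 1, fun _ => rfl⟩
  have hw : ∀ p, p.Prime → 0 ≤ w p ∧ w p ≤ 1 := by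
    intro p _
    rw [hwd]
    split_ifs <;> norm_num
  have h1 := QT.hall w hw x (by linarith)
  rw [Nat.floor_natCast] at h1
  have h2 : (((Icc 1 x).filter fun n => Squarefree n ∧ ∀ p : ℕ, p.Prime → p ∣ n → p ∉ R).card : ℝ) ≤
      ∑ n ∈ (Icc 1 x).filter Squarefree, QT.pf w n := by
    rw [Finset.card_eq_sum_ones, Nat.cast_sum]
    have h3 : ∀ n ∈ (Icc 1 x).filter fun n => Squarefree n ∧ ∀ p : ℕ, p.Prime → p ∣ n → p ∉ R,
        ((1 : ℕ) : ℝ) = QT.pf w n := by
      intro n hn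
      rw [Finset.mem_filter] at hn
      unfold QT.pf
      rw [Nat.cast_one]
      refine (Finset.prod_eq_one fun p hp => ?_).symm
      rw [hwd, if_neg (hn.2.2 p (Nat.prime_of_mem_primeFactors hp) (Nat.dvd_of_mem_primeFactors hp))]
    rw [Finset.sum_congr rfl h3]
    refine Finset.sum_le_sum_of_subset_of_nonneg ?_ fun n _ _ => QT.QHall_pf_nonneg w hw n
    intro n hn
    rw [Finset.mem_filter] at hn ⊢
    exact ⟨hn.1, hn.2.1⟩
  have h4 : ∏ p ∈ (Icc 1 x).filter Nat.Prime, (1 + w p / p) ≤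
      Real.exp (∑ p ∈ (Icc 1 x).filter Nat.Prime, w p / p) := by
    rw [Real.exp_sum]
    apply Finset.prod_le_prod
    · intro p hp
      have := div_nonneg (hw p (Finset.mem_filter.1 hp).2).1 (show (0 : ℝ) ≤ (p : ℝ) by positivity)
      linarith
    · intro p _
      have := Real.add_one_le_exp (w p / p)
      linarith
  have h5 : ∑ p ∈ (Icc 1 x).filter Nat.Prime, w p / p +
      ∑ p ∈ (Icc 1 x).filter (fun p => p.Prime ∧ p ∈ R), (1 : ℝ) / p =
      ∑ p ∈ (Icc 1 x).filter Nat.Prime, (1 : ℝ) / p := by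
    have h6 : (Icc 1 x).filter (fun p => p.Prime ∧ p ∈ R) =
        ((Icc 1 x).filter Nat.Prime).filter (fun p => p ∈ R) := by
      rw [Finset.filter_filter]
    rw [h6, Finset.sum_filter (fun p => p ∈ R), ← Finset.sum_add_distrib]
    refine Finset.sum_congr rfl fun p _ => ?_
    rw [hwd]
    by_cases h7 : p ∈ R
    · rw [if_pos h7, if_pos h7, zero_div, zero_add]
    · rw [if_neg h7, if_neg h7, add_zero]
  have h6 := hC₀ x hx
  have h7 : Real.exp (∑ p ∈ (Icc 1 x).filter Nat.Prime, w p / p) ≤ Real.log x * (Real.exp C₀ *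
      Real.exp (-∑ p ∈ (Icc 1 x).filter (fun p => p.Prime ∧ p ∈ R), (1 : ℝ) / p)) := by
    calc Real.exp (∑ p ∈ (Icc 1 x).filter Nat.Prime, w p / p)
        ≤ Real.exp (Real.log (Real.log x) + (C₀ +
            -∑ p ∈ (Icc 1 x).filter (fun p => p.Prime ∧ p ∈ R), (1 : ℝ) / p)) := Real.exp_le_exp.2 (by linarith)
      _ = _ := by rw [Real.exp_add, Real.exp_log hL, Real.exp_add]
  have h8 := A1_sum_le_prod w (fun p hp => (hw p hp).1) x
  have h9 : (((Icc 1 x).filter fun n => Squarefree n ∧ ∀ p : ℕ, p.Prime → p ∣ n → p ∉ R).card : ℝ) *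
      Real.log x ≤ (3 * Real.exp C₀ * x *
        Real.exp (-∑ p ∈ (Icc 1 x).filter (fun p => p.Prime ∧ p ∈ R), (1 : ℝ) / p)) * Real.log x := by
    calc _ ≤ (∑ n ∈ (Icc 1 x).filter Squarefree, QT.pf w n) * Real.log x :=
          mul_le_mul_of_nonneg_right h2 hL.le
      _ ≤ 3 * x * ∑ n ∈ (Icc 1 x).filter Squarefree, QT.pf w n / n := h1
      _ ≤ 3 * x * (Real.log x * (Real.exp C₀ *
            Real.exp (-∑ p ∈ (Icc 1 x).filter (fun p => p.Prime ∧ p ∈ R), (1 : ℝ) / p))) :=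
          mul_le_mul_of_nonneg_left (h8.trans (h4.trans h7)) (by positivity)
      _ = _ := by ring
  exact le_of_mul_le_mul_right h9 hL

end QV
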