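import Pool.Agent.Lib.MP_10e784_agQV.Defs
import Pool.Agent.Lib.MP_10e784_agTR.TRInc
import Pool.Agent.Lib.MP_10e784_ag.TW.TWRtLow

/-! JOB A2.  At least half of the primes have `(d / p) = 1`.
If `d` is no square: `G = X ^ 2 - d` is monic and irreducible over `ℚ`; `rt G p = 1 + (d / p)` for `p ∤ 2 d`; the sum of `rt G p / p` over `2 ^ a < p ≤ 2 ^ b` is at least `log log 2 ^ b - log log 2 ^ a - C = log (b / a) - C` (`PT.rt_sum` and the lower bound `TW.rt_low`: `PT.PS` at `2 ^ b` minus `PT.PS` at `2 ^ a`); the finitely many primes `p ∣ 2 d` cost a constant (`rt ≤ 2`).  If `d ≠ 0` is a square the summand is `2 / p` for `p ∤ d`, and `∑ 1 / p ≥ log (b / a) - C` (`G = X`). -/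

set_option autoImplicit false

namespace QV

open Finset Polynomial

private theorem a2_gen (G : ℤ[X]) (hm : G.Monic)
    (hirr : Irreducible (G.map (Int.castRingHom ℚ))) :
    ∃ C : ℝ, 0 ≤ C ∧ ∀ a b : ℕ, 1 ≤ a → a ≤ b → Real.log ((b : ℝ) / a) - C ≤
      ∑ p ∈ (Ioc (2 ^ a) (2 ^ b)).filter Nat.Prime, (PT.rt G p : ℝ) / p := by
  obtain ⟨C1, h1⟩ := TW.rt_low G hm hirr
  obtain ⟨C2, h2⟩ := PT.rt_sum G hirr
  refine ⟨|C1 + C2|, abs_nonneg _, fun a b ha hab => ?_⟩
  have hx : ∀ n : ℕ, 1 ≤ n → (2 : ℝ) ≤ ((2 ^ n : ℕ) : ℝ) := by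
    intro n hn
    have h3 : 2 ^ 1 ≤ 2 ^ n := Nat.pow_le_pow_right (by norm_num) hn
    rw [pow_one] at h3
    exact_mod_cast h3
  have hP : ∀ n : ℕ, PT.PS (fun p => (PT.rt G p : ℝ)) ((2 ^ n : ℕ) : ℝ) =
      ∑ p ∈ Ioc 0 (2 ^ n), if p.Prime then (PT.rt G p : ℝ) / p else 0 := by
    intro n
    unfold PT.PS
    rw [Nat.floor_natCast, sum_filter]
    refine sum_congr ?_ fun p _ => rfl
    ext p
    rw [mem_Icc, mem_Ioc]
    omega
  have hl : ∀ n : ℕ, 1 ≤ n → Real.log (Real.log ((2 ^ n : ℕ) : ℝ)) =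
      Real.log n + Real.log (Real.log 2) := by
    intro n hn
    have hn0 : (n : ℝ) ≠ 0 := by
      have : n ≠ 0 := by omega
      exact_mod_cast this
    rw [Nat.cast_pow, Nat.cast_ofNat, Real.log_pow,
      Real.log_mul hn0 (Real.log_pos (by norm_num)).ne']
  have hb : 1 ≤ b := ha.trans hab
  have e1 := h1 _ (hx b hb)
  have e2 := h2 _ (hx a ha)
  rw [hP, hl b hb] at e1
  rw [hP, hl a ha] at e2
  have e3 := sum_Ioc_consecutive (fun p => if p.Prime then (PT.rt G p : ℝ) / p else 0)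
    (Nat.zero_le (2 ^ a)) (Nat.pow_le_pow_right (by norm_num : 0 < 2) hab)
  have ha0 : (a : ℝ) ≠ 0 := by
    have : a ≠ 0 := by omega
    exact_mod_cast this
  have hb0 : (b : ℝ) ≠ 0 := by
    have : b ≠ 0 := by omega
    exact_mod_cast this
  rw [sum_filter, Real.log_div hb0 ha0]
  have e4 := le_abs_self (C1 + C2)
  linarith

private theorem a2_rt (d : ℤ) (p : ℕ) (hp : p.Prime) (hp2 : p ≠ 2) :
    (PT.rt (X ^ 2 - C d) p : ℤ) = 1 + jacobiSym d p := by
  have : Fact p.Prime := ⟨hp⟩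
  have h1 := legendreSym.card_sqrts p hp2 d
  rw [jacobiSym.legendreSym.to_jacobiSym] at h1
  rw [add_comm 1, ← h1]
  unfold PT.rt
  rw [Nat.card_eq_fintype_card, Set.toFinset_card]
  refine congrArg _ (Fintype.card_congr (Equiv.subtypeEquivRight fun ρ => ?_))
  rw [Polynomial.map_sub, Polynomial.map_pow, Polynomial.map_X, Polynomial.map_C, eval_sub,
    eval_pow, eval_X, eval_C, sub_eq_zero]
  rfl

theorem chi_low (d : ℤ) (hd : d ≠ 0) : ∃ C : ℝ, 0 ≤ C ∧ ∀ a b : ℕ, 1 ≤ a → a ≤ b →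
    Real.log ((b : ℝ) / a) - C ≤ ∑ p ∈ (Ioc (2 ^ a) (2 ^ b)).filter Nat.Prime, (1 + (jacobiSym d p : ℝ)) / p := by
  by_cases hsq : IsSquare d
  · obtain ⟨C, hC, h⟩ := a2_gen X monic_X (by
      rw [Polynomial.map_X]
      exact irreducible_X)
    refine ⟨C, hC, fun a b ha hab => (h a b ha hab).trans ?_⟩
    refine sum_le_sum fun p hp => ?_
    rw [mem_filter] at hp
    have : Fact p.Prime := ⟨hp.2⟩
    have h1 : (PT.rt X p : ℝ) = 1 := by
      unfold PT.rt
      rw [Polynomial.map_X]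
      simp only [eval_X]
      rw [Nat.card_eq_fintype_card, Fintype.card_unique, Nat.cast_one]
    have h2 : (0 : ℤ) ≤ jacobiSym d p := by
      obtain ⟨e, rfl⟩ := hsq
      rw [jacobiSym.mul_left]
      exact mul_self_nonneg _
    have h3 : (0 : ℝ) ≤ (jacobiSym d p : ℝ) := by exact_mod_cast h2
    rw [h1]
    exact div_le_div_of_nonneg_right (by linarith) (Nat.cast_nonneg p)
  · obtain ⟨C, hC, h⟩ := a2_gen (X ^ 2 - C d) (monic_X_pow_sub_C d two_ne_zero) (by
      rw [Polynomial.map_sub, Polynomial.map_pow, Polynomial.map_X, Polynomial.map_C]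
      have hdeg : (X ^ 2 - C ((Int.castRingHom ℚ) d) : ℚ[X]).natDegree = 2 :=
        natDegree_X_pow_sub_C
      rw [(monic_X_pow_sub_C _ two_ne_zero).irreducible_iff_roots_eq_zero_of_degree_le_three
        (by rw [hdeg]) (by rw [hdeg]; norm_num)]
      rw [Multiset.eq_zero_iff_forall_notMem]
      intro r hr
      have h1 := (mem_roots'.1 hr).2
      rw [IsRoot, eval_sub, eval_pow, eval_X, eval_C, sub_eq_zero] at h1
      apply hsq
      rw [← Rat.isSquare_intCast_iff]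
      refine ⟨r, ?_⟩
      rw [← pow_two, h1]
      rfl)
    refine ⟨C, hC, fun a b ha hab => (h a b ha hab).trans (le_of_eq ?_)⟩
    refine sum_congr rfl fun p hp => ?_
    rw [mem_filter, mem_Ioc] at hp
    have hp2 : p ≠ 2 := by
      have h3 : 2 ^ 1 ≤ 2 ^ a := Nat.pow_le_pow_right (by norm_num) ha
      omega
    have h4 : (PT.rt (X ^ 2 - Polynomial.C d) p : ℝ) = 1 + (jacobiSym d p : ℝ) := by
      have h5 := a2_rt d p hp.2 hp2
      have h6 := congrArg (fun z : ℤ => (z : ℝ)) h5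
      push_cast at h6
      exact h6
    rw [h4]

end QV
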