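import Pool.Agent.Lib.MP_10e784_agQV.LS2

/-! JOB LS3.  Two short facts.
`exc_gen`: `R` is the union over `i ∈ Ico a b` of the sets `R i = {m ∈ R : η / i < |sm m i|}`; each has at most `2 i ^ 2 / η ^ 2 ≤ 2 b ^ 2 / η ^ 2` elements by `ls`, and there are at most `b` of them.
`blocks`: the interval `(2 ^ a, 2 ^ b]` is the disjoint union of the `(2 ^ i, 2 ^ (i + 1)]`, `a ≤ i < b` (induction on `b`), and `∑_{i = a}^{b-1} 1 / i ≤ 1 / a + log (b / a) ≤ log (b / a) + 1`. -/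

set_option autoImplicit false

namespace QV

open Finset

theorem exc_gen (R : Finset ℤ) (Q a b : ℕ) (η : ℝ) (hη : 0 < η) (hR : ∀ m ∈ R, m ≠ 0 ∧ |m| ≤ (Q : ℤ))
    (hd : ∀ m ∈ R, ∀ m' ∈ R, m ≠ m' → ¬ IsSquare (m * m')) (ha : 1 ≤ a)
    (hP : ∀ i ∈ Ico a b, 8 * (Q : ℝ) ^ 2 * (i : ℝ) ^ 2 ≤ η ^ 2 * 2 ^ i)
    (hbad : ∀ m ∈ R, ∃ i ∈ Ico a b, η / i < |sm m i|) :
    (R.card : ℝ) ≤ 2 * (b : ℝ) ^ 3 / η ^ 2 := by
  classical
  have hsub : R ⊆ (Ico a b).biUnion (fun i => R.filter (fun m => η / i < |sm m i|)) := by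
    intro m hm
    obtain ⟨i, hi, h⟩ := hbad m hm
    exact mem_biUnion.2 ⟨i, hi, mem_filter.2 ⟨hm, h⟩⟩
  have h1 : R.card ≤ ∑ i ∈ Ico a b, (R.filter (fun m => η / i < |sm m i|)).card :=
    (card_le_card hsub).trans card_biUnion_le
  have h2 : ∀ i ∈ Ico a b, ((R.filter (fun m => η / i < |sm m i|)).card : ℝ) ≤
      2 * (b : ℝ) ^ 2 / η ^ 2 := by
    intro i hi
    have h3 := ls (R.filter (fun m => η / i < |sm m i|)) Q i η hη
      (fun m hm => hR m (mem_filter.1 hm).1)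
      (fun m hm m' hm' => hd m (mem_filter.1 hm).1 m' (mem_filter.1 hm').1)
      (ha.trans (mem_Ico.1 hi).1) (hP i hi) (fun m hm => (mem_filter.1 hm).2.le)
    refine h3.trans ?_
    have h4 : (i : ℝ) ≤ b := by exact_mod_cast (mem_Ico.1 hi).2.le
    have h5 : (0 : ℝ) ≤ i := Nat.cast_nonneg i
    gcongr
  calc (R.card : ℝ) ≤ ((∑ i ∈ Ico a b, (R.filter (fun m => η / i < |sm m i|)).card : ℕ) : ℝ) := by
        exact_mod_cast h1
    _ = ∑ i ∈ Ico a b, ((R.filter (fun m => η / i < |sm m i|)).card : ℝ) := by push_cast; rfl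
    _ ≤ ∑ i ∈ Ico a b, 2 * (b : ℝ) ^ 2 / η ^ 2 := sum_le_sum h2
    _ = ((b - a : ℕ) : ℝ) * (2 * (b : ℝ) ^ 2 / η ^ 2) := by
        rw [sum_const, Nat.card_Ico, nsmul_eq_mul]
    _ ≤ (b : ℝ) * (2 * (b : ℝ) ^ 2 / η ^ 2) := by
        have h6 : ((b - a : ℕ) : ℝ) ≤ b := by exact_mod_cast Nat.sub_le b a
        gcongr
    _ = 2 * (b : ℝ) ^ 3 / η ^ 2 := by ring

theorem blocks (m : ℤ) (a b : ℕ) (ha : 1 ≤ a) (hab : a ≤ b) (η : ℝ) (hη : 0 ≤ η) (h : ∀ i ∈ Ico a b, |sm m i| ≤ η / i) :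
    |∑ p ∈ (Ioc (2 ^ a) (2 ^ b)).filter Nat.Prime, (jacobiSym m p : ℝ) / p| ≤ η * (Real.log ((b : ℝ) / a) + 1) := by
  have hlog : ∀ b : ℕ, a ≤ b → ∑ i ∈ Ico a b, (1 : ℝ) / i ≤
      Real.log ((b : ℝ) / a) + 1 / a - 1 / b := by
    intro b hab
    induction b, hab using Nat.le_induction with
    | base =>
      have ha' : (a : ℝ) ≠ 0 := by positivity
      rw [Ico_self, sum_empty, div_self ha', Real.log_one]
      simp
    | succ b hab ih =>
      rw [sum_Ico_succ_top hab]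
      have ha' : (0 : ℝ) < a := by exact_mod_cast ha
      have hb' : (0 : ℝ) < b := by exact_mod_cast (lt_of_lt_of_le ha hab)
      have hb1 : (0 : ℝ) < ((b + 1 : ℕ) : ℝ) := by positivity
      have h1 : Real.log (((b + 1 : ℕ) : ℝ) / a) =
          Real.log ((b : ℝ) / a) + Real.log (((b + 1 : ℕ) : ℝ) / b) := by
        rw [← Real.log_mul (by positivity) (by positivity)]
        congr 1
        field_simp
      have h2 := Real.one_sub_inv_le_log_of_pos (show (0 : ℝ) < ((b + 1 : ℕ) : ℝ) / b by positivity)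
      have h3 : 1 - (((b + 1 : ℕ) : ℝ) / b)⁻¹ = 1 / ((b + 1 : ℕ) : ℝ) := by
        rw [inv_div]
        field_simp
        push_cast
        ring
      rw [h3] at h2
      rw [h1]
      linarith
  have hmain : ∀ b : ℕ, a ≤ b → (∀ i ∈ Ico a b, |sm m i| ≤ η / i) →
      |∑ p ∈ (Ioc (2 ^ a) (2 ^ b)).filter Nat.Prime, (jacobiSym m p : ℝ) / p| ≤
        ∑ i ∈ Ico a b, η / i := by
    intro b hab
    induction b, hab using Nat.le_induction with
    | base =>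
      intro _
      simp
    | succ b hab ih =>
      intro h
      have h1 := ih fun i hi => h i (mem_Ico.2 ⟨(mem_Ico.1 hi).1, (mem_Ico.1 hi).2.trans (Nat.lt_succ_self b)⟩)
      have h2 := h b (mem_Ico.2 ⟨hab, Nat.lt_succ_self b⟩)
      have h3 : (Ioc (2 ^ a) (2 ^ (b + 1))).filter Nat.Prime =
          (Ioc (2 ^ a) (2 ^ b)).filter Nat.Prime ∪ (Ioc (2 ^ b) (2 ^ (b + 1))).filter Nat.Prime := by
        rw [← filter_union, Ioc_union_Ioc_eq_Ioc (Nat.pow_le_pow_right (by norm_num) hab)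
          (Nat.pow_le_pow_right (by norm_num) (Nat.le_succ b))]
      have h4 : Disjoint ((Ioc (2 ^ a) (2 ^ b)).filter Nat.Prime)
          ((Ioc (2 ^ b) (2 ^ (b + 1))).filter Nat.Prime) := by
        rw [disjoint_left]
        intro p hp hp'
        have h5 := (mem_Ioc.1 (mem_filter.1 hp).1).2
        have h6 := (mem_Ioc.1 (mem_filter.1 hp').1).1
        omega
      rw [h3, sum_union h4, sum_Ico_succ_top hab]
      exact (abs_add_le _ _).trans (add_le_add h1 h2)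
  refine (hmain b hab h).trans ?_
  have h1 : ∑ i ∈ Ico a b, η / (i : ℝ) = η * ∑ i ∈ Ico a b, (1 : ℝ) / i := by
    rw [mul_sum]
    exact sum_congr rfl fun i _ => by ring
  rw [h1]
  refine mul_le_mul_of_nonneg_left ((hlog b hab).trans ?_) hη
  have ha' : (1 : ℝ) ≤ a := by exact_mod_cast ha
  have h2 : (1 : ℝ) / a ≤ 1 := by
    rw [div_le_one (by positivity)]
    exact ha'
  have h3 : (0 : ℝ) ≤ 1 / b := by positivity
  linarith

end QV
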