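import Pool.Agent.Lib.MP_10e784_agQV.A1
import Pool.Agent.Lib.MP_10e784_agQV.A2
import Pool.Agent.Lib.MP_10e784_agQV.LS3

/-! JOB A3.  The count for one `d` which is not exceptional.
`R = {p prime : p ∤ 2 M a b, ¬ IsSquare (a d mod p), ¬ IsSquare (b d mod p)}`.  `zs (a d) (b d) M x` is at most the count in `hall_excl` (`Nat.card` of the subtype = card of the filter of `Icc 1 x`).  For the primes `p ∈ (2 ^ s, 2 ^ t]` (these are `≤ x`, odd, and `> d`, so `p ∤ d`) with `p ∤ M a b` the indicator of `R` is `(1 - χ_{ad}) (1 - χ_{bd}) / 4 = (1 - χ_{ad} - χ_{bd} + χ_{ab}) / 4` with `χ_m p = jacobiSym m p` (`χ_{ad} χ_{bd} = χ_{ab d ^ 2} = χ_{ab}` as `p ∤ d`).  So the sum of `1 / p` over `R`, `p ≤ x`, is at least `(1/4) ∑ (1 + χ_{ab}) / p - (1/4) |∑ χ_{ad} / p| - (1/4) |∑ χ_{bd} / p| - (the primes dividing M a b: a constant)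
≥ (1/4) log (t/s) - C - (1/2) (1/10) (log (t/s) + 1) = (1/5) log (t/s) - C'` (`chi_low (a b)`, `blocks`).  `exp (-(1/5) log (t/s)) = (s / t) ^ (1/5)`. -/

set_option autoImplicit false

namespace QV

open Finset

private theorem A3_pm (p : ℕ) [Fact p.Prime] {m : ℤ} (h : ¬ ((p : ℤ) ∣ m)) : legendreSym p m = 1 ∨ legendreSym p m = -1 := by
  refine legendreSym.eq_one_or_neg_one p ?_
  intro h0
  exact h ((ZMod.intCast_zmod_eq_zero_iff_dvd m p).1 h0)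

/-- the indicator of the primes which are used -/
private theorem A3_pt {a b : ℤ} {M d p : ℕ} (hp : p.Prime) (hd : 1 ≤ d) (hdp : d < p) (hN : ¬ p ∣ M * (a.natAbs * b.natAbs))
    (R : Set ℕ) (hR : R = {p | p.Prime ∧ ¬ p ∣ M ∧ ¬ IsSquare (((a * d : ℤ)) : ZMod p) ∧ ¬ IsSquare (((b * d : ℤ)) : ZMod p)})
    (hnR : p ∉ R) :
    (1 : ℝ) - (jacobiSym (a * d) p : ℝ) - (jacobiSym (b * d) p : ℝ) + (jacobiSym (a * b) p : ℝ) = 0 := by
  have _ : Fact p.Prime := ⟨hp⟩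
  have hM : ¬ p ∣ M := fun h => hN (h.mul_right _)
  have ha : ¬ ((p : ℤ) ∣ a) := fun h => hN ((Int.natCast_dvd.1 h).mul_right _ |>.mul_left _)
  have hb : ¬ ((p : ℤ) ∣ b) := fun h => hN ((Int.natCast_dvd.1 h).mul_left _ |>.mul_left _)
  have hdd : ¬ ((p : ℤ) ∣ (d : ℤ)) := fun h => absurd (Nat.le_of_dvd hd (Int.natCast_dvd_natCast.1 h)) (not_le.2 hdp)
  rw [hR] at hnR
  have h1 : legendreSym p (a * d) ≠ -1 ∨ legendreSym p (b * d) ≠ -1 := by
    by_contra hcon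
    push Not at hcon
    exact hnR ⟨hp, hM, (legendreSym.eq_neg_one_iff p).1 hcon.1, (legendreSym.eq_neg_one_iff p).1 hcon.2⟩
  rw [← jacobiSym.legendreSym.to_jacobiSym, ← jacobiSym.legendreSym.to_jacobiSym, ← jacobiSym.legendreSym.to_jacobiSym]
  rw [legendreSym.mul, legendreSym.mul] at h1
  rw [legendreSym.mul, legendreSym.mul, legendreSym.mul]
  rcases A3_pm p ha with h2 | h2 <;> rcases A3_pm p hb with h3 | h3 <;> rcases A3_pm p hdd with h4 | h4 <;>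
    rw [h2, h3, h4] at h1 ⊢ <;> first | (exfalso; revert h1; norm_num; done) | norm_num

private theorem A3_le (m : ℤ) (p : ℕ) : |(jacobiSym m p : ℝ)| ≤ 1 := by
  rcases jacobiSym.trichotomy m p with h | h | h <;> rw [h] <;> norm_num

theorem one_d (a b : ℤ) (ha : a ≠ 0) (hb : b ≠ 0) (M : ℕ) (hM : M ≠ 0) : ∃ C : ℝ, 0 < C ∧ ∀ d s t x : ℕ, 1 ≤ d → 1 ≤ s → s ≤ t →
    2 ^ t ≤ x → d < 2 ^ s → (∀ i ∈ Ico s t, |sm (a * d) i| ≤ (1 / 10 : ℝ) / i) → (∀ i ∈ Ico s t, |sm (b * d) i| ≤ (1 / 10 : ℝ) / i) →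
    (zs (a * d) (b * d) M x : ℝ) ≤ C * x * ((s : ℝ) / t) ^ (1 / 5 : ℝ) := by
  classical
  obtain ⟨C1, hC1, h1⟩ := hall_excl
  obtain ⟨C2, hC2, h2⟩ := chi_low (a * b) (mul_ne_zero ha hb)
  obtain ⟨N, hNdef⟩ : ∃ N : ℕ, N = M * (a.natAbs * b.natAbs) := ⟨_, rfl⟩
  have hN : N ≠ 0 := by
    rw [hNdef]
    exact mul_ne_zero hM (mul_ne_zero (Int.natAbs_ne_zero.2 ha) (Int.natAbs_ne_zero.2 hb))
  refine ⟨C1 * Real.exp (C2 / 4 + 1 / 20 + N.divisors.card), mul_pos hC1 (Real.exp_pos _), fun d s t x hd hs hst htx hds hA hB => ?_⟩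
  have ht1 : 1 ≤ t := hs.trans hst
  have hx2 : 2 ≤ x := by
    calc 2 = 2 ^ 1 := by norm_num
      _ ≤ 2 ^ t := Nat.pow_le_pow_right (by norm_num) ht1
      _ ≤ x := htx
  obtain ⟨R, hR⟩ : ∃ R : Set ℕ, R = {p | p.Prime ∧ ¬ p ∣ M ∧ ¬ IsSquare (((a * d : ℤ)) : ZMod p) ∧
    ¬ IsSquare (((b * d : ℤ)) : ZMod p)} := ⟨_, rfl⟩
  have h3 := h1 R x hx2
  have h4 : (zs (a * d) (b * d) M x : ℝ) ≤
      C1 * x * Real.exp (-∑ p ∈ (Icc 1 x).filter (fun p => p.Prime ∧ p ∈ R), (1 : ℝ) / p) := by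
    refine le_trans ?_ h3
    have h5 : zs (a * d) (b * d) M x ≤ Nat.card ((Icc 1 x).filter fun n => Squarefree n ∧ ∀ p : ℕ, p.Prime → p ∣ n → p ∉ R) := by
      unfold zs
      refine Nat.card_le_card_of_injective (fun z => ⟨z.1, ?_⟩) ?_
      · rw [Finset.mem_filter, Finset.mem_Icc]
        refine ⟨⟨z.2.1, z.2.2.1⟩, z.2.2.2.1, fun p hp hpz hpR => ?_⟩
        rw [hR] at hpR
        rcases z.2.2.2.2 p hp hpz hpR.2.1 with h | h
        · exact hpR.2.2.1 h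
        · exact hpR.2.2.2 h
      · intro z z' hzz
        exact Subtype.ext (by simpa only [Subtype.mk.injEq] using hzz)
    rw [Nat.card_eq_fintype_card, Fintype.card_coe] at h5
    exact_mod_cast h5
  refine h4.trans ?_
  obtain ⟨S, hS⟩ : ∃ S : Finset ℕ, S = (Ioc (2 ^ s) (2 ^ t)).filter Nat.Prime := ⟨_, rfl⟩
  have hSm : ∀ p ∈ S, p.Prime ∧ 2 ^ s < p ∧ p ≤ 2 ^ t := by
    intro p hp
    rw [hS, Finset.mem_filter, Finset.mem_Ioc] at hp
    exact ⟨hp.2, hp.1⟩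
  have h5 : ∑ p ∈ S, (if p ∈ R then (1 : ℝ) / p else 0) ≤ ∑ p ∈ (Icc 1 x).filter (fun p => p.Prime ∧ p ∈ R), (1 : ℝ) / p := by
    rw [← Finset.sum_filter]
    refine Finset.sum_le_sum_of_subset_of_nonneg (fun p hp => ?_) fun p _ _ => by positivity
    rw [Finset.mem_filter] at hp
    obtain ⟨hp1, hp2⟩ := hp
    obtain ⟨hp3, -, hp4⟩ := hSm p hp1
    rw [Finset.mem_filter, Finset.mem_Icc]
    exact ⟨⟨hp3.one_le, hp4.trans htx⟩, hp3, hp2⟩
  have h6 : ∑ p ∈ S, (if p ∣ N then (1 : ℝ) / p else 0) ≤ N.divisors.card := by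
    rw [← Finset.sum_filter]
    calc ∑ p ∈ S.filter (fun p => p ∣ N), (1 : ℝ) / p ≤ ∑ p ∈ S.filter (fun p => p ∣ N), (1 : ℝ) := by
          refine Finset.sum_le_sum fun p hp => ?_
          have h7 := (hSm p (Finset.mem_filter.1 hp).1).1.one_lt.le
          rw [div_le_one (by exact_mod_cast (by omega : 0 < p))]
          exact_mod_cast h7
      _ = ((S.filter (fun p => p ∣ N)).card : ℝ) := by rw [Finset.sum_const, nsmul_eq_mul, mul_one]
      _ ≤ N.divisors.card := by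
          refine Nat.cast_le.2 (Finset.card_le_card fun p hp => ?_)
          exact Nat.mem_divisors.2 ⟨(Finset.mem_filter.1 hp).2, hN⟩
  have h7 : ∀ p ∈ S, ((1 : ℝ) - (jacobiSym (a * d) p : ℝ) - (jacobiSym (b * d) p : ℝ) + (jacobiSym (a * b) p : ℝ)) / p ≤
      4 * ((if p ∈ R then (1 : ℝ) / p else 0) + (if p ∣ N then (1 : ℝ) / p else 0)) := by
    intro p hp
    obtain ⟨hp1, hp2, -⟩ := hSm p hp
    have hp0 : (0 : ℝ) < p := by exact_mod_cast hp1.pos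
    have h8 : ((1 : ℝ) - (jacobiSym (a * d) p : ℝ) - (jacobiSym (b * d) p : ℝ) + (jacobiSym (a * b) p : ℝ)) / p ≤ 4 * (1 / p) := by
      rw [mul_one_div]
      refine div_le_div_of_nonneg_right ?_ hp0.le
      have e1 := abs_le.1 (A3_le (a * d) p)
      have e2 := abs_le.1 (A3_le (b * d) p)
      have e3 := abs_le.1 (A3_le (a * b) p)
      linarith [e1.1, e2.1, e3.2]
    have h9 : (0 : ℝ) ≤ 1 / p := by positivity
    by_cases hN' : p ∣ N
    · rw [if_pos hN']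
      split_ifs
      · linarith
      · linarith
    · rw [if_neg hN', add_zero]
      by_cases hpR : p ∈ R
      · rw [if_pos hpR]
        exact h8
      · rw [if_neg hpR, A3_pt hp1 hd (hds.trans hp2) (by rwa [← hNdef]) R hR hpR, zero_div, mul_zero]
  have h8 := Finset.sum_le_sum h7
  rw [← Finset.mul_sum, Finset.sum_add_distrib] at h8
  have h9 : ∑ p ∈ S, ((1 : ℝ) - (jacobiSym (a * d) p : ℝ) - (jacobiSym (b * d) p : ℝ) + (jacobiSym (a * b) p : ℝ)) / p =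
      ∑ p ∈ S, (1 + (jacobiSym (a * b) p : ℝ)) / p - ∑ p ∈ S, (jacobiSym (a * d) p : ℝ) / p -
        ∑ p ∈ S, (jacobiSym (b * d) p : ℝ) / p := by
    rw [← Finset.sum_sub_distrib, ← Finset.sum_sub_distrib]
    refine Finset.sum_congr rfl fun p _ => ?_
    ring
  have h10 := h2 s t hs hst
  have h11 := blocks (a * d) s t hs hst (1 / 10) (by norm_num) hA
  have h12 := blocks (b * d) s t hs hst (1 / 10) (by norm_num) hB
  rw [← hS] at h10 h11 h12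
  have h13 := (abs_le.1 h11).2
  have h14 := (abs_le.1 h12).2
  have h15 : (1 / 5 : ℝ) * Real.log ((t : ℝ) / s) - (C2 / 4 + 1 / 20 + N.divisors.card) ≤
      ∑ p ∈ (Icc 1 x).filter (fun p => p.Prime ∧ p ∈ R), (1 : ℝ) / p := by
    rw [h9] at h8
    linarith
  have hs0 : (0 : ℝ) < s := by exact_mod_cast hs
  have ht0 : (0 : ℝ) < t := by exact_mod_cast ht1
  have h16 : Real.exp (-∑ p ∈ (Icc 1 x).filter (fun p => p.Prime ∧ p ∈ R), (1 : ℝ) / p) ≤
      Real.exp (C2 / 4 + 1 / 20 + N.divisors.card) * ((s : ℝ) / t) ^ (1 / 5 : ℝ) := by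
    rw [Real.rpow_def_of_pos (div_pos hs0 ht0), ← Real.exp_add]
    refine Real.exp_le_exp.2 ?_
    have h17 : Real.log ((s : ℝ) / t) = - Real.log ((t : ℝ) / s) := by
      rw [← Real.log_inv, inv_div]
    rw [h17]
    linarith
  calc C1 * x * Real.exp (-∑ p ∈ (Icc 1 x).filter (fun p => p.Prime ∧ p ∈ R), (1 : ℝ) / p)
      ≤ C1 * x * (Real.exp (C2 / 4 + 1 / 20 + N.divisors.card) * ((s : ℝ) / t) ^ (1 / 5 : ℝ)) :=
        mul_le_mul_of_nonneg_left h16 (by positivity)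
    _ = C1 * Real.exp (C2 / 4 + 1 / 20 + N.divisors.card) * x * ((s : ℝ) / t) ^ (1 / 5 : ℝ) := by ring

end QV
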