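import Pool.Agent.Lib.MP_10e784_agQV.LS3

/-! JOB A4.  The exceptional `d`.
`exc_gen` for `R` = the image of the set under `d ↦ a d` (injective), `Q = |a| 2 ^ (q + 1)`, `a := 4 q`, `b := t`, `η = 1 / 10`: `a d a d' = a ^ 2 (d d')` is a square only if `d d'` is, i.e. `d = d'` (both squarefree and positive).  The condition `8 (|a| 2 ^ (q+1)) ^ 2 i ^ 2 ≤ (1/100) 2 ^ i` for all `i ≥ 4 q` holds for `q ≥ q0 (a)`: write `2 ^ i = 2 ^ (i/2) 2 ^ (i/2)`, `2 ^ (i/2) ≥ 4 ^ q` and `3200 |a| ^ 2 i ^ 2 ≤ 2 ^ (i/2)` for large `i`.  `2 t ^ 3 / (1/10) ^ 2 = 200 t ^ 3`. -/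

set_option autoImplicit false

namespace QV

open Finset

/-- two squarefree numbers whose product is a square are equal -/
private theorem A4_sq {d e : ℕ} (hd : Squarefree d) (he : Squarefree e) {s : ℕ} (h : d * e = s * s) : d = e := by
  have hd0 : d ≠ 0 := hd.ne_zero
  have he0 : e ≠ 0 := he.ne_zero
  have hs0 : s ≠ 0 := by
    rintro rfl
    exact mul_ne_zero hd0 he0 h
  refine Nat.eq_of_factorization_eq hd0 he0 fun p => ?_
  have h1 := congrArg (fun n => n.factorization p) h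
  simp only [Nat.factorization_mul hd0 he0, Nat.factorization_mul hs0 hs0, Finsupp.coe_add, Pi.add_apply] at h1
  have h2 := hd.natFactorization_le_one p
  have h3 := he.natFactorization_le_one p
  omega

private theorem A4_mem {P : ℤ → Prop} {inst : DecidablePred P} {s : Finset ℤ} {d : ℤ} (h : d ∈ @Finset.filter ℤ P inst s) : d ∈ s ∧ P d :=
  Finset.mem_filter.1 h

private theorem A4_grow (C : ℝ) : ∃ j0 : ℕ, ∀ j : ℕ, j0 ≤ j → C * (j : ℝ) ^ 2 ≤ 2 ^ j := by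
  have h1 := tendsto_pow_const_div_const_pow_of_one_lt 2 (one_lt_two : (1 : ℝ) < 2)
  have hC : 0 < |C| + 1 := by positivity
  have h2 : ∀ᶠ n : ℕ in Filter.atTop, (n : ℝ) ^ 2 / 2 ^ n < 1 / (|C| + 1) := h1.eventually_lt_const (by positivity)
  obtain ⟨j0, h3⟩ := Filter.eventually_atTop.1 h2
  refine ⟨j0, fun j hj => ?_⟩
  have h4 := h3 j hj
  rw [div_lt_div_iff₀ (by positivity) hC, one_mul] at h4
  have h5 : C * (j : ℝ) ^ 2 ≤ (j : ℝ) ^ 2 * (|C| + 1) := by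
    rw [mul_comm]
    exact mul_le_mul_of_nonneg_left (by linarith [le_abs_self C]) (by positivity)
  linarith

open Classical in
theorem exc_d (a : ℤ) (ha : a ≠ 0) : ∃ q0 : ℕ, ∀ q t : ℕ, q0 ≤ q →
    (((Ioc (2 ^ q) (2 ^ (q + 1))).filter fun d => Squarefree d ∧ ∃ i ∈ Ico (4 * q) t, (1 / 10 : ℝ) / i < |sm (a * d) i|).card : ℝ) ≤
      200 * (t : ℝ) ^ 3 := by
  obtain ⟨j0, hj0⟩ := A4_grow (12800 * (a.natAbs : ℝ) ^ 2)
  refine ⟨j0 + 1, fun q t hq => ?_⟩
  obtain ⟨S, hS⟩ : ∃ S : Finset ℤ, S = (Ioc (2 ^ q) (2 ^ (q + 1))).filter fun d => Squarefree d ∧ ∃ i ∈ Ico (4 * q) t, (1 / 10 : ℝ) / i < |sm (a * d) i| := ⟨_, rfl⟩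
  rw [← hS]
  have hinj : Function.Injective fun d : ℤ => a * d := fun x y h => mul_left_cancel₀ ha h
  have hmem : ∀ d ∈ S, (2 ^ q < d ∧ d ≤ 2 ^ (q + 1)) ∧ Squarefree d ∧ ∃ i ∈ Ico (4 * q) t, (1 / 10 : ℝ) / i < |sm (a * d) i| := fun d hd => by
    rw [hS] at hd
    have h1 := A4_mem hd
    exact ⟨mem_Ioc.1 h1.1, h1.2⟩
  have hpos : ∀ d ∈ S, 0 < d := fun d hd => by
    have h1 : (0 : ℤ) < 2 ^ q := by positivity
    exact h1.trans (hmem d hd).1.1
  have key := exc_gen (S.image fun d : ℤ => a * d) (a.natAbs * 2 ^ (q + 1)) (4 * q) t (1 / 10) (by norm_num)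
    (fun m hm => by
      obtain ⟨d, hd, rfl⟩ := mem_image.1 hm
      obtain ⟨⟨h1, h2⟩, -, -⟩ := hmem d hd
      refine ⟨mul_ne_zero ha (hpos d hd).ne', ?_⟩
      rw [abs_mul, abs_of_pos (hpos d hd), Int.abs_eq_natAbs]
      push_cast
      exact mul_le_mul_of_nonneg_left h2 (abs_nonneg _))
    (fun m hm m' hm' hne hsq => by
      obtain ⟨d, hd, rfl⟩ := mem_image.1 hm
      obtain ⟨e, he, rfl⟩ := mem_image.1 hm'
      obtain ⟨-, hd1, -⟩ := hmem d hd
      obtain ⟨-, he1, -⟩ := hmem e he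
      obtain ⟨r, hr⟩ := hsq
      have h1 : a ^ 2 ∣ r ^ 2 := ⟨d * e, by rw [sq r, ← hr]; ring⟩
      obtain ⟨s, rfl⟩ := (Int.pow_dvd_pow_iff two_ne_zero).1 h1
      have h2 : (a * a) * (d * e) = (a * a) * (s * s) := by
        linarith [hr]
      have h3 : d * e = s * s := mul_left_cancel₀ (mul_ne_zero ha ha) h2
      have h4 : d.natAbs * e.natAbs = s.natAbs * s.natAbs := by
        rw [← Int.natAbs_mul, h3, Int.natAbs_mul]
      have h6 := A4_sq (Int.squarefree_natAbs.2 hd1) (Int.squarefree_natAbs.2 he1) h4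
      have h7 : d = e := by
        have h8 := hpos d hd
        have h9 := hpos e he
        omega
      exact hne (by rw [h7]))
    (by omega)
    (fun i hi => by
      rw [mem_Ico] at hi
      obtain ⟨j, rfl⟩ : ∃ j, i = j + 2 * q := ⟨i - 2 * q, by omega⟩
      have h1 := hj0 j (by omega)
      have h2 : ((j + 2 * q : ℕ) : ℝ) ≤ 2 * j := by
        have h3 : j + 2 * q ≤ 2 * j := by omega
        exact_mod_cast h3
      have h4 : ((j + 2 * q : ℕ) : ℝ) ^ 2 ≤ (2 * (j : ℝ)) ^ 2 := pow_le_pow_left₀ (Nat.cast_nonneg _) h2 2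
      have h5 : (2 : ℝ) ^ (j + 2 * q) = 2 ^ j * (2 ^ q) ^ 2 := by rw [pow_add, ← pow_mul, mul_comm 2 q]
      have h10 : ((a.natAbs * 2 ^ (q + 1) : ℕ) : ℝ) = (a.natAbs : ℝ) * (2 * 2 ^ q) := by
        rw [Nat.cast_mul, Nat.cast_pow, pow_succ]
        push_cast
        ring
      rw [h5, h10, mul_pow, mul_pow]
      have h6 : 0 ≤ (a.natAbs : ℝ) ^ 2 * ((2 : ℝ) ^ q) ^ 2 := by positivity
      have h7 : 0 ≤ ((2 : ℝ) ^ q) ^ 2 := by positivity
      have h8 := mul_le_mul_of_nonneg_left h4 h6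
      have h9 := mul_le_mul_of_nonneg_left h1 h7
      nlinarith [h8, h9])
    (fun m hm => by
      obtain ⟨d, hd, rfl⟩ := mem_image.1 hm
      exact (hmem d hd).2.2)
  rw [card_image_of_injective _ hinj] at key
  refine key.trans (le_of_eq ?_)
  ring

end QV
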