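import Pool.Agent.Lib.MP_10e784_agQV.A3
import Pool.Agent.Lib.MP_10e784_agQV.A4

/-! JOB A5.  One dyadic block of `d`.
Let `s = 4 q`, `t ≥ s`.  For the `d ∈ (2 ^ q, 2 ^ (q + 1)]` which are not exceptional for `a` or `b` (blocks `i ∈ Ico (4 q) t`) `one_d` (`x = N / d ≥ 2 ^ t`, `N / d` the integer quotient) gives `zs ≤ C (N / d) (4 q / t) ^ (1/5) ≤ C N 2 ^ (-q) (..)`, and there are at most `2 ^ q` of them.  The exceptional ones are at most `400 t ^ 3` in number (`exc_d` for `a` and `b`), each has `zs ≤ N / d ≤ N 2 ^ (-q)`. -/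

set_option autoImplicit false

namespace QV

open Finset

private theorem A5_zs (a b : ℤ) (M x : ℕ) : zs a b M x ≤ x := by
  classical
  unfold zs
  have h1 : Nat.card {z : ℕ // 1 ≤ z ∧ z ≤ x ∧ Squarefree z ∧ ∀ p : ℕ, p.Prime → p ∣ z → ¬ p ∣ M →
      IsSquare ((a : ℤ) : ZMod p) ∨ IsSquare ((b : ℤ) : ZMod p)} ≤ Nat.card (Finset.Icc 1 x) := by
    refine Nat.card_le_card_of_injective (fun z => ⟨z.1, Finset.mem_Icc.2 ⟨z.2.1, z.2.2.1⟩⟩) ?_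
    intro y z h
    have h2 := congrArg Subtype.val h
    exact Subtype.ext h2
  have h3 : Nat.card (Finset.Icc 1 x) = x := by
    rw [Nat.card_eq_fintype_card, Fintype.card_coe, Nat.card_Icc, Nat.add_sub_cancel]
  rw [h3] at h1
  exact h1

private theorem A5_div {N d q : ℕ} (hd : 2 ^ q < d) : ((N / d : ℕ) : ℝ) ≤ (N : ℝ) / 2 ^ q := by
  have h1 : ((N / d : ℕ) : ℝ) ≤ (N : ℝ) / d := Nat.cast_div_le
  have h2 : ((2 : ℝ) ^ q) ≤ d := by exact_mod_cast hd.le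
  refine le_trans h1 ?_
  exact div_le_div_of_nonneg_left (Nat.cast_nonneg N) (by positivity) h2

private theorem A5_mf {α : Type} (p : α → Prop) (inst : DecidablePred p) (s : Finset α) (x : α) :
    x ∈ @Finset.filter α p inst s ↔ x ∈ s ∧ p x := @Finset.mem_filter α p inst s x

private theorem A5_card (a : ℤ) (q t : ℕ) (F : Finset ℤ)
    (hF : ∀ d : ℤ, d ∈ Finset.Ioc ((2 : ℤ) ^ q) (2 ^ (q + 1)) →
      (Squarefree d ∧ ∃ i ∈ Ico (4 * q) t, (1 / 10 : ℝ) / i < |sm (a * d) i|) → d ∈ F) (c : ℝ)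
    (hc : (F.card : ℝ) ≤ c) : ∃ E : Finset ℕ, (E.card : ℝ) ≤ c ∧
      ∀ d : ℕ, 2 ^ q < d → d ≤ 2 ^ (q + 1) → Squarefree d → d ∉ E →
        ∀ i ∈ Ico (4 * q) t, |sm (a * (d : ℤ)) i| ≤ (1 / 10 : ℝ) / i := by
  classical
  refine ⟨(Finset.Ioc (2 ^ q) (2 ^ (q + 1))).filter (fun d : ℕ => (d : ℤ) ∈ F), ?_, ?_⟩
  · refine le_trans ?_ hc
    have h1 : ((Finset.Ioc (2 ^ q) (2 ^ (q + 1))).filter (fun d : ℕ => (d : ℤ) ∈ F)).card ≤ F.card := by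
      refine Finset.card_le_card_of_injOn (fun d : ℕ => (d : ℤ)) ?_ ?_
      · intro d hd
        exact (Finset.mem_filter.1 (Finset.mem_coe.1 hd)).2
      · intro x _ y _ hxy
        exact Int.natCast_inj.1 hxy
    exact_mod_cast h1
  · intro d h1 h2 h3 h4 i hi
    by_contra hc'
    apply h4
    refine Finset.mem_filter.2 ⟨Finset.mem_Ioc.2 ⟨h1, h2⟩, hF d ?_ ⟨Int.squarefree_natCast.2 h3, i, hi, not_le.1 hc'⟩⟩
    rw [Finset.mem_Ioc]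
    exact ⟨by exact_mod_cast h1, by exact_mod_cast h2⟩

open Classical in
theorem block_d (a b : ℤ) (ha : a ≠ 0) (hb : b ≠ 0) (M : ℕ) (hM : M ≠ 0) : ∃ (C : ℝ) (q0 : ℕ), 0 < C ∧ 1 ≤ q0 ∧ ∀ q t N : ℕ, q0 ≤ q → 4 * q ≤ t →
    2 ^ t * 2 ^ (q + 1) ≤ N →
    (∑ d ∈ (Ioc (2 ^ q) (2 ^ (q + 1)) : Finset ℕ).filter Squarefree, (zs (a * (d : ℤ)) (b * (d : ℤ)) M (N / d) : ℝ)) ≤
      C * N * ((4 * (q : ℝ) / t) ^ (1 / 5 : ℝ) + (t : ℝ) ^ 3 / 2 ^ q) := by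
  obtain ⟨C1, hC1, h1⟩ := one_d a b ha hb M hM
  obtain ⟨qa, hqa⟩ := exc_d a ha
  obtain ⟨qb, hqb⟩ := exc_d b hb
  refine ⟨C1 + 400, max (max qa qb) 1, by linarith, le_max_right _ _, ?_⟩
  intro q t N hq ht hN
  have hq1 : 1 ≤ q := le_trans (le_max_right _ _) hq
  obtain ⟨Ea, hA, hEa⟩ := A5_card a q t _ (fun d h2 h3 => (A5_mf _ _ _ _).2 ⟨h2, h3⟩) _
    (hqa q t (le_trans (le_trans (le_max_left _ _) (le_max_left _ _)) hq))
  obtain ⟨Eb, hB, hEb⟩ := A5_card b q t _ (fun d h2 h3 => (A5_mf _ _ _ _).2 ⟨h2, h3⟩) _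
    (hqb q t (le_trans (le_trans (le_max_right _ _) (le_max_left _ _)) hq))
  obtain ⟨Y, hY⟩ : ∃ Y : ℝ, Y = (4 * (q : ℝ) / t) ^ (1 / 5 : ℝ) := ⟨_, rfl⟩
  have hY0 : 0 ≤ Y := by
    rw [hY]
    positivity
  have hN0 : (0 : ℝ) ≤ (N : ℝ) / 2 ^ q := by positivity
  have hpt : ∀ d ∈ (Ioc (2 ^ q) (2 ^ (q + 1)) : Finset ℕ).filter Squarefree,
      (zs (a * (d : ℤ)) (b * (d : ℤ)) M (N / d) : ℝ) ≤
        C1 * ((N : ℝ) / 2 ^ q) * Y + if d ∈ Ea ∪ Eb then (N : ℝ) / 2 ^ q else 0 := by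
    intro d hd
    obtain ⟨hd1, hd2⟩ := (A5_mf _ _ _ _).1 hd
    obtain ⟨hd3, hd4⟩ := Finset.mem_Ioc.1 hd1
    have hdiv : ((N / d : ℕ) : ℝ) ≤ (N : ℝ) / 2 ^ q := A5_div hd3
    have hnn : 0 ≤ C1 * ((N : ℝ) / 2 ^ q) * Y := mul_nonneg (mul_nonneg hC1.le hN0) hY0
    by_cases he : d ∈ Ea ∪ Eb
    · rw [if_pos he]
      have h2 : (zs (a * (d : ℤ)) (b * (d : ℤ)) M (N / d) : ℝ) ≤ ((N / d : ℕ) : ℝ) := by
        exact_mod_cast A5_zs _ _ _ _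
      linarith
    · rw [if_neg he, add_zero]
      rw [Finset.mem_union, not_or] at he
      have ha' := hEa d hd3 hd4 hd2 he.1
      have hb' := hEb d hd3 hd4 hd2 he.2
      have hdpos : 1 ≤ d := by
        have := Nat.two_pow_pos q
        omega
      have hx : 2 ^ t ≤ N / d := by
        rw [Nat.le_div_iff_mul_le hdpos]
        exact le_trans (Nat.mul_le_mul_left _ hd4) hN
      have hds : d < 2 ^ (4 * q) :=
        lt_of_le_of_lt hd4 (Nat.pow_lt_pow_right (by norm_num) (by omega))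
      have h2 := h1 d (4 * q) t (N / d) hdpos (by omega) ht hx hds ha' hb'
      have h3 : (((4 * q : ℕ) : ℝ) / t) ^ (1 / 5 : ℝ) = Y := by
        rw [hY]
        push_cast
        rfl
      rw [h3] at h2
      refine le_trans h2 ?_
      exact mul_le_mul_of_nonneg_right (mul_le_mul_of_nonneg_left hdiv hC1.le) hY0
  refine le_trans (Finset.sum_le_sum hpt) ?_
  rw [Finset.sum_add_distrib, Finset.sum_const, nsmul_eq_mul, ← Finset.sum_filter, Finset.sum_const,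
    nsmul_eq_mul, ← hY]
  have hcard1 : ((((Ioc (2 ^ q) (2 ^ (q + 1)) : Finset ℕ).filter Squarefree).card : ℕ) : ℝ) ≤ 2 ^ q := by
    have h2 := Finset.card_filter_le (Ioc (2 ^ q) (2 ^ (q + 1)) : Finset ℕ) Squarefree
    rw [Nat.card_Ioc] at h2
    have h3 : 2 ^ (q + 1) - 2 ^ q = 2 ^ q := by
      rw [pow_succ]
      omega
    rw [h3] at h2
    exact_mod_cast h2
  have hcard2 : (((((Ioc (2 ^ q) (2 ^ (q + 1)) : Finset ℕ).filter Squarefree).filter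
      fun d => d ∈ Ea ∪ Eb).card : ℕ) : ℝ) ≤ 400 * (t : ℝ) ^ 3 := by
    have h2 : (((Ioc (2 ^ q) (2 ^ (q + 1)) : Finset ℕ).filter Squarefree).filter
        fun d => d ∈ Ea ∪ Eb).card ≤ Ea.card + Eb.card := by
      refine le_trans (Finset.card_le_card ?_) (Finset.card_union_le Ea Eb)
      intro d hd
      exact (Finset.mem_filter.1 hd).2
    have h3 : (((((Ioc (2 ^ q) (2 ^ (q + 1)) : Finset ℕ).filter Squarefree).filter
      fun d => d ∈ Ea ∪ Eb).card : ℕ) : ℝ) ≤ (Ea.card : ℝ) + Eb.card := by exact_mod_cast h2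
    linarith
  have h2q : (0 : ℝ) < 2 ^ q := by positivity
  have e1 : (2 : ℝ) ^ q * (C1 * ((N : ℝ) / 2 ^ q) * Y) = C1 * N * Y := by
    field_simp
  have e2 : 400 * (t : ℝ) ^ 3 * ((N : ℝ) / 2 ^ q) = 400 * N * ((t : ℝ) ^ 3 / 2 ^ q) := by
    ring
  have hnn : 0 ≤ C1 * ((N : ℝ) / 2 ^ q) * Y := mul_nonneg (mul_nonneg hC1.le hN0) hY0
  have i1 := mul_le_mul_of_nonneg_right hcard1 hnn
  have i2 := mul_le_mul_of_nonneg_right hcard2 hN0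
  rw [e1] at i1
  rw [e2] at i2
  have hT : (0 : ℝ) ≤ (t : ℝ) ^ 3 / 2 ^ q := by positivity
  have hNN : (0 : ℝ) ≤ N := Nat.cast_nonneg N
  have e3 : (C1 + 400) * N * (Y + (t : ℝ) ^ 3 / 2 ^ q) =
      C1 * N * Y + 400 * N * ((t : ℝ) ^ 3 / 2 ^ q) + (C1 * N * ((t : ℝ) ^ 3 / 2 ^ q) + 400 * N * Y) := by
    ring
  have e4 : 0 ≤ C1 * N * ((t : ℝ) ^ 3 / 2 ^ q) + 400 * N * Y := by positivity
  rw [e3]
  linarith

end QV
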