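import Pool.Agent.Lib.MP_10e784_agQV.A5

/-! JOB A6.  The middle range of `d`.
For `q ≥ q1` and `N` large put `t = min (2 ^ (q / 8)) (Nat.log 2 N / 2)`.  Let `d ≤ exp ((log N) ^ (1/16))`, `d ∈ (2 ^ q, 2 ^ (q + 1)]`, so `q ≤ 2 (log N) ^ (1/16)`; for large `N` the conditions `4 q ≤ t` (`4 q ≤ 2 ^ (q / 8)` for `q ≥ q1`) and `2 ^ t 2 ^ (q + 1) ≤ N` hold.  `block_d` gives for the block `q` at most
`C N ((4 q / 2 ^ (q / 8)) ^ (1/5) + (4 q / (Nat.log 2 N / 2)) ^ (1/5) + 2 ^ (3 (q / 8)) / 2 ^ q)` (`min x y` in the denominator: the sum of the two quotients, `(x + y) ^ (1/5) ≤ x ^ (1/5) + y ^ (1/5)`).  The first and the third term are summable over `q` (geometric decay): the sum over `q ≥ log 2 Q0` is at most `η / (3 C)` for `Q0` large.  The second: at most `2 (log N) ^ (1/16) + 1` blocks, each `≤ (C' (log N) ^ (1/16 - 1)) ^ (1/5)`; the product has exponent `1/16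 - 3/16 < 0`, so it tends to zero.  (Cover `Ioc Q0 (..)` by the blocks `q = Nat.log 2 (d - 1)` or so; `Q0 = 2 ^ q2`.) -/

set_option autoImplicit false

namespace QV

open Finset

private theorem A6_grow : ∃ q3 : ℕ, 1 ≤ q3 ∧ ∀ q : ℕ, q3 ≤ q → 4 * (q : ℝ) ^ 11 ≤ 2 ^ (q / 8) := by
  obtain ⟨ρ, hρ1, hρ8⟩ : ∃ ρ : ℝ, 1 < ρ ∧ ρ ^ 8 = 2 := by
    refine ⟨2 ^ (1 / 8 : ℝ), Real.one_lt_rpow (by norm_num) (by norm_num), ?_⟩
    rw [← Real.rpow_natCast, ← Real.rpow_mul (by norm_num)]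
    norm_num
  have h1 := tendsto_pow_const_div_const_pow_of_one_lt 11 hρ1
  obtain ⟨a, ha⟩ := Filter.eventually_atTop.1 (h1.eventually (gt_mem_nhds (show (0 : ℝ) < 1 / 8 by norm_num)))
  refine ⟨max 1 a, le_max_left _ _, fun q hq => ?_⟩
  have h3 : (q : ℝ) ^ 11 / ρ ^ q < 1 / 8 := ha q ((le_max_right _ _).trans hq)
  have hρ0 : 0 < ρ := by linarith
  rw [div_lt_iff₀ (pow_pos hρ0 q)] at h3
  have h4 : ρ ^ q ≤ 2 * 2 ^ (q / 8) := by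
    have h5 : ρ ^ q = (ρ ^ 8) ^ (q / 8) * ρ ^ (q % 8) := by
      rw [← pow_mul, ← pow_add, Nat.div_add_mod]
    rw [h5, hρ8, mul_comm]
    have h6 : ρ ^ (q % 8) ≤ ρ ^ 8 := pow_le_pow_right₀ hρ1.le (Nat.mod_lt q (by norm_num)).le
    rw [hρ8] at h6
    exact mul_le_mul_of_nonneg_right h6 (by positivity)
  linarith

private theorem A6_root {x z : ℝ} (hx : 0 ≤ x) (hz : 0 ≤ z) (h : x ≤ z ^ 5) : x ^ (1 / 5 : ℝ) ≤ z := by
  have h1 : x ^ (1 / 5 : ℝ) ≤ (z ^ 5) ^ (1 / 5 : ℝ) := Real.rpow_le_rpow hx h (by norm_num)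
  have h2 : (z ^ 5) ^ (1 / 5 : ℝ) = z := by
    have h3 : (1 / 5 : ℝ) = ((5 : ℕ) : ℝ)⁻¹ := by norm_num
    rw [h3]
    exact Real.pow_rpow_inv_natCast hz (by norm_num)
  rwa [h2] at h1

private theorem A6_blk {q L : ℕ} (hq1 : 1 ≤ q) (hg : 4 * (q : ℝ) ^ 11 ≤ 2 ^ (q / 8)) :
    (4 * (q : ℝ) / ((min (2 ^ (q / 8)) L : ℕ) : ℝ)) ^ (1 / 5 : ℝ) + ((min (2 ^ (q / 8)) L : ℕ) : ℝ) ^ 3 / 2 ^ q ≤
      2 * ((q : ℝ) ^ 2)⁻¹ + (4 * (q : ℝ) / L) ^ (1 / 5 : ℝ) := by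
  have hq : (1 : ℝ) ≤ (q : ℝ) := by exact_mod_cast hq1
  have hq0 : (0 : ℝ) < (q : ℝ) := by linarith
  have hX : (0 : ℝ) < 2 ^ (q / 8) := by positivity
  have hA : (4 * (q : ℝ) / 2 ^ (q / 8)) ^ (1 / 5 : ℝ) ≤ ((q : ℝ) ^ 2)⁻¹ := by
    refine A6_root (by positivity) (by positivity) ?_
    rw [inv_pow, ← pow_mul, div_le_iff₀ hX, ← div_eq_inv_mul, le_div_iff₀ (by positivity)]
    calc 4 * (q : ℝ) * (q : ℝ) ^ (2 * 5) = 4 * (q : ℝ) ^ 11 := by ring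
      _ ≤ _ := hg
  have hB : ((2 : ℝ) ^ (q / 8)) ^ 3 / 2 ^ q ≤ ((q : ℝ) ^ 2)⁻¹ := by
    rw [div_le_iff₀ (by positivity), ← div_eq_inv_mul, le_div_iff₀ (by positivity)]
    have h1 : (q : ℝ) ^ 2 ≤ 2 ^ (q / 8) := by
      have h2 : (q : ℝ) ^ 2 ≤ (q : ℝ) ^ 11 := pow_le_pow_right₀ hq (by norm_num)
      have h3 : 0 ≤ (q : ℝ) ^ 11 := by positivity
      linarith
    calc ((2 : ℝ) ^ (q / 8)) ^ 3 * (q : ℝ) ^ 2 ≤ ((2 : ℝ) ^ (q / 8)) ^ 3 * 2 ^ (q / 8) := mul_le_mul_of_nonneg_left h1 (by positivity)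
      _ = 2 ^ (q / 8 * 4) := by rw [← pow_succ, ← pow_mul]
      _ ≤ 2 ^ q := pow_le_pow_right₀ (by norm_num) (by omega)
  rcases le_total (2 ^ (q / 8)) L with h | h
  · rw [min_eq_left h]
    have h0 : 0 ≤ (4 * (q : ℝ) / L) ^ (1 / 5 : ℝ) := by positivity
    push_cast
    linarith
  · rw [min_eq_right h]
    have h1 : (L : ℝ) ≤ 2 ^ (q / 8) := by exact_mod_cast h
    have h2 : (L : ℝ) ^ 3 / 2 ^ q ≤ ((2 : ℝ) ^ (q / 8)) ^ 3 / 2 ^ q :=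
      div_le_div_of_nonneg_right (pow_le_pow_left₀ (Nat.cast_nonneg L) h1 3) (by positivity)
    have h3 : 0 ≤ ((q : ℝ) ^ 2)⁻¹ := by positivity
    linarith

private theorem A6_log {N : ℕ} (hN : 1 ≤ N) : Real.log N ≤ 2 * ((Nat.log 2 N / 2 : ℕ) : ℝ) + 2 := by
  have h1 : N < 2 ^ (Nat.log 2 N + 1) := Nat.lt_pow_succ_log_self (by norm_num) N
  have h2 : (N : ℝ) ≤ 2 ^ (Nat.log 2 N + 1) := by exact_mod_cast h1.le
  have h3 : Real.log N ≤ ((Nat.log 2 N + 1 : ℕ) : ℝ) * Real.log 2 := by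
    rw [← Real.log_pow]
    exact Real.log_le_log (by exact_mod_cast hN) h2
  have h4 : Real.log 2 ≤ 1 := by
    have := Real.log_two_lt_d9
    linarith
  have h5 : Nat.log 2 N + 1 ≤ 2 * (Nat.log 2 N / 2) + 2 := by omega
  have h6 : ((Nat.log 2 N + 1 : ℕ) : ℝ) ≤ 2 * ((Nat.log 2 N / 2 : ℕ) : ℝ) + 2 := by exact_mod_cast h5
  have h7 : ((Nat.log 2 N + 1 : ℕ) : ℝ) * Real.log 2 ≤ ((Nat.log 2 N + 1 : ℕ) : ℝ) * 1 :=
    mul_le_mul_of_nonneg_left h4 (Nat.cast_nonneg _)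
  linarith

open Classical in
theorem mid_d (a b : ℤ) (ha : a ≠ 0) (hb : b ≠ 0) (M : ℕ) (hM : M ≠ 0) (η : ℝ) (hη : 0 < η) : ∃ Q0 N0 : ℕ, ∀ N : ℕ, N0 ≤ N →
    (∑ d ∈ (Ioc Q0 ⌊Real.exp (Real.log N ^ (1 / 16 : ℝ))⌋₊ : Finset ℕ).filter Squarefree, (zs (a * (d : ℤ)) (b * (d : ℤ)) M (N / d) : ℝ)) ≤ η * N := by
  obtain ⟨C, q0, hC, hq0, hblk⟩ := block_d a b ha hb M hM
  obtain ⟨q3, hq3, hgrow⟩ := A6_grow
  obtain ⟨q4, hq4⟩ := exists_nat_gt (8 * C / η)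
  obtain ⟨q2, hq2⟩ : ∃ q2 : ℕ, q2 = q0 + q3 + q4 := ⟨_, rfl⟩
  obtain ⟨Y, hY⟩ : ∃ Y : ℝ, Y = max 2 (12 * C / η) := ⟨_, rfl⟩
  have hY2 : 2 ≤ Y := by
    rw [hY]
    exact le_max_left _ _
  have hYC : 12 * C / η ≤ Y := by
    rw [hY]
    exact le_max_right _ _
  refine ⟨2 ^ q2, ⌈Real.exp (Y ^ 16)⌉₊, fun N hN => ?_⟩
  have hNe : Real.exp (Y ^ 16) ≤ (N : ℝ) := (Nat.le_ceil _).trans (by exact_mod_cast hN)
  have hN0 : (0 : ℝ) < (N : ℝ) := lt_of_lt_of_le (Real.exp_pos _) hNe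
  have hN1 : 1 ≤ N := by exact_mod_cast hN0
  have hlog : Y ^ 16 ≤ Real.log N := (Real.le_log_iff_exp_le hN0).2 hNe
  have hlog0 : 0 ≤ Real.log N := le_trans (by positivity) hlog
  obtain ⟨y, hy⟩ : ∃ y : ℝ, y = Real.log N ^ (1 / 16 : ℝ) := ⟨_, rfl⟩
  have hy0 : 0 ≤ y := by
    rw [hy]
    exact Real.rpow_nonneg hlog0 _
  have hy16 : y ^ 16 = Real.log N := by
    have h3 : (1 / 16 : ℝ) = ((16 : ℕ) : ℝ)⁻¹ := by norm_num
    rw [hy, h3]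
    exact Real.rpow_inv_natCast_pow hlog0 (by norm_num)
  have hyY : Y ≤ y := by
    rw [← hy16] at hlog
    exact (pow_le_pow_iff_left₀ (by linarith) hy0 (by norm_num)).1 hlog
  have hy2 : 2 ≤ y := hY2.trans hyY
  have hyp : 0 < y := by linarith
  rw [← hy]
  obtain ⟨L, hL⟩ : ∃ L : ℕ, L = Nat.log 2 N / 2 := ⟨_, rfl⟩
  have hy16b : (8 : ℝ) * (4 * y) ≤ y ^ 16 := by
    have h1 : (2 : ℝ) ^ 15 ≤ y ^ 15 := pow_le_pow_left₀ (by norm_num) hy2 15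
    calc (8 : ℝ) * (4 * y) = 32 * y := by ring
      _ ≤ y ^ 15 * y := mul_le_mul_of_nonneg_right (le_trans (by norm_num) h1) hy0
      _ = y ^ 16 := by ring
  have hLy : y ^ 16 / 4 ≤ (L : ℝ) := by
    have h1 := A6_log hN1
    rw [← hL, ← hy16] at h1
    linarith
  have hLp : (0 : ℝ) < (L : ℝ) := by
    have : 0 < y ^ 16 / 4 := by positivity
    linarith
  obtain ⟨n, hn⟩ : ∃ n : ℕ, n = ⌊2 * y⌋₊ := ⟨_, rfl⟩
  have hn2 : (n : ℝ) ≤ 2 * y := by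
    rw [hn]
    exact Nat.floor_le (by linarith)
  have hone : ∀ q ∈ Ico q2 (n + 1),
      (∑ d ∈ (Ioc (2 ^ q) (2 ^ (q + 1)) : Finset ℕ).filter Squarefree, (zs (a * (d : ℤ)) (b * (d : ℤ)) M (N / d) : ℝ)) ≤
        C * N * (2 * ((q : ℝ) ^ 2)⁻¹ + 2 / y ^ 3) := by
    intro q hq
    rw [mem_Ico] at hq
    have hqn : (q : ℝ) ≤ 2 * y := le_trans (by exact_mod_cast Nat.lt_succ_iff.1 hq.2) hn2
    have hg := hgrow q (by omega)
    have hqL : 4 * q ≤ L := by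
      have h1 : (4 : ℝ) * (q : ℝ) ≤ (L : ℝ) := by linarith
      exact_mod_cast h1
    have hq1 : 1 ≤ q := by omega
    have hqX : 4 * q ≤ 2 ^ (q / 8) := by
      have h2 : (q : ℝ) ≤ (q : ℝ) ^ 11 := by
        have h3 : (1 : ℝ) ≤ (q : ℝ) := by exact_mod_cast hq1
        calc (q : ℝ) = (q : ℝ) ^ 1 := (pow_one _).symm
          _ ≤ (q : ℝ) ^ 11 := pow_le_pow_right₀ h3 (by norm_num)
      have h1 : (4 : ℝ) * (q : ℝ) ≤ (2 : ℝ) ^ (q / 8) := by linarith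
      exact_mod_cast h1
    have hpow : 2 ^ (min (2 ^ (q / 8)) L) * 2 ^ (q + 1) ≤ N := by
      have h1 : 2 ^ (min (2 ^ (q / 8)) L) * 2 ^ (q + 1) ≤ 2 ^ Nat.log 2 N := by
        rw [← pow_add]
        refine Nat.pow_le_pow_right (by norm_num) ?_
        have h2 : min (2 ^ (q / 8)) L ≤ L := min_le_right _ _
        have h3 : 2 * L ≤ Nat.log 2 N := by
          rw [hL]
          omega
        omega
      exact h1.trans (Nat.pow_log_le_self 2 (by omega))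
    have h1 := hblk q (min (2 ^ (q / 8)) L) N (by omega) (le_min hqX hqL) hpow
    refine h1.trans (mul_le_mul_of_nonneg_left ((A6_blk hq1 hg).trans ?_) (by positivity))
    have h2 : (4 * (q : ℝ) / L) ^ (1 / 5 : ℝ) ≤ 2 / y ^ 3 := by
      refine A6_root (by positivity) (by positivity) ?_
      rw [div_pow, ← pow_mul, div_le_div_iff₀ hLp (by positivity)]
      have h3 : 4 * (q : ℝ) * y ^ (3 * 5) ≤ 8 * y * y ^ (3 * 5) := mul_le_mul_of_nonneg_right (by linarith) (by positivity)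
      have h4 : 8 * y * y ^ (3 * 5) = 8 * y ^ 16 := by ring
      have h5 : (2 : ℝ) ^ 5 = 32 := by norm_num
      rw [h4] at h3
      rw [h5]
      linarith
    linarith
  have hmap : ∀ d ∈ (Ioc (2 ^ q2) ⌊Real.exp y⌋₊ : Finset ℕ).filter Squarefree, Nat.log 2 (d - 1) ∈ Ico q2 (n + 1) := by
    intro d hd
    have hd1 := mem_Ioc.1 (mem_filter.1 hd).1
    have hd0 : 1 ≤ 2 ^ q2 := Nat.one_le_two_pow
    rw [mem_Ico]
    constructor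
    · exact Nat.le_log_of_pow_le (by norm_num) (by omega)
    · have h1 : 2 ^ Nat.log 2 (d - 1) ≤ d - 1 := Nat.pow_log_le_self 2 (by omega)
      have h2 : ((2 : ℝ) ^ Nat.log 2 (d - 1)) ≤ Real.exp y := by
        have h3 : 2 ^ Nat.log 2 (d - 1) ≤ ⌊Real.exp y⌋₊ := by omega
        have h4 : ((2 ^ Nat.log 2 (d - 1) : ℕ) : ℝ) ≤ ((⌊Real.exp y⌋₊ : ℕ) : ℝ) := by exact_mod_cast h3
        have h5 := Nat.floor_le (Real.exp_pos y).le
        push_cast at h4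
        linarith
      have h3 : (Nat.log 2 (d - 1) : ℝ) * Real.log 2 ≤ y := by
        have h4 := Real.log_le_log (by positivity) h2
        rwa [Real.log_pow, Real.log_exp] at h4
      have h4 := Real.log_two_gt_d9
      have h5 : (Nat.log 2 (d - 1) : ℝ) ≤ 2 * y := by
        have h6 : (0 : ℝ) ≤ (Nat.log 2 (d - 1) : ℝ) := Nat.cast_nonneg _
        nlinarith
      rw [Nat.lt_succ_iff, hn]
      exact Nat.le_floor h5
  have hsum : (∑ d ∈ (Ioc (2 ^ q2) ⌊Real.exp y⌋₊ : Finset ℕ).filter Squarefree, (zs (a * (d : ℤ)) (b * (d : ℤ)) M (N / d) : ℝ)) ≤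
      ∑ q ∈ Ico q2 (n + 1), C * N * (2 * ((q : ℝ) ^ 2)⁻¹ + 2 / y ^ 3) := by
    rw [← Finset.sum_fiberwise_of_maps_to hmap]
    refine Finset.sum_le_sum fun q hq => le_trans ?_ (hone q hq)
    refine Finset.sum_le_sum_of_subset_of_nonneg ?_ fun _ _ _ => Nat.cast_nonneg _
    intro d hd
    have hd1 := mem_filter.1 hd
    have hd2 := mem_filter.1 hd1.1
    have hd3 := mem_Ioc.1 hd2.1
    have hd0 : 1 ≤ 2 ^ q2 := Nat.one_le_two_pow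
    have h1 : 2 ^ Nat.log 2 (d - 1) ≤ d - 1 := Nat.pow_log_le_self 2 (by omega)
    have h2 : d - 1 < 2 ^ (Nat.log 2 (d - 1) + 1) := Nat.lt_pow_succ_log_self (by norm_num) _
    rw [hd1.2] at h1 h2
    exact mem_filter.2 ⟨mem_Ioc.2 ⟨by omega, by omega⟩, hd2.2⟩
  refine hsum.trans ?_
  rw [← Finset.mul_sum, Finset.sum_add_distrib, ← Finset.mul_sum, Finset.sum_const, nsmul_eq_mul]
  have hinv : ∑ q ∈ Ico q2 (n + 1), ((q : ℝ) ^ 2)⁻¹ ≤ 2 / (q2 : ℝ) := by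
    have h1 := sum_Ioo_inv_sq_le (α := ℝ) (q2 - 1) (n + 1)
    have h2 : Ioo (q2 - 1) (n + 1) = Ico q2 (n + 1) := by
      ext x
      rw [mem_Ioo, mem_Ico]
      omega
    have h3 : (((q2 - 1 : ℕ) : ℝ) + 1) = (q2 : ℝ) := by
      have h4 : q2 - 1 + 1 = q2 := by omega
      exact_mod_cast h4
    rw [h2, h3] at h1
    exact h1
  have hq2p : 8 * C / η < (q2 : ℝ) := lt_of_lt_of_le hq4 (by
    have h1 : q4 ≤ q2 := by omega
    exact_mod_cast h1)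
  have hq20 : (0 : ℝ) < (q2 : ℝ) := lt_of_le_of_lt (by positivity) hq2p
  have e1 : 2 * (2 / (q2 : ℝ)) ≤ η / (2 * C) := by
    rw [div_lt_iff₀ hη] at hq2p
    have h1 : 2 * (2 / (q2 : ℝ)) = 4 / (q2 : ℝ) := by ring
    rw [h1, div_le_div_iff₀ hq20 (by positivity)]
    linarith
  have hcard : ((Ico q2 (n + 1)).card : ℝ) ≤ 3 * y := by
    rw [Nat.card_Ico]
    have h1 : ((n + 1 - q2 : ℕ) : ℝ) ≤ ((n + 1 : ℕ) : ℝ) := by
      have h2 : n + 1 - q2 ≤ n + 1 := Nat.sub_le _ _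
      exact_mod_cast h2
    push_cast at h1
    linarith
  have e2 : ((Ico q2 (n + 1)).card : ℝ) * (2 / y ^ 3) ≤ η / (2 * C) := by
    have h1 : ((Ico q2 (n + 1)).card : ℝ) * (2 / y ^ 3) ≤ 3 * y * (2 / y ^ 3) := mul_le_mul_of_nonneg_right hcard (by positivity)
    have h2 : 3 * y * (2 / y ^ 3) = 6 / y ^ 2 := by
      field_simp
      ring
    rw [h2] at h1
    refine h1.trans ?_
    rw [div_le_div_iff₀ (by positivity) (by positivity)]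
    have h3 : 12 * C ≤ Y * η := (div_le_iff₀ hη).1 hYC
    have h4 : Y * η ≤ y ^ 2 * η := mul_le_mul_of_nonneg_right (by nlinarith) hη.le
    linarith
  calc C * N * (2 * ∑ q ∈ Ico q2 (n + 1), ((q : ℝ) ^ 2)⁻¹ + ((Ico q2 (n + 1)).card : ℝ) * (2 / y ^ 3)) ≤
      C * N * (η / (2 * C) + η / (2 * C)) := by
        refine mul_le_mul_of_nonneg_left ?_ (by positivity)
        linarith
    _ = η * N := by
        field_simp
        ring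

end QV
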