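import Pool.Agent.Lib.MP_10e784_agQV.DefsP
import Pool.Agent.Lib.MP_10e784_agTR.TWDesc

/-! JOB D1.  The descent with the decomposition of the values.
`desc5`: COPY of `TR.desc` (file MP_10e784_agTR/TWDesc.lean) with the additional output `sg, w` of `PT.dec_PT` (`PT.hom (g i) u v = sg i * e i * w i ^ 2`, `(sg i).natAbs ∣ M`), and with `sg i ≠ 0` (the left side is not zero).
`loc_pair`: let `p ∤ M` be prime, `p ∣ e r`.  `PT.hom (g r) u v = u - t v` with `t = -(g r).coeff 0` (`g r` monic of degree one; sum over `range 2`), so `u ≡ t v` modulo `p` and `p ∤ v` (`u, v` coprime).  By `PT.hom_mod` `PT.hom (g k) u v ≡ v ^ n (g k).eval t`.  The product over `k ≠ r, s` (`∑ n` is even, `hg.even`): `v ^ (2 m) G ≡ (∏ sg) E W ^ 2` with `G = ∏ (g k).eval t`, `E = ∏ e k`, `W = ∏ w k`.  Multiply by `G`: `(v ^ m G) ^ 2 = ((∏ sg) G E) W ^ 2` in `ZMod p`.  If `W ≠ 0` in `ZMod p` then `(∏ sg) G E` is a square; if `W = 0` then `G =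 0` (`v ≠ 0`), and `(∏ sg) G E = 0` is a square. -/

set_option autoImplicit false

namespace QV

open Finset Polynomial TW TR

theorem desc5 {ι : Type} [Fintype ι] [DecidableEq ι] {g : ι → ℤ[X]} (hg : TR.Fam g) (a : ℤ) (ha : a ≠ 0) :
    ∃ (C₀ : ℝ) (M : ℕ), 1 ≤ C₀ ∧ M ≠ 0 ∧ ∀ D : ℤ, Squarefree D → ∀ u v : ℤ, IsCoprime u v →
      (∀ i, PT.hom (g i) u v ≠ 0) → IsSquare (D * a * ∏ i, PT.hom (g i) u v) →
      ∃ (g0 : ℤ) (e : ι → ℕ) (x : Co g → ℤ) (sg w : ι → ℤ), g0.natAbs ∣ M ∧ D = g0 * ∏ i, (e i : ℤ) ∧ Squarefree (∏ i, e i) ∧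
        (∀ p : ℕ, p.Prime → p ∣ ∏ i, e i → ¬ p ∣ M) ∧
        (∀ c : Co g, |(x c : ℝ)| ≤ C₀ * (e c.1 : ℝ) ^ ((1 : ℝ) / (g c.1).natDegree)) ∧
        Loc g M x ∧
        (∀ p : ℕ, p.Prime → ¬ p ∣ M → ∀ i, (p ∣ e i ↔ ∃ h : (ZMod p)[X], h.Monic ∧ Irreducible h ∧ h ∣ red p (g i) ∧
          h ∣ pol g (fun c => (x c : ZMod p)) i)) ∧
        (∀ i, ∃ κ : ℚ[X], ¬ qq (g i) ∣ κ ∧
          qq (g i) ∣ pol g (fun c => (x c : ℚ)) i - (C (u : ℚ) - C (v : ℚ) * X) * κ ^ 2) ∧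
        (∀ i, (sg i).natAbs ∣ M ∧ sg i ≠ 0 ∧ PT.hom (g i) u v = sg i * e i * w i ^ 2) := by
  obtain ⟨M1, hM1, hgood⟩ := TR.good_exists hg
  choose M hM0 hM using fun i => TW.desc1 (g i) (hg.monic i) (hg.irr i)
  set B : ℕ := M1 * (∏ i, M i) * a.natAbs with hB
  have hB0 : B ≠ 0 := by
    rw [hB]
    exact mul_ne_zero (mul_ne_zero hM1 (Finset.prod_ne_zero_iff.2 fun i _ => hM0 i))
      (Int.natAbs_ne_zero.2 ha)
  have hM1B : M1 ∣ B := by
    rw [hB, mul_assoc]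
    exact dvd_mul_right _ _
  have hMB : ∀ i, M i ∣ B := by
    intro i
    rw [hB]
    exact Dvd.dvd.mul_right (Dvd.dvd.mul_left (Finset.dvd_prod_of_mem M (mem_univ i)) _) _
  have haB : a.natAbs ∣ B := by
    rw [hB]
    exact dvd_mul_left _ _
  choose Cc hCc0 hCc using fun i => hM i B hB0 (hMB i)
  have hCsum : ∀ i, Cc i ≤ 1 + ∑ j, Cc j := by
    intro i
    have := Finset.single_le_sum (f := Cc) (fun j _ => (hCc0 j).le) (mem_univ i)
    linarith
  refine ⟨1 + ∑ i, Cc i, B, ?_, hB0, ?_⟩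
  · have : 0 ≤ ∑ i, Cc i := Finset.sum_nonneg (fun i _ => (hCc0 i).le)
    linarith
  intro D hD u v huv hne hsq
  have hsep : ∀ p : ℕ, p.Prime → ¬ p ∣ B → ∀ i j, i ≠ j → (p : ℤ) ∣ PT.hom (g i) u v →
      ¬ (p : ℤ) ∣ PT.hom (g j) u v := by
    intro p hp hpB i j hij hi hj
    have : Fact p.Prime := ⟨hp⟩
    obtain ⟨hv, hri⟩ := TR.desc_root (g i) (hg.monic i) p hp u v huv hi
    obtain ⟨-, hrj⟩ := TR.desc_root (g j) (hg.monic j) p hp u v huv hj
    obtain ⟨r, hr⟩ := PT.ptlocal_inv p hp u v hv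
    have hroot : ∀ k, (p : ℤ) ∣ (g k).eval r → X - C (r : ZMod p) ∣ red p (g k) := by
      intro k hk
      rw [dvd_iff_isRoot, IsRoot.def, TR.desc_eval_red]
      exact (ZMod.intCast_zmod_eq_zero_iff_dvd _ p).2 hk
    have hpM1 : ¬ p ∣ M1 := fun h => hpB (h.trans hM1B)
    have hsqf := (hgood p hp hpM1).sqf
    have hdd : (X - C (r : ZMod p)) * (X - C (r : ZMod p)) ∣ red p (∏ k, g k) := by
      have h1 : red p (∏ k, g k) = ∏ k, red p (g k) := by
        unfold red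
        rw [Polynomial.map_prod]
      rw [h1, ← Finset.mul_prod_erase univ _ (mem_univ i),
        ← Finset.mul_prod_erase (univ.erase i) _ (Finset.mem_erase.2 ⟨hij.symm, mem_univ j⟩),
        ← mul_assoc]
      exact Dvd.dvd.mul_right (mul_dvd_mul (hroot i (hri r hr)) (hroot j (hrj r hr))) _
    exact (irreducible_X_sub_C (r : ZMod p)).not_isUnit (hsqf _ hdd)
  obtain ⟨g0, s, e, w, hg0, hs, hDe, hE, hEp, hH⟩ :=
    PT.dec_PT B hB0 D a (fun i => PT.hom (g i) u v) hD ha haB hne hsq hsep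
  have hei : ∀ i, e i ∣ ∏ i, e i := fun i => Finset.dvd_prod_of_mem e (mem_univ i)
  choose A hAdeg hAc hAk hAloc using fun i =>
    hCc i u v huv (hne i) (s i) (e i) (w i) (hH i) (hs i) (hE.squarefree_of_dvd (hei i))
      (fun p hp hpe => hEp p hp (hpe.trans (hei i)))
  have hpolZ : ∀ (p : ℕ) (i : ι),
      pol g (fun c : Co g => (((A c.1).coeff (c.2 : ℕ) : ℤ) : ZMod p)) i = red p (A i) :=
    fun p i => TR.desc_pol g A hAdeg i
  have hpolQ : ∀ (i : ι),
      pol g (fun c : Co g => (((A c.1).coeff (c.2 : ℕ) : ℤ) : ℚ)) i = qq (A i) :=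
    fun i => TR.desc_pol g A hAdeg i
  refine ⟨g0, e, fun c => (A c.1).coeff (c.2 : ℕ), s, w, hg0, hDe, hE, hEp, ?_, ?_, ?_, ?_, ?_⟩
  · intro c
    refine (hAc c.1 (c.2 : ℕ)).trans ?_
    exact mul_le_mul_of_nonneg_right (hCsum c.1) (by positivity)
  · intro p hp hpB
    have : Fact p.Prime := ⟨hp⟩
    unfold Al
    simp only [hpolZ p]
    by_cases hall : ∀ i, ∀ h : (ZMod p)[X], h.Monic → Irreducible h → h ∣ red p (g i) →
        ¬ h ∣ red p (A i)
    · exact Or.inl hall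
    · right
      push Not at hall
      obtain ⟨i₀, h, hm, hi, hhg, hhA⟩ := hall
      have hhl : h ∣ red p (C u - C v * X) := by
        by_contra hnl
        exact ((hAloc i₀ p hp hpB h hm hi hhg).2 hnl).1 hhA
      obtain ⟨hv, ht, hl⟩ := TR.desc_lin p u v huv h hm hi hhl
      refine ⟨i₀, (u : ZMod p) / v, (v : ZMod p), hv, ?_, ?_, ?_⟩
      · rw [← IsRoot.def, ← dvd_iff_isRoot, ← ht]
        exact hhg
      · rw [← IsRoot.def, ← dvd_iff_isRoot, ← ht]
        exact hhA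
      · intro i h' hm' hi' hhg' hne'
        have hnl : ¬ h' ∣ red p (C u - C v * X) := by
          intro hd
          exact hne' (TR.desc_lin p u v huv h' hm' hi' hd).2.1
        obtain ⟨h1, Q, hQ⟩ := (hAloc i p hp hpB h' hm' hi' hhg').2 hnl
        refine ⟨h1, Q, ?_⟩
        rw [mul_assoc, ← hl]
        exact hQ
  · intro p hp hpB i
    have : Fact p.Prime := ⟨hp⟩
    simp only [hpolZ p]
    constructor
    · intro hpe
      have hpH : (p : ℤ) ∣ PT.hom (g i) u v := by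
        have h1 := hH i
        rw [h1]
        have h2 : (p : ℤ) ∣ (e i : ℤ) := by exact_mod_cast hpe
        exact Dvd.dvd.mul_right (Dvd.dvd.mul_left h2 _) _
      obtain ⟨hv, hri⟩ := TR.desc_root (g i) (hg.monic i) p hp u v huv hpH
      obtain ⟨r, hr⟩ := PT.ptlocal_inv p hp u v hv
      have hhg : X - C (r : ZMod p) ∣ red p (g i) := by
        rw [dvd_iff_isRoot, IsRoot.def, TR.desc_eval_red]
        exact (ZMod.intCast_zmod_eq_zero_iff_dvd _ p).2 (hri r hr)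
      have hhl : X - C (r : ZMod p) ∣ red p (C u - C v * X) := by
        rw [dvd_iff_isRoot, IsRoot.def, TR.desc_red_lin]
        have h1 : ((r * v - u : ℤ) : ZMod p) = 0 :=
          (ZMod.intCast_zmod_eq_zero_iff_dvd _ p).2 hr
        push_cast at h1
        simp only [eval_sub, eval_C, eval_mul, eval_X]
        linear_combination -h1
      exact ⟨X - C (r : ZMod p), monic_X_sub_C _, irreducible_X_sub_C _, hhg,
        ((hAloc i p hp hpB _ (monic_X_sub_C _) (irreducible_X_sub_C _) hhg).1 hhl).2 hpe⟩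
    · rintro ⟨h, hm, hi, hhg, hhA⟩
      have hhl : h ∣ red p (C u - C v * X) := by
        by_contra hnl
        exact ((hAloc i p hp hpB h hm hi hhg).2 hnl).1 hhA
      exact ((hAloc i p hp hpB h hm hi hhg).1 hhl).1 hhA
  · intro i
    rw [hpolQ i]
    exact hAk i
  · intro i
    refine ⟨hs i, ?_, hH i⟩
    intro h0
    apply hne i
    have h1 := hH i
    rw [h0, zero_mul, zero_mul] at h1
    exact h1

theorem loc_pair {ι : Type} [Fintype ι] [DecidableEq ι] {g : ι → ℤ[X]} (hg : TR.Fam g) (r s : ι) (hrs : r ≠ s)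
    (hr : (g r).natDegree = 1) (hs : (g s).natDegree = 1) (u v : ℤ) (huv : IsCoprime u v) (sg w : ι → ℤ) (e : ι → ℕ)
    (hh : ∀ i, PT.hom (g i) u v = sg i * e i * w i ^ 2) (p : ℕ) (hp : p.Prime) (hpe : p ∣ e r) :
    IsSquare ((((∏ k ∈ univ.filter (fun k => k ≠ r ∧ k ≠ s), sg k) * (∏ k ∈ univ.filter (fun k => k ≠ r ∧ k ≠ s), (g k).eval (-(g r).coeff 0)) *
      ((∏ k ∈ univ.filter (fun k => k ≠ r ∧ k ≠ s), e k : ℕ) : ℤ) : ℤ)) : ZMod p) := by
  classical
  have : Fact p.Prime := ⟨hp⟩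
  obtain ⟨t, ht⟩ : ∃ t : ℤ, t = -(g r).coeff 0 := ⟨_, rfl⟩
  have hhr : PT.hom (g r) u v = u - t * v := by
    unfold PT.hom
    rw [hr, Finset.sum_range_succ, Finset.sum_range_succ, Finset.sum_range_zero]
    have h1 : (g r).coeff 1 = 1 := by
      have h2 := (hg.monic r).coeff_natDegree
      rw [hr] at h2
      exact h2
    rw [h1, ht]
    simp only [pow_zero, pow_one, Nat.sub_zero, Nat.sub_self]
    ring
  have hpH : (p : ℤ) ∣ PT.hom (g r) u v := by
    rw [hh r]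
    have h2 : (p : ℤ) ∣ (e r : ℤ) := by exact_mod_cast hpe
    exact Dvd.dvd.mul_right (Dvd.dvd.mul_left h2 _) _
  have hv := (TR.desc_root (g r) (hg.monic r) p hp u v huv hpH).1
  have htv : (p : ℤ) ∣ t * v - u := by
    rw [hhr] at hpH
    have h1 := (dvd_neg).2 hpH
    rw [neg_sub] at h1
    exact h1
  have hv0 : ((v : ℤ) : ZMod p) ≠ 0 := fun h => hv ((ZMod.intCast_zmod_eq_zero_iff_dvd _ p).1 h)
  have hk : ∀ k, ((v : ℤ) : ZMod p) ^ (g k).natDegree * (((g k).eval t : ℤ) : ZMod p) =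
      ((sg k : ℤ) : ZMod p) * ((e k : ℕ) : ZMod p) * ((w k : ℤ) : ZMod p) ^ 2 := by
    intro k
    have h1 := PT.hom_mod (g k) p u v t htv
    have h2 := (ZMod.intCast_zmod_eq_zero_iff_dvd _ p).2 h1
    rw [hh k] at h2
    push_cast at h2
    linear_combination -h2
  have hprod : ((v : ℤ) : ZMod p) ^ (∑ k ∈ univ.filter (fun k => k ≠ r ∧ k ≠ s), (g k).natDegree) *
      (∏ k ∈ univ.filter (fun k => k ≠ r ∧ k ≠ s), (((g k).eval t : ℤ) : ZMod p)) =
      (∏ k ∈ univ.filter (fun k => k ≠ r ∧ k ≠ s), ((sg k : ℤ) : ZMod p)) *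
        (∏ k ∈ univ.filter (fun k => k ≠ r ∧ k ≠ s), ((e k : ℕ) : ZMod p)) *
          (∏ k ∈ univ.filter (fun k => k ≠ r ∧ k ≠ s), ((w k : ℤ) : ZMod p)) ^ 2 := by
    rw [← Finset.prod_pow_eq_pow_sum, ← Finset.prod_mul_distrib, ← Finset.prod_mul_distrib, ← Finset.prod_pow,
      ← Finset.prod_mul_distrib]
    exact Finset.prod_congr rfl fun k _ => hk k
  have heven : Even (∑ k ∈ univ.filter (fun k => k ≠ r ∧ k ≠ s), (g k).natDegree) := by
    have hfil : univ.filter (fun k => k ≠ r ∧ k ≠ s) = (univ.erase r).erase s := by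
      ext k
      simp only [Finset.mem_filter, Finset.mem_univ, true_and, Finset.mem_erase, and_true]
      tauto
    have h5 := Finset.sum_erase_add univ (fun i => (g i).natDegree) (Finset.mem_univ r)
    have h5' := Finset.sum_erase_add (univ.erase r) (fun i => (g i).natDegree)
      (Finset.mem_erase.2 ⟨hrs.symm, Finset.mem_univ s⟩)
    have h6 := hg.even
    rw [hfil]
    simp only [hr, hs] at h5 h5'
    obtain ⟨b, hb⟩ := h6
    refine ⟨b - 1, ?_⟩
    omega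
  obtain ⟨m, hm⟩ := heven
  rw [hm] at hprod
  rw [← ht]
  push_cast
  generalize (∏ k ∈ univ.filter (fun k => k ≠ r ∧ k ≠ s), ((sg k : ℤ) : ZMod p)) = SG at hprod ⊢
  generalize (∏ k ∈ univ.filter (fun k => k ≠ r ∧ k ≠ s), (((g k).eval t : ℤ) : ZMod p)) = G at hprod ⊢
  generalize (∏ k ∈ univ.filter (fun k => k ≠ r ∧ k ≠ s), ((e k : ℕ) : ZMod p)) = E at hprod ⊢
  generalize (∏ k ∈ univ.filter (fun k => k ≠ r ∧ k ≠ s), ((w k : ℤ) : ZMod p)) = W at hprod ⊢
  generalize ((v : ℤ) : ZMod p) = V at hprod hv0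
  by_cases hW : W = 0
  · rw [hW, zero_pow (by norm_num), mul_zero] at hprod
    have hG : G = 0 := (mul_eq_zero.1 hprod).resolve_left (pow_ne_zero _ hv0)
    rw [hG, mul_zero, zero_mul]
    exact ⟨0, (mul_zero 0).symm⟩
  · refine ⟨V ^ m * G / W, ?_⟩
    rw [div_mul_div_comm, eq_div_iff (mul_ne_zero hW hW)]
    rw [pow_add] at hprod
    linear_combination -G * hprod

end QV
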