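import Pool.Agent.Lib.MP_10e784_agTR.Defs

/-!
# Quadratic twists of hyperelliptic curves of genus at least three: definitions
-/

set_option autoImplicit false

namespace QV

open Finset

/-- the sum of `(m / p) / p` over the primes `p` in `(2 ^ i, 2 ^ (i + 1)]` -/
noncomputable def sm (m : ℤ) (i : ℕ) : ℝ :=
  ∑ p ∈ (Ioc (2 ^ i) (2 ^ (i + 1))).filter Nat.Prime, (jacobiSym m p : ℝ) / p

/-- the squarefree `z ≤ x` all of whose prime factors outside `M` have `a` or `b` as a square -/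
noncomputable def zs (a b : ℤ) (M : ℕ) (x : ℕ) : ℕ :=
  Nat.card {z : ℕ // 1 ≤ z ∧ z ≤ x ∧ Squarefree z ∧ ∀ p : ℕ, p.Prime → p ∣ z → ¬ p ∣ M →
    IsSquare ((a : ℤ) : ZMod p) ∨ IsSquare ((b : ℤ) : ZMod p)}

end QV
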