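import Pool.Agent.Lib.MP_10e784_agQV.Defs
import Pool.Agent.Lib.MP_10e784_ag.TW.TWMulti

/-!
# The sieve with sets depending on some of the coordinates: definitions
-/

set_option autoImplicit false

namespace QV

open Finset

/-- the truncation -/
noncomputable def cU (D z : ℝ) (T : Finset ℕ) : ℝ := if TW.pr T ≤ D * z then 1 else 0

/-- the proportion of the vectors in `Ω p` among the vectors which agree with `y` off `U` -/
noncomputable def ph {κ : Type} [Fintype κ] (U : κ → Prop) [DecidablePred U] (Ω : (p : ℕ) → Set (κ → ZMod p))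
    (y : κ → ℤ) (p : ℕ) : ℝ :=
  (Nat.card {w : κ → ZMod p // w ∈ Ω p ∧ ∀ c, ¬ U c → w c = ((y c : ℤ) : ZMod p)} : ℝ) / (p : ℝ) ^ (univ.filter U).card

/-- the vectors in the box which are zero on `U` -/
noncomputable def bx0 {κ : Type} [Fintype κ] [DecidableEq κ] (U : κ → Prop) [DecidablePred U] (a : κ → ℤ) (H : κ → ℕ) : Finset (κ → ℤ) :=
  Fintype.piFinset fun c => if U c then {0} else Ico (a c) (a c + H c)

end QV
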