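import Pool.Agent.Lib.MP_10e784_agQV.Defs
import Pool.Agent.Lib.MP_10e784_agTR.TWLayer

/-!
# The layers whose two largest coordinates belong to linear polynomials: definitions
-/

set_option autoImplicit false

namespace QV

open Finset Polynomial TW TR

/-- the two largest of the `j i` belong to linear polynomials -/
def Pr {ι : Type} (g : ι → ℤ[X]) (j : ι → ℕ) : Prop :=
  ∃ r s, r ≠ s ∧ (g r).natDegree = 1 ∧ (g s).natDegree = 1 ∧ ∀ k, k ≠ r → k ≠ s → j k ≤ j r ∧ j k ≤ j s

/-- the product of the resultants of `g k` and `pol g x k * (t - X)`, `k ≠ r, s`, where `t` is the root of `g r` -/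
noncomputable def mm {ι : Type} [Fintype ι] [DecidableEq ι] (g : ι → ℤ[X]) (r s : ι) (x : Co g → ℤ) : ℤ :=
  ∏ k ∈ univ.filter (fun k => k ≠ r ∧ k ≠ s),
    resultant (g k) (pol g x k * (C (-(g r).coeff 0) - X)) (g k).natDegree (g k).natDegree

end QV
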