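import Pool.Agent.Lib.MP_10e784_agQV.DefsP

/-!
# The excluded sets at the top primes
-/

set_option autoImplicit false

namespace QV

open Finset Polynomial TW TR

open Classical in
/-- the indicator of the nonsquares -/
noncomputable def nr (m : ℤ) (p : ℕ) : ℝ := if IsSquare ((m : ℤ) : ZMod p) then 0 else 1

/-- the excluded proportion -/
noncomputable def tw (m1 m2 : ℤ) (p : ℕ) : ℝ := (nr m1 p + nr m2 p) / p - nr m1 p * nr m2 p / (p : ℝ) ^ 2

/-- the excluded set: the coordinate of index `r` vanishes and `m1` is no square, or the one of index `s` vanishes and `m2`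
is no square -/
def tS {ι : Type} (g : ι → ℤ[X]) (r s : ι) (m1 m2 : ℤ) (p : ℕ) : Set (Co g → ZMod p) :=
  {w | ((∀ c : Co g, c.1 = r → w c = 0) ∧ ¬ IsSquare ((m1 : ℤ) : ZMod p)) ∨
    ((∀ c : Co g, c.1 = s → w c = 0) ∧ ¬ IsSquare ((m2 : ℤ) : ZMod p))}

end QV
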