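import Pool.Agent.Lib.MP_10e784_agQV.DefsP
import Pool.Agent.Lib.MP_10e784_agTR.TWNrm

/-! JOB E1.  The residue classes modulo `p` with a square norm.
`p` is a good prime at which `g k` splits completely.  `n = (g k).natDegree`, `red p (g k) = ∏ (X - ρ)` with `n` different roots `ρ`, `t ≠ ρ` (the root `t` of `red p (g r)` is different from the roots of `red p (g k)`: `GoodP.sqf`).  For `A = ∑ a i X ^ i`: `resultant (red p (g k)) (A * (t - X)) n n = ∏_ρ A(ρ) (t - ρ)` (as `natDegree ≤ n`, monic).  The map `a ↦ (A(ρ))_ρ` is a bijection of `F_p ^ n` (injective: a polynomial of degree `< n` with `n` roots is zero).  So, with `β = ∏ (t - ρ) ≠ 0`, the number is that of the `b ∈ F_p ^ n` with `IsSquare (c0 β ∏ b)` (if `p ∤ c0`), with `∏ b = 0` (if `p ∣ c0`).  At most `n p ^ (n - 1)` vectors have `∏ b = 0`; among the others, for fixed `b 1, .., b (n-1)` exactly half of the `b 0 ≠ 0` are good.  Total at most `(1/2 + n / p) p ^ n ≤ (3/4) p ^ n` as `p ≥ 8 N ^ 2 ≥ 4 n`. -/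

set_option autoImplicit false

namespace QV

open Finset Polynomial TW TR

open Classical in
private theorem E1_one {F Z : Type} [Field F] [Fintype F] [Fintype Z] (ρ : Z) :
    (univ.filter fun b : Z → F => b ρ = 0).card * Fintype.card F ≤ Fintype.card (Z → F) := by
  rw [← Finset.card_univ (α := F), ← Finset.card_product, ← Finset.card_univ]
  refine Finset.card_le_card_of_injOn (fun x : (Z → F) × F => Function.update x.1 ρ x.2) (fun _ _ => Finset.mem_coe.2 (Finset.mem_univ _)) ?_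
  intro x hx y hy hxy
  have hx0 : x.1 ρ = 0 := (Finset.mem_filter.1 (Finset.mem_product.1 (Finset.mem_coe.1 hx)).1).2
  have hy0 : y.1 ρ = 0 := (Finset.mem_filter.1 (Finset.mem_product.1 (Finset.mem_coe.1 hy)).1).2
  have h : Function.update x.1 ρ x.2 = Function.update y.1 ρ y.2 := hxy
  refine Prod.ext (funext fun σ => ?_) ?_
  · by_cases hσ : σ = ρ
    · rw [hσ, hx0, hy0]
    · have h1 := congrFun h σ
      rwa [Function.update_of_ne hσ, Function.update_of_ne hσ] at h1
  · have h1 := congrFun h ρ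
    rwa [Function.update_self, Function.update_self] at h1

open Classical in
private theorem E1_zero {F Z : Type} [Field F] [Fintype F] [Fintype Z] :
    (univ.filter fun b : Z → F => ∏ ρ, b ρ = 0).card * Fintype.card F ≤ Fintype.card Z * Fintype.card (Z → F) := by
  have h1 : (univ.filter fun b : Z → F => ∏ ρ, b ρ = 0) ⊆ univ.biUnion fun ρ : Z => univ.filter fun b : Z → F => b ρ = 0 := by
    intro b hb
    obtain ⟨ρ, -, hρ⟩ := Finset.prod_eq_zero_iff.1 (Finset.mem_filter.1 hb).2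
    exact Finset.mem_biUnion.2 ⟨ρ, Finset.mem_univ _, Finset.mem_filter.2 ⟨Finset.mem_univ _, hρ⟩⟩
  have h2 := (Finset.card_le_card h1).trans Finset.card_biUnion_le
  calc (univ.filter fun b : Z → F => ∏ ρ, b ρ = 0).card * Fintype.card F
      ≤ (∑ ρ : Z, (univ.filter fun b : Z → F => b ρ = 0).card) * Fintype.card F := Nat.mul_le_mul_right _ h2
    _ = ∑ ρ : Z, (univ.filter fun b : Z → F => b ρ = 0).card * Fintype.card F := Finset.sum_mul _ _ _
    _ ≤ ∑ _ρ : Z, Fintype.card (Z → F) := Finset.sum_le_sum fun ρ _ => E1_one ρ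
    _ = Fintype.card Z * Fintype.card (Z → F) := by rw [Finset.sum_const, smul_eq_mul, Finset.card_univ]

open Classical in
private theorem E1_sq {F Z : Type} [Field F] [Fintype F] [Fintype Z] (ρ₀ : Z) {u : F} (hu : ¬ IsSquare u) {c : F} (hc : c ≠ 0) :
    (univ.filter fun b : Z → F => IsSquare (c * ∏ ρ, b ρ)).card * 2 ≤
      Fintype.card (Z → F) + (univ.filter fun b : Z → F => ∏ ρ, b ρ = 0).card := by
  have hu0 : u ≠ 0 := by
    rintro rfl
    exact hu ⟨0, (mul_zero 0).symm⟩
  have hupd : ∀ b : Z → F, ∏ ρ, Function.update b ρ₀ (u * b ρ₀) ρ = u * ∏ ρ, b ρ := by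
    intro b
    rw [Finset.prod_update_of_mem (Finset.mem_univ ρ₀), mul_assoc,
      ← Finset.mul_prod_erase univ b (Finset.mem_univ ρ₀), Finset.sdiff_singleton_eq_erase]
  have h1 : (univ.filter fun b : Z → F => IsSquare (c * ∏ ρ, b ρ) ∧ ∏ ρ, b ρ ≠ 0).card ≤
      (univ.filter fun b : Z → F => ¬ IsSquare (c * ∏ ρ, b ρ)).card := by
    refine Finset.card_le_card_of_injOn (fun b : Z → F => Function.update b ρ₀ (u * b ρ₀)) ?_ ?_
    · intro b hb
      obtain ⟨-, hb1, hb2⟩ := Finset.mem_filter.1 (Finset.mem_coe.1 hb)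
      refine Finset.mem_coe.2 (Finset.mem_filter.2 ⟨Finset.mem_univ _, ?_⟩)
      rw [hupd]
      intro hsq
      refine hu ?_
      have h2 : u = (c * (u * ∏ ρ, b ρ)) / (c * ∏ ρ, b ρ) := by
        field_simp
      rw [h2]
      exact hsq.div hb1
    · intro b _ b' _ h
      have h' : Function.update b ρ₀ (u * b ρ₀) = Function.update b' ρ₀ (u * b' ρ₀) := h
      funext σ
      by_cases hσ : σ = ρ₀
      · have h2 := congrFun h' ρ₀
        rw [Function.update_self, Function.update_self] at h2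
        rw [hσ]
        exact mul_left_cancel₀ hu0 h2
      · have h2 := congrFun h' σ
        rwa [Function.update_of_ne hσ, Function.update_of_ne hσ] at h2
  have h2 : (univ.filter fun b : Z → F => IsSquare (c * ∏ ρ, b ρ)).card ≤
      (univ.filter fun b : Z → F => IsSquare (c * ∏ ρ, b ρ) ∧ ∏ ρ, b ρ ≠ 0).card +
        (univ.filter fun b : Z → F => ∏ ρ, b ρ = 0).card := by
    refine (Finset.card_le_card fun b hb => ?_).trans (Finset.card_union_le _ _)
    rw [Finset.mem_union, Finset.mem_filter, Finset.mem_filter]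
    by_cases h0 : ∏ ρ, b ρ = 0
    · exact Or.inr ⟨Finset.mem_univ _, h0⟩
    · exact Or.inl ⟨Finset.mem_univ _, (Finset.mem_filter.1 hb).2, h0⟩
  have h3 := Finset.card_filter_add_card_filter_not (s := (univ : Finset (Z → F))) (fun b => IsSquare (c * ∏ ρ, b ρ))
  rw [Finset.card_univ] at h3
  omega

private theorem E1_zeroN {F Z : Type} [Field F] [Fintype F] [Fintype Z] :
    Nat.card {b : Z → F // ∏ ρ, b ρ = 0} * Fintype.card F ≤ Fintype.card Z * Nat.card (Z → F) := by
  classical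
  have h := E1_zero (F := F) (Z := Z)
  rw [← Fintype.card_subtype, ← Nat.card_eq_fintype_card, ← Nat.card_eq_fintype_card (α := Z → F)] at h
  exact h

private theorem E1_sqN {F Z : Type} [Field F] [Fintype F] [Fintype Z] (ρ₀ : Z) {u : F} (hu : ¬ IsSquare u) {c : F} (hc : c ≠ 0) :
    Nat.card {b : Z → F // IsSquare (c * ∏ ρ, b ρ)} * 2 ≤ Nat.card (Z → F) + Nat.card {b : Z → F // ∏ ρ, b ρ = 0} := by
  classical
  have h := E1_sq ρ₀ hu hc
  rw [← Fintype.card_subtype, ← Fintype.card_subtype, ← Nat.card_eq_fintype_card, ← Nat.card_eq_fintype_card (α := Z → F),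
    ← Nat.card_eq_fintype_card] at h
  exact h

private theorem E1_split {F : Type} [Field F] [DecidableEq F] (f : F[X]) (hf : f.Monic) (h : f.roots.toFinset.card = f.natDegree) :
    ∏ ρ ∈ f.roots.toFinset, (X - C ρ) = f := by
  have h1 := f.roots.toFinset_card_le
  have h2 := f.card_roots'
  have h3 : Multiset.card f.roots = f.natDegree := by omega
  have h4 : f.roots.Nodup := Multiset.toFinset_card_eq_card_iff_nodup.1 (by omega)
  have h5 := prod_multiset_X_sub_C_of_monic_of_roots_card_eq hf h3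
  conv_rhs => rw [← h5]
  rw [Finset.prod, Multiset.toFinset_val, Multiset.dedup_eq_self.2 h4]

private theorem E1_res {F : Type} [Field F] [DecidableEq F] (f : F[X]) (hf : f.Monic) (h : f.roots.toFinset.card = f.natDegree)
    (D : F[X]) (n : ℕ) (hD : D.natDegree ≤ n) : resultant f D f.natDegree n = ∏ ρ : f.roots.toFinset, D.eval (ρ : F) := by
  have hP := E1_split f hf h
  have hne : ∏ ρ ∈ f.roots.toFinset, (X - C ρ : F[X]).leadingCoeff ≠ 0 := by
    refine Finset.prod_ne_zero_iff.2 fun ρ _ => ?_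
    rw [leadingCoeff_X_sub_C]
    exact one_ne_zero
  have e1 : resultant f D f.natDegree n = resultant (∏ ρ ∈ f.roots.toFinset, (X - C ρ)) D
      (∏ ρ ∈ f.roots.toFinset, (X - C ρ)).natDegree n := by rw [hP]
  rw [e1, resultant_prod_left f.roots.toFinset (fun ρ => X - C ρ) D n hne hD, Finset.prod_coe_sort f.roots.toFinset fun ρ => D.eval ρ]
  refine Finset.prod_congr rfl fun ρ _ => ?_
  rw [natDegree_X_sub_C, resultant_X_sub_C_left D n ρ hD]

theorem e_count {ι : Type} [Fintype ι] [DecidableEq ι] {g : ι → ℤ[X]} (hg : TR.Fam g) (r k : ι) (hkr : k ≠ r)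
    (hr : (g r).natDegree = 1) (p : ℕ) (hp : GoodP g p) (hrt : PT.rt (g k) p = (g k).natDegree) (c0 : ℤ) :
    (Nat.card {a : Fin (g k).natDegree → ZMod p //
      (¬ (p : ℤ) ∣ c0 → IsSquare ((c0 : ZMod p) * resultant (red p (g k))
        ((∑ i, C (a i) * X ^ (i : ℕ)) * (C (-((g r).coeff 0 : ZMod p)) - X)) (g k).natDegree (g k).natDegree)) ∧
      ((p : ℤ) ∣ c0 → resultant (red p (g k))
        ((∑ i, C (a i) * X ^ (i : ℕ)) * (C (-((g r).coeff 0 : ZMod p)) - X)) (g k).natDegree (g k).natDegree = 0)} : ℝ) ≤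
      3 / 4 * (p : ℝ) ^ (g k).natDegree := by
  classical
  have _ : Fact p.Prime := ⟨hp.prime⟩
  obtain ⟨f, hfdef⟩ : ∃ f : (ZMod p)[X], f = red p (g k) := ⟨_, rfl⟩
  obtain ⟨t, ht⟩ : ∃ t : ZMod p, t = -((g r).coeff 0 : ZMod p) := ⟨_, rfl⟩
  rw [← hfdef, ← ht]
  have hfm : f.Monic := by
    rw [hfdef]
    exact (hg.monic k).map _
  have hfd : f.natDegree = (g k).natDegree := by
    rw [hfdef]
    exact (hg.monic k).natDegree_map _
  have hn : 1 ≤ (g k).natDegree := by
    have h1 := (hg.irr k).natDegree_pos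
    rwa [(hg.monic k).natDegree_map] at h1
  have hroots : f.roots.toFinset.card = f.natDegree := by
    rw [hfd, ← hrt]
    unfold PT.rt
    rw [Nat.card_eq_fintype_card]
    refine (Fintype.card_of_subtype _ fun x => ?_).symm
    rw [Multiset.mem_toFinset, mem_roots hfm.ne_zero, IsRoot.def, hfdef]
    rfl
  have htZ : f.eval t ≠ 0 := by
    intro h0
    have h1 : X - C t ∣ red p (g k) := by
      rw [← hfdef]
      exact dvd_iff_isRoot.2 h0
    have h2 : red p (g r) = X - C t := by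
      unfold red
      conv_lhs => rw [(hg.monic r).eq_X_add_C hr]
      rw [Polynomial.map_add, Polynomial.map_X, Polynomial.map_C, ht, map_neg, sub_neg_eq_add]
      rfl
    have h3 : (X - C t) * (X - C t) ∣ red p (∏ i, g i) := by
      have h4 : ∏ i ∈ ({k, r} : Finset ι), g i ∣ ∏ i, g i := Finset.prod_dvd_prod_of_subset _ _ _ (Finset.subset_univ _)
      rw [Finset.prod_pair hkr] at h4
      have h5 : red p (g k) * red p (g r) ∣ red p (∏ i, g i) := by
        obtain ⟨w, hw⟩ := h4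
        refine ⟨red p w, ?_⟩
        unfold red
        rw [hw, Polynomial.map_mul, Polynomial.map_mul]
      refine (mul_dvd_mul h1 ?_).trans h5
      rw [h2]
    exact not_isUnit_X_sub_C t (hp.sqf _ h3)
  have hbig : 8 * (g k).natDegree ≤ p := by
    have h1 : (g k).natDegree ≤ ∑ i, (g i).natDegree :=
      Finset.single_le_sum (f := fun i => (g i).natDegree) (fun _ _ => Nat.zero_le _) (Finset.mem_univ k)
    have h2 := hp.big
    nlinarith
  -- the evaluation at the roots
  obtain ⟨Z, hZ⟩ : ∃ Z : Finset (ZMod p), Z = f.roots.toFinset := ⟨_, rfl⟩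
  have hZc : Fintype.card Z = (g k).natDegree := by
    rw [Fintype.card_coe, hZ, hroots, hfd]
  have hZt : ∀ ρ : Z, t - (ρ : ZMod p) ≠ 0 := by
    intro ρ h0
    have h1 : (ρ : ZMod p) ∈ f.roots.toFinset := by
      rw [← hZ]
      exact ρ.2
    rw [Multiset.mem_toFinset, mem_roots hfm.ne_zero, IsRoot.def, ← sub_eq_zero.1 h0] at h1
    exact htZ h1
  have hβ : ∏ ρ : Z, (t - (ρ : ZMod p)) ≠ 0 := Finset.prod_ne_zero_iff.2 fun ρ _ => hZt ρ
  have hres : ∀ a : Fin (g k).natDegree → ZMod p, resultant f ((∑ i, C (a i) * X ^ (i : ℕ)) * (C t - X)) (g k).natDegree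
      (g k).natDegree = (∏ ρ : Z, (∑ i, C (a i) * X ^ (i : ℕ) : (ZMod p)[X]).eval (ρ : ZMod p)) * ∏ ρ : Z, (t - (ρ : ZMod p)) := by
    intro a
    have h1 : ((∑ i, C (a i) * X ^ (i : ℕ) : (ZMod p)[X]) * (C t - X)).natDegree ≤ (g k).natDegree := by
      have h2 : (∑ i, C (a i) * X ^ (i : ℕ) : (ZMod p)[X]).natDegree ≤ (g k).natDegree - 1 := by
        refine natDegree_sum_le_of_forall_le _ _ fun i _ => ?_
        exact (natDegree_C_mul_X_pow_le _ _).trans (by omega)
      have h3 : (C t - X : (ZMod p)[X]).natDegree ≤ 1 := by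
        refine (natDegree_sub_le _ _).trans ?_
        rw [natDegree_C, natDegree_X]
        exact le_rfl
      refine natDegree_mul_le.trans ?_
      omega
    have h4 := E1_res f hfm hroots _ _ h1
    rw [hfd] at h4
    rw [h4, ← Finset.prod_mul_distrib, hZ]
    refine Finset.prod_congr rfl fun ρ _ => ?_
    rw [eval_mul, eval_sub, eval_C, eval_X]
  have hev : Function.Injective fun (a : Fin (g k).natDegree → ZMod p) (ρ : Z) =>
      (∑ i, C (a i) * X ^ (i : ℕ) : (ZMod p)[X]).eval (ρ : ZMod p) := by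
    intro a a' h
    have h1 : (∑ i, C (a i) * X ^ (i : ℕ) : (ZMod p)[X]) = ∑ i, C (a' i) * X ^ (i : ℕ) := by
      refine eq_of_degree_sub_lt_of_eval_finset_eq Z ?_ fun ρ hρ => congrFun h ⟨ρ, hρ⟩
      have h2 : Z.card = (g k).natDegree := by
        rw [← hZc, Fintype.card_coe]
      rw [h2]
      exact (degree_sub_le _ _).trans_lt (max_lt (degree_sum_fin_lt a) (degree_sum_fin_lt a'))
    funext i
    have h3 : ∀ a : Fin (g k).natDegree → ZMod p, (∑ j, C (a j) * X ^ (j : ℕ) : (ZMod p)[X]).coeff i = a i := by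
      intro a
      rw [finsetSum_coeff, Finset.sum_eq_single i]
      · rw [coeff_C_mul_X_pow, if_pos rfl]
      · intro j _ hj
        rw [coeff_C_mul_X_pow, if_neg fun h => hj (Fin.ext h).symm]
      · intro h
        exact absurd (Finset.mem_univ _) h
    rw [← h3 a, h1, h3 a']
  have hcardZ : Nat.card (Z → ZMod p) = p ^ (g k).natDegree := by
    rw [Nat.card_fun, Nat.card_eq_fintype_card (α := Z), hZc, Nat.card_zmod]
  have hz := E1_zeroN (F := ZMod p) (Z := Z)
  rw [hcardZ, hZc, ZMod.card] at hz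
  have hz2 : 2 * Nat.card {b : Z → ZMod p // ∏ ρ, b ρ = 0} ≤ p ^ (g k).natDegree := by
    have h1 : Nat.card {b : Z → ZMod p // ∏ ρ, b ρ = 0} * (2 * (g k).natDegree) ≤
        (g k).natDegree * p ^ (g k).natDegree := (Nat.mul_le_mul_left _ (by omega)).trans hz
    refine Nat.le_of_mul_le_mul_left ?_ hn
    calc (g k).natDegree * (2 * Nat.card {b : Z → ZMod p // ∏ ρ, b ρ = 0})
        = Nat.card {b : Z → ZMod p // ∏ ρ, b ρ = 0} * (2 * (g k).natDegree) := by ring
      _ ≤ _ := h1
  by_cases hpc : (p : ℤ) ∣ c0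
  · have h1 : Nat.card {a : Fin (g k).natDegree → ZMod p //
        (¬ (p : ℤ) ∣ c0 → IsSquare ((c0 : ZMod p) * resultant f
          ((∑ i, C (a i) * X ^ (i : ℕ)) * (C t - X)) (g k).natDegree (g k).natDegree)) ∧
        ((p : ℤ) ∣ c0 → resultant f
          ((∑ i, C (a i) * X ^ (i : ℕ)) * (C t - X)) (g k).natDegree (g k).natDegree = 0)} ≤
        Nat.card {b : Z → ZMod p // ∏ ρ, b ρ = 0} := by
      refine Nat.card_le_card_of_injective (fun a => ⟨fun ρ => (∑ i, C (a.1 i) * X ^ (i : ℕ) : (ZMod p)[X]).eval (ρ : ZMod p), ?_⟩) ?_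
      · have h2 := a.2.2 hpc
        rw [hres] at h2
        exact (mul_eq_zero.1 h2).resolve_right hβ
      · intro a a' h
        exact Subtype.ext (hev (by simpa only [Subtype.mk.injEq] using h))
    have h3 := hz2.trans' (Nat.mul_le_mul_left 2 h1)
    have h4 : (2 : ℝ) * (Nat.card {a : Fin (g k).natDegree → ZMod p //
        (¬ (p : ℤ) ∣ c0 → IsSquare ((c0 : ZMod p) * resultant f
          ((∑ i, C (a i) * X ^ (i : ℕ)) * (C t - X)) (g k).natDegree (g k).natDegree)) ∧
        ((p : ℤ) ∣ c0 → resultant f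
          ((∑ i, C (a i) * X ^ (i : ℕ)) * (C t - X)) (g k).natDegree (g k).natDegree = 0)} : ℝ) ≤ (p : ℝ) ^ (g k).natDegree := by
      exact_mod_cast h3
    have h5 : (0 : ℝ) ≤ (p : ℝ) ^ (g k).natDegree := by positivity
    linarith
  · have hc : (c0 : ZMod p) ≠ 0 := fun h0 => hpc ((ZMod.intCast_zmod_eq_zero_iff_dvd c0 p).1 h0)
    obtain ⟨u, hu⟩ : ∃ u : ZMod p, ¬ IsSquare u := by
      refine FiniteField.exists_nonsquare ?_
      rw [ZMod.ringChar_zmod_n]
      omega
    obtain ⟨ρ₀⟩ : Nonempty Z := Fintype.card_pos_iff.1 (by omega)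
    have hs := E1_sqN ρ₀ hu (mul_ne_zero hc hβ)
    rw [hcardZ] at hs
    have h1 : Nat.card {a : Fin (g k).natDegree → ZMod p //
        (¬ (p : ℤ) ∣ c0 → IsSquare ((c0 : ZMod p) * resultant f
          ((∑ i, C (a i) * X ^ (i : ℕ)) * (C t - X)) (g k).natDegree (g k).natDegree)) ∧
        ((p : ℤ) ∣ c0 → resultant f
          ((∑ i, C (a i) * X ^ (i : ℕ)) * (C t - X)) (g k).natDegree (g k).natDegree = 0)} ≤
        Nat.card {b : Z → ZMod p // IsSquare ((c0 : ZMod p) * (∏ ρ : Z, (t - (ρ : ZMod p))) * ∏ ρ, b ρ)} := by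
      refine Nat.card_le_card_of_injective (fun a => ⟨fun ρ => (∑ i, C (a.1 i) * X ^ (i : ℕ) : (ZMod p)[X]).eval (ρ : ZMod p), ?_⟩) ?_
      · have h2 := a.2.1 hpc
        rw [hres] at h2
        rwa [mul_comm (∏ ρ : Z, (∑ i, C (a.1 i) * X ^ (i : ℕ) : (ZMod p)[X]).eval (ρ : ZMod p)), ← mul_assoc] at h2
      · intro a a' h
        exact Subtype.ext (hev (by simpa only [Subtype.mk.injEq] using h))
    have h3 : 4 * Nat.card {a : Fin (g k).natDegree → ZMod p //
        (¬ (p : ℤ) ∣ c0 → IsSquare ((c0 : ZMod p) * resultant f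
          ((∑ i, C (a i) * X ^ (i : ℕ)) * (C t - X)) (g k).natDegree (g k).natDegree)) ∧
        ((p : ℤ) ∣ c0 → resultant f
          ((∑ i, C (a i) * X ^ (i : ℕ)) * (C t - X)) (g k).natDegree (g k).natDegree = 0)} ≤ 3 * p ^ (g k).natDegree := by
      omega
    have h4 : (4 : ℝ) * (Nat.card {a : Fin (g k).natDegree → ZMod p //
        (¬ (p : ℤ) ∣ c0 → IsSquare ((c0 : ZMod p) * resultant f
          ((∑ i, C (a i) * X ^ (i : ℕ)) * (C t - X)) (g k).natDegree (g k).natDegree)) ∧
        ((p : ℤ) ∣ c0 → resultant f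
          ((∑ i, C (a i) * X ^ (i : ℕ)) * (C t - X)) (g k).natDegree (g k).natDegree = 0)} : ℝ) ≤ 3 * (p : ℝ) ^ (g k).natDegree := by
      exact_mod_cast h3
    linarith

end QV
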