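import Mathlib

/-! JOB E2.  Counting in a box with conditions modulo several primes (MATHLIB ONLY).
Let `q = ∏_{p ∈ F} p ≤ B` (so `B ≥ 1`).  The conditions depend only on `a` modulo `q`; by the Chinese remainder theorem the number of the classes modulo `q` satisfying them is `∏_{p ∈ F} card (Z p) ≤ θ ^ |F| q ^ n`, and a class has at most `((2 B + 1) / q + 1) ^ n ≤ (4 B / q) ^ n` elements in the box.  (Induction on `F` is awkward; use the injection `a ↦ (a mod p)_p, (a i div q)_i`, i.e. for every vector `v` of residues modulo `q` at most `(4 B / q) ^ n` elements.)  If `F = ∅` the bound is `(4 B) ^ n`. -/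

set_option autoImplicit false

namespace QV

open Finset

private theorem E2_rng {q : ℕ} (hq : 1 ≤ q) {B : ℝ} {a : ℤ} (ha : |(a : ℝ)| ≤ B) :
    a / (q : ℤ) ∈ Finset.Icc ⌊-(B / q)⌋ ⌊B / q⌋ := by
  have hq0 : (0 : ℝ) < q := by exact_mod_cast hq
  have hqz : (0 : ℤ) < (q : ℤ) := by exact_mod_cast hq
  obtain ⟨h1, h2⟩ := abs_le.1 ha
  have h3 : (q : ℤ) * (a / (q : ℤ)) ≤ a := Int.mul_ediv_self_le hqz.ne'
  have h4 : a < (q : ℤ) * (a / (q : ℤ) + 1) := by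
    have h5 := Int.emod_add_mul_ediv a (q : ℤ)
    have h6 := Int.emod_lt_of_pos a hqz
    rw [mul_add, mul_one]
    omega
  have h3' : (q : ℝ) * ((a / (q : ℤ) : ℤ) : ℝ) ≤ (a : ℝ) := by exact_mod_cast h3
  have h4' : (a : ℝ) < (q : ℝ) * (((a / (q : ℤ) : ℤ) : ℝ) + 1) := by exact_mod_cast h4
  rw [Finset.mem_Icc]
  constructor
  · refine Int.lt_add_one_iff.1 (Int.floor_lt.2 ?_)
    push_cast
    rw [← neg_div, div_lt_iff₀ hq0]
    linarith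
  · refine Int.le_floor.2 ?_
    rw [le_div_iff₀ hq0]
    linarith

private theorem E2_card {q : ℕ} (hq : 1 ≤ q) {B : ℝ} (hB : (q : ℝ) ≤ B) :
    ((Finset.Icc ⌊-(B / q)⌋ ⌊B / q⌋).card : ℝ) ≤ 4 * B / q := by
  have hq0 : (0 : ℝ) < q := by exact_mod_cast hq
  have h1 : 1 ≤ B / q := by
    rw [le_div_iff₀ hq0]
    linarith
  have h2 : ⌊-(B / q)⌋ ≤ ⌊B / q⌋ := Int.floor_le_floor (by linarith)
  have h3 := Int.lt_floor_add_one (-(B / q))
  have h4 := Int.floor_le (B / q)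
  rw [Int.card_Icc]
  have h5 : (((⌊B / q⌋ + 1 - ⌊-(B / q)⌋).toNat : ℕ) : ℝ) = (⌊B / q⌋ : ℝ) + 1 - (⌊-(B / q)⌋ : ℝ) := by
    have h6 : (((⌊B / q⌋ + 1 - ⌊-(B / q)⌋).toNat : ℕ) : ℤ) = ⌊B / q⌋ + 1 - ⌊-(B / q)⌋ :=
      Int.toNat_of_nonneg (by omega)
    have h7 := congrArg (fun z : ℤ => (z : ℝ)) h6
    push_cast at h7
    exact h7
  rw [h5, mul_div_assoc]
  linarith

theorem crt_count (n : ℕ) (F : Finset ℕ) (hF : ∀ p ∈ F, p.Prime) (Z : (p : ℕ) → Set (Fin n → ZMod p)) (θ : ℝ) (hθ : 0 ≤ θ)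
    (hZ : ∀ p ∈ F, (Nat.card (Z p) : ℝ) ≤ θ * (p : ℝ) ^ n) (B : ℝ) (hB : (∏ p ∈ F, (p : ℝ)) ≤ B) :
    (Nat.card {a : Fin n → ℤ // (∀ i, |(a i : ℝ)| ≤ B) ∧ ∀ p ∈ F, (fun i => ((a i : ℤ) : ZMod p)) ∈ Z p} : ℝ) ≤
      θ ^ F.card * (4 * B) ^ n := by
  classical
  obtain ⟨q, hq⟩ : ∃ q : ℕ, q = ∏ p ∈ F, p := ⟨_, rfl⟩
  have hq1 : 1 ≤ q := by
    rw [hq]
    exact Finset.prod_pos fun p hp => (hF p hp).pos
  have hq0 : (0 : ℝ) < q := by exact_mod_cast hq1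
  have hqB : (q : ℝ) ≤ B := by
    rw [hq]
    push_cast
    exact hB
  have hB0 : 0 < B := lt_of_lt_of_le hq0 hqB
  have hfin : ∀ p : {p // p ∈ F}, Finite (Z p.1) := fun p => by
    have : NeZero p.1 := ⟨(hF p.1 p.2).ne_zero⟩
    infer_instance
  obtain ⟨I, hI⟩ : ∃ I : Finset ℤ, I = Finset.Icc ⌊-(B / q)⌋ ⌊B / q⌋ := ⟨_, rfl⟩
  let f : {a : Fin n → ℤ // (∀ i, |(a i : ℝ)| ≤ B) ∧ ∀ p ∈ F, (fun i => ((a i : ℤ) : ZMod p)) ∈ Z p} →
      ((p : {p // p ∈ F}) → Z p.1) × (Fin n → {z // z ∈ I}) := fun a =>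
    (fun p => ⟨fun i => ((a.1 i : ℤ) : ZMod p.1), a.2.2 p.1 p.2⟩,
      fun i => ⟨a.1 i / (q : ℤ), by rw [hI]; exact E2_rng hq1 (a.2.1 i)⟩)
  have hf : Function.Injective f := by
    intro a b hab
    have h1 : ∀ (p : ℕ) (hp : p ∈ F) (i : Fin n), ((a.1 i : ℤ) : ZMod p) = ((b.1 i : ℤ) : ZMod p) := by
      intro p hp i
      have h2 := congrFun (congrArg Prod.fst hab) ⟨p, hp⟩
      exact congrFun (congrArg Subtype.val h2) i
    have h2 : ∀ i : Fin n, a.1 i / (q : ℤ) = b.1 i / (q : ℤ) := by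
      intro i
      exact congrArg Subtype.val (congrFun (congrArg Prod.snd hab) i)
    apply Subtype.ext
    funext i
    have h3 : (q : ℤ) ∣ b.1 i - a.1 i := by
      rw [Int.natCast_dvd, hq]
      refine Finset.prod_primes_dvd _ (fun p hp => (hF p hp).prime) fun p hp => ?_
      rw [← Int.natCast_dvd]
      exact (ZMod.intCast_eq_intCast_iff_dvd_sub _ _ _).1 (h1 p hp i)
    have h4 : a.1 i % (q : ℤ) = b.1 i % (q : ℤ) := Int.modEq_iff_dvd.2 h3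
    rw [← Int.emod_add_mul_ediv (a.1 i) (q : ℤ), ← Int.emod_add_mul_ediv (b.1 i) (q : ℤ), h4, h2 i]
  have hIc : Nat.card {z // z ∈ I} = I.card := by rw [Nat.card_eq_fintype_card, Fintype.card_coe]
  have h1 := Nat.card_le_card_of_injective f hf
  rw [Nat.card_prod, Nat.card_pi, Nat.card_pi, Finset.prod_const, Finset.card_univ, Fintype.card_fin, hIc,
    Finset.prod_coe_sort F (fun p => Nat.card (Z p))] at h1
  have h2 : (∏ p ∈ F, (Nat.card (Z p) : ℝ)) ≤ ∏ p ∈ F, (θ * (p : ℝ) ^ n) :=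
    Finset.prod_le_prod (fun p _ => Nat.cast_nonneg _) hZ
  rw [Finset.prod_mul_distrib, Finset.prod_const, Finset.prod_pow] at h2
  have h3 : (I.card : ℝ) ≤ 4 * B / q := by
    rw [hI]
    exact E2_card hq1 hqB
  have h4 : (∏ p ∈ F, (p : ℝ)) = (q : ℝ) := by
    rw [hq]
    push_cast
    rfl
  rw [h4] at h2
  calc (Nat.card {a : Fin n → ℤ // (∀ i, |(a i : ℝ)| ≤ B) ∧ ∀ p ∈ F, (fun i => ((a i : ℤ) : ZMod p)) ∈ Z p} : ℝ)
      ≤ (((∏ p ∈ F, Nat.card (Z p)) * I.card ^ n : ℕ) : ℝ) := Nat.cast_le.2 h1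
    _ = (∏ p ∈ F, (Nat.card (Z p) : ℝ)) * (I.card : ℝ) ^ n := by push_cast; rfl
    _ ≤ (θ ^ F.card * (q : ℝ) ^ n) * (4 * B / q) ^ n :=
        mul_le_mul h2 (pow_le_pow_left₀ (Nat.cast_nonneg _) h3 n) (by positivity) (by positivity)
    _ = θ ^ F.card * (4 * B) ^ n := by
        rw [div_pow]
        field_simp

end QV
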