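import Pool.Agent.Lib.MP_10e784_agTR.TRInc

/-! JOB E3.  Many small primes in `S`.
From `hS.lower` at `n ^ b` and `hS.upper` at `n`: the sum of `1 / p` over the `p ∈ S`, `n < p ≤ n ^ b` is at least `(1 / n₀) (log log (n ^ b) - log log n) - C - C' = (1 / n₀) log b - C - C' ≥ 1` for a suitable `b`.  Each term is `< 1 / n`, so there are at least `n` such primes; choose `n` of them (`Finset.exists_subset_card_eq`). -/

set_option autoImplicit false

namespace QV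

open Finset Polynomial

theorem s_primes {ι : Type} {g : ι → ℤ[X]} (S : Set ℕ) (n₀ : ℕ) (hS : PT.Spl g S n₀) :
    ∃ b n1 : ℕ, ∀ n : ℕ, n1 ≤ n → ∃ F : Finset ℕ, (∀ p ∈ F, p ∈ S ∧ p.Prime ∧ n < p ∧ p ≤ n ^ b) ∧ F.card = n := by
  classical
  obtain ⟨C, hC⟩ := hS.upper
  obtain ⟨C', hC'⟩ := hS.lower
  have hn0 : (0 : ℝ) < n₀ := by exact_mod_cast hS.npos
  obtain ⟨b, hb⟩ := exists_nat_ge (Real.exp (n₀ * (C + C' + 1)))
  have hb0 : (0 : ℝ) < b := lt_of_lt_of_le (Real.exp_pos _) hb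
  have hlb : (n₀ : ℝ) * (C + C' + 1) ≤ Real.log b := by
    rw [← Real.log_exp (n₀ * (C + C' + 1))]
    exact Real.log_le_log (Real.exp_pos _) hb
  have hb1 : 0 < b := by exact_mod_cast hb0
  refine ⟨b, 3, fun n hn => ?_⟩
  have hn2 : (2 : ℝ) ≤ n := by exact_mod_cast (by omega : 2 ≤ n)
  have hnb : n ≤ n ^ b := Nat.le_self_pow (by omega) n
  have hnb2 : (2 : ℝ) ≤ ((n ^ b : ℕ) : ℝ) := by exact_mod_cast (by omega : 2 ≤ n ^ b)
  have h1 := hC n hn2
  have h2 := hC' ((n ^ b : ℕ) : ℝ) hnb2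
  have hlog : 0 < Real.log n := Real.log_pos (by linarith)
  have h3 : Real.log (Real.log ((n ^ b : ℕ) : ℝ)) = Real.log b + Real.log (Real.log n) := by
    rw [Nat.cast_pow, Real.log_pow, Real.log_mul hb0.ne' hlog.ne']
  rw [h3] at h2
  have h4 : C + C' + 1 ≤ (1 / n₀ : ℝ) * Real.log b := by
    rw [one_div, inv_mul_eq_div, le_div_iff₀ hn0]
    linarith
  have h5 : PT.PS (PT.ind S) (n : ℝ) + 1 ≤ PT.PS (PT.ind S) ((n ^ b : ℕ) : ℝ) := by
    have : (1 / n₀ : ℝ) * (Real.log b + Real.log (Real.log n)) =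
      (1 / n₀ : ℝ) * Real.log b + (1 / n₀ : ℝ) * Real.log (Real.log n) := mul_add _ _ _
    linarith
  unfold PT.PS at h5
  rw [Nat.floor_natCast, Nat.floor_natCast,
    ← Finset.sum_filter_add_sum_filter_not ((Icc 1 (n ^ b)).filter Nat.Prime) (fun p => p ≤ n)] at h5
  have hnn : (0 : ℝ) < n := by linarith
  have h6 : ∑ p ∈ ((Icc 1 (n ^ b)).filter Nat.Prime).filter (fun p => p ≤ n), PT.ind S p / (p : ℝ) ≤
      ∑ p ∈ (Icc 1 n).filter Nat.Prime, PT.ind S p / (p : ℝ) := by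
    refine Finset.sum_le_sum_of_subset_of_nonneg (fun p hp => ?_) fun p _ _ => ?_
    · rw [mem_filter, mem_filter, mem_Icc] at hp
      rw [mem_filter, mem_Icc]
      exact ⟨⟨hp.1.1.1, hp.2⟩, hp.1.2⟩
    · unfold PT.ind
      split_ifs
      · positivity
      · rw [zero_div]
  have h7 : ∑ p ∈ ((Icc 1 (n ^ b)).filter Nat.Prime).filter (fun p => ¬ p ≤ n), PT.ind S p / (p : ℝ) ≤
      ((((Icc 1 (n ^ b)).filter Nat.Prime).filter (fun p => ¬ p ≤ n)).filter fun p => p ∈ S).card * (1 / (n : ℝ)) := by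
    rw [← nsmul_eq_mul, ← Finset.sum_const, Finset.sum_filter (fun p => p ∈ S)]
    refine Finset.sum_le_sum fun p hp => ?_
    rw [mem_filter] at hp
    unfold PT.ind
    split_ifs
    · refine one_div_le_one_div_of_le hnn ?_
      exact_mod_cast (by omega : n ≤ p)
    · rw [zero_div]
  have h8 : (1 : ℝ) ≤ ((((Icc 1 (n ^ b)).filter Nat.Prime).filter (fun p => ¬ p ≤ n)).filter fun p => p ∈ S).card *
      (1 / (n : ℝ)) := by linarith
  rw [mul_one_div, le_div_iff₀ hnn, one_mul] at h8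
  obtain ⟨F, hF, hFc⟩ := Finset.exists_subset_card_eq (show n ≤
    ((((Icc 1 (n ^ b)).filter Nat.Prime).filter (fun p => ¬ p ≤ n)).filter fun p => p ∈ S).card by exact_mod_cast h8)
  refine ⟨F, fun p hp => ?_, hFc⟩
  have h9 := hF hp
  rw [mem_filter, mem_filter, mem_filter, mem_Icc] at h9
  exact ⟨h9.2, h9.1.1.2, not_le.1 h9.1.2, h9.1.1.1.2⟩

end QV
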