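import Pool.Agent.Lib.MP_10e784_agQV.DefsP
import Pool.Agent.Lib.MP_10e784_agTR.TWNrm

/-! JOB R2.  Three facts on `mm`.
`mm_congr`: the coordinates of index `r`, `s` do not occur.
`mm_ne`: `resultant (g k) (pol g x k * (C t - X)) n n ≠ 0`: over `ℚ` `qq (g k)` (irreducible, monic of degree `n`) is coprime to `pol g x k` (nonzero of degree `< n`) and to `t - X` (`g r = X - t ≠ g k`); see the proof of `TR.norm_class` (file TWNrm.lean).
`mm_bound`: the resultant of `G` (monic of degree `n`) and `A` (`natDegree A ≤ n`) is the product of the values of `A` at the `n` complex roots of `G` (`Polynomial.resultant_eq_prod_roots..`), up to sign, or estimate the determinant; for `x` in the box `|pol g x k (θ)| ≤ A' * 2 ^ (j k / n)`, so the factor is at most `A'' 2 ^ (j k)`. -/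

set_option autoImplicit false

namespace QV

open Finset Polynomial TW TR

private theorem R2_lt {ι R : Type} [CommRing R] (g : ι → ℤ[X]) (x : Co g → R) (i : ι) :
    (pol g x i).degree < ((g i).natDegree : WithBot ℕ) := by
  unfold pol
  exact Polynomial.degree_sum_fin_lt (fun c : Fin (g i).natDegree => x ⟨i, c⟩)

private theorem R2_nd (n : ℕ) (hn : 0 < n) (P : ℤ[X]) (hP : P.degree < (n : WithBot ℕ)) (t : ℤ) :
    (P * (C t - X)).natDegree ≤ n := by
  have h1 : P.natDegree ≤ n - 1 := by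
    have h2 : P.natDegree < n ∨ P = 0 := by
      by_cases h : P = 0
      · exact Or.inr h
      · left
        rw [degree_eq_natDegree h] at hP
        exact_mod_cast hP
    rcases h2 with h2 | h2
    · omega
    · rw [h2, natDegree_zero]
      omega
  have h3 : (C t - X : ℤ[X]).natDegree ≤ 1 := by
    refine (natDegree_sub_le _ _).trans ?_
    simp
  have h4 : (P * (C t - X)).natDegree ≤ P.natDegree + (C t - X : ℤ[X]).natDegree := natDegree_mul_le
  omega

private theorem R2_pos {ι : Type} [Fintype ι] {g : ι → ℤ[X]} (hg : TR.Fam g) (k : ι) : 0 < (g k).natDegree := by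
  have hinj : Function.Injective (Int.castRingHom ℚ) := Int.cast_injective
  have h1 : ((g k).map (Int.castRingHom ℚ)).natDegree = (g k).natDegree := natDegree_map_eq_of_injective hinj _
  have h2 := (hg.irr k).natDegree_pos
  omega

private theorem R2_cop {ι : Type} [Fintype ι] {g : ι → ℤ[X]} (hg : TR.Fam g) (i₀ : ι) (h1 : (g i₀).natDegree = 1)
    (y : Co g → ℤ) {i : ι} (hi : i ≠ i₀) (hy : pol g y i ≠ 0) :
    resultant (g i) (pol g y i * (C (-((g i₀).coeff 0)) - X)) (g i).natDegree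
      (pol g y i * (C (-((g i₀).coeff 0)) - X)).natDegree ≠ 0 := by
  have hinj : Function.Injective (Int.castRingHom ℚ) := Int.cast_injective
  have hirr : Irreducible (qq (g i)) := hg.irr i
  have hdeg : (qq (g i)).natDegree = (g i).natDegree := natDegree_map_eq_of_injective hinj _
  have hpos : 0 < (qq (g i)).natDegree := hirr.natDegree_pos
  have hd : (pol g y i * (C (-((g i₀).coeff 0)) - X)).map (Int.castRingHom ℚ) =
      (pol g y i).map (Int.castRingHom ℚ) * (C (-((g i₀).coeff 0 : ℚ)) - X) := by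
    simp
  have hc1 : IsCoprime (qq (g i)) ((pol g y i).map (Int.castRingHom ℚ)) := by
    rw [hirr.coprime_iff_not_dvd]
    intro hdvd
    have hne : (pol g y i).map (Int.castRingHom ℚ) ≠ 0 := (Polynomial.map_ne_zero_iff hinj).2 hy
    have h3 := degree_le_of_dvd hdvd hne
    have h4 : ((pol g y i).map (Int.castRingHom ℚ)).degree < ((g i).natDegree : WithBot ℕ) := by
      rw [pol_map]
      exact R2_lt g _ i
    rw [degree_eq_natDegree hirr.ne_zero, hdeg] at h3
    exact absurd (lt_of_le_of_lt h3 h4) (lt_irrefl _)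
  have hc2 : IsCoprime (qq (g i)) (C (-((g i₀).coeff 0 : ℚ)) - X) := by
    rw [hirr.coprime_iff_not_dvd]
    intro hdvd
    have hne : (C (-((g i₀).coeff 0 : ℚ)) - X : ℚ[X]) ≠ 0 := by
      rw [← neg_sub]
      exact neg_ne_zero.2 (X_sub_C_ne_zero _)
    have h3 := natDegree_le_of_dvd hdvd hne
    have h4 : (C (-((g i₀).coeff 0 : ℚ)) - X : ℚ[X]).natDegree ≤ 1 := by
      refine (natDegree_sub_le _ _).trans ?_
      simp
    have h5 : (g i).natDegree = 1 := by omega
    -- both are linear: equal roots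
    have h6 : g i = X + C ((g i).coeff 0) := (hg.monic i).eq_X_add_C h5
    have h7 : g i₀ = X + C ((g i₀).coeff 0) := (hg.monic i₀).eq_X_add_C h1
    have h8 : qq (g i) = X + C ((g i).coeff 0 : ℚ) := by
      unfold qq
      conv_lhs => rw [h6]
      simp
    obtain ⟨Q, hQ⟩ := hdvd
    have h9 := congrArg (eval (-((g i).coeff 0 : ℚ))) hQ
    rw [h8] at h9
    simp only [eval_sub, eval_C, eval_X, eval_mul, eval_add] at h9
    have h10 : ((g i).coeff 0 : ℚ) = ((g i₀).coeff 0 : ℚ) := by linarith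
    have h11 : (g i).coeff 0 = (g i₀).coeff 0 := by exact_mod_cast h10
    apply hi
    apply hg.inj
    rw [h6, h7, h11]
  have hc : IsCoprime (qq (g i)) ((pol g y i * (C (-((g i₀).coeff 0)) - X)).map (Int.castRingHom ℚ)) := by
    rw [hd]
    exact hc1.mul_right hc2
  have hr := resultant_ne_zero _ _ hc
  rw [hdeg, natDegree_map_eq_of_injective hinj] at hr
  intro h0
  apply hr
  have h6 := resultant_map_map (g i) (pol g y i * (C (-((g i₀).coeff 0)) - X)) (g i).natDegree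
    (pol g y i * (C (-((g i₀).coeff 0)) - X)).natDegree (Int.castRingHom ℚ)
  rw [h0, map_zero] at h6
  exact h6

private theorem R2_prod (f : ℂ → ℂ) (M : ℝ) (hM : 0 ≤ M) (s : Multiset ℂ) (h : ∀ z ∈ s, ‖f z‖ ≤ M) :
    ‖(s.map f).prod‖ ≤ M ^ Multiset.card s := by
  induction s using Multiset.induction_on with
  | empty => simp
  | cons a s ih =>
    rw [Multiset.map_cons, Multiset.prod_cons, Multiset.card_cons, norm_mul, pow_succ']
    exact mul_le_mul (h a (Multiset.mem_cons_self a s)) (ih fun z hz => h z (Multiset.mem_cons_of_mem hz))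
      (norm_nonneg _) hM

private theorem R2_one (G : ℤ[X]) (hG : G.Monic) (hn : 0 < G.natDegree) (t : ℤ) (Cc : ℝ) (hCc : 1 ≤ Cc) :
    ∃ A : ℝ, 1 ≤ A ∧ ∀ (j : ℕ) (v : Fin G.natDegree → ℤ),
      (∀ c, |(v c : ℝ)| ≤ Cc * (2 : ℝ) ^ ((j : ℝ) / (G.natDegree : ℝ))) →
      |((resultant G ((∑ c : Fin G.natDegree, C (v c) * X ^ (c : ℕ)) * (C t - X)) G.natDegree G.natDegree : ℤ) : ℝ)| ≤
        A * 2 ^ j := by
  obtain ⟨n, hnn⟩ : ∃ n, n = G.natDegree := ⟨_, rfl⟩
  have hn1 : 1 ≤ n := by omega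
  have hinj : Function.Injective (Int.castRingHom ℂ) := Int.cast_injective
  have hGm : (G.map (Int.castRingHom ℂ)).Monic := hG.map _
  have hGd : (G.map (Int.castRingHom ℂ)).natDegree = G.natDegree := natDegree_map_eq_of_injective hinj _
  have hsp : (G.map (Int.castRingHom ℂ)).Splits := IsAlgClosed.splits _
  obtain ⟨R, hR⟩ : ∃ R, R = (G.map (Int.castRingHom ℂ)).roots := ⟨_, rfl⟩
  have hRc : Multiset.card R = G.natDegree := by
    rw [hR, ← hGd]
    exact hsp.natDegree_eq_card_roots.symm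
  obtain ⟨B, hB⟩ : ∃ B : ℝ, B = 1 + (R.map fun z => ‖z‖).sum := ⟨_, rfl⟩
  have hsum0 : 0 ≤ (R.map fun z => ‖z‖).sum := by
    refine Multiset.sum_nonneg fun y hy => ?_
    obtain ⟨z, _, rfl⟩ := Multiset.mem_map.1 hy
    exact norm_nonneg _
  have hB1 : 1 ≤ B := by linarith
  have hRB : ∀ z ∈ R, ‖z‖ ≤ B := by
    intro z hz
    have h1 : ‖z‖ ≤ (R.map fun z => ‖z‖).sum := by
      refine Multiset.single_le_sum ?_ _ (Multiset.mem_map_of_mem _ hz)
      intro y hy
      obtain ⟨w, _, rfl⟩ := Multiset.mem_map.1 hy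
      exact norm_nonneg _
    linarith
  have hA1 : 1 ≤ Cc * (n * B ^ n) * (|(t : ℝ)| + B) := by
    have h1 : (1 : ℝ) ≤ n := by exact_mod_cast hn1
    have h2 : 1 ≤ B ^ n := one_le_pow₀ hB1
    have h3 : 1 ≤ |(t : ℝ)| + B := by
      have := abs_nonneg (t : ℝ)
      linarith
    have h4 : 1 ≤ (n : ℝ) * B ^ n := one_le_mul_of_one_le_of_one_le h1 h2
    exact one_le_mul_of_one_le_of_one_le (one_le_mul_of_one_le_of_one_le hCc h4) h3
  refine ⟨(Cc * (n * B ^ n) * (|(t : ℝ)| + B)) ^ n, one_le_pow₀ hA1, ?_⟩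
  intro j v hv
  obtain ⟨q, hq⟩ : ∃ q : ℝ, q = (2 : ℝ) ^ ((j : ℝ) / (n : ℝ)) := ⟨_, rfl⟩
  have hq0 : 0 < q := by
    rw [hq]
    positivity
  have hqn : q ^ n = 2 ^ j := by
    rw [hq, ← Real.rpow_natCast, ← Real.rpow_mul (by norm_num)]
    have hn0 : (n : ℝ) ≠ 0 := by
      have : (1 : ℝ) ≤ n := by exact_mod_cast hn1
      linarith
    rw [div_mul_cancel₀ _ hn0, Real.rpow_natCast]
  obtain ⟨P, hP⟩ : ∃ P : ℤ[X], P = ∑ c : Fin G.natDegree, C (v c) * X ^ (c : ℕ) := ⟨_, rfl⟩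
  rw [← hP]
  have hPd : P.degree < (G.natDegree : WithBot ℕ) := by
    rw [hP]
    exact Polynomial.degree_sum_fin_lt v
  have hDd : (P * (C t - X)).natDegree ≤ G.natDegree := R2_nd _ hn P hPd t
  have e1 := resultant_map_map G (P * (C t - X)) G.natDegree G.natDegree (Int.castRingHom ℂ)
  have e2 := resultant_eq_prod_eval (G.map (Int.castRingHom ℂ)) ((P * (C t - X)).map (Int.castRingHom ℂ))
    G.natDegree (natDegree_map_le.trans hDd) hsp
  rw [hGd, hGm.leadingCoeff, one_pow, one_mul, ← hR, e1] at e2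
  have hev : ∀ z ∈ R, ‖eval z ((P * (C t - X)).map (Int.castRingHom ℂ))‖ ≤
      (Cc * (n * B ^ n) * (|(t : ℝ)| + B)) * q := by
    intro z hz
    have hz1 := hRB z hz
    have e3 : eval z ((P * (C t - X)).map (Int.castRingHom ℂ)) =
        (∑ c : Fin G.natDegree, (v c : ℂ) * z ^ (c : ℕ)) * ((t : ℂ) - z) := by
      rw [hP]
      simp [Polynomial.map_sum, Polynomial.eval_finsetSum]
    rw [e3, norm_mul]
    have h1 : ‖∑ c : Fin G.natDegree, (v c : ℂ) * z ^ (c : ℕ)‖ ≤ (Cc * (n * B ^ n)) * q := by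
      refine (norm_sum_le _ _).trans ?_
      have h2 : ∀ c ∈ (univ : Finset (Fin G.natDegree)), ‖(v c : ℂ) * z ^ (c : ℕ)‖ ≤ Cc * q * B ^ n := by
        intro c _
        rw [norm_mul, norm_pow, Complex.norm_intCast]
        refine mul_le_mul ?_ ?_ (by positivity) (by positivity)
        · rw [hq, hnn]
          exact hv c
        · refine (pow_le_pow_left₀ (norm_nonneg _) hz1 _).trans (pow_le_pow_right₀ hB1 ?_)
          rw [hnn]
          exact c.2.le
      refine (Finset.sum_le_sum h2).trans (le_of_eq ?_)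
      rw [Finset.sum_const, Finset.card_univ, Fintype.card_fin, nsmul_eq_mul, ← hnn]
      ring
    have h3 : ‖(t : ℂ) - z‖ ≤ |(t : ℝ)| + B := by
      refine (norm_sub_le _ _).trans ?_
      rw [Complex.norm_intCast]
      linarith
    calc ‖∑ c : Fin G.natDegree, (v c : ℂ) * z ^ (c : ℕ)‖ * ‖(t : ℂ) - z‖
        ≤ ((Cc * (n * B ^ n)) * q) * (|(t : ℝ)| + B) := mul_le_mul h1 h3 (norm_nonneg _) (by positivity)
      _ = (Cc * (n * B ^ n) * (|(t : ℝ)| + B)) * q := by ring
  have h5 := R2_prod (fun z => eval z ((P * (C t - X)).map (Int.castRingHom ℂ))) _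
    (by positivity) R hev
  have e4 : (R.map (eval · ((P * (C t - X)).map (Int.castRingHom ℂ)))).prod =
      (R.map fun z => eval z ((P * (C t - X)).map (Int.castRingHom ℂ))).prod := rfl
  rw [e4] at e2
  rw [← e2, hRc, ← hnn, mul_pow, hqn] at h5
  have e5 : ‖(Int.castRingHom ℂ) (resultant G (P * (C t - X)) n n)‖ =
      |((resultant G (P * (C t - X)) G.natDegree G.natDegree : ℤ) : ℝ)| := by
    rw [Int.coe_castRingHom, Complex.norm_intCast, hnn]
  rw [e5] at h5
  exact h5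

theorem mm_congr {ι : Type} [Fintype ι] [DecidableEq ι] (g : ι → ℤ[X]) (r s : ι) (x y : Co g → ℤ)
    (h : ∀ c : Co g, c.1 ≠ r → c.1 ≠ s → x c = y c) : mm g r s x = mm g r s y := by
  unfold mm
  refine Finset.prod_congr rfl fun k hk => ?_
  obtain ⟨h1, h2⟩ := (Finset.mem_filter.1 hk).2
  have e : pol g x k = pol g y k := by
    unfold pol
    refine Finset.sum_congr rfl fun c _ => ?_
    rw [h ⟨k, c⟩ h1 h2]
  rw [e]

theorem mm_ne {ι : Type} [Fintype ι] [DecidableEq ι] {g : ι → ℤ[X]} (hg : TR.Fam g) (r s : ι) (hr : (g r).natDegree = 1)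
    (x : Co g → ℤ) (hx : ∀ i, i ≠ r → i ≠ s → pol g x i ≠ 0) : mm g r s x ≠ 0 := by
  unfold mm
  refine Finset.prod_ne_zero_iff.2 fun k hk => ?_
  obtain ⟨h1, h2⟩ := (Finset.mem_filter.1 hk).2
  have h3 := R2_cop hg r hr x h1 (hx k h1 h2)
  have h4 := R2_nd _ (R2_pos hg k) (pol g x k) (R2_lt g x k) (-(g r).coeff 0)
  obtain ⟨l, hl⟩ := Nat.exists_eq_add_of_le h4
  have h5 := resultant_add_right_deg (g k) (pol g x k * (C (-(g r).coeff 0) - X)) (g k).natDegree
    (pol g x k * (C (-(g r).coeff 0) - X)).natDegree l le_rfl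
  rw [← hl, (hg.monic k).coeff_natDegree, one_pow, one_mul] at h5
  rw [h5]
  exact h3

theorem mm_bound {ι : Type} [Fintype ι] [DecidableEq ι] {g : ι → ℤ[X]} (hg : TR.Fam g) (r s : ι) (C : ℝ) (hC : 1 ≤ C) :
    ∃ A : ℝ, 1 ≤ A ∧ ∀ (j : ι → ℕ) (x : Co g → ℤ), Bx g C j x →
      |(mm g r s x : ℝ)| ≤ A * 2 ^ (∑ k ∈ univ.filter (fun k => k ≠ r ∧ k ≠ s), j k) := by
  classical
  have h1 : ∀ k : ι, ∃ A : ℝ, 1 ≤ A ∧ ∀ (j : ℕ) (v : Fin (g k).natDegree → ℤ),
      (∀ c, |(v c : ℝ)| ≤ C * (2 : ℝ) ^ ((j : ℝ) / ((g k).natDegree : ℝ))) →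
      |((resultant (g k) ((∑ c : Fin (g k).natDegree, Polynomial.C (v c) * X ^ (c : ℕ)) *
        (Polynomial.C (-(g r).coeff 0) - X)) (g k).natDegree (g k).natDegree : ℤ) : ℝ)| ≤ A * 2 ^ j :=
    fun k => R2_one (g k) (hg.monic k) (R2_pos hg k) (-(g r).coeff 0) C hC
  choose A hA1 hA using h1
  refine ⟨∏ k ∈ univ.filter (fun k => k ≠ r ∧ k ≠ s), A k, ?_, ?_⟩
  · refine Finset.prod_induction _ (fun z : ℝ => 1 ≤ z) (fun a b ha hb => one_le_mul_of_one_le_of_one_le ha hb)
      le_rfl fun k _ => hA1 k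
  · intro j x hx
    unfold mm
    rw [Int.cast_prod, Finset.abs_prod, ← Finset.prod_pow_eq_pow_sum, ← Finset.prod_mul_distrib]
    refine Finset.prod_le_prod (fun k _ => abs_nonneg _) fun k _ => ?_
    exact hA k (j k) (fun c => x ⟨k, c⟩) (fun c => hx ⟨k, c⟩)

end QV
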