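import Pool.Agent.Lib.MP_10e784_agQV.DefsP
import Pool.Agent.Lib.MP_10e784_agTR.TWGood
import Pool.Agent.Lib.MP_10e784_agTR.TWTriv

/-! JOB F1.  Finitely many twists with a bounded third part (Faltings).  MODEL: `TR.falt_xr`, `TR.finite_triv`, `falt_sub` in MP_10e784_agTR/FALT.lean (source in the package, not its oleans); `Hq` is `MPFA.quartic`.
`fin_uv`: let `A = ℂ`; the roots in `A` of the `g k`, `k ≠ r, s`, are pairwise different and at least `8 - 2 = 6` in number (`∏ qq (g k)` is separable: `TR.twgood_sep` or squarefree); choose five of them, `θ 0 .. θ 4`, with `k i` the index, and `σ i` with `σ i ^ 2 = pol g y (k i) (θ i)`; `M` = the subfield generated by the `θ i` and `σ i` (a number field).  For `(u, v)` in the set: `u - v θ i = (σ i / κ (θ i)) ^ 2` (`κ (θ i) ≠ 0` as `qq (g k)` is irreducible and does not divide `κ`).  If `v ≠ 0` and `x = u / v`: `v (x - θ i)` is a square in `M` for all `i`, so `x` lies in the finite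 set of `Hq` (product of four of them, divided by `v ^ 4`), and `(u, v)` is determined by `x` up to sign (coprime).  If `v = 0` then `u = ± 1`.
`pair_fin`: the vectors `y` = `x` off the coordinates of index `r, s` (zero there) with `|x c| ≤ C₀ (e c.1) ^ (1 / n) ≤ C₀ Q0` (`e k ≤ ∏ e ≤ Q0` for `k ≠ r, s`) are finite in number; `pol g y k = pol g x k` for `k ≠ r, s`; so the `(u, v)` are finite in number, and for each `(u, v)` at most one squarefree `D` has `D * a * ∏ hom` a nonzero square (`D D'` is a square). -/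

set_option autoImplicit false

namespace QV

open Finset Polynomial TW TR

private theorem F1_four {M : Type} [Field M] {v a b c d p q r s : M} (hv : v ≠ 0) (h1 : v * a = p ^ 2)
    (h2 : v * b = q ^ 2) (h3 : v * c = r ^ 2) (h4 : v * d = s ^ 2) : IsSquare (a * b * c * d) := by
  refine ⟨p * q * r * s / v ^ 2, ?_⟩
  have h5 : (p * q * r * s / v ^ 2) * (p * q * r * s / v ^ 2) = (p ^ 2 * q ^ 2 * r ^ 2 * s ^ 2) / v ^ 4 := by
    field_simp
  rw [h5, ← h1, ← h2, ← h3, ← h4]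
  field_simp

private theorem F1_sqf {D D' k : ℤ} (hD : Squarefree D) (hD' : Squarefree D') (h : D * D' = k * k) : D = D' := by
  have h1 : D ∣ k ^ 2 := ⟨D', by rw [h, pow_two]⟩
  have h2 : D ∣ k := (hD.dvd_pow_iff_dvd two_ne_zero).mp h1
  obtain ⟨m, rfl⟩ := h2
  have h3 : D' = D * (m * m) := by
    have h4 : D * D' = D * (D * (m * m)) := by rw [h]; ring
    exact mul_left_cancel₀ hD.ne_zero h4
  have h5 : IsUnit m := hD' m ⟨D, by rw [h3]; ring⟩
  have h6 : m * m = 1 := Int.isUnit_mul_self h5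
  rw [h3, h6, mul_one]

private theorem F1_sub (N : ℤ) : {D : ℤ | Squarefree D ∧ D * N ≠ 0 ∧ IsSquare (D * N)}.Subsingleton := by
  rintro D ⟨hD, h0, k, hk⟩ D' ⟨hD', h0', k', hk'⟩
  have hN : N ≠ 0 := right_ne_zero_of_mul h0
  have h1 : (N * N) ∣ (k * k') * (k * k') := ⟨D * D', by linear_combination (-D' * N) * hk - (k * k) * hk'⟩
  have h2 : N ∣ k * k' := by
    have h3 : N ^ 2 ∣ (k * k') ^ 2 := by rw [pow_two, pow_two]; exact h1
    exact (Int.pow_dvd_pow_iff two_ne_zero).mp h3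
  obtain ⟨m, hm⟩ := h2
  refine F1_sqf (k := m) hD hD' ?_
  have h4 : (N * N) * (D * D') = (N * N) * (m * m) := by
    have : (N * m) * (N * m) = (D * N) * (D' * N) := by
      rw [← hm, hk, hk']; ring
    linear_combination -this
  exact mul_left_cancel₀ (mul_ne_zero hN hN) h4

private theorem F1_cop {F : Set ℚ} (hF : F.Finite) :
    {q : ℤ × ℤ | IsCoprime q.1 q.2 ∧ q.2 ≠ 0 ∧ (q.1 : ℚ) / q.2 ∈ F}.Finite := by
  have h1 : ((fun x : ℚ => ((x.num, (x.den : ℤ)) : ℤ × ℤ)) '' F ∪ (fun x : ℚ => ((-x.num, -(x.den : ℤ)) : ℤ × ℤ)) '' F).Finite :=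
    (hF.image _).union (hF.image _)
  refine h1.subset ?_
  rintro ⟨u, v⟩ ⟨hc, hv, hx⟩
  simp only at hc hv hx
  rcases lt_or_gt_of_ne hv with h | h
  · right
    refine ⟨_, hx, ?_⟩
    have hco : Nat.Coprime (-u).natAbs (-v).natAbs := by
      rw [Int.natAbs_neg, Int.natAbs_neg]
      exact Int.isCoprime_iff_gcd_eq_one.mp hc
    have hpos : 0 < -v := by omega
    have e : (u : ℚ) / v = ((-u : ℤ) : ℚ) / ((-v : ℤ) : ℚ) := by
      push_cast
      rw [neg_div_neg_eq]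
    simp only
    rw [e, Rat.num_div_eq_of_coprime hpos hco, Rat.den_div_eq_of_coprime hpos hco, neg_neg, neg_neg]
  · left
    refine ⟨_, hx, ?_⟩
    have hco : Nat.Coprime u.natAbs v.natAbs := Int.isCoprime_iff_gcd_eq_one.mp hc
    simp only
    rw [Rat.num_div_eq_of_coprime h hco, Rat.den_div_eq_of_coprime h hco]

private theorem F1_eval {M : Type} [Field M] [Algebra ℚ M] {f p κ : ℚ[X]} (hf : Irreducible f) {u v : ℤ}
    (hκ : ¬ f ∣ κ) (hd : f ∣ p - (C (u : ℚ) - C (v : ℚ) * X) * κ ^ 2) {t s : M} (ht : aeval t f = 0)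
    (hs : s ^ 2 = aeval t p) : (u : M) - (v : M) * t = (s / aeval t κ) ^ 2 := by
  obtain ⟨g, hg⟩ := hd
  have h1 : aeval t (p - (C (u : ℚ) - C (v : ℚ) * X) * κ ^ 2) = 0 := by
    rw [hg, map_mul, ht, zero_mul]
  have hκ0 : aeval t κ ≠ 0 := by
    intro h0
    obtain ⟨a, b, hab⟩ := (hf.coprime_iff_not_dvd).2 hκ
    have h2 := congrArg (aeval t) hab
    rw [map_add, map_mul, map_mul, ht, h0, mul_zero, mul_zero, add_zero, map_one] at h2
    exact zero_ne_one h2
  simp only [map_sub, map_mul, map_pow, aeval_X, map_intCast] at h1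
  rw [div_pow, eq_div_iff (pow_ne_zero 2 hκ0), hs]
  linear_combination -h1

private theorem F1_uv (A : Type) [Field A] [Algebra ℚ A] [IsAlgClosed A]
    (Hq : ∀ (K : Type) [Field K] [NumberField K] (θ : Fin 5 → K), Function.Injective θ →
      {x : K | IsSquare ((x - θ 0) * (x - θ 1) * (x - θ 2) * (x - θ 3)) ∧
        IsSquare ((x - θ 0) * (x - θ 1) * (x - θ 2) * (x - θ 4))}.Finite)
    {κ' : Type} (I : Finset κ') (f p : κ' → ℚ[X]) (hirr : ∀ i ∈ I, Irreducible (f i))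
    (hsep : (∏ i ∈ I, f i).Separable) (h5 : 5 ≤ (∏ i ∈ I, f i).natDegree) :
    {q : ℤ × ℤ | IsCoprime q.1 q.2 ∧ ∀ i ∈ I, ∃ κ : ℚ[X], ¬ f i ∣ κ ∧
      f i ∣ p i - (C (q.1 : ℚ) - C (q.2 : ℚ) * X) * κ ^ 2}.Finite := by
  classical
  have hcard : Fintype.card ((∏ i ∈ I, f i).rootSet A) = (∏ i ∈ I, f i).natDegree :=
    card_rootSet_eq_natDegree hsep (IsAlgClosed.splits _)
  obtain ⟨R, hR⟩ : ∃ R : Finset A, R = ((∏ i ∈ I, f i).rootSet A).toFinset := ⟨_, rfl⟩
  have hRc : 5 ≤ R.card := by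
    rw [hR, Set.toFinset_card, hcard]
    exact h5
  have hf0 : (∏ i ∈ I, f i) ≠ 0 := hsep.ne_zero
  have hRm : ∀ x ∈ R, aeval x (∏ i ∈ I, f i) = 0 := by
    intro x hx
    rw [hR, Set.mem_toFinset, mem_rootSet] at hx
    exact hx.2
  have hRk : ∀ x : A, ∃ i, x ∈ R → i ∈ I ∧ aeval x (f i) = 0 := by
    intro x
    by_cases hx : x ∈ R
    · have h1 := hRm x hx
      rw [map_prod, Finset.prod_eq_zero_iff] at h1
      obtain ⟨i, hi, h2⟩ := h1
      exact ⟨i, fun _ => ⟨hi, h2⟩⟩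
    · have hne : I.Nonempty := by
        rcases I.eq_empty_or_nonempty with h | h
        · exfalso
          rw [h, Finset.prod_empty, natDegree_one] at h5
          omega
        · exact h
      obtain ⟨i, -⟩ := hne
      exact ⟨i, fun h => absurd h hx⟩
  choose k hk using hRk
  have hsq : ∀ t : A, ∃ s : A, s ^ 2 = aeval t (p (k t)) := fun t => IsAlgClosed.exists_pow_nat_eq _ (by norm_num)
  choose s hs using hsq
  obtain ⟨S, hS⟩ : ∃ S : Finset A, S = R ∪ R.image s := ⟨_, rfl⟩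
  obtain ⟨e⟩ := Function.Embedding.nonempty_of_card_le (α := Fin 5) (β := R) (by
    rw [Fintype.card_fin, Fintype.card_coe]
    exact hRc)
  let M : IntermediateField ℚ A := IntermediateField.adjoin ℚ (S : Set A)
  have hfd : FiniteDimensional ℚ M := by
    have h1 : ∀ x ∈ R, IsIntegral ℚ x := fun x hx =>
      (show IsAlgebraic ℚ x from ⟨∏ i ∈ I, f i, hf0, hRm x hx⟩).isIntegral
    refine IntermediateField.finiteDimensional_adjoin fun x hx => ?_
    rw [Finset.mem_coe, hS, Finset.mem_union, Finset.mem_image] at hx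
    rcases hx with hx | ⟨t, ht, rfl⟩
    · exact h1 x hx
    · refine IsIntegral.of_pow (n := 2) (by norm_num) ?_
      rw [hs]
      exact IsIntegral.of_mem_of_fg (Algebra.adjoin ℚ {t}) (h1 t ht).fg_adjoin_singleton _ (aeval_mem_adjoin_singleton ℚ t)
  have hcz : CharZero M := algebraRat.charZero _
  have hfd2 : ∀ i : Algebra ℚ M, @Module.Finite ℚ M _ _ i.toModule := by
    intro i
    have h1 : i = IntermediateField.algebra' M := Subsingleton.elim _ _
    rw [h1]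
    exact hfd
  have hNF : NumberField M := { to_charZero := hcz, to_finiteDimensional := hfd2 _ }
  have hmem : ∀ x ∈ S, x ∈ M := fun x hx => IntermediateField.subset_adjoin ℚ _ (Finset.mem_coe.2 hx)
  have hθM : ∀ i, (e i : A) ∈ M := fun i => hmem _ (by rw [hS]; exact Finset.mem_union_left _ (e i).2)
  have hsM : ∀ i, s (e i : A) ∈ M := fun i => hmem _ (by
    rw [hS]
    exact Finset.mem_union_right _ (Finset.mem_image_of_mem _ (e i).2))
  let θ : Fin 5 → M := fun i => ⟨e i, hθM i⟩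
  let σ : Fin 5 → M := fun i => ⟨s (e i), hsM i⟩
  have hinj : Function.Injective θ := by
    intro i j hij
    have h1 : (θ i : A) = θ j := by rw [hij]
    have h2 : (e i : A) = e j := h1
    exact e.injective (Subtype.ext h2)
  have hkI : ∀ i, k (e i : A) ∈ I := fun i => (hk _ (e i).2).1
  have hroot : ∀ i, aeval (θ i) (f (k (e i : A))) = 0 := fun i => by
    have h3 : algebraMap M A (aeval (θ i) (f (k (e i : A)))) = 0 := by
      rw [← aeval_algebraMap_apply]
      exact (hk _ (e i).2).2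
    exact (map_eq_zero _).1 h3
  have hσ : ∀ i, σ i ^ 2 = aeval (θ i) (p (k (e i : A))) := fun i => by
    apply (algebraMap M A).injective
    rw [map_pow, ← aeval_algebraMap_apply]
    exact hs _
  have hfin := (Hq M θ hinj).preimage (f := algebraMap ℚ M) (Set.injOn_of_injective (algebraMap ℚ M).injective)
  have hv0 : {q : ℤ × ℤ | IsCoprime q.1 q.2 ∧ q.2 = 0}.Finite := by
    refine (Set.toFinite {((1 : ℤ), (0 : ℤ)), ((-1 : ℤ), (0 : ℤ))}).subset ?_
    rintro ⟨u, v⟩ ⟨hc, hv⟩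
    simp only at hc hv
    subst hv
    rw [isCoprime_zero_right] at hc
    rcases Int.isUnit_iff.mp hc with rfl | rfl
    · left; rfl
    · right; rfl
  refine (hv0.union (F1_cop hfin)).subset ?_
  rintro ⟨u, v⟩ ⟨hc, hd⟩
  simp only at hc hd
  by_cases hv : v = 0
  · left
    exact ⟨hc, hv⟩
  · right
    refine ⟨hc, hv, ?_⟩
    simp only
    have H : ∀ i, ∃ w : M, (v : M) * ((algebraMap ℚ M ((u : ℚ) / v)) - θ i) = w ^ 2 := by
      intro i
      obtain ⟨κ, hκ, hdv⟩ := hd _ (hkI i)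
      have h1 := F1_eval (hirr _ (hkI i)) hκ hdv (hroot i) (hσ i)
      refine ⟨_, Eq.trans ?_ h1⟩
      have hvM : (v : M) ≠ 0 := by exact_mod_cast hv
      rw [map_div₀, map_intCast, map_intCast, mul_sub, mul_div_cancel₀ _ hvM]
    choose w hw using H
    have hvM : (v : M) ≠ 0 := by exact_mod_cast hv
    exact ⟨F1_four hvM (hw 0) (hw 1) (hw 2) (hw 3), F1_four hvM (hw 0) (hw 1) (hw 2) (hw 4)⟩

theorem fin_uv (Hq : ∀ (K : Type) [Field K] [NumberField K] (θ : Fin 5 → K), Function.Injective θ →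
      {x : K | IsSquare ((x - θ 0) * (x - θ 1) * (x - θ 2) * (x - θ 3)) ∧
        IsSquare ((x - θ 0) * (x - θ 1) * (x - θ 2) * (x - θ 4))}.Finite)
    {ι : Type} [Fintype ι] [DecidableEq ι] {g : ι → ℤ[X]} (hg : TR.Fam g) (h8 : 8 ≤ ∑ i, (g i).natDegree) (r s : ι) (hrs : r ≠ s)
    (hr : (g r).natDegree = 1) (hs : (g s).natDegree = 1) (y : Co g → ℤ) :
    {q : ℤ × ℤ | IsCoprime q.1 q.2 ∧ ∀ i, i ≠ r → i ≠ s → ∃ κ : ℚ[X], ¬ qq (g i) ∣ κ ∧
      qq (g i) ∣ pol g (fun c => (y c : ℚ)) i - (C (q.1 : ℚ) - C (q.2 : ℚ) * X) * κ ^ 2}.Finite := by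
  classical
  have hI := F1_uv ℂ Hq (univ.filter fun i => i ≠ r ∧ i ≠ s) (fun i => qq (g i))
    (fun i => pol g (fun c => (y c : ℚ)) i) (fun i _ => hg.irr i) ?_ ?_
  · refine hI.subset ?_
    rintro ⟨u, v⟩ ⟨hc, h⟩
    refine ⟨hc, fun i hi => ?_⟩
    rw [mem_filter] at hi
    exact h i hi.2.1 hi.2.2
  · apply Polynomial.separable_prod'
    · intro i _ j _ hij
      exact twgood_coprime hg hij
    · intro i _
      exact (hg.irr i).separable
  · have hm : ∀ i ∈ univ.filter (fun i => i ≠ r ∧ i ≠ s), (qq (g i)).Monic := fun i _ => (hg.monic i).map _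
    rw [natDegree_prod_of_monic _ _ hm]
    have hd : ∀ i, (qq (g i)).natDegree = (g i).natDegree := fun i => (hg.monic i).natDegree_map _
    rw [Finset.sum_congr rfl fun i _ => hd i]
    have h1 : ∑ i, (g i).natDegree = ∑ i ∈ univ.filter (fun i => i ≠ r ∧ i ≠ s), (g i).natDegree + 2 := by
      have h2 := Finset.sum_filter_add_sum_filter_not univ (fun i => i ≠ r ∧ i ≠ s) (fun i => (g i).natDegree)
      have h3 : univ.filter (fun i => ¬ (i ≠ r ∧ i ≠ s)) = {r, s} := by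
        ext i
        simp only [mem_filter, mem_univ, true_and, mem_insert, mem_singleton]
        tauto
      rw [← h2, h3, Finset.sum_pair hrs, hr, hs]
    omega

theorem pair_fin (Hq : ∀ (K : Type) [Field K] [NumberField K] (θ : Fin 5 → K), Function.Injective θ →
      {x : K | IsSquare ((x - θ 0) * (x - θ 1) * (x - θ 2) * (x - θ 3)) ∧
        IsSquare ((x - θ 0) * (x - θ 1) * (x - θ 2) * (x - θ 4))}.Finite)
    {ι : Type} [Fintype ι] [DecidableEq ι] {g : ι → ℤ[X]} (hg : TR.Fam g) (h8 : 8 ≤ ∑ i, (g i).natDegree) (r s : ι) (hrs : r ≠ s)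
    (hr : (g r).natDegree = 1) (hs : (g s).natDegree = 1) (a : ℤ) (ha : a ≠ 0) (C₀ : ℝ) (hC₀ : 1 ≤ C₀) (Q0 : ℕ) :
    {D : ℤ | Squarefree D ∧ ∃ (u v : ℤ) (e : ι → ℕ) (x : Co g → ℤ), IsCoprime u v ∧ (∀ i, PT.hom (g i) u v ≠ 0) ∧
      IsSquare (D * a * ∏ i, PT.hom (g i) u v) ∧
      (∀ c : Co g, |(x c : ℝ)| ≤ C₀ * (e c.1 : ℝ) ^ ((1 : ℝ) / (g c.1).natDegree)) ∧
      (∀ i, ∃ κ : ℚ[X], ¬ qq (g i) ∣ κ ∧
        qq (g i) ∣ pol g (fun c => (x c : ℚ)) i - (C (u : ℚ) - C (v : ℚ) * X) * κ ^ 2) ∧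
      (∀ i, 1 ≤ e i) ∧ ∏ k ∈ univ.filter (fun k => k ≠ r ∧ k ≠ s), e k ≤ Q0}.Finite := by
  classical
  have hpos : ∀ i, 1 ≤ (g i).natDegree := fun i => by
    have h1 : (qq (g i)).natDegree = (g i).natDegree := (hg.monic i).natDegree_map _
    rw [← h1]
    exact (hg.irr i).natDegree_pos
  obtain ⟨B, hB⟩ : ∃ B : ℕ, C₀ * ((Q0 : ℝ) + 1) ≤ B := exists_nat_ge _
  have hY : {y : Co g → ℤ | ∀ c, |y c| ≤ (B : ℤ)}.Finite := by
    have h1 : {y : Co g → ℤ | ∀ c, |y c| ≤ (B : ℤ)} = Set.pi Set.univ fun _ => Set.Icc (-(B : ℤ)) B := by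
      ext y
      simp only [Set.mem_ofPred_eq, Set.mem_pi, Set.mem_univ, true_imp_iff, Set.mem_Icc, abs_le]
    rw [h1]
    exact Set.Finite.pi (t := fun _ : Co g => Set.Icc (-(B : ℤ)) (B : ℤ)) fun _ => Set.finite_Icc _ _
  refine (hY.biUnion (t := fun y => ⋃ q ∈ {q : ℤ × ℤ | IsCoprime q.1 q.2 ∧ ∀ i, i ≠ r → i ≠ s → ∃ κ : ℚ[X], ¬ qq (g i) ∣ κ ∧
      qq (g i) ∣ pol g (fun c => (y c : ℚ)) i - (C (q.1 : ℚ) - C (q.2 : ℚ) * X) * κ ^ 2},
      {D : ℤ | Squarefree D ∧ D * (a * ∏ i, PT.hom (g i) q.1 q.2) ≠ 0 ∧ IsSquare (D * (a * ∏ i, PT.hom (g i) q.1 q.2))})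
      (fun y _ => (fin_uv Hq hg h8 r s hrs hr hs y).biUnion fun q _ => (F1_sub _).finite)).subset ?_
  rintro D ⟨hD, u, v, e, x, huv, hh, hsq, hx, hκ, he, hQ⟩
  have heQ : ∀ k, k ≠ r → k ≠ s → e k ≤ Q0 := by
    intro k h1 h2
    refine le_trans ?_ hQ
    exact Finset.single_le_prod' (f := e) (fun i _ => he i) (by rw [mem_filter]; exact ⟨mem_univ _, h1, h2⟩)
  obtain ⟨y, hy⟩ : ∃ y : Co g → ℤ, y = fun c => if c.1 = r ∨ c.1 = s then 0 else x c := ⟨_, rfl⟩
  have hyB : ∀ c, |y c| ≤ (B : ℤ) := by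
    intro c
    rw [hy]
    simp only
    split_ifs with hc
    · rw [abs_zero]
      positivity
    · rw [not_or] at hc
      have h1 := hx c
      have h2 : (e c.1 : ℝ) ^ ((1 : ℝ) / (g c.1).natDegree) ≤ (Q0 : ℝ) + 1 := by
        have h3 : (e c.1 : ℝ) ≤ Q0 := by exact_mod_cast heQ _ hc.1 hc.2
        have h4 : (1 : ℝ) ≤ (e c.1 : ℝ) := by exact_mod_cast he c.1
        have h5 : (1 : ℝ) / (g c.1).natDegree ≤ 1 := by
          rw [div_le_one (by exact_mod_cast hpos c.1)]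
          exact_mod_cast hpos c.1
        have h6 := Real.rpow_le_rpow_of_exponent_le h4 h5
        rw [Real.rpow_one] at h6
        linarith
      have h7 : |(x c : ℝ)| ≤ (B : ℝ) := by
        refine le_trans h1 (le_trans ?_ hB)
        exact mul_le_mul_of_nonneg_left h2 (by linarith)
      exact_mod_cast h7
  have hpy : ∀ i, i ≠ r → i ≠ s → pol g (fun c => (y c : ℚ)) i = pol g (fun c => (x c : ℚ)) i := by
    intro i h1 h2
    unfold pol
    apply Finset.sum_congr rfl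
    intro c _
    rw [hy]
    simp only
    rw [if_neg (by simp only [not_or]; exact ⟨h1, h2⟩)]
  rw [Set.mem_iUnion₂]
  refine ⟨y, hyB, ?_⟩
  rw [Set.mem_iUnion₂]
  refine ⟨(u, v), ⟨huv, fun i h1 h2 => ?_⟩, hD, ?_, ?_⟩
  · rw [hpy i h1 h2]
    exact hκ i
  · exact mul_ne_zero hD.ne_zero (mul_ne_zero ha (Finset.prod_ne_zero_iff.mpr fun i _ => hh i))
  · rw [← mul_assoc]
    exact hsq

end QV
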