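import Mathlib

/-! JOB O1.  The model of even degree (MATHLIB ONLY).
Choose `c` with `f.eval c ≠ 0` (`f ≠ 0` has finitely many roots).  `h = f.comp (X + C c)` has odd degree `d = f.natDegree` and `h.eval 0 ≠ 0`; `F = X * h.reverse`, so `F(t) = t ^ (d + 1) h(1 / t)` for `t ≠ 0` (`Polynomial.eval₂_reverse_mul_pow` or `reverse` lemmas), of degree `d + 1` (`reverse_natDegree`: the constant coefficient of `h` is not zero).  `F` is squarefree: `h` is (the map `comp (X + C c)` is an automorphism: `Polynomial.algEquivAevalXAddC`), so `h.reverse` is (if `a ^ 2` divides `h.reverse` with `a` not a unit, then `(a.reverse) ^ 2` divides `h.reverse.reverse = h`: `reverse_mul_of_domain`, `reverse_reverse..` (constant coefficients not zero); or use separability over a splitting field), and `X` does not divide `h.reverse` (its constant coefficient is the leading coefficient of `h`).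
For `x ≠ c`: `t = 1 / (x - c)`, `F(t) = t ^ (d + 1) f(x)`, and `d + 1` is even: `Y = t ^ ((d + 1) / 2) y`. -/

set_option autoImplicit false

namespace QV

open Polynomial

private theorem O1_trail {h : ℚ[X]} (h0 : h.coeff 0 ≠ 0) : h.natTrailingDegree = 0 :=
  Nat.le_zero.1 (natTrailingDegree_le_of_ne_zero h0)

private theorem O1_revdeg {h : ℚ[X]} (h0 : h.coeff 0 ≠ 0) : h.reverse.natDegree = h.natDegree := by
  rw [reverse_natDegree, O1_trail h0, Nat.sub_zero]

private theorem O1_revrev {h : ℚ[X]} (h0 : h.coeff 0 ≠ 0) : h.reverse.reverse = h := by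
  have h1 : h.reverse.reverse = reflect h.reverse.natDegree (reflect h.natDegree h) := rfl
  rw [h1, O1_revdeg h0, reflect_reflect]

private theorem O1_sqrev {h : ℚ[X]} (h0 : h.coeff 0 ≠ 0) (hs : Squarefree h) : Squarefree h.reverse := by
  intro a ha
  obtain ⟨b, hb⟩ := ha
  have h1 : h.reverse.coeff 0 ≠ 0 := by
    rw [coeff_zero_reverse]
    exact leadingCoeff_ne_zero.2 hs.ne_zero
  have ha0 : a.coeff 0 ≠ 0 := by
    intro h2
    apply h1
    rw [hb, mul_coeff_zero, mul_coeff_zero, h2, zero_mul, zero_mul]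
  have h3 : a.reverse * a.reverse ∣ h := by
    refine ⟨b.reverse, ?_⟩
    rw [← reverse_mul_of_domain, ← reverse_mul_of_domain, ← hb, O1_revrev h0]
  have h4 := natDegree_eq_zero_of_isUnit (hs _ h3)
  rw [O1_revdeg ha0] at h4
  rw [eq_C_of_natDegree_eq_zero h4]
  exact isUnit_C.2 (isUnit_iff_ne_zero.2 ha0)

theorem even_model (f : ℚ[X]) (hf : Squarefree f) (hodd : Odd f.natDegree) : ∃ (F : ℚ[X]) (c : ℚ), Squarefree F ∧
    F.natDegree = f.natDegree + 1 ∧ f.eval c ≠ 0 ∧
    ∀ D x y : ℚ, x ≠ c → D * y ^ 2 = f.eval x → y ≠ 0 → ∃ t w : ℚ, w ≠ 0 ∧ D * w ^ 2 = F.eval t := by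
  obtain ⟨c, hc⟩ : ∃ c : ℚ, f.eval c ≠ 0 := by
    by_contra hcon
    push Not at hcon
    apply hf.ne_zero
    refine Polynomial.funext fun x => ?_
    rw [hcon x, eval_zero]
  have h0 : (taylor c f).coeff 0 ≠ 0 := by
    rw [taylor_coeff_zero]
    exact hc
  have hs : Squarefree (taylor c f) := by
    intro a ha
    have h1 := map_dvd (taylorEquiv c).symm ha
    have h2 : (taylorEquiv c).symm (taylor c f) = f := (taylorEquiv c).symm_apply_apply f
    rw [map_mul, h2] at h1
    have h3 := (hf _ h1).map (taylorEquiv c)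
    rwa [AlgEquiv.apply_symm_apply] at h3
  have hne : taylor c f ≠ 0 := hs.ne_zero
  refine ⟨X * (taylor c f).reverse, c, ?_, ?_, hc, ?_⟩
  · rw [squarefree_mul_iff]
    refine ⟨?_, irreducible_X.squarefree, O1_sqrev h0 hs⟩
    rw [irreducible_X.isRelPrime_iff_not_dvd, X_dvd_iff, coeff_zero_reverse]
    exact leadingCoeff_ne_zero.2 hne
  · rw [natDegree_X_mul (fun h => hne (reverse_eq_zero.1 h)), O1_revdeg h0, natDegree_taylor]
  · intro D x y hx hxy hy
    have hxc : x - c ≠ 0 := sub_ne_zero.2 hx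
    obtain ⟨m, hm⟩ := hodd
    let inv : Invertible (x - c) := invertibleOfNonzero hxc
    have h1 := eval₂_reverse_mul_pow (RingHom.id ℚ) (x - c) (taylor c f)
    rw [invOf_eq_inv, natDegree_taylor, hm] at h1
    have h2 : eval₂ (RingHom.id ℚ) (x - c) (taylor c f) = f.eval x := by
      have h3 := taylor_eval c f (x - c)
      rw [sub_add_cancel] at h3
      exact h3
    rw [h2] at h1
    have h4 : eval ((x - c)⁻¹) (taylor c f).reverse * (x - c) ^ (2 * m + 1) = f.eval x := h1
    refine ⟨(x - c)⁻¹, ((x - c)⁻¹) ^ (m + 1) * y, mul_ne_zero (pow_ne_zero _ (inv_ne_zero hxc)) hy, ?_⟩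
    rw [eval_mul, eval_X]
    have h5 : eval ((x - c)⁻¹) (taylor c f).reverse = f.eval x * ((x - c)⁻¹) ^ (2 * m + 1) := by
      rw [← h4, mul_assoc, ← mul_pow, mul_inv_cancel₀ hxc, one_pow, mul_one]
    rw [h5, ← hxy]
    ring

end QV
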