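import Pool.Agent.Lib.MP_10e784_agQV.DefsP
import Pool.Agent.Lib.MP_10e784_agTR.RedR

/-! JOB RR.  The reduction to families, without the hypotheses on pairs of roots.
COPY of `TR.red_R` (file MP_10e784_agTR/RedR.lean): drop `hK`, `hH`, `OddK g` and `Sq2`; add that the total degree of the family is the degree of `f` (from `gen_fam`: `f = c * ∏ (..)`, see how `six` is obtained; `natDegree` of the product). -/

set_option autoImplicit false

namespace QV

open Finset Polynomial TW TR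

/-- the index of a root -/
private theorem RR_idx {n : ℕ} (f : ℚ[X]) (q : Fin n → ℚ[X]) (g : Fin n → ℤ[X]) (M : ℤ) (c : ℚ) (hc : c ≠ 0)
    (hF : f = C c * ∏ i, q i) (hg : ∀ i, qq (g i) = (q i).scaleRoots (M : ℚ)) (θ : ℂ) (hθ : aeval θ f = 0) :
    ∃ i, aeval θ (q i) = 0 ∧ aeval ((M : ℂ) * θ) (qq (g i)) = 0 := by
  rw [hF, map_mul, map_prod, aeval_C] at hθ
  have h5 : algebraMap ℚ ℂ c ≠ 0 := by
    rw [Ne, map_eq_zero]
    exact hc
  obtain ⟨i, -, hi⟩ := Finset.prod_eq_zero_iff.1 ((mul_eq_zero.1 hθ).resolve_left h5)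
  refine ⟨i, hi, ?_⟩
  rw [hg i]
  have h6 := scaleRoots_aeval_eq_zero (r := (M : ℚ)) hi
  simpa using h6

/-- the linear members of the family -/
private theorem RR_lin {n : ℕ} (f : ℚ[X]) (q : Fin n → ℚ[X]) (g : Fin n → ℤ[X]) (M : ℤ) (c : ℚ)
    (hmon : ∀ i, (q i).Monic) (hF : f = C c * ∏ i, q i) (hg : ∀ i, qq (g i) = (q i).scaleRoots (M : ℚ))
    (i : Fin n) (h1 : (g i).natDegree = 1) :
    ∃ r : ℚ, q i = X - C r ∧ f.eval r = 0 ∧ (-((g i).coeff 0 : ℚ)) = M * r := by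
  have h3 : (q i).natDegree = 1 := by
    rwa [← natDegree_qq, hg i, natDegree_scaleRoots] at h1
  have h4 := (hmon i).eq_X_add_C h3
  refine ⟨-(q i).coeff 0, ?_, ?_, ?_⟩
  · rw [C_neg, sub_neg_eq_add]
    exact h4
  · have h5 : (q i).eval (-(q i).coeff 0) = 0 := by
      rw [h4]
      simp
    obtain ⟨e, he⟩ : q i ∣ f := by
      rw [hF]
      exact dvd_mul_of_dvd_right (Finset.dvd_prod_of_mem q (Finset.mem_univ i)) _
    rw [he, eval_mul, h5, zero_mul]
  · have h5 : (qq (g i)).coeff 0 = (((g i).coeff 0 : ℤ) : ℚ) := by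
      rw [qq, coeff_map, eq_intCast]
    rw [← h5, hg i, coeff_scaleRoots, h3]
    simp
    ring

theorem red_V (f : ℚ[X]) (hf : Squarefree f) (hdeg : Even f.natDegree) (h6 : 6 ≤ f.natDegree) :
    ∃ (n : ℕ) (g : Fin n → ℤ[X]) (a : ℤ), TR.Fam g ∧ ∑ i, (g i).natDegree = f.natDegree ∧ a ≠ 0 ∧
      ∀ D : ℤ, D ≠ 0 →
        (∃ x w : ℚ, w ≠ 0 ∧ (D : ℚ) * w ^ 2 = f.eval x ∧ ¬ ∃ r : ℚ, f.eval r = 0 ∧ ∃ c : ℚ, c ≠ 0 ∧ ∃ h : ℚ[X],
          f ∣ (X - C r) * (C c * (X - C x) * (X - C r) - h ^ 2)) →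
        ∃ u v : ℤ, IsCoprime u v ∧ (∀ i, PT.hom (g i) u v ≠ 0) ∧ IsSquare (D * a * ∏ i, PT.hom (g i) u v) ∧
          ∀ i₀, ¬ Triv g i₀ (fun _ => C (u : ℚ) - C (v : ℚ) * X) := by
  obtain ⟨n, q, g, M, c, hM, hc, hFam, hmon, hF, hg⟩ := TR.gen_fam f hf hdeg h6
  have hden : (c.den : ℤ) ≠ 0 := by exact_mod_cast c.den_ne_zero
  have hMQ : (M : ℚ) ≠ 0 := by exact_mod_cast hM
  have hMC : (M : ℂ) ≠ 0 := by exact_mod_cast hM
  refine ⟨n, g, c.num * c.den, hFam, ?_, mul_ne_zero (Rat.num_ne_zero.2 hc) hden, ?_⟩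
  · have h1 : ∀ i, (g i).natDegree = (q i).natDegree := by
      intro i
      rw [← natDegree_qq, hg i, natDegree_scaleRoots]
    rw [Finset.sum_congr rfl fun i _ => h1 i, hF, natDegree_C_mul hc,
      natDegree_prod_of_monic _ _ fun i _ => hmon i]
  · -- the points
    rintro D hD ⟨x, w, hw, h, hnot⟩
    have hx : f.eval x ≠ 0 := by
      rw [← h]
      exact mul_ne_zero (by exact_mod_cast hD) (pow_ne_zero 2 hw)
    obtain ⟨u, v, l, huv, hl, hu, hv, h1, h2⟩ := gen_pt f hdeg q g M c hM hc hmon hF hg D x 1 w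
      (Or.inr one_ne_zero) (by rw [hq_one]; exact hx) (by rw [hq_one]; exact h)
    refine ⟨u, v, huv, h1, h2, ?_⟩
    rintro i₀ ⟨h3, c', hc', hB⟩
    obtain ⟨r, hqi, hr, hri⟩ := RR_lin f q g M c hmon hF hg i₀ h3
    apply hnot
    refine ⟨r, hr, c' * l, mul_ne_zero hc' hl, ?_⟩
    refine glue1 f hf r hr _ ?_
    intro θ hθ hθr
    obtain ⟨k, hk1, hk2⟩ := RR_idx f q g M c hc hF hg θ hθ
    have hki : k ≠ i₀ := by
      rintro rfl
      apply hθr
      rw [hqi] at hk1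
      simp only [map_sub, aeval_X, aeval_C, eq_ratCast] at hk1
      exact sub_eq_zero.1 hk1
    obtain ⟨B, e, he⟩ := hB k hki
    rw [hri] at he
    have h4 := congrArg (aeval ((M : ℂ) * θ)) he
    rw [map_mul (aeval ((M : ℂ) * θ)) (qq (g k)), hk2, zero_mul] at h4
    simp only [map_sub, map_mul, map_pow, aeval_C, aeval_X, eq_ratCast] at h4
    refine ⟨C (M : ℚ)⁻¹ * B.comp (C (M : ℚ) * X), ?_⟩
    have h5 : aeval θ (B.comp (C (M : ℚ) * X)) = aeval ((M : ℂ) * θ) B := by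
      rw [aeval_comp]
      simp
    rw [map_mul (aeval θ) (C (M : ℚ)⁻¹), h5, mul_pow]
    have hu' : (u : ℂ) = l * (M * x) := by
      have := congrArg (fun z : ℚ => (z : ℂ)) hu
      push_cast at this
      exact this
    have hv' : (v : ℂ) = l := by
      have := congrArg (fun z : ℚ => (z : ℂ)) hv
      push_cast at this
      rw [mul_one] at this
      exact this
    have h6 : (aeval ((M : ℂ) * θ) B) ^ 2 = (c' : ℂ) * ((l : ℂ) * (M * x) - l * ((M : ℂ) * θ)) * ((M : ℂ) * r - (M : ℂ) * θ) := by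
      push_cast at h4
      rw [hu', hv'] at h4
      linear_combination -h4
    rw [h6]
    simp only [map_sub, map_mul, aeval_C, aeval_X, eq_ratCast, Rat.cast_inv, Rat.cast_intCast]
    field_simp
    ring

end QV
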