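import Pool.Agent.Lib.MP_10e784_agQV.MA
import Pool.Agent.Lib.MP_10e784_agQV.RR
import Pool.Agent.Lib.MP_10e784_agQV.O1
import Pool.Agent.Lib.MP_10e784_agTR.FALT

/-!
# Almost all quadratic twists of a hyperelliptic curve of genus at least three with a rational Weierstrass point have no other rational points
-/

set_option autoImplicit false

namespace QV

open Polynomial Finset Filter

private theorem fin_fin (N : ℕ) (P : ℤ → Prop) : {D : ℤ | Squarefree D ∧ |D| ≤ (N : ℤ) ∧ P D}.Finite :=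
  (Set.finite_Icc (-(N : ℤ)) N).subset fun _ hD => abs_le.1 hD.2.1

/-- even degree at least eight -/
theorem all_even (f : ℚ[X]) (hf : Squarefree f) (hdeg : Even f.natDegree) (h8 : 8 ≤ f.natDegree) :
    Tendsto (fun N : ℕ => (Nat.card {D : ℤ // Squarefree D ∧ |D| ≤ (N : ℤ) ∧ ∃ x y : ℚ, y ≠ 0 ∧
      (D : ℚ) * y ^ 2 = f.eval x} : ℝ) / N) atTop (nhds 0) := by
  classical
  obtain ⟨n, g, a, hg, hsum, ha, hred⟩ := red_V f hf hdeg (by omega)
  have h1 := main_QV (fun K _ _ θ hθ => MPFA.quartic hθ) hg (hsum.symm ▸ h8) a ha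
  have hS := TR.finite_triv f hf (by omega)
  obtain ⟨S, hSdef⟩ : ∃ S : Set ℤ, S = {D : ℤ | Squarefree D ∧ ∃ r x y : ℚ, f.eval r = 0 ∧ y ≠ 0 ∧
      (D : ℚ) * y ^ 2 = f.eval x ∧ ∃ c : ℚ, c ≠ 0 ∧ ∃ h : ℚ[X],
        f ∣ (X - C r) * (C c * (X - C x) * (X - C r) - h ^ 2)} := ⟨_, rfl⟩
  rw [← hSdef] at hS
  have h2 : Tendsto (fun N : ℕ => (S.ncard : ℝ) / N) atTop (nhds 0) :=
    tendsto_const_div_atTop_nhds_zero_nat _
  have h3 := h1.add h2
  rw [add_zero] at h3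
  refine squeeze_zero (fun N => by positivity) (fun N => ?_) h3
  rw [← add_div]
  refine div_le_div_of_nonneg_right ?_ (Nat.cast_nonneg N)
  have e : ∀ P : ℤ → Prop, Nat.card {D : ℤ // Squarefree D ∧ |D| ≤ (N : ℤ) ∧ P D} =
      {D : ℤ | Squarefree D ∧ |D| ≤ (N : ℤ) ∧ P D}.ncard := fun P => rfl
  rw [e, e, ← Nat.cast_add, Nat.cast_le]
  refine (Set.ncard_le_ncard ?_ ((fin_fin N _).union hS)).trans (Set.ncard_union_le _ _)
  rintro D ⟨hD, hN, x, y, hy, hxy⟩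
  by_cases h : ∃ r : ℚ, f.eval r = 0 ∧ ∃ c : ℚ, c ≠ 0 ∧ ∃ h : ℚ[X],
      f ∣ (X - C r) * (C c * (X - C x) * (X - C r) - h ^ 2)
  · right
    rw [hSdef]
    obtain ⟨r, hr, c, hc, h, hd⟩ := h
    exact ⟨hD, r, x, y, hr, hy, hxy, c, hc, h, hd⟩
  · left
    exact ⟨hD, hN, hred D hD.ne_zero ⟨x, y, hy, hxy, h⟩⟩

private theorem sqf_unique {D D' k : ℤ} (hD : Squarefree D) (hD' : Squarefree D') (h : D * D' = k * k) : D = D' := by
  have h1 : D ∣ k ^ 2 := ⟨D', by rw [h, pow_two]⟩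
  have h2 : D ∣ k := (hD.dvd_pow_iff_dvd two_ne_zero).mp h1
  obtain ⟨m, rfl⟩ := h2
  have h3 : D' = D * (m * m) := by
    have h4 : D * D' = D * (D * (m * m)) := by rw [h]; ring
    exact mul_left_cancel₀ hD.ne_zero h4
  have h5 : IsUnit m := hD' m ⟨D, by rw [h3]; ring⟩
  have h6 : m * m = 1 := Int.isUnit_mul_self h5
  rw [h3, h6, mul_one]

private theorem one_sub {c : ℚ} (hc : c ≠ 0) : {D : ℤ | Squarefree D ∧ ∃ y : ℚ, (D : ℚ) * y ^ 2 = c}.Subsingleton := by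
  rintro D ⟨hD, y, hy⟩ D' ⟨hD', y', hy'⟩
  have hy0 : y ≠ 0 := by
    rintro rfl
    exact hc (by rw [← hy]; ring)
  have hy0' : y' ≠ 0 := by
    rintro rfl
    exact hc (by rw [← hy']; ring)
  have hs : IsSquare (((D * D' : ℤ) : ℚ)) := by
    refine ⟨c / (y * y'), ?_⟩
    have e1 : (D : ℚ) = c / y ^ 2 := by
      rw [← hy]; field_simp
    have e2 : (D' : ℚ) = c / y' ^ 2 := by
      rw [← hy']; field_simp
    push_cast
    rw [e1, e2]
    field_simp
  rw [Rat.isSquare_intCast_iff] at hs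
  obtain ⟨k, hk⟩ := hs
  exact sqf_unique hD hD' hk

/-- Almost no quadratic twist of `y² = f(x)`, `f` squarefree of degree at least seven, has a rational point `(x, y)` with
`y ≠ 0`. -/
theorem all_V (f : ℚ[X]) (hf : Squarefree f) (h7 : 7 ≤ f.natDegree) :
    Tendsto (fun N : ℕ => (Nat.card {D : ℤ // Squarefree D ∧ |D| ≤ (N : ℤ) ∧ ∃ x y : ℚ, y ≠ 0 ∧
      (D : ℚ) * y ^ 2 = f.eval x} : ℝ) / N) atTop (nhds 0) := by
  classical
  rcases Nat.even_or_odd f.natDegree with hev | hodd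
  · refine all_even f hf hev ?_
    rcases Nat.lt_or_ge f.natDegree 8 with h | h
    · have h1 : f.natDegree = 7 := by omega
      rw [h1] at hev
      exact absurd hev (by decide)
    · exact h
  · obtain ⟨F, c, hF, hdF, hc, hmap⟩ := even_model f hf hodd
    have h1 := all_even F hF (hdF ▸ hodd.add_one) (by omega)
    have h2 : Tendsto (fun N : ℕ => (1 : ℝ) / N) atTop (nhds 0) :=
      tendsto_const_div_atTop_nhds_zero_nat _
    have h3 := h1.add h2
    rw [add_zero] at h3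
    refine squeeze_zero (fun N => by positivity) (fun N => ?_) h3
    rw [← add_div]
    refine div_le_div_of_nonneg_right ?_ (Nat.cast_nonneg N)
    have e : ∀ P : ℤ → Prop, Nat.card {D : ℤ // Squarefree D ∧ |D| ≤ (N : ℤ) ∧ P D} =
        {D : ℤ | Squarefree D ∧ |D| ≤ (N : ℤ) ∧ P D}.ncard := fun P => rfl
    have hS : {D : ℤ | Squarefree D ∧ ∃ y : ℚ, (D : ℚ) * y ^ 2 = f.eval c}.ncard ≤ 1 := by
      have := (one_sub hc).finite.to_subtype
      exact Set.ncard_le_one_iff_subsingleton.2 (one_sub hc)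
    rw [e, e, ← Nat.cast_one, ← Nat.cast_add, Nat.cast_le]
    refine (Set.ncard_le_ncard (t := {D : ℤ | Squarefree D ∧ |D| ≤ (N : ℤ) ∧ ∃ x y : ℚ, y ≠ 0 ∧
      (D : ℚ) * y ^ 2 = F.eval x} ∪ {D : ℤ | Squarefree D ∧ ∃ y : ℚ, (D : ℚ) * y ^ 2 = f.eval c}) ?_
      ((fin_fin N _).union (one_sub hc).finite)).trans ((Set.ncard_union_le _ _).trans (by omega))
    rintro D ⟨hD, hN, x, y, hy, hxy⟩
    by_cases hxc : x = c
    · right
      exact ⟨hD, y, by rw [hxy, hxc]⟩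
    · left
      obtain ⟨t, w, hw, htw⟩ := hmap D x y hxc hxy hy
      exact ⟨hD, hN, t, w, hw, htw⟩

end QV
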