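import Pool.Agent.Lib.MP_10e784_agQV.Defs
import Pool.Agent.Lib.MP_10e784_agTR.TRInc

/-! JOB LS0.  A nonsquare has a prime at which it is a nonresidue.
`TR.nonres_inc` with `g = X` (monic, irreducible) and `d = C a`: if `X ∣ C a - B ^ 2` in `ℚ[X]`, evaluate at `0`: `a = B(0) ^ 2`, so `a` is a square in `ℤ` (`Rat.isSquare_intCast_iff`).  So the set of the primes `p` with `¬ IsSquare (a : ZMod p)` has the property `Inc` with `c > 0`: take `x = B + 2` (or any `x ≥ 2` with `x` at least the given bound) and `y` with `c (log log y - log log x) - C > 0`: the difference `PS y - PS x` is positive, so there is a prime `p > x` in the set.  For `p` odd with `¬ IsSquare (a : ZMod p)`: `a ≠ 0` in `ZMod p` and `legendreSym p a = -1` (`legendreSym.eq_neg_one_iff`), `jacobiSym.legendreSym.to_jacobiSym`. -/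

set_option autoImplicit false

namespace QV

open Finset Polynomial

theorem jac_nonres (a : ℤ) (ha : ¬ IsSquare a) (B : ℕ) : ∃ p : ℕ, p.Prime ∧ B < p ∧ Odd p ∧ jacobiSym a p = -1 := by
  have hd : ¬ ∃ B : ℚ[X], TW.qq (X : ℤ[X]) ∣ (C a : ℤ[X]).map (Int.castRingHom ℚ) - B ^ 2 := by
    rintro ⟨P, hP⟩
    have h1 : TW.qq (X : ℤ[X]) = X := by rw [TW.qq, Polynomial.map_X]
    rw [h1, X_dvd_iff, coeff_zero_eq_eval_zero, Polynomial.map_C, eval_sub, eval_C, eval_pow] at hP
    have h2 : (a : ℚ) = P.eval 0 * P.eval 0 := by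
      have h3 : (Int.castRingHom ℚ) a = (a : ℚ) := rfl
      rw [h3] at hP
      linarith
    exact ha (Rat.isSquare_intCast_iff.1 ⟨_, h2⟩)
  have hirr : Irreducible ((X : ℤ[X]).map (Int.castRingHom ℚ)) := by
    rw [Polynomial.map_X]
    exact Polynomial.irreducible_X
  obtain ⟨c, K, hc, hinc⟩ := TR.nonres_inc X monic_X hirr (C a) hd
  obtain ⟨T, hT⟩ : ∃ T : Set ℕ, T = {p | p.Prime ∧ ∃ t : ZMod p, (TW.red p X).eval t = 0 ∧
    ¬ IsSquare ((TW.red p (C a)).eval t)} := ⟨_, rfl⟩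
  rw [← hT] at hinc
  obtain ⟨x, hx⟩ : ∃ x : ℝ, x = ((B + 2 : ℕ) : ℝ) := ⟨_, rfl⟩
  have hx2 : (2 : ℝ) ≤ x := by
    rw [hx]
    push_cast
    have : (0 : ℝ) ≤ B := Nat.cast_nonneg _
    linarith
  have hx1 : (1 : ℝ) < x := by linarith
  have hx0 : (0 : ℝ) < x := by linarith
  have hlx : 0 < Real.log x := Real.log_pos hx1
  obtain ⟨L, hL⟩ : ∃ L : ℝ, L = Real.log (Real.log x) + (|K| + 1) / c := ⟨_, rfl⟩
  have hLx : Real.log (Real.log x) ≤ L := by
    rw [hL]
    have : 0 ≤ (|K| + 1) / c := by positivity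
    linarith
  obtain ⟨y, hy⟩ : ∃ y : ℝ, y = Real.exp (Real.exp L) := ⟨_, rfl⟩
  have hxy : x ≤ y := by
    rw [hy]
    calc x = Real.exp (Real.log x) := (Real.exp_log hx0).symm
      _ = Real.exp (Real.exp (Real.log (Real.log x))) := by rw [Real.exp_log hlx]
      _ ≤ Real.exp (Real.exp L) := Real.exp_le_exp.2 (Real.exp_le_exp.2 hLx)
  have hly : Real.log (Real.log y) = L := by rw [hy, Real.log_exp, Real.log_exp]
  have h1 := hinc x y hx2 hxy
  rw [hly] at h1
  have h2 : 0 < PT.PS (PT.ind T) y - PT.PS (PT.ind T) x := by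
    refine lt_of_lt_of_le ?_ h1
    have h3 : c * (L - Real.log (Real.log x)) = |K| + 1 := by
      rw [hL, add_sub_cancel_left, mul_div_cancel₀ _ hc.ne']
    rw [h3]
    have := le_abs_self K
    linarith
  obtain ⟨p, hp, hpx, hpT⟩ : ∃ p : ℕ, p.Prime ∧ B + 2 < p ∧ p ∈ T := by
    by_contra hcon
    push Not at hcon
    have h3 : PT.PS (PT.ind T) x = PT.PS (PT.ind T) y := by
      unfold PT.PS
      refine Finset.sum_subset ?_ fun p hp hp' => ?_
      · exact Finset.filter_subset_filter _ (Finset.Icc_subset_Icc le_rfl (Nat.floor_le_floor hxy))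
      · rw [Finset.mem_filter, Finset.mem_Icc] at hp hp'
        have h4 : B + 2 < p := by
          by_contra h5
          apply hp'
          refine ⟨⟨hp.1.1, ?_⟩, hp.2⟩
          rw [hx, Nat.floor_natCast]
          omega
        have h5 : PT.ind T p = 0 := by
          rw [PT.ind, if_neg (hcon p hp.2 h4)]
        rw [h5, zero_div]
    linarith
  rw [hT] at hpT
  obtain ⟨-, t, -, ht⟩ := hpT
  have : Fact p.Prime := ⟨hp⟩
  have ht' : ¬ IsSquare ((a : ℤ) : ZMod p) := by
    have h3 : (TW.red p (C a)).eval t = ((a : ℤ) : ZMod p) := by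
      rw [TW.red, Polynomial.map_C, eval_C]
      rfl
    rw [h3] at ht
    exact ht
  refine ⟨p, hp, by omega, hp.odd_of_ne_two (by omega), ?_⟩
  rw [← jacobiSym.legendreSym.to_jacobiSym]
  exact (legendreSym.eq_neg_one_iff p).2 ht'

end QV
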