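import Pool.Agent.Lib.MP_10e784_agQV.LS0

/-! JOB LS1.  Incomplete sums of Jacobi symbols, trivial bound.
For odd `n` the symbol `J(a | n)` depends only on `n` modulo `4 |a|` (`jacobiSym.mod_right`: `jacobiSym a b = jacobiSym a (b % (4 * a.natAbs))` for odd `b`).  The sum over the odd residues modulo `q = 4 |a|` is zero: let `b` be the odd prime of `jac_nonres a ha |a|` (so `b` is coprime to `q`); `n ↦ n b mod q` permutes the odd residues modulo `q`, and `J(a | n b) = - J(a | n)` (`jacobiSym.mul_right`), so the sum `T` satisfies `T = -T`.  Hence the sum over `Ioc x y` is the sum over less than one period: at most `q = 4 |a|` terms (each of absolute value at most one: `jacobiSym.trichotomy` or `jacobiSym.zero_or_neg_one_or_one`).  (`a ≠ 0` since `0` is a square.) -/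

set_option autoImplicit false

namespace QV

open Finset

/-- sums of a periodic function with sum zero over a period -/
private theorem LS1_per {Q : ℕ} (hQ : 0 < Q) (f : ℕ → ℝ) (hper : ∀ n, f (n + Q) = f n) (h1 : ∀ n, |f n| ≤ 1)
    (h0 : ∑ n ∈ range Q, f n = 0) (x y : ℕ) : |∑ n ∈ Ioc x y, f n| ≤ Q := by
  rcases le_total y x with hyx | hxy
  · rw [Finset.Ioc_eq_empty (not_lt.2 hyx), Finset.sum_empty, abs_zero]
    positivity
  obtain ⟨S, hS⟩ : ∃ S : ℕ → ℝ, S = fun m => ∑ n ∈ range m, f n := ⟨_, rfl⟩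
  have hsucc : ∀ m, S (m + 1) = S m + f m := by
    intro m
    rw [hS]
    exact Finset.sum_range_succ f m
  have hSp : ∀ m, S (m + Q) = S m := by
    intro m
    induction m with
    | zero =>
      rw [zero_add, hS]
      show ∑ n ∈ range Q, f n = ∑ n ∈ range 0, f n
      rw [h0, Finset.range_zero, Finset.sum_empty]
    | succ m ih =>
      have h2 : m + 1 + Q = m + Q + 1 := by ring
      rw [h2, hsucc, hsucc, ih, hper]
  have hSm : ∀ m, S (m % Q) = S m := fun m => Function.Periodic.map_mod_nat (f := S) hSp m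
  have hle : ∀ s r, s ≤ r → |S r - S s| ≤ ((r - s : ℕ) : ℝ) := by
    intro s r hsr
    have h2 : S r - S s = ∑ n ∈ Ico s r, f n := by
      rw [hS]
      exact (Finset.sum_Ico_eq_sub f hsr).symm
    rw [h2]
    refine (Finset.abs_sum_le_sum_abs _ _).trans ((Finset.sum_le_card_nsmul _ _ 1 fun n _ => h1 n).trans ?_)
    rw [Nat.card_Ico, nsmul_eq_mul, mul_one]
  have hsum : ∑ n ∈ Ioc x y, f n = S (y + 1) - S (x + 1) := by
    have h2 : Ioc x y = Ico (x + 1) (y + 1) := by
      ext n
      rw [Finset.mem_Ioc, Finset.mem_Ico]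
      omega
    rw [h2, hS]
    exact Finset.sum_Ico_eq_sub f (by omega)
  rw [hsum, ← hSm (y + 1), ← hSm (x + 1)]
  have hr := Nat.mod_lt (y + 1) hQ
  have hs := Nat.mod_lt (x + 1) hQ
  rcases le_total ((x + 1) % Q) ((y + 1) % Q) with h | h
  · refine (hle _ _ h).trans ?_
    exact_mod_cast (by omega : (y + 1) % Q - (x + 1) % Q ≤ Q)
  · rw [abs_sub_comm]
    refine (hle _ _ h).trans ?_
    exact_mod_cast (by omega : (x + 1) % Q - (y + 1) % Q ≤ Q)

theorem jac_sum (a : ℤ) (ha : ¬ IsSquare a) (x y : ℕ) :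
    |∑ n ∈ (Ioc x y).filter Odd, (jacobiSym a n : ℝ)| ≤ 4 * |(a : ℝ)| := by
  classical
  have ha0 : a ≠ 0 := by
    rintro rfl
    exact ha ⟨0, rfl⟩
  have hna : 1 ≤ a.natAbs := Int.natAbs_pos.2 ha0
  obtain ⟨Q, hQd⟩ : ∃ Q : ℕ, Q = 4 * a.natAbs := ⟨_, rfl⟩
  have hQ : 0 < Q := by omega
  obtain ⟨f, hf⟩ : ∃ f : ℕ → ℝ, f = fun n => if Odd n then (jacobiSym a n : ℝ) else 0 := ⟨_, rfl⟩
  have hfo : ∀ n, Odd n → f n = (jacobiSym a n : ℝ) := by
    intro n hn
    rw [hf]
    exact if_pos hn
  have hfe : ∀ n, ¬ Odd n → f n = 0 := by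
    intro n hn
    rw [hf]
    exact if_neg hn
  have hpar : ∀ n, Odd (n + Q) ↔ Odd n := by
    intro n
    rw [Nat.odd_iff, Nat.odd_iff]
    omega
  have hper : ∀ n, f (n + Q) = f n := by
    intro n
    by_cases hn : Odd n
    · rw [hfo n hn, hfo _ ((hpar n).2 hn), jacobiSym.mod_right a hn, jacobiSym.mod_right a ((hpar n).2 hn), ← hQd,
        Nat.add_mod_right]
    · rw [hfe n hn, hfe _ (fun h => hn ((hpar n).1 h))]
  have hmod : ∀ n, f (n % Q) = f n := fun n => Function.Periodic.map_mod_nat (f := f) hper n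
  have h1 : ∀ n, |f n| ≤ 1 := by
    intro n
    by_cases hn : Odd n
    · rw [hfo n hn]
      rcases jacobiSym.trichotomy a n with h | h | h
      · rw [h]
        norm_num
      · rw [h]
        norm_num
      · rw [h]
        norm_num
    · rw [hfe n hn, abs_zero]
      exact zero_le_one
  -- the sum over a period
  obtain ⟨b, hbp, hb1, hbo, hbj⟩ := jac_nonres a ha a.natAbs
  have hcop : Nat.Coprime b Q := by
    rw [Nat.Prime.coprime_iff_not_dvd hbp, hQd]
    intro h
    rcases (Nat.Prime.dvd_mul hbp).1 h with h | h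
    · have h2 : b ∣ 2 := by
        have h3 : b ∣ 2 ^ 2 := by norm_num at h ⊢; exact h
        exact hbp.dvd_of_dvd_pow h3
      have h3 := (Nat.prime_dvd_prime_iff_eq hbp Nat.prime_two).1 h2
      rw [h3] at hbo
      exact absurd hbo (by decide)
    · exact absurd (Nat.le_of_dvd (by omega) h) (by omega)
  have hneg : ∀ n, f (n * b) = - f n := by
    intro n
    by_cases hn : Odd n
    · rw [hfo n hn, hfo _ (hn.mul hbo), jacobiSym.mul_right' a (by rintro rfl; exact absurd hn (by decide)) hbp.ne_zero,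
        hbj]
      push_cast
      ring
    · rw [hfe n hn, hfe _ (fun h => hn (Nat.odd_mul.1 h).1), neg_zero]
  have h0 : ∑ n ∈ range Q, f n = 0 := by
    have hinj : Set.InjOn (fun n => n * b % Q) (range Q : Set ℕ) := by
      intro n hn n' hn' h
      have h2 : n * b ≡ n' * b [MOD Q] := h
      have h3 : n ≡ n' [MOD Q] := Nat.ModEq.cancel_right_of_coprime (by rw [Nat.gcd_comm]; exact hcop) h2
      have h4 := Finset.mem_range.1 (Finset.mem_coe.1 hn)
      have h5 := Finset.mem_range.1 (Finset.mem_coe.1 hn')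
      have h6 : n % Q = n' % Q := h3
      rwa [Nat.mod_eq_of_lt h4, Nat.mod_eq_of_lt h5] at h6
    have himg : (range Q).image (fun n => n * b % Q) = range Q := by
      refine Finset.eq_of_subset_of_card_le (fun n hn => ?_) ?_
      · obtain ⟨n', -, rfl⟩ := Finset.mem_image.1 hn
        exact Finset.mem_range.2 (Nat.mod_lt _ hQ)
      · rw [Finset.card_image_of_injOn hinj]
    have h2 : ∑ n ∈ range Q, f n = ∑ n ∈ range Q, f (n * b % Q) := by
      conv_lhs => rw [← himg]
      exact Finset.sum_image hinj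
    rw [Finset.sum_congr rfl fun n _ => (hmod (n * b)).trans (hneg n), Finset.sum_neg_distrib] at h2
    linarith
  have h2 := LS1_per hQ f hper h1 h0 x y
  have h3 : ∑ n ∈ (Ioc x y).filter Odd, (jacobiSym a n : ℝ) = ∑ n ∈ Ioc x y, f n := by
    rw [Finset.sum_filter, hf]
  rw [h3]
  refine h2.trans (le_of_eq ?_)
  rw [hQd]
  push_cast
  rw [Nat.cast_natAbs, Int.cast_abs]

end QV
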