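import Pool.Agent.Lib.MP_10e784_agQV.LS1

/-! JOB LS2.  The elementary large sieve.
Let `r = card R`, `P = 2 ^ i`, `ε m = ±1` the sign of `sm m i`, `F n = ∑_{m ∈ R} ε m J(m | n)`.  Then
`r η / i ≤ ∑_m |sm m i| = ∑_p (1 / p) F p`, and by Cauchy (`Finset.inner_mul_le_norm_mul_norm` or `Finset.sum_mul_sq_le_sq_mul_sq`)
`(r η / i) ^ 2 ≤ (∑_{p ∈ (P, 2P]} 1 / p ^ 2) (∑_p F p ^ 2)`.  The first factor is at most `P * (1 / P ^ 2) = 1 / P`.  The primes in `(P, 2P]` are odd (`i ≥ 1`), so the second is at most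
`∑_{n ∈ (P, 2P] odd} F n ^ 2 = ∑_{m, m'} ε m ε m' ∑_n J(m m' | n)` (`jacobiSym.mul_left`): the diagonal terms are at most `P` each (at most `P` numbers `n`, `|J| ≤ 1`), the others at most `4 |m m'| ≤ 4 Q ^ 2` by `jac_sum`.  So `r ^ 2 η ^ 2 / i ^ 2 ≤ (1 / P) (r P + r ^ 2 4 Q ^ 2)`, i.e. `r (η ^ 2 / i ^ 2 - 4 Q ^ 2 / P) ≤ 1` (if `r > 0`), and `4 Q ^ 2 / P ≤ η ^ 2 / (2 i ^ 2)` by `hP`. -/

set_option autoImplicit false

namespace QV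

open Finset

private lemma LS2_abs (a : ℤ) (n : ℕ) : |(jacobiSym a n : ℝ)| ≤ 1 := by
  rcases jacobiSym.trichotomy a n with h | h | h <;> rw [h] <;> norm_num

private lemma LS2_pair (R : Finset ℤ) (Q i : ℕ) (hR : ∀ m ∈ R, m ≠ 0 ∧ |m| ≤ (Q : ℤ))
    (hd : ∀ m ∈ R, ∀ m' ∈ R, m ≠ m' → ¬ IsSquare (m * m')) (m m' : ℤ) (hm : m ∈ R) (hm' : m' ∈ R) :
    |∑ n ∈ (Ioc (2 ^ i) (2 ^ (i + 1))).filter Odd, (jacobiSym m n : ℝ) * (jacobiSym m' n : ℝ)| ≤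
      (if m = m' then (2 : ℝ) ^ i else 0) + 4 * (Q : ℝ) ^ 2 := by
  have hQ : (0 : ℝ) ≤ 4 * (Q : ℝ) ^ 2 := by positivity
  have hmul : ∀ n : ℕ, (jacobiSym m n : ℝ) * (jacobiSym m' n : ℝ) = (jacobiSym (m * m') n : ℝ) := by
    intro n
    rw [jacobiSym.mul_left]
    push_cast
    ring
  rw [Finset.sum_congr rfl fun n _ => hmul n]
  by_cases h : m = m'
  · rw [if_pos h]
    have h1 : |∑ n ∈ (Ioc (2 ^ i) (2 ^ (i + 1))).filter Odd, (jacobiSym (m * m') n : ℝ)| ≤ 2 ^ i := by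
      refine le_trans (Finset.abs_sum_le_sum_abs _ _) ?_
      refine le_trans (Finset.sum_le_sum fun n _ => LS2_abs (m * m') n) ?_
      rw [Finset.sum_const, nsmul_eq_mul, mul_one]
      have h2 : ((Ioc (2 ^ i) (2 ^ (i + 1))).filter Odd).card ≤ 2 ^ i := by
        refine le_trans (Finset.card_filter_le _ _) ?_
        rw [Nat.card_Ioc, pow_succ]
        omega
      calc (((Ioc (2 ^ i) (2 ^ (i + 1))).filter Odd).card : ℝ) ≤ ((2 ^ i : ℕ) : ℝ) := by exact_mod_cast h2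
        _ = 2 ^ i := by push_cast; rfl
    linarith
  · rw [if_neg h, zero_add]
    refine le_trans (jac_sum (m * m') (hd m hm m' hm' h) _ _) ?_
    have h1 := (hR m hm).2
    have h2 := (hR m' hm').2
    have h1' : |(m : ℝ)| ≤ (Q : ℝ) := by exact_mod_cast h1
    have h2' : |(m' : ℝ)| ≤ (Q : ℝ) := by exact_mod_cast h2
    push_cast
    rw [abs_mul]
    have h3 : |(m : ℝ)| * |(m' : ℝ)| ≤ (Q : ℝ) * (Q : ℝ) := mul_le_mul h1' h2' (abs_nonneg _) (by positivity)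
    nlinarith

private lemma LS2_sq (R : Finset ℤ) (Q i : ℕ) (e : ℤ → ℝ) (he : ∀ m, |e m| ≤ 1) (hR : ∀ m ∈ R, m ≠ 0 ∧ |m| ≤ (Q : ℤ))
    (hd : ∀ m ∈ R, ∀ m' ∈ R, m ≠ m' → ¬ IsSquare (m * m')) :
    ∑ n ∈ (Ioc (2 ^ i) (2 ^ (i + 1))).filter Odd, (∑ m ∈ R, e m * (jacobiSym m n : ℝ)) ^ 2 ≤
      (R.card : ℝ) * 2 ^ i + (R.card : ℝ) ^ 2 * (4 * (Q : ℝ) ^ 2) := by
  have h1 : ∑ n ∈ (Ioc (2 ^ i) (2 ^ (i + 1))).filter Odd, (∑ m ∈ R, e m * (jacobiSym m n : ℝ)) ^ 2 =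
      ∑ m ∈ R, ∑ m' ∈ R, (e m * e m') * ∑ n ∈ (Ioc (2 ^ i) (2 ^ (i + 1))).filter Odd, (jacobiSym m n : ℝ) * (jacobiSym m' n : ℝ) := by
    have h2 : ∀ n : ℕ, (∑ m ∈ R, e m * (jacobiSym m n : ℝ)) ^ 2 =
        ∑ m ∈ R, ∑ m' ∈ R, (e m * e m') * ((jacobiSym m n : ℝ) * (jacobiSym m' n : ℝ)) := by
      intro n
      rw [pow_two, Finset.sum_mul_sum]
      refine Finset.sum_congr rfl fun m _ => Finset.sum_congr rfl fun m' _ => ?_
      ring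
    rw [Finset.sum_congr rfl fun n _ => h2 n, Finset.sum_comm]
    refine Finset.sum_congr rfl fun m _ => ?_
    rw [Finset.sum_comm]
    refine Finset.sum_congr rfl fun m' _ => ?_
    rw [Finset.mul_sum]
  rw [h1]
  have h3 : ∀ m ∈ R, ∀ m' ∈ R, (e m * e m') * ∑ n ∈ (Ioc (2 ^ i) (2 ^ (i + 1))).filter Odd, (jacobiSym m n : ℝ) * (jacobiSym m' n : ℝ) ≤
      (if m = m' then (2 : ℝ) ^ i else 0) + 4 * (Q : ℝ) ^ 2 := by
    intro m hm m' hm'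
    refine le_trans (le_abs_self _) ?_
    rw [abs_mul, abs_mul]
    have h4 := LS2_pair R Q i hR hd m m' hm hm'
    have h5 : |e m| * |e m'| ≤ 1 := mul_le_one₀ (he m) (abs_nonneg _) (he m')
    have h6 := abs_nonneg (∑ n ∈ (Ioc (2 ^ i) (2 ^ (i + 1))).filter Odd, (jacobiSym m n : ℝ) * (jacobiSym m' n : ℝ))
    calc |e m| * |e m'| * |∑ n ∈ (Ioc (2 ^ i) (2 ^ (i + 1))).filter Odd, (jacobiSym m n : ℝ) * (jacobiSym m' n : ℝ)|
        ≤ 1 * |∑ n ∈ (Ioc (2 ^ i) (2 ^ (i + 1))).filter Odd, (jacobiSym m n : ℝ) * (jacobiSym m' n : ℝ)| :=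
          mul_le_mul_of_nonneg_right h5 h6
      _ ≤ _ := by rw [one_mul]; exact h4
  refine le_trans (Finset.sum_le_sum fun m hm => Finset.sum_le_sum fun m' hm' => h3 m hm m' hm') ?_
  have h7 : ∀ m ∈ R, ∑ m' ∈ R, ((if m = m' then (2 : ℝ) ^ i else 0) + 4 * (Q : ℝ) ^ 2) = 2 ^ i + (R.card : ℝ) * (4 * (Q : ℝ) ^ 2) := by
    intro m hm
    rw [Finset.sum_add_distrib, Finset.sum_ite_eq, if_pos hm, Finset.sum_const, nsmul_eq_mul]
  rw [Finset.sum_congr rfl h7, Finset.sum_const, nsmul_eq_mul]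
  nlinarith

theorem ls (R : Finset ℤ) (Q i : ℕ) (η : ℝ) (hη : 0 < η) (hR : ∀ m ∈ R, m ≠ 0 ∧ |m| ≤ (Q : ℤ))
    (hd : ∀ m ∈ R, ∀ m' ∈ R, m ≠ m' → ¬ IsSquare (m * m')) (hi : 1 ≤ i)
    (hP : 8 * (Q : ℝ) ^ 2 * (i : ℝ) ^ 2 ≤ η ^ 2 * 2 ^ i) (hbig : ∀ m ∈ R, η / i ≤ |sm m i|) :
    (R.card : ℝ) ≤ 2 * (i : ℝ) ^ 2 / η ^ 2 := by
  classical
  set P : ℝ := 2 ^ i with hPdef
  have hP0 : 0 < P := by rw [hPdef]; positivity
  have hi0 : (0 : ℝ) < (i : ℝ) := by exact_mod_cast hi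
  set r : ℝ := (R.card : ℝ) with hr
  have hr0 : 0 ≤ r := by rw [hr]; positivity
  rcases hr0.eq_or_lt with h0 | hrpos
  · rw [← h0]
    positivity
  set S := (Ioc (2 ^ i) (2 ^ (i + 1))).filter Nat.Prime with hS
  set e : ℤ → ℝ := fun m => if 0 ≤ sm m i then 1 else -1 with he
  have he1 : ∀ m, |e m| ≤ 1 := by
    intro m
    rw [he]
    dsimp only
    split_ifs <;> norm_num
  have hem : ∀ m, e m * sm m i = |sm m i| := by
    intro m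
    rw [he]
    dsimp only
    split_ifs with h
    · rw [one_mul, abs_of_nonneg h]
    · rw [neg_one_mul, abs_of_neg (not_le.1 h)]
  have hA1 : r * (η / i) ≤ ∑ m ∈ R, |sm m i| := by
    have h := Finset.sum_le_sum hbig
    rw [Finset.sum_const, nsmul_eq_mul] at h
    exact h
  have hA2 : ∑ m ∈ R, |sm m i| = ∑ p ∈ S, (1 / (p : ℝ)) * ∑ m ∈ R, e m * (jacobiSym m p : ℝ) := by
    calc ∑ m ∈ R, |sm m i| = ∑ m ∈ R, ∑ p ∈ S, e m * ((jacobiSym m p : ℝ) / p) := by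
          refine Finset.sum_congr rfl fun m _ => ?_
          rw [← hem m, sm, Finset.mul_sum]
      _ = ∑ p ∈ S, ∑ m ∈ R, e m * ((jacobiSym m p : ℝ) / p) := Finset.sum_comm
      _ = _ := by
          refine Finset.sum_congr rfl fun p _ => ?_
          rw [Finset.mul_sum]
          refine Finset.sum_congr rfl fun m _ => ?_
          ring
  have hC := Finset.sum_mul_sq_le_sq_mul_sq S (fun p : ℕ => 1 / (p : ℝ)) (fun p : ℕ => ∑ m ∈ R, e m * (jacobiSym m p : ℝ))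
  have hF1 : ∑ p ∈ S, (1 / (p : ℝ)) ^ 2 ≤ 1 / P := by
    have h1 : ∀ p ∈ S, (1 / (p : ℝ)) ^ 2 ≤ 1 / P ^ 2 := by
      intro p hp
      rw [hS, Finset.mem_filter, Finset.mem_Ioc] at hp
      have h2 : P ≤ (p : ℝ) := by
        have h3 : ((2 ^ i : ℕ) : ℝ) ≤ (p : ℝ) := by exact_mod_cast hp.1.1.le
        rw [hPdef]
        push_cast at h3
        exact h3
      rw [div_pow, one_pow]
      exact one_div_le_one_div_of_le (by positivity) (pow_le_pow_left₀ hP0.le h2 2)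
    refine le_trans (Finset.sum_le_sum h1) ?_
    rw [Finset.sum_const, nsmul_eq_mul]
    have h4 : (S.card : ℝ) ≤ P := by
      have h5 : S.card ≤ 2 ^ i := by
        rw [hS]
        refine le_trans (Finset.card_filter_le _ _) ?_
        rw [Nat.card_Ioc, pow_succ]
        omega
      calc (S.card : ℝ) ≤ ((2 ^ i : ℕ) : ℝ) := by exact_mod_cast h5
        _ = P := by rw [hPdef]; push_cast; rfl
    calc (S.card : ℝ) * (1 / P ^ 2) ≤ P * (1 / P ^ 2) := mul_le_mul_of_nonneg_right h4 (by positivity)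
      _ = 1 / P := by field_simp
  have hF2 : ∑ p ∈ S, (∑ m ∈ R, e m * (jacobiSym m p : ℝ)) ^ 2 ≤ r * P + r ^ 2 * (4 * (Q : ℝ) ^ 2) := by
    refine le_trans ?_ (LS2_sq R Q i e he1 hR hd)
    refine Finset.sum_le_sum_of_subset_of_nonneg ?_ fun n _ _ => sq_nonneg _
    intro p hp
    rw [hS, Finset.mem_filter, Finset.mem_Ioc] at hp
    rw [Finset.mem_filter, Finset.mem_Ioc]
    refine ⟨hp.1, hp.2.odd_of_ne_two ?_⟩
    have h1 : 2 ^ 1 ≤ 2 ^ i := Nat.pow_le_pow_right (by norm_num) hi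
    have h2 := hp.1.1
    omega
  have hF1' : 0 ≤ ∑ p ∈ S, (1 / (p : ℝ)) ^ 2 := Finset.sum_nonneg fun _ _ => sq_nonneg _
  have hF2' : 0 ≤ r * P + r ^ 2 * (4 * (Q : ℝ) ^ 2) := by positivity
  have hmain : (r * (η / i)) ^ 2 ≤ (1 / P) * (r * P + r ^ 2 * (4 * (Q : ℝ) ^ 2)) := by
    have h1 : 0 ≤ r * (η / i) := by positivity
    calc (r * (η / i)) ^ 2 ≤ (∑ m ∈ R, |sm m i|) ^ 2 := pow_le_pow_left₀ h1 hA1 2
      _ = (∑ p ∈ S, (1 / (p : ℝ)) * ∑ m ∈ R, e m * (jacobiSym m p : ℝ)) ^ 2 := by rw [hA2]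
      _ ≤ _ := hC
      _ ≤ (1 / P) * (r * P + r ^ 2 * (4 * (Q : ℝ) ^ 2)) :=
          mul_le_mul hF1 hF2 (Finset.sum_nonneg fun _ _ => sq_nonneg _) (by positivity)
  have hPe : 8 * (Q : ℝ) ^ 2 * (i : ℝ) ^ 2 ≤ η ^ 2 * P := hP
  have h2 : r ^ 2 * η ^ 2 * P ≤ (i : ℝ) ^ 2 * (r * P + r ^ 2 * (4 * (Q : ℝ) ^ 2)) := by
    have h3 : (r * (η / i)) ^ 2 = r ^ 2 * η ^ 2 / (i : ℝ) ^ 2 := by field_simp
    rw [h3, div_le_iff₀ (by positivity)] at hmain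
    have h4 : (1 / P) * (r * P + r ^ 2 * (4 * (Q : ℝ) ^ 2)) * (i : ℝ) ^ 2 * P = (i : ℝ) ^ 2 * (r * P + r ^ 2 * (4 * (Q : ℝ) ^ 2)) := by
      field_simp
    calc r ^ 2 * η ^ 2 * P ≤ ((1 / P) * (r * P + r ^ 2 * (4 * (Q : ℝ) ^ 2)) * (i : ℝ) ^ 2) * P := mul_le_mul_of_nonneg_right hmain hP0.le
      _ = _ := h4
  rw [le_div_iff₀ (by positivity)]
  have h5 : (r * η ^ 2) * (r * P) ≤ (2 * (i : ℝ) ^ 2) * (r * P) := by
    nlinarith [mul_le_mul_of_nonneg_left hPe (sq_nonneg r)]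
  exact le_of_mul_le_mul_right h5 (by positivity)

end QV
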