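import Pool.Agent.Lib.MP_10e784_agQV.DefsM

/-! JOB M0.  The multi-range sieve before the evaluation of the main term.
COPY of the proof of `TW.multi` (file MP_10e784_ag/TW/TWMulti.lean, same notation) with three changes: the index type of the ranges is an arbitrary finite type `τ` with a level function `ℓ` in place of `k + 1`; the main term `∑_t cc t W t = ∏_k ∑_T cT T ∏_{p ∈ T} ω p` is kept (no `main_term` at the end); in the error term only the `t` with `pr (t k) ≤ D k * z k` for all `k` are kept: `∏_k cU (D k) (z k) (t k)` is `1` for these and `0` for the others (for the others `cc t = 0`). -/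

set_option autoImplicit false

namespace QV

open Finset TW

open Classical in
/-- the indicator of the event that `x mod p` lies in `Ω p` for all `p ∈ T` -/
private noncomputable def M0_I {κ : Type} (Ω : (p : ℕ) → Set (κ → ZMod p)) (T : Finset ℕ) (x : κ → ℤ) : ℝ :=
  if ∀ p ∈ T, (fun c => ((x c : ℤ) : ZMod p)) ∈ Ω p then 1 else 0

private theorem M0_cT_abs (D z : ℝ) (T : Finset ℕ) : |cT D z T| ≤ 1 := by
  unfold cT
  split_ifs
  · rw [abs_pow, abs_neg, abs_one, one_pow]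
  · simp
  · simp

private theorem M0_cT_zero {D z : ℝ} (hD : 1 ≤ D) (hz : 1 ≤ z) {T : Finset ℕ} (h : ¬ pr T ≤ D * z) :
    cT D z T = 0 := by
  unfold cT
  have h1 : ¬ pr T ≤ D := fun h2 => h (h2.trans (le_mul_of_one_le_right (by linarith) hz))
  rw [if_neg h1, if_neg h]

private theorem M0_card {κ : Type} [Fintype κ] [DecidableEq κ] (a : κ → ℤ) (H : κ → ℕ) (Q : (κ → ℤ) → Prop)
    [DecidablePred Q] :
    (Nat.card {x : κ → ℤ // (∀ c, a c ≤ x c ∧ x c < a c + H c) ∧ Q x} : ℝ) =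
      ∑ x ∈ Fintype.piFinset (fun c => Finset.Ico (a c) (a c + H c)), if Q x then (1 : ℝ) else 0 := by
  rw [Finset.sum_boole, Nat.cast_inj, Nat.subtype_card]
  intro x
  rw [Finset.mem_filter, Fintype.mem_piFinset]
  simp only [Finset.mem_Ico]

open Classical in
private theorem M0_sub {κ : Type} (Ω : (p : ℕ) → Set (κ → ZMod p)) (P : Finset ℕ) (f : Finset ℕ → ℝ)
    (x : κ → ℤ) :
    ∑ T ∈ (P.filter fun p => (fun c => ((x c : ℤ) : ZMod p)) ∈ Ω p).powerset, f T =
      ∑ T ∈ P.powerset, f T * M0_I Ω T x := by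
  have h1 : (P.filter fun p => (fun c => ((x c : ℤ) : ZMod p)) ∈ Ω p).powerset =
      P.powerset.filter fun T => ∀ p ∈ T, (fun c => ((x c : ℤ) : ZMod p)) ∈ Ω p := by
    ext T
    simp only [Finset.mem_powerset, Finset.mem_filter, Finset.subset_iff]
    constructor
    · intro h
      exact ⟨fun p hp => (h hp).1, fun p hp => (h hp).2⟩
    · rintro ⟨h2, h3⟩ p hp
      exact ⟨h2 hp, h3 p hp⟩
  rw [h1, Finset.sum_filter]
  refine Finset.sum_congr rfl fun T _ => ?_
  unfold M0_I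
  split_ifs <;> simp

private theorem M0_prodI {κ τ : Type} [Fintype τ] [DecidableEq τ] (Ω : (p : ℕ) → Set (κ → ZMod p)) (t : τ → Finset ℕ)
    (x : κ → ℤ) :
    ∏ k, M0_I Ω (t k) x = M0_I Ω (univ.biUnion t) x := by
  classical
  unfold M0_I
  by_cases h : ∀ p ∈ univ.biUnion t, (fun c => ((x c : ℤ) : ZMod p)) ∈ Ω p
  · rw [if_pos h]
    refine Finset.prod_eq_one fun k _ => ?_
    rw [if_pos]
    exact fun p hp => h p (Finset.mem_biUnion.mpr ⟨k, Finset.mem_univ _, hp⟩)
  · rw [if_neg h]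
    push Not at h
    obtain ⟨p, hp, hp2⟩ := h
    obtain ⟨k, _, hk⟩ := Finset.mem_biUnion.mp hp
    refine Finset.prod_eq_zero (Finset.mem_univ k) ?_
    rw [if_neg]
    exact fun h3 => hp2 (h3 p hk)

theorem multi0 {κ τ : Type} [Fintype κ] [DecidableEq κ] [Fintype τ] [DecidableEq τ] (P : τ → Finset ℕ)
    (hP : ∀ k, ∀ p ∈ P k, p.Prime) (hdis : ∀ k k', k ≠ k' → Disjoint (P k) (P k')) (ℓ : τ → ℕ) (hℓ : ∀ k, 1 ≤ ℓ k)
    (lev : κ → ℕ) (Ω : (p : ℕ) → Set (κ → ZMod p)) (ω : ℕ → ℝ)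
    (hω : ∀ k, ∀ p ∈ P k, 0 ≤ ω p ∧ ω p ≤ 1)
    (hΩ : ∀ k : τ, ∀ p ∈ P k, ∀ y : κ → ZMod p,
      (Nat.card {w : κ → ZMod p // w ∈ Ω p ∧ ∀ c, lev c < ℓ k → w c = y c} : ℝ) =
        ω p * (p : ℝ) ^ (univ.filter fun c => ℓ k ≤ lev c).card)
    (a : κ → ℤ) (H : κ → ℕ) (D z : τ → ℝ) (hD : ∀ k, 1 ≤ D k) (hz1 : ∀ k, 1 ≤ z k) (hz : ∀ k, ∀ p ∈ P k, (p : ℝ) ≤ z k)
    (η : ℝ) (hη : 0 ≤ η)
    (hH : ∀ c, lev c = 0 ∨ (∏ k ∈ univ.filter (fun k : τ => ℓ k ≤ lev c), (D k * z k)) ≤ η * H c) :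
    (Nat.card {x : κ → ℤ // (∀ c, a c ≤ x c ∧ x c < a c + H c) ∧
        ∀ k, ∀ p ∈ P k, (fun c => ((x c : ℤ) : ZMod p)) ∉ Ω p} : ℝ) ≤
      (∏ c, (H c : ℝ)) * ((∏ k, ∑ T ∈ (P k).powerset, cT (D k) (z k) T * ∏ p ∈ T, ω p) +
        ((1 + η) ^ Fintype.card κ - 1) * ∏ k, ∑ T ∈ (P k).powerset, cU (D k) (z k) T * ∏ p ∈ T, ω p) := by
  classical
  set box : Finset (κ → ℤ) := Fintype.piFinset (fun c => Finset.Ico (a c) (a c + H c)) with hbox
  set V : ℝ := ∏ c, (H c : ℝ) with hV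
  have hV0 : 0 ≤ V := Finset.prod_nonneg fun c _ => Nat.cast_nonneg _
  set E : ℝ := (1 + η) ^ Fintype.card κ - 1 with hE
  have hE0 : 0 ≤ E := by
    have : (1 : ℝ) ≤ (1 + η) ^ Fintype.card κ := one_le_pow₀ (by linarith)
    linarith
  -- the coefficients and the weights
  set cc : (τ → Finset ℕ) → ℝ := fun t => ∏ k, cT (D k) (z k) (t k) with hcc
  set uu : (τ → Finset ℕ) → ℝ := fun t => ∏ k, cU (D k) (z k) (t k) with huu
  set W : (τ → Finset ℕ) → ℝ := fun t => ∏ k, ∏ p ∈ t k, ω p with hW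
  set TT : Finset (τ → Finset ℕ) := Fintype.piFinset (fun k => (P k).powerset) with hTT
  have htP : ∀ t ∈ TT, ∀ k, t k ⊆ P k := fun t ht k =>
    Finset.mem_powerset.mp (Fintype.mem_piFinset.mp ht k)
  have hW0 : ∀ t ∈ TT, 0 ≤ W t := fun t ht => Finset.prod_nonneg fun k _ =>
    Finset.prod_nonneg fun p hp => (hω k p (htP t ht k hp)).1
  have hcc1 : ∀ t, |cc t| ≤ 1 := fun t => by
    rw [hcc]
    simp only
    rw [Finset.abs_prod]
    exact Finset.prod_le_one (fun k _ => abs_nonneg _) fun k _ => M0_cT_abs _ _ _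
  -- the level function
  set kk : ℕ → ℕ := fun p => if h : ∃ k, p ∈ P k then ℓ (Classical.choose h : τ) else 0 with hkk
  have hkkP : ∀ k : τ, ∀ p ∈ P k, kk p = ℓ k := by
    intro k p hp
    have h : ∃ k, p ∈ P k := ⟨k, hp⟩
    rw [hkk]
    simp only
    rw [dif_pos h]
    have h2 := Classical.choose_spec h
    by_contra hne
    have h3 : Classical.choose h ≠ k := fun h4 => hne (by rw [h4])
    exact Finset.disjoint_left.mp (hdis _ _ h3) h2 hp
  -- the counting function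
  set NN : (τ → Finset ℕ) → ℝ := fun t => ∑ x ∈ box, M0_I Ω (univ.biUnion t) x with hNN
  have hWS : ∀ t ∈ TT, ∏ p ∈ univ.biUnion t, ω p = W t := by
    intro t ht
    rw [Finset.prod_biUnion]
    intro k _ k' _ hkk'
    exact Finset.disjoint_of_subset_left (htP t ht k)
      (Finset.disjoint_of_subset_right (htP t ht k') (hdis k k' hkk'))
  have hN : ∀ t ∈ TT, (∀ k, pr (t k) ≤ D k * z k) → |NN t - V * W t| ≤ E * (V * W t) := by
    intro t ht hle
    have hmem : ∀ p ∈ univ.biUnion t, ∃ k, p ∈ t k ∧ p ∈ P k := by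
      intro p hp
      obtain ⟨k, _, hk⟩ := Finset.mem_biUnion.mp hp
      exact ⟨k, hk, htP t ht k hk⟩
    have h1 := equiK (univ.biUnion t)
      (fun p hp => by obtain ⟨k, _, hk⟩ := hmem p hp; exact hP k p hk) kk lev Ω ω
      (fun p hp y => by
        obtain ⟨k, _, hk⟩ := hmem p hp
        rw [hkkP k p hk]
        exact hΩ k p hk y) a H η hη
      (fun c => by
        rcases hH c with h0 | h0
        · left
          intro p hp
          obtain ⟨k, _, hk⟩ := hmem p hp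
          rw [hkkP k p hk, h0]
          exact hℓ k
        · right
          refine le_trans ?_ h0
          have h2 : (univ.biUnion t).filter (fun p => kk p ≤ lev c) =
              (univ.filter (fun k : τ => ℓ k ≤ lev c)).biUnion t := by
            ext p
            simp only [Finset.mem_filter, Finset.mem_biUnion, Finset.mem_univ, true_and]
            constructor
            · rintro ⟨⟨k, hk⟩, hle2⟩
              exact ⟨k, (hkkP k p (htP t ht k hk)) ▸ hle2, hk⟩
            · rintro ⟨k, hk1, hk⟩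
              exact ⟨⟨k, hk⟩, (hkkP k p (htP t ht k hk)).symm ▸ hk1⟩
          rw [h2, Finset.prod_biUnion]
          · refine Finset.prod_le_prod (fun k _ => Finset.prod_nonneg fun p _ => Nat.cast_nonneg _)
              fun k _ => ?_
            exact hle k
          · intro k _ k' _ hkk'
            exact Finset.disjoint_of_subset_left (htP t ht k)
              (Finset.disjoint_of_subset_right (htP t ht k') (hdis k k' hkk')))
    rw [M0_card a H (fun x => ∀ p ∈ univ.biUnion t, (fun c => ((x c : ℤ) : ZMod p)) ∈ Ω p),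
      hWS t ht] at h1
    have h2 : NN t = ∑ x ∈ box,
        if ∀ p ∈ univ.biUnion t, (fun c => ((x c : ℤ) : ZMod p)) ∈ Ω p then (1 : ℝ) else 0 := by
      rw [hNN]
      refine Finset.sum_congr rfl fun x _ => ?_
      unfold M0_I
      split_ifs <;> rfl
    rw [h2]
    exact h1
  -- the bound for a single coefficient
  have hterm : ∀ t ∈ TT, cc t * NN t ≤ V * (cc t * W t) + E * (V * (uu t * W t)) := by
    intro t ht
    have hVW : 0 ≤ V * W t := mul_nonneg hV0 (hW0 t ht)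
    by_cases hle : ∀ k, pr (t k) ≤ D k * z k
    · have h1 := hN t ht hle
      have hu : uu t = 1 := Finset.prod_eq_one fun k _ => if_pos (hle k)
      have h2 : cc t * NN t - V * (cc t * W t) = cc t * (NN t - V * W t) := by ring
      have h3 : cc t * (NN t - V * W t) ≤ |cc t| * |NN t - V * W t| := by
        rw [← abs_mul]; exact le_abs_self _
      have h4 : |cc t| * |NN t - V * W t| ≤ 1 * (E * (V * W t)) :=
        mul_le_mul (hcc1 t) h1 (abs_nonneg _) zero_le_one
      rw [hu, one_mul]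
      linarith
    · push Not at hle
      obtain ⟨k, hk⟩ := hle
      have h0 : cc t = 0 :=
        Finset.prod_eq_zero (Finset.mem_univ k) (M0_cT_zero (hD k) (hz1 k) (not_le.mpr hk))
      have hu : uu t = 0 :=
        Finset.prod_eq_zero (Finset.mem_univ k) (if_neg (not_le.mpr hk))
      rw [h0, hu]
      simp
  -- expansion
  have hcard : (Nat.card {x : κ → ℤ // (∀ c, a c ≤ x c ∧ x c < a c + H c) ∧
        ∀ k, ∀ p ∈ P k, (fun c => ((x c : ℤ) : ZMod p)) ∉ Ω p} : ℝ) =
      ∑ x ∈ box, if ∀ k, ∀ p ∈ P k, (fun c => ((x c : ℤ) : ZMod p)) ∉ Ω p then (1 : ℝ) else 0 :=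
    M0_card a H (fun x => ∀ k, ∀ p ∈ P k, (fun c => ((x c : ℤ) : ZMod p)) ∉ Ω p)
  have hx : ∀ x : κ → ℤ, (if ∀ k, ∀ p ∈ P k, (fun c => ((x c : ℤ) : ZMod p)) ∉ Ω p then (1 : ℝ) else 0) ≤
      ∑ t ∈ TT, cc t * M0_I Ω (univ.biUnion t) x := by
    intro x
    set B : τ → Finset ℕ := fun k => (P k).filter fun p => (fun c => ((x c : ℤ) : ZMod p)) ∈ Ω p with hB
    have h1 : (if ∀ k, ∀ p ∈ P k, (fun c => ((x c : ℤ) : ZMod p)) ∉ Ω p then (1 : ℝ) else 0) =
        ∏ k, if B k = ∅ then (1 : ℝ) else 0 := by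
      by_cases h : ∀ k, ∀ p ∈ P k, (fun c => ((x c : ℤ) : ZMod p)) ∉ Ω p
      · rw [if_pos h]
        symm
        refine Finset.prod_eq_one fun k _ => ?_
        rw [if_pos]
        exact Finset.filter_eq_empty_iff.mpr fun p hp => h k p hp
      · rw [if_neg h]
        push Not at h
        obtain ⟨k, p, hp, hp2⟩ := h
        symm
        refine Finset.prod_eq_zero (Finset.mem_univ k) ?_
        rw [if_neg]
        exact Finset.ne_empty_of_mem (Finset.mem_filter.mpr ⟨hp, hp2⟩)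
    have h2 : (∏ k, if B k = ∅ then (1 : ℝ) else 0) ≤ ∏ k, ∑ T ∈ (B k).powerset, cT (D k) (z k) T := by
      refine Finset.prod_le_prod (fun k _ => by split_ifs <;> norm_num) fun k _ => ?_
      refine trunc (D k) (z k) (hD k) (B k) fun p hp => ?_
      have hp2 := (Finset.mem_filter.mp hp).1
      exact ⟨(hP k p hp2).one_lt.le, hz k p hp2⟩
    have h3 : (∏ k, ∑ T ∈ (B k).powerset, cT (D k) (z k) T) =
        ∑ t ∈ TT, cc t * M0_I Ω (univ.biUnion t) x := by
      have h4 : ∀ k, ∑ T ∈ (B k).powerset, cT (D k) (z k) T =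
          ∑ T ∈ (P k).powerset, cT (D k) (z k) T * M0_I Ω T x := fun k =>
        M0_sub Ω (P k) (fun T => cT (D k) (z k) T) x
      rw [Finset.prod_congr rfl fun k _ => h4 k, Finset.prod_univ_sum]
      refine Finset.sum_congr rfl fun t _ => ?_
      rw [Finset.prod_mul_distrib, M0_prodI]
    rw [h1]
    exact h2.trans (le_of_eq h3)
  have hmain : (∑ x ∈ box, if ∀ k, ∀ p ∈ P k, (fun c => ((x c : ℤ) : ZMod p)) ∉ Ω p then (1 : ℝ) else 0) ≤
      ∑ t ∈ TT, cc t * NN t := by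
    refine (Finset.sum_le_sum fun x _ => hx x).trans (le_of_eq ?_)
    rw [Finset.sum_comm]
    refine Finset.sum_congr rfl fun t _ => ?_
    rw [← Finset.mul_sum]
  rw [hcard]
  refine hmain.trans ((Finset.sum_le_sum hterm).trans ?_)
  rw [Finset.sum_add_distrib, ← Finset.mul_sum, ← Finset.mul_sum, ← Finset.mul_sum]
  have hA : ∑ t ∈ TT, cc t * W t = ∏ k, ∑ T ∈ (P k).powerset, cT (D k) (z k) T * ∏ p ∈ T, ω p := by
    rw [Finset.prod_univ_sum]
    refine Finset.sum_congr rfl fun t _ => ?_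
    rw [Finset.prod_mul_distrib]
  have hBB : ∑ t ∈ TT, uu t * W t = ∏ k, ∑ T ∈ (P k).powerset, cU (D k) (z k) T * ∏ p ∈ T, ω p := by
    rw [Finset.prod_univ_sum]
    refine Finset.sum_congr rfl fun t _ => ?_
    rw [Finset.prod_mul_distrib]
  rw [hA, hBB]
  refine le_of_eq ?_
  ring

end QV
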