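import Pool.Agent.Lib.MP_10e784_agQV.DefsM

/-! JOB M1.  Nonnegativity.
`∏_{p ∈ T} φ p = ∑_{T ⊆ B ⊆ P} (∏_{p ∈ B} φ p) (∏_{p ∈ P \ B} (1 - φ p))` (`Finset.prod_add` for `P \ T`: `1 = φ + (1 - φ)`; or induction on `P`), so the sum is
`∑_{B ⊆ P} (∏_{p ∈ B} φ p) (∏_{p ∈ P \ B} (1 - φ p)) (∑_{T ⊆ B} cT D z T)`, and the inner sum is at least the indicator of `B = ∅` by `TW.trunc`, so it is `≥ 0`. -/

set_option autoImplicit false

namespace QV

open Finset TW

private theorem M1_aux (φ : ℕ → ℝ) (P : Finset ℕ) : ∀ (c : Finset ℕ → ℝ), (∀ p ∈ P, 0 ≤ φ p ∧ φ p ≤ 1) →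
    (∀ B ∈ P.powerset, 0 ≤ ∑ T ∈ B.powerset, c T) → 0 ≤ ∑ T ∈ P.powerset, c T * ∏ p ∈ T, φ p := by
  induction P using Finset.induction_on with
  | empty =>
    intro c _ hc
    have h := hc ∅ (Finset.mem_powerset.2 (Finset.Subset.refl _))
    simpa using h
  | insert a P ha ih =>
    intro c hφ hc
    have ha0 := (hφ a (Finset.mem_insert_self a P)).1
    have ha1 := (hφ a (Finset.mem_insert_self a P)).2
    have h := ih (fun T => c T + φ a * c (insert a T)) (fun p hp => hφ p (Finset.mem_insert_of_mem hp)) (fun B hB => by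
      have hBP : B ⊆ P := Finset.mem_powerset.1 hB
      have haB : a ∉ B := fun h => ha (hBP h)
      have h1 := hc B (Finset.mem_powerset.2 (hBP.trans (Finset.subset_insert a P)))
      have h2 := hc (insert a B) (Finset.mem_powerset.2 (Finset.insert_subset_insert a hBP))
      rw [Finset.sum_powerset_insert haB] at h2
      rw [Finset.sum_add_distrib, ← Finset.mul_sum]
      nlinarith [mul_nonneg (sub_nonneg.2 ha1) h1, mul_nonneg ha0 h2])
    rw [Finset.sum_powerset_insert ha, ← Finset.sum_add_distrib]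
    refine h.trans (le_of_eq (Finset.sum_congr rfl fun T hT => ?_))
    have haT : a ∉ T := fun h => ha (Finset.mem_powerset.1 hT h)
    rw [Finset.prod_insert haT]
    ring

theorem cT_nonneg (D z : ℝ) (hD : 1 ≤ D) (P : Finset ℕ) (hP : ∀ p ∈ P, 1 ≤ p ∧ (p : ℝ) ≤ z) (φ : ℕ → ℝ)
    (hφ : ∀ p ∈ P, 0 ≤ φ p ∧ φ p ≤ 1) : 0 ≤ ∑ T ∈ P.powerset, cT D z T * ∏ p ∈ T, φ p := by
  refine M1_aux φ P (cT D z) hφ fun B hB => ?_
  have h := trunc D z hD B fun p hp => hP p (Finset.mem_powerset.1 hB hp)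
  refine le_trans ?_ h
  split_ifs <;> norm_num

end QV
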