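import Pool.Agent.Lib.MP_10e784_agQV.DefsM

/-! JOB M2.  The average of the product of the proportions.
Let `E = (1 + η) ^ n - 1`, `n = card κ`, `u` = the number of `c` with `U c`, `q = ∏_{p ∈ S} p`, `V = ∏_{c ∉ U} H c`, `W = ∏_{p ∈ S} ω p`.  For an integer `R ≥ 1` with `1 / R ≤ η` (if `η = 0` see below) consider the boxes with `a' c = 0`, `H' c = R q` for `U c` and `a' = a`, `H' = H` otherwise.
(1) Exact count: for fixed `y`, the number of the `x` with `x c = y c` off `U`, `0 ≤ x c < R q` on `U` and `x mod p ∈ Ω p` for all `p ∈ S` is `(R q) ^ u ∏_{p ∈ S} ph U Ω y p` (Chinese remainder theorem; every residue vector modulo `q` on `U` occurs `R ^ u` times; see TW/TWCrt.lean, TW/TWEqui.lean for the tools) -- or without an exact count: `TW.equiK` for the box with `H'' c = 1` off `U`, `lev'' = 1` on `U`, `0` off `U`, the sets `{w | (fun c => if U c then w c else y c) ∈ Ω p}` and `η'' = 1 / R` gives it up to a factor `1 ± ((1 + 1 / R) ^ n - 1)`, and one lets `R → ∞` at the end.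
(2) Sum over `y ∈ bx0 U a H` (the value of `x` on `U` does not enter `ph`): the total number of the `x` in the box `a', H'` with `x mod p ∈ Ω p` is, by `TW.equiK` (for `U c`: `q ≤ η R q`; all `p` have `k p ≤ lev c` by `hU`), `V (R q) ^ u W` up to `E V (R q) ^ u W`.  Divide by `(R q) ^ u`.  If `η = 0`: the condition `hH` (the product is at least one, `H c ≥ 0`) forces the first alternative for all `c` off `U`; apply the result for `η' > 0` (the condition `hH` does not get stronger) and let `η' → 0`. -/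

set_option autoImplicit false

namespace QV

open Finset TW

private theorem M2_slice {κ : Type} [Fintype κ] [DecidableEq κ] (U : κ → Prop) [DecidablePred U] (S : Finset ℕ)
    (hS : ∀ p ∈ S, p.Prime) (Ω : (p : ℕ) → Set (κ → ZMod p)) (y : κ → ℤ) (R q : ℕ) (hR : 0 < R)
    (hq : q = ∏ p ∈ S, p) :
    |(Nat.card {x : κ → ℤ // (∀ c, (if U c then 0 else y c) ≤ x c ∧
          x c < (if U c then 0 else y c) + ((if U c then R * q else 1 : ℕ) : ℤ)) ∧
        ∀ p ∈ S, (fun c => ((x c : ℤ) : ZMod p)) ∈ Ω p} : ℝ) -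
        ((R * q : ℕ) : ℝ) ^ (univ.filter U).card * ∏ p ∈ S, ph U Ω y p| ≤
      ((1 + 1 / (R : ℝ)) ^ Fintype.card κ - 1) *
        (((R * q : ℕ) : ℝ) ^ (univ.filter U).card * ∏ p ∈ S, ph U Ω y p) := by
  classical
  have hR0 : (0 : ℝ) < (R : ℝ) := by exact_mod_cast hR
  have hΩ' : ∀ p ∈ S, ∀ y' : κ → ZMod p,
      (Nat.card {w : κ → ZMod p // w ∈ {w : κ → ZMod p | (fun c => if U c then w c else ((y c : ℤ) : ZMod p)) ∈ Ω p} ∧
        ∀ c, (if U c then 1 else 0 : ℕ) < 1 → w c = y' c} : ℝ) =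
        ph U Ω y p * (p : ℝ) ^ (univ.filter fun c => 1 ≤ (if U c then 1 else 0 : ℕ)).card := by
    intro p hp y'
    have hp0 : (0 : ℝ) < (p : ℝ) := by exact_mod_cast (hS p hp).pos
    have h1 : (univ.filter fun c => 1 ≤ (if U c then 1 else 0 : ℕ)) = univ.filter U := by
      ext c
      simp only [mem_filter, mem_univ, true_and]
      by_cases h : U c
      · simp [h]
      · simp [h]
    rw [h1, ph, div_mul_cancel₀ _ (pow_pos hp0 _).ne']
    norm_cast
    refine Nat.card_congr ⟨fun w => ⟨fun c => if U c then w.1 c else ((y c : ℤ) : ZMod p), w.2.1, fun c hc => if_neg hc⟩,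
      fun w => ⟨fun c => if U c then w.1 c else y' c, ?_, fun c hc => ?_⟩, fun w => ?_, fun w => ?_⟩
    · have h2 : (fun c => if U c then (fun c => if U c then w.1 c else y' c) c else ((y c : ℤ) : ZMod p)) = w.1 := by
        funext c
        by_cases h : U c
        · rw [if_pos h]
          exact if_pos h
        · rw [if_neg h]
          exact (w.2.2 c h).symm
      show (fun c => if U c then (fun c => if U c then w.1 c else y' c) c else ((y c : ℤ) : ZMod p)) ∈ Ω p
      rw [h2]
      exact w.2.1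
    · by_cases h : U c
      · rw [if_pos h] at hc
        exact absurd hc (lt_irrefl 1)
      · exact if_neg h
    · refine Subtype.ext (funext fun c => ?_)
      by_cases h : U c
      · show (if U c then (if U c then w.1 c else ((y c : ℤ) : ZMod p)) else y' c) = w.1 c
        rw [if_pos h, if_pos h]
      · show (if U c then (if U c then w.1 c else ((y c : ℤ) : ZMod p)) else y' c) = w.1 c
        rw [if_neg h]
        exact (w.2.2 c (by rw [if_neg h]; exact zero_lt_one)).symm
    · refine Subtype.ext (funext fun c => ?_)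
      by_cases h : U c
      · show (if U c then (if U c then w.1 c else y' c) else ((y c : ℤ) : ZMod p)) = w.1 c
        rw [if_pos h, if_pos h]
      · show (if U c then (if U c then w.1 c else y' c) else ((y c : ℤ) : ZMod p)) = w.1 c
        rw [if_neg h]
        exact (w.2.2 c h).symm
  have h1 := equiK S hS (fun _ => 1) (fun c => if U c then 1 else 0)
    (fun p => {w : κ → ZMod p | (fun c => if U c then w c else ((y c : ℤ) : ZMod p)) ∈ Ω p}) (fun p => ph U Ω y p) hΩ'
    (fun c => if U c then 0 else y c) (fun c => if U c then R * q else 1) (1 / (R : ℝ)) (by positivity) (by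
      intro c
      by_cases h : U c
      · right
        show (∏ p ∈ S.filter (fun p => 1 ≤ (if U c then 1 else 0 : ℕ)), (p : ℝ)) ≤
          1 / (R : ℝ) * ((if U c then R * q else 1 : ℕ) : ℝ)
        rw [if_pos h, if_pos h, filter_true_of_mem fun _ _ => le_rfl, hq]
        push_cast
        rw [← mul_assoc, one_div_mul_cancel hR0.ne', one_mul]
      · left
        intro p _
        show (if U c then 1 else 0 : ℕ) < 1
        rw [if_neg h]
        exact zero_lt_one)
  have h2 : (∏ c, (((fun c => if U c then R * q else 1) c : ℕ) : ℝ)) = ((R * q : ℕ) : ℝ) ^ (univ.filter U).card := by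
    have h3 : ∀ c ∈ (univ : Finset κ), (((fun c => if U c then R * q else 1) c : ℕ) : ℝ) =
        if U c then ((R * q : ℕ) : ℝ) else 1 := by
      intro c _
      by_cases h : U c
      · simp only [if_pos h]
      · simp only [if_neg h, Nat.cast_one]
    rw [prod_congr rfl h3, prod_ite, prod_const, prod_const_one, mul_one]
  rw [h2] at h1
  have h4 : Nat.card {x : κ → ℤ // (∀ c, (if U c then 0 else y c) ≤ x c ∧
          x c < (if U c then 0 else y c) + ((if U c then R * q else 1 : ℕ) : ℤ)) ∧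
        ∀ p ∈ S, (fun c => ((x c : ℤ) : ZMod p)) ∈ Ω p} =
      Nat.card {x : κ → ℤ // (∀ c, (fun c => if U c then 0 else y c) c ≤ x c ∧
          x c < (fun c => if U c then 0 else y c) c + (((fun c => if U c then R * q else 1) c : ℕ) : ℤ)) ∧
        ∀ p ∈ S, (fun c => ((x c : ℤ) : ZMod p)) ∈
          (fun p => {w : κ → ZMod p | (fun c => if U c then w c else ((y c : ℤ) : ZMod p)) ∈ Ω p}) p} := by
    refine Nat.card_congr (Equiv.subtypeEquivRight fun x => ?_)
    refine and_congr_right fun hx => forall₂_congr fun p _ => ?_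
    have h5 : (fun c => if U c then ((x c : ℤ) : ZMod p) else ((y c : ℤ) : ZMod p)) = fun c => ((x c : ℤ) : ZMod p) := by
      funext c
      by_cases h : U c
      · rw [if_pos h]
      · have h6 := hx c
        rw [if_neg h, if_neg h] at h6
        have h7 : x c = y c := by
          have h8 := h6.1
          have h9 := h6.2
          push_cast at h9
          omega
        rw [if_neg h, h7]
    show _ ↔ (fun c => if U c then ((x c : ℤ) : ZMod p) else ((y c : ℤ) : ZMod p)) ∈ Ω p
    rw [h5]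
  rw [h4]
  exact h1

private theorem M2_fib {κ : Type} [Fintype κ] [DecidableEq κ] (U : κ → Prop) [DecidablePred U]
    (Q : (κ → ℤ) → Prop) (a : κ → ℤ) (H : κ → ℕ) (L : ℕ) :
    Nat.card {x : κ → ℤ // (∀ c, (if U c then 0 else a c) ≤ x c ∧
          x c < (if U c then 0 else a c) + ((if U c then L else H c : ℕ) : ℤ)) ∧ Q x} =
      ∑ y ∈ bx0 U a H, Nat.card {x : κ → ℤ // (∀ c, (if U c then 0 else y c) ≤ x c ∧
          x c < (if U c then 0 else y c) + ((if U c then L else 1 : ℕ) : ℤ)) ∧ Q x} := by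
  classical
  obtain ⟨F, hF⟩ : ∃ F : Finset (κ → ℤ), F = (Fintype.piFinset fun c => if U c then Ico 0 (L : ℤ) else
      Ico (a c) (a c + H c)).filter Q := ⟨_, rfl⟩
  have h1 : ∀ x, x ∈ F ↔ (∀ c, (if U c then 0 else a c) ≤ x c ∧
          x c < (if U c then 0 else a c) + ((if U c then L else H c : ℕ) : ℤ)) ∧ Q x := by
    intro x
    rw [hF, mem_filter, Fintype.mem_piFinset]
    refine and_congr_left fun _ => forall_congr' fun c => ?_
    by_cases h : U c
    · rw [if_pos h, if_pos h, if_pos h, mem_Ico, zero_add]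
    · rw [if_neg h, if_neg h, if_neg h, mem_Ico]
  rw [Nat.subtype_card F h1, card_eq_sum_card_fiberwise (f := fun x c => if U c then 0 else x c) (t := bx0 U a H)]
  · refine sum_congr rfl fun y hy => ?_
    symm
    refine Nat.subtype_card _ fun x => ?_
    rw [mem_filter, h1]
    rw [bx0, Fintype.mem_piFinset] at hy
    constructor
    · rintro ⟨⟨h2, h3⟩, h4⟩
      refine ⟨fun c => ?_, h3⟩
      have h5 := congrFun h4 c
      have h6 := h2 c
      by_cases h : U c
      · rw [if_pos h, if_pos h] at h6 ⊢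
        exact h6
      · have h7 : x c = y c := by
          have h8 : (if U c then 0 else x c) = y c := h5
          rwa [if_neg h] at h8
        rw [if_neg h, if_neg h, h7]
        push_cast
        omega
    · rintro ⟨h2, h3⟩
      refine ⟨⟨fun c => ?_, h3⟩, funext fun c => ?_⟩
      · have h6 := h2 c
        have h8 := hy c
        by_cases h : U c
        · rw [if_pos h, if_pos h] at h6 ⊢
          exact h6
        · rw [if_neg h] at h8
          rw [if_neg h, if_neg h] at h6 ⊢
          rw [mem_Ico] at h8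
          push_cast at h6
          omega
      · have h6 := h2 c
        have h8 := hy c
        by_cases h : U c
        · rw [if_pos h] at h8
          show (if U c then 0 else x c) = y c
          rw [if_pos h]
          exact (mem_singleton.1 h8).symm
        · rw [if_neg h, if_neg h] at h6
          show (if U c then 0 else x c) = y c
          rw [if_neg h]
          push_cast at h6
          omega
  · intro x hx
    have h2 := ((h1 x).1 hx).1
    show (fun c => if U c then 0 else x c) ∈ bx0 U a H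
    rw [bx0, Fintype.mem_piFinset]
    intro c
    have h3 := h2 c
    by_cases h : U c
    · show (if U c then 0 else x c) ∈ (if U c then {0} else Ico (a c) (a c + H c) : Finset ℤ)
      rw [if_pos h, if_pos h]
      exact mem_singleton_self 0
    · show (if U c then 0 else x c) ∈ (if U c then {0} else Ico (a c) (a c + H c) : Finset ℤ)
      rw [if_neg h, if_neg h] at h3
      rw [if_neg h, if_neg h, mem_Ico]
      exact h3

theorem avg_phi {κ : Type} [Fintype κ] [DecidableEq κ] (U : κ → Prop) [DecidablePred U] (S : Finset ℕ)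
    (hS : ∀ p ∈ S, p.Prime) (k : ℕ → ℕ) (lev : κ → ℕ)
    (Ω : (p : ℕ) → Set (κ → ZMod p)) (ω : ℕ → ℝ)
    (hΩ : ∀ p ∈ S, ∀ y : κ → ZMod p,
      (Nat.card {w : κ → ZMod p // w ∈ Ω p ∧ ∀ c, lev c < k p → w c = y c} : ℝ) =
        ω p * (p : ℝ) ^ (univ.filter fun c => k p ≤ lev c).card)
    (hU : ∀ c, U c → ∀ p ∈ S, k p ≤ lev c)
    (a : κ → ℤ) (H : κ → ℕ) (η : ℝ) (hη : 0 ≤ η)
    (hH : ∀ c, ¬ U c → (∀ p ∈ S, lev c < k p) ∨ (∏ p ∈ S.filter (fun p => k p ≤ lev c), (p : ℝ)) ≤ η * H c) :
    |∑ y ∈ bx0 U a H, ∏ p ∈ S, ph U Ω y p - (∏ c ∈ univ.filter (fun c => ¬ U c), (H c : ℝ)) * ∏ p ∈ S, ω p| ≤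
      ((1 + η) ^ Fintype.card κ - 1) * ((∏ c ∈ univ.filter (fun c => ¬ U c), (H c : ℝ)) * ∏ p ∈ S, ω p) := by
  classical
  obtain ⟨q, hq⟩ : ∃ q : ℕ, q = ∏ p ∈ S, p := ⟨_, rfl⟩
  have hq0 : 0 < q := by
    rw [hq]
    exact prod_pos fun p hp => (hS p hp).pos
  obtain ⟨u, hu⟩ : ∃ u : ℕ, u = (univ.filter U).card := ⟨_, rfl⟩
  obtain ⟨V, hV⟩ : ∃ V : ℝ, V = ∏ c ∈ univ.filter (fun c => ¬ U c), (H c : ℝ) := ⟨_, rfl⟩
  obtain ⟨W, hW⟩ : ∃ W : ℝ, W = ∏ p ∈ S, ω p := ⟨_, rfl⟩
  obtain ⟨Z, hZ⟩ : ∃ Z : ℝ, Z = ∑ y ∈ bx0 U a H, ∏ p ∈ S, ph U Ω y p := ⟨_, rfl⟩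
  rw [← hV, ← hW, ← hZ]
  have key : ∀ R : ℕ, |Z - V * W| ≤ ((1 + 1 / ((R : ℝ) + 1)) ^ Fintype.card κ - 1) * Z +
      ((1 + (η + 1 / ((R : ℝ) + 1))) ^ Fintype.card κ - 1) * (V * W) := by
    intro R
    have hR0 : (0 : ℝ) < ((R + 1 : ℕ) : ℝ) := by positivity
    have hRe : ((R + 1 : ℕ) : ℝ) = (R : ℝ) + 1 := by push_cast; rfl
    have hL : (0 : ℝ) < (((R + 1) * q : ℕ) : ℝ) ^ u := by
      have : (0 : ℝ) < (((R + 1) * q : ℕ) : ℝ) := by
        exact_mod_cast Nat.mul_pos (Nat.succ_pos R) hq0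
      exact pow_pos this u
    have h1 := fun y => M2_slice U S hS Ω y (R + 1) q (Nat.succ_pos R) hq
    have h2 := equiK S hS k lev Ω ω hΩ (fun c => if U c then 0 else a c) (fun c => if U c then (R + 1) * q else H c)
      (η + 1 / ((R + 1 : ℕ) : ℝ)) (by positivity) (by
        intro c
        by_cases h : U c
        · right
          show (∏ p ∈ S.filter (fun p => k p ≤ lev c), (p : ℝ)) ≤
            (η + 1 / ((R + 1 : ℕ) : ℝ)) * ((if U c then (R + 1) * q else H c : ℕ) : ℝ)
          rw [if_pos h, filter_true_of_mem (hU c h)]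
          have h3 : (∏ p ∈ S, (p : ℝ)) = (q : ℝ) := by
            rw [hq]
            push_cast
            rfl
          rw [h3, Nat.cast_mul, add_mul, ← mul_assoc (1 / ((R + 1 : ℕ) : ℝ)), one_div_mul_cancel hR0.ne', one_mul]
          have h4 : 0 ≤ η * (((R + 1 : ℕ) : ℝ) * (q : ℝ)) := by positivity
          linarith
        · rcases hH c h with h3 | h3
          · exact Or.inl h3
          · right
            show (∏ p ∈ S.filter (fun p => k p ≤ lev c), (p : ℝ)) ≤
              (η + 1 / ((R + 1 : ℕ) : ℝ)) * ((if U c then (R + 1) * q else H c : ℕ) : ℝ)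
            rw [if_neg h]
            refine h3.trans (mul_le_mul_of_nonneg_right ?_ (Nat.cast_nonneg _))
            have h4 : 0 ≤ 1 / ((R + 1 : ℕ) : ℝ) := by positivity
            linarith)
    have h5 : (∏ c, (((fun c => if U c then (R + 1) * q else H c) c : ℕ) : ℝ)) = (((R + 1) * q : ℕ) : ℝ) ^ u * V := by
      have h6 : ∀ c ∈ (univ : Finset κ), (((fun c => if U c then (R + 1) * q else H c) c : ℕ) : ℝ) =
          if U c then (((R + 1) * q : ℕ) : ℝ) else (H c : ℝ) := by
        intro c _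
        by_cases h : U c
        · simp only [if_pos h]
        · simp only [if_neg h]
      rw [prod_congr rfl h6, prod_ite, prod_const, hu, hV]
    rw [h5, ← hW] at h2
    have h7 := M2_fib U (fun x => ∀ p ∈ S, (fun c => ((x c : ℤ) : ZMod p)) ∈ Ω p) a H ((R + 1) * q)
    have h8 : (Nat.card {x : κ → ℤ // (∀ c, (fun c => if U c then 0 else a c) c ≤ x c ∧
          x c < (fun c => if U c then 0 else a c) c + (((fun c => if U c then (R + 1) * q else H c) c : ℕ) : ℤ)) ∧
        ∀ p ∈ S, (fun c => ((x c : ℤ) : ZMod p)) ∈ Ω p} : ℝ) =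
        ∑ y ∈ bx0 U a H, (Nat.card {x : κ → ℤ // (∀ c, (if U c then 0 else y c) ≤ x c ∧
          x c < (if U c then 0 else y c) + ((if U c then (R + 1) * q else 1 : ℕ) : ℤ)) ∧
            ∀ p ∈ S, (fun c => ((x c : ℤ) : ZMod p)) ∈ Ω p} : ℝ) := by
      rw [← Nat.cast_sum]
      exact congrArg Nat.cast h7
    rw [h8] at h2
    obtain ⟨N, hN⟩ : ∃ N : (κ → ℤ) → ℝ, N = fun y => (Nat.card {x : κ → ℤ // (∀ c, (if U c then 0 else y c) ≤ x c ∧
          x c < (if U c then 0 else y c) + ((if U c then (R + 1) * q else 1 : ℕ) : ℤ)) ∧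
            ∀ p ∈ S, (fun c => ((x c : ℤ) : ZMod p)) ∈ Ω p} : ℝ) := ⟨_, rfl⟩
    have h9 : |(∑ y ∈ bx0 U a H, N y) - (((R + 1) * q : ℕ) : ℝ) ^ u * V * W| ≤
        ((1 + (η + 1 / ((R + 1 : ℕ) : ℝ))) ^ Fintype.card κ - 1) * ((((R + 1) * q : ℕ) : ℝ) ^ u * V * W) := by
      rw [hN]
      exact h2
    have h10 : |(∑ y ∈ bx0 U a H, N y) - (((R + 1) * q : ℕ) : ℝ) ^ u * Z| ≤
        ((1 + 1 / ((R + 1 : ℕ) : ℝ)) ^ Fintype.card κ - 1) * ((((R + 1) * q : ℕ) : ℝ) ^ u * Z) := by
      rw [hZ, mul_sum, ← sum_sub_distrib, mul_sum]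
      refine (abs_sum_le_sum_abs _ _).trans (sum_le_sum fun y _ => ?_)
      rw [hN, hu]
      exact h1 y
    rw [hRe] at h9 h10
    have h11 : (((R + 1) * q : ℕ) : ℝ) ^ u * |Z - V * W| ≤ (((R + 1) * q : ℕ) : ℝ) ^ u *
        (((1 + 1 / ((R : ℝ) + 1)) ^ Fintype.card κ - 1) * Z +
          ((1 + (η + 1 / ((R : ℝ) + 1))) ^ Fintype.card κ - 1) * (V * W)) := by
      have h12 : (((R + 1) * q : ℕ) : ℝ) ^ u * |Z - V * W| =
          |(((R + 1) * q : ℕ) : ℝ) ^ u * Z - (((R + 1) * q : ℕ) : ℝ) ^ u * V * W| := by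
        rw [← abs_of_pos hL, ← abs_mul, abs_of_pos hL]
        congr 1
        ring
      rw [h12]
      have h13 := abs_sub_le ((((R + 1) * q : ℕ) : ℝ) ^ u * Z) (∑ y ∈ bx0 U a H, N y)
        ((((R + 1) * q : ℕ) : ℝ) ^ u * V * W)
      rw [abs_sub_comm ((((R + 1) * q : ℕ) : ℝ) ^ u * Z) (∑ y ∈ bx0 U a H, N y)] at h13
      refine h13.trans ((add_le_add h10 h9).trans (le_of_eq ?_))
      ring
    exact le_of_mul_le_mul_left h11 hL
  have hlim : Filter.Tendsto (fun R : ℕ => ((1 + 1 / ((R : ℝ) + 1)) ^ Fintype.card κ - 1) * Z +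
      ((1 + (η + 1 / ((R : ℝ) + 1))) ^ Fintype.card κ - 1) * (V * W)) Filter.atTop
      (nhds (((1 + 0) ^ Fintype.card κ - 1) * Z + ((1 + (η + 0)) ^ Fintype.card κ - 1) * (V * W))) := by
    have h1 : Filter.Tendsto (fun R : ℕ => 1 / ((R : ℝ) + 1)) Filter.atTop (nhds 0) :=
      tendsto_one_div_add_atTop_nhds_zero_nat
    exact ((((h1.const_add 1).pow _).sub_const 1).mul_const Z).add
      (((((h1.const_add η).const_add 1).pow _).sub_const 1).mul_const (V * W))
  have h2 := ge_of_tendsto' hlim key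
  rw [add_zero, one_pow, sub_self, zero_mul, zero_add, add_zero] at h2
  exact h2

end QV
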