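import Pool.Agent.Lib.MP_10e784_agQV.M2

/-! JOB M3.  The averages of the main terms.
As in `TW.multi` (MP_10e784_ag/TW/TWMulti.lean): expand `∏_k ∑_T cT T ∏_{p ∈ T} ph y p = ∑_t cc t ∏_{p ∈ ⋃ t k} ph y p` (`t ∈ piFinset (fun k => (P k).powerset)`), exchange with the sum over `y`, `avg_phi` for `S = ⋃ t k` and `k p = ℓ k` for `p ∈ P k` if `pr (t k) ≤ D k * z k` for all `k` (otherwise `cc t = 0`); the main term is bounded by `TW.main_term`, the error by `∑_t W t = ∏_k ∏_{p ∈ P k} (1 + ω p)`.  The second statement: the same with `cU` (`∈ {0, 1}`): each term is at most `(1 + E) V W t`. -/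

set_option autoImplicit false

namespace QV

open Finset TW

private theorem M3_cT_abs (D z : ℝ) (T : Finset ℕ) : |cT D z T| ≤ 1 := by
  unfold cT
  split_ifs
  · rw [abs_pow, abs_neg, abs_one, one_pow]
  · simp
  · simp

private theorem M3_cT_zero {D z : ℝ} (hD : 1 ≤ D) (hz : 1 ≤ z) {T : Finset ℕ} (h : ¬ pr T ≤ D * z) :
    cT D z T = 0 := by
  unfold cT
  have h1 : ¬ pr T ≤ D := fun h2 => h (h2.trans (le_mul_of_one_le_right (by linarith) hz))
  rw [if_neg h1, if_neg h]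

theorem avg_AB {κ τ : Type} [Fintype κ] [DecidableEq κ] [Fintype τ] [DecidableEq τ] (P : τ → Finset ℕ)
    (hP : ∀ k, ∀ p ∈ P k, p.Prime) (hdis : ∀ k k', k ≠ k' → Disjoint (P k) (P k')) (ℓ : τ → ℕ) (hℓ : ∀ k, 1 ≤ ℓ k)
    (lev : κ → ℕ) (Ω : (p : ℕ) → Set (κ → ZMod p)) (ω : ℕ → ℝ)
    (hω : ∀ k, ∀ p ∈ P k, 0 ≤ ω p ∧ ω p ≤ 1)
    (hΩ : ∀ k : τ, ∀ p ∈ P k, ∀ y : κ → ZMod p,
      (Nat.card {w : κ → ZMod p // w ∈ Ω p ∧ ∀ c, lev c < ℓ k → w c = y c} : ℝ) =
        ω p * (p : ℝ) ^ (univ.filter fun c => ℓ k ≤ lev c).card)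
    (U : κ → Prop) [DecidablePred U] (hU : ∀ c, U c → ∀ k, ℓ k ≤ lev c)
    (a : κ → ℤ) (H : κ → ℕ) (D z : τ → ℝ) (hD : ∀ k, 1 ≤ D k) (hz1 : ∀ k, 1 ≤ z k) (hz : ∀ k, ∀ p ∈ P k, (p : ℝ) ≤ z k)
    (η : ℝ) (hη : 0 ≤ η)
    (hH : ∀ c, ¬ U c → lev c = 0 ∨ (∏ k ∈ univ.filter (fun k : τ => ℓ k ≤ lev c), (D k * z k)) ≤ η * H c) :
    (∑ y ∈ bx0 U a H, ∏ k, ∑ T ∈ (P k).powerset, cT (D k) (z k) T * ∏ p ∈ T, ph U Ω y p) ≤
      (∏ c ∈ univ.filter (fun c => ¬ U c), (H c : ℝ)) * ((∏ k, (∏ p ∈ P k, (1 - ω p) + 2 * tl (D k) (P k) ω)) +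
        ((1 + η) ^ Fintype.card κ - 1) * ∏ k, ∏ p ∈ P k, (1 + ω p)) ∧
    (∑ y ∈ bx0 U a H, ∏ k, ∑ T ∈ (P k).powerset, cU (D k) (z k) T * ∏ p ∈ T, ph U Ω y p) ≤
      (∏ c ∈ univ.filter (fun c => ¬ U c), (H c : ℝ)) * ((1 + ((1 + η) ^ Fintype.card κ - 1)) * ∏ k, ∏ p ∈ P k, (1 + ω p)) := by
  classical
  set V : ℝ := ∏ c ∈ univ.filter (fun c => ¬ U c), (H c : ℝ) with hV
  have hV0 : 0 ≤ V := Finset.prod_nonneg fun c _ => Nat.cast_nonneg _
  set E : ℝ := (1 + η) ^ Fintype.card κ - 1 with hE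
  have hE0 : 0 ≤ E := by
    have : (1 : ℝ) ≤ (1 + η) ^ Fintype.card κ := one_le_pow₀ (by linarith)
    linarith
  -- the coefficients and the weights
  set cc : (τ → Finset ℕ) → ℝ := fun t => ∏ k, cT (D k) (z k) (t k) with hcc
  set cu : (τ → Finset ℕ) → ℝ := fun t => ∏ k, cU (D k) (z k) (t k) with hcu
  set W : (τ → Finset ℕ) → ℝ := fun t => ∏ k, ∏ p ∈ t k, ω p with hW
  set TT : Finset (τ → Finset ℕ) := Fintype.piFinset (fun k => (P k).powerset) with hTT
  have htP : ∀ t ∈ TT, ∀ k, t k ⊆ P k := fun t ht k =>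
    Finset.mem_powerset.mp (Fintype.mem_piFinset.mp ht k)
  have hW0 : ∀ t ∈ TT, 0 ≤ W t := fun t ht => Finset.prod_nonneg fun k _ =>
    Finset.prod_nonneg fun p hp => (hω k p (htP t ht k hp)).1
  have hcc1 : ∀ t, |cc t| ≤ 1 := fun t => by
    rw [hcc]
    simp only
    rw [Finset.abs_prod]
    exact Finset.prod_le_one (fun k _ => abs_nonneg _) fun k _ => M3_cT_abs _ _ _
  -- the level function
  set kk : ℕ → ℕ := fun p => if h : ∃ k, p ∈ P k then ℓ (Classical.choose h) else 0 with hkk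
  have hkkP : ∀ k : τ, ∀ p ∈ P k, kk p = ℓ k := by
    intro k p hp
    have h : ∃ k, p ∈ P k := ⟨k, hp⟩
    rw [hkk]
    simp only
    rw [dif_pos h]
    have h2 := Classical.choose_spec h
    by_contra hne
    have h3 : Classical.choose h ≠ k := fun h4 => hne (by rw [h4])
    exact Finset.disjoint_left.mp (hdis _ _ h3) h2 hp
  -- the averages
  set NN : (τ → Finset ℕ) → ℝ := fun t => ∑ y ∈ bx0 U a H, ∏ k, ∏ p ∈ t k, ph U Ω y p with hNN
  have hdisj : ∀ t ∈ TT, ∀ k k', k ≠ k' → Disjoint (t k) (t k') := fun t ht k k' h =>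
    Finset.disjoint_of_subset_left (htP t ht k)
      (Finset.disjoint_of_subset_right (htP t ht k') (hdis k k' h))
  have hWS : ∀ t ∈ TT, ∀ f : ℕ → ℝ, ∏ p ∈ univ.biUnion t, f p = ∏ k, ∏ p ∈ t k, f p := by
    intro t ht f
    rw [Finset.prod_biUnion]
    intro k _ k' _ hkk'
    exact hdisj t ht k k' hkk'
  have hN : ∀ t ∈ TT, (∀ k, pr (t k) ≤ D k * z k) → |NN t - V * W t| ≤ E * (V * W t) := by
    intro t ht hle
    have hmem : ∀ p ∈ univ.biUnion t, ∃ k, p ∈ t k ∧ p ∈ P k := by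
      intro p hp
      obtain ⟨k, _, hk⟩ := Finset.mem_biUnion.mp hp
      exact ⟨k, hk, htP t ht k hk⟩
    have h1 := avg_phi U (univ.biUnion t)
      (fun p hp => by obtain ⟨k, _, hk⟩ := hmem p hp; exact hP k p hk) kk lev Ω ω
      (fun p hp y => by
        obtain ⟨k, _, hk⟩ := hmem p hp
        rw [hkkP k p hk]
        exact hΩ k p hk y)
      (fun c hc p hp => by
        obtain ⟨k, _, hk⟩ := hmem p hp
        rw [hkkP k p hk]
        exact hU c hc k) a H η hη
      (fun c hc => by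
        rcases hH c hc with h0 | h0
        · left
          intro p hp
          obtain ⟨k, _, hk⟩ := hmem p hp
          rw [hkkP k p hk, h0]
          exact hℓ k
        · right
          refine le_trans ?_ h0
          have h2 : (univ.biUnion t).filter (fun p => kk p ≤ lev c) =
              (univ.filter (fun k : τ => ℓ k ≤ lev c)).biUnion t := by
            ext p
            simp only [Finset.mem_filter, Finset.mem_biUnion, Finset.mem_univ, true_and]
            constructor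
            · rintro ⟨⟨k, hk⟩, hle2⟩
              exact ⟨k, (hkkP k p (htP t ht k hk)) ▸ hle2, hk⟩
            · rintro ⟨k, hk1, hk⟩
              exact ⟨⟨k, hk⟩, (hkkP k p (htP t ht k hk)).symm ▸ hk1⟩
          rw [h2, Finset.prod_biUnion]
          · refine Finset.prod_le_prod (fun k _ => Finset.prod_nonneg fun p _ => Nat.cast_nonneg _)
              fun k _ => ?_
            exact hle k
          · intro k _ k' _ hkk'
            exact hdisj t ht k k' hkk')
    rw [hWS t ht ω] at h1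
    have h2 : NN t = ∑ y ∈ bx0 U a H, ∏ p ∈ univ.biUnion t, ph U Ω y p := by
      rw [hNN]
      exact Finset.sum_congr rfl fun y _ => (hWS t ht _).symm
    rw [h2]
    exact h1
  -- expansions
  have hexp : ∀ f : τ → Finset ℕ → ℝ,
      (∑ y ∈ bx0 U a H, ∏ k, ∑ T ∈ (P k).powerset, f k T * ∏ p ∈ T, ph U Ω y p) =
        ∑ t ∈ TT, (∏ k, f k (t k)) * NN t := by
    intro f
    have h1 : ∀ y, (∏ k, ∑ T ∈ (P k).powerset, f k T * ∏ p ∈ T, ph U Ω y p) =
        ∑ t ∈ TT, (∏ k, f k (t k)) * ∏ k, ∏ p ∈ t k, ph U Ω y p := by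
      intro y
      rw [Finset.prod_univ_sum]
      refine Finset.sum_congr rfl fun t _ => ?_
      rw [Finset.prod_mul_distrib]
    rw [Finset.sum_congr rfl fun y _ => h1 y, Finset.sum_comm]
    refine Finset.sum_congr rfl fun t _ => ?_
    rw [← Finset.mul_sum]
  have hBB : ∑ t ∈ TT, W t = ∏ k, ∏ p ∈ P k, (1 + ω p) := by
    have h1 : ∀ k, ∏ p ∈ P k, (1 + ω p) = ∑ T ∈ (P k).powerset, ∏ p ∈ T, ω p := fun k =>
      Finset.prod_one_add (P k)
    rw [Finset.prod_congr rfl fun k _ => h1 k, Finset.prod_univ_sum]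
  constructor
  · have hterm : ∀ t ∈ TT, cc t * NN t ≤ V * (cc t * W t) + E * (V * W t) := by
      intro t ht
      have hVW : 0 ≤ V * W t := mul_nonneg hV0 (hW0 t ht)
      by_cases hle : ∀ k, pr (t k) ≤ D k * z k
      · have h1 := hN t ht hle
        have h2 : cc t * NN t - V * (cc t * W t) = cc t * (NN t - V * W t) := by ring
        have h3 : cc t * (NN t - V * W t) ≤ |cc t| * |NN t - V * W t| := by
          rw [← abs_mul]; exact le_abs_self _
        have h4 : |cc t| * |NN t - V * W t| ≤ 1 * (E * (V * W t)) :=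
          mul_le_mul (hcc1 t) h1 (abs_nonneg _) zero_le_one
        linarith
      · push Not at hle
        obtain ⟨k, hk⟩ := hle
        have h0 : cc t = 0 :=
          Finset.prod_eq_zero (Finset.mem_univ k) (M3_cT_zero (hD k) (hz1 k) (not_le.mpr hk))
        rw [h0, zero_mul, zero_mul, mul_zero, zero_add]
        exact mul_nonneg hE0 hVW
    rw [hexp fun k T => cT (D k) (z k) T]
    refine (Finset.sum_le_sum hterm).trans ?_
    rw [Finset.sum_add_distrib, ← Finset.mul_sum, ← Finset.mul_sum, ← Finset.mul_sum]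
    have hA : ∑ t ∈ TT, cc t * W t ≤ ∏ k, (∏ p ∈ P k, (1 - ω p) + 2 * tl (D k) (P k) ω) := by
      have h1 : ∑ t ∈ TT, cc t * W t = ∏ k, ∑ T ∈ (P k).powerset, cT (D k) (z k) T * ∏ p ∈ T, ω p := by
        rw [Finset.prod_univ_sum]
        refine Finset.sum_congr rfl fun t _ => ?_
        rw [Finset.prod_mul_distrib]
      rw [h1]
      refine (le_abs_self _).trans ?_
      rw [Finset.abs_prod]
      exact Finset.prod_le_prod (fun k _ => abs_nonneg _) fun k _ =>
        main_term (D k) (z k) (P k) ω (hω k)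
    rw [hBB]
    have hC := mul_le_mul_of_nonneg_left hA hV0
    calc V * ∑ t ∈ TT, cc t * W t + E * (V * ∏ k, ∏ p ∈ P k, (1 + ω p))
        ≤ V * ∏ k, (∏ p ∈ P k, (1 - ω p) + 2 * tl (D k) (P k) ω) + E * (V * ∏ k, ∏ p ∈ P k, (1 + ω p)) := by
          linarith
      _ = V * ((∏ k, (∏ p ∈ P k, (1 - ω p) + 2 * tl (D k) (P k) ω)) + E * ∏ k, ∏ p ∈ P k, (1 + ω p)) := by
          ring
  · have hterm : ∀ t ∈ TT, cu t * NN t ≤ (1 + E) * V * W t := by
      intro t ht
      have hVW : 0 ≤ V * W t := mul_nonneg hV0 (hW0 t ht)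
      by_cases hle : ∀ k, pr (t k) ≤ D k * z k
      · have h1 := (abs_le.mp (hN t ht hle)).2
        have h0 : cu t = 1 := Finset.prod_eq_one fun k _ => by
          unfold cU
          exact if_pos (hle k)
        rw [h0, one_mul]
        linarith
      · push Not at hle
        obtain ⟨k, hk⟩ := hle
        have h0 : cu t = 0 := Finset.prod_eq_zero (Finset.mem_univ k) (by
          unfold cU
          exact if_neg (not_le.mpr hk))
        rw [h0, zero_mul, mul_assoc]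
        exact mul_nonneg (by linarith) hVW
    rw [hexp fun k T => cU (D k) (z k) T]
    refine (Finset.sum_le_sum hterm).trans ?_
    rw [← Finset.mul_sum, hBB]
    refine le_of_eq ?_
    ring

end QV
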