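import Pool.Agent.Lib.MP_10e784_agQV.M0
import Pool.Agent.Lib.MP_10e784_agQV.M1
import Pool.Agent.Lib.MP_10e784_agQV.M3

/-! JOB M4.  The sieve with top sets depending on the coordinates off `U`.
Write `E = (1 + η) ^ card κ - 1`.  The set on the left is the disjoint union over `y ∈ bx0 U a H` (`y` = `x` off `U`, `0` on `U`) of its parts with `x = y` off `U`; the parts with `¬ Good y` are empty (`hGood`).  Let `Good y`.
(1) `multi0` with `τ ⊕ σ`, the sets `P, P'`, `ℓ = 1`, `lev c = 1` on `U` and `0` off `U`, the sets `{w | (fun c => if U c then w c else y c) ∈ Ω p}` for `p` in some `P k`, and the same with `Ω' y p` for `p` in some `P' k`, `a' c = y c`, `H' c = 1` off `U`: the part has at most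
`(∏_{c ∈ U} H c) (∏_k A k y * ∏_k A' k y + E ∏_k B k y ∏_k B' k y)` elements, `A k y = ∑_T cT T ∏ ph U Ω y p`, `B k y` the same with `cU`, `A' k y`, `B' k y` with `ω' y p` in place of `ph` (`hΩ'`).  (For `Ω'`: `Ω' x p = Ω' y p` for the `x` in the part, `hagree`.)
(2) `A k y ≥ 0`, `A' k y ≥ 0` (`cT_nonneg`; `0 ≤ ph ≤ 1`: at most `p ^ |U|` vectors agree with `y` off `U`), `A' k y ≤ ∏ (1 - ω') + 2 tl` (`main_term`), so `∏ A' ≤ α`; `0 ≤ B k y`, `B' k y ≤ ∏_{p ∈ P' k} (1 + ω' y p)` so `∏ B' ≤ β`.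
(3) Extend the sum to all `y ∈ bx0 U a H` and apply `avg_AB`. -/

set_option autoImplicit false

namespace QV

open Finset TW

private theorem M4_cnt {κ : Type} (U : κ → Prop) [DecidablePred U] (p : ℕ) (A : Set (κ → ZMod p))
    (y y₁ : κ → ZMod p) :
    Nat.card {w : κ → ZMod p // (fun c => if U c then w c else y c) ∈ A ∧ ∀ c, ¬ U c → w c = y₁ c} =
      Nat.card {w : κ → ZMod p // w ∈ A ∧ ∀ c, ¬ U c → w c = y c} := by
  refine Nat.card_congr ⟨fun w => ⟨fun c => if U c then w.1 c else y c, w.2.1, fun c hc => if_neg hc⟩,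
    fun w => ⟨fun c => if U c then w.1 c else y₁ c, ?_, fun c hc => if_neg hc⟩, fun w => ?_, fun w => ?_⟩
  · have h : (fun c => if U c then (if U c then w.1 c else y₁ c) else y c) = w.1 := by
      funext c
      by_cases hc : U c
      · rw [if_pos hc, if_pos hc]
      · rw [if_neg hc, w.2.2 c hc]
    rw [h]
    exact w.2.1
  · apply Subtype.ext
    funext c
    by_cases hc : U c
    · simp only [if_pos hc]
    · simp only [if_neg hc]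
      exact (w.2.2 c hc).symm
  · apply Subtype.ext
    funext c
    by_cases hc : U c
    · simp only [if_pos hc]
    · simp only [if_neg hc]
      exact (w.2.2 c hc).symm

private theorem M4_le {κ : Type} [Fintype κ] (U : κ → Prop) [DecidablePred U] (p : ℕ) (hp : p.Prime)
    (A : Set (κ → ZMod p)) (y : κ → ZMod p) :
    (Nat.card {w : κ → ZMod p // w ∈ A ∧ ∀ c, ¬ U c → w c = y c} : ℝ) ≤ (p : ℝ) ^ (univ.filter U).card := by
  have : NeZero p := ⟨hp.ne_zero⟩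
  have h1 : Nat.card {w : κ → ZMod p // w ∈ A ∧ ∀ c, ¬ U c → w c = y c} ≤
      Nat.card ({c // U c} → ZMod p) := by
    refine Nat.card_le_card_of_injective (fun w c => w.1 c.1) ?_
    intro w w' h
    apply Subtype.ext
    funext c
    by_cases hc : U c
    · exact congrFun h ⟨c, hc⟩
    · rw [w.2.2 c hc, w'.2.2 c hc]
  have h2 : Nat.card ({c // U c} → ZMod p) = p ^ (univ.filter U).card := by
    rw [Nat.card_fun, Nat.card_zmod, Nat.card_eq_fintype_card, Fintype.card_subtype]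
  rw [h2] at h1
  exact_mod_cast h1

private theorem M4_ph {κ : Type} [Fintype κ] (U : κ → Prop) [DecidablePred U]
    (Ω : (p : ℕ) → Set (κ → ZMod p)) (y : κ → ℤ) (p : ℕ) (hp : p.Prime) :
    0 ≤ ph U Ω y p ∧ ph U Ω y p ≤ 1 := by
  have hp0 : (0 : ℝ) < (p : ℝ) ^ (univ.filter U).card := by
    have : (0 : ℝ) < p := by exact_mod_cast hp.pos
    positivity
  unfold ph
  refine ⟨div_nonneg (Nat.cast_nonneg _) hp0.le, ?_⟩
  rw [div_le_one hp0]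
  exact M4_le U p hp (Ω p) fun c => ((y c : ℤ) : ZMod p)

/-- the sieve for the vectors with given coordinates off `U` -/
private theorem M4_fib {κ τ σ : Type} [Fintype κ] [DecidableEq κ] [Fintype τ] [DecidableEq τ] [Fintype σ]
    [DecidableEq σ] (P : τ → Finset ℕ) (P' : σ → Finset ℕ)
    (hP : ∀ k, ∀ p ∈ P k, p.Prime) (hP' : ∀ k, ∀ p ∈ P' k, p.Prime)
    (hdis : ∀ k k', k ≠ k' → Disjoint (P k) (P k')) (hdis' : ∀ k k', k ≠ k' → Disjoint (P' k) (P' k'))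
    (hdd : ∀ k k', Disjoint (P k) (P' k'))
    (Ω : (p : ℕ) → Set (κ → ZMod p)) (U : κ → Prop) [DecidablePred U]
    (Ω₁ : (p : ℕ) → Set (κ → ZMod p)) (ω₁ : ℕ → ℝ) (y : κ → ℤ)
    (hω₁ : ∀ k, ∀ p ∈ P' k, 0 ≤ ω₁ p ∧ ω₁ p ≤ 1)
    (hΩ₁ : ∀ k, ∀ p ∈ P' k,
      (Nat.card {w : κ → ZMod p // w ∈ Ω₁ p ∧ ∀ c, ¬ U c → w c = ((y c : ℤ) : ZMod p)} : ℝ) =
        ω₁ p * (p : ℝ) ^ (univ.filter U).card)
    (a : κ → ℤ) (H : κ → ℕ) (D z : τ → ℝ) (hD : ∀ k, 1 ≤ D k) (hz1 : ∀ k, 1 ≤ z k) (hz : ∀ k, ∀ p ∈ P k, (p : ℝ) ≤ z k)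
    (D' z' : σ → ℝ) (hD' : ∀ k, 1 ≤ D' k) (hz1' : ∀ k, 1 ≤ z' k) (hz' : ∀ k, ∀ p ∈ P' k, (p : ℝ) ≤ z' k)
    (η : ℝ) (hη : 0 ≤ η)
    (hHU : ∀ c, U c → (∏ k, (D k * z k)) * ∏ k, (D' k * z' k) ≤ η * H c) :
    (Nat.card {x : κ → ℤ // (∀ c, U c → a c ≤ x c ∧ x c < a c + H c) ∧ (∀ c, ¬ U c → x c = y c) ∧
        (∀ k, ∀ p ∈ P k, (fun c => ((x c : ℤ) : ZMod p)) ∉ Ω p) ∧
        ∀ k, ∀ p ∈ P' k, (fun c => ((x c : ℤ) : ZMod p)) ∉ Ω₁ p} : ℝ) ≤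
      (∏ c ∈ univ.filter U, (H c : ℝ)) *
        ((∏ k, ∑ T ∈ (P k).powerset, cT (D k) (z k) T * ∏ p ∈ T, ph U Ω y p) *
          (∏ k, ∑ T ∈ (P' k).powerset, cT (D' k) (z' k) T * ∏ p ∈ T, ω₁ p) +
        ((1 + η) ^ Fintype.card κ - 1) *
          ((∏ k, ∑ T ∈ (P k).powerset, cU (D k) (z k) T * ∏ p ∈ T, ph U Ω y p) *
          ∏ k, ∑ T ∈ (P' k).powerset, cU (D' k) (z' k) T * ∏ p ∈ T, ω₁ p)) := by
  classical
  obtain ⟨lv, hlv⟩ : ∃ lv : κ → ℕ, ∀ c, lv c = if U c then 1 else 0 := ⟨_, fun _ => rfl⟩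
  have hlt : ∀ c, lv c < 1 ↔ ¬ U c := fun c => by
    rw [hlv]
    by_cases hc : U c
    · simp [hc]
    · simp [hc]
  have hle : ∀ c, 1 ≤ lv c ↔ U c := fun c => by
    rw [hlv]
    by_cases hc : U c
    · simp [hc]
    · simp [hc]
  obtain ⟨a₂, ha₂⟩ : ∃ a₂ : κ → ℤ, ∀ c, a₂ c = if U c then a c else y c := ⟨_, fun _ => rfl⟩
  obtain ⟨H₂, hH₂⟩ : ∃ H₂ : κ → ℕ, ∀ c, H₂ c = if U c then H c else 1 := ⟨_, fun _ => rfl⟩
  obtain ⟨Ω₂, hΩ₂⟩ : ∃ Ω₂ : (p : ℕ) → Set (κ → ZMod p), ∀ p, Ω₂ p =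
      {w | (fun c => if U c then w c else ((y c : ℤ) : ZMod p)) ∈
        (if p ∈ univ.biUnion P' then Ω₁ p else Ω p)} := ⟨_, fun _ => rfl⟩
  obtain ⟨ω₂, hω₂⟩ : ∃ ω₂ : ℕ → ℝ, ∀ p, ω₂ p =
      if p ∈ univ.biUnion P' then ω₁ p else ph U Ω y p := ⟨_, fun _ => rfl⟩
  have hin : ∀ k, ∀ p ∈ P' k, p ∈ univ.biUnion P' := fun k p hp =>
    mem_biUnion.2 ⟨k, mem_univ k, hp⟩
  have hout : ∀ k, ∀ p ∈ P k, p ∉ univ.biUnion P' := fun k p hp h => by
    obtain ⟨k', _, hk'⟩ := mem_biUnion.1 h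
    exact disjoint_left.1 (hdd k k') hp hk'
  have key := multi0 (Sum.elim P P') (by
      rintro (k | k) p hp
      · exact hP k p hp
      · exact hP' k p hp)
    (by
      rintro (k | k) (k' | k') hkk
      · exact hdis k k' fun h => hkk (by rw [h])
      · exact hdd k k'
      · exact (hdd k' k).symm
      · exact hdis' k k' fun h => hkk (by rw [h]))
    (fun _ => 1) (fun _ => le_rfl) lv Ω₂ ω₂
    (by
      rintro (k | k) p hp
      · rw [hω₂, if_neg (hout k p hp)]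
        exact M4_ph U Ω y p (hP k p hp)
      · rw [hω₂, if_pos (hin k p hp)]
        exact hω₁ k p hp)
    (by
      rintro (k | k) p hp y₁
      · simp only [hlt, hle]
        rw [hω₂, if_neg (hout k p hp), hΩ₂, if_neg (hout k p hp)]
        have h1 := M4_cnt U p (Ω p) (fun c => ((y c : ℤ) : ZMod p)) y₁
        have hp0 : (p : ℝ) ^ (univ.filter U).card ≠ 0 :=
          pow_ne_zero _ (by exact_mod_cast (hP k p hp).ne_zero)
        unfold ph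
        rw [div_mul_cancel₀ _ hp0, ← h1]
        rfl
      · simp only [hlt, hle]
        rw [hω₂, if_pos (hin k p hp), hΩ₂, if_pos (hin k p hp)]
        have h1 := M4_cnt U p (Ω₁ p) (fun c => ((y c : ℤ) : ZMod p)) y₁
        rw [← hΩ₁ k p hp, ← h1]
        rfl)
    a₂ H₂ (Sum.elim D D') (Sum.elim z z')
    (by rintro (k | k); exacts [hD k, hD' k]) (by rintro (k | k); exacts [hz1 k, hz1' k])
    (by
      rintro (k | k) p hp
      · exact hz k p hp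
      · exact hz' k p hp) η hη
    (fun c => by
      by_cases hc : U c
      · right
        rw [filter_true_of_mem (fun k _ => (hle c).2 hc), Fintype.prod_sum_type, hH₂, if_pos hc]
        exact hHU c hc
      · left
        have := (hlt c).2 hc
        omega)
  have e1 : Nat.card {x : κ → ℤ // (∀ c, U c → a c ≤ x c ∧ x c < a c + H c) ∧ (∀ c, ¬ U c → x c = y c) ∧
        (∀ k, ∀ p ∈ P k, (fun c => ((x c : ℤ) : ZMod p)) ∉ Ω p) ∧
        ∀ k, ∀ p ∈ P' k, (fun c => ((x c : ℤ) : ZMod p)) ∉ Ω₁ p} =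
      Nat.card {x : κ → ℤ // (∀ c, a₂ c ≤ x c ∧ x c < a₂ c + H₂ c) ∧
        ∀ k, ∀ p ∈ Sum.elim P P' k, (fun c => ((x c : ℤ) : ZMod p)) ∉ Ω₂ p} := by
    refine Nat.card_congr (Equiv.subtypeEquivRight fun x => ?_)
    have hx : (∀ c, ¬ U c → x c = y c) → ∀ p : ℕ,
        (fun c => if U c then ((x c : ℤ) : ZMod p) else ((y c : ℤ) : ZMod p)) =
          fun c => ((x c : ℤ) : ZMod p) := by
      intro h p
      funext c
      by_cases hc : U c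
      · rw [if_pos hc]
      · rw [if_neg hc, h c hc]
    have hbox : (∀ c, a₂ c ≤ x c ∧ x c < a₂ c + H₂ c) ↔
        (∀ c, U c → a c ≤ x c ∧ x c < a c + H c) ∧ ∀ c, ¬ U c → x c = y c := by
      constructor
      · intro h
        refine ⟨fun c hc => ?_, fun c hc => ?_⟩
        · have h1 := h c
          rw [ha₂, hH₂, if_pos hc, if_pos hc] at h1
          exact h1
        · have h1 := h c
          rw [ha₂, hH₂, if_neg hc, if_neg hc] at h1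
          push_cast at h1
          omega
      · rintro ⟨h1, h2⟩ c
        by_cases hc : U c
        · rw [ha₂, hH₂, if_pos hc, if_pos hc]
          exact h1 c hc
        · rw [ha₂, hH₂, if_neg hc, if_neg hc, h2 c hc]
          push_cast
          omega
    rw [hbox]
    constructor
    · rintro ⟨h1, h2, h3, h4⟩
      refine ⟨⟨h1, h2⟩, ?_⟩
      rintro (k | k) p hp
      · rw [hΩ₂, if_neg (hout k p hp), Set.mem_ofPred_eq, hx h2 p]
        exact h3 k p hp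
      · rw [hΩ₂, if_pos (hin k p hp), Set.mem_ofPred_eq, hx h2 p]
        exact h4 k p hp
    · rintro ⟨⟨h1, h2⟩, h3⟩
      refine ⟨h1, h2, fun k p hp => ?_, fun k p hp => ?_⟩
      · have h4 := h3 (Sum.inl k) p hp
        rw [hΩ₂, if_neg (hout k p hp), Set.mem_ofPred_eq, hx h2 p] at h4
        exact h4
      · have h4 := h3 (Sum.inr k) p hp
        rw [hΩ₂, if_pos (hin k p hp), Set.mem_ofPred_eq, hx h2 p] at h4
        exact h4
  rw [e1]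
  refine key.trans (le_of_eq ?_)
  have e2 : (∏ c, (H₂ c : ℝ)) = ∏ c ∈ univ.filter U, (H c : ℝ) := by
    rw [prod_filter]
    refine prod_congr rfl fun c _ => ?_
    rw [hH₂]
    by_cases hc : U c
    · rw [if_pos hc, if_pos hc]
    · rw [if_neg hc, if_neg hc, Nat.cast_one]
  have e3 : ∀ k, ∀ T ∈ (P k).powerset, ∏ p ∈ T, ω₂ p = ∏ p ∈ T, ph U Ω y p := fun k T hT =>
    prod_congr rfl fun p hp => by rw [hω₂, if_neg (hout k p (mem_powerset.1 hT hp))]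
  have e4 : ∀ k, ∀ T ∈ (P' k).powerset, ∏ p ∈ T, ω₂ p = ∏ p ∈ T, ω₁ p := fun k T hT =>
    prod_congr rfl fun p hp => by rw [hω₂, if_pos (hin k p (mem_powerset.1 hT hp))]
  rw [e2, Fintype.prod_sum_type, Fintype.prod_sum_type]
  simp only [Sum.elim_inl, Sum.elim_inr]
  have f1 : ∀ k, ∑ T ∈ (P k).powerset, cT (D k) (z k) T * ∏ p ∈ T, ω₂ p =
      ∑ T ∈ (P k).powerset, cT (D k) (z k) T * ∏ p ∈ T, ph U Ω y p := fun k =>
    sum_congr rfl fun T hT => by rw [e3 k T hT]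
  have f2 : ∀ k, ∑ T ∈ (P k).powerset, cU (D k) (z k) T * ∏ p ∈ T, ω₂ p =
      ∑ T ∈ (P k).powerset, cU (D k) (z k) T * ∏ p ∈ T, ph U Ω y p := fun k =>
    sum_congr rfl fun T hT => by rw [e3 k T hT]
  have f3 : ∀ k, ∑ T ∈ (P' k).powerset, cT (D' k) (z' k) T * ∏ p ∈ T, ω₂ p =
      ∑ T ∈ (P' k).powerset, cT (D' k) (z' k) T * ∏ p ∈ T, ω₁ p := fun k =>
    sum_congr rfl fun T hT => by rw [e4 k T hT]
  have f4 : ∀ k, ∑ T ∈ (P' k).powerset, cU (D' k) (z' k) T * ∏ p ∈ T, ω₂ p =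
      ∑ T ∈ (P' k).powerset, cU (D' k) (z' k) T * ∏ p ∈ T, ω₁ p := fun k =>
    sum_congr rfl fun T hT => by rw [e4 k T hT]
  rw [prod_congr rfl fun k _ => f1 k, prod_congr rfl fun k _ => f2 k, prod_congr rfl fun k _ => f3 k,
    prod_congr rfl fun k _ => f4 k]

private theorem M4_cU (D z : ℝ) (T : Finset ℕ) : 0 ≤ cU D z T ∧ cU D z T ≤ 1 := by
  unfold cU
  split_ifs <;> norm_num

private theorem M4_B0 (D z : ℝ) (P : Finset ℕ) (φ : ℕ → ℝ) (hφ : ∀ p ∈ P, 0 ≤ φ p) :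
    0 ≤ ∑ T ∈ P.powerset, cU D z T * ∏ p ∈ T, φ p :=
  sum_nonneg fun T hT => mul_nonneg (M4_cU D z T).1 (prod_nonneg fun p hp => hφ p (mem_powerset.1 hT hp))

private theorem M4_B1 (D z : ℝ) (P : Finset ℕ) (φ : ℕ → ℝ) (hφ : ∀ p ∈ P, 0 ≤ φ p) :
    ∑ T ∈ P.powerset, cU D z T * ∏ p ∈ T, φ p ≤ ∏ p ∈ P, (1 + φ p) := by
  rw [prod_one_add]
  refine sum_le_sum fun T hT => ?_
  exact mul_le_of_le_one_left (prod_nonneg fun p hp => hφ p (mem_powerset.1 hT hp)) (M4_cU D z T).2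

theorem multi2 {κ τ σ : Type} [Fintype κ] [DecidableEq κ] [Fintype τ] [DecidableEq τ] [Fintype σ] [DecidableEq σ]
    (P : τ → Finset ℕ) (P' : σ → Finset ℕ)
    (hP : ∀ k, ∀ p ∈ P k, p.Prime) (hP' : ∀ k, ∀ p ∈ P' k, p.Prime)
    (hdis : ∀ k k', k ≠ k' → Disjoint (P k) (P k')) (hdis' : ∀ k k', k ≠ k' → Disjoint (P' k) (P' k'))
    (hdd : ∀ k k', Disjoint (P k) (P' k')) (ℓ : τ → ℕ) (hℓ : ∀ k, 1 ≤ ℓ k)
    (lev : κ → ℕ) (Ω : (p : ℕ) → Set (κ → ZMod p)) (ω : ℕ → ℝ)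
    (hω : ∀ k, ∀ p ∈ P k, 0 ≤ ω p ∧ ω p ≤ 1)
    (hΩ : ∀ k : τ, ∀ p ∈ P k, ∀ y : κ → ZMod p,
      (Nat.card {w : κ → ZMod p // w ∈ Ω p ∧ ∀ c, lev c < ℓ k → w c = y c} : ℝ) =
        ω p * (p : ℝ) ^ (univ.filter fun c => ℓ k ≤ lev c).card)
    (U : κ → Prop) [DecidablePred U] (hU : ∀ c, U c → ∀ k, ℓ k ≤ lev c)
    (Ω' : (κ → ℤ) → (p : ℕ) → Set (κ → ZMod p)) (ω' : (κ → ℤ) → ℕ → ℝ) (Good : (κ → ℤ) → Prop)
    (hagree : ∀ x y : κ → ℤ, (∀ c, ¬ U c → x c = y c) → Ω' x = Ω' y ∧ ω' x = ω' y ∧ (Good x ↔ Good y))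
    (hω' : ∀ x, Good x → ∀ k, ∀ p ∈ P' k, 0 ≤ ω' x p ∧ ω' x p ≤ 1)
    (hΩ' : ∀ x, Good x → ∀ k, ∀ p ∈ P' k,
      (Nat.card {w : κ → ZMod p // w ∈ Ω' x p ∧ ∀ c, ¬ U c → w c = ((x c : ℤ) : ZMod p)} : ℝ) =
        ω' x p * (p : ℝ) ^ (univ.filter U).card)
    (a : κ → ℤ) (H : κ → ℕ) (D z : τ → ℝ) (hD : ∀ k, 1 ≤ D k) (hz1 : ∀ k, 1 ≤ z k) (hz : ∀ k, ∀ p ∈ P k, (p : ℝ) ≤ z k)
    (D' z' : σ → ℝ) (hD' : ∀ k, 1 ≤ D' k) (hz1' : ∀ k, 1 ≤ z' k) (hz' : ∀ k, ∀ p ∈ P' k, (p : ℝ) ≤ z' k)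
    (η : ℝ) (hη : 0 ≤ η)
    (hH : ∀ c, ¬ U c → lev c = 0 ∨ (∏ k ∈ univ.filter (fun k : τ => ℓ k ≤ lev c), (D k * z k)) ≤ η * H c)
    (hHU : ∀ c, U c → (∏ k, (D k * z k)) * ∏ k, (D' k * z' k) ≤ η * H c)
    (α β : ℝ) (hα0 : 0 ≤ α) (hβ0 : 0 ≤ β)
    (hα : ∀ x, Good x → (∀ c, ¬ U c → a c ≤ x c ∧ x c < a c + H c) →
      ∏ k, (∏ p ∈ P' k, (1 - ω' x p) + 2 * tl (D' k) (P' k) (ω' x)) ≤ α)
    (hβ : ∀ x, Good x → (∀ c, ¬ U c → a c ≤ x c ∧ x c < a c + H c) → ∏ k, ∏ p ∈ P' k, (1 + ω' x p) ≤ β) :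
    (Nat.card {x : κ → ℤ // (∀ c, a c ≤ x c ∧ x c < a c + H c) ∧ Good x ∧
        (∀ k, ∀ p ∈ P k, (fun c => ((x c : ℤ) : ZMod p)) ∉ Ω p) ∧
        ∀ k, ∀ p ∈ P' k, (fun c => ((x c : ℤ) : ZMod p)) ∉ Ω' x p} : ℝ) ≤
      (∏ c, (H c : ℝ)) * (α * ((∏ k, (∏ p ∈ P k, (1 - ω p) + 2 * tl (D k) (P k) ω)) +
        ((1 + η) ^ Fintype.card κ - 1) * ∏ k, ∏ p ∈ P k, (1 + ω p)) +
        ((1 + η) ^ Fintype.card κ - 1) * β * ((1 + ((1 + η) ^ Fintype.card κ - 1)) * ∏ k, ∏ p ∈ P k, (1 + ω p))) := by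
  classical
  obtain ⟨E, hE⟩ : ∃ E : ℝ, E = (1 + η) ^ Fintype.card κ - 1 := ⟨_, rfl⟩
  have hE0 : 0 ≤ E := by
    have : (1 : ℝ) ≤ (1 + η) ^ Fintype.card κ := one_le_pow₀ (by linarith)
    linarith
  obtain ⟨VU, hVU⟩ : ∃ VU : ℝ, VU = ∏ c ∈ univ.filter U, (H c : ℝ) := ⟨_, rfl⟩
  obtain ⟨VN, hVN⟩ : ∃ VN : ℝ, VN = ∏ c ∈ univ.filter (fun c => ¬ U c), (H c : ℝ) := ⟨_, rfl⟩
  have hVU0 : 0 ≤ VU := by
    rw [hVU]
    exact prod_nonneg fun c _ => Nat.cast_nonneg _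
  have hV : (∏ c, (H c : ℝ)) = VU * VN := by
    rw [hVU, hVN, prod_filter_mul_prod_filter_not]
  obtain ⟨A, hA⟩ : ∃ A : (κ → ℤ) → ℝ, ∀ y, A y =
      ∏ k, ∑ T ∈ (P k).powerset, cT (D k) (z k) T * ∏ p ∈ T, ph U Ω y p := ⟨_, fun _ => rfl⟩
  obtain ⟨B, hB⟩ : ∃ B : (κ → ℤ) → ℝ, ∀ y, B y =
      ∏ k, ∑ T ∈ (P k).powerset, cU (D k) (z k) T * ∏ p ∈ T, ph U Ω y p := ⟨_, fun _ => rfl⟩
  have hA0 : ∀ y, 0 ≤ A y := fun y => by
    rw [hA]
    exact prod_nonneg fun k _ => cT_nonneg (D k) (z k) (hD k) (P k)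
      (fun p hp => ⟨(hP k p hp).one_lt.le, hz k p hp⟩) _ fun p hp => M4_ph U Ω y p (hP k p hp)
  have hB0 : ∀ y, 0 ≤ B y := fun y => by
    rw [hB]
    exact prod_nonneg fun k _ => M4_B0 (D k) (z k) (P k) _ fun p hp => (M4_ph U Ω y p (hP k p hp)).1
  obtain ⟨AB1, AB2⟩ := avg_AB P hP hdis ℓ hℓ lev Ω ω hω hΩ U hU a H D z hD hz1 hz η hη hH
  simp only [← hA, ← hB, ← hE, ← hVN] at AB1 AB2
  rw [← hE]
  -- the count as a sum over the fibres
  obtain ⟨π, hπ⟩ : ∃ π : (κ → ℤ) → κ → ℤ, ∀ x c, π x c = if U c then 0 else x c :=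
    ⟨_, fun _ _ => rfl⟩
  obtain ⟨F, hF⟩ : ∃ F : Finset (κ → ℤ), ∀ x, x ∈ F ↔ (∀ c, a c ≤ x c ∧ x c < a c + H c) ∧ Good x ∧
        (∀ k, ∀ p ∈ P k, (fun c => ((x c : ℤ) : ZMod p)) ∉ Ω p) ∧
        ∀ k, ∀ p ∈ P' k, (fun c => ((x c : ℤ) : ZMod p)) ∉ Ω' x p := by
    refine ⟨(Fintype.piFinset fun c => Ico (a c) (a c + H c)).filter fun x => Good x ∧
        (∀ k, ∀ p ∈ P k, (fun c => ((x c : ℤ) : ZMod p)) ∉ Ω p) ∧
        ∀ k, ∀ p ∈ P' k, (fun c => ((x c : ℤ) : ZMod p)) ∉ Ω' x p, fun x => ?_⟩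
    rw [mem_filter, Fintype.mem_piFinset]
    simp only [mem_Ico]
  have hcard : Nat.card {x : κ → ℤ // (∀ c, a c ≤ x c ∧ x c < a c + H c) ∧ Good x ∧
        (∀ k, ∀ p ∈ P k, (fun c => ((x c : ℤ) : ZMod p)) ∉ Ω p) ∧
        ∀ k, ∀ p ∈ P' k, (fun c => ((x c : ℤ) : ZMod p)) ∉ Ω' x p} = F.card :=
    Nat.subtype_card F hF
  have hmem : ∀ y, y ∈ bx0 U a H ↔ ∀ c, (U c → y c = 0) ∧ (¬ U c → a c ≤ y c ∧ y c < a c + H c) := by
    intro y
    unfold bx0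
    rw [Fintype.mem_piFinset]
    refine forall_congr' fun c => ?_
    by_cases hc : U c
    · rw [if_pos hc, mem_singleton]
      exact ⟨fun h => ⟨fun _ => h, fun h' => absurd hc h'⟩, fun h => h.1 hc⟩
    · rw [if_neg hc, mem_Ico]
      exact ⟨fun h => ⟨fun h' => absurd h' hc, fun _ => h⟩, fun h => h.2 hc⟩
  have hmaps : ∀ x ∈ F, π x ∈ bx0 U a H := by
    intro x hx
    rw [hmem]
    intro c
    refine ⟨fun hc => by rw [hπ, if_pos hc], fun hc => ?_⟩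
    rw [hπ, if_neg hc]
    exact ((hF x).1 hx).1 c
  have hfib : F.card = ∑ y ∈ bx0 U a H, (F.filter fun x => π x = y).card :=
    card_eq_sum_card_fiberwise hmaps
  have hy : ∀ y ∈ bx0 U a H, ((F.filter fun x => π x = y).card : ℝ) ≤
      VU * (α * A y + E * β * B y) := by
    intro y hyb
    have hnn : 0 ≤ VU * (α * A y + E * β * B y) :=
      mul_nonneg hVU0 (add_nonneg (mul_nonneg hα0 (hA0 y)) (mul_nonneg (mul_nonneg hE0 hβ0) (hB0 y)))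
    have hybox : ∀ c, ¬ U c → a c ≤ y c ∧ y c < a c + H c := fun c hc => ((hmem y).1 hyb c).2 hc
    by_cases hg : Good y
    · have e1 : Nat.card {x : κ → ℤ // (∀ c, U c → a c ≤ x c ∧ x c < a c + H c) ∧
          (∀ c, ¬ U c → x c = y c) ∧
          (∀ k, ∀ p ∈ P k, (fun c => ((x c : ℤ) : ZMod p)) ∉ Ω p) ∧
          ∀ k, ∀ p ∈ P' k, (fun c => ((x c : ℤ) : ZMod p)) ∉ Ω' y p} =
          (F.filter fun x => π x = y).card := by
        refine Nat.subtype_card _ fun x => ?_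
        rw [mem_filter, hF]
        constructor
        · rintro ⟨⟨h1, h2, h3, h4⟩, h5⟩
          have hxy : ∀ c, ¬ U c → x c = y c := fun c hc => by
            rw [← h5, hπ, if_neg hc]
          obtain ⟨g1, g2, g3⟩ := hagree x y hxy
          refine ⟨fun c _ => h1 c, hxy, h3, ?_⟩
          rw [← g1]
          exact h4
        · rintro ⟨h1, hxy, h3, h4⟩
          obtain ⟨g1, g2, g3⟩ := hagree x y hxy
          refine ⟨⟨fun c => ?_, g3.2 hg, h3, ?_⟩, ?_⟩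
          · by_cases hc : U c
            · exact h1 c hc
            · rw [hxy c hc]
              exact hybox c hc
          · rw [g1]
            exact h4
          · funext c
            rw [hπ]
            by_cases hc : U c
            · rw [if_pos hc, ((hmem y).1 hyb c).1 hc]
            · rw [if_neg hc, hxy c hc]
      have h1 := M4_fib P P' hP hP' hdis hdis' hdd Ω U (Ω' y) (ω' y) y (hω' y hg) (hΩ' y hg) a H D z hD
        hz1 hz D' z' hD' hz1' hz' η hη hHU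
      rw [e1, ← hA, ← hB, ← hE, ← hVU] at h1
      refine h1.trans (mul_le_mul_of_nonneg_left ?_ hVU0)
      have hA' : (∏ k, ∑ T ∈ (P' k).powerset, cT (D' k) (z' k) T * ∏ p ∈ T, ω' y p) ≤ α := by
        refine (le_abs_self _).trans ?_
        rw [abs_prod]
        refine (prod_le_prod (fun k _ => abs_nonneg _) fun k _ =>
          main_term (D' k) (z' k) (P' k) (ω' y) (hω' y hg k)).trans ?_
        exact hα y hg hybox
      have hB' : (∏ k, ∑ T ∈ (P' k).powerset, cU (D' k) (z' k) T * ∏ p ∈ T, ω' y p) ≤ β :=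
        (prod_le_prod (fun k _ => M4_B0 (D' k) (z' k) (P' k) _ fun p hp => (hω' y hg k p hp).1)
          fun k _ => M4_B1 (D' k) (z' k) (P' k) _ fun p hp => (hω' y hg k p hp).1).trans
          (hβ y hg hybox)
      have h2 := mul_le_mul_of_nonneg_left hA' (hA0 y)
      have h3 := mul_le_mul_of_nonneg_left (mul_le_mul_of_nonneg_left hB' (hB0 y)) hE0
      calc A y * (∏ k, ∑ T ∈ (P' k).powerset, cT (D' k) (z' k) T * ∏ p ∈ T, ω' y p) +
            E * (B y * ∏ k, ∑ T ∈ (P' k).powerset, cU (D' k) (z' k) T * ∏ p ∈ T, ω' y p)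
          ≤ A y * α + E * (B y * β) := add_le_add h2 h3
        _ = α * A y + E * β * B y := by ring
    · have e1 : (F.filter fun x => π x = y) = ∅ := by
        rw [filter_eq_empty_iff]
        intro x hx h5
        have hxy : ∀ c, ¬ U c → x c = y c := fun c hc => by
          rw [← h5, hπ, if_neg hc]
        exact hg ((hagree x y hxy).2.2.1 ((hF x).1 hx).2.1)
      rw [e1, card_empty, Nat.cast_zero]
      exact hnn
  rw [hcard, hfib, Nat.cast_sum, hV]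
  refine (sum_le_sum hy).trans ?_
  rw [← mul_sum, sum_add_distrib, ← mul_sum, ← mul_sum, mul_assoc VU VN]
  refine mul_le_mul_of_nonneg_left ?_ hVU0
  have h1 := mul_le_mul_of_nonneg_left AB1 hα0
  have h2 := mul_le_mul_of_nonneg_left AB2 (mul_nonneg hE0 hβ0)
  refine (add_le_add h1 h2).trans (le_of_eq ?_)
  ring

end QV
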