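import Pool.Agent.Lib.MP_10e784_agQV.S2

/-! JOB T3.  The sum over the pair layers with a large third coordinate.
Let `2 ^ (∑ j) ≤ N`, so `j i ≤ 2 log N`.  For a `j` in the sum choose `r, s, k`.  `j s ≥ j k ≥ (log N) ^ ε ≥ L1` for large `N`, and `(j s) ^ (ε / 2) ≤ (2 log N) ^ (ε / 2) ≤ (log N) ^ ε ≤ j k` for large `N`; `sv_pair` with `ε / 2` (`min (ε / 2) 1`) gives `card (SS j) ≤ C' 2 ^ (∑ j) ∏_{i ≠ r} (1 + j i) ^ (-1) (1 + (log N) ^ ε) ^ (-c)`.
The sum over all `j` with `2 ^ (∑ j) ≤ N`, for fixed `r`, of `2 ^ (∑ j) ∏_{i ≠ r} (1 + j i) ^ (-1)`: the sum over `j r` of `2 ^ (∑ j)` is at most `2 N` (geometric; or `TW.avg_le` in MP_10e784_ag/TW/TWSum.lean), the others give `(∑_{m ≤ 2 log N} 1 / (1 + m)) ^ (card ι - 1) ≤ (1 + log (1 + 2 log N)) ^ (card ι)`.  So the quotient is at most `C (1 + log (1 + 2 log N)) ^ (card ι) (log N) ^ (-ε c)`, which tends to zero. -/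

set_option autoImplicit false

namespace QV

open Finset Polynomial TW TR Filter

private theorem T3_box {ι : Type} [Fintype ι] [DecidableEq ι] (r : ι) (N : ℕ) (hN : 0 < N) (F : Finset (ι → ℕ))
    (hF : ∀ j ∈ F, 2 ^ (∑ i, j i) ≤ N) :
    ∑ j ∈ F, (2 : ℝ) ^ (∑ i, j i) * (∏ i ∈ univ.erase r, ((1 + j i : ℝ)) ^ (-1 : ℝ)) ≤
      2 * N * (∑ m ∈ range (Nat.log 2 N + 1), ((1 + m : ℝ)) ^ (-1 : ℝ)) ^ Fintype.card ι := by
  obtain ⟨R, hR⟩ : ∃ R : ℕ, R = Nat.log 2 N := ⟨_, rfl⟩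
  obtain ⟨G, hG⟩ : ∃ G : ℕ × (ι → ℕ) → ℝ, ∀ p, G p = (2 : ℝ) ^ p.1 * ∏ i, ((1 + p.2 i : ℝ)) ^ (-1 : ℝ) := ⟨_, fun _ => rfl⟩
  obtain ⟨e, he⟩ : ∃ e : (ι → ℕ) → ℕ × (ι → ℕ), ∀ j, e j = (∑ i, j i, Function.update j r 0) := ⟨_, fun _ => rfl⟩
  have hG0 : ∀ p, 0 ≤ G p := by
    intro p
    rw [hG]
    exact mul_nonneg (by positivity) (prod_nonneg fun i _ => Real.rpow_nonneg (by positivity) _)
  have hinj : Set.InjOn e F := by
    intro j _ j' _ h
    rw [he, he, Prod.mk.injEq] at h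
    obtain ⟨h1, h2⟩ := h
    have h3 : ∀ i, i ≠ r → j i = j' i := by
      intro i hi
      have h4 := congrFun h2 i
      rwa [Function.update_of_ne hi, Function.update_of_ne hi] at h4
    funext i
    by_cases hi : i = r
    · subst hi
      have h5 := add_sum_erase univ j (mem_univ i)
      have h6 := add_sum_erase univ j' (mem_univ i)
      have h7 : ∑ x ∈ univ.erase i, j x = ∑ x ∈ univ.erase i, j' x :=
        sum_congr rfl fun x hx => h3 x (ne_of_mem_erase hx)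
      omega
    · exact h3 i hi
  have hterm : ∀ j ∈ F, (2 : ℝ) ^ (∑ i, j i) * (∏ i ∈ univ.erase r, ((1 + j i : ℝ)) ^ (-1 : ℝ)) = G (e j) := by
    intro j _
    rw [hG, he]
    have h1 : ∏ i, ((1 + (Function.update j r 0 i : ℕ) : ℝ)) ^ (-1 : ℝ) =
        ∏ i ∈ univ.erase r, ((1 + j i : ℝ)) ^ (-1 : ℝ) := by
      rw [← mul_prod_erase univ _ (mem_univ r), Function.update_self, Nat.cast_zero, add_zero, Real.one_rpow, one_mul]
      refine prod_congr rfl fun i hi => ?_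
      rw [Function.update_of_ne (ne_of_mem_erase hi)]
    rw [h1]
  have hsub : F.image e ⊆ range (R + 1) ×ˢ (Fintype.piFinset fun _ : ι => range (R + 1)) := by
    intro p hp
    obtain ⟨j, hj, rfl⟩ := mem_image.1 hp
    have h1 : ∑ i, j i ≤ R := by
      rw [hR]
      exact Nat.le_log_of_pow_le (by norm_num) (hF j hj)
    rw [he, mem_product, Fintype.mem_piFinset, mem_range]
    refine ⟨Nat.lt_succ_of_le h1, fun i => ?_⟩
    rw [mem_range]
    have h2 : j i ≤ ∑ i, j i := single_le_sum (fun _ _ => Nat.zero_le _) (mem_univ i)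
    by_cases hi : i = r
    · subst hi
      show Function.update j i 0 i < R + 1
      rw [Function.update_self]
      omega
    · show Function.update j r 0 i < R + 1
      rw [Function.update_of_ne hi]
      omega
  have hgeo : ∑ t ∈ range (R + 1), (2 : ℝ) ^ t ≤ 2 * N := by
    have h1 : ∑ t ∈ range (R + 1), 2 ^ t < 2 ^ (R + 1) :=
      Nat.geomSum_lt le_rfl fun k hk => mem_range.1 hk
    have h2 : 2 ^ R ≤ N := by
      rw [hR]
      exact Nat.pow_log_le_self 2 hN.ne'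
    rw [pow_succ] at h1
    have h3 : ∑ t ∈ range (R + 1), 2 ^ t ≤ 2 * N := by omega
    exact_mod_cast h3
  rw [← hR]
  calc ∑ j ∈ F, (2 : ℝ) ^ (∑ i, j i) * (∏ i ∈ univ.erase r, ((1 + j i : ℝ)) ^ (-1 : ℝ))
      = ∑ j ∈ F, G (e j) := sum_congr rfl hterm
    _ = ∑ p ∈ F.image e, G p := (sum_image hinj).symm
    _ ≤ ∑ p ∈ range (R + 1) ×ˢ (Fintype.piFinset fun _ : ι => range (R + 1)), G p :=
        sum_le_sum_of_subset_of_nonneg hsub fun p _ _ => hG0 p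
    _ = (∑ t ∈ range (R + 1), (2 : ℝ) ^ t) * ∑ q ∈ Fintype.piFinset fun _ : ι => range (R + 1),
          ∏ i, ((1 + q i : ℝ)) ^ (-1 : ℝ) := by
        rw [sum_product, sum_mul]
        refine sum_congr rfl fun t _ => ?_
        rw [mul_sum]
        exact sum_congr rfl fun q _ => hG _
    _ = (∑ t ∈ range (R + 1), (2 : ℝ) ^ t) * (∑ m ∈ range (R + 1), ((1 + m : ℝ)) ^ (-1 : ℝ)) ^ Fintype.card ι := by
        rw [← Finset.prod_univ_sum (fun _ : ι => range (R + 1)) fun _ m => ((1 + m : ℝ)) ^ (-1 : ℝ), prod_const,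
          card_univ]
    _ ≤ 2 * N * (∑ m ∈ range (R + 1), ((1 + m : ℝ)) ^ (-1 : ℝ)) ^ Fintype.card ι :=
        mul_le_mul_of_nonneg_right hgeo (pow_nonneg (sum_nonneg fun m _ => Real.rpow_nonneg (by positivity) _) _)

private theorem T3_harm (n : ℕ) : ∑ m ∈ range n, ((1 + m : ℝ)) ^ (-1 : ℝ) ≤ 1 + Real.log n := by
  have h1 : ∑ m ∈ range n, ((1 + m : ℝ)) ^ (-1 : ℝ) = ((harmonic n : ℚ) : ℝ) := by
    rw [harmonic]
    push_cast
    refine sum_congr rfl fun m _ => ?_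
    rw [Real.rpow_neg_one, add_comm]
  rw [h1]
  exact harmonic_le_one_add_log n

private theorem T3_log {N s : ℕ} (h : 2 ^ s ≤ N) : (s : ℝ) ≤ 2 * Real.log N := by
  have h1 : (2 : ℝ) ^ s ≤ N := by exact_mod_cast h
  have h2 : Real.log ((2 : ℝ) ^ s) ≤ Real.log N := Real.log_le_log (by positivity) h1
  rw [Real.log_pow] at h2
  have h3 : (0.6931471803 : ℝ) < Real.log 2 := Real.log_two_gt_d9
  have h4 : (0 : ℝ) ≤ s := Nat.cast_nonneg s
  nlinarith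

private theorem T3_lim (c0 : ℝ) (hc0 : 0 < c0) (d K : ℝ) :
    Tendsto (fun N : ℕ => K * (Real.log (1 + 2 * Real.log N) ^ d / (1 + 2 * Real.log N) ^ c0)) atTop (nhds 0) := by
  have h1 : Tendsto (fun y : ℝ => Real.log y ^ d / y ^ c0) atTop (nhds 0) :=
    (isLittleO_log_rpow_rpow_atTop d hc0).tendsto_div_nhds_zero
  have h2 : Tendsto (fun N : ℕ => 1 + 2 * Real.log N) atTop atTop := by
    refine tendsto_atTop_add_const_left _ _ ?_
    exact (Real.tendsto_log_atTop.comp tendsto_natCast_atTop_atTop).const_mul_atTop (by norm_num)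
  have h3 := (h1.comp h2).const_mul K
  rw [mul_zero] at h3
  exact h3

open Classical in
theorem lim_pair {ι : Type} [Fintype ι] [DecidableEq ι] {g : ι → ℤ[X]} (hg : TR.Fam g) (M : ℕ) (hM : M ≠ 0) (C : ℝ) (hC : 1 ≤ C)
    (ε : ℝ) (hε : 0 < ε) :
    Tendsto (fun N : ℕ => (∑ j ∈ ((Fintype.piFinset fun _ : ι => range (N + 1)).filter (fun j => 2 ^ (∑ i, j i) ≤ N)).filter
      (fun j => ∃ r s k, r ≠ s ∧ (g r).natDegree = 1 ∧ (g s).natDegree = 1 ∧ (∀ i, i ≠ r → i ≠ s → j i ≤ j s) ∧ j s ≤ j r ∧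
        k ≠ r ∧ k ≠ s ∧ Real.log N ^ ε ≤ (j k : ℝ)), (Nat.card (SS g M C j) : ℝ)) / N) atTop (nhds 0) := by
  obtain ⟨c, C', L1, hc, hC', hsv⟩ := sv_pair hg M hM C hC (min (ε / 2) 1) (lt_min (by linarith) one_pos) (min_le_right _ _)
  have hc0 : 0 < ε * c := mul_pos hε hc
  have hlogT : Tendsto (fun N : ℕ => Real.log N) atTop atTop := Real.tendsto_log_atTop.comp tendsto_natCast_atTop_atTop
  have hev1 : ∀ᶠ N : ℕ in atTop, (2 : ℝ) ≤ Real.log N := hlogT.eventually_ge_atTop 2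
  have hev2 : ∀ᶠ N : ℕ in atTop, (max (L1 : ℝ) 1) ≤ Real.log N ^ ε :=
    ((tendsto_rpow_atTop hε).comp hlogT).eventually_ge_atTop _
  refine squeeze_zero' (Eventually.of_forall fun N => div_nonneg (sum_nonneg fun _ _ => Nat.cast_nonneg _) (Nat.cast_nonneg _))
    ?_ (T3_lim (ε * c) hc0 (Fintype.card ι) (Fintype.card ι * C' * 2 * (2 ^ Fintype.card ι) * 3 ^ (ε * c)))
  filter_upwards [hev1, hev2, eventually_gt_atTop 0] with N hN2 hNL hN0
  have hNpos : (0 : ℝ) < N := by exact_mod_cast hN0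
  rw [div_le_iff₀ hNpos]
  obtain ⟨x, hx⟩ : ∃ x : ℝ, x = Real.log N := ⟨_, rfl⟩
  obtain ⟨y, hy⟩ : ∃ y : ℝ, y = 1 + 2 * Real.log N := ⟨_, rfl⟩
  have hx0 : 0 < x := by linarith
  have hy5 : 5 ≤ y := by linarith
  have hy0 : 0 < y := by linarith
  have hlogy : 1 ≤ Real.log y := by
    rw [Real.le_log_iff_exp_le hy0]
    have := Real.exp_one_lt_d9
    linarith
  -- the bound for one `j`
  obtain ⟨F, hF⟩ : ∃ F : Finset (ι → ℕ), F = ((Fintype.piFinset fun _ : ι => range (N + 1)).filter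
    (fun j => 2 ^ (∑ i, j i) ≤ N)) := ⟨_, rfl⟩
  have hF2 : ∀ j ∈ F, 2 ^ (∑ i, j i) ≤ N := by
    intro j hj
    rw [hF] at hj
    exact (mem_filter.1 hj).2
  rw [← hF, ← hy]
  have hone : ∀ j ∈ F.filter (fun j => ∃ r s k, r ≠ s ∧ (g r).natDegree = 1 ∧ (g s).natDegree = 1 ∧
      (∀ i, i ≠ r → i ≠ s → j i ≤ j s) ∧ j s ≤ j r ∧ k ≠ r ∧ k ≠ s ∧ Real.log N ^ ε ≤ (j k : ℝ)),
      (Nat.card (SS g M C j) : ℝ) ≤ ∑ r, C' * (3 ^ (ε * c) / y ^ (ε * c)) *
        ((2 : ℝ) ^ (∑ i, j i) * (∏ i ∈ univ.erase r, ((1 + j i : ℝ)) ^ (-1 : ℝ))) := by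
    intro j hj
    obtain ⟨hjF, r, s, k, hrs, hr1, hs1, hmax, hsr, hkr, hks, hjk⟩ := mem_filter.1 hj
    have h1 : j k ≤ j s := hmax k hkr hks
    have h1' : (j k : ℝ) ≤ j s := by exact_mod_cast h1
    have h2 : j s ≤ ∑ i, j i := single_le_sum (fun _ _ => Nat.zero_le _) (mem_univ s)
    have h3 : (j s : ℝ) ≤ 2 * Real.log N := T3_log ((Nat.pow_le_pow_right (by norm_num) h2).trans (hF2 j hjF))
    have h4 : L1 ≤ j s := by
      have : (L1 : ℝ) ≤ j s := (le_max_left _ _).trans (hNL.trans (hjk.trans h1'))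
      exact_mod_cast this
    have h5 : (1 : ℝ) ≤ j s := (le_max_right _ _).trans (hNL.trans (hjk.trans h1'))
    have h6 : (j s : ℝ) ^ (min (ε / 2) 1) ≤ j k := by
      calc (j s : ℝ) ^ (min (ε / 2) 1) ≤ (j s : ℝ) ^ (ε / 2) := Real.rpow_le_rpow_of_exponent_le h5 (min_le_left _ _)
        _ ≤ (Real.log N ^ (2 : ℝ)) ^ (ε / 2) := by
            refine Real.rpow_le_rpow (by linarith) ?_ (by linarith)
            rw [Real.rpow_two]
            nlinarith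
        _ = Real.log N ^ ε := by
            rw [← Real.rpow_mul (by linarith)]
            congr 1
            ring
        _ ≤ j k := hjk
    have h7 := hsv j r s k hrs hr1 hs1 hmax hsr h4 hkr hks h6
    have h8 : (1 + j s : ℝ) ^ (-c) ≤ 3 ^ (ε * c) / y ^ (ε * c) := by
      have h9 : (1 + j s : ℝ) ^ (-c) ≤ (Real.log N ^ ε) ^ (-c) := by
        refine Real.rpow_le_rpow_of_nonpos ?_ ?_ (by linarith)
        · exact Real.rpow_pos_of_pos (by linarith) _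
        · linarith
      refine h9.trans ?_
      rw [← Real.rpow_mul (by linarith), ← Real.div_rpow (by norm_num) hy0.le, show ε * -c = -(ε * c) by ring,
        Real.rpow_neg (by linarith), ← Real.inv_rpow (by linarith)]
      refine Real.rpow_le_rpow (by rw [← hx]; positivity) ?_ hc0.le
      rw [← hx, inv_eq_one_div, div_le_div_iff₀ hx0 hy0]
      linarith
    have h10 : 0 ≤ (2 : ℝ) ^ (∑ i, j i) * (∏ i ∈ univ.erase r, ((1 + j i : ℝ)) ^ (-1 : ℝ)) :=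
      mul_nonneg (by positivity) (prod_nonneg fun i _ => Real.rpow_nonneg (by positivity) _)
    have h11 : 0 ≤ (3 : ℝ) ^ (ε * c) / y ^ (ε * c) := by positivity
    calc (Nat.card (SS g M C j) : ℝ) ≤ C' * 2 ^ (∑ i, j i) * (∏ i ∈ univ.erase r, ((1 + j i : ℝ)) ^ (-1 : ℝ)) *
          (1 + j s : ℝ) ^ (-c) := h7
      _ = C' * (1 + j s : ℝ) ^ (-c) * (2 ^ (∑ i, j i) * (∏ i ∈ univ.erase r, ((1 + j i : ℝ)) ^ (-1 : ℝ))) := by ring
      _ ≤ C' * (3 ^ (ε * c) / y ^ (ε * c)) * (2 ^ (∑ i, j i) * (∏ i ∈ univ.erase r, ((1 + j i : ℝ)) ^ (-1 : ℝ))) :=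
          mul_le_mul_of_nonneg_right (mul_le_mul_of_nonneg_left h8 hC'.le) h10
      _ ≤ _ := by
          refine single_le_sum (f := fun r => C' * (3 ^ (ε * c) / y ^ (ε * c)) *
            ((2 : ℝ) ^ (∑ i, j i) * (∏ i ∈ univ.erase r, ((1 + j i : ℝ)) ^ (-1 : ℝ)))) (fun r' _ => ?_) (mem_univ r)
          exact mul_nonneg (mul_nonneg hC'.le h11)
            (mul_nonneg (by positivity) (prod_nonneg fun i _ => Real.rpow_nonneg (by positivity) _))
  have hH : (∑ m ∈ range (Nat.log 2 N + 1), ((1 + m : ℝ)) ^ (-1 : ℝ)) ≤ 2 * Real.log y := by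
    have h1 := T3_harm (Nat.log 2 N + 1)
    have h2 : ((Nat.log 2 N + 1 : ℕ) : ℝ) ≤ y := by
      have h3 := T3_log (Nat.pow_log_le_self 2 hN0.ne')
      push_cast
      linarith
    have h4 : Real.log ((Nat.log 2 N + 1 : ℕ) : ℝ) ≤ Real.log y := Real.log_le_log (by positivity) h2
    linarith
  have hH0 : 0 ≤ ∑ m ∈ range (Nat.log 2 N + 1), ((1 + m : ℝ)) ^ (-1 : ℝ) :=
    sum_nonneg fun m _ => Real.rpow_nonneg (by positivity) _
  have h11 : 0 ≤ (3 : ℝ) ^ (ε * c) / y ^ (ε * c) := by positivity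
  calc _ ≤ ∑ j ∈ F.filter (fun j => ∃ r s k, r ≠ s ∧ (g r).natDegree = 1 ∧ (g s).natDegree = 1 ∧
      (∀ i, i ≠ r → i ≠ s → j i ≤ j s) ∧ j s ≤ j r ∧ k ≠ r ∧ k ≠ s ∧ Real.log N ^ ε ≤ (j k : ℝ)),
        ∑ r, C' * (3 ^ (ε * c) / y ^ (ε * c)) *
        ((2 : ℝ) ^ (∑ i, j i) * (∏ i ∈ univ.erase r, ((1 + j i : ℝ)) ^ (-1 : ℝ))) := sum_le_sum hone
    _ = ∑ r, C' * (3 ^ (ε * c) / y ^ (ε * c)) * ∑ j ∈ F.filter (fun j => ∃ r s k, r ≠ s ∧ (g r).natDegree = 1 ∧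
      (g s).natDegree = 1 ∧ (∀ i, i ≠ r → i ≠ s → j i ≤ j s) ∧ j s ≤ j r ∧ k ≠ r ∧ k ≠ s ∧ Real.log N ^ ε ≤ (j k : ℝ)),
        ((2 : ℝ) ^ (∑ i, j i) * (∏ i ∈ univ.erase r, ((1 + j i : ℝ)) ^ (-1 : ℝ))) := by
        rw [sum_comm]
        exact sum_congr rfl fun r _ => (mul_sum _ _ _).symm
    _ ≤ ∑ _r : ι, C' * (3 ^ (ε * c) / y ^ (ε * c)) * (2 * N * (2 * Real.log y) ^ Fintype.card ι) := by
        refine sum_le_sum fun r _ => mul_le_mul_of_nonneg_left ?_ (mul_nonneg hC'.le h11)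
        refine (T3_box r N hN0 _ fun j hj => hF2 j (mem_filter.1 hj).1).trans ?_
        exact mul_le_mul_of_nonneg_left (pow_le_pow_left₀ hH0 hH _) (by positivity)
    _ = _ := by
        rw [sum_const, card_univ, nsmul_eq_mul, mul_pow, Real.rpow_natCast]
        ring

end QV
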