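import Pool.Agent.Lib.MP_10e784_agQV.MB
import Pool.Agent.Lib.MP_10e784_agQV.N3
import Pool.Agent.Lib.MP_10e784_agQV.T3
import Pool.Agent.Lib.MP_10e784_agQV.F1
import Pool.Agent.Lib.MP_10e784_agTR.TWMain

/-! JOB MA.  The main theorem for families of total degree at least eight.
MODEL: `TR.main_TR` (file MP_10e784_agTR/TWMain.lean; copy its private lemmas `main_box`, `main_mem`, `main_inj` for the data of `desc5`).
`C₀, M` from `desc5`.  Let `η > 0`.  For every `D` in the set choose the data of `desc5`, `j i = Nat.log 2 (e i)`, so `x ∈ SS g M (2 C₀) j`, `j ∈ JJ ι N`.  Every `D` lies in one of four classes: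
(A) `¬ Pr g j`: the map `D ↦ (g0, x)` is injective into `Icc (-M) M × ⋃_{j, ¬ Pr g j} SS j`; `lim_np`.
Otherwise `Pr g j` with `r, s`; exchange them such that `j s ≤ j r`.  Let `d = ∏_{k ≠ r, s} e k`, and `Q0` the maximum over the pairs `(r, s)` of linear indices of the `Q0` of `mid_pair` for `η' = η / (4 (card ι) ^ 2)`.
(B1) `d ≤ Q0`: finitely many `D` (`pair_fin`, union over the pairs): the number is at most a constant `F`, `F / N → 0`.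
(B2) `Q0 < d ≤ exp ((log N) ^ (1/16))`: `mid_pair` (`Q1 = Q0`), sum over the pairs `≤ (η / 4) N`.
(B3) `d > exp ((log N) ^ (1/16))`: `d ≤ ∏ 2 ^ (j k + 1)`, so `∑_{k ≠ r, s} (j k + 1) ≥ (log N) ^ (1/16)`, and some `k ≠ r, s` has `j k + 1 ≥ (log N) ^ (1/16) / card ι`, so `j k ≥ (log N) ^ (1/32)` for large `N`: `j` lies in the index set of `lim_pair` with `ε = 1/32`; the map `D ↦ (g0, x)` is injective as in (A).
So for large `N` the quotient is at most `η`; `Metric.tendsto_atTop` or `tendsto_order`. -/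

set_option autoImplicit false

namespace QV

open Finset Polynomial TW TR Filter

/-- one class of twists, with its data -/
private def MA_Dat {ι : Type} [Fintype ι] (g : ι → ℤ[X]) (C₀ : ℝ) (M : ℕ) (D : ℤ) (u v : ℤ)
    (g0 : ℤ) (e : ι → ℕ) (x : Co g → ℤ) : Prop :=
  g0.natAbs ∣ M ∧ D = g0 * ∏ i, (e i : ℤ) ∧ Squarefree (∏ i, e i) ∧
    (∀ p : ℕ, p.Prime → p ∣ ∏ i, e i → ¬ p ∣ M) ∧
    (∀ c : Co g, |(x c : ℝ)| ≤ C₀ * (e c.1 : ℝ) ^ ((1 : ℝ) / (g c.1).natDegree)) ∧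
    Loc g M x ∧
    (∀ p : ℕ, p.Prime → ¬ p ∣ M → ∀ i, (p ∣ e i ↔ ∃ h : (ZMod p)[X], h.Monic ∧ Irreducible h ∧ h ∣ red p (g i) ∧
      h ∣ pol g (fun c => (x c : ZMod p)) i)) ∧
    (∀ i, ∃ κ : ℚ[X], ¬ qq (g i) ∣ κ ∧
      qq (g i) ∣ pol g (fun c => (x c : ℚ)) i - (C (u : ℚ) - C (v : ℚ) * X) * κ ^ 2)

private theorem MA_box {n : ℕ} (hn : 1 ≤ n) {C₀ : ℝ} (hC : 1 ≤ C₀) {e : ℕ} {y : ℝ}
    (h : y ≤ C₀ * (e : ℝ) ^ ((1 : ℝ) / n)) :
    y ≤ 2 * C₀ * (2 : ℝ) ^ (((Nat.log 2 e : ℕ) : ℝ) / (n : ℝ)) := by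
  have hn' : (1 : ℝ) ≤ n := by exact_mod_cast hn
  have h1 : (e : ℝ) ≤ (2 : ℝ) ^ (((Nat.log 2 e : ℕ) : ℝ) + 1) := by
    have h2 : e < 2 ^ (Nat.log 2 e + 1) := Nat.lt_pow_succ_log_self (by norm_num) e
    have h3 : (e : ℝ) < (2 : ℝ) ^ (Nat.log 2 e + 1) := by exact_mod_cast h2
    have h4 : (2 : ℝ) ^ (((Nat.log 2 e : ℕ) : ℝ) + 1) = (2 : ℝ) ^ (Nat.log 2 e + 1) := by
      rw [← Real.rpow_natCast]
      push_cast
      rfl
    rw [h4]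
    exact h3.le
  have h5 : (e : ℝ) ^ ((1 : ℝ) / n) ≤ 2 * (2 : ℝ) ^ (((Nat.log 2 e : ℕ) : ℝ) / (n : ℝ)) := by
    have h0 : (0 : ℝ) ≤ (1 : ℝ) / n := by positivity
    calc (e : ℝ) ^ ((1 : ℝ) / n) ≤ ((2 : ℝ) ^ (((Nat.log 2 e : ℕ) : ℝ) + 1)) ^ ((1 : ℝ) / n) :=
          Real.rpow_le_rpow (Nat.cast_nonneg _) h1 h0
      _ = (2 : ℝ) ^ ((1 : ℝ) / n) * (2 : ℝ) ^ (((Nat.log 2 e : ℕ) : ℝ) / (n : ℝ)) := by
          rw [← Real.rpow_mul (by norm_num), ← Real.rpow_add (by norm_num)]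
          congr 1
          ring
      _ ≤ 2 * (2 : ℝ) ^ (((Nat.log 2 e : ℕ) : ℝ) / (n : ℝ)) := by
          refine mul_le_mul_of_nonneg_right ?_ (by positivity)
          calc (2 : ℝ) ^ ((1 : ℝ) / n) ≤ (2 : ℝ) ^ (1 : ℝ) :=
                Real.rpow_le_rpow_of_exponent_le (by norm_num) (by
                  rw [div_le_iff₀ (by linarith)]
                  linarith)
            _ = 2 := Real.rpow_one 2
  calc y ≤ C₀ * (e : ℝ) ^ ((1 : ℝ) / n) := h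
    _ ≤ C₀ * (2 * (2 : ℝ) ^ (((Nat.log 2 e : ℕ) : ℝ) / (n : ℝ))) :=
        mul_le_mul_of_nonneg_left h5 (by linarith)
    _ = _ := by ring

private theorem MA_mem {ι : Type} [Fintype ι] [DecidableEq ι] {g : ι → ℤ[X]} (hg : TR.Fam g)
    {C₀ : ℝ} (hC : 1 ≤ C₀) {M : ℕ} (hM : M ≠ 0) {D u v : ℤ} (hD : Squarefree D) {N : ℕ}
    (hN : |D| ≤ N) (huv : IsCoprime u v) (hh : ∀ i, PT.hom (g i) u v ≠ 0)
    (hT : ∀ i₀, ¬ Triv g i₀ (fun _ => C (u : ℚ) - C (v : ℚ) * X)) {g0 : ℤ} {e : ι → ℕ}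
    {x : Co g → ℤ} (h : MA_Dat g C₀ M D u v g0 e x) :
    g0 ∈ Icc (-(M : ℤ)) M ∧ (∀ i, 1 ≤ e i) ∧ ((∀ i, Nat.log 2 (e i) ∈ range (N + 1)) ∧
      2 ^ (∑ i, Nat.log 2 (e i)) ≤ N) ∧ x ∈ SS g M (2 * C₀) (fun i => Nat.log 2 (e i)) := by
  obtain ⟨h1, h2, h3, h4, h5, h6, h7, h8⟩ := h
  have hD0 : D ≠ 0 := hD.ne_zero
  have hg0 : g0 ≠ 0 := by
    rintro rfl
    rw [zero_mul] at h2
    exact hD0 h2
  have he0 : ∀ i, e i ≠ 0 := by
    intro i hi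
    apply h3.ne_zero
    exact Finset.prod_eq_zero (mem_univ i) hi
  have hprod : ∏ i, e i ≤ N := by
    have h9 : D.natAbs = g0.natAbs * ∏ i, e i := by
      rw [h2, Int.natAbs_mul]
      congr 1
      rw [← Nat.cast_prod, Int.natAbs_natCast]
    have h10 : D.natAbs ≤ N := by
      have : (D.natAbs : ℤ) ≤ N := by rwa [Int.natCast_natAbs]
      exact_mod_cast this
    have h11 : 1 ≤ g0.natAbs := Nat.one_le_iff_ne_zero.2 (Int.natAbs_ne_zero.2 hg0)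
    calc ∏ i, e i = 1 * ∏ i, e i := (one_mul _).symm
      _ ≤ g0.natAbs * ∏ i, e i := Nat.mul_le_mul_right _ h11
      _ = D.natAbs := h9.symm
      _ ≤ N := h10
  refine ⟨?_, fun i => Nat.one_le_iff_ne_zero.2 (he0 i), ⟨?_, ?_⟩, ?_, h6, ?_, ?_⟩
  · have h9 : g0.natAbs ≤ M := Nat.le_of_dvd (Nat.pos_of_ne_zero hM) h1
    have h10 : |g0| ≤ M := by
      rw [← Int.natCast_natAbs]
      exact_mod_cast h9
    rw [mem_Icc]
    exact abs_le.1 h10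
  · intro i
    rw [mem_range]
    have h9 : Nat.log 2 (e i) < 2 ^ Nat.log 2 (e i) := Nat.lt_two_pow_self
    have h10 : e i ≤ ∏ i, e i :=
      Nat.le_of_dvd (Nat.pos_of_ne_zero h3.ne_zero) (Finset.dvd_prod_of_mem e (mem_univ i))
    have h11 : 2 ^ Nat.log 2 (e i) ≤ e i := Nat.pow_log_le_self 2 (he0 i)
    omega
  · rw [← Finset.prod_pow_eq_pow_sum]
    exact (Finset.prod_le_prod' fun i _ => Nat.pow_log_le_self 2 (he0 i)).trans hprod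
  · intro c
    exact MA_box (Nat.one_le_iff_ne_zero.2 fun h => by
      have := c.2.2
      omega) hC (h5 c)
  · intro i
    exact pol_ne hg u v huv i (hh i) x (h8 i)
  · intro i₀ hTr
    exact hT i₀ (triv_transfer hg _ _ h8 i₀ hTr)

private theorem MA_inj {ι : Type} [Fintype ι] [DecidableEq ι] {g : ι → ℤ[X]}
    {C₀ : ℝ} {M : ℕ} {D D' u v u' v' : ℤ} {g0 : ℤ} {e e' : ι → ℕ} {x : Co g → ℤ}
    (h : MA_Dat g C₀ M D u v g0 e x) (h' : MA_Dat g C₀ M D' u' v' g0 e' x) : D = D' := by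
  obtain ⟨h1, h2, h3, h4, h5, h6, h7, h8⟩ := h
  obtain ⟨h1', h2', h3', h4', h5', h6', h7', h8'⟩ := h'
  have he : e = e' := sqf_ext M e e' h3 h3' h4 h4' fun p hp hpM i =>
    (h7 p hp hpM i).trans (h7' p hp hpM i).symm
  rw [h2, h2', he]

/-- the number of the twists whose vectors lie in some layers -/
private theorem MA_cnt {ι : Type} [Fintype ι] [DecidableEq ι] {g : ι → ℤ[X]} (hg : TR.Fam g)
    {C₀ : ℝ} (hC : 1 ≤ C₀) {M : ℕ} (S : Finset ℤ) (J : Finset (ι → ℕ))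
    (h : ∀ D ∈ S, ∃ (u v g0 : ℤ) (e : ι → ℕ) (x : Co g → ℤ), MA_Dat g C₀ M D u v g0 e x ∧
      g0 ∈ Icc (-(M : ℤ)) M ∧ ∃ j ∈ J, x ∈ SS g M (2 * C₀) j) :
    S.card ≤ (Icc (-(M : ℤ)) M).card * ∑ j ∈ J, Nat.card (SS g M (2 * C₀) j) := by
  classical
  have hC2 : 1 ≤ 2 * C₀ := by linarith
  have hfin : ∀ j, (SS g M (2 * C₀) j).Finite := fun j => (ss_le hg M (2 * C₀) hC2 j).1
  obtain ⟨T, hT⟩ : ∃ T : Finset (Co g → ℤ), T = J.biUnion fun j => (hfin j).toFinset := ⟨_, rfl⟩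
  have hex : ∀ D : S, ∃ gx : ℤ × (Co g → ℤ), gx ∈ (Icc (-(M : ℤ)) M) ×ˢ T ∧
      ∃ (u v : ℤ) (e : ι → ℕ), MA_Dat g C₀ M D.1 u v gx.1 e gx.2 := by
    rintro ⟨D, hD⟩
    obtain ⟨u, v, g0, e, x, hdat, m1, j, hj, m2⟩ := h D hD
    refine ⟨(g0, x), mem_product.2 ⟨m1, ?_⟩, u, v, e, hdat⟩
    rw [hT]
    exact mem_biUnion.2 ⟨j, hj, (hfin j).mem_toFinset.2 m2⟩
  choose F hF1 hF2 using hex
  have hinj : Function.Injective (fun D => (⟨F D, hF1 D⟩ : ↥((Icc (-(M : ℤ)) M) ×ˢ T))) := by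
    intro D D' hDD
    have h1 : F D = F D' := congrArg Subtype.val hDD
    obtain ⟨u, v, e, h2⟩ := hF2 D
    obtain ⟨u', v', e', h3⟩ := hF2 D'
    rw [← h1] at h3
    exact Subtype.ext (MA_inj h2 h3)
  have h1 := Nat.card_le_card_of_injective _ hinj
  rw [Nat.card_eq_fintype_card, Fintype.card_coe, Nat.card_eq_fintype_card, Fintype.card_coe,
    card_product] at h1
  refine h1.trans (Nat.mul_le_mul_left _ ?_)
  rw [hT]
  refine card_biUnion_le.trans (Finset.sum_le_sum fun j _ => ?_)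
  rw [Nat.card_coe_set_eq, Set.ncard_eq_toFinset_card _ (hfin j)]

/-- a large part which is not one of the two gives a large coordinate -/
private theorem MA_big {ι : Type} [Fintype ι] [DecidableEq ι] (P : Finset ι) (e : ι → ℕ) {y : ℝ}
    (hy : 2 * (Fintype.card ι : ℝ) + 1 ≤ y) (h : Real.exp (y ^ 2) < ((∏ k ∈ P, e k : ℕ) : ℝ)) :
    ∃ k ∈ P, y ≤ (Nat.log 2 (e k) : ℝ) := by
  by_contra hcon
  push Not at hcon
  have hc0 : (0 : ℝ) ≤ Fintype.card ι := Nat.cast_nonneg _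
  have hy0 : 0 < y := by linarith
  have h1 : ((∏ k ∈ P, e k : ℕ) : ℝ) ≤ Real.exp (∑ k ∈ P, (y + 1)) := by
    rw [Real.exp_sum]
    push_cast
    refine Finset.prod_le_prod (fun k _ => Nat.cast_nonneg _) fun k hk => ?_
    have h2 : e k < 2 ^ (Nat.log 2 (e k) + 1) := Nat.lt_pow_succ_log_self (by norm_num) _
    have h3 : (e k : ℝ) ≤ (2 : ℝ) ^ (Nat.log 2 (e k) + 1) := by exact_mod_cast h2.le
    have h4 : (2 : ℝ) ≤ Real.exp 1 := by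
      have := Real.add_one_le_exp (1 : ℝ)
      linarith
    calc (e k : ℝ) ≤ (2 : ℝ) ^ (Nat.log 2 (e k) + 1) := h3
      _ ≤ Real.exp 1 ^ (Nat.log 2 (e k) + 1) := pow_le_pow_left₀ (by norm_num) h4 _
      _ = Real.exp ((Nat.log 2 (e k) + 1 : ℕ) : ℝ) := by
          rw [← Real.exp_nat_mul, mul_one]
      _ ≤ Real.exp (y + 1) := by
          refine Real.exp_le_exp.2 ?_
          push_cast
          linarith [hcon k hk]
  have h2 := Real.exp_lt_exp.1 (h.trans_le h1)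
  rw [sum_const, nsmul_eq_mul] at h2
  have h3 : (P.card : ℝ) ≤ Fintype.card ι := by exact_mod_cast P.card_le_univ
  have h4 : (P.card : ℝ) * (y + 1) ≤ Fintype.card ι * (y + 1) :=
    mul_le_mul_of_nonneg_right h3 (by linarith)
  nlinarith

open Classical in
private theorem MA_limA {ι : Type} [Fintype ι] [DecidableEq ι] {g : ι → ℤ[X]} (hg : TR.Fam g) (M : ℕ)
    (hM : M ≠ 0) (C : ℝ) (hC : 1 ≤ C) :
    ∃ J : ℕ → Finset (ι → ℕ), (∀ N j, (∀ i, j i ∈ range (N + 1)) → 2 ^ (∑ i, j i) ≤ N → ¬ Pr g j →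
      j ∈ J N) ∧
      Tendsto (fun N : ℕ => (∑ j ∈ J N, (Nat.card (SS g M C j) : ℝ)) / N) atTop (nhds 0) :=
  ⟨_, fun _ _ h1 h2 h3 => mem_filter.2 ⟨mem_filter.2 ⟨Fintype.mem_piFinset.2 h1, h2⟩, h3⟩,
    lim_np hg M hM C hC⟩

open Classical in
private theorem MA_limB {ι : Type} [Fintype ι] [DecidableEq ι] {g : ι → ℤ[X]} (hg : TR.Fam g) (M : ℕ)
    (hM : M ≠ 0) (C : ℝ) (hC : 1 ≤ C) (ε : ℝ) (hε : 0 < ε) :
    ∃ J : ℕ → Finset (ι → ℕ), (∀ N j, (∀ i, j i ∈ range (N + 1)) → 2 ^ (∑ i, j i) ≤ N →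
      (∃ r s k, r ≠ s ∧ (g r).natDegree = 1 ∧ (g s).natDegree = 1 ∧ (∀ i, i ≠ r → i ≠ s → j i ≤ j s) ∧
        j s ≤ j r ∧ k ≠ r ∧ k ≠ s ∧ Real.log N ^ ε ≤ (j k : ℝ)) → j ∈ J N) ∧
      Tendsto (fun N : ℕ => (∑ j ∈ J N, (Nat.card (SS g M C j) : ℝ)) / N) atTop (nhds 0) :=
  ⟨_, fun _ _ h1 h2 h3 => mem_filter.2 ⟨mem_filter.2 ⟨Fintype.mem_piFinset.2 h1, h2⟩, h3⟩,
    lim_pair hg M hM C hC ε hε⟩

private theorem MA_pr {ι : Type} {g : ι → ℤ[X]} {j : ι → ℕ} (h : Pr g j) :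
    ∃ r s, r ≠ s ∧ (g r).natDegree = 1 ∧ (g s).natDegree = 1 ∧
      (∀ i, i ≠ r → i ≠ s → j i ≤ j s) ∧ j s ≤ j r := by
  obtain ⟨r, s, hrs, hr, hs, hk⟩ := h
  rcases le_total (j s) (j r) with h | h
  · exact ⟨r, s, hrs, hr, hs, fun i h1 h2 => (hk i h1 h2).2, h⟩
  · exact ⟨s, r, hrs.symm, hs, hr, fun i h1 h2 => (hk i h2 h1).1, h⟩

theorem main_QV (Hq : ∀ (K : Type) [Field K] [NumberField K] (θ : Fin 5 → K), Function.Injective θ →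
      {x : K | IsSquare ((x - θ 0) * (x - θ 1) * (x - θ 2) * (x - θ 3)) ∧
        IsSquare ((x - θ 0) * (x - θ 1) * (x - θ 2) * (x - θ 4))}.Finite)
    {ι : Type} [Fintype ι] [DecidableEq ι] {g : ι → ℤ[X]} (hg : TR.Fam g) (h8 : 8 ≤ ∑ i, (g i).natDegree) (a : ℤ) (ha : a ≠ 0) :
    Tendsto (fun N : ℕ => (Nat.card {D : ℤ // Squarefree D ∧ |D| ≤ N ∧ ∃ u v : ℤ, IsCoprime u v ∧
      (∀ i, PT.hom (g i) u v ≠ 0) ∧ IsSquare (D * a * ∏ i, PT.hom (g i) u v) ∧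
      ∀ i₀, ¬ Triv g i₀ (fun _ => C (u : ℚ) - C (v : ℚ) * X)} : ℝ) / N) atTop (nhds 0) := by
  classical
  obtain ⟨C₀, M, hC, hM, hdesc⟩ := desc5 hg a ha
  have hC2 : 1 ≤ 2 * C₀ := by linarith
  obtain ⟨JA, hJA, limA⟩ := MA_limA hg M hM (2 * C₀) hC2
  obtain ⟨JB, hJB, limB⟩ := MA_limB hg M hM (2 * C₀) hC2 (1 / 32) (by norm_num)
  obtain ⟨K, hK⟩ : ∃ K : ℕ, K = (Icc (-(M : ℤ)) M).card := ⟨_, rfl⟩
  refine tendsto_order.2 ⟨fun b hb => Filter.Eventually.of_forall fun N =>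
    lt_of_lt_of_le hb (by positivity), fun b hb => ?_⟩
  obtain ⟨n, hn⟩ : ∃ n : ℕ, n = Fintype.card ι := ⟨_, rfl⟩
  obtain ⟨η, hη⟩ : ∃ η : ℝ, η = b / (4 * (n : ℝ) ^ 2 + 4) := ⟨_, rfl⟩
  have hn0 : (0 : ℝ) ≤ n := Nat.cast_nonneg _
  have hη0 : 0 < η := by rw [hη]; positivity
  have hηb : (n : ℝ) ^ 2 * η ≤ b / 4 := by
    rw [hη, ← mul_div_assoc, div_le_iff₀ (by positivity)]
    nlinarith [mul_nonneg (sq_nonneg (n : ℝ)) hb.le]
  -- the middle range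
  have hmid : ∀ r s : ι, ∃ Q0 N0 : ℕ, r ≠ s → (g r).natDegree = 1 → (g s).natDegree = 1 →
      ∀ Q1 N : ℕ, Q0 ≤ Q1 → N0 ≤ N →
      (Nat.card {D : ℤ // Squarefree D ∧ |D| ≤ (N : ℤ) ∧ ∃ (g0 : ℤ) (e : ι → ℕ) (sg w : ι → ℤ) (u v : ℤ), IsCoprime u v ∧
        g0.natAbs ∣ M ∧ D = g0 * ∏ i, (e i : ℤ) ∧ Squarefree (∏ i, e i) ∧
        (∀ i, (sg i).natAbs ∣ M ∧ sg i ≠ 0 ∧ PT.hom (g i) u v = sg i * e i * w i ^ 2) ∧
        Q1 < ∏ k ∈ univ.filter (fun k => k ≠ r ∧ k ≠ s), e k ∧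
        ((∏ k ∈ univ.filter (fun k => k ≠ r ∧ k ≠ s), e k : ℕ) : ℝ) ≤ Real.exp (Real.log N ^ (1 / 16 : ℝ))} : ℝ) ≤
        η * N := by
    intro r s
    by_cases h : r ≠ s ∧ (g r).natDegree = 1 ∧ (g s).natDegree = 1
    · obtain ⟨Q0, N0, h0⟩ := mid_pair hg r s h.1 h.2.1 h.2.2 M hM η hη0
      exact ⟨Q0, N0, fun _ _ _ => h0⟩
    · exact ⟨0, 0, fun h1 h2 h3 => absurd ⟨h1, h2, h3⟩ h⟩
  choose Q0 N0 hQN using hmid
  obtain ⟨Q, hQ⟩ : ∃ Q : ℕ, Q = ∑ r, ∑ s, Q0 r s := ⟨_, rfl⟩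
  obtain ⟨N1, hN1⟩ : ∃ N1 : ℕ, N1 = ∑ r, ∑ s, N0 r s := ⟨_, rfl⟩
  have hle : ∀ f : ι → ι → ℕ, ∀ r s, f r s ≤ ∑ r, ∑ s, f r s := by
    intro f r s
    refine le_trans ?_ (Finset.single_le_sum (f := fun r => ∑ s, f r s)
      (fun _ _ => Nat.zero_le _) (mem_univ r))
    exact Finset.single_le_sum (f := fun s => f r s) (fun _ _ => Nat.zero_le _) (mem_univ s)
  -- the small range
  have hsm : ∀ r s : ι, ∃ S : Finset ℤ, r ≠ s → (g r).natDegree = 1 → (g s).natDegree = 1 →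
      ∀ D : ℤ, (Squarefree D ∧ ∃ (u v : ℤ) (e : ι → ℕ) (x : Co g → ℤ), IsCoprime u v ∧ (∀ i, PT.hom (g i) u v ≠ 0) ∧
      IsSquare (D * a * ∏ i, PT.hom (g i) u v) ∧
      (∀ c : Co g, |(x c : ℝ)| ≤ C₀ * (e c.1 : ℝ) ^ ((1 : ℝ) / (g c.1).natDegree)) ∧
      (∀ i, ∃ κ : ℚ[X], ¬ qq (g i) ∣ κ ∧
        qq (g i) ∣ pol g (fun c => (x c : ℚ)) i - (C (u : ℚ) - C (v : ℚ) * X) * κ ^ 2) ∧
      (∀ i, 1 ≤ e i) ∧ ∏ k ∈ univ.filter (fun k => k ≠ r ∧ k ≠ s), e k ≤ Q) → D ∈ S := by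
    intro r s
    by_cases h : r ≠ s ∧ (g r).natDegree = 1 ∧ (g s).natDegree = 1
    · have hf := pair_fin Hq hg h8 r s h.1 h.2.1 h.2.2 a ha C₀ hC Q
      exact ⟨hf.toFinset, fun _ _ _ D hD => hf.mem_toFinset.2 hD⟩
    · exact ⟨∅, fun h1 h2 h3 => absurd ⟨h1, h2, h3⟩ h⟩
  choose Sf hSf using hsm
  obtain ⟨F, hF⟩ : ∃ F : ℕ, F = ∑ r, ∑ s, (Sf r s).card := ⟨_, rfl⟩
  -- large N
  have eA : ∀ᶠ N : ℕ in atTop, (K : ℝ) * ((∑ j ∈ JA N, (Nat.card (SS g M (2 * C₀) j) : ℝ)) / N) <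
      b / 4 := by
    have h1 := limA.const_mul (K : ℝ)
    rw [mul_zero] at h1
    exact (tendsto_order.1 h1).2 _ (by positivity)
  have eB : ∀ᶠ N : ℕ in atTop, (K : ℝ) * ((∑ j ∈ JB N, (Nat.card (SS g M (2 * C₀) j) : ℝ)) / N) <
      b / 4 := by
    have h1 := limB.const_mul (K : ℝ)
    rw [mul_zero] at h1
    exact (tendsto_order.1 h1).2 _ (by positivity)
  have eF : ∀ᶠ N : ℕ in atTop, (F : ℝ) / N < b / 4 :=
    (tendsto_order.1 (tendsto_const_div_atTop_nhds_zero_nat (F : ℝ))).2 _ (by positivity)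
  have eL : ∀ᶠ N : ℕ in atTop, 2 * (Fintype.card ι : ℝ) + 1 ≤ Real.log N ^ (1 / 32 : ℝ) :=
    ((tendsto_rpow_atTop (by norm_num : (0 : ℝ) < 1 / 32)).comp
      (Real.tendsto_log_atTop.comp tendsto_natCast_atTop_atTop)).eventually_ge_atTop _
  filter_upwards [eA, eB, eF, eL, eventually_ge_atTop N1, eventually_ge_atTop 1] with N hA hB hFN hL hN hN'
  have hNpos : (0 : ℝ) < N := by exact_mod_cast hN'
  have hlog : 0 ≤ Real.log N := Real.log_natCast_nonneg N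
  have hsq : (Real.log N ^ (1 / 32 : ℝ)) ^ 2 = Real.log N ^ (1 / 16 : ℝ) := by
    rw [← Real.rpow_natCast, ← Real.rpow_mul hlog]
    norm_num
  -- the sets
  obtain ⟨P, hP⟩ : ∃ P : ℤ → Prop, P = fun D : ℤ => Squarefree D ∧ |D| ≤ N ∧ ∃ u v : ℤ, IsCoprime u v ∧
      (∀ i, PT.hom (g i) u v ≠ 0) ∧ IsSquare (D * a * ∏ i, PT.hom (g i) u v) ∧
      ∀ i₀, ¬ Triv g i₀ (fun _ => C (u : ℚ) - C (v : ℚ) * X) := ⟨_, rfl⟩
  obtain ⟨Q2, hQ2⟩ : ∃ Q2 : ι → ι → ℤ → Prop, Q2 = fun (r s : ι) (D : ℤ) => Squarefree D ∧ |D| ≤ (N : ℤ) ∧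
      ∃ (g0 : ℤ) (e : ι → ℕ) (sg w : ι → ℤ) (u v : ℤ), IsCoprime u v ∧
        g0.natAbs ∣ M ∧ D = g0 * ∏ i, (e i : ℤ) ∧ Squarefree (∏ i, e i) ∧
        (∀ i, (sg i).natAbs ∣ M ∧ sg i ≠ 0 ∧ PT.hom (g i) u v = sg i * e i * w i ^ 2) ∧
        Q < ∏ k ∈ univ.filter (fun k => k ≠ r ∧ k ≠ s), e k ∧
        ((∏ k ∈ univ.filter (fun k => k ≠ r ∧ k ≠ s), e k : ℕ) : ℝ) ≤ Real.exp (Real.log N ^ (1 / 16 : ℝ)) :=
    ⟨_, rfl⟩
  obtain ⟨R, hR⟩ : ∃ R : Finset (ι → ℕ) → ℤ → Prop, R = fun J D =>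
      ∃ (u v g0 : ℤ) (e : ι → ℕ) (x : Co g → ℤ), MA_Dat g C₀ M D u v g0 e x ∧
      g0 ∈ Icc (-(M : ℤ)) M ∧ ∃ j ∈ J, x ∈ SS g M (2 * C₀) j := ⟨_, rfl⟩
  obtain ⟨Ω, hΩ⟩ : ∃ Ω : Finset ℤ, Ω = Icc (-(N : ℤ)) N := ⟨_, rfl⟩
  have hmΩ : ∀ D : ℤ, |D| ≤ (N : ℤ) → D ∈ Ω := fun D hD => by
    rw [hΩ, mem_Icc]
    exact abs_le.1 hD
  obtain ⟨I, hI⟩ : ∃ I : Finset (ι × ι), I = univ.filter fun q => q.1 ≠ q.2 ∧
      (g q.1).natDegree = 1 ∧ (g q.2).natDegree = 1 := ⟨_, rfl⟩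
  have hsub : Ω.filter P ⊆ Ω.filter (R (JA N)) ∪ Ω.filter (R (JB N)) ∪
      (univ.biUnion fun q : ι × ι => Sf q.1 q.2) ∪ (I.biUnion fun q => Ω.filter (Q2 q.1 q.2)) := by
    intro D hD
    rw [mem_filter] at hD
    obtain ⟨hDΩ, hDP⟩ := hD
    have hDP' := hDP
    rw [hP] at hDP'
    obtain ⟨hsqf, hDN, u, v, huv, hh, hsqr, hTr⟩ := hDP'
    obtain ⟨g0, e, x, sg, w, d1, d2, d3, d4, d5, d6, d7, d8, d9⟩ := hdesc D hsqf u v huv hh hsqr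
    have hdat : MA_Dat g C₀ M D u v g0 e x := ⟨d1, d2, d3, d4, d5, d6, d7, d8⟩
    obtain ⟨m1, m2, ⟨m3, m4⟩, m5⟩ := MA_mem hg hC hM hsqf hDN huv hh hTr hdat
    rw [mem_union, mem_union, mem_union]
    by_cases hPr : Pr g (fun i => Nat.log 2 (e i))
    · obtain ⟨r, s, hrs, hr, hs, hk, hsr⟩ := MA_pr hPr
      by_cases hdQ : ∏ k ∈ univ.filter (fun k => k ≠ r ∧ k ≠ s), e k ≤ Q
      · left
        right
        refine mem_biUnion.2 ⟨(r, s), mem_univ _, ?_⟩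
        exact hSf r s hrs hr hs D ⟨hsqf, u, v, e, x, huv, hh, hsqr, d5, d8, m2, hdQ⟩
      · rw [not_le] at hdQ
        by_cases hexp : ((∏ k ∈ univ.filter (fun k => k ≠ r ∧ k ≠ s), e k : ℕ) : ℝ) ≤
            Real.exp (Real.log N ^ (1 / 16 : ℝ))
        · right
          refine mem_biUnion.2 ⟨(r, s), ?_, mem_filter.2 ⟨hDΩ, ?_⟩⟩
          · rw [hI, mem_filter]
            exact ⟨mem_univ _, hrs, hr, hs⟩
          · rw [hQ2]
            exact ⟨hsqf, hDN, g0, e, sg, w, u, v, huv, d1, d2, d3, d9, hdQ, hexp⟩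
        · rw [not_le, ← hsq] at hexp
          obtain ⟨k, hkP, hky⟩ := MA_big _ e hL hexp
          rw [mem_filter] at hkP
          left
          left
          right
          refine mem_filter.2 ⟨hDΩ, ?_⟩
          rw [hR]
          exact ⟨u, v, g0, e, x, hdat, m1, _, hJB N _ m3 m4
            ⟨r, s, k, hrs, hr, hs, hk, hsr, hkP.2.1, hkP.2.2, hky⟩, m5⟩
    · left
      left
      left
      refine mem_filter.2 ⟨hDΩ, ?_⟩
      rw [hR]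
      exact ⟨u, v, g0, e, x, hdat, m1, _, hJA N _ m3 m4 hPr, m5⟩
  have c0 : Nat.card {D : ℤ // P D} = (Ω.filter P).card := by
    refine Nat.subtype_card _ fun D => ?_
    rw [mem_filter, and_iff_right_iff_imp]
    intro h
    rw [hP] at h
    exact hmΩ D h.2.1
  have c1 : ∀ J : Finset (ι → ℕ), ((Ω.filter (R J)).card : ℝ) ≤
      K * ∑ j ∈ J, (Nat.card (SS g M (2 * C₀) j) : ℝ) := by
    intro J
    have h1 := MA_cnt hg hC (M := M) (Ω.filter (R J)) J fun D hD => by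
      rw [mem_filter, hR] at hD
      exact hD.2
    rw [← hK] at h1
    exact_mod_cast h1
  have c2 : (univ.biUnion fun q : ι × ι => Sf q.1 q.2).card ≤ F := by
    refine card_biUnion_le.trans ?_
    rw [hF, ← Fintype.sum_prod_type']
  have c3 : ((I.biUnion fun q => Ω.filter (Q2 q.1 q.2)).card : ℝ) ≤ (n : ℝ) ^ 2 * (η * N) := by
    have h1 : ((I.biUnion fun q => Ω.filter (Q2 q.1 q.2)).card : ℝ) ≤
        ∑ q ∈ I, ((Ω.filter (Q2 q.1 q.2)).card : ℝ) := by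
      exact_mod_cast card_biUnion_le
    refine h1.trans ?_
    have h2 : ∀ q ∈ I, ((Ω.filter (Q2 q.1 q.2)).card : ℝ) ≤ η * N := by
      intro q hq
      rw [hI, mem_filter] at hq
      obtain ⟨-, q1, q2, q3⟩ := hq
      have h3 := hQN q.1 q.2 q1 q2 q3 Q N (by rw [hQ]; exact hle Q0 _ _)
        ((hle N0 _ _).trans (by rw [← hN1]; exact hN))
      have h4 : Nat.card {D : ℤ // Q2 q.1 q.2 D} = (Ω.filter (Q2 q.1 q.2)).card := by
        refine Nat.subtype_card _ fun D => ?_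
        rw [mem_filter, and_iff_right_iff_imp]
        intro h
        rw [hQ2] at h
        exact hmΩ D h.2.1
      rw [← h4, hQ2]
      exact h3
    refine (Finset.sum_le_card_nsmul _ _ _ h2).trans ?_
    rw [nsmul_eq_mul]
    refine mul_le_mul_of_nonneg_right ?_ (by positivity)
    have h5 : I.card ≤ n ^ 2 := by
      refine (I.card_le_univ).trans ?_
      rw [Fintype.card_prod, hn, sq]
    exact_mod_cast h5
  have c4 : ((Ω.filter P).card : ℝ) ≤ K * ∑ j ∈ JA N, (Nat.card (SS g M (2 * C₀) j) : ℝ) +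
      K * ∑ j ∈ JB N, (Nat.card (SS g M (2 * C₀) j) : ℝ) + F + (n : ℝ) ^ 2 * (η * N) := by
    have h1 : (Ω.filter P).card ≤ (Ω.filter (R (JA N))).card + (Ω.filter (R (JB N))).card +
        (univ.biUnion fun q : ι × ι => Sf q.1 q.2).card +
        (I.biUnion fun q => Ω.filter (Q2 q.1 q.2)).card := by
      refine (card_le_card hsub).trans ((card_union_le _ _).trans ?_)
      refine Nat.add_le_add_right ((card_union_le _ _).trans ?_) _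
      exact Nat.add_le_add_right (card_union_le _ _) _
    have h2 : ((Ω.filter P).card : ℝ) ≤ (Ω.filter (R (JA N))).card + (Ω.filter (R (JB N))).card +
        (univ.biUnion fun q : ι × ι => Sf q.1 q.2).card +
        (I.biUnion fun q => Ω.filter (Q2 q.1 q.2)).card := by exact_mod_cast h1
    have h3 : ((univ.biUnion fun q : ι × ι => Sf q.1 q.2).card : ℝ) ≤ F := by exact_mod_cast c2
    linarith [c1 (JA N), c1 (JB N)]
  have c5 : (Nat.card {D : ℤ // P D} : ℝ) / N < b := by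
    rw [c0, div_lt_iff₀ hNpos]
    have h1 : (K : ℝ) * ∑ j ∈ JA N, (Nat.card (SS g M (2 * C₀) j) : ℝ) < b / 4 * N := by
      rwa [← mul_div_assoc, div_lt_iff₀ hNpos] at hA
    have h2 : (K : ℝ) * ∑ j ∈ JB N, (Nat.card (SS g M (2 * C₀) j) : ℝ) < b / 4 * N := by
      rwa [← mul_div_assoc, div_lt_iff₀ hNpos] at hB
    have h3 : (F : ℝ) < b / 4 * N := by rwa [div_lt_iff₀ hNpos] at hFN
    have h4 : (n : ℝ) ^ 2 * (η * N) ≤ b / 4 * N := by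
      rw [← mul_assoc]
      exact mul_le_mul_of_nonneg_right hηb hNpos.le
    linarith
  rw [hP] at c5
  exact c5

end QV
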