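import Pool.Agent.Lib.MP_10e784_agQV.D1
import Pool.Agent.Lib.MP_10e784_agQV.A6

/-! JOB MB.  The twists with a third part in the middle range.
Write `d = ∏_{k ≠ r, s} e k`, `z = e r * e s`, `sg' = ∏_{k ≠ r, s} sg k`, `G r = ∏_{k ≠ r, s} (g k).eval (-(g r).coeff 0)` and `G s` the same with `s` (both are nonzero: `-(g r).coeff 0` is the root of `g r`, and `g k ≠ g r` is irreducible over `ℚ` and monic, so it does not vanish there).  `g0 ≠ 0` divides `M`, `sg'` lies in the finite set `Sg` of the products of `card` many nonzero integers dividing `M` (`|sg'| ≤ M ^ card ι`), `D = g0 d z`, so `d z ≤ N`; `z` is squarefree and all its prime factors divide `e r` or `e s`, so `loc_pair` (for `(r, s)` and for `(s, r)`; the filters `k ≠ r ∧ k ≠ s` and `k ≠ s ∧ k ≠ r` have the same elements) shows that `z` is counted in `zs (sg' * G r * d) (sg' * G s * d) M (N / d)`; `d` is squarefree,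 `Q0 < d ≤ exp ((log N) ^ (1/16))`.
`D` is determined by `(g0, d, z)`.  So the number is at most `∑_{g0 ∈ Icc (-M) M} ∑_{sg' ∈ Sg, ≠ 0} ∑_d zs (..)`; `mid_d` for `a = sg' G r`, `b = sg' G s` and `η' = η / ((2 M + 1) card Sg)`, `Q0`, `N0` = the maxima over `Sg`. -/

set_option autoImplicit false

namespace QV

open Finset Polynomial TW TR

private theorem MB_card {α : Type} (P : α → Prop) (S : Finset α) (h : ∀ a, P a → a ∈ S) : Nat.card {a // P a} ≤ S.card := by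
  have h1 := Nat.card_le_card_of_injective (fun a : {a // P a} => (⟨a.1, h a.1 a.2⟩ : {x // x ∈ S}))
    (fun a b hab => Subtype.ext (congrArg (fun z : {x // x ∈ S} => z.1) hab))
  have h2 : Nat.card {x // x ∈ S} = S.card := by simp
  rwa [h2] at h1

open Classical in
private noncomputable def MBZ (a b : ℤ) (M x : ℕ) : Finset ℕ :=
  (range (x + 1)).filter fun z => 1 ≤ z ∧ z ≤ x ∧ Squarefree z ∧ ∀ p : ℕ, p.Prime → p ∣ z → ¬ p ∣ M →
    IsSquare ((a : ℤ) : ZMod p) ∨ IsSquare ((b : ℤ) : ZMod p)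

open Classical in
private theorem MB_mem (a b : ℤ) (M x z : ℕ) : z ∈ MBZ a b M x ↔ 1 ≤ z ∧ z ≤ x ∧ Squarefree z ∧ ∀ p : ℕ, p.Prime → p ∣ z → ¬ p ∣ M →
    IsSquare ((a : ℤ) : ZMod p) ∨ IsSquare ((b : ℤ) : ZMod p) := by
  unfold MBZ
  rw [mem_filter, mem_range]
  constructor
  · rintro ⟨_, h⟩
    exact h
  · rintro ⟨h1, h2, h3⟩
    exact ⟨by omega, h1, h2, h3⟩

private theorem MB_zs (a b : ℤ) (M x : ℕ) : zs a b M x = (MBZ a b M x).card := by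
  unfold zs
  exact Nat.subtype_card _ (fun z => MB_mem a b M x z)

private theorem MB_split {ι : Type} [Fintype ι] [DecidableEq ι] {A : Type} [CommMonoid A] (r s : ι) (hrs : r ≠ s) (f : ι → A) :
    ∏ i, f i = (∏ k ∈ univ.filter (fun k => k ≠ r ∧ k ≠ s), f k) * (f r * f s) := by
  have h1 : (univ : Finset ι) = insert r (insert s (univ.filter (fun k => k ≠ r ∧ k ≠ s))) := by
    ext k
    simp only [mem_univ, mem_insert, mem_filter, true_and, true_iff]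
    by_cases h : k = r
    · exact Or.inl h
    · by_cases h' : k = s
      · exact Or.inr (Or.inl h')
      · exact Or.inr (Or.inr ⟨h, h'⟩)
  conv_lhs => rw [h1]
  rw [prod_insert, prod_insert]
  · rw [← mul_assoc, mul_comm]
  · simp
  · simp [hrs]

private theorem MB_eval {ι : Type} [Fintype ι] [DecidableEq ι] {g : ι → ℤ[X]} (hg : TR.Fam g) (r k : ι) (hkr : k ≠ r)
    (hr : (g r).natDegree = 1) : (g k).eval (-(g r).coeff 0) ≠ 0 := by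
  intro h0
  have hgr : g r = X - C (-(g r).coeff 0) := by
    have h1 := (hg.monic r).coeff_natDegree
    rw [hr] at h1
    have h2 := Polynomial.eq_X_add_C_of_natDegree_le_one (p := g r) (by omega)
    rw [h1] at h2
    rw [C_neg, sub_neg_eq_add]
    conv_lhs => rw [h2]
    rw [C_1, one_mul]
  have h1 : (X - C (-(g r).coeff 0)) ∣ g k := Polynomial.dvd_iff_isRoot.2 h0
  rw [← hgr] at h1
  have h2 : (g r).map (Int.castRingHom ℚ) ∣ (g k).map (Int.castRingHom ℚ) := Polynomial.map_dvd _ h1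
  have h3 : Associated ((g r).map (Int.castRingHom ℚ)) ((g k).map (Int.castRingHom ℚ)) :=
    (hg.irr r).associated_of_dvd (hg.irr k) h2
  have h4 := Polynomial.eq_of_monic_of_associated ((hg.monic r).map _) ((hg.monic k).map _) h3
  have h5 : g r = g k := Polynomial.map_injective _ (Int.cast_injective) h4
  exact hkr (hg.inj h5).symm

private theorem MB_prod {ι : Type} [Fintype ι] [DecidableEq ι] (F : Finset ι) (sg : ι → ℤ) (M : ℕ) (hM : M ≠ 0)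
    (h : ∀ i, (sg i).natAbs ∣ M ∧ sg i ≠ 0) : (∏ k ∈ F, sg k).natAbs ≤ M ^ Fintype.card ι ∧ ∏ k ∈ F, sg k ≠ 0 := by
  constructor
  · have h1 : (∏ k ∈ F, sg k).natAbs = ∏ k ∈ F, (sg k).natAbs := map_prod Int.natAbsHom sg F
    rw [h1]
    calc ∏ k ∈ F, (sg k).natAbs ≤ ∏ k ∈ F, M := prod_le_prod' fun k _ => Nat.le_of_dvd (Nat.pos_of_ne_zero hM) (h k).1
      _ = M ^ F.card := by rw [prod_const]
      _ ≤ M ^ Fintype.card ι := Nat.pow_le_pow_right (Nat.pos_of_ne_zero hM) (card_le_univ F)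
  · exact prod_ne_zero_iff.2 fun k _ => (h k).2

theorem mid_pair {ι : Type} [Fintype ι] [DecidableEq ι] {g : ι → ℤ[X]} (hg : TR.Fam g) (r s : ι) (hrs : r ≠ s)
    (hr : (g r).natDegree = 1) (hs : (g s).natDegree = 1) (M : ℕ) (hM : M ≠ 0) (η : ℝ) (hη : 0 < η) :
    ∃ Q0 N0 : ℕ, ∀ Q1 N : ℕ, Q0 ≤ Q1 → N0 ≤ N →
      (Nat.card {D : ℤ // Squarefree D ∧ |D| ≤ (N : ℤ) ∧ ∃ (g0 : ℤ) (e : ι → ℕ) (sg w : ι → ℤ) (u v : ℤ), IsCoprime u v ∧
        g0.natAbs ∣ M ∧ D = g0 * ∏ i, (e i : ℤ) ∧ Squarefree (∏ i, e i) ∧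
        (∀ i, (sg i).natAbs ∣ M ∧ sg i ≠ 0 ∧ PT.hom (g i) u v = sg i * e i * w i ^ 2) ∧
        Q1 < ∏ k ∈ univ.filter (fun k => k ≠ r ∧ k ≠ s), e k ∧
        ((∏ k ∈ univ.filter (fun k => k ≠ r ∧ k ≠ s), e k : ℕ) : ℝ) ≤ Real.exp (Real.log N ^ (1 / 16 : ℝ))} : ℝ) ≤ η * N := by
  classical
  obtain ⟨F, hF⟩ : ∃ F : Finset ι, F = univ.filter (fun k => k ≠ r ∧ k ≠ s) := ⟨_, rfl⟩
  have hFsr : univ.filter (fun k => k ≠ s ∧ k ≠ r) = F := by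
    rw [hF]
    refine filter_congr fun k _ => ?_
    exact and_comm
  obtain ⟨Gr, hGr⟩ : ∃ G : ℤ, G = ∏ k ∈ F, (g k).eval (-(g r).coeff 0) := ⟨_, rfl⟩
  obtain ⟨Gs, hGs⟩ : ∃ G : ℤ, G = ∏ k ∈ F, (g k).eval (-(g s).coeff 0) := ⟨_, rfl⟩
  have hGr0 : Gr ≠ 0 := by
    rw [hGr, hF]
    refine prod_ne_zero_iff.2 fun k hk => ?_
    rw [mem_filter] at hk
    exact MB_eval hg r k hk.2.1 hr
  have hGs0 : Gs ≠ 0 := by
    rw [hGs, hF]
    refine prod_ne_zero_iff.2 fun k hk => ?_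
    rw [mem_filter] at hk
    exact MB_eval hg s k hk.2.2 hs
  obtain ⟨B, hB⟩ : ∃ B : ℕ, B = M ^ Fintype.card ι := ⟨_, rfl⟩
  obtain ⟨Sg, hSg⟩ : ∃ Sg : Finset ℤ, Sg = (Icc (-(B : ℤ)) B).filter fun σ => σ ≠ 0 := ⟨_, rfl⟩
  obtain ⟨I0, hI0⟩ : ∃ I0 : Finset ℤ, I0 = Icc (-(M : ℤ)) M := ⟨_, rfl⟩
  obtain ⟨A, hA⟩ : ∃ A : ℝ, A = (I0.card : ℝ) * Sg.card := ⟨_, rfl⟩
  have hA0 : 0 ≤ A := by rw [hA]; positivity
  have key : ∀ σ : ℤ, ∃ Q0 N0 : ℕ, σ ≠ 0 → ∀ N : ℕ, N0 ≤ N →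
      (∑ d ∈ (Ioc Q0 ⌊Real.exp (Real.log N ^ (1 / 16 : ℝ))⌋₊ : Finset ℕ).filter Squarefree,
        (zs (σ * Gr * (d : ℤ)) (σ * Gs * (d : ℤ)) M (N / d) : ℝ)) ≤ η / (A + 1) * N := by
    intro σ
    by_cases hσ : σ = 0
    · exact ⟨0, 0, fun h => absurd hσ h⟩
    · obtain ⟨Q0, N0, h⟩ := mid_d (σ * Gr) (σ * Gs) (mul_ne_zero hσ hGr0) (mul_ne_zero hσ hGs0) M hM (η / (A + 1)) (by positivity)
      exact ⟨Q0, N0, fun _ => h⟩
  choose fQ fN hfQ using key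
  refine ⟨Sg.sup fQ, Sg.sup fN, ?_⟩
  intro Q1 N hQ hN
  obtain ⟨Ds, hDs⟩ : ∃ Ds : Finset ℕ, Ds = (Ioc Q1 ⌊Real.exp (Real.log N ^ (1 / 16 : ℝ))⌋₊ : Finset ℕ).filter Squarefree := ⟨_, rfl⟩
  have hmem : ∀ D : ℤ, (Squarefree D ∧ |D| ≤ (N : ℤ) ∧ ∃ (g0 : ℤ) (e : ι → ℕ) (sg w : ι → ℤ) (u v : ℤ), IsCoprime u v ∧
        g0.natAbs ∣ M ∧ D = g0 * ∏ i, (e i : ℤ) ∧ Squarefree (∏ i, e i) ∧
        (∀ i, (sg i).natAbs ∣ M ∧ sg i ≠ 0 ∧ PT.hom (g i) u v = sg i * e i * w i ^ 2) ∧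
        Q1 < ∏ k ∈ univ.filter (fun k => k ≠ r ∧ k ≠ s), e k ∧
        ((∏ k ∈ univ.filter (fun k => k ≠ r ∧ k ≠ s), e k : ℕ) : ℝ) ≤ Real.exp (Real.log N ^ (1 / 16 : ℝ))) →
      D ∈ (I0 ×ˢ (Sg ×ˢ Ds)).biUnion fun x => (MBZ (x.2.1 * Gr * (x.2.2 : ℤ)) (x.2.1 * Gs * (x.2.2 : ℤ)) M (N / x.2.2)).image
        fun z : ℕ => x.1 * (x.2.2 : ℤ) * (z : ℤ) := by
    rintro D ⟨hD, hDN, g0, e, sg, w, u, v, huv, hg0, hDe, hsq, hsg, hlo, hhi⟩
    rw [← hF] at hlo hhi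
    obtain ⟨d, hd⟩ : ∃ d : ℕ, d = ∏ k ∈ F, e k := ⟨_, rfl⟩
    rw [← hd] at hlo hhi
    have hpe : ∏ i, e i = d * (e r * e s) := by rw [hd, hF]; exact MB_split r s hrs e
    rw [hpe] at hsq
    have hd0 : d ≠ 0 := by
      intro h
      rw [h] at hlo
      omega
    have hz0 : e r * e s ≠ 0 := by
      intro h
      rw [h, mul_zero] at hsq
      exact not_squarefree_zero hsq
    have hDe' : D = g0 * (d : ℤ) * ((e r * e s : ℕ) : ℤ) := by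
      rw [hDe, mul_assoc]
      congr 1
      rw [← Nat.cast_mul, ← hpe]
      push_cast
      rfl
    have hg00 : g0 ≠ 0 := by
      intro h
      rw [h] at hDe'
      rw [zero_mul, zero_mul] at hDe'
      rw [hDe'] at hD
      exact not_squarefree_zero hD
    have hdz : d * (e r * e s) ≤ N := by
      have h1 : |D| = |g0| * ((d * (e r * e s) : ℕ) : ℤ) := by
        rw [hDe', mul_assoc, abs_mul, ← Nat.cast_mul, Nat.abs_cast]
      rw [h1] at hDN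
      have h2 : 1 ≤ |g0| := Int.one_le_abs hg00
      have h3 : ((d * (e r * e s) : ℕ) : ℤ) ≤ |g0| * ((d * (e r * e s) : ℕ) : ℤ) := by
        have h4 : (0 : ℤ) ≤ ((d * (e r * e s) : ℕ) : ℤ) := Int.natCast_nonneg _
        nlinarith
      exact_mod_cast h3.trans hDN
    have hσ := MB_prod F sg M hM fun i => ⟨(hsg i).1, (hsg i).2.1⟩
    rw [mem_biUnion]
    refine ⟨(g0, (∏ k ∈ F, sg k, d)), ?_, ?_⟩
    · rw [mem_product, mem_product]
      refine ⟨?_, ?_, ?_⟩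
      · rw [hI0, mem_Icc]
        have h1 : g0.natAbs ≤ M := Nat.le_of_dvd (Nat.pos_of_ne_zero hM) hg0
        have h2 : |g0| ≤ (M : ℤ) := by
          rw [Int.abs_eq_natAbs]
          exact_mod_cast h1
        exact abs_le.1 h2
      · rw [hSg, mem_filter, mem_Icc]
        refine ⟨?_, hσ.2⟩
        have h2 : |∏ k ∈ F, sg k| ≤ (B : ℤ) := by
          rw [Int.abs_eq_natAbs, hB]
          exact_mod_cast hσ.1
        exact abs_le.1 h2
      · rw [hDs, mem_filter, mem_Ioc]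
        exact ⟨⟨hlo, Nat.le_floor hhi⟩, Squarefree.of_mul_left hsq⟩
    · rw [mem_image]
      refine ⟨e r * e s, ?_, hDe'.symm⟩
      rw [MB_mem]
      refine ⟨Nat.pos_of_ne_zero hz0, ?_, Squarefree.of_mul_right hsq, ?_⟩
      · rw [Nat.le_div_iff_mul_le (Nat.pos_of_ne_zero hd0), mul_comm]
        exact hdz
      · intro p hp hpz _
        rcases (Nat.Prime.dvd_mul hp).1 hpz with h | h
        · left
          have h1 := loc_pair hg r s hrs hr hs u v huv sg w e (fun i => (hsg i).2.2) p hp h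
          rw [← hF, ← hGr, ← hd] at h1
          exact h1
        · right
          have h1 := loc_pair hg s r (Ne.symm hrs) hs hr u v huv sg w e (fun i => (hsg i).2.2) p hp h
          rw [hFsr, ← hGs, ← hd] at h1
          exact h1
  have hcard : ∀ x ∈ I0 ×ˢ (Sg ×ˢ Ds), ((MBZ (x.2.1 * Gr * (x.2.2 : ℤ)) (x.2.1 * Gs * (x.2.2 : ℤ)) M (N / x.2.2)).image
        fun z : ℕ => x.1 * (x.2.2 : ℤ) * (z : ℤ)).card ≤ zs (x.2.1 * Gr * (x.2.2 : ℤ)) (x.2.1 * Gs * (x.2.2 : ℤ)) M (N / x.2.2) := by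
    intro x _
    rw [MB_zs]
    exact card_image_le
  have h1 := (MB_card _ _ hmem).trans ((card_biUnion_le).trans (sum_le_sum hcard))
  have h2 : (Nat.card {D : ℤ // Squarefree D ∧ |D| ≤ (N : ℤ) ∧ ∃ (g0 : ℤ) (e : ι → ℕ) (sg w : ι → ℤ) (u v : ℤ), IsCoprime u v ∧
        g0.natAbs ∣ M ∧ D = g0 * ∏ i, (e i : ℤ) ∧ Squarefree (∏ i, e i) ∧
        (∀ i, (sg i).natAbs ∣ M ∧ sg i ≠ 0 ∧ PT.hom (g i) u v = sg i * e i * w i ^ 2) ∧
        Q1 < ∏ k ∈ univ.filter (fun k => k ≠ r ∧ k ≠ s), e k ∧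
        ((∏ k ∈ univ.filter (fun k => k ≠ r ∧ k ≠ s), e k : ℕ) : ℝ) ≤ Real.exp (Real.log N ^ (1 / 16 : ℝ))} : ℝ) ≤
      ((∑ x ∈ I0 ×ˢ (Sg ×ˢ Ds), zs (x.2.1 * Gr * (x.2.2 : ℤ)) (x.2.1 * Gs * (x.2.2 : ℤ)) M (N / x.2.2) : ℕ) : ℝ) := by
    exact_mod_cast h1
  refine h2.trans ?_
  rw [Nat.cast_sum, sum_product]
  have h3 : ∀ g0 ∈ I0, ∑ y ∈ Sg ×ˢ Ds, ((zs (y.1 * Gr * (y.2 : ℤ)) (y.1 * Gs * (y.2 : ℤ)) M (N / y.2) : ℕ) : ℝ) ≤ Sg.card * (η / (A + 1) * N) := by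
    intro g0 _
    rw [sum_product]
    have h4 : ∀ σ ∈ Sg, ∑ d ∈ Ds, ((zs (σ * Gr * (d : ℤ)) (σ * Gs * (d : ℤ)) M (N / d) : ℕ) : ℝ) ≤ η / (A + 1) * N := by
      intro σ hσ
      have hσ0 : σ ≠ 0 := by
        rw [hSg, mem_filter] at hσ
        exact hσ.2
      refine le_trans ?_ (hfQ σ hσ0 N ((le_sup hσ).trans hN))
      refine sum_le_sum_of_subset_of_nonneg ?_ fun _ _ _ => Nat.cast_nonneg _
      rw [hDs]
      refine filter_subset_filter _ ?_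
      exact Ioc_subset_Ioc_left ((le_sup hσ).trans hQ)
    calc ∑ σ ∈ Sg, ∑ d ∈ Ds, ((zs (σ * Gr * (d : ℤ)) (σ * Gs * (d : ℤ)) M (N / d) : ℕ) : ℝ) ≤ ∑ σ ∈ Sg, η / (A + 1) * N := sum_le_sum h4
      _ = Sg.card * (η / (A + 1) * N) := by rw [sum_const, nsmul_eq_mul]
  calc ∑ g0 ∈ I0, ∑ y ∈ Sg ×ˢ Ds, ((zs (y.1 * Gr * (y.2 : ℤ)) (y.1 * Gs * (y.2 : ℤ)) M (N / y.2) : ℕ) : ℝ) ≤
        ∑ g0 ∈ I0, Sg.card * (η / (A + 1) * N) := sum_le_sum h3
    _ = A * (η / (A + 1) * N) := by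
        rw [sum_const, nsmul_eq_mul, hA]
        ring
    _ ≤ η * N := by
        have h5 : A * (η / (A + 1)) ≤ η := by
          rw [mul_div_assoc', div_le_iff₀ (by positivity)]
          nlinarith
        have h6 : (0 : ℝ) ≤ N := Nat.cast_nonneg _
        calc A * (η / (A + 1) * N) = A * (η / (A + 1)) * N := by ring
          _ ≤ η * N := mul_le_mul_of_nonneg_right h5 h6

end QV
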