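import Pool.Agent.Lib.MP_10e784_agQV.DefsP
import Pool.Agent.Lib.MP_10e784_agTR.TWOm2

/-! JOB N1.  The local densities for index sets of total degree at least three, without a hypothesis on pairs of roots.
`fib_three`: COPY of the part `dg g I ≠ 2` of `TR.fib_two` (file MP_10e784_agTR/TWFibN.lean), which does not use `hK` and `hT` (there the gain `gn g S T I p` is `PT.ind S p / 4`).  (`TR.fib_two` itself can not be applied, as it needs `OddK g`.)
`omega_three`: COPY of `TR.omega_one` (file MP_10e784_agTR/TWOm2.lean) with `fib_three` in place of `fib_two` and `PT.ind S p / 4` in place of `gn g S T I p`. -/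

set_option autoImplicit false

namespace QV

open Finset Polynomial TW TR

private theorem N1_bern (x : ℝ) (hx0 : 0 ≤ x) (hx1 : x ≤ 1) (r : ℕ) :
    (1 - x) ^ r ≤ 1 - r * x + (r : ℝ) ^ 2 * x ^ 2 := by
  induction r with
  | zero => simp
  | succ r ih =>
    have h1 : (1 - x) ^ (r + 1) ≤ (1 - r * x + (r : ℝ) ^ 2 * x ^ 2) * (1 - x) := by
      rw [pow_succ]
      exact mul_le_mul_of_nonneg_right ih (by linarith)
    have hr : (0 : ℝ) ≤ r := Nat.cast_nonneg r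
    have hx2 : 0 ≤ x ^ 2 := by positivity
    have hx3 : 0 ≤ (r : ℝ) ^ 2 * x ^ 3 := by positivity
    have hx4 : 0 ≤ (r : ℝ) * x ^ 2 := by positivity
    push_cast
    nlinarith

private theorem N1_pow1 (n : ℕ) (hn : 1 ≤ n) : (n : ℝ) ≤ 2 ^ (n - 1) := by
  obtain ⟨k, rfl⟩ : ∃ k, n = k + 1 := ⟨n - 1, by omega⟩
  have : k + 1 ≤ 2 ^ k := Nat.lt_two_pow_self
  simp only [Nat.add_sub_cancel]
  exact_mod_cast this

private theorem N1_pow2 (n : ℕ) : 2 * (n : ℝ) ≤ 2 ^ n := by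
  induction n with
  | zero => simp
  | succ k ih =>
    rcases Nat.eq_zero_or_pos k with h | h
    · subst h; norm_num
    · have h1 : (1 : ℝ) ≤ k := by exact_mod_cast h
      rw [pow_succ]
      push_cast
      linarith

private theorem N1_pow3 (n : ℕ) (hn : 4 ≤ n) : 2 * (n : ℝ) ≤ 2 ^ (n - 1) := by
  obtain ⟨k, rfl⟩ : ∃ k, n = k + 4 := ⟨n - 4, by omega⟩
  have e : k + 4 - 1 = k + 3 := by omega
  rw [e, pow_add]
  have h1 : (1 : ℝ) + k ≤ 2 ^ k := by
    have : k + 1 ≤ 2 ^ k := Nat.lt_two_pow_self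
    have h2 : ((k + 1 : ℕ) : ℝ) ≤ 2 ^ k := by exact_mod_cast this
    push_cast at h2
    linarith
  have hk : (0 : ℝ) ≤ k := Nat.cast_nonneg k
  push_cast
  nlinarith

private theorem N1_pow4 (n : ℕ) (hn : 3 ≤ n) : (n : ℝ) ≤ 3 / 4 * 2 ^ (n - 1) := by
  obtain ⟨k, rfl⟩ : ∃ k, n = k + 3 := ⟨n - 3, by omega⟩
  have e : k + 3 - 1 = k + 2 := by omega
  rw [e, pow_add]
  have h1 : (1 : ℝ) + k ≤ 2 ^ k := by
    have : k + 1 ≤ 2 ^ k := Nat.lt_two_pow_self
    have h2 : ((k + 1 : ℕ) : ℝ) ≤ 2 ^ k := by exact_mod_cast this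
    push_cast at h2
    linarith
  have hk : (0 : ℝ) ≤ k := Nat.cast_nonneg k
  push_cast
  nlinarith

private theorem N1_pow5 (n : ℕ) (hn : 6 ≤ n) : 2 * (n : ℝ) ≤ 3 / 4 * 2 ^ (n - 1) := by
  obtain ⟨k, rfl⟩ : ∃ k, n = k + 6 := ⟨n - 6, by omega⟩
  have e : k + 6 - 1 = k + 5 := by omega
  rw [e, pow_add]
  have h1 : (1 : ℝ) + k ≤ 2 ^ k := by
    have : k + 1 ≤ 2 ^ k := Nat.lt_two_pow_self
    have h2 : ((k + 1 : ℕ) : ℝ) ≤ 2 ^ k := by exact_mod_cast this
    push_cast at h2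
    linarith
  have hk : (0 : ℝ) ≤ k := Nat.cast_nonneg k
  push_cast
  nlinarith

/-- the numerical heart -/
private theorem N1_core (N m r v : ℕ) (κ p i : ℝ) (hN : 1 ≤ N) (hp : 8 * (N : ℝ) ^ 2 ≤ p) (hrv : r ≤ v) (hvm : v ≤ m)
    (hmN : m ≤ N) (hv : 2 ≤ v) (_hi0 : 0 ≤ i) (hi1 : i ≤ 1) (hκ : κ * r ≤ (1 - i / 4) * 2 ^ (v - 1)) :
    max (p ^ m * (1 - 1 / p) ^ r + κ * r * (p ^ m / (p * 2 ^ (v - 1)))) (2 * (p ^ m / 2 ^ v)) ≤
      p ^ m * (1 - (((r : ℝ) - 1 + i / 4) / p - (N : ℝ) ^ 2 / p ^ 2)) := by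
  have hN' : (1 : ℝ) ≤ N := by exact_mod_cast hN
  have hp8 : (8 : ℝ) ≤ p := by nlinarith
  have hp0 : (0 : ℝ) < p := by linarith
  have hP : (0 : ℝ) < p ^ m := by positivity
  have hrN : (r : ℝ) ≤ N := by exact_mod_cast (hrv.trans hvm).trans hmN
  have hr0 : (0 : ℝ) ≤ r := Nat.cast_nonneg r
  set x : ℝ := 1 / p with hx
  have hx0 : 0 ≤ x := by positivity
  have hx1 : x ≤ 1 := by
    rw [hx, div_le_one hp0]; linarith
  have hbern := N1_bern x hx0 hx1 r
  have hr2 : (r : ℝ) ^ 2 * x ^ 2 ≤ (N : ℝ) ^ 2 * x ^ 2 := by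
    apply mul_le_mul_of_nonneg_right _ (by positivity)
    exact pow_le_pow_left₀ hr0 hrN 2
  have hrhs : (1 - (((r : ℝ) - 1 + i / 4) / p - (N : ℝ) ^ 2 / p ^ 2)) = 1 - ((r : ℝ) - 1 + i / 4) * x + (N : ℝ) ^ 2 * x ^ 2 := by
    rw [hx]; field_simp; ring
  rw [hrhs]
  apply max_le
  · have h2 : κ * r * (p ^ m / (p * 2 ^ (v - 1))) ≤ p ^ m * ((1 - i / 4) * x) := by
      have h3 : κ * r * (p ^ m / (p * 2 ^ (v - 1))) = (κ * r) * (p ^ m * x / 2 ^ (v - 1)) := by
        rw [hx]; field_simp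
      have h4 : p ^ m * ((1 - i / 4) * x) = ((1 - i / 4) * 2 ^ (v - 1)) * (p ^ m * x / 2 ^ (v - 1)) := by
        field_simp
      rw [h3, h4]
      exact mul_le_mul_of_nonneg_right hκ (by positivity)
    have h5 : p ^ m * (1 - x) ^ r ≤ p ^ m * (1 - r * x + (N : ℝ) ^ 2 * x ^ 2) := by
      apply mul_le_mul_of_nonneg_left _ hP.le
      linarith
    calc _ ≤ p ^ m * (1 - r * x + (N : ℝ) ^ 2 * x ^ 2) + p ^ m * ((1 - i / 4) * x) := add_le_add h5 h2
      _ = _ := by ring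
  · have h6 : (4 : ℝ) ≤ 2 ^ v := by
      calc (4 : ℝ) = 2 ^ 2 := by norm_num
        _ ≤ 2 ^ v := pow_le_pow_right₀ (by norm_num) hv
    have h7 : 2 * (p ^ m / 2 ^ v) ≤ p ^ m * (1 / 2) := by
      have : p ^ m / 2 ^ v ≤ p ^ m / 4 := div_le_div_of_nonneg_left hP.le (by norm_num) h6
      linarith
    refine h7.trans (mul_le_mul_of_nonneg_left ?_ hP.le)
    have h8 : (N : ℝ) * x ≤ 1 / 8 := by
      rw [hx, mul_one_div, div_le_iff₀ hp0]
      nlinarith
    have h9 : (r : ℝ) * x ≤ 1 / 8 := (mul_le_mul_of_nonneg_right hrN hx0).trans h8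
    have h10 : ((r : ℝ) - 1 + i / 4) * x ≤ r * x := mul_le_mul_of_nonneg_right (by linarith) hx0
    have h11 : 0 ≤ (N : ℝ) ^ 2 * x ^ 2 := by positivity
    linarith

private theorem N1_deg {ι : Type} [Fintype ι] {g : ι → ℤ[X]} (hg : TR.Fam g) (i : ι) : 1 ≤ (g i).natDegree := by
  by_contra h
  have h0 : (g i).natDegree = 0 := by omega
  have h1 : g i = 1 := (hg.monic i).natDegree_eq_zero.mp h0
  have h2 := hg.irr i
  rw [h1] at h2
  simp at h2

private theorem N1_dg_le {ι : Type} [Fintype ι] (g : ι → ℤ[X]) (I : Finset ι) : dg g I ≤ ∑ i, (g i).natDegree :=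
  Finset.sum_le_univ_sum_of_nonneg (fun _ => Nat.zero_le _)

private theorem N1_three {ι : Type} [Fintype ι] [DecidableEq ι] {g : ι → ℤ[X]} (hg : TR.Fam g) (I : Finset ι)
    (hI : 2 ≤ I.card) (hd : dg g I ≠ 2) : 3 ≤ dg g I := by
  have h1 : I.card ≤ dg g I := by
    unfold dg
    rw [Finset.card_eq_sum_ones]
    exact Finset.sum_le_sum fun i _ => N1_deg hg i
  omega

/-- if `p` splits completely then every index has a factor of odd degree -/
private theorem N1_odd {ι : Type} [Fintype ι] {g : ι → ℤ[X]} (hg : TR.Fam g) (p : ℕ) [Fact p.Prime] (hp : GoodP g p)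
    (i : ι) (h : PT.rt (g i) p = (g i).natDegree) : ∃ f ∈ TR.facs (red p (g i)), Odd f.natDegree := by
  have h1 := TR.rt_facs hg p hp i
  rw [h] at h1
  have h2 := N1_deg hg i
  have h3 : ((TR.facs (red p (g i))).filter fun h => h.natDegree = 1).Nonempty := by
    rw [← Finset.card_pos, h1]; omega
  obtain ⟨f, hf⟩ := h3
  rw [Finset.mem_filter] at hf
  exact ⟨f, hf.1, by rw [hf.2]; exact odd_one⟩

private theorem N1_rts {ι : Type} (g : ι → ℤ[X]) (p : ℕ) (I : Finset ι)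
    (h : ∀ i, PT.rt (g i) p = (g i).natDegree) : rts g I p = dg g I :=
  Finset.sum_congr rfl fun i _ => h i

/-- TR.parity of the complement -/
private theorem N1_par {ι : Type} [Fintype ι] [DecidableEq ι] {g : ι → ℤ[X]} (hg : TR.Fam g) (p : ℕ) [Fact p.Prime]
    (hp : GoodP g p) (I : Finset ι) (h : ¬ ∃ i, i ∉ I ∧ ∃ f ∈ TR.facs (red p (g i)), Odd f.natDegree) : Even (dg g I) := by
  have h1 : Even (dg g Iᶜ) := by
    apply TR.parity hg p hp
    intro i hi f hf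
    by_contra hne
    exact h ⟨i, Finset.mem_compl.mp hi, f, hf, Nat.not_even_iff_odd.mp hne⟩
  have h2 : dg g I + dg g Iᶜ = ∑ i, (g i).natDegree := Finset.sum_add_sum_compl I _
  have h3 := hg.even
  rw [← h2] at h3
  exact (Nat.even_add.mp h3).mpr h1

open Classical in
private theorem N1_kap {ι : Type} [Fintype ι] [DecidableEq ι] {g : ι → ℤ[X]} (hg : TR.Fam g) (S : Set ℕ)
    (hS : ∀ p ∈ S, ∀ i, PT.rt (g i) p = (g i).natDegree) (p : ℕ) [Fact p.Prime] (hp : GoodP g p) (I : Finset ι)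
    (hI : 2 ≤ I.card) (hd2 : dg g I ≠ 2) :
    (if ∃ i, i ∉ I ∧ ∃ f ∈ TR.facs (red p (g i)), Odd f.natDegree then (1 : ℝ) else 2) * rts g I p ≤
      (1 - PT.ind S p / 4) * 2 ^ (TR.nu g p I - 1) := by
  obtain ⟨hn1, hn2, hn3, hn4⟩ := TR.nu_facts hg p hp I
  have hm3 := N1_three hg I hI hd2
  by_cases hodd : ∃ i, i ∉ I ∧ ∃ f ∈ TR.facs (red p (g i)), Odd f.natDegree
  · rw [if_pos hodd, one_mul]
    by_cases hpS : p ∈ S
    · have e : PT.ind S p = 1 := if_pos hpS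
      have h1 := N1_rts g p I (hS p hpS)
      have h2 : TR.nu g p I = dg g I := by omega
      rw [e, h1, h2]
      have := N1_pow4 (dg g I) hm3
      linarith
    · have e : PT.ind S p = 0 := if_neg hpS
      rw [e]
      have h1 := N1_pow1 (TR.nu g p I) (by omega)
      have h2 : (rts g I p : ℝ) ≤ TR.nu g p I := by exact_mod_cast hn1
      linarith
  · rw [if_neg hodd]
    have hev := N1_par hg p hp I hodd
    have hm4 : 4 ≤ dg g I := by
      rcases Nat.lt_or_ge (dg g I) 4 with h | h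
      · have h3 : dg g I = 3 := by omega
        rw [h3] at hev
        exact absurd hev (by decide)
      · exact h
    by_cases hpS : p ∈ S
    · have e : PT.ind S p = 1 := if_pos hpS
      have h1 := N1_rts g p I (hS p hpS)
      have h2 : TR.nu g p I = dg g I := by omega
      have hI' : I = univ := by
        apply Finset.eq_univ_of_forall
        intro i
        by_contra hi
        exact hodd ⟨i, hi, N1_odd hg p hp i (hS p hpS i)⟩
      have h6 : 6 ≤ dg g I := by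
        rw [hI']; exact hg.six
      rw [e, h1, h2]
      have := N1_pow5 (dg g I) h6
      linarith
    · have e : PT.ind S p = 0 := if_neg hpS
      rw [e]
      by_cases hr : rts g I p = dg g I
      · have h2 : TR.nu g p I = dg g I := by omega
        rw [hr, h2]
        have := N1_pow3 (dg g I) hm4
        linarith
      · have h3 := hn3 hr
        have h4 := N1_pow2 (rts g I p)
        have h5 : (2 : ℝ) ^ (rts g I p) ≤ 2 ^ (TR.nu g p I - 1) := pow_le_pow_right₀ (by norm_num) (by omega)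
        linarith

private theorem N1_om_card {ι : Type} [Fintype ι] [DecidableEq ι] (g : ι → ℤ[X]) (I : Finset ι) :
    (univ.filter fun c : Co g => c.1 ∈ I).card = dg g I := by
  have h : (univ.filter fun c : Co g => c.1 ∈ I) = I.sigma fun i => (univ : Finset (Fin (g i).natDegree)) := by
    ext c
    simp only [Finset.mem_filter, Finset.mem_univ, true_and, Finset.mem_sigma, and_true]
  rw [h, Finset.card_sigma]
  simp only [Finset.card_univ, Fintype.card_fin]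
  rfl

theorem fib_three {ι : Type} [Fintype ι] [DecidableEq ι] {g : ι → ℤ[X]} (hg : TR.Fam g) (S : Set ℕ)
    (hS : ∀ p ∈ S, ∀ i, PT.rt (g i) p = (g i).natDegree) :
    ∃ C0 : ℝ, 0 ≤ C0 ∧ ∀ p : ℕ, GoodP g p → ∀ I : Finset ι, 2 ≤ I.card → dg g I ≠ 2 → ∀ y : Co g → ZMod p,
      (Nat.card {w : Co g → ZMod p // Al g p w ∧ ∀ c : Co g, c.1 ∉ I → w c = y c} : ℝ) ≤
        (p : ℝ) ^ dg g I * (1 - (((rts g I p : ℝ) - 1 + PT.ind S p / 4) / p - C0 / (p : ℝ) ^ 2)) := by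
  classical
  refine ⟨((∑ i, (g i).natDegree : ℕ) : ℝ) ^ 2, by positivity, ?_⟩
  intro p hp I hI hd2 y
  have : Fact p.Prime := ⟨hp.prime⟩
  obtain ⟨hn1, hn2, hn3, hn4⟩ := TR.nu_facts hg p hp I
  have hbig : 8 * ((∑ i, (g i).natDegree : ℕ) : ℝ) ^ 2 ≤ p := by exact_mod_cast hp.big
  have h6 := hg.six
  refine (TR.fib hg p hp I y).trans ?_
  have hi0 : 0 ≤ PT.ind S p := by unfold PT.ind; split_ifs <;> norm_num
  have hi1 : PT.ind S p ≤ 1 := by unfold PT.ind; split_ifs <;> norm_num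
  exact N1_core (∑ i, (g i).natDegree) (dg g I) (rts g I p) (TR.nu g p I) _ (p : ℝ) (PT.ind S p) (by omega) hbig hn1 hn2
    (N1_dg_le g I) (by omega) hi0 hi1 (N1_kap hg S hS p hp I hI hd2)

theorem omega_three {ι : Type} [Fintype ι] [DecidableEq ι] {g : ι → ℤ[X]} (hg : TR.Fam g) (S : Set ℕ)
    (hS : ∀ p ∈ S, ∀ i, PT.rt (g i) p = (g i).natDegree) :
    ∃ C1 : ℝ, 0 ≤ C1 ∧ ∀ p : ℕ, GoodP g p → ∀ I : Finset ι, 2 ≤ I.card → dg g I ≠ 2 →
      ∃ (Ω : Set (Co g → ZMod p)) (ω : ℝ), (∀ w ∈ Ω, ¬ Al g p w) ∧ 0 ≤ ω ∧ ω ≤ 1 / 2 ∧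
        ω ≤ (∑ i, (g i).natDegree : ℕ) / (p : ℝ) ∧
        ((rts g I p : ℝ) - 1 + PT.ind S p / 4) / p - C1 / (p : ℝ) ^ 2 ≤ ω ∧
        ∀ y : Co g → ZMod p, (Nat.card {w : Co g → ZMod p // w ∈ Ω ∧ ∀ c : Co g, c.1 ∉ I → w c = y c} : ℝ) =
          ω * (p : ℝ) ^ (univ.filter fun c : Co g => c.1 ∈ I).card := by
  obtain ⟨C0, hC0, hfib⟩ := fib_three hg S hS
  refine ⟨C0 + 1, by linarith, ?_⟩
  intro p hp I hI hd2
  have : Fact p.Prime := ⟨hp.prime⟩
  have hpp : (0 : ℝ) < p := by exact_mod_cast hp.prime.pos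
  have hp1 : (1 : ℝ) ≤ p := by exact_mod_cast hp.prime.one_lt.le
  obtain ⟨hn1, hn2, -, hn4⟩ := TR.nu_facts hg p hp I
  set N : ℕ := ∑ i, (g i).natDegree with hN
  have hm2 : 2 ≤ dg g I := le_trans hI (le_trans hn4 hn2)
  have hmN : dg g I ≤ N := Finset.sum_le_sum_of_subset (Finset.subset_univ I)
  have hρN : (rts g I p : ℝ) ≤ N := by exact_mod_cast (hn1.trans hn2).trans hmN
  have hNp : (N : ℝ) / p ≤ 1 / 2 := by
    rw [div_le_div_iff₀ hpp two_pos]
    have h1 : (8 : ℝ) * (N : ℝ) ^ 2 ≤ p := by exact_mod_cast hp.big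
    have h2 : (6 : ℝ) ≤ N := by exact_mod_cast hg.six
    nlinarith
  have hind : PT.ind S p / 4 ≤ 1 := by unfold PT.ind; split_ifs <;> norm_num
  set γ : ℝ := ((rts g I p : ℝ) - 1 + PT.ind S p / 4) / p - C0 / (p : ℝ) ^ 2 with hγ
  have hp2 : (0 : ℝ) < (p : ℝ) ^ 2 := by positivity
  have hC1 : ((rts g I p : ℝ) - 1 + PT.ind S p / 4) / p - (C0 + 1) / (p : ℝ) ^ 2 = γ - 1 / (p : ℝ) ^ 2 := by
    rw [hγ, add_div]
    ring
  have hinv : (0 : ℝ) < 1 / (p : ℝ) ^ 2 := by positivity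
  rcases le_or_gt γ 0 with h0 | h0
  · refine ⟨∅, 0, fun w hw => absurd hw (Set.notMem_empty w), le_rfl, by norm_num, by positivity, ?_, ?_⟩
    · rw [hC1]
      linarith
    · intro y
      rw [zero_mul, Nat.cast_eq_zero, Nat.card_eq_zero]
      left
      exact ⟨fun w => Set.notMem_empty _ w.2.1⟩
  have hm0 : (0 : ℝ) < (p : ℝ) ^ dg g I := by positivity
  set u : ℕ := ⌊(p : ℝ) ^ dg g I * γ⌋₊ with hu
  have hu1 : (u : ℝ) ≤ (p : ℝ) ^ dg g I * γ := Nat.floor_le (by positivity)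
  have hu2 : (p : ℝ) ^ dg g I * γ < u + 1 := Nat.lt_floor_add_one _
  have hA := N1_om_card g I
  obtain ⟨Ω, hΩ1, hΩ2⟩ := choose_omega p hp.prime {w : Co g → ZMod p | Al g p w} (univ.filter fun c : Co g => c.1 ∈ I) u
    (by
      intro y
      rw [hA]
      have h1 := hfib p hp I hI hd2 y
      have h2 : Nat.card {w : Co g → ZMod p // w ∈ {w : Co g → ZMod p | Al g p w} ∧
          ∀ c, c ∉ (univ.filter fun c : Co g => c.1 ∈ I) → w c = y c} =
          Nat.card {w : Co g → ZMod p // Al g p w ∧ ∀ c : Co g, c.1 ∉ I → w c = y c} := by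
        refine Nat.card_congr (Equiv.subtypeEquivRight fun w => ?_)
        simp only [Set.mem_ofPred_eq, Finset.mem_filter, Finset.mem_univ, true_and]
      rw [h2]
      have h3 : ((Nat.card {w : Co g → ZMod p // Al g p w ∧ ∀ c : Co g, c.1 ∉ I → w c = y c} + u : ℕ) : ℝ) ≤
          ((p ^ dg g I : ℕ) : ℝ) := by
        push_cast
        calc (Nat.card {w : Co g → ZMod p // Al g p w ∧ ∀ c : Co g, c.1 ∉ I → w c = y c} : ℝ) + u
            ≤ (p : ℝ) ^ dg g I * (1 - γ) + (p : ℝ) ^ dg g I * γ := add_le_add h1 hu1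
          _ = (p : ℝ) ^ dg g I := by ring
      exact_mod_cast h3)
  have hωγ : (u : ℝ) / (p : ℝ) ^ dg g I ≤ γ := by
    rw [div_le_iff₀ hm0]
    linarith
  have hγN : γ ≤ N / p := by
    have h1 : ((rts g I p : ℝ) - 1 + PT.ind S p / 4) / p ≤ N / p :=
      div_le_div_of_nonneg_right (by linarith) hpp.le
    have h2 : 0 ≤ C0 / (p : ℝ) ^ 2 := by positivity
    rw [hγ]
    linarith
  refine ⟨Ω, u / (p : ℝ) ^ dg g I, fun w hw => hΩ1 w hw, by positivity, by linarith, by linarith, ?_, ?_⟩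
  · rw [hC1]
    have h1 : (p : ℝ) ^ 2 ≤ (p : ℝ) ^ dg g I := pow_le_pow_right₀ hp1 hm2
    have h2 : 1 / (p : ℝ) ^ dg g I ≤ 1 / (p : ℝ) ^ 2 := one_div_le_one_div_of_le hp2 h1
    have h3 : γ ≤ (u : ℝ) / (p : ℝ) ^ dg g I + 1 / (p : ℝ) ^ dg g I := by
      rw [← add_div, le_div_iff₀ hm0]
      linarith
    linarith
  · intro y
    have h1 := hΩ2 y
    have h2 : Nat.card {w : Co g → ZMod p // w ∈ Ω ∧ ∀ c : Co g, c.1 ∉ I → w c = y c} =
        Nat.card {w : Co g → ZMod p // w ∈ Ω ∧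
          ∀ c, c ∉ (univ.filter fun c : Co g => c.1 ∈ I) → w c = y c} := by
      refine Nat.card_congr (Equiv.subtypeEquivRight fun w => ?_)
      simp only [Finset.mem_filter, Finset.mem_univ, true_and]
    rw [h2, h1, hA, div_mul_cancel₀ _ hm0.ne']

end QV
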