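import Pool.Agent.Lib.MP_10e784_agQV.N1
import Pool.Agent.Lib.MP_10e784_agTR.TWSV

/-! JOB N2.  The sieve bound for the layers which are no pair layers, without a hypothesis on pairs of roots.
COPY of `TR.sv_large` and `TR.sv` (files MP_10e784_agTR/TWSVa.lean, TWSV.lean), with `omega_three` in place of `omega_one` and `T = fun _ => S` (`S, n, hS` from `PT.split_set`) in `W_bounds`: `Inc S (1 / n) C` follows from `hS.upper`, `hS.lower` (`PT.PS (PT.ind S) y - PT.PS (PT.ind S) x`).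
The index set `I = {i | k + 1 ≤ lv K L (j i)}` of a range has at least two elements (as in `sv_large`).  If `dg g I = 2`, then `I = {r, s}` with `g r`, `g s` linear (all degrees are `≥ 1`), and for `k' ∉ I` the value `j k'` is smaller than `j r` and `j s` (`lv_iff`: `lam ^ (k + 1) ≤ j r`, not `≤ j k'`), so `Pr g j`, a contradiction.  So `dg g I ≠ 2` and `gn g S T I p = PT.ind S p / 4`. -/

set_option autoImplicit false

namespace QV

open Finset Polynomial TW TR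

open Filter in
private theorem N2_ev (K : ℕ) (hK : 0 < K) (A B c : ℝ) (hc : 0 < c) :
    ∀ᶠ L : ℕ in atTop, A * Real.log L + B ≤ c * lam K L ^ (1 / 2 : ℝ) := by
  have hK' : (0 : ℝ) < K := by exact_mod_cast hK
  set a : ℝ := (1 / K) * (1 / 2) with ha
  have ha0 : 0 < a := by positivity
  have h1 : (fun x : ℝ => A * Real.log x) =o[atTop] fun x => x ^ a :=
    (isLittleO_log_rpow_atTop ha0).const_mul_left A
  have h2 : (fun _ : ℝ => B) =o[atTop] fun x : ℝ => x ^ a := by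
    apply Asymptotics.isLittleO_const_left.mpr
    right
    exact tendsto_norm_atTop_atTop.comp (tendsto_rpow_atTop ha0)
  have h3 := (h1.add h2).bound hc
  have h4 := (tendsto_natCast_atTop_atTop (R := ℝ)).eventually h3
  filter_upwards [h4, eventually_ge_atTop 1] with L hL hL1
  have hL0 : (0 : ℝ) ≤ L := Nat.cast_nonneg L
  have h5 : lam K L ^ (1 / 2 : ℝ) = (L : ℝ) ^ a := by
    unfold lam
    rw [← Real.rpow_mul hL0, ha]
  rw [h5]
  have h6 : 0 ≤ (L : ℝ) ^ a := Real.rpow_nonneg hL0 _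
  calc A * Real.log L + B ≤ ‖A * Real.log L + B‖ := le_abs_self _
    _ ≤ c * ‖(L : ℝ) ^ a‖ := hL
    _ = c * (L : ℝ) ^ a := by rw [Real.norm_of_nonneg h6]

private theorem N2_pow (η : ℝ) (h0 : 0 ≤ η) (h1 : η ≤ 1) (N : ℕ) : (1 + η) ^ N - 1 ≤ (2 ^ N - 1) * η := by
  induction N with
  | zero => simp
  | succ N ih =>
    have h2 : (1 : ℝ) ≤ 2 ^ N := one_le_pow₀ (by norm_num)
    have h3 : (1 + η) ^ (N + 1) - 1 = ((1 + η) ^ N - 1) * (1 + η) + η := by ring
    rw [h3]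
    have h4 : ((1 + η) ^ N - 1) * (1 + η) ≤ ((2 ^ N - 1) * η) * (1 + η) :=
      mul_le_mul_of_nonneg_right ih (by linarith)
    have h5 : ((2 ^ N - 1) * η) * (1 + η) ≤ ((2 ^ N - 1) * η) * 2 :=
      mul_le_mul_of_nonneg_left (by linarith) (mul_nonneg (by linarith) h0)
    have h6 : ((2 : ℝ) ^ (N + 1) - 1) * η = ((2 ^ N - 1) * η) * 2 + η := by ring
    linarith

private theorem N2_prod_le (P : Finset ℕ) (ω : ℕ → ℝ) (h : ∀ p ∈ P, 0 ≤ ω p ∧ ω p ≤ 1) :
    ∏ p ∈ P, (1 - ω p) ≤ Real.exp (-∑ p ∈ P, ω p) := by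
  rw [← Finset.sum_neg_distrib, Real.exp_sum]
  apply Finset.prod_le_prod
  · intro p hp
    linarith [(h p hp).2]
  · intro p hp
    have := Real.add_one_le_exp (-ω p)
    linarith

private theorem N2_prod_le' (P : Finset ℕ) (ω : ℕ → ℝ) (h : ∀ p ∈ P, 0 ≤ ω p) :
    ∏ p ∈ P, (1 + ω p) ≤ Real.exp (∑ p ∈ P, ω p) := by
  rw [Real.exp_sum]
  apply Finset.prod_le_prod
  · intro p hp
    linarith [h p hp]
  · intro p hp
    have := Real.add_one_le_exp (ω p)
    linarith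

private theorem N2_tl_nonneg (D : ℝ) (P : Finset ℕ) (ω : ℕ → ℝ) (h : ∀ p ∈ P, 0 ≤ ω p) : 0 ≤ tl D P ω := by
  unfold tl
  apply Finset.sum_nonneg
  intro T hT
  apply Finset.prod_nonneg
  intro p hp
  exact h p (Finset.mem_powerset.mp (Finset.mem_filter.mp hT).1 hp)

/-- one range -/
private theorem N2_one (K : ℕ) (L : ℝ) (hL : 1 ≤ L) (c1 : ℝ) (hc1 : 0 ≤ c1) (k : ℕ) (P : Finset ℕ)
    (hP : ∀ p ∈ P, 1 ≤ p ∧ (p : ℝ) ≤ zz K L k) (ω : ℕ → ℝ) (hω : ∀ p ∈ P, 0 ≤ ω p ∧ ω p ≤ 1)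
    (hb : (Real.exp 1 + 1) * ∑ p ∈ P, ω p ≤ c1 * lam K L ^ (1 / 2 : ℝ)) :
    ∏ p ∈ P, (1 - ω p) + 2 * tl (Dd c1 K L k) P ω ≤ 3 * Real.exp (-∑ p ∈ P, ω p) := by
  have hlam : 0 < lam K L := Real.rpow_pos_of_pos (by linarith) _
  have hD : 1 ≤ Dd c1 K L k := by
    unfold Dd
    exact Real.one_le_exp (by positivity)
  have hz : 1 < zz K L k := by
    unfold zz
    exact Real.one_lt_exp_iff.mpr (Real.rpow_pos_of_pos hlam _)
  have h1 := tail (Dd c1 K L k) (zz K L k) hD hz P hP ω (fun p hp => (hω p hp).1)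
  have h2 : Real.log (Dd c1 K L k) / Real.log (zz K L k) = c1 * lam K L ^ (1 / 2 : ℝ) := by
    unfold Dd zz
    rw [Real.log_exp, Real.log_exp]
    have h3 : lam K L ^ (k + 1) = lam K L ^ ((k : ℝ) + 1 / 2) * lam K L ^ (1 / 2 : ℝ) := by
      rw [← Real.rpow_add hlam, ← Real.rpow_natCast]
      congr 1
      push_cast
      ring
    rw [h3]
    have h4 : lam K L ^ ((k : ℝ) + 1 / 2) ≠ 0 := (Real.rpow_pos_of_pos hlam _).ne'
    field_simp
  rw [h2, ← Real.exp_add] at h1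
  have h3 := N2_prod_le P ω hω
  have h4 : Real.exp (-(c1 * lam K L ^ (1 / 2 : ℝ)) + Real.exp 1 * ∑ p ∈ P, ω p) ≤
      Real.exp (-∑ p ∈ P, ω p) := by
    apply Real.exp_le_exp.mpr
    nlinarith
  linarith

/-- the increments of the set of the split primes -/
private theorem N2_inc {ι : Type} {g : ι → ℤ[X]} {S : Set ℕ} {n : ℕ} (hS : PT.Spl g S n) :
    ∃ CT : ℝ, 0 ≤ CT ∧ Inc S (1 / n) CT := by
  obtain ⟨A, hA⟩ := hS.upper
  obtain ⟨B, hB⟩ := hS.lower
  refine ⟨|A| + |B|, by positivity, fun x y hx hxy => ?_⟩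
  have h1 := hA x hx
  have h2 := hB y (hx.trans hxy)
  have h3 := le_abs_self A
  have h4 := le_abs_self B
  rw [mul_sub]
  linarith

/-- an index set which contains the two largest coordinates has total degree different from two -/
private theorem N2_dg {ι : Type} [Fintype ι] [DecidableEq ι] {g : ι → ℤ[X]} (hg : TR.Fam g) {j : ι → ℕ} {i₀ i₁ : ι}
    (hne : i₁ ≠ i₀) (hmax : ∀ i, i ≠ i₀ → j i ≤ j i₁) (hle : j i₁ ≤ j i₀) (hP : ¬ Pr g j) (I : Finset ι) (h0 : i₀ ∈ I)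
    (h1 : i₁ ∈ I) : dg g I ≠ 2 := by
  intro h2
  have hdeg : ∀ i, 1 ≤ (g i).natDegree := by
    intro i
    have h2 := (hg.irr i).natDegree_pos
    rwa [(hg.monic i).natDegree_map] at h2
  have hsub : ({i₀, i₁} : Finset ι) ⊆ I := by
    intro i hi
    rcases Finset.mem_insert.1 hi with rfl | h
    · exact h0
    · rw [Finset.mem_singleton.1 h]
      exact h1
  have h3 : dg g {i₀, i₁} ≤ dg g I := Finset.sum_le_sum_of_subset hsub
  have h4 : dg g {i₀, i₁} = (g i₀).natDegree + (g i₁).natDegree := by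
    unfold dg
    rw [Finset.sum_pair hne.symm]
  have h5 := hdeg i₀
  have h6 := hdeg i₁
  refine hP ⟨i₀, i₁, hne.symm, by omega, by omega, fun k hk0 _ => ⟨?_, hmax k hk0⟩⟩
  exact (hmax k hk0).trans hle

open Classical in
private theorem N2_large {ι : Type} [Fintype ι] [DecidableEq ι] {g : ι → ℤ[X]} (hg : TR.Fam g) (M : ℕ) (hM : M ≠ 0) (C : ℝ) (hC : 1 ≤ C) :
    ∃ (C' δ : ℝ) (L1 : ℕ), 0 < δ ∧ 0 < C' ∧ ∀ (j : ι → ℕ) (i₀ i₁ : ι), i₁ ≠ i₀ → (∀ i, i ≠ i₀ → j i ≤ j i₁) → j i₁ ≤ j i₀ →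
      ¬ Pr g j → L1 ≤ j i₁ →
      (Nat.card {x : Co g → ℤ // Bx g C j x ∧ Loc g M x} : ℝ) ≤
        C' * 2 ^ (∑ i, j i) * ∏ i ∈ univ.erase i₀, ((1 + j i : ℝ)) ^ (-(1 + δ)) := by
  obtain ⟨M1, hM1, hgood⟩ := good_exists hg
  obtain ⟨S, n, hS⟩ := PT.split_set g hg.irr
  obtain ⟨CT, hCT, hInc⟩ := N2_inc hS
  have hcT : (0 : ℝ) < 1 / n := by
    have := hS.npos
    have h1 : (0 : ℝ) < n := by exact_mod_cast this
    positivity
  obtain ⟨C1, hC1, hom⟩ := omega_three hg S (fun p hp i => hS.split p hp i)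
  obtain ⟨K, δ, C2, L0, hK, hδ, hC2, hW⟩ := W_bounds hg S n hS (fun _ => S) (1 / n) CT hcT hCT (fun _ _ _ => hInc)
    (M * M1) (mul_ne_zero hM hM1) C1 hC1
  set N : ℕ := ∑ i, (g i).natDegree with hN
  have hN6 : 6 ≤ N := hg.six
  have hN0 : (0 : ℝ) < N := by
    have : 0 < N := by omega
    exact_mod_cast this
  have hlog2 : 0 < Real.log 2 := Real.log_pos (by norm_num)
  set c1 : ℝ := Real.log 2 / (8 * N) with hc1
  have hc1p : 0 < c1 := by positivity
  -- the largeness conditions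
  have hev : ∀ᶠ L : ℕ in Filter.atTop, (0 * Real.log L + 2 ≤ 1 * lam K L ^ (1 / 2 : ℝ) ∧
      0 * Real.log L + 1 / c1 ≤ 1 * lam K L ^ (1 / 2 : ℝ)) ∧
      (((Real.exp 1 + 1) * N) * Real.log L + (Real.exp 1 + 1) * C2 ≤ c1 * lam K L ^ (1 / 2 : ℝ) ∧
      (2 * N) * Real.log L + (N * Real.log 2 + 2 * C2) ≤ (Real.log 2 / (2 * N)) * lam K L ^ (1 / 2 : ℝ)) ∧
      (L0 ≤ (L : ℝ) ∧ 1 ≤ L) := by
    refine ((N2_ev K hK 0 2 1 one_pos).and (N2_ev K hK 0 (1 / c1) 1 one_pos)).and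
      (((N2_ev K hK _ _ c1 hc1p).and (N2_ev K hK _ _ _ (by positivity))).and
        (((tendsto_natCast_atTop_atTop (R := ℝ)).eventually (Filter.eventually_ge_atTop L0)).and
          (Filter.eventually_ge_atTop 1)))
  obtain ⟨L1, hL1⟩ := Filter.eventually_atTop.mp hev
  refine ⟨(3 * C) ^ N * (3 ^ K + 1) * Real.exp C2, δ, L1, hδ, by positivity, ?_⟩
  intro j i₀ i₁ hne hmax hle hnP hLj
  obtain ⟨⟨e1, e2⟩, ⟨e3, e4⟩, e5, e6⟩ := hL1 (j i₁) hLj
  set L : ℕ := j i₁ with hLdef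
  have hL1' : (1 : ℝ) ≤ (L : ℝ) := by exact_mod_cast e6
  have hL0' : (0 : ℝ) < (L : ℝ) := by linarith
  have hlampos : 0 < lam K L := Real.rpow_pos_of_pos hL0' _
  have hsq : lam K L ^ (1 / 2 : ℝ) * lam K L ^ (1 / 2 : ℝ) = lam K L := by
    rw [← Real.rpow_add hlampos]
    norm_num
  rw [zero_mul, zero_add, one_mul] at e1 e2
  have hlam2 : 2 ≤ lam K L := by nlinarith
  have hhalf : lam K L ^ (1 / 2 : ℝ) ≤ lam K L := by nlinarith
  have hlamc : lam K L ^ (-(1 / 2) : ℝ) ≤ Real.log 2 / (8 * N) := by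
    rw [Real.rpow_neg hlampos.le, ← hc1]
    have h1 : 0 < lam K L ^ (1 / 2 : ℝ) := by positivity
    rw [inv_le_comm₀ h1 hc1p, ← one_div]
    exact e2
  have hlt0 : lv K L (j i₀) = K := lv_top K hK L hL1' (j i₀) (by exact_mod_cast hle)
  have hlt1 : lv K L (j i₁) = K := lv_top K hK L hL1' (j i₁) le_rfl
  have hPk : ∀ k p, p ∈ Pk (M * M1) K L k → p.Prime ∧ ¬ p ∣ M * M1 ∧ 1 ≤ p ∧ (p : ℝ) ≤ zz K L k := by
    intro k p hp
    unfold Pk at hp
    rw [Finset.mem_filter, Finset.mem_Icc] at hp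
    refine ⟨hp.2.1, hp.2.2.1, hp.1.1, ?_⟩
    have h0 : 0 ≤ zz K L k := (Real.exp_pos _).le
    exact (Nat.le_floor_iff h0).mp hp.1.2
  have hgp : ∀ k p, p ∈ Pk (M * M1) K L k → GoodP g p := by
    intro k p hp
    have h := hPk k p hp
    exact hgood p h.1 (fun h' => h.2.1 (dvd_mul_of_dvd_right h' M))
  have hcard : ∀ k, k < K → 2 ≤ (univ.filter fun i => k + 1 ≤ lv K L (j i)).card ∧
      dg g (univ.filter fun i => k + 1 ≤ lv K L (j i)) ≠ 2 := by
    intro k hk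
    have h0 : i₀ ∈ univ.filter fun i => k + 1 ≤ lv K L (j i) := by
      rw [Finset.mem_filter]
      exact ⟨Finset.mem_univ _, by omega⟩
    have h1 : i₁ ∈ univ.filter fun i => k + 1 ≤ lv K L (j i) := by
      rw [Finset.mem_filter]
      exact ⟨Finset.mem_univ _, by omega⟩
    have h : 1 < (univ.filter fun i => k + 1 ≤ lv K L (j i)).card :=
      Finset.one_lt_card.mpr ⟨i₀, h0, i₁, h1, hne.symm⟩
    exact ⟨by omega, N2_dg hg hne hmax hle hnP _ h0 h1⟩
  -- the choice of the forbidden residues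
  have hex : ∀ p : ℕ, ∃ F : Set (Co g → ZMod p) × ℝ, ∀ k, k < K → p ∈ Pk (M * M1) K L k →
      ((∀ w ∈ F.1, ¬ Al g p w) ∧ 0 ≤ F.2 ∧ F.2 ≤ 1 / 2 ∧
        F.2 ≤ (N : ℝ) / (p : ℝ) ∧
        ((rts g (univ.filter fun i => k + 1 ≤ lv K L (j i)) p : ℝ) - 1 + gn g S (fun _ => S) (univ.filter fun i => k + 1 ≤ lv K L (j i)) p) / p - C1 / (p : ℝ) ^ 2 ≤ F.2 ∧
        ∀ y : Co g → ZMod p, (Nat.card {w : Co g → ZMod p // w ∈ F.1 ∧
          ∀ c : Co g, c.1 ∉ (univ.filter fun i => k + 1 ≤ lv K L (j i)) → w c = y c} : ℝ) =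
          F.2 * (p : ℝ) ^ (univ.filter fun c : Co g => c.1 ∈ (univ.filter fun i => k + 1 ≤ lv K L (j i))).card) := by
    intro p
    by_cases h : ∃ k, k < K ∧ p ∈ Pk (M * M1) K L k
    · obtain ⟨k, hk, hp⟩ := h
      obtain ⟨Ω, ω, h1⟩ := hom p (hgp k p hp) (univ.filter fun i => k + 1 ≤ lv K L (j i)) (hcard k hk).1 (hcard k hk).2
      have hgn : gn g S (fun _ => S) (univ.filter fun i => k + 1 ≤ lv K L (j i)) p = PT.ind S p / 4 := by
        unfold gn
        exact if_neg (hcard k hk).2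
      rw [← hgn] at h1
      refine ⟨(Ω, ω), ?_⟩
      intro k' hk' hp'
      have hkk : k = k' := by
        by_contra hne'
        exact (Finset.disjoint_left.mp (Pk_disj (M * M1) K L hL1' k k' hne')) hp hp'
      subst hkk
      exact h1
    · refine ⟨(∅, 0), ?_⟩
      intro k hk hp
      exact absurd ⟨k, hk, hp⟩ h
  choose F hF using hex
  have hω0 : ∀ k, k < K → ∀ p ∈ Pk (M * M1) K L k, 0 ≤ (F p).2 ∧ (F p).2 ≤ 1 := by
    intro k hk p hp
    obtain ⟨-, h1, h2, -⟩ := hF p k hk hp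
    exact ⟨h1, by linarith⟩
  obtain ⟨hWl, hWu⟩ := hW j i₀ i₁ L hne (by exact_mod_cast e5) hmax hle le_rfl (fun p => (F p).2) (by
    intro k hk p hp
    obtain ⟨-, -, -, h4, h5, -⟩ := hF p k hk hp
    exact ⟨h5, h4⟩)
  set W : ℝ := ∑ k ∈ range K, ∑ p ∈ Pk (M * M1) K L k, (F p).2 with hWdef
  have hWk0 : ∀ k, k < K → 0 ≤ ∑ p ∈ Pk (M * M1) K L k, (F p).2 := by
    intro k hk
    exact Finset.sum_nonneg fun p hp => (hω0 k hk p hp).1
  have hWk : ∀ k, k < K → ∑ p ∈ Pk (M * M1) K L k, (F p).2 ≤ W := by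
    intro k hk
    exact Finset.single_le_sum (f := fun k => ∑ p ∈ Pk (M * M1) K L k, (F p).2)
      (fun k' hk' => hWk0 k' (Finset.mem_range.mp hk')) (Finset.mem_range.mpr hk)
  have hW0 : 0 ≤ W := Finset.sum_nonneg fun k hk => hWk0 k (Finset.mem_range.mp hk)
  have hexp1 : 0 < Real.exp 1 + 1 := by positivity
  -- the sieve
  set η : ℝ := (2 : ℝ) ^ (-(lam K L / (2 * N))) with hη
  have hη0 : 0 ≤ η := by positivity
  have hη1 : η ≤ 1 := by
    rw [hη]
    apply Real.rpow_le_one_of_one_le_of_nonpos (by norm_num)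
    have : 0 ≤ lam K L / (2 * N) := by positivity
    linarith
  have hmul := multi (κ := Co g) K (fun k => Pk (M * M1) K L k) (fun k p hp => (hPk k p hp).1)
    (fun k k' hkk => Pk_disj (M * M1) K L hL1' k k' (fun h => hkk (Fin.ext h)))
    (fun c => lv K L (j c.1)) (fun p => (F p).1) (fun p => (F p).2)
    (fun k p hp => hω0 k k.2 p hp) (by
      intro k p hp y
      obtain ⟨-, -, -, -, -, h6⟩ := hF p k k.2 hp
      have h7 := h6 y
      simp only [Finset.mem_filter, Finset.mem_univ, true_and, not_le] at h7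
      exact h7)
    (ba g C j) (bH g C j) (fun k => Dd c1 K L k) (fun k => zz K L k)
    (fun k => by
      unfold Dd
      exact Real.one_le_exp (by positivity))
    (fun k => by
      unfold zz
      exact Real.one_le_exp (by positivity))
    (fun k p hp => (hPk k p hp).2.2.2) η hη0 (by
      intro c
      by_cases hc : lv K L (j c.1) = 0
      · left; exact hc
      · right
        have hn1 : 1 ≤ (g c.1).natDegree := by
          have := c.2.2
          omega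
        have hnN : (g c.1).natDegree ≤ N :=
          Finset.single_le_sum (f := fun i => (g i).natDegree) (fun i _ => Nat.zero_le _) (Finset.mem_univ c.1)
        have h1 := modulus K N (g c.1).natDegree hK hn1 hnN L hL1' hlam2 hlamc (j c.1) hc
        refine le_trans h1 ?_
        exact mul_le_mul_of_nonneg_left (bH_low g C hC j c) hη0)
  have hsub : (Nat.card {x : Co g → ℤ // Bx g C j x ∧ Loc g M x} : ℝ) ≤
      Nat.card {x : Co g → ℤ // (∀ c, ba g C j c ≤ x c ∧ x c < ba g C j c + bH g C j c) ∧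
        ∀ k : Fin K, ∀ p ∈ Pk (M * M1) K L k, (fun c => ((x c : ℤ) : ZMod p)) ∉ (F p).1} := by
    have hfin : {x : Co g → ℤ | (∀ c, ba g C j c ≤ x c ∧ x c < ba g C j c + bH g C j c) ∧
        ∀ k : Fin K, ∀ p ∈ Pk (M * M1) K L k, (fun c => ((x c : ℤ) : ZMod p)) ∉ (F p).1}.Finite := by
      have h1 : {x : Co g → ℤ | Bx g C j x}.Finite := by
        exact (bx_card hg C hC j).1
      apply h1.subset
      intro x hx
      exact (bx_iff g C hC j x).mpr hx.1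
    have h2 := Nat.card_mono hfin (s := {x : Co g → ℤ | Bx g C j x ∧ Loc g M x}) (by
      intro x hx
      refine ⟨(bx_iff g C hC j x).mp hx.1, ?_⟩
      intro k p hp hxΩ
      obtain ⟨h1, -⟩ := hF p k k.2 hp
      have h3 := hPk k p hp
      exact h1 _ hxΩ (hx.2 p h3.1 (fun h' => h3.2.1 (dvd_mul_of_dvd_left h' M1))))
    exact_mod_cast h2
  refine le_trans hsub (le_trans hmul ?_)
  have hcardκ : Fintype.card (Co g) = N := by
    rw [Fintype.card_sigma]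
    simp [hN]
  rw [hcardκ]
  -- the main term
  have hmain : ∏ k : Fin K, (∏ p ∈ Pk (M * M1) K L k, (1 - (F p).2) + 2 * tl (Dd c1 K L k) (Pk (M * M1) K L k) (fun p => (F p).2)) ≤
      3 ^ K * Real.exp (-W) := by
    have h1 : ∏ k : Fin K, (∏ p ∈ Pk (M * M1) K L k, (1 - (F p).2) + 2 * tl (Dd c1 K L k) (Pk (M * M1) K L k) (fun p => (F p).2)) ≤
        ∏ k : Fin K, (3 * Real.exp (-∑ p ∈ Pk (M * M1) K L k, (F p).2)) := by
      apply Finset.prod_le_prod
      · intro k _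
        have h2 : 0 ≤ ∏ p ∈ Pk (M * M1) K L k, (1 - (F p).2) :=
          Finset.prod_nonneg fun p hp => by linarith [(hω0 k k.2 p hp).2]
        have h3 := N2_tl_nonneg (Dd c1 K L k) (Pk (M * M1) K L k) (fun p => (F p).2)
          (fun p hp => (hω0 k k.2 p hp).1)
        linarith
      · intro k _
        apply N2_one K L hL1' c1 hc1p.le k (Pk (M * M1) K L k) (fun p hp => (hPk k p hp).2.2) (fun p => (F p).2)
          (fun p hp => hω0 k k.2 p hp)
        have h4 : (Real.exp 1 + 1) * ∑ p ∈ Pk (M * M1) K L k, (F p).2 ≤ (Real.exp 1 + 1) * (N * Real.log L + C2) :=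
          mul_le_mul_of_nonneg_left (le_trans (hWk k k.2) hWu) hexp1.le
        linarith
    refine le_trans h1 (le_of_eq ?_)
    rw [Finset.prod_mul_distrib, Finset.prod_const, Finset.card_univ, Fintype.card_fin, ← Real.exp_sum,
      Finset.sum_neg_distrib, hWdef, Finset.sum_range]
  -- the error term
  have herr : ((1 + η) ^ N - 1) * ∏ k : Fin K, ∏ p ∈ Pk (M * M1) K L k, (1 + (F p).2) ≤ Real.exp (-W) := by
    have h1 : ∏ k : Fin K, ∏ p ∈ Pk (M * M1) K L k, (1 + (F p).2) ≤ Real.exp W := by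
      rw [hWdef, Finset.sum_range, Real.exp_sum]
      apply Finset.prod_le_prod
      · intro k _
        exact Finset.prod_nonneg fun p hp => by linarith [(hω0 k k.2 p hp).1]
      · intro k _
        exact N2_prod_le' _ (fun p => (F p).2) (fun p hp => (hω0 k k.2 p hp).1)
    have h2 : (1 + η) ^ N - 1 ≤ 2 ^ N * η := by
      have h3 := N2_pow η hη0 hη1 N
      nlinarith
    have h4 : 0 ≤ (1 + η) ^ N - 1 := by
      have : (1 : ℝ) ≤ (1 + η) ^ N := one_le_pow₀ (by linarith)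
      linarith
    have h5 : 2 ^ N * η * Real.exp W ≤ Real.exp (-W) := by
      have h6 : (2 : ℝ) ^ N = Real.exp (N * Real.log 2) := by
        rw [mul_comm, Real.exp_mul, Real.exp_log (by norm_num), Real.rpow_natCast]
      have h7 : η = Real.exp (-(Real.log 2 * (lam K L / (2 * N)))) := by
        rw [hη, Real.rpow_def_of_pos (by norm_num)]
        congr 1
        ring
      rw [h6, h7, ← Real.exp_add, ← Real.exp_add]
      apply Real.exp_le_exp.mpr
      have h8 : (Real.log 2 / (2 * N)) * lam K L ^ (1 / 2 : ℝ) ≤ (Real.log 2 / (2 * N)) * lam K L :=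
        mul_le_mul_of_nonneg_left hhalf (by positivity)
      have h9 : Real.log 2 * (lam K L / (2 * N)) = (Real.log 2 / (2 * N)) * lam K L := by ring
      rw [h9]
      nlinarith
    have h10 : 0 ≤ ∏ k : Fin K, ∏ p ∈ Pk (M * M1) K L k, (1 + (F p).2) :=
      Finset.prod_nonneg fun k _ => Finset.prod_nonneg fun p hp => by linarith [(hω0 k k.2 p hp).1]
    calc ((1 + η) ^ N - 1) * ∏ k : Fin K, ∏ p ∈ Pk (M * M1) K L k, (1 + (F p).2)
        ≤ (2 ^ N * η) * Real.exp W := mul_le_mul h2 h1 h10 (by positivity)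
      _ ≤ Real.exp (-W) := h5
  have hH := bH_prod hg C hC j
  have hH0 : 0 ≤ ∏ c, (bH g C j c : ℝ) := Finset.prod_nonneg fun c _ => Nat.cast_nonneg _
  have hexpW : Real.exp (-W) ≤ Real.exp C2 * ∏ i ∈ univ.erase i₀, ((1 + j i : ℝ)) ^ (-(1 + δ)) := by
    have h1 : ∏ i ∈ univ.erase i₀, ((1 + j i : ℝ)) ^ (-(1 + δ)) =
        Real.exp (-((1 + δ) * ∑ i ∈ univ.erase i₀, Real.log (1 + j i))) := by
      rw [Finset.mul_sum, ← Finset.sum_neg_distrib, Real.exp_sum]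
      apply Finset.prod_congr rfl
      intro i _
      have h2 : (0 : ℝ) < 1 + j i := by positivity
      rw [Real.rpow_def_of_pos h2]
      congr 1
      ring
    rw [h1, ← Real.exp_add]
    apply Real.exp_le_exp.mpr
    linarith
  have hP0 : 0 ≤ ∏ i ∈ univ.erase i₀, ((1 + j i : ℝ)) ^ (-(1 + δ)) :=
    Finset.prod_nonneg fun i _ => by positivity
  calc (∏ c, (bH g C j c : ℝ)) * (∏ k : Fin K, (∏ p ∈ Pk (M * M1) K L k, (1 - (F p).2) +
        2 * tl (Dd c1 K L k) (Pk (M * M1) K L k) (fun p => (F p).2)) +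
        ((1 + η) ^ N - 1) * ∏ k : Fin K, ∏ p ∈ Pk (M * M1) K L k, (1 + (F p).2))
      ≤ (∏ c, (bH g C j c : ℝ)) * (3 ^ K * Real.exp (-W) + Real.exp (-W)) :=
        mul_le_mul_of_nonneg_left (add_le_add hmain herr) hH0
    _ ≤ ((3 * C) ^ N * 2 ^ (∑ i, j i)) * (3 ^ K * Real.exp (-W) + Real.exp (-W)) :=
        mul_le_mul_of_nonneg_right hH (by positivity)
    _ = ((3 * C) ^ N * 2 ^ (∑ i, j i)) * (3 ^ K + 1) * Real.exp (-W) := by ring
    _ ≤ ((3 * C) ^ N * 2 ^ (∑ i, j i)) * (3 ^ K + 1) *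
        (Real.exp C2 * ∏ i ∈ univ.erase i₀, ((1 + j i : ℝ)) ^ (-(1 + δ))) :=
        mul_le_mul_of_nonneg_left hexpW (by positivity)
    _ = (3 * C) ^ N * (3 ^ K + 1) * Real.exp C2 * 2 ^ (∑ i, j i) *
        ∏ i ∈ univ.erase i₀, ((1 + j i : ℝ)) ^ (-(1 + δ)) := by ring

theorem sv_np {ι : Type} [Fintype ι] [DecidableEq ι] {g : ι → ℤ[X]} (hg : TR.Fam g) (M : ℕ) (hM : M ≠ 0) (C : ℝ) (hC : 1 ≤ C) :
    ∃ C' δ : ℝ, 0 < δ ∧ 0 < C' ∧ ∀ (j : ι → ℕ) (i₀ : ι), (∀ i, j i ≤ j i₀) → ¬ Pr g j →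
      (Nat.card {x : Co g → ℤ // Bx g C j x ∧ Loc g M x} : ℝ) ≤
        C' * 2 ^ (∑ i, j i) * ∏ i ∈ univ.erase i₀, ((1 + j i : ℝ)) ^ (-(1 + δ)) := by
  obtain ⟨C', δ, L1, hδ, hC', hmain⟩ := N2_large hg M hM C hC
  set N : ℕ := ∑ i, (g i).natDegree with hN
  set q : ℝ := (1 + (L1 : ℝ)) ^ (-(1 + δ)) with hq
  have hb1 : (1 : ℝ) ≤ 1 + (L1 : ℝ) := by
    have : (0 : ℝ) ≤ (L1 : ℝ) := Nat.cast_nonneg _
    linarith
  have hq0 : 0 < q := Real.rpow_pos_of_pos (by linarith) _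
  have hq1 : q ≤ 1 := Real.rpow_le_one_of_one_le_of_nonpos hb1 (by linarith)
  set A : ℝ := (3 * C) ^ N / q ^ Fintype.card ι with hA
  have hC0 : (0 : ℝ) < 3 * C := by linarith
  have hA0 : 0 < A := by positivity
  refine ⟨C' + A, δ, hδ, by positivity, fun j i₀ hj hnP => ?_⟩
  have hP0 : ∀ i, 0 ≤ ((1 + j i : ℝ)) ^ (-(1 + δ)) := fun i => Real.rpow_nonneg (by positivity) _
  have hPP : 0 ≤ ∏ i ∈ univ.erase i₀, ((1 + j i : ℝ)) ^ (-(1 + δ)) :=
    Finset.prod_nonneg fun i _ => hP0 i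
  have h20 : (0 : ℝ) ≤ 2 ^ (∑ i, j i) := by positivity
  by_cases hex : ∃ i₁, i₁ ≠ i₀ ∧ L1 ≤ j i₁
  · obtain ⟨i₁, hi₁, hL⟩ := hex
    have hne : (univ.erase i₀).Nonempty := ⟨i₁, mem_erase.2 ⟨hi₁, mem_univ _⟩⟩
    obtain ⟨i₂, hi₂, hmax⟩ := Finset.exists_max_image (univ.erase i₀) j hne
    have h1 := hmain j i₀ i₂ (mem_erase.1 hi₂).1
      (fun i hi => hmax i (mem_erase.2 ⟨hi, mem_univ _⟩)) (hj i₂) hnP
      (hL.trans (hmax i₁ (mem_erase.2 ⟨hi₁, mem_univ _⟩)))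
    refine h1.trans ?_
    refine mul_le_mul_of_nonneg_right ?_ hPP
    exact mul_le_mul_of_nonneg_right (by linarith) h20
  · push Not at hex
    obtain ⟨hfin, hcard⟩ := bx_card hg C hC j
    have h1 : (Nat.card {x : Co g → ℤ // Bx g C j x ∧ Loc g M x} : ℝ) ≤
        (Nat.card {x : Co g → ℤ // Bx g C j x} : ℝ) := by
      have := Nat.card_le_card_of_injective
        (fun x : {x : Co g → ℤ // Bx g C j x ∧ Loc g M x} =>
          (⟨x.1, x.2.1⟩ : {x : Co g → ℤ // Bx g C j x}))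
        (fun x y hxy => Subtype.ext (congrArg (fun z : {x : Co g → ℤ // Bx g C j x} => z.1) hxy))
      exact_mod_cast this
    have hterm : ∀ i ∈ univ.erase i₀, q ≤ ((1 + j i : ℝ)) ^ (-(1 + δ)) := by
      intro i hi
      have h2 : j i < L1 := hex i (mem_erase.1 hi).1
      have h3 : (1 + (j i : ℝ)) ≤ 1 + (L1 : ℝ) := by
        have : (j i : ℝ) ≤ (L1 : ℝ) := by exact_mod_cast h2.le
        linarith
      exact Real.rpow_le_rpow_of_nonpos (by positivity) h3 (by linarith)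
    have hprod : q ^ Fintype.card ι ≤ ∏ i ∈ univ.erase i₀, ((1 + j i : ℝ)) ^ (-(1 + δ)) := by
      calc q ^ Fintype.card ι ≤ q ^ (univ.erase i₀).card :=
            pow_le_pow_of_le_one hq0.le hq1 (Finset.card_le_univ _)
        _ = ∏ _i ∈ univ.erase i₀, q := (Finset.prod_const q).symm
        _ ≤ _ := Finset.prod_le_prod (fun _ _ => hq0.le) hterm
    have hfinal : (3 * C) ^ N ≤ A * ∏ i ∈ univ.erase i₀, ((1 + j i : ℝ)) ^ (-(1 + δ)) := by
      have h5 : (3 * C) ^ N = A * q ^ Fintype.card ι := by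
        rw [hA, div_mul_cancel₀]
        positivity
      rw [h5]
      exact mul_le_mul_of_nonneg_left hprod hA0.le
    calc (Nat.card {x : Co g → ℤ // Bx g C j x ∧ Loc g M x} : ℝ)
        ≤ (3 * C) ^ N * 2 ^ (∑ i, j i) := h1.trans hcard
      _ ≤ (A * ∏ i ∈ univ.erase i₀, ((1 + j i : ℝ)) ^ (-(1 + δ))) * 2 ^ (∑ i, j i) :=
        mul_le_mul_of_nonneg_right hfinal h20
      _ = A * 2 ^ (∑ i, j i) * ∏ i ∈ univ.erase i₀, ((1 + j i : ℝ)) ^ (-(1 + δ)) := by ring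
      _ ≤ (C' + A) * 2 ^ (∑ i, j i) * ∏ i ∈ univ.erase i₀, ((1 + j i : ℝ)) ^ (-(1 + δ)) := by
        refine mul_le_mul_of_nonneg_right ?_ hPP
        exact mul_le_mul_of_nonneg_right (by linarith) h20

end QV
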