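import Mathlib

/-! JOB O2.  Polynomials of odd degree have points everywhere locally (MATHLIB ONLY).
Let `d = 2 m + 1` be the degree, `l` the leading coefficient.  Over `ℝ`: `D * f(x)` takes arbitrarily large positive values (the leading term of `x ↦ D f(x)` has odd degree: `x → ∞` or `x → -∞`), so choose `x` with `f(x) / D > 0` and `y = √(f(x) / D)`.
Over `ℚ_p`: let `x = D l p ^ (-2 k)`, `k` large.  `f(x) = l x ^ d (1 + z)` with `z = ∑_{i < d} (a i / l) x ^ (i - d) → 0` for `k → ∞` (`|x| → ∞`).  `l x ^ d = l (D l) ^ (2 m + 1) p ^ (-2 k d) = D (D ^ m l ^ (m + 1) p ^ (-k d)) ^ 2`, and `1 + z` is a square in `ℚ_p` for `‖z‖` small (Hensel's lemma for `Y ^ 2 - (1 + z)` at `1`: `hensels_lemma`, `‖z‖ < ‖2‖ ^ 2`; or the set of the nonzero squares is open).  So `y = D ^ m l ^ (m + 1) p ^ (-k d) √(1 + z)`. -/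

set_option autoImplicit false

namespace QV

open Polynomial

private theorem O2_gen {K : Type} [NontriviallyNormedField K] [CompleteSpace K] [CharZero K] [Algebra ℚ K] (f : ℚ[X])
    (hodd : Odd f.natDegree) (D : ℤ) (hD : D ≠ 0) : ∃ x y : K, (D : K) * y ^ 2 = aeval x f := by
  obtain ⟨m, hm⟩ := hodd
  have hf : f ≠ 0 := by
    rintro rfl
    rw [natDegree_zero] at hm
    omega
  obtain ⟨l, hl⟩ : ∃ l : K, l = algebraMap ℚ K f.leadingCoeff := ⟨_, rfl⟩
  have hl0 : l ≠ 0 := by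
    rw [hl]
    exact (_root_.map_ne_zero _).2 (leadingCoeff_ne_zero.2 hf)
  have hD0 : (D : K) ≠ 0 := Int.cast_ne_zero.2 hD
  have hsq : ∀ᶠ w in nhds (1 : K), ∃ y : K, y ^ 2 = w := by
    have h1 : HasStrictDerivAt (fun y : K => y ^ 2) (2 : K) 1 := by
      have h2 := hasStrictDerivAt_pow 2 (1 : K)
      simpa using h2
    have h2 := h1.map_nhds_eq two_ne_zero
    rw [one_pow] at h2
    rw [← h2]
    exact Filter.range_mem_map
  obtain ⟨g, hg⟩ : ∃ g : K → K, g = fun s => aeval s f.reverse / l := ⟨_, rfl⟩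
  have hg0 : g 0 = 1 := by
    rw [hg]
    show aeval (0 : K) f.reverse / l = 1
    rw [aeval_def, eval₂_at_zero, coeff_zero_reverse, ← hl, div_self hl0]
  have hgc : Continuous g := by
    rw [hg]
    exact (Polynomial.continuous_aeval f.reverse).div_const l
  have hg1 : Filter.Tendsto g (nhds 0) (nhds 1) := by
    rw [← hg0]
    exact hgc.tendsto 0
  obtain ⟨t, ht⟩ := NormedField.exists_one_lt_norm K
  have ht0 : t ≠ 0 := by
    rintro rfl
    rw [norm_zero] at ht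
    linarith
  have hti : ‖t⁻¹‖ < 1 := by
    rw [norm_inv]
    exact inv_lt_one_of_one_lt₀ ht
  have hs : Filter.Tendsto (fun k : ℕ => ((D : K) * l)⁻¹ * ((t⁻¹) ^ k) ^ 2) Filter.atTop (nhds 0) := by
    have h1 := ((tendsto_pow_atTop_nhds_zero_of_norm_lt_one hti).pow 2).const_mul ((D : K) * l)⁻¹
    rw [zero_pow two_ne_zero, mul_zero] at h1
    exact h1
  obtain ⟨k, y0, hk⟩ := ((hg1.comp hs).eventually hsq).exists
  obtain ⟨x, hx⟩ : ∃ x : K, x = (D : K) * l * (t ^ k) ^ 2 := ⟨_, rfl⟩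
  have hx0 : x ≠ 0 := by
    rw [hx]
    exact mul_ne_zero (mul_ne_zero hD0 hl0) (pow_ne_zero _ (pow_ne_zero _ ht0))
  have hxi : x⁻¹ = ((D : K) * l)⁻¹ * ((t⁻¹) ^ k) ^ 2 := by
    rw [hx, mul_inv, inv_pow, inv_pow]
  have h1 : aeval x⁻¹ f.reverse = l * y0 ^ 2 := by
    have h2 : g (((D : K) * l)⁻¹ * ((t⁻¹) ^ k) ^ 2) = y0 ^ 2 := hk.symm
    rw [← hxi, hg] at h2
    have h3 : aeval x⁻¹ f.reverse / l = y0 ^ 2 := h2
    rw [div_eq_iff hl0] at h3
    rw [h3, mul_comm]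
  have h2 : aeval x f = aeval x⁻¹ f.reverse * x ^ f.natDegree := by
    let hinv : Invertible x := invertibleOfNonzero hx0
    have h3 := eval₂_reverse_mul_pow (algebraMap ℚ K) x f
    rw [invOf_eq_inv] at h3
    rw [aeval_def, aeval_def]
    exact h3.symm
  refine ⟨x, l * t ^ k * x ^ m * y0, ?_⟩
  rw [h2, h1, hm, pow_succ x (2 * m), pow_mul x 2 m]
  have h4 : l * y0 ^ 2 * ((x ^ 2) ^ m * x) = l * y0 ^ 2 * ((x ^ 2) ^ m * ((D : K) * l * (t ^ k) ^ 2)) := by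
    rw [← hx]
  rw [h4]
  ring

theorem odd_loc (f : ℚ[X]) (hodd : Odd f.natDegree) (D : ℤ) (hD : D ≠ 0) :
    (∃ x y : ℝ, (D : ℝ) * y ^ 2 = aeval x f) ∧
      ∀ (p : ℕ) [Fact p.Prime], ∃ x y : ℚ_[p], (D : ℚ_[p]) * y ^ 2 = aeval x f := by
  exact ⟨O2_gen f hodd D hD, fun p _ => O2_gen f hodd D hD⟩

end QV
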