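import Pool.Agent.Lib.MP_10e784_agQV.QD
import Pool.Agent.Lib.MP_10e784_agTR.TRInc
import Pool.Agent.Lib.MP_10e784_agTR.TWGood

/-! JOB QC.  Local facts on the roots of `g q` and the density of the primes with `bt = ± 2`.
Let `p` be a good prime (`GoodP g p`, so `red p (∏ g)` is squarefree) with `p ∤ m`.  `red p (g q)` has at most two roots, it has `0` or `2` roots (a quadratic polynomial with one root has two, different since `red p (g q)` is squarefree), and `fq(t) ≠ 0` at the roots (`g q` and `g k` have no common root modulo `p`).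
`bt_facts`: so `bt ∈ {0, 2, -2}`, and (`χ(m fq(t)) = χ(m) χ(fq(t))`, `J(m | p) = ± 1`) the number of the roots with `m fq(t)` no square is `(rt - J(m | p) bt) / 2`; `nq = 2` means: both are no squares, and its indicator is `bt ^ 2 / 8 - J(m | p) bt / 4`.
`bt_low`: `n = resultant (g q) (fq g q)` (formal degrees `natDegree`) is a nonzero integer and its reduction is `fq(t1) fq(t2)` for the two roots.  If `X ^ 2 - n` is irreducible over `ℚ` let `S` be the set of `PT.split_set` for the family `![g q, X ^ 2 - C n]`, otherwise (`n` is a square) for `![g q]`: for `p ∈ S` (good, not dividing `2 n`) there are two roots and `n` is a square modulo `p`, so `bt = ± 2` and `bt ^ 2 = 4`.  `∑_{p ∈ S, 2 ^ a < p ≤ 2 ^ b} 1 / p ≥ (1 / n₀) log (b / a) - C` (`hS.lower`, `hS.upper`). -/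

set_option autoImplicit false

namespace QV

open Finset Polynomial TW TR

section

variable {p : ℕ} [Fact p.Prime]

private theorem QC_ne {P F : (ZMod p)[X]} (h : Squarefree (P * F)) {t : ZMod p} (ht : P.eval t = 0) : F.eval t ≠ 0 := by
  intro h0
  have h1 : X - C t ∣ P := dvd_iff_isRoot.2 ht
  have h2 : X - C t ∣ F := dvd_iff_isRoot.2 h0
  have h3 := h (X - C t) (mul_dvd_mul h1 h2)
  exact not_isUnit_X_sub_C t h3

private theorem QC_split {P : (ZMod p)[X]} (hm : P.Monic) (hd : P.natDegree = 2) (hs : Squarefree P) :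
    (∀ t, P.eval t ≠ 0) ∨ ∃ t1 t2 : ZMod p, t1 ≠ t2 ∧ P = (X - C t1) * (X - C t2) := by
  by_cases h : ∀ t, P.eval t ≠ 0
  · exact Or.inl h
  · push Not at h
    obtain ⟨t1, ht1⟩ := h
    obtain ⟨Q, hQ⟩ := dvd_iff_isRoot.2 (show P.IsRoot t1 from ht1)
    have hQm : Q.Monic := (monic_X_sub_C t1).of_mul_monic_left (by rw [← hQ]; exact hm)
    have hQd : Q.natDegree = 1 := by
      have h1 := (monic_X_sub_C t1).natDegree_mul hQm
      rw [← hQ, hd, natDegree_X_sub_C] at h1
      omega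
    have hQ' : Q = X - C (-(Q.coeff 0)) := by
      rw [C_neg, sub_neg_eq_add]
      exact hQm.eq_X_add_C hQd
    refine Or.inr ⟨t1, -(Q.coeff 0), fun h12 => ?_, by rw [← hQ']; exact hQ⟩
    have h1 : (X - C t1) * (X - C t1) ∣ P := by
      rw [hQ]
      refine mul_dvd_mul_left _ ?_
      rw [hQ', ← h12]
    exact not_isUnit_X_sub_C t1 (hs _ h1)

private theorem QC_card {P : (ZMod p)[X]} {t1 t2 : ZMod p} (h12 : t1 ≠ t2) (hP : P = (X - C t1) * (X - C t2))
    (Q : ZMod p → Prop) [DecidablePred Q] :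
    Nat.card {t : ZMod p // P.eval t = 0 ∧ Q t} = (if Q t1 then 1 else 0) + (if Q t2 then 1 else 0) := by
  have h1 : ∀ t, t ∈ ({t1, t2} : Finset (ZMod p)).filter Q ↔ P.eval t = 0 ∧ Q t := by
    intro t
    rw [mem_filter, mem_insert, mem_singleton, hP, eval_mul, eval_sub, eval_sub, eval_X, eval_C, eval_C, mul_eq_zero,
      sub_eq_zero, sub_eq_zero]
  rw [Nat.subtype_card _ h1, card_filter, sum_pair h12]

private theorem QC_card0 {P : (ZMod p)[X]} (h0 : ∀ t, P.eval t ≠ 0) (Q : ZMod p → Prop) :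
    Nat.card {t : ZMod p // P.eval t = 0 ∧ Q t} = 0 := by
  have : IsEmpty {t : ZMod p // P.eval t = 0 ∧ Q t} := ⟨fun t => h0 t.1 t.2.1⟩
  exact Nat.card_of_isEmpty

private theorem QC_rt {G : ℤ[X]} {t1 t2 : ZMod p} (h12 : t1 ≠ t2) (hP : red p G = (X - C t1) * (X - C t2)) :
    PT.rt G p = 2 := by
  have h1 := QC_card h12 hP (fun _ => True)
  rw [if_pos trivial] at h1
  have h2 : PT.rt G p = Nat.card {t : ZMod p // (red p G).eval t = 0 ∧ True} := by
    unfold PT.rt
    refine Nat.card_congr (Equiv.subtypeEquivRight fun t => ?_)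
    exact ⟨fun h => ⟨h, trivial⟩, fun h => h.1⟩
  rw [h2, h1]

private theorem QC_rt0 {G : ℤ[X]} (h0 : ∀ t : ZMod p, (red p G).eval t ≠ 0) : PT.rt G p = 0 := by
  have : IsEmpty {ρ : ZMod p // (G.map (Int.castRingHom (ZMod p))).eval ρ = 0} := ⟨fun t => h0 t.1 t.2⟩
  exact Nat.card_of_isEmpty

/-- the indicators in terms of the signs -/
private theorem QC_sq {y : ZMod p} (hy : y ≠ 0) {e : ℤ} (he : quadraticChar (ZMod p) y = e) :
    (y ≠ 0 ∧ IsSquare y ↔ e = 1) ∧ (¬ IsSquare y ↔ e = -1) ∧ (e = 1 ∨ e = -1) := by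
  rw [← he]
  exact ⟨⟨fun h => (quadraticChar_one_iff_isSquare hy).2 h.2, fun h => ⟨hy, (quadraticChar_one_iff_isSquare hy).1 h⟩⟩,
    quadraticChar_neg_one_iff_not_isSquare.symm, quadraticChar_dichotomy hy⟩

end

private theorem QC_sqf {ι : Type} [Fintype ι] [DecidableEq ι] {g : ι → ℤ[X]} (q : ι) {p : ℕ} (hp : GoodP g p) :
    Squarefree (red p (g q) * red p (fq g q)) := by
  have h1 := hp.sqf
  unfold red at h1 ⊢
  rw [← Polynomial.map_mul]
  unfold fq
  rw [mul_prod_erase _ _ (mem_univ q)]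
  exact h1

/-- the two cases at a good prime -/
private theorem QC_cases {ι : Type} [Fintype ι] [DecidableEq ι] {g : ι → ℤ[X]} (hg : TR.Fam g) (q : ι)
    (hq : (g q).natDegree = 2) (p : ℕ) [Fact p.Prime] (hp : GoodP g p) :
    (∀ t, (red p (g q)).eval t ≠ 0) ∨ ∃ t1 t2 : ZMod p, t1 ≠ t2 ∧ red p (g q) = (X - C t1) * (X - C t2) ∧
      (red p (fq g q)).eval t1 ≠ 0 ∧ (red p (fq g q)).eval t2 ≠ 0 := by
  have hs := QC_sqf q hp
  have hm : (red p (g q)).Monic := (hg.monic q).map _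
  have hd : (red p (g q)).natDegree = 2 := by
    unfold red
    rw [(hg.monic q).natDegree_map, hq]
  rcases QC_split hm hd hs.of_mul_left with h | ⟨t1, t2, h12, hP⟩
  · exact Or.inl h
  · refine Or.inr ⟨t1, t2, h12, hP, QC_ne hs ?_, QC_ne hs ?_⟩
    · rw [hP, eval_mul, eval_sub, eval_X, eval_C, sub_self, zero_mul]
    · rw [hP, eval_mul, eval_sub, eval_sub, eval_X, eval_C, eval_C, sub_self, mul_zero]

open Classical in
/-- the value of `bt` at two roots -/
private theorem QC_bt {ι : Type} [Fintype ι] [DecidableEq ι] {g : ι → ℤ[X]} (q : ι) (p : ℕ) [Fact p.Prime]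
    {t1 t2 : ZMod p} (h12 : t1 ≠ t2) (hP : red p (g q) = (X - C t1) * (X - C t2))
    (h1 : (red p (fq g q)).eval t1 ≠ 0) (h2 : (red p (fq g q)).eval t2 ≠ 0) {e1 e2 : ℤ}
    (he1 : quadraticChar (ZMod p) ((red p (fq g q)).eval t1) = e1)
    (he2 : quadraticChar (ZMod p) ((red p (fq g q)).eval t2) = e2) : bt g q p = e1 + e2 := by
  obtain ⟨a1, b1, c1⟩ := QC_sq h1 he1
  obtain ⟨a2, b2, c2⟩ := QC_sq h2 he2
  unfold bt
  rw [QC_card h12 hP, QC_card h12 hP]
  simp only [a1, a2, b1, b2]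
  rcases c1 with rfl | rfl <;> rcases c2 with rfl | rfl <;> norm_num

theorem bt_facts {ι : Type} [Fintype ι] [DecidableEq ι] {g : ι → ℤ[X]} (hg : TR.Fam g) (q : ι) (hq : (g q).natDegree = 2)
    (p : ℕ) (hp : GoodP g p) :
    (PT.rt (g q) p = 0 ∨ PT.rt (g q) p = 2) ∧ |bt g q p| ≤ 2 ∧ ∀ m : ℤ, ¬ (p : ℤ) ∣ m →
      (nq g q m p : ℝ) = ((PT.rt (g q) p : ℝ) - (jacobiSym m p : ℝ) * bt g q p) / 2 ∧
      (if nq g q m p = 2 then (1 : ℝ) else 0) = bt g q p ^ 2 / 8 - (jacobiSym m p : ℝ) * bt g q p / 4 := by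
  have _ : Fact p.Prime := ⟨hp.prime⟩
  rcases QC_cases hg q hq p hp with h0 | ⟨t1, t2, h12, hP, h1, h2⟩
  · have hb : bt g q p = 0 := by
      unfold bt
      rw [QC_card0 h0, QC_card0 h0, sub_self]
    refine ⟨Or.inl (QC_rt0 h0), by rw [hb]; norm_num, fun m _ => ?_⟩
    have hn : nq g q m p = 0 := by
      unfold nq
      rw [QC_card0 h0]
    rw [hb, hn, QC_rt0 h0]
    norm_num
  · obtain ⟨e1, he1⟩ : ∃ e : ℤ, quadraticChar (ZMod p) ((red p (fq g q)).eval t1) = e := ⟨_, rfl⟩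
    obtain ⟨e2, he2⟩ : ∃ e : ℤ, quadraticChar (ZMod p) ((red p (fq g q)).eval t2) = e := ⟨_, rfl⟩
    have hb := QC_bt q p h12 hP h1 h2 he1 he2
    obtain ⟨a1, b1, c1⟩ := QC_sq h1 he1
    obtain ⟨a2, b2, c2⟩ := QC_sq h2 he2
    refine ⟨Or.inr (QC_rt h12 hP), ?_, fun m hm => ?_⟩
    · rw [hb]
      rcases c1 with rfl | rfl <;> rcases c2 with rfl | rfl <;> norm_num
    · classical
      have hm0 : ((m : ℤ) : ZMod p) ≠ 0 := fun h => hm ((ZMod.intCast_zmod_eq_zero_iff_dvd m p).1 h)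
      obtain ⟨J, hJ⟩ : ∃ J : ℤ, jacobiSym m p = J := ⟨_, rfl⟩
      have hJ' : quadraticChar (ZMod p) ((m : ℤ) : ZMod p) = J := by
        rw [← hJ, ← jacobiSym.legendreSym.to_jacobiSym]
        rfl
      have cJ := (QC_sq hm0 hJ').2.2
      have b3 := (QC_sq (mul_ne_zero hm0 h1) (e := J * e1) (by rw [map_mul, hJ', he1])).2.1
      have b4 := (QC_sq (mul_ne_zero hm0 h2) (e := J * e2) (by rw [map_mul, hJ', he2])).2.1
      have hn : nq g q m p = (if J * e1 = -1 then 1 else 0) + (if J * e2 = -1 then 1 else 0) := by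
        unfold nq
        rw [QC_card h12 hP]
        simp only [b3, b4]
      rw [hb, hn, QC_rt h12 hP, hJ]
      rcases c1 with rfl | rfl <;> rcases c2 with rfl | rfl <;> rcases cJ with rfl | rfl <;> norm_num

/-- an integer whose reduction is the product of the values at the two roots -/
private theorem QC_norm {ι : Type} [Fintype ι] [DecidableEq ι] {g : ι → ℤ[X]} (hg : TR.Fam g) (q : ι)
    (hq : (g q).natDegree = 2) : ∃ n : ℤ, ∀ (p : ℕ) (_ : Fact p.Prime) (t1 t2 : ZMod p), t1 ≠ t2 →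
      red p (g q) = (X - C t1) * (X - C t2) →
        ((n : ℤ) : ZMod p) = (red p (fq g q)).eval t1 * (red p (fq g q)).eval t2 := by
  obtain ⟨α, β, hαβ⟩ : ∃ α β : ℤ, g q = X ^ 2 + C α * X + C β := by
    have h1 := eq_quadratic_of_degree_le_two (natDegree_le_iff_degree_le.1 hq.le)
    have h2 : (g q).coeff 2 = 1 := by
      rw [← hq]
      exact hg.monic q
    rw [h2, C_1, one_mul] at h1
    exact ⟨_, _, h1⟩
  obtain ⟨r1, r0, hr⟩ : ∃ r1 r0 : ℤ, fq g q %ₘ g q = C r1 * X + C r0 := by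
    refine exists_eq_X_add_C_of_natDegree_le_one ?_
    have h1 := natDegree_modByMonic_lt (fq g q) (hg.monic q) (fun h => by
      rw [h, natDegree_one] at hq
      omega)
    omega
  have hdiv : fq g q = (C r1 * X + C r0) + g q * (fq g q /ₘ g q) := by
    rw [← hr]
    exact (modByMonic_add_div _ _).symm
  refine ⟨r0 ^ 2 - r0 * r1 * α + r1 ^ 2 * β, fun p _ t1 t2 h12 hP => ?_⟩
  have hroot : ∀ t : ZMod p, (red p (g q)).eval t = 0 →
      (red p (fq g q)).eval t = (r1 : ZMod p) * t + (r0 : ZMod p) ∧ t ^ 2 + (α : ZMod p) * t + (β : ZMod p) = 0 := by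
    intro t ht
    constructor
    · rw [hdiv]
      unfold red at ht ⊢
      rw [Polynomial.map_add, Polynomial.map_mul, eval_add, eval_mul, ht, zero_mul, add_zero]
      simp
    · rw [hαβ] at ht
      unfold red at ht
      simpa using ht
  obtain ⟨a1, b1⟩ := hroot t1 (by rw [hP, eval_mul, eval_sub, eval_X, eval_C, sub_self, zero_mul])
  obtain ⟨a2, b2⟩ := hroot t2 (by rw [hP, eval_mul, eval_sub, eval_sub, eval_X, eval_C, eval_C, sub_self, mul_zero])
  have h3 : (t1 - t2) * (t1 + t2 + α) = 0 := by linear_combination b1 - b2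
  have h4 : t1 + t2 + α = 0 := (mul_eq_zero.1 h3).resolve_left (sub_ne_zero.2 h12)
  have hα : (α : ZMod p) = -(t1 + t2) := by linear_combination h4
  have hβ : (β : ZMod p) = t1 * t2 := by linear_combination b1 - t1 * h4
  rw [a1, a2]
  push_cast
  rw [hα, hβ]
  ring

/-- the density of a split set on an interval -/
private theorem QC_an {κ : Type} {G : κ → ℤ[X]} {S : Set ℕ} {k : ℕ} (hS : PT.Spl G S k) :
    ∃ C : ℝ, 0 ≤ C ∧ ∀ a b : ℕ, 1 ≤ a → a ≤ b → (1 / k : ℝ) * Real.log ((b : ℝ) / a) - C ≤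
      ∑ p ∈ (Ioc (2 ^ a) (2 ^ b)).filter Nat.Prime, PT.ind S p / p := by
  obtain ⟨C1, h1⟩ := hS.lower
  obtain ⟨C2, h2⟩ := hS.upper
  refine ⟨|C1 + C2|, abs_nonneg _, fun a b ha hab => ?_⟩
  have hx : ∀ n : ℕ, 1 ≤ n → (2 : ℝ) ≤ ((2 ^ n : ℕ) : ℝ) := by
    intro n hn
    have h3 : 2 ^ 1 ≤ 2 ^ n := Nat.pow_le_pow_right (by norm_num) hn
    rw [pow_one] at h3
    exact_mod_cast h3
  have hP : ∀ n : ℕ, PT.PS (PT.ind S) ((2 ^ n : ℕ) : ℝ) =
      ∑ p ∈ Ioc 0 (2 ^ n), if p.Prime then PT.ind S p / p else 0 := by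
    intro n
    unfold PT.PS
    rw [Nat.floor_natCast, sum_filter]
    refine sum_congr ?_ fun p _ => rfl
    ext p
    rw [mem_Icc, mem_Ioc]
    omega
  have hl : ∀ n : ℕ, 1 ≤ n → Real.log (Real.log ((2 ^ n : ℕ) : ℝ)) =
      Real.log n + Real.log (Real.log 2) := by
    intro n hn
    have hn0 : (n : ℝ) ≠ 0 := by
      have : n ≠ 0 := by omega
      exact_mod_cast this
    rw [Nat.cast_pow, Nat.cast_ofNat, Real.log_pow,
      Real.log_mul hn0 (Real.log_pos (by norm_num)).ne']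
  have hb : 1 ≤ b := ha.trans hab
  have e1 := h1 _ (hx b hb)
  have e2 := h2 _ (hx a ha)
  rw [hP, hl b hb] at e1
  rw [hP, hl a ha] at e2
  have e3 := sum_Ioc_consecutive (fun p => if p.Prime then PT.ind S p / p else 0)
    (Nat.zero_le (2 ^ a)) (Nat.pow_le_pow_right (by norm_num : 0 < 2) hab)
  have ha0 : (a : ℝ) ≠ 0 := by
    have : a ≠ 0 := by omega
    exact_mod_cast this
  have hb0 : (b : ℝ) ≠ 0 := by
    have : b ≠ 0 := by omega
    exact_mod_cast this
  rw [sum_filter, Real.log_div hb0 ha0]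
  have e4 := le_abs_self (C1 + C2)
  have e5 : (1 / k : ℝ) * (Real.log b - Real.log a) = 1 / k * (Real.log b + Real.log (Real.log 2)) -
      1 / k * (Real.log a + Real.log (Real.log 2)) := by ring
  rw [e5]
  linarith

/-- primes with two roots and `n` a square -/
private theorem QC_set {g0 : ℤ[X]} (hirr : Irreducible (g0.map (Int.castRingHom ℚ))) (hq : g0.natDegree = 2) (n : ℤ) :
    ∃ (S : Set ℕ) (k : ℕ) (C : ℝ), 1 ≤ k ∧ (∀ p ∈ S, p.Prime ∧ PT.rt g0 p = 2 ∧ IsSquare ((n : ℤ) : ZMod p)) ∧ 0 ≤ C ∧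
      ∀ a b : ℕ, 1 ≤ a → a ≤ b → (1 / k : ℝ) * Real.log ((b : ℝ) / a) - C ≤
        ∑ p ∈ (Ioc (2 ^ a) (2 ^ b)).filter Nat.Prime, PT.ind S p / p := by
  by_cases hsq : IsSquare n
  · obtain ⟨S, k, hS⟩ := PT.split_set (fun _ : Unit => g0) fun _ => hirr
    obtain ⟨C, hC, h⟩ := QC_an hS
    refine ⟨S, k, C, hS.npos, fun p hp => ⟨hS.prime p hp, (hS.split p hp ()).trans hq, ?_⟩, hC, h⟩
    obtain ⟨y, rfl⟩ := hsq
    exact ⟨(y : ZMod p), by push_cast; rfl⟩
  · obtain ⟨S, k, hS⟩ := PT.split_set (fun i : Bool => if i then g0 else X ^ 2 - C n) (by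
      intro i
      rcases i with _ | _
      · show Irreducible ((X ^ 2 - C n : ℤ[X]).map (Int.castRingHom ℚ))
        rw [Polynomial.map_sub, Polynomial.map_pow, Polynomial.map_X, Polynomial.map_C]
        have hdeg : (X ^ 2 - C ((Int.castRingHom ℚ) n) : ℚ[X]).natDegree = 2 :=
          natDegree_X_pow_sub_C
        rw [(monic_X_pow_sub_C _ two_ne_zero).irreducible_iff_roots_eq_zero_of_degree_le_three
          (by rw [hdeg]) (by rw [hdeg]; norm_num)]
        rw [Multiset.eq_zero_iff_forall_notMem]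
        intro r hr
        have h1 := (mem_roots'.1 hr).2
        rw [IsRoot, eval_sub, eval_pow, eval_X, eval_C, sub_eq_zero] at h1
        apply hsq
        rw [← Rat.isSquare_intCast_iff]
        refine ⟨r, ?_⟩
        rw [← pow_two, h1]
        rfl
      · exact hirr)
    obtain ⟨C, hC, h⟩ := QC_an hS
    refine ⟨S, k, C, hS.npos, fun p hp => ⟨hS.prime p hp, (hS.split p hp true).trans hq, ?_⟩, hC, h⟩
    have h1 : PT.rt (X ^ 2 - Polynomial.C n) p = 2 := (hS.split p hp false).trans natDegree_X_pow_sub_C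
    have h2 : Nonempty {ρ : ZMod p // ((X ^ 2 - Polynomial.C n : ℤ[X]).map (Int.castRingHom (ZMod p))).eval ρ = 0} := by
      by_contra h3
      rw [not_nonempty_iff] at h3
      have h4 : PT.rt (X ^ 2 - Polynomial.C n) p = 0 := Nat.card_of_isEmpty
      omega
    obtain ⟨ρ, hρ⟩ := h2
    rw [Polynomial.map_sub, Polynomial.map_pow, Polynomial.map_X, Polynomial.map_C, eval_sub,
      eval_pow, eval_X, eval_C, sub_eq_zero] at hρ
    exact ⟨ρ, by rw [← pow_two]; exact hρ.symm⟩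

theorem bt_low {ι : Type} [Fintype ι] [DecidableEq ι] {g : ι → ℤ[X]} (hg : TR.Fam g) (q : ι) (hq : (g q).natDegree = 2) :
    ∃ c C : ℝ, 0 < c ∧ c ≤ 1 ∧ 0 ≤ C ∧ ∀ a b : ℕ, 1 ≤ a → a ≤ b →
      c * Real.log ((b : ℝ) / a) - C ≤ ∑ p ∈ (Ioc (2 ^ a) (2 ^ b)).filter Nat.Prime, bt g q p ^ 2 / 8 / p := by
  obtain ⟨n, hn⟩ := QC_norm hg q hq
  obtain ⟨M, hM0, hM⟩ := good_exists hg
  obtain ⟨S, k, C, hk, hS, hC, hlow⟩ := QC_set (hg.irr q) hq n
  have hk1 : (1 : ℝ) ≤ k := by exact_mod_cast hk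
  refine ⟨1 / k / 2, (C + M.divisors.card) / 2, by positivity, ?_, by positivity, fun a b ha hab => ?_⟩
  · have h1 : (1 / k : ℝ) ≤ 1 := (div_le_one (by linarith)).2 hk1
    linarith
  · have h1 := hlow a b ha hab
    have h2 : ∀ p ∈ (Ioc (2 ^ a) (2 ^ b)).filter Nat.Prime,
        (PT.ind S p / p - (if p ∣ M then (1 : ℝ) else 0)) / 2 ≤ bt g q p ^ 2 / 8 / p := by
      intro p hp
      have hpp := (mem_filter.1 hp).2
      have hp1 : (1 : ℝ) ≤ p := by exact_mod_cast hpp.one_le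
      have hp0 : (0 : ℝ) < p := by linarith
      have h3 : 0 ≤ bt g q p ^ 2 / 8 / p := by positivity
      have h4 : (1 : ℝ) / p ≤ 1 := (div_le_one hp0).2 hp1
      by_cases hpM : p ∣ M
      · rw [if_pos hpM]
        have h5 : PT.ind S p ≤ 1 := by
          unfold PT.ind
          split_ifs <;> norm_num
        have h6 : PT.ind S p / p ≤ 1 / p := div_le_div_of_nonneg_right h5 hp0.le
        linarith
      · rw [if_neg hpM, sub_zero]
        by_cases hpS : p ∈ S
        · obtain ⟨-, h5, h6⟩ := hS p hpS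
          have _ : Fact p.Prime := ⟨hpp⟩
          have h7 : PT.ind S p = 1 := by
            unfold PT.ind
            rw [if_pos hpS]
          rw [h7]
          rcases QC_cases hg q hq p (hM p hpp hpM) with h0 | ⟨t1, t2, h12, hP, h8, h9⟩
          · rw [QC_rt0 h0] at h5
            omega
          · obtain ⟨e1, he1⟩ : ∃ e : ℤ, quadraticChar (ZMod p) ((red p (fq g q)).eval t1) = e := ⟨_, rfl⟩
            obtain ⟨e2, he2⟩ : ∃ e : ℤ, quadraticChar (ZMod p) ((red p (fq g q)).eval t2) = e := ⟨_, rfl⟩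
            have hb := QC_bt q p h12 hP h8 h9 he1 he2
            have c1 := (QC_sq h8 he1).2.2
            have c2 := (QC_sq h9 he2).2.2
            rw [hn p ⟨hpp⟩ t1 t2 h12 hP] at h6
            have h10 := (quadraticChar_one_iff_isSquare (mul_ne_zero h8 h9)).2 h6
            rw [map_mul, he1, he2] at h10
            have h11 : bt g q p ^ 2 = 4 := by
              rw [hb]
              rcases c1 with rfl | rfl <;> rcases c2 with rfl | rfl <;>
                first | (exfalso; revert h10; norm_num; done) | norm_num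
            rw [h11]
            refine le_of_eq ?_
            ring
        · have h7 : PT.ind S p = 0 := by
            unfold PT.ind
            rw [if_neg hpS]
          rw [h7, zero_div, zero_div]
          exact h3
    have h3 := sum_le_sum h2
    rw [← sum_div, sum_sub_distrib] at h3
    have h4 : ∑ p ∈ (Ioc (2 ^ a) (2 ^ b)).filter Nat.Prime, (if p ∣ M then (1 : ℝ) else 0) ≤ M.divisors.card := by
      rw [← sum_filter, sum_const, nsmul_eq_mul, mul_one]
      refine Nat.cast_le.2 (card_le_card fun p hp => ?_)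
      exact Nat.mem_divisors.2 ⟨(mem_filter.1 hp).2, hM0⟩
    have h5 : (1 / k / 2 : ℝ) * Real.log ((b : ℝ) / a) = (1 / k * Real.log ((b : ℝ) / a)) / 2 := by ring
    rw [h5]
    linarith

end QV
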