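import Pool.Agent.Lib.MP_10e784_agQV.QD
import Pool.Agent.Lib.MP_10e784_agQV.A1
import Pool.Agent.Lib.MP_10e784_ag.TW.TWRtLow

/-! JOB QH.  Hall's bound for the integers composed of a set of primes.
`hall_excl` (file A1.lean, proved) with `R = Gᶜ`: at most `C x exp (- ∑_{p ≤ x, p ∉ G} 1 / p)`, and `∑_{p ≤ x} 1 / p ≥ log log x - C'` (`TW.rt_low` for `G = X`, or `EL.ps_shift`). -/

set_option autoImplicit false

namespace QV

open Finset

private theorem QH_rt {p : ℕ} (hp : p.Prime) : PT.rt Polynomial.X p = 1 := by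
  have : Fact p.Prime := ⟨hp⟩
  unfold PT.rt
  rw [Nat.card_eq_one_iff_unique]
  refine ⟨⟨fun a b => ?_⟩, ⟨⟨0, by simp⟩⟩⟩
  have hx : ∀ c : {ρ : ZMod p // ((Polynomial.X : Polynomial ℤ).map (Int.castRingHom (ZMod p))).eval ρ = 0},
      c.1 = 0 := by
    rintro ⟨c, hc⟩
    rw [Polynomial.map_X, Polynomial.eval_X] at hc
    exact hc
  exact Subtype.ext ((hx a).trans (hx b).symm)

private theorem QH_low : ∃ C : ℝ, ∀ x : ℕ, 2 ≤ x →
    Real.log (Real.log x) - C ≤ ∑ p ∈ (Icc 1 x).filter Nat.Prime, (1 : ℝ) / p := by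
  have hirr : Irreducible ((Polynomial.X : Polynomial ℤ).map (Int.castRingHom ℚ)) := by
    rw [Polynomial.map_X]
    exact Polynomial.irreducible_X
  obtain ⟨C, hC⟩ := TW.rt_low Polynomial.X Polynomial.monic_X hirr
  refine ⟨C, fun x hx => ?_⟩
  have h1 := hC x (by exact_mod_cast hx)
  unfold PT.PS at h1
  rw [Nat.floor_natCast] at h1
  refine le_trans h1 (le_of_eq (Finset.sum_congr rfl fun p hp => ?_))
  show (PT.rt Polynomial.X p : ℝ) / p = (1 : ℝ) / p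
  rw [QH_rt (Finset.mem_filter.1 hp).2, Nat.cast_one]

open Classical in
theorem hall_in : ∃ C : ℝ, 0 < C ∧ ∀ (G : Set ℕ) (x : ℕ), 2 ≤ x →
    (((Icc 1 x).filter fun n => Squarefree n ∧ ∀ p : ℕ, p.Prime → p ∣ n → p ∈ G).card : ℝ) ≤
      C * (x / Real.log x) * Real.exp (∑ p ∈ (Icc 1 x).filter (fun p => p.Prime ∧ p ∈ G), (1 : ℝ) / p) := by
  obtain ⟨C₁, hC₁, h1⟩ := hall_excl
  obtain ⟨C₂, h2⟩ := QH_low
  refine ⟨C₁ * Real.exp C₂, by positivity, fun G x hx => ?_⟩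
  have hx2 : (2 : ℝ) ≤ x := by exact_mod_cast hx
  have hx0 : (0 : ℝ) < x := by linarith
  have hL : 0 < Real.log x := Real.log_pos (by linarith)
  obtain ⟨R, hR⟩ : ∃ R : Set ℕ, ∀ p, p ∈ R ↔ p ∉ G := ⟨Gᶜ, fun p => Iff.rfl⟩
  have h3 := h1 R x hx
  have h4 : ((Icc 1 x).filter fun n => Squarefree n ∧ ∀ p : ℕ, p.Prime → p ∣ n → p ∉ R) =
      (Icc 1 x).filter fun n => Squarefree n ∧ ∀ p : ℕ, p.Prime → p ∣ n → p ∈ G := by
    refine Finset.filter_congr fun n _ => ?_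
    simp only [hR, not_not]
  rw [h4] at h3
  refine h3.trans ?_
  have h5 : ∑ p ∈ (Icc 1 x).filter (fun p => p.Prime ∧ p ∈ G), (1 : ℝ) / p +
      ∑ p ∈ (Icc 1 x).filter (fun p => p.Prime ∧ p ∈ R), (1 : ℝ) / p =
      ∑ p ∈ (Icc 1 x).filter Nat.Prime, (1 : ℝ) / p := by
    have h6 : (Icc 1 x).filter (fun p => p.Prime ∧ p ∈ G) =
        ((Icc 1 x).filter Nat.Prime).filter (fun p => p ∈ G) := by
      rw [Finset.filter_filter]
    have h7 : (Icc 1 x).filter (fun p => p.Prime ∧ p ∈ R) =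
        ((Icc 1 x).filter Nat.Prime).filter (fun p => ¬ p ∈ G) := by
      rw [Finset.filter_filter]
      refine Finset.filter_congr fun p _ => ?_
      rw [hR]
    rw [h6, h7]
    exact Finset.sum_filter_add_sum_filter_not _ _ _
  have h6 := h2 x hx
  have h7 : Real.exp (-∑ p ∈ (Icc 1 x).filter (fun p => p.Prime ∧ p ∈ R), (1 : ℝ) / p) ≤
      Real.exp C₂ * (Real.log x)⁻¹ *
        Real.exp (∑ p ∈ (Icc 1 x).filter (fun p => p.Prime ∧ p ∈ G), (1 : ℝ) / p) := by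
    calc Real.exp (-∑ p ∈ (Icc 1 x).filter (fun p => p.Prime ∧ p ∈ R), (1 : ℝ) / p)
        ≤ Real.exp (C₂ + -Real.log (Real.log x) +
            ∑ p ∈ (Icc 1 x).filter (fun p => p.Prime ∧ p ∈ G), (1 : ℝ) / p) := Real.exp_le_exp.2 (by linarith)
      _ = _ := by rw [Real.exp_add, Real.exp_add, Real.exp_neg, Real.exp_log hL]
  calc C₁ * x * Real.exp (-∑ p ∈ (Icc 1 x).filter (fun p => p.Prime ∧ p ∈ R), (1 : ℝ) / p)
      ≤ C₁ * x * (Real.exp C₂ * (Real.log x)⁻¹ *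
        Real.exp (∑ p ∈ (Icc 1 x).filter (fun p => p.Prime ∧ p ∈ G), (1 : ℝ) / p)) :=
        mul_le_mul_of_nonneg_left h7 (by positivity)
    _ = _ := by
        rw [div_eq_mul_inv]
        ring

end QV
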