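import Pool.Agent.Lib.MP_10e784_agQV.QL2
import Pool.Agent.Lib.MP_10e784_agQV.QC
import Pool.Agent.Lib.MP_10e784_agQV.QH

/-! JOB QA3.  The count for one `d` which is not exceptional.  MODEL: `QV.one_d` (file A3.lean, proved).
`c` from `bt_low`, `γ = c / 2`, `η1 = c` (condition on the blocks: `|sw (bt g q) (σ d) i| ≤ c / i`).
`G` = the primes `p` dividing `M * M1 * M2` (`M1` from `good_exists`, `M2` from `Qd`), and the `p ∈ RP g` such that there is a root `t` of `g q` with `σ d fq(t)` a square modulo `p` (`RP g`: a prime with a root of `g q` is in `RP g`).  `zq` is at most the count of `hall_in`.  The sum of `1 / p` over `G`, `p ≤ x`, is at most `C + TT g x - ∑_{p ≤ x, p ∈ RP, p ∤ M M1 M2, nq = 2} 1 / p` (for a good `p ∈ RP g` there are two roots; no root is good iff `nq = 2`), and for the primes `p ∈ (2 ^ s, 2 ^ t]` (not dividing `σ d` up to the finitely many primes dividing `σ`, as `d < 2 ^ s`) the indicator of `nq = 2` is `bt ^ 2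 / 8 - J(σ d | p) bt / 4` (`bt_facts`; `nq = 2` implies `p ∈ RP g`).  So the last sum is at least `c log (t / s) - C - (1/4) c (log (t/s) + 1) ≥ (c / 2) log (t / s) - C'` (`bt_low`, `blocks_w`). -/

set_option autoImplicit false

namespace QV

open Finset Polynomial TW TR

/-- the primes which may divide `z` -/
private def QA3_G {ι : Type} [Fintype ι] [DecidableEq ι] (g : ι → ℤ[X]) (q : ι) (c : ℤ) (M : ℕ) : Set ℕ :=
  {p | p ∣ M ∨ ∃ t : ZMod p, (red p (g q)).eval t = 0 ∧ IsSquare ((c : ZMod p) * (red p (fq g q)).eval t)}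

open Classical in
private theorem QA3_hall {ι : Type} [Fintype ι] [DecidableEq ι] (g : ι → ℤ[X]) (q : ι) :
    ∃ C1 : ℝ, 0 < C1 ∧ ∀ (c : ℤ) (M x : ℕ), 2 ≤ x → (zq g q c M x : ℝ) ≤ C1 * (x / Real.log x) *
      Real.exp (∑ p ∈ (Icc 1 x).filter (fun p => p.Prime ∧ p ∈ QA3_G g q c M), (1 : ℝ) / p) := by
  obtain ⟨C1, hC1, h⟩ := hall_in
  refine ⟨C1, hC1, fun c M x hx => le_trans ?_ (h (QA3_G g q c M) x hx)⟩
  have h5 : zq g q c M x ≤ Nat.card ((Icc 1 x).filter fun n => Squarefree n ∧ ∀ p : ℕ, p.Prime → p ∣ n → p ∈ QA3_G g q c M) := by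
    unfold zq
    refine Nat.card_le_card_of_injective (fun z => ⟨z.1, ?_⟩) ?_
    · rw [Finset.mem_filter, Finset.mem_Icc]
      refine ⟨⟨z.2.1, z.2.2.1⟩, z.2.2.2.1, fun p hp hpz => ?_⟩
      by_cases hpM : p ∣ M
      · exact Or.inl hpM
      · exact Or.inr (z.2.2.2.2 p hp hpz hpM)
    · intro z z' hzz
      exact Subtype.ext (by simpa only [Subtype.mk.injEq] using hzz)
  rw [Nat.card_eq_fintype_card, Fintype.card_coe] at h5
  exact_mod_cast h5

private theorem QA3_root {ι : Type} [Fintype ι] {g : ι → ℤ[X]} {q : ι} {p : ℕ} [Fact p.Prime] {t : ZMod p}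
    (h : (red p (g q)).eval t = 0) : 1 ≤ PT.rt (g q) p ∧ p ∈ EL.RP g := by
  have h1 : 1 ≤ PT.rt (g q) p := by
    have : Nonempty {ρ : ZMod p // ((g q).map (Int.castRingHom (ZMod p))).eval ρ = 0} := ⟨⟨t, h⟩⟩
    exact Nat.card_pos
  refine ⟨h1, h1.trans ?_⟩
  exact Finset.single_le_sum (f := fun i => PT.rt (g i) p) (fun i _ => Nat.zero_le _) (Finset.mem_univ q)

private theorem QA3_rt {G : ℤ[X]} (hm : G.Monic) (hd : G.natDegree = 2) {p : ℕ} [Fact p.Prime] : PT.rt G p ≤ 2 := by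
  classical
  have h0 : G.map (Int.castRingHom (ZMod p)) ≠ 0 := (hm.map _).ne_zero
  have h1 : PT.rt G p ≤ Nat.card ((G.map (Int.castRingHom (ZMod p))).roots.toFinset) := by
    unfold PT.rt
    refine Nat.card_le_card_of_injective (fun z => ⟨z.1, ?_⟩) ?_
    · rw [Multiset.mem_toFinset, mem_roots h0]
      exact z.2
    · intro z z' hzz
      exact Subtype.ext (by simpa only [Subtype.mk.injEq] using hzz)
  rw [Nat.card_eq_fintype_card, Fintype.card_coe] at h1
  refine h1.trans ((Multiset.toFinset_card_le _).trans ((card_roots' _).trans ?_))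
  exact natDegree_map_le.trans hd.le

private theorem QA3_bt {ι : Type} [Fintype ι] [DecidableEq ι] {g : ι → ℤ[X]} {q : ι} (hm : (g q).Monic)
    (hd : (g q).natDegree = 2) {p : ℕ} [Fact p.Prime] : |bt g q p| ≤ 2 := by
  have h0 := QA3_rt hm hd (p := p)
  have h1 : Nat.card {t : ZMod p // (red p (g q)).eval t = 0 ∧ (red p (fq g q)).eval t ≠ 0 ∧
      IsSquare ((red p (fq g q)).eval t)} ≤ PT.rt (g q) p := by
    unfold PT.rt
    refine Nat.card_le_card_of_injective (fun z => ⟨z.1, z.2.1⟩) ?_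
    intro z z' hzz
    exact Subtype.ext (by simpa only [Subtype.mk.injEq] using hzz)
  have h2 : Nat.card {t : ZMod p // (red p (g q)).eval t = 0 ∧ ¬ IsSquare ((red p (fq g q)).eval t)} ≤
      PT.rt (g q) p := by
    unfold PT.rt
    refine Nat.card_le_card_of_injective (fun z => ⟨z.1, z.2.1⟩) ?_
    intro z z' hzz
    exact Subtype.ext (by simpa only [Subtype.mk.injEq] using hzz)
  have h3 : (Nat.card {t : ZMod p // (red p (g q)).eval t = 0 ∧ (red p (fq g q)).eval t ≠ 0 ∧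
      IsSquare ((red p (fq g q)).eval t)} : ℝ) ≤ 2 := by exact_mod_cast h1.trans h0
  have h4 : (Nat.card {t : ZMod p // (red p (g q)).eval t = 0 ∧ ¬ IsSquare ((red p (fq g q)).eval t)} : ℝ) ≤ 2 := by
    exact_mod_cast h2.trans h0
  unfold bt
  rw [abs_le]
  constructor
  · linarith [Nat.cast_nonneg (α := ℝ) (Nat.card {t : ZMod p // (red p (g q)).eval t = 0 ∧ (red p (fq g q)).eval t ≠ 0 ∧
      IsSquare ((red p (fq g q)).eval t)})]
  · linarith [Nat.cast_nonneg (α := ℝ) (Nat.card {t : ZMod p // (red p (g q)).eval t = 0 ∧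
      ¬ IsSquare ((red p (fq g q)).eval t)})]

/-- if there are two roots with a value which is no square then there is no root with a square value -/
private theorem QA3_nq {ι : Type} [Fintype ι] [DecidableEq ι] {g : ι → ℤ[X]} {q : ι} (hm : (g q).Monic)
    (hd : (g q).natDegree = 2) {p : ℕ} [Fact p.Prime] (c : ℤ) (h : nq g q c p = 2) {t : ZMod p}
    (ht : (red p (g q)).eval t = 0) : ¬ IsSquare ((c : ZMod p) * (red p (fq g q)).eval t) := by
  classical
  intro hsq
  have h0 := QA3_rt hm hd (p := p)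
  have h1 : nq g q c p < PT.rt (g q) p := by
    unfold nq PT.rt
    rw [Nat.card_eq_fintype_card, Nat.card_eq_fintype_card]
    refine Fintype.card_lt_of_injective_of_notMem (b := ⟨t, ht⟩)
      (fun z : {t : ZMod p // (red p (g q)).eval t = 0 ∧ ¬ IsSquare ((c : ZMod p) * (red p (fq g q)).eval t)} =>
        (⟨z.1, z.2.1⟩ : {ρ : ZMod p // ((g q).map (Int.castRingHom (ZMod p))).eval ρ = 0})) ?_ ?_
    · intro z z' hzz
      exact Subtype.ext (by simpa only [Subtype.mk.injEq] using hzz)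
    · rintro ⟨z, hz⟩
      have h2 : z.1 = t := congrArg Subtype.val hz
      exact z.2.2 (h2 ▸ hsq)
  omega

open Classical in
private theorem QA3_sum {ι : Type} [Fintype ι] [DecidableEq ι] (g : ι → ℤ[X]) (q : ι) (c : ℤ) (M N : ℕ) (hMN : M ∣ N)
    (hN : N ≠ 0) (x : ℕ) (v : ℕ → ℝ) (hv0 : ∀ p, p.Prime → p ∣ N → v p = 0)
    (hv1 : ∀ p, p.Prime → ¬ p ∣ N → (∃ t : ZMod p, (red p (g q)).eval t = 0 ∧
      IsSquare ((c : ZMod p) * (red p (fq g q)).eval t)) → v p = 0)
    (hv2 : ∀ p, p.Prime → v p ≤ PT.ind (EL.RP g) p / p) :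
    ∑ p ∈ (Icc 1 x).filter (fun p => p.Prime ∧ p ∈ QA3_G g q c M), (1 : ℝ) / p +
      ∑ p ∈ (Icc 1 x).filter Nat.Prime, v p ≤ EL.TT g x + N.divisors.card := by
  have h1 : ∑ p ∈ (Icc 1 x).filter (fun p => p.Prime ∧ p ∈ QA3_G g q c M), (1 : ℝ) / p =
      ∑ p ∈ (Icc 1 x).filter Nat.Prime, (if p ∈ QA3_G g q c M then (1 : ℝ) / p else 0) := by
    rw [← Finset.sum_filter, Finset.filter_filter]
  have h6 : ∑ p ∈ (Icc 1 x).filter Nat.Prime, (if p ∣ N then (1 : ℝ) / p else 0) ≤ N.divisors.card := by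
    rw [← Finset.sum_filter]
    calc ∑ p ∈ ((Icc 1 x).filter Nat.Prime).filter (fun p => p ∣ N), (1 : ℝ) / p ≤
        ∑ p ∈ ((Icc 1 x).filter Nat.Prime).filter (fun p => p ∣ N), (1 : ℝ) := by
          refine Finset.sum_le_sum fun p hp => ?_
          have h7 := (Finset.mem_filter.1 (Finset.mem_filter.1 hp).1).2.one_lt.le
          rw [div_le_one (by exact_mod_cast (by omega : 0 < p))]
          exact_mod_cast h7
      _ = ((((Icc 1 x).filter Nat.Prime).filter (fun p => p ∣ N)).card : ℝ) := by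
          rw [Finset.sum_const, nsmul_eq_mul, mul_one]
      _ ≤ N.divisors.card := by
          refine Nat.cast_le.2 (Finset.card_le_card fun p hp => ?_)
          exact Nat.mem_divisors.2 ⟨(Finset.mem_filter.1 hp).2, hN⟩
  have h2 : EL.TT g x = ∑ p ∈ (Icc 1 x).filter Nat.Prime, PT.ind (EL.RP g) p / p := by
    unfold EL.TT PT.PS
    rw [Nat.floor_natCast]
  refine le_trans ?_ (add_le_add_right h6 _)
  rw [h1, h2, ← Finset.sum_add_distrib, ← Finset.sum_add_distrib]
  refine Finset.sum_le_sum fun p hp => ?_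
  have hpp : p.Prime := (Finset.mem_filter.1 hp).2
  have : Fact p.Prime := ⟨hpp⟩
  have h3 : (0 : ℝ) ≤ 1 / p := by positivity
  have h4 : (0 : ℝ) ≤ PT.ind (EL.RP g) p / p := by
    unfold PT.ind
    split_ifs <;> positivity
  by_cases hpN : p ∣ N
  · rw [hv0 p hpp hpN, if_pos hpN]
    split_ifs <;> linarith
  · rw [if_neg hpN, add_zero]
    by_cases hG : p ∈ QA3_G g q c M
    · have h5 : ∃ t : ZMod p, (red p (g q)).eval t = 0 ∧
          IsSquare ((c : ZMod p) * (red p (fq g q)).eval t) := by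
        rcases hG with h | h
        · exact absurd (h.trans hMN) hpN
        · exact h
      rw [if_pos hG, hv1 p hpp hpN h5, add_zero]
      obtain ⟨t, ht, -⟩ := h5
      unfold PT.ind
      rw [if_pos (QA3_root ht).2]
    · rw [if_neg hG, zero_add]
      exact hv2 p hpp

theorem one_q {ι : Type} [Fintype ι] [DecidableEq ι] {g : ι → ℤ[X]} (hg : TR.Fam g) (q : ι) (hq : Qd g q) :
    ∃ γ η1 : ℝ, 0 < γ ∧ γ ≤ 1 / 2 ∧ 0 < η1 ∧ ∀ (σ : ℤ) (M : ℕ), σ ≠ 0 → M ≠ 0 → ∃ C : ℝ, 0 < C ∧ ∀ d s t x : ℕ, 1 ≤ d → 1 ≤ s → s ≤ t →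
      2 ^ t ≤ x → d < 2 ^ s → (∀ i ∈ Ico s t, |sw (bt g q) (σ * d) i| ≤ η1 / i) →
      (zq g q (σ * d) M x : ℝ) ≤ C * (x / Real.log x) * Real.exp (EL.TT g x) * ((s : ℝ) / t) ^ γ := by
  classical
  obtain ⟨c, C0, hc, hc1, hC0, hlow⟩ := bt_low hg q hq.1
  obtain ⟨M1, hM1, hgood⟩ := good_exists hg
  obtain ⟨C1, hC1, hall⟩ := QA3_hall g q
  refine ⟨c / 2, c, by linarith, by linarith, hc, fun σ M hσ hM => ?_⟩
  obtain ⟨N, hNdef⟩ : ∃ N : ℕ, N = M * (M1 * σ.natAbs) := ⟨_, rfl⟩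
  have hN : N ≠ 0 := by
    rw [hNdef]
    exact mul_ne_zero hM (mul_ne_zero hM1 (Int.natAbs_ne_zero.2 hσ))
  refine ⟨C1 * Real.exp (2 * N.divisors.card + C0 + c / 4), mul_pos hC1 (Real.exp_pos _),
    fun d s t x hd hs hst htx hds hA => ?_⟩
  have ht1 : 1 ≤ t := hs.trans hst
  have hx2 : 2 ≤ x := by
    calc 2 = 2 ^ 1 := by norm_num
      _ ≤ 2 ^ t := Nat.pow_le_pow_right (by norm_num) ht1
      _ ≤ x := htx
  have h4 := hall (σ * d) M x hx2
  refine h4.trans ?_
  obtain ⟨S, hS⟩ : ∃ S : Finset ℕ, S = (Ioc (2 ^ s) (2 ^ t)).filter Nat.Prime := ⟨_, rfl⟩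
  have hSm : ∀ p ∈ S, p.Prime ∧ 2 ^ s < p ∧ p ≤ 2 ^ t := by
    intro p hp
    rw [hS, Finset.mem_filter, Finset.mem_Ioc] at hp
    exact ⟨hp.2, hp.1⟩
  obtain ⟨v, hv⟩ : ∃ v : ℕ → ℝ, ∀ p, v p =
      if p ∈ S ∧ ¬ p ∣ N ∧ nq g q (σ * d) p = 2 then (1 : ℝ) / p else 0 := ⟨_, fun _ => rfl⟩
  have h5 := QA3_sum g q (σ * d) M N ⟨_, hNdef⟩ hN x v
    (fun p _ h => by rw [hv, if_neg (fun h' => h'.2.1 h)])
    (fun p hp _ h => by
      have : Fact p.Prime := ⟨hp⟩
      obtain ⟨t', ht', hsq⟩ := h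
      rw [hv, if_neg (fun h' => QA3_nq (hg.monic q) hq.1 _ h'.2.2 ht' hsq)])
    (fun p hp => by
      have : Fact p.Prime := ⟨hp⟩
      rw [hv]
      split_ifs with h
      · have h6 : 0 < nq g q (σ * d) p := by omega
        have h7 : Nonempty {t : ZMod p // (red p (g q)).eval t = 0 ∧
            ¬ IsSquare (((σ * d : ℤ) : ZMod p) * (red p (fq g q)).eval t)} := by
          unfold nq at h6
          exact (Nat.card_pos_iff.1 h6).1
        obtain ⟨t', ht', -⟩ := h7
        unfold PT.ind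
        rw [if_pos (QA3_root ht').2]
      · unfold PT.ind
        split_ifs <;> positivity)
  have h6 : ∑ p ∈ S, v p ≤ ∑ p ∈ (Icc 1 x).filter Nat.Prime, v p := by
    refine Finset.sum_le_sum_of_subset_of_nonneg (fun p hp => ?_) fun p _ _ => ?_
    · obtain ⟨hp1, -, hp3⟩ := hSm p hp
      rw [Finset.mem_filter, Finset.mem_Icc]
      exact ⟨⟨hp1.one_le, hp3.trans htx⟩, hp1⟩
    · rw [hv]
      split_ifs <;> positivity
  have h7 : ∑ p ∈ S, (if p ∣ N then (1 : ℝ) / p else 0) ≤ N.divisors.card := by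
    rw [← Finset.sum_filter]
    calc ∑ p ∈ S.filter (fun p => p ∣ N), (1 : ℝ) / p ≤ ∑ p ∈ S.filter (fun p => p ∣ N), (1 : ℝ) := by
          refine Finset.sum_le_sum fun p hp => ?_
          have h7 := (hSm p (Finset.mem_filter.1 hp).1).1.one_lt.le
          rw [div_le_one (by exact_mod_cast (by omega : 0 < p))]
          exact_mod_cast h7
      _ = ((S.filter (fun p => p ∣ N)).card : ℝ) := by rw [Finset.sum_const, nsmul_eq_mul, mul_one]
      _ ≤ N.divisors.card := by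
          refine Nat.cast_le.2 (Finset.card_le_card fun p hp => ?_)
          exact Nat.mem_divisors.2 ⟨(Finset.mem_filter.1 hp).2, hN⟩
  have h8 : ∀ p ∈ S, bt g q p ^ 2 / 8 / p - 1 / 4 * (bt g q p * (jacobiSym (σ * d) p : ℝ) / p) ≤
      v p + (if p ∣ N then (1 : ℝ) / p else 0) := by
    intro p hp
    obtain ⟨hp1, hp2, -⟩ := hSm p hp
    have : Fact p.Prime := ⟨hp1⟩
    have hp0 : (0 : ℝ) < p := by exact_mod_cast hp1.pos
    have hpi : (0 : ℝ) ≤ 1 / p := by positivity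
    by_cases hpN : p ∣ N
    · rw [if_pos hpN, hv, if_neg (fun h' => h'.2.1 hpN), zero_add]
      have e1 := abs_le.1 (QA3_bt (hg.monic q) hq.1 (p := p))
      have e2 : |(jacobiSym (σ * d) p : ℝ)| ≤ 1 := by
        rcases jacobiSym.trichotomy (σ * d) p with h | h | h <;> rw [h] <;> norm_num
      have e3 := abs_le.1 e2
      have e4 : bt g q p ^ 2 / 8 - 1 / 4 * (bt g q p * (jacobiSym (σ * d) p : ℝ)) ≤ 1 := by
        have e5 : bt g q p ^ 2 ≤ 4 := by nlinarith [e1.1, e1.2]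
        have e6 : -2 ≤ bt g q p * (jacobiSym (σ * d) p : ℝ) := by
          have e7 : |bt g q p * (jacobiSym (σ * d) p : ℝ)| ≤ 2 * 1 := by
            rw [abs_mul]
            exact mul_le_mul (abs_le.2 e1) e2 (abs_nonneg _) (by norm_num)
          have e8 := (abs_le.1 e7).1
          linarith
        linarith
      have e9 : bt g q p ^ 2 / 8 / p - 1 / 4 * (bt g q p * (jacobiSym (σ * d) p : ℝ) / p) =
          (bt g q p ^ 2 / 8 - 1 / 4 * (bt g q p * (jacobiSym (σ * d) p : ℝ))) / p := by ring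
      rw [e9]
      exact div_le_div_of_nonneg_right e4 hp0.le
    · rw [if_neg hpN, add_zero]
      have hpM1 : ¬ p ∣ M1 := fun h => hpN (by
        rw [hNdef]
        exact (h.mul_right _).mul_left _)
      have hpσ : ¬ ((p : ℤ) ∣ σ * d) := by
        intro h
        rcases (Nat.prime_iff_prime_int.1 hp1).dvd_or_dvd h with h' | h'
        · exact hpN (by
            rw [hNdef]
            exact ((Int.natCast_dvd.1 h').mul_left _).mul_left _)
        · exact absurd (Nat.le_of_dvd hd (Int.natCast_dvd_natCast.1 h')) (not_le.2 (hds.trans hp2))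
      have e1 := ((bt_facts hg q hq.1 p (hgood p hp1 hpM1)).2.2 (σ * d) hpσ).2
      have e2 : v p = (if nq g q (σ * d) p = 2 then (1 : ℝ) else 0) / p := by
        rw [hv]
        by_cases hn : nq g q (σ * d) p = 2
        · rw [if_pos ⟨hp, hpN, hn⟩, if_pos hn]
        · rw [if_neg (fun h' => hn h'.2.2), if_neg hn, zero_div]
      rw [e2, e1]
      refine le_of_eq ?_
      ring
  have h9 := Finset.sum_le_sum h8
  rw [Finset.sum_sub_distrib, Finset.sum_add_distrib, ← Finset.mul_sum] at h9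
  have h10 := hlow s t hs hst
  have h11 := blocks_w (bt g q) (σ * d) s t hs hst c hc.le hA
  rw [← hS] at h10 h11
  have h13 := (abs_le.1 h11).2
  have hs0 : (0 : ℝ) < s := by exact_mod_cast hs
  have ht0 : (0 : ℝ) < t := by exact_mod_cast ht1
  have hlog : 0 ≤ Real.log ((t : ℝ) / s) := by
    refine Real.log_nonneg ?_
    rw [one_le_div hs0]
    exact_mod_cast hst
  have h14 : 0 ≤ c * Real.log ((t : ℝ) / s) := mul_nonneg hc.le hlog
  have h16 : Real.exp (∑ p ∈ (Icc 1 x).filter (fun p => p.Prime ∧ p ∈ QA3_G g q (σ * d) M), (1 : ℝ) / p) ≤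
      Real.exp (2 * N.divisors.card + C0 + c / 4) * Real.exp (EL.TT g x) * ((s : ℝ) / t) ^ (c / 2) := by
    rw [Real.rpow_def_of_pos (div_pos hs0 ht0), ← Real.exp_add, ← Real.exp_add]
    refine Real.exp_le_exp.2 ?_
    have h17 : Real.log ((s : ℝ) / t) = - Real.log ((t : ℝ) / s) := by
      rw [← Real.log_inv, inv_div]
    rw [h17]
    linarith
  have hxl : (0 : ℝ) ≤ x / Real.log x := div_nonneg (Nat.cast_nonneg x)
    (Real.log_nonneg (by exact_mod_cast (by omega : 1 ≤ x)))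
  calc C1 * (x / Real.log x) *
        Real.exp (∑ p ∈ (Icc 1 x).filter (fun p => p.Prime ∧ p ∈ QA3_G g q (σ * d) M), (1 : ℝ) / p)
      ≤ C1 * (x / Real.log x) * (Real.exp (2 * N.divisors.card + C0 + c / 4) * Real.exp (EL.TT g x) *
        ((s : ℝ) / t) ^ (c / 2)) := mul_le_mul_of_nonneg_left h16 (mul_nonneg hC1.le hxl)
    _ = C1 * Real.exp (2 * N.divisors.card + C0 + c / 4) * (x / Real.log x) * Real.exp (EL.TT g x) *
        ((s : ℝ) / t) ^ (c / 2) := by ring

/-- the trivial bound -/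
theorem zq_le {ι : Type} [Fintype ι] [DecidableEq ι] {g : ι → ℤ[X]} (hg : TR.Fam g) (q : ι) (M : ℕ) (hM : M ≠ 0) :
    ∃ C : ℝ, 0 < C ∧ ∀ (c : ℤ) (x : ℕ), 2 ≤ x → (zq g q c M x : ℝ) ≤ C * (x / Real.log x) * Real.exp (EL.TT g x) := by
  classical
  obtain ⟨C1, hC1, hall⟩ := QA3_hall g q
  refine ⟨C1 * Real.exp (M.divisors.card), mul_pos hC1 (Real.exp_pos _), fun c x hx => ?_⟩
  refine (hall c M x hx).trans ?_
  have h5 := QA3_sum g q c M M dvd_rfl hM x (fun _ => 0) (fun _ _ _ => rfl) (fun _ _ _ _ => rfl)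
    (fun p _ => by
      unfold PT.ind
      split_ifs <;> positivity)
  rw [Finset.sum_const_zero, add_zero] at h5
  have hxl : (0 : ℝ) ≤ x / Real.log x := div_nonneg (Nat.cast_nonneg x)
    (Real.log_nonneg (by exact_mod_cast (by omega : 1 ≤ x)))
  have h6 := Real.exp_le_exp.2 h5
  rw [Real.exp_add] at h6
  calc C1 * (x / Real.log x) *
        Real.exp (∑ p ∈ (Icc 1 x).filter (fun p => p.Prime ∧ p ∈ QA3_G g q c M), (1 : ℝ) / p)
      ≤ C1 * (x / Real.log x) * (Real.exp (EL.TT g x) * Real.exp (M.divisors.card)) :=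
        mul_le_mul_of_nonneg_left h6 (mul_nonneg hC1.le hxl)
    _ = C1 * Real.exp (M.divisors.card) * (x / Real.log x) * Real.exp (EL.TT g x) := by ring

end QV
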