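import Pool.Agent.Lib.MP_10e784_agQV.QL2
import Pool.Agent.Lib.MP_10e784_agQV.QC

/-! JOB QA4.  The exceptional `d`.  COPY of `QV.exc_d` (file A4.lean, proved), with `exc_w` in place of `exc_gen` for the weights `b p = bt g q p` if `p` is good and `0` otherwise; the primes dividing `M1` (`good_exists`) do not occur in the blocks `i ≥ 4 k` for large `k`, so `sw` is the same for `bt g q` and for `b`; `B = 2` (`bt_facts`).  Bound `8 t ^ 3 / η1 ^ 2`. -/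

set_option autoImplicit false

namespace QV

open Finset Polynomial TW TR

/-- two squarefree numbers whose product is a square are equal -/
private theorem QA4_sq {d e : ℕ} (hd : Squarefree d) (he : Squarefree e) {s : ℕ} (h : d * e = s * s) : d = e := by
  have hd0 : d ≠ 0 := hd.ne_zero
  have he0 : e ≠ 0 := he.ne_zero
  have hs0 : s ≠ 0 := by
    rintro rfl
    exact mul_ne_zero hd0 he0 h
  refine Nat.eq_of_factorization_eq hd0 he0 fun p => ?_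
  have h1 := congrArg (fun n => n.factorization p) h
  simp only [Nat.factorization_mul hd0 he0, Nat.factorization_mul hs0 hs0, Finsupp.coe_add, Pi.add_apply] at h1
  have h2 := hd.natFactorization_le_one p
  have h3 := he.natFactorization_le_one p
  omega

private theorem QA4_mem {P : ℤ → Prop} {inst : DecidablePred P} {s : Finset ℤ} {d : ℤ} (h : d ∈ @Finset.filter ℤ P inst s) : d ∈ s ∧ P d :=
  Finset.mem_filter.1 h

private theorem QA4_grow (C : ℝ) : ∃ j0 : ℕ, ∀ j : ℕ, j0 ≤ j → C * (j : ℝ) ^ 2 ≤ 2 ^ j := by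
  have h1 := tendsto_pow_const_div_const_pow_of_one_lt 2 (one_lt_two : (1 : ℝ) < 2)
  have hC : 0 < |C| + 1 := by positivity
  have h2 : ∀ᶠ n : ℕ in Filter.atTop, (n : ℝ) ^ 2 / 2 ^ n < 1 / (|C| + 1) := h1.eventually_lt_const (by positivity)
  obtain ⟨j0, h3⟩ := Filter.eventually_atTop.1 h2
  refine ⟨j0, fun j hj => ?_⟩
  have h4 := h3 j hj
  rw [div_lt_div_iff₀ (by positivity) hC, one_mul] at h4
  have h5 : C * (j : ℝ) ^ 2 ≤ (j : ℝ) ^ 2 * (|C| + 1) := by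
    rw [mul_comm]
    exact mul_le_mul_of_nonneg_left (by linarith [le_abs_self C]) (by positivity)
  linarith

/-- equal weights at the primes of the block give equal sums -/
private theorem QA4_sw {b b' : ℕ → ℝ} {M i : ℕ} (hM : M ≠ 0) (hMi : M ≤ i) (h : ∀ p : ℕ, p.Prime → ¬ p ∣ M → b p = b' p) (m : ℤ) :
    sw b m i = sw b' m i := by
  unfold sw
  refine sum_congr rfl fun p hp => ?_
  have h1 := mem_filter.1 hp
  have h2 := (mem_Ioc.1 h1.1).1
  have h3 : ¬ p ∣ M := fun hd => by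
    have h4 := Nat.le_of_dvd (Nat.pos_of_ne_zero hM) hd
    have h5 : i < 2 ^ i := Nat.lt_two_pow_self
    omega
  rw [h p h1.2 h3]

open Classical in
theorem exc_q {ι : Type} [Fintype ι] [DecidableEq ι] {g : ι → ℤ[X]} (hg : TR.Fam g) (q : ι) (hq : (g q).natDegree = 2)
    (σ : ℤ) (hσ : σ ≠ 0) (η1 : ℝ) (hη1 : 0 < η1) : ∃ k0 : ℕ, ∀ k t : ℕ, k0 ≤ k →
    (((Ioc (2 ^ k) (2 ^ (k + 1))).filter fun d => Squarefree d ∧ ∃ i ∈ Ico (4 * k) t, η1 / i < |sw (bt g q) (σ * d) i|).card : ℝ) ≤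
      8 / η1 ^ 2 * (t : ℝ) ^ 3 := by
  obtain ⟨M1, hM1, hM1'⟩ := good_exists hg
  obtain ⟨b, hb1, hb2⟩ : ∃ b : ℕ → ℝ, (∀ p, GoodP g p → b p = bt g q p) ∧ ∀ p : ℕ, p.Prime → |b p| ≤ 2 := by
    refine ⟨fun p => if GoodP g p then bt g q p else 0, fun p hp => if_pos hp, fun p _ => ?_⟩
    by_cases hp : GoodP g p
    · show |if GoodP g p then bt g q p else 0| ≤ 2
      rw [if_pos hp]
      exact (bt_facts hg q hq p hp).2.1
    · show |if GoodP g p then bt g q p else 0| ≤ 2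
      rw [if_neg hp, abs_zero]
      norm_num
  have hsw : ∀ (m : ℤ) (i : ℕ), M1 ≤ i → sw b m i = sw (bt g q) m i := fun m i hi =>
    QA4_sw hM1 hi (fun p hp hpM => hb1 p (hM1' p hp hpM)) m
  obtain ⟨j0, hj0⟩ := QA4_grow (512 * (σ.natAbs : ℝ) ^ 2 / η1 ^ 2)
  refine ⟨j0 + M1 + 1, fun k t hk => ?_⟩
  obtain ⟨S, hS⟩ : ∃ S : Finset ℤ, S = (Ioc (2 ^ k) (2 ^ (k + 1))).filter fun d => Squarefree d ∧ ∃ i ∈ Ico (4 * k) t, η1 / i < |sw (bt g q) (σ * d) i| := ⟨_, rfl⟩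
  rw [← hS]
  have hinj : Function.Injective fun d : ℤ => σ * d := fun x y h => mul_left_cancel₀ hσ h
  have hmem : ∀ d ∈ S, (2 ^ k < d ∧ d ≤ 2 ^ (k + 1)) ∧ Squarefree d ∧ ∃ i ∈ Ico (4 * k) t, η1 / i < |sw (bt g q) (σ * d) i| := fun d hd => by
    rw [hS] at hd
    have h1 := QA4_mem hd
    exact ⟨mem_Ioc.1 h1.1, h1.2⟩
  have hpos : ∀ d ∈ S, 0 < d := fun d hd => by
    have h1 : (0 : ℤ) < 2 ^ k := by positivity
    exact h1.trans (hmem d hd).1.1
  have key := exc_w b 2 (by norm_num) hb2 (S.image fun d : ℤ => σ * d) (σ.natAbs * 2 ^ (k + 1)) (4 * k) t η1 hη1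
    (fun m hm => by
      obtain ⟨d, hd, rfl⟩ := mem_image.1 hm
      obtain ⟨⟨h1, h2⟩, -, -⟩ := hmem d hd
      refine ⟨mul_ne_zero hσ (hpos d hd).ne', ?_⟩
      rw [abs_mul, abs_of_pos (hpos d hd), Int.abs_eq_natAbs]
      push_cast
      exact mul_le_mul_of_nonneg_left h2 (abs_nonneg _))
    (fun m hm m' hm' hne hsq => by
      obtain ⟨d, hd, rfl⟩ := mem_image.1 hm
      obtain ⟨e, he, rfl⟩ := mem_image.1 hm'
      obtain ⟨-, hd1, -⟩ := hmem d hd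
      obtain ⟨-, he1, -⟩ := hmem e he
      obtain ⟨r, hr⟩ := hsq
      have h1 : σ ^ 2 ∣ r ^ 2 := ⟨d * e, by rw [sq r, ← hr]; ring⟩
      obtain ⟨s, rfl⟩ := (Int.pow_dvd_pow_iff two_ne_zero).1 h1
      have h2 : (σ * σ) * (d * e) = (σ * σ) * (s * s) := by
        linarith [hr]
      have h3 : d * e = s * s := mul_left_cancel₀ (mul_ne_zero hσ hσ) h2
      have h4 : d.natAbs * e.natAbs = s.natAbs * s.natAbs := by
        rw [← Int.natAbs_mul, h3, Int.natAbs_mul]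
      have h6 := QA4_sq (Int.squarefree_natAbs.2 hd1) (Int.squarefree_natAbs.2 he1) h4
      have h7 : d = e := by
        have h8 := hpos d hd
        have h9 := hpos e he
        omega
      exact hne (by rw [h7]))
    (by omega)
    (fun i hi => by
      rw [mem_Ico] at hi
      obtain ⟨j, rfl⟩ : ∃ j, i = j + 2 * k := ⟨i - 2 * k, by omega⟩
      have h1 := hj0 j (by omega)
      have h2 : ((j + 2 * k : ℕ) : ℝ) ≤ 2 * j := by
        have h3 : j + 2 * k ≤ 2 * j := by omega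
        exact_mod_cast h3
      have h4 : ((j + 2 * k : ℕ) : ℝ) ^ 2 ≤ (2 * (j : ℝ)) ^ 2 := pow_le_pow_left₀ (Nat.cast_nonneg _) h2 2
      have h5 : (2 : ℝ) ^ (j + 2 * k) = 2 ^ j * (2 ^ k) ^ 2 := by rw [pow_add, ← pow_mul, mul_comm 2 k]
      have h10 : ((σ.natAbs * 2 ^ (k + 1) : ℕ) : ℝ) = (σ.natAbs : ℝ) * (2 * 2 ^ k) := by
        rw [Nat.cast_mul, Nat.cast_pow, pow_succ]
        push_cast
        ring
      have hη2 : 0 < η1 ^ 2 := by positivity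
      rw [div_mul_eq_mul_div, div_le_iff₀ hη2] at h1
      rw [h5, h10, mul_pow, mul_pow]
      have h6 : 0 ≤ (σ.natAbs : ℝ) ^ 2 * ((2 : ℝ) ^ k) ^ 2 := by positivity
      have h7 : 0 ≤ ((2 : ℝ) ^ k) ^ 2 := by positivity
      have h8 := mul_le_mul_of_nonneg_left h4 h6
      have h9 := mul_le_mul_of_nonneg_left h1 h7
      calc 8 * (2 : ℝ) ^ 2 * ((σ.natAbs : ℝ) ^ 2 * (2 ^ 2 * ((2 : ℝ) ^ k) ^ 2)) * ((j + 2 * k : ℕ) : ℝ) ^ 2
          = 128 * ((σ.natAbs : ℝ) ^ 2 * ((2 : ℝ) ^ k) ^ 2 * ((j + 2 * k : ℕ) : ℝ) ^ 2) := by ring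
        _ ≤ 128 * ((σ.natAbs : ℝ) ^ 2 * ((2 : ℝ) ^ k) ^ 2 * (2 * (j : ℝ)) ^ 2) := mul_le_mul_of_nonneg_left h8 (by norm_num)
        _ = ((2 : ℝ) ^ k) ^ 2 * (512 * (σ.natAbs : ℝ) ^ 2 * (j : ℝ) ^ 2) := by ring
        _ ≤ ((2 : ℝ) ^ k) ^ 2 * (2 ^ j * η1 ^ 2) := h9
        _ = η1 ^ 2 * (2 ^ j * ((2 : ℝ) ^ k) ^ 2) := by ring)
    (fun m hm => by
      obtain ⟨d, hd, rfl⟩ := mem_image.1 hm
      obtain ⟨i, hi, h⟩ := (hmem d hd).2.2
      have h1 := (mem_Ico.1 hi).1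
      exact ⟨i, hi, by rw [hsw _ i (by omega)]; exact h⟩)
  rw [card_image_of_injective _ hinj] at key
  refine key.trans (le_of_eq ?_)
  ring

end QV
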