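import Pool.Agent.Lib.MP_10e784_agQV.QA3
import Pool.Agent.Lib.MP_10e784_agQV.QA4

/-! JOB QA5.  One dyadic block of `d`.  MODEL: `QV.block_d` (file A5.lean, proved).
For `d ∈ (2 ^ k, 2 ^ (k + 1)]`, `4 ^ (k + 1) ≤ N`, the number `x = N / d` satisfies `x ≥ √N / 2`-ish and `x ≥ 2 ^ t`, so `(x / log x) exp (TT g x) ≤ 4 (N / d) / log N * exp (TT g N)` (`TT` is increasing).  For the `d` which are not exceptional `one_q` (`s = 4 k`), for the at most `8 / η1 ^ 2 t ^ 3` exceptional ones `zq_le`. -/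

set_option autoImplicit false

namespace QV

open Finset Polynomial TW TR

private theorem QA5_mf {α : Type} (p : α → Prop) (inst : DecidablePred p) (s : Finset α) (x : α) :
    x ∈ @Finset.filter α p inst s ↔ x ∈ s ∧ p x := @Finset.mem_filter α p inst s x

private theorem QA5_card (b : ℕ → ℝ) (a : ℤ) (q t : ℕ) (η : ℝ) (F : Finset ℤ)
    (hF : ∀ d : ℤ, d ∈ Finset.Ioc ((2 : ℤ) ^ q) (2 ^ (q + 1)) →
      (Squarefree d ∧ ∃ i ∈ Ico (4 * q) t, η / i < |sw b (a * d) i|) → d ∈ F) (c : ℝ)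
    (hc : (F.card : ℝ) ≤ c) : ∃ E : Finset ℕ, (E.card : ℝ) ≤ c ∧
      ∀ d : ℕ, 2 ^ q < d → d ≤ 2 ^ (q + 1) → Squarefree d → d ∉ E →
        ∀ i ∈ Ico (4 * q) t, |sw b (a * (d : ℤ)) i| ≤ η / i := by
  classical
  refine ⟨(Finset.Ioc (2 ^ q) (2 ^ (q + 1))).filter (fun d : ℕ => (d : ℤ) ∈ F), ?_, ?_⟩
  · refine le_trans ?_ hc
    have h1 : ((Finset.Ioc (2 ^ q) (2 ^ (q + 1))).filter (fun d : ℕ => (d : ℤ) ∈ F)).card ≤ F.card := by
      refine Finset.card_le_card_of_injOn (fun d : ℕ => (d : ℤ)) ?_ ?_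
      · intro d hd
        exact (Finset.mem_filter.1 (Finset.mem_coe.1 hd)).2
      · intro x _ y _ hxy
        exact Int.natCast_inj.1 hxy
    exact_mod_cast h1
  · intro d h1 h2 h3 h4 i hi
    by_contra hc'
    apply h4
    refine Finset.mem_filter.2 ⟨Finset.mem_Ioc.2 ⟨h1, h2⟩, hF d ?_ ⟨Int.squarefree_natCast.2 h3, i, hi, not_le.1 hc'⟩⟩
    rw [Finset.mem_Ioc]
    exact ⟨by exact_mod_cast h1, by exact_mod_cast h2⟩

private theorem QA5_TT {ι : Type} [Fintype ι] (g : ι → ℤ[X]) {x y : ℕ} (h : x ≤ y) :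
    EL.TT g x ≤ EL.TT g y := by
  unfold EL.TT
  refine TR.PS_mono _ (fun p _ => ?_) (by exact_mod_cast h)
  unfold PT.ind
  split_ifs
  · exact zero_le_one
  · exact le_refl _

/-- the size of the quotient -/
private theorem QA5_size {k d N : ℕ} (hk : 1 ≤ k) (hd1 : 2 ^ k < d) (hd2 : d ≤ 2 ^ (k + 1))
    (hN : 4 ^ (k + 1) ≤ N) :
    2 ≤ N / d ∧ ((N / d : ℕ) : ℝ) / Real.log ((N / d : ℕ) : ℝ) ≤
      3 * ((N : ℝ) / 2 ^ k) / Real.log N := by
  have hdpos : 0 < d := by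
    have := Nat.two_pow_pos k
    omega
  have h4 : 2 ^ (k + 1) * 2 ^ (k + 1) ≤ N := by
    have e : (4 : ℕ) ^ (k + 1) = 2 ^ (k + 1) * 2 ^ (k + 1) := by
      rw [← mul_pow]
      norm_num
    rw [← e]
    exact hN
  have hx1 : 2 ^ (k + 1) ≤ N / d := by
    rw [Nat.le_div_iff_mul_le hdpos]
    exact le_trans (Nat.mul_le_mul_left _ hd2) h4
  have h22 : 2 ^ 2 ≤ 2 ^ (k + 1) := Nat.pow_le_pow_right (by norm_num) (by omega)
  have hx2 : 2 ≤ N / d := by omega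
  refine ⟨hx2, ?_⟩
  obtain ⟨x, hx⟩ : ∃ x : ℕ, x = N / d := ⟨_, rfl⟩
  rw [← hx] at hx1 hx2 ⊢
  have hN2 : N ≤ 2 * x ^ 2 := by
    have e1 : N < d * (N / d + 1) := Nat.lt_mul_div_succ N hdpos
    rw [← hx] at e1
    have e2 : d * (x + 1) ≤ x * (x + x) :=
      Nat.mul_le_mul (hd2.trans hx1) (by omega)
    have e3 : x * (x + x) = 2 * x ^ 2 := by ring
    omega
  have hx0 : (0 : ℝ) < x := by
    have : 0 < x := by omega
    exact_mod_cast this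
  have hxlog : 0 < Real.log x := Real.log_pos (by
    have : 1 < x := by omega
    exact_mod_cast this)
  have hNpos : 0 < N := by
    have := Nat.two_pow_pos (k + 1)
    exact lt_of_lt_of_le (Nat.mul_pos this this) h4
  have hN0 : (0 : ℝ) < N := by exact_mod_cast hNpos
  have hl : Real.log N ≤ 3 * Real.log x := by
    have e1 : (N : ℝ) ≤ 2 * (x : ℝ) ^ 2 := by exact_mod_cast hN2
    have e2 := Real.log_le_log hN0 e1
    rw [Real.log_mul (by norm_num) (by positivity), Real.log_pow] at e2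
    have e3 : Real.log 2 ≤ Real.log x := Real.log_le_log (by norm_num) (by exact_mod_cast hx2)
    push_cast at e2
    linarith
  have hlN : 0 < Real.log N := by
    refine Real.log_pos ?_
    have e1 : 1 < N := by
      have e2 : 4 * 4 ≤ 2 ^ (k + 1) * 2 ^ (k + 1) := Nat.mul_le_mul h22 h22
      omega
    exact_mod_cast e1
  have hxN : (x : ℝ) ≤ (N : ℝ) / 2 ^ k := by
    have e1 : ((N / d : ℕ) : ℝ) ≤ (N : ℝ) / d := Nat.cast_div_le
    have e2 : ((2 : ℝ) ^ k) ≤ d := by exact_mod_cast hd1.le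
    rw [hx]
    exact le_trans e1 (div_le_div_of_nonneg_left (Nat.cast_nonneg N) (by positivity) e2)
  rw [div_le_div_iff₀ hxlog hlN]
  have e4 := mul_le_mul_of_nonneg_left hl hx0.le
  have e5 := mul_le_mul_of_nonneg_right hxN hxlog.le
  nlinarith

open Classical in
theorem block_q {ι : Type} [Fintype ι] [DecidableEq ι] {g : ι → ℤ[X]} (hg : TR.Fam g) (q : ι) (hq : Qd g q) :
    ∃ γ : ℝ, 0 < γ ∧ γ ≤ 1 / 2 ∧ ∀ (σ : ℤ) (M : ℕ), σ ≠ 0 → M ≠ 0 → ∃ (C : ℝ) (k0 : ℕ), 0 < C ∧ 1 ≤ k0 ∧ ∀ k t N : ℕ, k0 ≤ k → 4 * k ≤ t →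
      2 ^ t * 2 ^ (k + 1) ≤ N → 4 ^ (k + 1) ≤ N →
      (∑ d ∈ (Ioc (2 ^ k) (2 ^ (k + 1)) : Finset ℕ).filter Squarefree, (zq g q (σ * (d : ℤ)) M (N / d) : ℝ)) ≤
        C * (N / Real.log N) * Real.exp (EL.TT g N) * ((4 * (k : ℝ) / t) ^ γ + (t : ℝ) ^ 3 / 2 ^ k) := by
  obtain ⟨γ, η1, hγ0, hγ1, hη1, hone⟩ := one_q hg q hq
  refine ⟨γ, hγ0, hγ1, fun σ M hσ hM => ?_⟩
  obtain ⟨C1, hC1, h1⟩ := hone σ M hσ hM
  obtain ⟨C2, hC2, h2⟩ := zq_le hg q M hM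
  obtain ⟨k0, hk0⟩ := exc_q hg q hq.1 σ hσ η1 hη1
  refine ⟨3 * C1 + 3 * C2 * (8 / η1 ^ 2), max k0 1, by positivity, le_max_right _ _, ?_⟩
  intro k t N hk ht hN hN4
  have hk1 : 1 ≤ k := le_trans (le_max_right _ _) hk
  obtain ⟨E, hE1, hE2⟩ := QA5_card (bt g q) σ k t η1 _
    (fun d h2 h3 => (QA5_mf _ _ _ _).2 ⟨h2, h3⟩) _ (hk0 k t (le_trans (le_max_left _ _) hk))
  obtain ⟨Y, hY⟩ : ∃ Y : ℝ, Y = (4 * (k : ℝ) / t) ^ γ := ⟨_, rfl⟩
  have hY0 : 0 ≤ Y := by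
    rw [hY]
    positivity
  obtain ⟨B, hB⟩ : ∃ B : ℝ, B = 3 * ((N : ℝ) / 2 ^ k) / Real.log N * Real.exp (EL.TT g N) := ⟨_, rfl⟩
  have hlN : 0 < Real.log N := by
    refine Real.log_pos ?_
    have e1 : 4 ^ 1 ≤ 4 ^ (k + 1) := Nat.pow_le_pow_right (by norm_num) (by omega)
    have e2 : 1 < N := by omega
    exact_mod_cast e2
  have hB0 : 0 ≤ B := by
    rw [hB]
    positivity
  have hpt : ∀ d ∈ (Ioc (2 ^ k) (2 ^ (k + 1)) : Finset ℕ).filter Squarefree,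
      (zq g q (σ * (d : ℤ)) M (N / d) : ℝ) ≤ C1 * B * Y + if d ∈ E then C2 * B else 0 := by
    intro d hd
    obtain ⟨hd1, hd2⟩ := (QA5_mf _ _ _ _).1 hd
    obtain ⟨hd3, hd4⟩ := Finset.mem_Ioc.1 hd1
    obtain ⟨hx2, hxB⟩ := QA5_size hk1 hd3 hd4 hN4
    have hle : N / d ≤ N := Nat.div_le_self N d
    have hfac : ((N / d : ℕ) : ℝ) / Real.log ((N / d : ℕ) : ℝ) *
        Real.exp (EL.TT g ((N / d : ℕ) : ℝ)) ≤ B := by
      rw [hB]
      refine mul_le_mul hxB (Real.exp_le_exp.2 (QA5_TT g hle)) (Real.exp_pos _).le ?_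
      positivity
    have hdpos : 1 ≤ d := by
      have := Nat.two_pow_pos k
      omega
    by_cases he : d ∈ E
    · rw [if_pos he]
      have h3 := h2 (σ * (d : ℤ)) (N / d) hx2
      have h4 := mul_le_mul_of_nonneg_left hfac hC2.le
      have h5 : 0 ≤ C1 * B * Y := mul_nonneg (mul_nonneg hC1.le hB0) hY0
      rw [← mul_assoc] at h4
      linarith
    · rw [if_neg he, add_zero]
      have hE' := hE2 d hd3 hd4 hd2 he
      have hx : 2 ^ t ≤ N / d := by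
        rw [Nat.le_div_iff_mul_le hdpos]
        exact le_trans (Nat.mul_le_mul_left _ hd4) hN
      have hds : d < 2 ^ (4 * k) :=
        lt_of_le_of_lt hd4 (Nat.pow_lt_pow_right (by norm_num) (by omega))
      have h3 := h1 d (4 * k) t (N / d) hdpos (by omega) ht hx hds hE'
      have h4 : (((4 * k : ℕ) : ℝ) / t) ^ γ = Y := by
        rw [hY]
        push_cast
        rfl
      rw [h4] at h3
      refine le_trans h3 ?_
      have h5 := mul_le_mul_of_nonneg_left hfac hC1.le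
      rw [← mul_assoc] at h5
      exact mul_le_mul_of_nonneg_right h5 hY0
  refine le_trans (Finset.sum_le_sum hpt) ?_
  rw [Finset.sum_add_distrib, Finset.sum_const, nsmul_eq_mul, ← Finset.sum_filter, Finset.sum_const,
    nsmul_eq_mul, ← hY]
  have hcard1 : ((((Ioc (2 ^ k) (2 ^ (k + 1)) : Finset ℕ).filter Squarefree).card : ℕ) : ℝ) ≤ 2 ^ k := by
    have h2 := Finset.card_filter_le (Ioc (2 ^ k) (2 ^ (k + 1)) : Finset ℕ) Squarefree
    rw [Nat.card_Ioc] at h2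
    have h3 : 2 ^ (k + 1) - 2 ^ k = 2 ^ k := by
      rw [pow_succ]
      omega
    rw [h3] at h2
    exact_mod_cast h2
  have hcard2 : (((((Ioc (2 ^ k) (2 ^ (k + 1)) : Finset ℕ).filter Squarefree).filter
      fun d => d ∈ E).card : ℕ) : ℝ) ≤ 8 / η1 ^ 2 * (t : ℝ) ^ 3 := by
    refine le_trans ?_ hE1
    have h2 : (((Ioc (2 ^ k) (2 ^ (k + 1)) : Finset ℕ).filter Squarefree).filter
        fun d => d ∈ E).card ≤ E.card :=
      Finset.card_le_card fun d hd => (Finset.mem_filter.1 hd).2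
    exact_mod_cast h2
  have hBY : 0 ≤ C1 * B * Y := mul_nonneg (mul_nonneg hC1.le hB0) hY0
  have i1 := mul_le_mul_of_nonneg_right hcard1 hBY
  have i2 := mul_le_mul_of_nonneg_right hcard2 (mul_nonneg hC2.le hB0)
  obtain ⟨D, hD⟩ : ∃ D : ℝ, D = (N : ℝ) / Real.log N * Real.exp (EL.TT g N) := ⟨_, rfl⟩
  have hD0 : 0 ≤ D := by
    rw [hD]
    positivity
  have hBD : B = 3 * D / 2 ^ k := by
    rw [hB, hD]
    ring
  have h2k : (2 : ℝ) ^ k ≠ 0 := by positivity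
  have e1 : (2 : ℝ) ^ k * (C1 * B * Y) = 3 * C1 * D * Y := by
    rw [hBD]
    field_simp
  have e2 : 8 / η1 ^ 2 * (t : ℝ) ^ 3 * (C2 * B) =
      3 * C2 * (8 / η1 ^ 2) * D * ((t : ℝ) ^ 3 / 2 ^ k) := by
    rw [hBD]
    ring
  rw [e1] at i1
  rw [e2] at i2
  have e3 : (3 * C1 + 3 * C2 * (8 / η1 ^ 2)) * (N / Real.log N) * Real.exp (EL.TT g N) *
      (Y + (t : ℝ) ^ 3 / 2 ^ k) = 3 * C1 * D * Y +
      3 * C2 * (8 / η1 ^ 2) * D * ((t : ℝ) ^ 3 / 2 ^ k) +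
      (3 * C1 * D * ((t : ℝ) ^ 3 / 2 ^ k) + 3 * C2 * (8 / η1 ^ 2) * D * Y) := by
    rw [hD]
    ring
  have e4 : 0 ≤ 3 * C1 * D * ((t : ℝ) ^ 3 / 2 ^ k) + 3 * C2 * (8 / η1 ^ 2) * D * Y := by positivity
  rw [e3]
  linarith

end QV
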