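import Pool.Agent.Lib.MP_10e784_agQV.QA5

/-! JOB QA6.  The middle range of `d`.  MODEL: `QV.mid_d` (file A6.lean, proved), with `γ` in place of `1/5` and `ε = γ / 4` in place of `1 / 16` (`t = min (2 ^ (k / 8)) (Nat.log 2 N / 2)`; the number of blocks is at most `2 (log N) ^ ε + 1`, the exponent at the end is `ε - γ (1 - ε) < 0`). -/

set_option autoImplicit false

namespace QV

open Finset Polynomial TW TR

private theorem QA6_grow (m : ℕ) : ∃ q3 : ℕ, 1 ≤ q3 ∧ ∀ q : ℕ, q3 ≤ q → 4 * (q : ℝ) ^ m ≤ 2 ^ (q / 8) := by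
  obtain ⟨ρ, hρ1, hρ8⟩ : ∃ ρ : ℝ, 1 < ρ ∧ ρ ^ 8 = 2 := by
    refine ⟨2 ^ (1 / 8 : ℝ), Real.one_lt_rpow (by norm_num) (by norm_num), ?_⟩
    rw [← Real.rpow_natCast, ← Real.rpow_mul (by norm_num)]
    norm_num
  have h1 := tendsto_pow_const_div_const_pow_of_one_lt m hρ1
  obtain ⟨a, ha⟩ := Filter.eventually_atTop.1 (h1.eventually (gt_mem_nhds (show (0 : ℝ) < 1 / 8 by norm_num)))
  refine ⟨max 1 a, le_max_left _ _, fun q hq => ?_⟩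
  have h3 : (q : ℝ) ^ m / ρ ^ q < 1 / 8 := ha q ((le_max_right _ _).trans hq)
  have hρ0 : 0 < ρ := by linarith
  rw [div_lt_iff₀ (pow_pos hρ0 q)] at h3
  have h4 : ρ ^ q ≤ 2 * 2 ^ (q / 8) := by
    have h5 : ρ ^ q = (ρ ^ 8) ^ (q / 8) * ρ ^ (q % 8) := by
      rw [← pow_mul, ← pow_add, Nat.div_add_mod]
    rw [h5, hρ8, mul_comm]
    have h6 : ρ ^ (q % 8) ≤ ρ ^ 8 := pow_le_pow_right₀ hρ1.le (Nat.mod_lt q (by norm_num)).le
    rw [hρ8] at h6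
    exact mul_le_mul_of_nonneg_right h6 (by positivity)
  linarith

private theorem QA6_root {γ : ℝ} (hγ : 0 < γ) {m : ℕ} (hm : 2 ≤ m * γ) {x : ℝ} {q : ℕ} (hq : 1 ≤ q) (hx : 0 ≤ x)
    (h : x ≤ ((q : ℝ) ^ m)⁻¹) : x ^ γ ≤ ((q : ℝ) ^ 2)⁻¹ := by
  have hq' : (1 : ℝ) ≤ q := by exact_mod_cast hq
  have hq0 : (0 : ℝ) ≤ q := by linarith
  calc x ^ γ ≤ (((q : ℝ) ^ m)⁻¹) ^ γ := Real.rpow_le_rpow hx h hγ.le
    _ = (q : ℝ) ^ (-(m * γ)) := by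
        rw [Real.inv_rpow (by positivity), ← Real.rpow_natCast, ← Real.rpow_mul hq0, Real.rpow_neg hq0]
    _ ≤ (q : ℝ) ^ (-(2 : ℝ)) := Real.rpow_le_rpow_of_exponent_le hq' (by linarith)
    _ = ((q : ℝ) ^ 2)⁻¹ := by rw [Real.rpow_neg hq0, Real.rpow_two]

private theorem QA6_blk {γ : ℝ} (hγ : 0 < γ) {m : ℕ} (hm : 2 ≤ m * γ) (hm2 : 1 ≤ m) {q L : ℕ} (hq1 : 1 ≤ q)
    (hg : 4 * (q : ℝ) ^ (m + 1) ≤ 2 ^ (q / 8)) :
    (4 * (q : ℝ) / ((min (2 ^ (q / 8)) L : ℕ) : ℝ)) ^ γ + ((min (2 ^ (q / 8)) L : ℕ) : ℝ) ^ 3 / 2 ^ q ≤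
      2 * ((q : ℝ) ^ 2)⁻¹ + (4 * (q : ℝ) / L) ^ γ := by
  have hq : (1 : ℝ) ≤ (q : ℝ) := by exact_mod_cast hq1
  have hq0 : (0 : ℝ) < (q : ℝ) := by linarith
  have hX : (0 : ℝ) < 2 ^ (q / 8) := by positivity
  have hA : (4 * (q : ℝ) / 2 ^ (q / 8)) ^ γ ≤ ((q : ℝ) ^ 2)⁻¹ := by
    refine QA6_root hγ hm hq1 (by positivity) ?_
    rw [div_le_iff₀ hX, ← div_eq_inv_mul, le_div_iff₀ (by positivity)]
    calc 4 * (q : ℝ) * (q : ℝ) ^ m = 4 * (q : ℝ) ^ (m + 1) := by ring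
      _ ≤ _ := hg
  have hB : ((2 : ℝ) ^ (q / 8)) ^ 3 / 2 ^ q ≤ ((q : ℝ) ^ 2)⁻¹ := by
    rw [div_le_iff₀ (by positivity), ← div_eq_inv_mul, le_div_iff₀ (by positivity)]
    have h1 : (q : ℝ) ^ 2 ≤ 2 ^ (q / 8) := by
      have h2 : (q : ℝ) ^ 2 ≤ (q : ℝ) ^ (m + 1) := pow_le_pow_right₀ hq (by omega)
      have h3 : 0 ≤ (q : ℝ) ^ (m + 1) := by positivity
      linarith
    calc ((2 : ℝ) ^ (q / 8)) ^ 3 * (q : ℝ) ^ 2 ≤ ((2 : ℝ) ^ (q / 8)) ^ 3 * 2 ^ (q / 8) := mul_le_mul_of_nonneg_left h1 (by positivity)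
      _ = 2 ^ (q / 8 * 4) := by rw [← pow_succ, ← pow_mul]
      _ ≤ 2 ^ q := pow_le_pow_right₀ (by norm_num) (by omega)
  rcases le_total (2 ^ (q / 8)) L with h | h
  · rw [min_eq_left h]
    have h0 : 0 ≤ (4 * (q : ℝ) / L) ^ γ := Real.rpow_nonneg (by positivity) _
    push_cast
    linarith
  · rw [min_eq_right h]
    have h1 : (L : ℝ) ≤ 2 ^ (q / 8) := by exact_mod_cast h
    have h2 : (L : ℝ) ^ 3 / 2 ^ q ≤ ((2 : ℝ) ^ (q / 8)) ^ 3 / 2 ^ q :=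
      div_le_div_of_nonneg_right (pow_le_pow_left₀ (Nat.cast_nonneg L) h1 3) (by positivity)
    have h3 : 0 ≤ ((q : ℝ) ^ 2)⁻¹ := by positivity
    linarith

private theorem QA6_log {N : ℕ} (hN : 1 ≤ N) : Real.log N ≤ 2 * ((Nat.log 2 N / 2 : ℕ) : ℝ) + 2 := by
  have h1 : N < 2 ^ (Nat.log 2 N + 1) := Nat.lt_pow_succ_log_self (by norm_num) N
  have h2 : (N : ℝ) ≤ 2 ^ (Nat.log 2 N + 1) := by exact_mod_cast h1.le
  have h3 : Real.log N ≤ ((Nat.log 2 N + 1 : ℕ) : ℝ) * Real.log 2 := by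
    rw [← Real.log_pow]
    exact Real.log_le_log (by exact_mod_cast hN) h2
  have h4 : Real.log 2 ≤ 1 := by
    have := Real.log_two_lt_d9
    linarith
  have h5 : Nat.log 2 N + 1 ≤ 2 * (Nat.log 2 N / 2) + 2 := by omega
  have h6 : ((Nat.log 2 N + 1 : ℕ) : ℝ) ≤ 2 * ((Nat.log 2 N / 2 : ℕ) : ℝ) + 2 := by exact_mod_cast h5
  have h7 : ((Nat.log 2 N + 1 : ℕ) : ℝ) * Real.log 2 ≤ ((Nat.log 2 N + 1 : ℕ) : ℝ) * 1 :=
    mul_le_mul_of_nonneg_left h4 (Nat.cast_nonneg _)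
  linarith

private theorem QA6_large {ε γ : ℝ} (hε : 0 < ε) (hε1 : ε < 1) (h : ε < γ * (1 - ε)) {δ : ℝ} (hδ : 0 < δ) :
    ∃ Z0 : ℝ, 4 ≤ Z0 ∧ ∀ Z : ℝ, Z0 ≤ Z → 32 * Z ^ ε ≤ Z ∧ 1 ≤ Z ^ ε ∧ 3 * Z ^ ε * (32 * Z ^ ε / Z) ^ γ ≤ δ := by
  have h1 := tendsto_rpow_neg_atTop (show 0 < 1 - ε by linarith)
  have h2 := tendsto_rpow_neg_atTop (show 0 < γ * (1 - ε) - ε by linarith)
  have hδ' : 0 < δ / (3 * 32 ^ γ) := div_pos hδ (by positivity)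
  obtain ⟨a, ha⟩ := Filter.eventually_atTop.1 (h1.eventually (gt_mem_nhds (show (0 : ℝ) < 1 / 32 by norm_num)))
  obtain ⟨b, hb⟩ := Filter.eventually_atTop.1 (h2.eventually (gt_mem_nhds hδ'))
  refine ⟨max 4 (max a b), le_max_left _ _, fun Z hZ => ?_⟩
  have hZ4 : 4 ≤ Z := (le_max_left _ _).trans hZ
  have hZa := ha Z (((le_max_left _ _).trans (le_max_right _ _)).trans hZ)
  have hZb := hb Z (((le_max_right _ _).trans (le_max_right _ _)).trans hZ)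
  have hZ0 : 0 < Z := by linarith
  have h3 : Z ^ ε / Z = Z ^ (-(1 - ε)) := by
    rw [neg_sub, Real.rpow_sub hZ0, Real.rpow_one]
  refine ⟨?_, Real.one_le_rpow (by linarith) hε.le, ?_⟩
  · rw [← h3, div_lt_iff₀ hZ0] at hZa
    linarith
  · have h4 : (32 * Z ^ ε / Z) ^ γ = 32 ^ γ * Z ^ (-(1 - ε) * γ) := by
      rw [mul_div_assoc, h3, Real.mul_rpow (by norm_num) (by positivity), ← Real.rpow_mul hZ0.le]
    have h5 : Z ^ ε * Z ^ (-(1 - ε) * γ) = Z ^ (-(γ * (1 - ε) - ε)) := by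
      rw [← Real.rpow_add hZ0]
      congr 1
      ring
    rw [h4]
    rw [lt_div_iff₀ (by positivity)] at hZb
    calc 3 * Z ^ ε * (32 ^ γ * Z ^ (-(1 - ε) * γ)) = Z ^ ε * Z ^ (-(1 - ε) * γ) * (3 * 32 ^ γ) := by ring
      _ = Z ^ (-(γ * (1 - ε) - ε)) * (3 * 32 ^ γ) := by rw [h5]
      _ ≤ δ := hZb.le

open Classical in
theorem mid_q {ι : Type} [Fintype ι] [DecidableEq ι] {g : ι → ℤ[X]} (hg : TR.Fam g) (q : ι) (hq : Qd g q) :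
    ∃ ε : ℝ, 0 < ε ∧ ε < 1 ∧ ∀ (σ : ℤ) (M : ℕ) (η : ℝ), σ ≠ 0 → M ≠ 0 → 0 < η → ∃ Q0 N0 : ℕ, ∀ N : ℕ, N0 ≤ N →
      (∑ d ∈ (Ioc Q0 ⌊Real.exp (Real.log N ^ ε)⌋₊ : Finset ℕ).filter Squarefree, (zq g q (σ * (d : ℤ)) M (N / d) : ℝ)) ≤
        η * (N / Real.log N) * Real.exp (EL.TT g N) := by
  obtain ⟨γ, hγ, hγ2, hblock⟩ := block_q hg q hq
  obtain ⟨ε, hεd⟩ : ∃ ε : ℝ, ε = γ / 4 := ⟨_, rfl⟩
  have hε : 0 < ε := by
    rw [hεd]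
    linarith
  have hε8 : ε ≤ 1 / 8 := by
    rw [hεd]
    linarith
  have hεγ : ε < γ * (1 - ε) := by
    have h1 : γ * (7 / 8) ≤ γ * (1 - ε) := mul_le_mul_of_nonneg_left (by linarith) hγ.le
    have h2 : ε < γ * (7 / 8) := by
      rw [hεd]
      linarith
    linarith
  refine ⟨ε, hε, by linarith, fun σ M η hσ hM hη => ?_⟩
  obtain ⟨C, k0, hC, hk0, hblk⟩ := hblock σ M hσ hM
  obtain ⟨m, hm⟩ := exists_nat_ge (2 / γ)
  have hm' : 2 ≤ (m : ℝ) * γ := (div_le_iff₀ hγ).1 hm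
  have hm1 : 1 ≤ m := by
    rcases Nat.eq_zero_or_pos m with h | h
    · rw [h, Nat.cast_zero, zero_mul] at hm'
      norm_num at hm'
    · exact h
  obtain ⟨k3, hk3, hgrow⟩ := QA6_grow (m + 1)
  obtain ⟨k4, hk4⟩ := exists_nat_gt (8 * C / η)
  obtain ⟨k2, hk2⟩ : ∃ k2 : ℕ, k2 = k0 + k3 + k4 := ⟨_, rfl⟩
  obtain ⟨Z0, hZ04, hZ0⟩ := QA6_large hε (by linarith) hεγ (δ := η / (2 * C)) (by positivity)
  refine ⟨2 ^ k2, ⌈Real.exp Z0⌉₊, fun N hN => ?_⟩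
  have hNe : Real.exp Z0 ≤ (N : ℝ) := (Nat.le_ceil _).trans (by exact_mod_cast hN)
  have hN0 : (0 : ℝ) < (N : ℝ) := lt_of_lt_of_le (Real.exp_pos _) hNe
  have hN1 : 1 ≤ N := by exact_mod_cast hN0
  obtain ⟨Z, hZ⟩ : ∃ Z : ℝ, Z = Real.log N := ⟨_, rfl⟩
  have hlog : Z0 ≤ Z := by
    rw [hZ]
    exact (Real.le_log_iff_exp_le hN0).2 hNe
  have hZ4 : 4 ≤ Z := hZ04.trans hlog
  have hZp : 0 < Z := by linarith
  obtain ⟨hz1, hz2, hz3⟩ := hZ0 Z hlog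
  rw [← hZ]
  obtain ⟨y, hy⟩ : ∃ y : ℝ, y = Z ^ ε := ⟨_, rfl⟩
  rw [← hy] at hz1 hz2 hz3 ⊢
  have hy0 : 0 < y := by linarith
  obtain ⟨W, hW⟩ : ∃ W : ℝ, W = (N / Z) * Real.exp (EL.TT g N) := ⟨_, rfl⟩
  have hW0 : 0 ≤ W := by
    rw [hW]
    positivity
  obtain ⟨B, hB⟩ : ∃ B : ℝ, B = (32 * y / Z) ^ γ := ⟨_, rfl⟩
  rw [← hB] at hz3
  have hB0 : 0 ≤ B := by
    rw [hB]
    exact Real.rpow_nonneg (by positivity) _
  obtain ⟨L, hL⟩ : ∃ L : ℕ, L = Nat.log 2 N / 2 := ⟨_, rfl⟩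
  have hLZ : Z / 4 ≤ (L : ℝ) := by
    have h1 := QA6_log hN1
    rw [← hL, ← hZ] at h1
    linarith
  have hLp : (0 : ℝ) < (L : ℝ) := by linarith
  obtain ⟨n, hn⟩ : ∃ n : ℕ, n = ⌊2 * y⌋₊ := ⟨_, rfl⟩
  have hn2 : (n : ℝ) ≤ 2 * y := by
    rw [hn]
    exact Nat.floor_le (by linarith)
  have hone : ∀ k ∈ Ico k2 (n + 1),
      (∑ d ∈ (Ioc (2 ^ k) (2 ^ (k + 1)) : Finset ℕ).filter Squarefree, (zq g q (σ * (d : ℤ)) M (N / d) : ℝ)) ≤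
        C * W * (2 * ((k : ℝ) ^ 2)⁻¹ + B) := by
    intro k hk
    rw [mem_Ico] at hk
    have hkn : (k : ℝ) ≤ 2 * y := le_trans (by exact_mod_cast Nat.lt_succ_iff.1 hk.2) hn2
    have hg' := hgrow k (by omega)
    have hkL : 4 * k ≤ L := by
      have h1 : (4 : ℝ) * (k : ℝ) ≤ (L : ℝ) := by linarith
      exact_mod_cast h1
    have hk1 : 1 ≤ k := by omega
    have hkX : 4 * k ≤ 2 ^ (k / 8) := by
      have h3 : (1 : ℝ) ≤ (k : ℝ) := by exact_mod_cast hk1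
      have h2 : (k : ℝ) ≤ (k : ℝ) ^ (m + 1) := by
        calc (k : ℝ) = (k : ℝ) ^ 1 := (pow_one _).symm
          _ ≤ (k : ℝ) ^ (m + 1) := pow_le_pow_right₀ h3 (by omega)
      have h1 : (4 : ℝ) * (k : ℝ) ≤ (2 : ℝ) ^ (k / 8) := by linarith
      exact_mod_cast h1
    have h2L : 2 * L ≤ Nat.log 2 N := by
      rw [hL]
      omega
    have hpow : 2 ^ (min (2 ^ (k / 8)) L) * 2 ^ (k + 1) ≤ N := by
      have h1 : 2 ^ (min (2 ^ (k / 8)) L) * 2 ^ (k + 1) ≤ 2 ^ Nat.log 2 N := by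
        rw [← pow_add]
        refine Nat.pow_le_pow_right (by norm_num) ?_
        have h2 : min (2 ^ (k / 8)) L ≤ L := min_le_right _ _
        omega
      exact h1.trans (Nat.pow_log_le_self 2 (by omega))
    have hpow4 : 4 ^ (k + 1) ≤ N := by
      have h1 : 4 ^ (k + 1) ≤ 2 ^ Nat.log 2 N := by
        have h2 : (4 : ℕ) = 2 ^ 2 := by norm_num
        rw [h2, ← pow_mul]
        refine Nat.pow_le_pow_right (by norm_num) ?_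
        omega
      exact h1.trans (Nat.pow_log_le_self 2 (by omega))
    have h1 := hblk k (min (2 ^ (k / 8)) L) N (by omega) (le_min hkX hkL) hpow hpow4
    rw [← hZ, mul_assoc C, ← hW] at h1
    refine h1.trans (mul_le_mul_of_nonneg_left ((QA6_blk hγ hm' hm1 hk1 hg').trans ?_) (by positivity))
    have h2 : (4 * (k : ℝ) / L) ^ γ ≤ B := by
      rw [hB]
      refine Real.rpow_le_rpow (by positivity) ?_ hγ.le
      rw [div_le_div_iff₀ hLp hZp]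
      have h3 : 4 * (k : ℝ) * Z ≤ 8 * y * Z := mul_le_mul_of_nonneg_right (by linarith) hZp.le
      have h4 : 32 * y * (Z / 4) ≤ 32 * y * L := mul_le_mul_of_nonneg_left hLZ (by positivity)
      linarith
    linarith
  have hmap : ∀ d ∈ (Ioc (2 ^ k2) ⌊Real.exp y⌋₊ : Finset ℕ).filter Squarefree, Nat.log 2 (d - 1) ∈ Ico k2 (n + 1) := by
    intro d hd
    have hd1 := mem_Ioc.1 (mem_filter.1 hd).1
    have hd0 : 1 ≤ 2 ^ k2 := Nat.one_le_two_pow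
    rw [mem_Ico]
    constructor
    · exact Nat.le_log_of_pow_le (by norm_num) (by omega)
    · have h1 : 2 ^ Nat.log 2 (d - 1) ≤ d - 1 := Nat.pow_log_le_self 2 (by omega)
      have h2 : ((2 : ℝ) ^ Nat.log 2 (d - 1)) ≤ Real.exp y := by
        have h3 : 2 ^ Nat.log 2 (d - 1) ≤ ⌊Real.exp y⌋₊ := by omega
        have h4 : ((2 ^ Nat.log 2 (d - 1) : ℕ) : ℝ) ≤ ((⌊Real.exp y⌋₊ : ℕ) : ℝ) := by exact_mod_cast h3
        have h5 := Nat.floor_le (Real.exp_pos y).le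
        push_cast at h4
        linarith
      have h3 : (Nat.log 2 (d - 1) : ℝ) * Real.log 2 ≤ y := by
        have h4 := Real.log_le_log (by positivity) h2
        rwa [Real.log_pow, Real.log_exp] at h4
      have h4 := Real.log_two_gt_d9
      have h5 : (Nat.log 2 (d - 1) : ℝ) ≤ 2 * y := by
        have h6 : (0 : ℝ) ≤ (Nat.log 2 (d - 1) : ℝ) := Nat.cast_nonneg _
        nlinarith
      rw [Nat.lt_succ_iff, hn]
      exact Nat.le_floor h5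
  have hsum : (∑ d ∈ (Ioc (2 ^ k2) ⌊Real.exp y⌋₊ : Finset ℕ).filter Squarefree, (zq g q (σ * (d : ℤ)) M (N / d) : ℝ)) ≤
      ∑ k ∈ Ico k2 (n + 1), C * W * (2 * ((k : ℝ) ^ 2)⁻¹ + B) := by
    rw [← Finset.sum_fiberwise_of_maps_to hmap]
    refine Finset.sum_le_sum fun k hk => le_trans ?_ (hone k hk)
    refine Finset.sum_le_sum_of_subset_of_nonneg ?_ fun _ _ _ => Nat.cast_nonneg _
    intro d hd
    have hd1 := mem_filter.1 hd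
    have hd2 := mem_filter.1 hd1.1
    have hd3 := mem_Ioc.1 hd2.1
    have hd0 : 1 ≤ 2 ^ k2 := Nat.one_le_two_pow
    have h1 : 2 ^ Nat.log 2 (d - 1) ≤ d - 1 := Nat.pow_log_le_self 2 (by omega)
    have h2 : d - 1 < 2 ^ (Nat.log 2 (d - 1) + 1) := Nat.lt_pow_succ_log_self (by norm_num) _
    rw [hd1.2] at h1 h2
    exact mem_filter.2 ⟨mem_Ioc.2 ⟨by omega, by omega⟩, hd2.2⟩
  refine hsum.trans ?_
  rw [← Finset.mul_sum, Finset.sum_add_distrib, ← Finset.mul_sum, Finset.sum_const, nsmul_eq_mul]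
  have hinv : ∑ k ∈ Ico k2 (n + 1), ((k : ℝ) ^ 2)⁻¹ ≤ 2 / (k2 : ℝ) := by
    have h1 := sum_Ioo_inv_sq_le (α := ℝ) (k2 - 1) (n + 1)
    have h2 : Ioo (k2 - 1) (n + 1) = Ico k2 (n + 1) := by
      ext x
      rw [mem_Ioo, mem_Ico]
      omega
    have h3 : (((k2 - 1 : ℕ) : ℝ) + 1) = (k2 : ℝ) := by
      have h4 : k2 - 1 + 1 = k2 := by omega
      exact_mod_cast h4
    rw [h2, h3] at h1
    exact h1
  have hk2p : 8 * C / η < (k2 : ℝ) := lt_of_lt_of_le hk4 (by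
    have h1 : k4 ≤ k2 := by omega
    exact_mod_cast h1)
  have hk20 : (0 : ℝ) < (k2 : ℝ) := lt_of_le_of_lt (by positivity) hk2p
  have e1 : 2 * (2 / (k2 : ℝ)) ≤ η / (2 * C) := by
    rw [div_lt_iff₀ hη] at hk2p
    have h1 : 2 * (2 / (k2 : ℝ)) = 4 / (k2 : ℝ) := by ring
    rw [h1, div_le_div_iff₀ hk20 (by positivity)]
    linarith
  have hcard : ((Ico k2 (n + 1)).card : ℝ) ≤ 3 * y := by
    rw [Nat.card_Ico]
    have h1 : ((n + 1 - k2 : ℕ) : ℝ) ≤ ((n + 1 : ℕ) : ℝ) := by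
      have h2 : n + 1 - k2 ≤ n + 1 := Nat.sub_le _ _
      exact_mod_cast h2
    push_cast at h1
    linarith
  have e2 : ((Ico k2 (n + 1)).card : ℝ) * B ≤ η / (2 * C) :=
    (mul_le_mul_of_nonneg_right hcard hB0).trans hz3
  calc C * W * (2 * ∑ k ∈ Ico k2 (n + 1), ((k : ℝ) ^ 2)⁻¹ + ((Ico k2 (n + 1)).card : ℝ) * B) ≤
      C * W * (η / (2 * C) + η / (2 * C)) := by
        refine mul_le_mul_of_nonneg_left ?_ (by positivity)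
        linarith
    _ = η * W := by
        field_simp
        ring
    _ = η * (N / Z) * Real.exp (EL.TT g N) := by
        rw [hW]
        ring

end QV
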