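import Pool.Agent.Lib.MP_10e784_agN2.N8B

/-! JOB QBW.  The bad layers with a witness.  COPY of one step of `EN.bad_part` (file MP_10e784_agN2/N8B.lean, proved; copy its private lemmas): the maximal index is the given `q`, and `l` is the given witness: `few` for `R₁ = Inr (g q) (g l)`, `c, A` from `inert_low`. -/

set_option autoImplicit false

namespace QV

open Finset Polynomial TW EL EN

private lemma QBW_rt {G : ℤ[X]} {p : ℕ} (hp : p.Prime) {t : ZMod p}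
    (h : (G.map (Int.castRingHom (ZMod p))).eval t = 0) : 1 ≤ PT.rt G p := by
  have : Fact p.Prime := ⟨hp⟩
  unfold PT.rt
  have : Nonempty {ρ : ZMod p // (G.map (Int.castRingHom (ZMod p))).eval ρ = 0} := ⟨⟨t, h⟩⟩
  exact Nat.card_pos

private lemma QBW_RP {ι : Type} [Fintype ι] (g : ι → ℤ[X]) {p : ℕ} {i : ι}
    (h : 1 ≤ PT.rt (g i) p) : p ∈ RP g := by
  show 1 ≤ TW.rts g univ p
  unfold TW.rts
  exact h.trans (Finset.single_le_sum (f := fun i => PT.rt (g i) p) (fun _ _ => Nat.zero_le _)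
    (mem_univ i))

private lemma QBW_root {ι : Type} [Fintype ι] {g : ι → ℤ[X]} {C₀ : ℝ} {M : ℕ} {D g0 : ℤ}
    {e : ι → ℕ} {x : Co g → ℤ} (hd : Dat g C₀ M D g0 e x) {p : ℕ} (hp : p.Prime) (hpM : ¬ p ∣ M)
    {i : ι} (hi : p ∣ e i) : 1 ≤ PT.rt (g i) p := by
  obtain ⟨-, -, -, -, -, hloc, hlast⟩ := hd
  obtain ⟨h, hm, hirr, hdv, hpol⟩ := (hlast p hp hpM i).1 hi
  rcases hloc p hp hpM with h1 | ⟨i', t, s, -, -, -, h3⟩
  · exact absurd hpol (h1 i h hm hirr hdv)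
  · by_cases hh : h = X - C t
    · subst hh
      have h4 : (red p (g i)).eval t = 0 := Polynomial.dvd_iff_isRoot.1 hdv
      exact QBW_rt hp h4
    · exact absurd hpol (h3 i h hm hirr hdv hh).1

private lemma QBW_dvd {ι : Type} [Fintype ι] {g : ι → ℤ[X]} {C₀ : ℝ} {M : ℕ} {D g0 : ℤ}
    {e : ι → ℕ} {x : Co g → ℤ} (hd : Dat g C₀ M D g0 e x) {p : ℕ} (hp : p.Prime) (hpM : ¬ p ∣ M)
    (hpD : (p : ℤ) ∣ D) : ∃ i, p ∣ e i := by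
  obtain ⟨hg0, hD, -, -, -, -, -⟩ := hd
  rw [hD] at hpD
  rcases (Nat.prime_iff_prime_int.1 hp).dvd_or_dvd hpD with h1 | h1
  · exact absurd ((Int.natCast_dvd.1 h1).trans hg0) hpM
  · obtain ⟨i, -, hi⟩ := (Nat.prime_iff_prime_int.1 hp).exists_mem_finset_dvd h1
    exact ⟨i, Int.natCast_dvd_natCast.1 hi⟩

private lemma QBW_le {ι : Type} [Fintype ι] {g : ι → ℤ[X]} {C₀ : ℝ} {M : ℕ} {D g0 : ℤ}
    {e : ι → ℕ} {x : Co g → ℤ} (hd : Dat g C₀ M D g0 e x) {N : ℕ} (hsq : Squarefree D)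
    (hDN : |D| ≤ (N : ℤ)) (i : ι) : e i ≠ 0 ∧ e i ≤ N := by
  obtain ⟨-, hD, -, -, -, -, -⟩ := hd
  have hD0 : D ≠ 0 := hsq.ne_zero
  have h1 : (e i : ℤ) ∣ D := by
    rw [hD]
    exact Dvd.dvd.mul_left (Finset.dvd_prod_of_mem (fun i => (e i : ℤ)) (mem_univ i)) _
  constructor
  · intro h0
    rw [h0, Nat.cast_zero, zero_dvd_iff] at h1
    exact hD0 h1
  · have h2 : (e i : ℤ) ≤ |D| := Int.le_of_dvd (abs_pos.2 hD0) ((dvd_abs _ _).2 h1)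
    exact_mod_cast h2.trans hDN

private lemma QBW_small {N K a b q : ℕ} (hK : 2 ≤ K) (hN : 2 ≤ N) (hb : 2 ^ b ≤ N)
    (hab : (a : ℝ) < (b : ℝ) ^ (1 - 1 / (K : ℝ))) (hq : q < 2 ^ (a + 1)) : (q : ℝ) ≤ zN K N := by
  have hl2 : 0 < Real.log 2 := Real.log_pos (by norm_num)
  have hN0 : (0 : ℝ) < N := by exact_mod_cast (by omega : 0 < N)
  have h1 : (b : ℝ) ≤ Real.log N / Real.log 2 := by
    rw [le_div_iff₀ hl2, ← Real.log_pow]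
    exact Real.log_le_log (by positivity) (by exact_mod_cast hb)
  have hK0 : (2 : ℝ) ≤ K := by exact_mod_cast hK
  have hexp : (0 : ℝ) ≤ 1 - 1 / (K : ℝ) := by
    have : 1 / (K : ℝ) ≤ 1 := by
      rw [div_le_one (by linarith)]
      linarith
    linarith
  have h2 : (a : ℝ) ≤ (Real.log N / Real.log 2) ^ (1 - 1 / (K : ℝ)) :=
    hab.le.trans (Real.rpow_le_rpow (Nat.cast_nonneg _) h1 hexp)
  have h3 : (q : ℝ) ≤ 2 * (2 : ℝ) ^ (a : ℝ) := by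
    rw [Real.rpow_natCast, mul_comm, ← pow_succ]
    exact_mod_cast hq.le
  refine h3.trans ?_
  unfold zN
  exact mul_le_mul_of_nonneg_left (Real.rpow_le_rpow_of_exponent_le (by norm_num) h2) (by norm_num)

private lemma QBW_core {ι : Type} [Fintype ι] {g : ι → ℤ[X]} {C₀ : ℝ} {M K : ℕ} (hK : 2 ≤ K)
    {N : ℕ} (hN : 2 ≤ N) {D g0 : ℤ} {e : ι → ℕ} {x : Co g → ℤ} (hd : Dat g C₀ M D g0 e x)
    (hsq : Squarefree D) (hDN : |D| ≤ (N : ℤ)) (i₀ l : ι)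
    (hlt : ∀ i, i ≠ i₀ → (Nat.log 2 (e i) : ℝ) < (Nat.log 2 (e i₀) : ℝ) ^ (1 - 1 / (K : ℝ)))
    {p : ℕ} (hp : p.Prime) (hpD : (p : ℤ) ∣ D) (hpM : ¬ p ∣ M) :
    p ∈ RP g ∧ (zN K N < p → p ∉ Inr (g i₀) (g l)) := by
  obtain ⟨i, hi⟩ := QBW_dvd hd hp hpM hpD
  have hr := QBW_root hd hp hpM hi
  refine ⟨QBW_RP g hr, fun hz hR => ?_⟩
  by_cases h : i = i₀
  · subst h
    have h1 : PT.rt (g i) p = 0 := hR.2
    omega
  · have hei := QBW_le hd hsq hDN i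
    have he0 := QBW_le hd hsq hDN i₀
    have hpe : p ≤ e i := Nat.le_of_dvd (Nat.pos_of_ne_zero hei.1) hi
    have h5 : (p : ℝ) ≤ zN K N :=
      QBW_small hK hN ((Nat.pow_log_le_self 2 he0.1).trans he0.2) (hlt i h)
        (hpe.trans_lt (Nat.lt_pow_succ_log_self (by norm_num) (e i)))
    exact absurd hz (not_lt.2 h5)

private lemma QBW_card {N : ℕ} (P : ℤ → Prop) [DecidablePred P] (h : ∀ D, P D → |D| ≤ (N : ℤ)) :
    Nat.card {D : ℤ // P D} = ((Finset.Icc (-(N : ℤ)) N).filter P).card := by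
  have h1 : ∀ D, D ∈ (Finset.Icc (-(N : ℤ)) N).filter P ↔ P D := by
    intro D
    rw [Finset.mem_filter, Finset.mem_Icc]
    exact ⟨fun h => h.2, fun hP => ⟨abs_le.1 (h D hP), hP⟩⟩
  exact Nat.subtype_card _ h1

theorem bad_wit {ι : Type} [Fintype ι] [DecidableEq ι] {g : ι → ℤ[X]} (hg : TW.Fam g) (q : ι) (hq : (g q).natDegree = 2)
    (l : ι) (hl : ∀ h : ℚ[X], ¬ qq (g l) ∣ (qq (g q)).comp h) (C₀ : ℝ) (M K : ℕ) (hM : M ≠ 0) (hK : 2 ≤ K) :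
    ∃ A δ : ℝ, 0 < A ∧ 0 < δ ∧ ∀ N : ℕ, 2 ≤ N →
      (Nat.card {D : ℤ // Squarefree D ∧ |D| ≤ (N : ℤ) ∧ ∃ (g0 : ℤ) (e : ι → ℕ) (x : Co g → ℤ),
        Dat g C₀ M D g0 e x ∧ ∀ i, i ≠ q → (Nat.log 2 (e i) : ℝ) < (Nat.log 2 (e q) : ℝ) ^ (1 - 1 / (K : ℝ))} : ℝ) ≤
        A * (N / Real.log N ^ (1 + δ)) * Real.exp (TT g N) := by
  classical
  obtain ⟨c, A, hc, hA, hR⟩ := inert_low (g q) (g l) (hg.monic q) (hg.monic l) (hg.irr q) (hg.irr l) hq hl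
  obtain ⟨a, d, ha, hd, hb⟩ := few g (Inr (g q) (g l)) (fun p hp => QBW_RP g hp.1) K M hK hM c A hc hA hR
  refine ⟨a, d, ha, hd, fun N hN => le_trans ?_ (hb N hN)⟩
  rw [QBW_card (N := N) (fun D : ℤ => Squarefree D ∧ |D| ≤ (N : ℤ) ∧
      ∃ (g0 : ℤ) (e : ι → ℕ) (x : Co g → ℤ), Dat g C₀ M D g0 e x ∧
        ∀ i, i ≠ q → (Nat.log 2 (e i) : ℝ) < (Nat.log 2 (e q) : ℝ) ^ (1 - 1 / (K : ℝ))) fun D h => h.2.1,
    QBW_card (N := N) (fun D : ℤ => Squarefree D ∧ |D| ≤ (N : ℤ) ∧ ∀ p : ℕ, p.Prime → (p : ℤ) ∣ D → ¬ p ∣ M →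
        p ∈ RP g ∧ (zN K N < p → p ∉ Inr (g q) (g l))) fun D h => h.2.1]
  have hsub : (Finset.Icc (-(N : ℤ)) N).filter (fun D : ℤ => Squarefree D ∧ |D| ≤ (N : ℤ) ∧
      ∃ (g0 : ℤ) (e : ι → ℕ) (x : Co g → ℤ), Dat g C₀ M D g0 e x ∧
        ∀ i, i ≠ q → (Nat.log 2 (e i) : ℝ) < (Nat.log 2 (e q) : ℝ) ^ (1 - 1 / (K : ℝ))) ⊆
      (Finset.Icc (-(N : ℤ)) N).filter (fun D : ℤ => Squarefree D ∧ |D| ≤ (N : ℤ) ∧
        ∀ p : ℕ, p.Prime → (p : ℤ) ∣ D → ¬ p ∣ M → p ∈ RP g ∧ (zN K N < p → p ∉ Inr (g q) (g l))) := by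
    intro D hD
    rw [Finset.mem_filter] at hD ⊢
    obtain ⟨hI, hsq, hDN, g0, e, x, hdat, hlt⟩ := hD
    exact ⟨hI, hsq, hDN, fun p hp hpD hpM => QBW_core hK hN hdat hsq hDN q l hlt hp hpD hpM⟩
  exact_mod_cast Finset.card_le_card hsub

end QV
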