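import Pool.Agent.Lib.MP_10e784_agQV.DefsP
import Pool.Agent.Lib.MP_10e784_agN2.N0

/-!
# The layers whose largest coordinate belongs to a quadratic polynomial: definitions
-/

set_option autoImplicit false

namespace QV

open Finset Polynomial TW TR

/-- the quadratic polynomial `g q` has two roots modulo almost every prime modulo which some `g i` has a root -/
def Qd {ι : Type} [Fintype ι] (g : ι → ℤ[X]) (q : ι) : Prop :=
  (g q).natDegree = 2 ∧ ∃ M2 : ℕ, M2 ≠ 0 ∧ ∀ p : ℕ, p.Prime → ¬ p ∣ M2 → p ∈ EL.RP g → PT.rt (g q) p = 2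

/-- the product of the other polynomials -/
noncomputable def fq {ι : Type} [Fintype ι] [DecidableEq ι] (g : ι → ℤ[X]) (q : ι) : ℤ[X] := ∏ k ∈ univ.erase q, g k

/-- the product of the resultants of `g k` and `pol g x k`, `k ≠ q` -/
noncomputable def mq {ι : Type} [Fintype ι] [DecidableEq ι] (g : ι → ℤ[X]) (q : ι) (x : Co g → ℤ) : ℤ :=
  ∏ k ∈ univ.erase q, resultant (g k) (pol g x k) (g k).natDegree (g k).natDegree

/-- the number of the roots of `g q` modulo `p` at which the value of `fq` is a nonzero square, minus the number of those at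
which it is no square -/
noncomputable def bt {ι : Type} [Fintype ι] [DecidableEq ι] (g : ι → ℤ[X]) (q : ι) (p : ℕ) : ℝ :=
  (Nat.card {t : ZMod p // (red p (g q)).eval t = 0 ∧ (red p (fq g q)).eval t ≠ 0 ∧ IsSquare ((red p (fq g q)).eval t)} : ℝ) -
    (Nat.card {t : ZMod p // (red p (g q)).eval t = 0 ∧ ¬ IsSquare ((red p (fq g q)).eval t)} : ℝ)

/-- the number of the roots of `g q` modulo `p` at which `m` times the value of `fq` is no square -/
noncomputable def nq {ι : Type} [Fintype ι] [DecidableEq ι] (g : ι → ℤ[X]) (q : ι) (m : ℤ) (p : ℕ) : ℕ :=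
  Nat.card {t : ZMod p // (red p (g q)).eval t = 0 ∧ ¬ IsSquare ((m : ZMod p) * (red p (fq g q)).eval t)}

/-- the sum of `b p (m / p) / p` over the primes `p` in `(2 ^ i, 2 ^ (i + 1)]` -/
noncomputable def sw (b : ℕ → ℝ) (m : ℤ) (i : ℕ) : ℝ :=
  ∑ p ∈ (Ioc (2 ^ i) (2 ^ (i + 1))).filter Nat.Prime, b p * (jacobiSym m p : ℝ) / p

/-- the squarefree `z ≤ x` such that for all prime factors `p` outside `M` there is a root `t` of `g q` modulo `p` with `c * fq(t)`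
a square -/
noncomputable def zq {ι : Type} [Fintype ι] [DecidableEq ι] (g : ι → ℤ[X]) (q : ι) (c : ℤ) (M : ℕ) (x : ℕ) : ℕ :=
  Nat.card {z : ℕ // 1 ≤ z ∧ z ≤ x ∧ Squarefree z ∧ ∀ p : ℕ, p.Prime → p ∣ z → ¬ p ∣ M →
    ∃ t : ZMod p, (red p (g q)).eval t = 0 ∧ IsSquare ((c : ZMod p) * (red p (fq g q)).eval t)}

/-- the excluded set -/
def tQ {ι : Type} [Fintype ι] [DecidableEq ι] (g : ι → ℤ[X]) (q : ι) (m : ℤ) (p : ℕ) : Set (Co g → ZMod p) :=
  {w | ∃ t : ZMod p, (red p (g q)).eval t = 0 ∧ (pol g w q).eval t = 0 ∧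
    ¬ IsSquare ((m : ZMod p) * (red p (fq g q)).eval t)}

/-- the excluded proportion -/
noncomputable def twq {ι : Type} [Fintype ι] [DecidableEq ι] (g : ι → ℤ[X]) (q : ι) (m : ℤ) (p : ℕ) : ℝ :=
  (nq g q m p : ℝ) / p - (nq g q m p : ℝ) * ((nq g q m p : ℝ) - 1) / 2 / (p : ℝ) ^ 2

/-- the data of a twist `D` with a rational point -/
def DatQ {ι : Type} [Fintype ι] (g : ι → ℤ[X]) (a : ℤ) (C₀ : ℝ) (M : ℕ) (D : ℤ) (g0 : ℤ) (e : ι → ℕ) (x : Co g → ℤ) : Prop :=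
  EN.Dat g C₀ M D g0 e x ∧ (∀ i, pol g x i ≠ 0) ∧ ∃ (u v : ℤ) (sg w : ι → ℤ), IsCoprime u v ∧ (∀ i, PT.hom (g i) u v ≠ 0) ∧
    IsSquare (D * a * ∏ i, PT.hom (g i) u v) ∧
    (∀ i, ∃ κ : ℚ[X], ¬ qq (g i) ∣ κ ∧
      qq (g i) ∣ pol g (fun c => (x c : ℚ)) i - (C (u : ℚ) - C (v : ℚ) * X) * κ ^ 2) ∧
    (∀ i, (sg i).natAbs ∣ M ∧ sg i ≠ 0 ∧ PT.hom (g i) u v = sg i * e i * w i ^ 2)

end QV
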