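import Pool.Agent.Lib.MP_10e784_agQV.QD
import Pool.Agent.Lib.MP_10e784_agQV.D1

/-! JOB QD2.  The local condition at a prime factor of `e q`.  MODEL: `QV.loc_pair` (file D1.lean, proved).
`PT.hom (g q) u v = u ^ 2 + c₁ u v + c₀ v ^ 2` (`g q` monic of degree 2) is divisible by `p`; if `p ∣ v` then `p ∣ u`, against `u, v` coprime.  So `v` is invertible modulo `p`; `t = u / v` in `ZMod p`; `PT.hom (g k) u v = v ^ n (g k)(t)` in `ZMod p` for all `k` (`n = natDegree (g k)`; `PT.hom_mod`), so `(g q)(t) = 0`.  The product over `k ≠ q`: `∑_{k ≠ q} n_k` is even (`hg.even`, `natDegree (g q) = 2`), `v ^ (2 m) G = (∏ sg) E W ^ 2` with `G = ∏_{k ≠ q} (g k)(t) = (red p (fq g q)).eval t`, `E = ∏ e k`, `W = ∏ w k`.  Multiply by `G`: `(v ^ m G) ^ 2 = ((∏ sg) E G) W ^ 2`.  If `W ≠ 0` then `(∏ sg) E G` is a square; if `W = 0` then `G = 0`. -/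

set_option autoImplicit false

namespace QV

open Finset Polynomial TW TR

theorem loc_q {ι : Type} [Fintype ι] [DecidableEq ι] {g : ι → ℤ[X]} (hg : TR.Fam g) (q : ι) (hq : (g q).natDegree = 2)
    (u v : ℤ) (huv : IsCoprime u v) (sg w : ι → ℤ) (e : ι → ℕ)
    (hh : ∀ i, PT.hom (g i) u v = sg i * e i * w i ^ 2) (p : ℕ) (hp : p.Prime) (hpe : p ∣ e q) :
    ∃ t : ZMod p, (red p (g q)).eval t = 0 ∧
      IsSquare ((((∏ k ∈ univ.erase q, sg k) * ((∏ k ∈ univ.erase q, e k : ℕ) : ℤ) : ℤ) : ZMod p) * (red p (fq g q)).eval t) := by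
  classical
  have : Fact p.Prime := ⟨hp⟩
  have hpH : (p : ℤ) ∣ PT.hom (g q) u v := by
    rw [hh q]
    have h2 : (p : ℤ) ∣ (e q : ℤ) := by exact_mod_cast hpe
    exact Dvd.dvd.mul_right (Dvd.dvd.mul_left h2 _) _
  obtain ⟨hv, hri⟩ := TR.desc_root (g q) (hg.monic q) p hp u v huv hpH
  obtain ⟨t, htv⟩ := PT.ptlocal_inv p hp u v hv
  have htq : (red p (g q)).eval ((t : ℤ) : ZMod p) = 0 := by
    rw [TR.desc_eval_red]
    exact (ZMod.intCast_zmod_eq_zero_iff_dvd _ p).2 (hri t htv)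
  refine ⟨((t : ℤ) : ZMod p), htq, ?_⟩
  have hfq : (red p (fq g q)).eval ((t : ℤ) : ZMod p) = ∏ k ∈ univ.erase q, (((g k).eval t : ℤ) : ZMod p) := by
    rw [TR.desc_eval_red]
    unfold fq
    rw [eval_prod, Int.cast_prod]
  have hv0 : ((v : ℤ) : ZMod p) ≠ 0 := fun h => hv ((ZMod.intCast_zmod_eq_zero_iff_dvd _ p).1 h)
  have hk : ∀ k, ((v : ℤ) : ZMod p) ^ (g k).natDegree * (((g k).eval t : ℤ) : ZMod p) =
      ((sg k : ℤ) : ZMod p) * ((e k : ℕ) : ZMod p) * ((w k : ℤ) : ZMod p) ^ 2 := by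
    intro k
    have h1 := PT.hom_mod (g k) p u v t htv
    have h2 := (ZMod.intCast_zmod_eq_zero_iff_dvd _ p).2 h1
    rw [hh k] at h2
    push_cast at h2
    linear_combination -h2
  have hprod : ((v : ℤ) : ZMod p) ^ (∑ k ∈ univ.erase q, (g k).natDegree) *
      (∏ k ∈ univ.erase q, (((g k).eval t : ℤ) : ZMod p)) =
      (∏ k ∈ univ.erase q, ((sg k : ℤ) : ZMod p)) * (∏ k ∈ univ.erase q, ((e k : ℕ) : ZMod p)) *
          (∏ k ∈ univ.erase q, ((w k : ℤ) : ZMod p)) ^ 2 := by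
    rw [← Finset.prod_pow_eq_pow_sum, ← Finset.prod_mul_distrib, ← Finset.prod_mul_distrib, ← Finset.prod_pow,
      ← Finset.prod_mul_distrib]
    exact Finset.prod_congr rfl fun k _ => hk k
  have heven : Even (∑ k ∈ univ.erase q, (g k).natDegree) := by
    have h5 := Finset.sum_erase_add univ (fun i => (g i).natDegree) (Finset.mem_univ q)
    have h6 := hg.even
    simp only [hq] at h5
    obtain ⟨b, hb⟩ := h6
    refine ⟨b - 1, ?_⟩
    omega
  obtain ⟨m, hm⟩ := heven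
  rw [hm] at hprod
  rw [hfq]
  push_cast
  generalize (∏ k ∈ univ.erase q, ((sg k : ℤ) : ZMod p)) = SG at hprod ⊢
  generalize (∏ k ∈ univ.erase q, (((g k).eval t : ℤ) : ZMod p)) = G at hprod ⊢
  generalize (∏ k ∈ univ.erase q, ((e k : ℕ) : ZMod p)) = E at hprod ⊢
  generalize (∏ k ∈ univ.erase q, ((w k : ℤ) : ZMod p)) = W at hprod ⊢
  generalize ((v : ℤ) : ZMod p) = V at hprod hv0
  by_cases hW : W = 0
  · rw [hW, zero_pow (by norm_num), mul_zero] at hprod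
    have hG : G = 0 := (mul_eq_zero.1 hprod).resolve_left (pow_ne_zero _ hv0)
    rw [hG, mul_zero]
    exact ⟨0, (mul_zero 0).symm⟩
  · refine ⟨V ^ m * G / W, ?_⟩
    rw [div_mul_div_comm, eq_div_iff (mul_ne_zero hW hW)]
    rw [pow_add] at hprod
    linear_combination -G * hprod

end QV
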