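import Pool.Agent.Lib.MP_10e784_agQV.QD
import Pool.Agent.Lib.MP_10e784_agTR.TWNrm

/-! JOB QR2.  Three facts on `mq`.  COPIES of `mm_congr`, `mm_ne`, `mm_bound` (file R2.lean, proved), without the factor `C t - X`. -/

set_option autoImplicit false

namespace QV

open Finset Polynomial TW TR

private theorem QR2_lt {ι R : Type} [CommRing R] (g : ι → ℤ[X]) (x : Co g → R) (i : ι) :
    (pol g x i).degree < ((g i).natDegree : WithBot ℕ) := by
  unfold pol
  exact Polynomial.degree_sum_fin_lt (fun c : Fin (g i).natDegree => x ⟨i, c⟩)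

private theorem QR2_nd (n : ℕ) (P : ℤ[X]) (hP : P.degree < (n : WithBot ℕ)) : P.natDegree ≤ n :=
  natDegree_le_of_degree_le hP.le

private theorem QR2_pos {ι : Type} [Fintype ι] {g : ι → ℤ[X]} (hg : TR.Fam g) (k : ι) : 0 < (g k).natDegree := by
  have hinj : Function.Injective (Int.castRingHom ℚ) := Int.cast_injective
  have h1 : ((g k).map (Int.castRingHom ℚ)).natDegree = (g k).natDegree := natDegree_map_eq_of_injective hinj _
  have h2 := (hg.irr k).natDegree_pos
  omega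

private theorem QR2_cop {ι : Type} [Fintype ι] {g : ι → ℤ[X]} (hg : TR.Fam g)
    (y : Co g → ℤ) {i : ι} (hy : pol g y i ≠ 0) :
    resultant (g i) (pol g y i) (g i).natDegree (pol g y i).natDegree ≠ 0 := by
  have hinj : Function.Injective (Int.castRingHom ℚ) := Int.cast_injective
  have hirr : Irreducible (qq (g i)) := hg.irr i
  have hdeg : (qq (g i)).natDegree = (g i).natDegree := natDegree_map_eq_of_injective hinj _
  have hc : IsCoprime (qq (g i)) ((pol g y i).map (Int.castRingHom ℚ)) := by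
    rw [hirr.coprime_iff_not_dvd]
    intro hdvd
    have hne : (pol g y i).map (Int.castRingHom ℚ) ≠ 0 := (Polynomial.map_ne_zero_iff hinj).2 hy
    have h3 := degree_le_of_dvd hdvd hne
    have h4 : ((pol g y i).map (Int.castRingHom ℚ)).degree < ((g i).natDegree : WithBot ℕ) := by
      rw [TR.pol_map]
      exact QR2_lt g _ i
    rw [degree_eq_natDegree hirr.ne_zero, hdeg] at h3
    exact absurd (lt_of_le_of_lt h3 h4) (lt_irrefl _)
  have hr := resultant_ne_zero _ _ hc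
  rw [hdeg, natDegree_map_eq_of_injective hinj] at hr
  intro h0
  apply hr
  have h6 := resultant_map_map (g i) (pol g y i) (g i).natDegree (pol g y i).natDegree (Int.castRingHom ℚ)
  rw [h0, map_zero] at h6
  exact h6

private theorem QR2_prod (f : ℂ → ℂ) (M : ℝ) (hM : 0 ≤ M) (s : Multiset ℂ) (h : ∀ z ∈ s, ‖f z‖ ≤ M) :
    ‖(s.map f).prod‖ ≤ M ^ Multiset.card s := by
  induction s using Multiset.induction_on with
  | empty => simp
  | cons a s ih =>
    rw [Multiset.map_cons, Multiset.prod_cons, Multiset.card_cons, norm_mul, pow_succ']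
    exact mul_le_mul (h a (Multiset.mem_cons_self a s)) (ih fun z hz => h z (Multiset.mem_cons_of_mem hz))
      (norm_nonneg _) hM

private theorem QR2_one (G : ℤ[X]) (hG : G.Monic) (hn : 0 < G.natDegree) (Cc : ℝ) (hCc : 1 ≤ Cc) :
    ∃ A : ℝ, 1 ≤ A ∧ ∀ (j : ℕ) (v : Fin G.natDegree → ℤ),
      (∀ c, |(v c : ℝ)| ≤ Cc * (2 : ℝ) ^ ((j : ℝ) / (G.natDegree : ℝ))) →
      |((resultant G (∑ c : Fin G.natDegree, C (v c) * X ^ (c : ℕ)) G.natDegree G.natDegree : ℤ) : ℝ)| ≤
        A * 2 ^ j := by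
  obtain ⟨n, hnn⟩ : ∃ n, n = G.natDegree := ⟨_, rfl⟩
  have hn1 : 1 ≤ n := by omega
  have hinj : Function.Injective (Int.castRingHom ℂ) := Int.cast_injective
  have hGm : (G.map (Int.castRingHom ℂ)).Monic := hG.map _
  have hGd : (G.map (Int.castRingHom ℂ)).natDegree = G.natDegree := natDegree_map_eq_of_injective hinj _
  have hsp : (G.map (Int.castRingHom ℂ)).Splits := IsAlgClosed.splits _
  obtain ⟨R, hR⟩ : ∃ R, R = (G.map (Int.castRingHom ℂ)).roots := ⟨_, rfl⟩
  have hRc : Multiset.card R = G.natDegree := by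
    rw [hR, ← hGd]
    exact hsp.natDegree_eq_card_roots.symm
  obtain ⟨B, hB⟩ : ∃ B : ℝ, B = 1 + (R.map fun z => ‖z‖).sum := ⟨_, rfl⟩
  have hsum0 : 0 ≤ (R.map fun z => ‖z‖).sum := by
    refine Multiset.sum_nonneg fun y hy => ?_
    obtain ⟨z, _, rfl⟩ := Multiset.mem_map.1 hy
    exact norm_nonneg _
  have hB1 : 1 ≤ B := by linarith
  have hRB : ∀ z ∈ R, ‖z‖ ≤ B := by
    intro z hz
    have h1 : ‖z‖ ≤ (R.map fun z => ‖z‖).sum := by
      refine Multiset.single_le_sum ?_ _ (Multiset.mem_map_of_mem _ hz)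
      intro y hy
      obtain ⟨w, _, rfl⟩ := Multiset.mem_map.1 hy
      exact norm_nonneg _
    linarith
  have hA1 : 1 ≤ Cc * (n * B ^ n) := by
    have h1 : (1 : ℝ) ≤ n := by exact_mod_cast hn1
    have h2 : 1 ≤ B ^ n := one_le_pow₀ hB1
    have h4 : 1 ≤ (n : ℝ) * B ^ n := one_le_mul_of_one_le_of_one_le h1 h2
    exact one_le_mul_of_one_le_of_one_le hCc h4
  refine ⟨(Cc * (n * B ^ n)) ^ n, one_le_pow₀ hA1, ?_⟩
  intro j v hv
  obtain ⟨q, hq⟩ : ∃ q : ℝ, q = (2 : ℝ) ^ ((j : ℝ) / (n : ℝ)) := ⟨_, rfl⟩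
  have hq0 : 0 < q := by
    rw [hq]
    positivity
  have hqn : q ^ n = 2 ^ j := by
    rw [hq, ← Real.rpow_natCast, ← Real.rpow_mul (by norm_num)]
    have hn0 : (n : ℝ) ≠ 0 := by
      have : (1 : ℝ) ≤ n := by exact_mod_cast hn1
      linarith
    rw [div_mul_cancel₀ _ hn0, Real.rpow_natCast]
  obtain ⟨P, hP⟩ : ∃ P : ℤ[X], P = ∑ c : Fin G.natDegree, C (v c) * X ^ (c : ℕ) := ⟨_, rfl⟩
  rw [← hP]
  have hPd : P.degree < (G.natDegree : WithBot ℕ) := by
    rw [hP]
    exact Polynomial.degree_sum_fin_lt v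
  have hDd : P.natDegree ≤ G.natDegree := QR2_nd _ P hPd
  have e1 := resultant_map_map G P G.natDegree G.natDegree (Int.castRingHom ℂ)
  have e2 := resultant_eq_prod_eval (G.map (Int.castRingHom ℂ)) (P.map (Int.castRingHom ℂ))
    G.natDegree (natDegree_map_le.trans hDd) hsp
  rw [hGd, hGm.leadingCoeff, one_pow, one_mul, ← hR, e1] at e2
  have hev : ∀ z ∈ R, ‖eval z (P.map (Int.castRingHom ℂ))‖ ≤ (Cc * (n * B ^ n)) * q := by
    intro z hz
    have hz1 := hRB z hz
    have e3 : eval z (P.map (Int.castRingHom ℂ)) = ∑ c : Fin G.natDegree, (v c : ℂ) * z ^ (c : ℕ) := by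
      rw [hP]
      simp [Polynomial.map_sum, Polynomial.eval_finsetSum]
    rw [e3]
    refine (norm_sum_le _ _).trans ?_
    have h2 : ∀ c ∈ (univ : Finset (Fin G.natDegree)), ‖(v c : ℂ) * z ^ (c : ℕ)‖ ≤ Cc * q * B ^ n := by
      intro c _
      rw [norm_mul, norm_pow, Complex.norm_intCast]
      refine mul_le_mul ?_ ?_ (by positivity) (by positivity)
      · rw [hq, hnn]
        exact hv c
      · refine (pow_le_pow_left₀ (norm_nonneg _) hz1 _).trans (pow_le_pow_right₀ hB1 ?_)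
        rw [hnn]
        exact c.2.le
    refine (Finset.sum_le_sum h2).trans (le_of_eq ?_)
    rw [Finset.sum_const, Finset.card_univ, Fintype.card_fin, nsmul_eq_mul, ← hnn]
    ring
  have h5 := QR2_prod (fun z => eval z (P.map (Int.castRingHom ℂ))) _ (by positivity) R hev
  have e4 : (R.map (eval · (P.map (Int.castRingHom ℂ)))).prod =
      (R.map fun z => eval z (P.map (Int.castRingHom ℂ))).prod := rfl
  rw [e4] at e2
  rw [← e2, hRc, ← hnn, mul_pow, hqn] at h5
  have e5 : ‖(Int.castRingHom ℂ) (resultant G P n n)‖ =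
      |((resultant G P G.natDegree G.natDegree : ℤ) : ℝ)| := by
    rw [Int.coe_castRingHom, Complex.norm_intCast, hnn]
  rw [e5] at h5
  exact h5

theorem mq_congr {ι : Type} [Fintype ι] [DecidableEq ι] (g : ι → ℤ[X]) (q : ι) (x y : Co g → ℤ)
    (h : ∀ c : Co g, c.1 ≠ q → x c = y c) : mq g q x = mq g q y := by
  unfold mq
  refine Finset.prod_congr rfl fun k hk => ?_
  have h1 : k ≠ q := Finset.ne_of_mem_erase hk
  have e : pol g x k = pol g y k := by
    unfold pol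
    refine Finset.sum_congr rfl fun c _ => ?_
    rw [h ⟨k, c⟩ h1]
  rw [e]

theorem mq_ne {ι : Type} [Fintype ι] [DecidableEq ι] {g : ι → ℤ[X]} (hg : TR.Fam g) (q : ι)
    (x : Co g → ℤ) (hx : ∀ i, i ≠ q → pol g x i ≠ 0) : mq g q x ≠ 0 := by
  unfold mq
  refine Finset.prod_ne_zero_iff.2 fun k hk => ?_
  have h3 := QR2_cop hg x (hx k (Finset.ne_of_mem_erase hk))
  have h4 := QR2_nd _ (pol g x k) (QR2_lt g x k)
  obtain ⟨l, hl⟩ := Nat.exists_eq_add_of_le h4
  have h5 := resultant_add_right_deg (g k) (pol g x k) (g k).natDegree (pol g x k).natDegree l le_rfl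
  rw [← hl, (hg.monic k).coeff_natDegree, one_pow, one_mul] at h5
  rw [h5]
  exact h3

theorem mq_bound {ι : Type} [Fintype ι] [DecidableEq ι] {g : ι → ℤ[X]} (hg : TR.Fam g) (q : ι) (C : ℝ) (hC : 1 ≤ C) :
    ∃ A : ℝ, 1 ≤ A ∧ ∀ (j : ι → ℕ) (x : Co g → ℤ), Bx g C j x → |(mq g q x : ℝ)| ≤ A * 2 ^ (∑ k ∈ univ.erase q, j k) := by
  classical
  have h1 : ∀ k : ι, ∃ A : ℝ, 1 ≤ A ∧ ∀ (j : ℕ) (v : Fin (g k).natDegree → ℤ),
      (∀ c, |(v c : ℝ)| ≤ C * (2 : ℝ) ^ ((j : ℝ) / ((g k).natDegree : ℝ))) →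
      |((resultant (g k) (∑ c : Fin (g k).natDegree, Polynomial.C (v c) * X ^ (c : ℕ)) (g k).natDegree
        (g k).natDegree : ℤ) : ℝ)| ≤ A * 2 ^ j :=
    fun k => QR2_one (g k) (hg.monic k) (QR2_pos hg k) C hC
  choose A hA1 hA using h1
  refine ⟨∏ k ∈ univ.erase q, A k, ?_, ?_⟩
  · refine Finset.prod_induction _ (fun z : ℝ => 1 ≤ z) (fun a b ha hb => one_le_mul_of_one_le_of_one_le ha hb)
      le_rfl fun k _ => hA1 k
  · intro j x hx
    unfold mq
    rw [Int.cast_prod, Finset.abs_prod, ← Finset.prod_pow_eq_pow_sum, ← Finset.prod_mul_distrib]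
    refine Finset.prod_le_prod (fun k _ => abs_nonneg _) fun k _ => ?_
    exact hA k (j k) (fun c => x ⟨k, c⟩) (fun c => hx ⟨k, c⟩)

end QV
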