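import Pool.Agent.Lib.MP_10e784_agQV.QE1
import Pool.Agent.Lib.MP_10e784_agQV.E2
import Pool.Agent.Lib.MP_10e784_agQV.E3
import Pool.Agent.Lib.MP_10e784_agQV.QR2
import Pool.Agent.Lib.MP_10e784_agTR.TWGood

/-! JOB QE4.  Few vectors have a norm in a given class modulo squares.  COPY of `QV.exc_x` (file E4.lean, proved) with `mq g q`, `e_count_q`, `mq_ne` in place of `mm g r s`, `e_count`, `mm_ne`. -/

set_option autoImplicit false

namespace QV

open Finset Polynomial TW TR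

private theorem QE4_sq (M : ℤ) (hM : M ≠ 0) :
    ∃ c0 : ℤ, Squarefree c0 ∧ ∀ ρ : ℤ, IsSquare (M * ρ) → IsSquare (c0 * ρ) := by
  obtain ⟨a, b, hab, ha⟩ := Nat.sq_mul_squarefree M.natAbs
  have hb0 : b ≠ 0 := by
    rintro rfl
    apply hM
    rw [← Int.natAbs_eq_zero, ← hab]
    ring
  have hb : (b : ℤ) ≠ 0 := by exact_mod_cast hb0
  have hs1 : M.sign.natAbs = 1 := Int.natAbs_sign_of_ne_zero hM
  refine ⟨M.sign * a, ?_, ?_⟩
  · rw [← Int.squarefree_natAbs, Int.natAbs_mul, hs1, one_mul, Int.natAbs_natCast]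
    exact ha
  · rintro ρ ⟨u, hu⟩
    have hM2 : M = M.sign * ((b : ℤ) ^ 2 * a) := by
      have h1 := Int.sign_mul_natAbs M
      rw [← hab] at h1
      push_cast at h1
      exact h1.symm
    have h2 : (b : ℤ) ^ 2 * (M.sign * a * ρ) = u ^ 2 := by
      calc (b : ℤ) ^ 2 * (M.sign * a * ρ) = (M.sign * ((b : ℤ) ^ 2 * a)) * ρ := by ring
        _ = M * ρ := by rw [← hM2]
        _ = u ^ 2 := by rw [hu, sq]
    have h3 : (b : ℤ) ∣ u := by
      have h4 : (b : ℤ) ^ 2 ∣ u ^ 2 := ⟨_, h2.symm⟩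
      exact (Int.pow_dvd_pow_iff two_ne_zero).1 h4
    obtain ⟨v, rfl⟩ := h3
    refine ⟨v, ?_⟩
    have h5 : (b : ℤ) ^ 2 ≠ 0 := pow_ne_zero 2 hb
    apply mul_left_cancel₀ h5
    rw [h2]
    ring

private theorem QE4_loc (p : ℕ) (hp : p.Prime) (c0 ρ : ℤ) (hc : Squarefree c0) (h : IsSquare (c0 * ρ)) :
    (¬ (p : ℤ) ∣ c0 → IsSquare ((c0 : ZMod p) * (ρ : ZMod p))) ∧ ((p : ℤ) ∣ c0 → (ρ : ZMod p) = 0) := by
  have hpz : Prime (p : ℤ) := Nat.prime_iff_prime_int.1 hp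
  refine ⟨fun _ => ?_, fun hpc => ?_⟩
  · have h1 := h.map (Int.castRingHom (ZMod p))
    rw [map_mul] at h1
    exact h1
  · obtain ⟨u, hu⟩ := h
    obtain ⟨c', rfl⟩ := hpc
    have h1 : (p : ℤ) ∣ u := by
      have h2 : (p : ℤ) ∣ u * u := ⟨c' * ρ, by rw [← hu]; ring⟩
      rcases hpz.dvd_or_dvd h2 with h3 | h3
      · exact h3
      · exact h3
    obtain ⟨v, rfl⟩ := h1
    have h4 : c' * ρ = p * (v * v) := by
      apply mul_left_cancel₀ hpz.ne_zero
      linear_combination hu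
    have h5 : (p : ℤ) ∣ c' * ρ := ⟨_, h4⟩
    have h6 : ¬ (p : ℤ) ∣ c' := by
      rintro ⟨e, rfl⟩
      have h7 := hc (p : ℤ) ⟨e, by ring⟩
      exact hpz.not_isUnit h7
    have h8 := (hpz.dvd_or_dvd h5).resolve_left h6
    exact (ZMod.intCast_zmod_eq_zero_iff_dvd _ _).2 h8

private theorem QE4_L (ε : ℝ) (hε : 0 < ε) (A : ℝ) (b n1 : ℕ) (N : ℝ) (hN : 0 < N) :
    ∃ L1 : ℕ, ∀ L : ℕ, L1 ≤ L → ∃ n : ℕ, n1 ≤ n ∧ (3 / 4 : ℝ) ^ n ≤ (L : ℝ) ^ (-A) ∧
      ((n : ℝ) ^ b) ^ n ≤ (2 : ℝ) ^ ((L : ℝ) ^ ε / N) := by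
  have hl : 0 < Real.log (4 / 3) := Real.log_pos (by norm_num)
  have hl2 : 0 < Real.log 2 := Real.log_pos (by norm_num)
  obtain ⟨A', hA'⟩ : ∃ A' : ℝ, A' = max A 1 / Real.log (4 / 3) := ⟨_, rfl⟩
  have hmax : 0 < max A 1 := lt_of_lt_of_le one_pos (le_max_right _ _)
  have hA'0 : 0 < A' := by
    rw [hA']
    positivity
  obtain ⟨c, hc⟩ : ∃ c : ℝ, c = Real.log 2 / (N * (4 * A' ^ 2 * (b + 1))) := ⟨_, rfl⟩
  have hc0 : 0 < c := by
    rw [hc]
    positivity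
  have t1 : Filter.Tendsto (fun L : ℕ => (L : ℝ)) Filter.atTop Filter.atTop := tendsto_natCast_atTop_atTop
  have e1 : ∀ᶠ L : ℕ in Filter.atTop, (max (n1 : ℝ) 1) / A' ≤ Real.log (L : ℝ) :=
    (Real.tendsto_log_atTop.comp t1).eventually_ge_atTop _
  have e2 : ∀ᶠ L : ℕ in Filter.atTop, ‖Real.log (L : ℝ) ^ (2 : ℝ)‖ ≤ c * ‖(L : ℝ) ^ ε‖ :=
    t1.eventually ((isLittleO_log_rpow_rpow_atTop (2 : ℝ) hε).bound hc0)
  have e3 : ∀ᶠ L : ℕ in Filter.atTop, 1 ≤ L := Filter.eventually_ge_atTop 1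
  obtain ⟨L1, hL1⟩ := Filter.eventually_atTop.1 (e1.and (e2.and e3))
  refine ⟨L1, fun L hL => ?_⟩
  obtain ⟨h1, h2, h3⟩ := hL1 L hL
  have hL0 : (0 : ℝ) < L := by exact_mod_cast h3
  have h4 : max (n1 : ℝ) 1 ≤ A' * Real.log L := by
    rw [div_le_iff₀ hA'0] at h1
    linarith
  have h5 : 1 ≤ A' * Real.log L := (le_max_right _ _).trans h4
  have h5' : (n1 : ℝ) ≤ A' * Real.log L := (le_max_left _ _).trans h4
  have hlog0 : 0 ≤ Real.log L := by
    by_contra hcon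
    push Not at hcon
    have : A' * Real.log L < 0 := mul_neg_of_pos_of_neg hA'0 hcon
    linarith
  obtain ⟨n, hn⟩ : ∃ n : ℕ, n = ⌈A' * Real.log L⌉₊ := ⟨_, rfl⟩
  have h6 : A' * Real.log L ≤ n := by
    rw [hn]
    exact Nat.le_ceil _
  have h7 : (n : ℝ) ≤ 2 * (A' * Real.log L) := by
    have h8 : (n : ℝ) < A' * Real.log L + 1 := by
      rw [hn]
      exact Nat.ceil_lt_add_one (by linarith)
    linarith
  have hn0 : (0 : ℝ) < n := by linarith
  refine ⟨n, ?_, ?_, ?_⟩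
  · exact_mod_cast h5'.trans h6
  · have e4 : (3 / 4 : ℝ) ^ n = Real.exp (-(n * Real.log (4 / 3))) := by
      have h9 : (3 / 4 : ℝ) = Real.exp (-Real.log (4 / 3)) := by
        rw [Real.exp_neg, Real.exp_log (by norm_num)]
        norm_num
      rw [h9, ← Real.exp_nat_mul]
      congr 1
      ring
    rw [e4, Real.rpow_def_of_pos hL0, Real.exp_le_exp]
    have h10 : A' * Real.log (4 / 3) = max A 1 := by
      rw [hA']
      field_simp
    have h11 : (A' * Real.log L) * Real.log (4 / 3) ≤ n * Real.log (4 / 3) := mul_le_mul_of_nonneg_right h6 hl.le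
    have h12 : A * Real.log L ≤ max A 1 * Real.log L := mul_le_mul_of_nonneg_right (le_max_left _ _) hlog0
    have h13 : (A' * Real.log L) * Real.log (4 / 3) = max A 1 * Real.log L := by
      rw [← h10]
      ring
    linarith
  · have h14 : ((n : ℝ) ^ b) ^ n = Real.exp (b * n * Real.log n) := by
      have h15 : (n : ℝ) = Real.exp (Real.log n) := (Real.exp_log hn0).symm
      conv_lhs => rw [← pow_mul, h15, ← Real.exp_nat_mul]
      push_cast
      rfl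
    rw [h14, Real.rpow_def_of_pos (by norm_num : (0 : ℝ) < 2), Real.exp_le_exp]
    have h16 : Real.log n ≤ n := (Real.log_le_sub_one_of_pos hn0).trans (by linarith)
    have h17 : b * n * Real.log n ≤ (b + 1) * (n * n) := by
      have h18 : (b : ℝ) * n * Real.log n ≤ b * n * n := mul_le_mul_of_nonneg_left h16 (by positivity)
      have h19 : (0 : ℝ) ≤ n * n := by positivity
      linarith
    have h20 : (n : ℝ) * n ≤ (2 * (A' * Real.log L)) * (2 * (A' * Real.log L)) :=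
      mul_self_le_mul_self hn0.le h7
    have h21 : Real.log (L : ℝ) ^ 2 ≤ c * (L : ℝ) ^ ε := by
      have h22 := h2
      rw [Real.norm_eq_abs, Real.norm_eq_abs, Real.rpow_two, abs_of_nonneg (sq_nonneg _),
        abs_of_nonneg (Real.rpow_nonneg hL0.le _)] at h22
      exact h22
    have h23 : (b + 1 : ℝ) * (n * n) ≤ (4 * A' ^ 2 * (b + 1)) * (c * (L : ℝ) ^ ε) := by
      calc (b + 1 : ℝ) * (n * n) ≤ (b + 1) * ((2 * (A' * Real.log L)) * (2 * (A' * Real.log L))) :=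
            mul_le_mul_of_nonneg_left h20 (by positivity)
        _ = (4 * A' ^ 2 * (b + 1)) * Real.log (L : ℝ) ^ 2 := by ring
        _ ≤ (4 * A' ^ 2 * (b + 1)) * (c * (L : ℝ) ^ ε) := mul_le_mul_of_nonneg_left h21 (by positivity)
    have h24 : (4 * A' ^ 2 * (b + 1)) * (c * (L : ℝ) ^ ε) = Real.log 2 * ((L : ℝ) ^ ε / N) := by
      rw [hc]
      have : (b : ℝ) + 1 ≠ 0 := by positivity
      field_simp
    linarith

private theorem QE4_red {ι : Type} [Fintype ι] {g : ι → ℤ[X]} (k : ι) (p : ℕ) (a : Fin (g k).natDegree → ℤ) :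
    ((resultant (g k) (∑ i : Fin (g k).natDegree, C (a i) * X ^ (i : ℕ)) (g k).natDegree
      (g k).natDegree : ℤ) : ZMod p) = resultant (red p (g k))
        (∑ i, C ((a i : ℤ) : ZMod p) * X ^ (i : ℕ)) (g k).natDegree (g k).natDegree := by
  have h1 := resultant_map_map (g k) (∑ i : Fin (g k).natDegree, C (a i) * X ^ (i : ℕ))
    (g k).natDegree (g k).natDegree (Int.castRingHom (ZMod p))
  have h2 : (∑ i : Fin (g k).natDegree, C (a i) * X ^ (i : ℕ)).map (Int.castRingHom (ZMod p)) =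
      ∑ i, C ((a i : ℤ) : ZMod p) * X ^ (i : ℕ) := by
    simp [Polynomial.map_sum]
  rw [h2] at h1
  exact h1.symm

private theorem QE4_fin (n : ℕ) (B : ℝ) : {a : Fin n → ℤ | ∀ i, |(a i : ℝ)| ≤ B}.Finite := by
  refine (Set.Finite.pi' fun _ : Fin n => Set.finite_Icc (-⌈B⌉) ⌈B⌉).subset ?_
  intro a ha i
  have h1 := abs_le.1 (ha i)
  have h2 := Int.le_ceil B
  refine ⟨?_, ?_⟩
  · have h3 : ((-⌈B⌉ : ℤ) : ℝ) ≤ (a i : ℝ) := by
      push_cast
      linarith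
    exact_mod_cast h3
  · have h3 : (a i : ℝ) ≤ ((⌈B⌉ : ℤ) : ℝ) := by linarith
    exact_mod_cast h3

theorem exc_xq {ι : Type} [Fintype ι] [DecidableEq ι] {g : ι → ℤ[X]} (hg : TR.Fam g) (q : ι)
    (C : ℝ) (hC : 1 ≤ C) (ε : ℝ) (hε : 0 < ε) (A : ℝ) :
    ∃ (C' : ℝ) (L1 : ℕ), 0 < C' ∧ ∀ (j : ι → ℕ) (k : ι) (L : ℕ) (m0 : ℤ), k ≠ q → L1 ≤ L →
      (L : ℝ) ^ ε ≤ j k → m0 ≠ 0 →
      (Nat.card {x : Co g → ℤ // Bx g C j x ∧ (∀ i, pol g x i ≠ 0) ∧ IsSquare (m0 * mq g q x)} : ℝ) ≤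
        C' * 2 ^ (∑ i, j i) * (L : ℝ) ^ (-A) := by
  classical
  obtain ⟨S, n₀, hS⟩ := PT.split_set g hg.irr
  obtain ⟨M1, hM1, hgood⟩ := TR.good_exists hg
  obtain ⟨b, n1, hsp⟩ := s_primes S n₀ hS
  obtain ⟨N, hN⟩ : ∃ N : ℕ, N = ∑ i, (g i).natDegree := ⟨_, rfl⟩
  have hN0 : 0 < N := by
    have := hg.six
    omega
  have hN0r : (0 : ℝ) < N := by exact_mod_cast hN0
  obtain ⟨L1, hL1⟩ := QE4_L ε hε A b (max n1 M1) N hN0r
  refine ⟨(3 * C) ^ N * (4 * C) ^ N, L1, by positivity, ?_⟩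
  intro j k L m0 hkq hL hLj hm0
  obtain ⟨n, hn1, hn2, hn3⟩ := hL1 L hL
  obtain ⟨F, hF, hFc⟩ := hsp n ((le_max_left _ _).trans hn1)
  have hnM : M1 ≤ n := (le_max_right _ _).trans hn1
  have hgp : ∀ p ∈ F, GoodP g p := by
    intro p hp
    obtain ⟨_, h2, h3, _⟩ := hF p hp
    refine hgood p h2 fun hd => ?_
    have := Nat.le_of_dvd (Nat.pos_of_ne_zero hM1) hd
    omega
  have hk0 : 0 < (g k).natDegree := by
    have hinj : Function.Injective (Int.castRingHom ℚ) := Int.cast_injective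
    have h1 : ((g k).map (Int.castRingHom ℚ)).natDegree = (g k).natDegree := natDegree_map_eq_of_injective hinj _
    have h2 := (hg.irr k).natDegree_pos
    omega
  have hk0r : (0 : ℝ) < (g k).natDegree := by exact_mod_cast hk0
  have hkN : (g k).natDegree ≤ N := by
    rw [hN]
    exact Finset.single_le_sum (f := fun i => (g i).natDegree) (fun i _ => Nat.zero_le _) (Finset.mem_univ k)
  have hkNr : ((g k).natDegree : ℝ) ≤ N := by exact_mod_cast hkN
  have hC0 : 0 < C := by linarith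
  obtain ⟨B, hB⟩ : ∃ B : ℝ, B = C * (2 : ℝ) ^ ((j k : ℝ) / ((g k).natDegree : ℝ)) := ⟨_, rfl⟩
  have hFB : (∏ p ∈ F, (p : ℝ)) ≤ B := by
    have h1 : (∏ p ∈ F, (p : ℝ)) ≤ ((n : ℝ) ^ b) ^ n := by
      calc (∏ p ∈ F, (p : ℝ)) ≤ ∏ p ∈ F, (n : ℝ) ^ b := by
            refine Finset.prod_le_prod (fun p _ => Nat.cast_nonneg _) fun p hp => ?_
            exact_mod_cast (hF p hp).2.2.2
        _ = ((n : ℝ) ^ b) ^ n := by rw [Finset.prod_const, hFc]
    have h2 : (2 : ℝ) ^ ((L : ℝ) ^ ε / N) ≤ (2 : ℝ) ^ ((j k : ℝ) / ((g k).natDegree : ℝ)) := by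
      refine Real.rpow_le_rpow_of_exponent_le (by norm_num) ?_
      have h3 : (L : ℝ) ^ ε / N ≤ (j k : ℝ) / N := div_le_div_of_nonneg_right hLj hN0r.le
      have h4 : (j k : ℝ) / N ≤ (j k : ℝ) / ((g k).natDegree : ℝ) :=
        div_le_div_of_nonneg_left (Nat.cast_nonneg _) hk0r hkNr
      exact h3.trans h4
    have h5 : (2 : ℝ) ^ ((j k : ℝ) / ((g k).natDegree : ℝ)) ≤ B := by
      rw [hB]
      exact le_mul_of_one_le_left (by positivity) hC
    exact h1.trans (hn3.trans (h2.trans h5))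
  -- the set
  obtain ⟨XX, hXX⟩ : ∃ XX : Set (Co g → ℤ), XX = {x : Co g → ℤ | Bx g C j x ∧ (∀ i, pol g x i ≠ 0) ∧
    IsSquare (m0 * mq g q x)} := ⟨_, rfl⟩
  have hXXc : Nat.card {x : Co g → ℤ // Bx g C j x ∧ (∀ i, pol g x i ≠ 0) ∧ IsSquare (m0 * mq g q x)} =
      XX.ncard := by
    rw [hXX]
    rfl
  rw [hXXc]
  have hbx := TR.bx_card hg C hC (Function.update j k 0)
  have hbfin : {z : Co g → ℤ | Bx g C (Function.update j k 0) z}.Finite := hbx.1
  have hYfin : {z : Co g → ℤ | Bx g C (Function.update j k 0) z ∧ ∀ c : Co g, c.1 = k → z c = 0}.Finite :=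
    hbfin.subset fun z hz => hz.1
  obtain ⟨Y, hY⟩ : ∃ Y : Finset (Co g → ℤ), Y = hYfin.toFinset := ⟨_, rfl⟩
  have hYmem : ∀ z, z ∈ Y ↔ Bx g C (Function.update j k 0) z ∧ ∀ c : Co g, c.1 = k → z c = 0 := by
    intro z
    rw [hY]
    exact Set.Finite.mem_toFinset _
  have hYc : (Y.card : ℝ) ≤ (3 * C) ^ N * 2 ^ (∑ i ∈ univ.erase k, j i) := by
    have h1 : Y.card ≤ Nat.card {z : Co g → ℤ // Bx g C (Function.update j k 0) z} := by
      have h2 : ((Y : Set (Co g → ℤ))).ncard ≤ {z : Co g → ℤ | Bx g C (Function.update j k 0) z}.ncard :=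
        Set.ncard_le_ncard (fun z hz => ((hYmem z).1 hz).1) hbfin
      rw [Set.ncard_coe_finset] at h2
      exact h2
    have h3 : (Y.card : ℝ) ≤ (Nat.card {z : Co g → ℤ // Bx g C (Function.update j k 0) z} : ℝ) := by
      exact_mod_cast h1
    refine h3.trans (hbx.2.trans (le_of_eq ?_))
    have h4 : ∑ i, Function.update j k 0 i = ∑ i ∈ univ.erase k, j i := by
      rw [← Finset.add_sum_erase _ _ (Finset.mem_univ k), Function.update_self, zero_add]
      refine Finset.sum_congr rfl fun i hi => ?_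
      rw [Function.update_of_ne (Finset.ne_of_mem_erase hi)]
    rw [h4, ← hN]
  -- one fibre
  have hfib : ∀ y ∈ Y, (({x ∈ XX | ∀ c : Co g, c.1 ≠ k → x c = y c}.ncard : ℕ) : ℝ) ≤
      (3 / 4 : ℝ) ^ n * (4 * B) ^ (g k).natDegree := by
    intro y _
    obtain ⟨c1, hc1⟩ : ∃ c1 : ℤ, c1 = ∏ l ∈ (univ.erase q).erase k,
      resultant (g l) (pol g y l) (g l).natDegree (g l).natDegree := ⟨_, rfl⟩
    have hmm : ∀ x : Co g → ℤ, (∀ c : Co g, c.1 ≠ k → x c = y c) → mq g q x =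
        resultant (g k) (∑ i : Fin (g k).natDegree, Polynomial.C (x ⟨k, i⟩) * X ^ (i : ℕ))
          (g k).natDegree (g k).natDegree * c1 := by
      intro x hx
      have h1 : k ∈ univ.erase q := Finset.mem_erase.2 ⟨hkq, Finset.mem_univ k⟩
      unfold mq
      rw [← Finset.mul_prod_erase _ _ h1, hc1]
      congr 1
      refine Finset.prod_congr rfl fun l hl => ?_
      have h2 : pol g x l = pol g y l := by
        unfold pol
        refine Finset.sum_congr rfl fun c _ => ?_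
        rw [hx ⟨l, c⟩ (Finset.ne_of_mem_erase hl)]
      rw [h2]
    have hbound0 : (0 : ℝ) ≤ (3 / 4 : ℝ) ^ n * (4 * B) ^ (g k).natDegree := by
      rw [hB]
      positivity
    by_cases hc10 : c1 = 0
    · have h1 : {x ∈ XX | ∀ c : Co g, c.1 ≠ k → x c = y c} = ∅ := by
        rw [Set.eq_empty_iff_forall_notMem]
        rintro x ⟨hx, hxy⟩
        rw [hXX] at hx
        have h2 := hmm x hxy
        rw [hc10, mul_zero] at h2
        exact mq_ne hg q x (fun i _ => hx.2.1 i) h2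
      rw [h1, Set.ncard_empty, Nat.cast_zero]
      exact hbound0
    obtain ⟨c0, hc0, hc0s⟩ := QE4_sq (m0 * c1) (mul_ne_zero hm0 hc10)
    let Z : (p : ℕ) → Set (Fin (g k).natDegree → ZMod p) := fun p => {a : Fin (g k).natDegree → ZMod p |
      (¬ (p : ℤ) ∣ c0 → IsSquare ((c0 : ZMod p) * resultant (red p (g k))
        (∑ i, Polynomial.C (a i) * X ^ (i : ℕ)) (g k).natDegree (g k).natDegree)) ∧
      ((p : ℤ) ∣ c0 → resultant (red p (g k))
        (∑ i, Polynomial.C (a i) * X ^ (i : ℕ)) (g k).natDegree (g k).natDegree = 0)}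
    have hcrt := crt_count (g k).natDegree F (fun p hp => (hF p hp).2.1) Z (3 / 4) (by norm_num)
      (fun p hp => e_count_q hg k p (hgp p hp) (hS.split p (hF p hp).1 k) c0) B hFB
    rw [hFc] at hcrt
    refine le_trans ?_ hcrt
    have hfin : Finite {a : Fin (g k).natDegree → ℤ // (∀ i, |(a i : ℝ)| ≤ B) ∧
        ∀ p ∈ F, (fun i => ((a i : ℤ) : ZMod p)) ∈ Z p} := by
      have h1 : {a : Fin (g k).natDegree → ℤ | (∀ i, |(a i : ℝ)| ≤ B) ∧
        ∀ p ∈ F, (fun i => ((a i : ℤ) : ZMod p)) ∈ Z p}.Finite := (QE4_fin _ B).subset fun a ha => ha.1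
      exact h1
    have hinto : ∀ x : {x ∈ XX | ∀ c : Co g, c.1 ≠ k → x c = y c},
        (∀ i : Fin (g k).natDegree, |(x.1 ⟨k, i⟩ : ℝ)| ≤ B) ∧
        ∀ p ∈ F, (fun i : Fin (g k).natDegree => ((x.1 ⟨k, i⟩ : ℤ) : ZMod p)) ∈ Z p := by
      rintro ⟨x, hx, hxy⟩
      rw [hXX] at hx
      obtain ⟨hx1, hx2, hx3⟩ := hx
      refine ⟨fun i => ?_, fun p hp => ?_⟩
      · rw [hB]
        exact hx1 ⟨k, i⟩
      · rw [hmm x hxy] at hx3
        have h1 : IsSquare (c0 * resultant (g k) (∑ i : Fin (g k).natDegree, Polynomial.C (x ⟨k, i⟩) * X ^ (i : ℕ))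
          (g k).natDegree (g k).natDegree) := by
          apply hc0s
          rw [mul_comm _ c1, ← mul_assoc] at hx3
          exact hx3
        have h2 := QE4_loc p (hF p hp).2.1 c0 _ hc0 h1
        rw [QE4_red k p (fun i => x ⟨k, i⟩)] at h2
        exact h2
    have hle : Nat.card {x ∈ XX | ∀ c : Co g, c.1 ≠ k → x c = y c} ≤
        Nat.card {a : Fin (g k).natDegree → ℤ // (∀ i, |(a i : ℝ)| ≤ B) ∧
          ∀ p ∈ F, (fun i => ((a i : ℤ) : ZMod p)) ∈ Z p} := by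
      refine Nat.card_le_card_of_injective
        (fun x => ⟨fun i => x.1 ⟨k, i⟩, hinto x⟩) ?_
      rintro ⟨x, hx, hxy⟩ ⟨x', hx', hxy'⟩ h
      have h1 : (fun i : Fin (g k).natDegree => x ⟨k, i⟩) = fun i => x' ⟨k, i⟩ := congrArg Subtype.val h
      apply Subtype.ext
      funext c
      by_cases hc : c.1 = k
      · obtain ⟨l, i⟩ := c
        have hc' : l = k := hc
        subst hc'
        exact congrFun h1 i
      · show x c = x' c
        rw [hxy c hc, hxy' c hc]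
    rw [Nat.card_coe_set_eq] at hle
    exact_mod_cast hle
  -- the covering
  have hcover : XX ⊆ ⋃ y ∈ Y, {x ∈ XX | ∀ c : Co g, c.1 ≠ k → x c = y c} := by
    intro x hx
    simp only [Set.mem_iUnion]
    refine ⟨fun c => if c.1 = k then 0 else x c, ?_, hx, fun c hc => ?_⟩
    · rw [hYmem]
      refine ⟨fun c => ?_, fun c hc => if_pos hc⟩
      show |((if c.1 = k then 0 else x c : ℤ) : ℝ)| ≤ C * (2 : ℝ) ^ ((Function.update j k 0 c.1 : ℝ) / _)
      by_cases hc : c.1 = k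
      · rw [if_pos hc, Int.cast_zero, abs_zero]
        positivity
      · rw [if_neg hc, Function.update_of_ne hc]
        rw [hXX] at hx
        exact hx.1 c
    · exact (if_neg hc).symm
  have hXfin : XX.Finite := by
    rw [hXX]
    have h1 : {x : Co g → ℤ | Bx g C j x}.Finite := (TR.bx_card hg C hC j).1
    exact h1.subset fun x hx => hx.1
  have hle : XX.ncard ≤ ∑ y ∈ Y, {x ∈ XX | ∀ c : Co g, c.1 ≠ k → x c = y c}.ncard := by
    have h1 : (⋃ y ∈ Y, {x ∈ XX | ∀ c : Co g, c.1 ≠ k → x c = y c}).Finite := by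
      refine Set.Finite.biUnion (Finset.finite_toSet _) fun y _ => ?_
      exact hXfin.subset fun x hx => hx.1
    exact (Set.ncard_le_ncard hcover h1).trans (Finset.set_ncard_biUnion_le _ _)
  have hler : (XX.ncard : ℝ) ≤ Y.card * ((3 / 4 : ℝ) ^ n * (4 * B) ^ (g k).natDegree) := by
    calc (XX.ncard : ℝ) ≤ ∑ y ∈ Y, (({x ∈ XX | ∀ c : Co g, c.1 ≠ k → x c = y c}.ncard : ℕ) : ℝ) := by
          exact_mod_cast hle
      _ ≤ ∑ y ∈ Y, ((3 / 4 : ℝ) ^ n * (4 * B) ^ (g k).natDegree) := Finset.sum_le_sum hfib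
      _ = Y.card * ((3 / 4 : ℝ) ^ n * (4 * B) ^ (g k).natDegree) := by
          rw [Finset.sum_const, nsmul_eq_mul]
  have hBk : (4 * B) ^ (g k).natDegree = (4 * C) ^ (g k).natDegree * 2 ^ (j k) := by
    have h1 : ((2 : ℝ) ^ ((j k : ℝ) / ((g k).natDegree : ℝ))) ^ (g k).natDegree = 2 ^ (j k) := by
      rw [← Real.rpow_natCast, ← Real.rpow_mul (by norm_num), div_mul_cancel₀ _ hk0r.ne', Real.rpow_natCast]
    rw [hB, ← mul_assoc, mul_pow, h1]
  have h4C : (4 * C) ^ (g k).natDegree ≤ (4 * C) ^ N := pow_le_pow_right₀ (by linarith) hkN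
  have hsum : ∑ i, j i = ∑ i ∈ univ.erase k, j i + j k := (Finset.sum_erase_add _ _ (Finset.mem_univ k)).symm
  calc (XX.ncard : ℝ) ≤ Y.card * ((3 / 4 : ℝ) ^ n * (4 * B) ^ (g k).natDegree) := hler
    _ ≤ ((3 * C) ^ N * 2 ^ (∑ i ∈ univ.erase k, j i)) * ((L : ℝ) ^ (-A) * ((4 * C) ^ N * 2 ^ (j k))) := by
        refine mul_le_mul hYc ?_ ?_ (by positivity)
        · rw [hBk]
          refine mul_le_mul hn2 (mul_le_mul_of_nonneg_right h4C (by positivity)) (by positivity)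
            (Real.rpow_nonneg (Nat.cast_nonneg _) _)
        · rw [hB]
          positivity
    _ = (3 * C) ^ N * (4 * C) ^ N * 2 ^ (∑ i, j i) * (L : ℝ) ^ (-A) := by
        rw [hsum, pow_add]
        ring

end QV
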