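import Pool.Agent.Lib.MP_10e784_agQV.QMA
import Pool.Agent.Lib.MP_10e784_agN2.N10
import Pool.Agent.Lib.MP_10e784_agTR.FALT

/-! JOB QFI.  No rational root, even degree at least eight.  MODEL: `EN.N10_fin` (file MP_10e784_agN2/N10.lean, copy its private lemmas).
`gen_fam`, `EN.deg2`, `gen_pt`, `main_q` (`Hq` is `fun K _ _ θ hθ => MPFA.quartic hθ`; `8 ≤ ∑ natDegree` from `f = C c * ∏ q i`, `natDegree (g i) = natDegree (q i)`, see `N9_deg`), `EL.low`.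
`h8g`: `natDegree f = ∑ natDegree (g i)`.  If no twist is everywhere locally soluble, both numbers are `0`.  Otherwise `R(N) ≤ η a (N / log N) exp TT ≤ η S(N)` for `N` large. -/

set_option autoImplicit false

namespace QV

open Finset Polynomial TW EL EN

private theorem QFI_finite (N : ℕ) (P : ℤ → Prop) (h : ∀ D, P D → |D| ≤ (N : ℤ)) : Finite {D : ℤ // P D} := by
  have h1 : {D : ℤ | P D} ⊆ ↑(Icc (-(N : ℤ)) N) := by
    intro D hD
    rw [Finset.coe_Icc, Set.mem_Icc]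
    exact abs_le.1 (h D hD)
  exact (Finset.finite_toSet _).subset h1

private theorem QFI_card_le (N : ℕ) (P R : ℤ → Prop) (hR : ∀ D, R D → |D| ≤ (N : ℤ)) (h : ∀ D, P D → R D) :
    Nat.card {D : ℤ // P D} ≤ Nat.card {D : ℤ // R D} := by
  have := QFI_finite N R hR
  refine Nat.card_le_card_of_injective (fun D : {D : ℤ // P D} => (⟨D.1, h D.1 D.2⟩ : {D : ℤ // R D})) ?_
  intro D D' hDD
  exact Subtype.ext (congrArg (fun x : {D : ℤ // R D} => x.1) hDD)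

/-- a rational point is a point over all completions -/
private theorem QFI_els (f : ℚ[X]) (D : ℤ) (h : ∃ x y : ℚ, (D : ℚ) * y ^ 2 = f.eval x) : ELS f D := by
  obtain ⟨x, y, h⟩ := h
  have key : ∀ (K : Type) [Field K] [CharZero K], (D : K) * (y : K) ^ 2 = aeval (x : K) f := by
    intro K _ _
    have h1 : aeval (x : K) f = ((f.eval x : ℚ) : K) := by
      have h2 := Polynomial.aeval_algebraMap_apply K x f
      rw [eq_ratCast] at h2
      rw [h2, eq_ratCast]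
      simp
    rw [h1, ← h]
    push_cast
    ring
  exact ⟨⟨x, y, key ℝ⟩, fun p _ => ⟨x, y, key ℚ_[p]⟩⟩

theorem norat (f : ℚ[X]) (hf : Squarefree f) (hdeg : Even f.natDegree) (h8 : 8 ≤ f.natDegree)
    (hroot : ∀ x : ℚ, f.eval x ≠ 0) (η : ℝ) (hη : 0 < η) :
    ∃ N0 : ℕ, ∀ N : ℕ, N0 ≤ N →
      (Nat.card {D : ℤ // Squarefree D ∧ |D| ≤ (N : ℤ) ∧ ∃ x y : ℚ, (D : ℚ) * y ^ 2 = f.eval x} : ℝ) ≤
        η * (Nat.card {D : ℤ // Squarefree D ∧ |D| ≤ (N : ℤ) ∧ ELS f D} : ℝ) := by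
  obtain ⟨n, q, g, M, c, hM, hc, hFam, hmon, hF, hg⟩ := gen_fam f hf hdeg (by omega)
    (fun x y hx _ => absurd hx (hroot x))
  have hden : (c.den : ℤ) ≠ 0 := by exact_mod_cast c.den_ne_zero
  have h2' : ∀ i, 2 ≤ (g i).natDegree := deg2 f hroot q g M c hM hc hFam hmon hF hg
  have hdg : ∀ i, (g i).natDegree = (q i).natDegree := fun i => by
    rw [← natDegree_qq, hg i, natDegree_scaleRoots]
  have hsum : ∑ i, (g i).natDegree = f.natDegree := by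
    rw [Finset.sum_congr rfl fun i _ => hdg i, hF, natDegree_C_mul hc,
      natDegree_prod_of_monic _ _ fun i _ => hmon i]
  have h8g : 8 ≤ ∑ i, (g i).natDegree := by rw [hsum]; exact h8
  have hse : ∀ N : ℕ, Nat.card {D : ℤ // Squarefree D ∧ |D| ≤ (N : ℤ) ∧ ∃ x y : ℚ, (D : ℚ) * y ^ 2 = f.eval x} ≤
      Nat.card {D : ℤ // Squarefree D ∧ |D| ≤ (N : ℤ) ∧ ELS f D} := fun N =>
    QFI_card_le N (fun D => Squarefree D ∧ |D| ≤ (N : ℤ) ∧ ∃ x y : ℚ, (D : ℚ) * y ^ 2 = f.eval x)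
      (fun D => Squarefree D ∧ |D| ≤ (N : ℤ) ∧ ELS f D) (fun D h => h.2.1)
      (fun D h => ⟨h.1, h.2.1, QFI_els f D h.2.2⟩)
  by_cases hex : ∃ D0 : ℤ, Squarefree D0 ∧ ELS f D0
  · obtain ⟨D0, hD0, hels⟩ := hex
    obtain ⟨a, N0, ha, hN0, hlow⟩ := low f hdeg q g M c hM hc hFam hmon hF hg D0 hD0 hels
    obtain ⟨N1, hN1⟩ := main_q (fun K _ _ θ hθ => MPFA.quartic hθ) hFam h2' h8g (c.num * c.den)
      (mul_ne_zero (Rat.num_ne_zero.2 hc) hden) (η * a) (mul_pos hη ha)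
    refine ⟨max N0 N1, fun N hN => ?_⟩
    have h1 := QFI_card_le N (fun D => Squarefree D ∧ |D| ≤ (N : ℤ) ∧ ∃ x y : ℚ, (D : ℚ) * y ^ 2 = f.eval x)
      (fun D => Squarefree D ∧ |D| ≤ (N : ℤ) ∧ ∃ u v : ℤ, IsCoprime u v ∧
        (∀ i, PT.hom (g i) u v ≠ 0) ∧ IsSquare (D * (c.num * c.den) * ∏ i, PT.hom (g i) u v)) (fun D h => h.2.1) (by
        rintro D ⟨h4, h5, x, w, h⟩
        obtain ⟨u, v, l, huv, -, -, -, h1, h2⟩ := gen_pt f hdeg q g M c hM hc hmon hF hg D x 1 w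
          (Or.inr one_ne_zero) (by rw [hq_one]; exact hroot x) (by rw [hq_one]; exact h)
        exact ⟨h4, h5, u, v, huv, h1, h2⟩)
    have h1' : (Nat.card {D : ℤ // Squarefree D ∧ |D| ≤ (N : ℤ) ∧ ∃ x y : ℚ, (D : ℚ) * y ^ 2 = f.eval x} : ℝ) ≤
        (Nat.card {D : ℤ // Squarefree D ∧ |D| ≤ (N : ℤ) ∧ ∃ u v : ℤ, IsCoprime u v ∧
          (∀ i, PT.hom (g i) u v ≠ 0) ∧ IsSquare (D * (c.num * c.den) * ∏ i, PT.hom (g i) u v)} : ℝ) := by
      exact_mod_cast h1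
    calc (Nat.card {D : ℤ // Squarefree D ∧ |D| ≤ (N : ℤ) ∧ ∃ x y : ℚ, (D : ℚ) * y ^ 2 = f.eval x} : ℝ)
        ≤ η * a * (N / Real.log N) * Real.exp (TT g N) := h1'.trans (hN1 N ((le_max_right _ _).trans hN))
      _ = η * (a * (N / Real.log N) * Real.exp (TT g N)) := by ring
      _ ≤ η * (Nat.card {D : ℤ // Squarefree D ∧ |D| ≤ (N : ℤ) ∧ ELS f D} : ℝ) :=
          mul_le_mul_of_nonneg_left (hlow N ((le_max_left _ _).trans hN)) hη.le
  · refine ⟨0, fun N _ => ?_⟩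
    have h1 : Nat.card {D : ℤ // Squarefree D ∧ |D| ≤ (N : ℤ) ∧ ELS f D} = 0 := by
      have : IsEmpty {D : ℤ // Squarefree D ∧ |D| ≤ (N : ℤ) ∧ ELS f D} :=
        ⟨fun D => hex ⟨D.1, D.2.1, D.2.2.2⟩⟩
      exact Nat.card_of_isEmpty
    have h2 := hse N
    rw [h1] at h2
    have h4 : Nat.card {D : ℤ // Squarefree D ∧ |D| ≤ (N : ℤ) ∧ ∃ x y : ℚ, (D : ℚ) * y ^ 2 = f.eval x} = 0 :=
      Nat.le_zero.1 h2
    rw [h1, h4]
    simp

end QV
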