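import Pool.Agent.Lib.MP_10e784_agQV.QE4
import Pool.Agent.Lib.MP_10e784_agQV.QL2
import Pool.Agent.Lib.MP_10e784_agQV.QC

/-! JOB QG1.  Few vectors have an exceptional norm.  COPY of `QV.bad_x` (file G1.lean, proved) with `exc_w` in place of `exc_gen`: the weights are `b p = bt g q p` for good `p` and `0` otherwise; the primes dividing `M1` (`good_exists`) do not occur in the blocks `i ≥ a` because of the hypothesis `M1 < 2 ^ a` (`hM1` below: the constant `M1` is an output of the theorem), so `sw` is the same for `bt g q` and `b`; `B = 2` (`bt_facts`). -/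

set_option autoImplicit false

namespace QV

open Finset Polynomial TW TR

private theorem QG1_dec (m : ℤ) (hm : m ≠ 0) (Q : ℕ) (hQ : |m| ≤ (Q : ℤ)) :
    ∃ (c : ℤ) (w : ℕ), Squarefree c ∧ 1 ≤ w ∧ m = c * (w : ℤ) ^ 2 ∧ |c| ≤ (Q : ℤ) ∧ w ≤ Q := by
  obtain ⟨a, b, h1, h2⟩ := Nat.sq_mul_squarefree m.natAbs
  have hm0 : m.natAbs ≠ 0 := Int.natAbs_ne_zero.2 hm
  have hb : 1 ≤ b := by
    rcases Nat.eq_zero_or_pos b with h | h
    · rw [h] at h1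
      simp at h1
      omega
    · exact h
  have ha : 1 ≤ a := by
    rcases Nat.eq_zero_or_pos a with h | h
    · rw [h] at h1
      simp at h1
      omega
    · exact h
  have hmQ : m.natAbs ≤ Q := by
    have := Int.natCast_natAbs m
    omega
  have haQ : a ≤ m.natAbs := by
    rw [← h1]
    exact Nat.le_mul_of_pos_left _ (by positivity)
  have hbQ : b ≤ m.natAbs := by
    rw [← h1, sq, mul_assoc]
    exact Nat.le_mul_of_pos_right _ (by positivity)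
  have hs : (m.sign * (a : ℤ)).natAbs = a := by
    rw [Int.natAbs_mul, Int.natAbs_natCast, Int.natAbs_sign_of_ne_zero hm, one_mul]
  refine ⟨m.sign * a, b, ?_, hb, ?_, ?_, by omega⟩
  · rw [← Int.squarefree_natAbs, hs]
    exact h2
  · have h3 : ((b : ℤ) ^ 2 * (a : ℤ)) = (m.natAbs : ℤ) := by exact_mod_cast h1
    have h4 := Int.sign_mul_natAbs m
    calc m = m.sign * (m.natAbs : ℤ) := h4.symm
      _ = m.sign * ((b : ℤ) ^ 2 * (a : ℤ)) := by rw [h3]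
      _ = m.sign * (a : ℤ) * (b : ℤ) ^ 2 := by ring
  · have := Int.natCast_natAbs (m.sign * (a : ℤ))
    omega

private theorem QG1_sw (b : ℕ → ℝ) (c : ℤ) (w Q a i : ℕ) (hw : 1 ≤ w) (hwQ : w ≤ Q) (hQ : Q < 2 ^ a) (hi : a ≤ i) :
    sw b (c * (w : ℤ) ^ 2) i = sw b c i := by
  unfold sw
  refine Finset.sum_congr rfl fun p hp => ?_
  rw [Finset.mem_filter, Finset.mem_Ioc] at hp
  obtain ⟨⟨hp1, hp2⟩, hpp⟩ := hp
  have h0 : 2 ^ a ≤ 2 ^ i := Nat.pow_le_pow_right (by norm_num) hi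
  have h2 : ¬ p ∣ w := fun h => by
    have := Nat.le_of_dvd hw h
    omega
  have h3 : Int.gcd (w : ℤ) (p : ℤ) = 1 := by
    rw [Int.gcd_natCast_natCast]
    exact ((Nat.Prime.coprime_iff_not_dvd hpp).2 h2).symm
  rw [jacobiSym.mul_left, jacobiSym.pow_left, jacobiSym.sq_one h3, mul_one]

private theorem QG1_eq (b b' : ℕ → ℝ) (M1 a i : ℕ) (hM : M1 ≠ 0) (hMa : M1 < 2 ^ a) (hi : a ≤ i)
    (h : ∀ p : ℕ, ¬ p ∣ M1 → b p = b' p) (m : ℤ) : sw b m i = sw b' m i := by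
  unfold sw
  refine Finset.sum_congr rfl fun p hp => ?_
  rw [Finset.mem_filter, Finset.mem_Ioc] at hp
  obtain ⟨⟨hp1, hp2⟩, hpp⟩ := hp
  have h0 : 2 ^ a ≤ 2 ^ i := Nat.pow_le_pow_right (by norm_num) hi
  have h2 : ¬ p ∣ M1 := fun h => by
    have := Nat.le_of_dvd (Nat.pos_of_ne_zero hM) h
    omega
  rw [h p h2]

private theorem QG1_sq (m m' : ℤ) (h : Squarefree m) (h' : Squarefree m') (hs : IsSquare (m * m')) : m = m' := by
  obtain ⟨k, hk⟩ := hs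
  have h1 : m ∣ k ^ 2 := ⟨m', by rw [hk, sq]⟩
  have h2 : m ∣ k := (h.dvd_pow_iff_dvd two_ne_zero).1 h1
  obtain ⟨t, ht⟩ := h2
  have h3 : m' = m * (t * t) := by
    have h4 : m * m' = m * (m * (t * t)) := by rw [hk, ht]; ring
    exact mul_left_cancel₀ h.ne_zero h4
  have h5 : IsUnit t := h' t ⟨m, by rw [h3, mul_comm]⟩
  have h6 : t * t = 1 := Int.isUnit_mul_self h5
  rw [h3, h6, mul_one]

private theorem QG1_card {α : Type} (B P : α → Prop) (hB : Finite {x : α // B x}) (hP : ∀ x, P x → B x) (R : Finset ℤ)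
    (Pc : ℤ → α → Prop) (hPc : ∀ c x, Pc c x → B x) (h : ∀ x, P x → ∃ c ∈ R, Pc c x) (K : ℝ)
    (hK : ∀ c ∈ R, (Nat.card {x : α // Pc c x} : ℝ) ≤ K) :
    (Nat.card {x : α // P x} : ℝ) ≤ R.card * K := by
  classical
  have hf : Set.Finite {x : α | B x} := hB
  have e : ∀ S : α → Prop, (∀ x, S x → B x) → Nat.card {x : α // S x} = (hf.toFinset.filter S).card := by
    intro S hS
    rw [Nat.subtype_card]
    intro x
    rw [Finset.mem_filter, Set.Finite.mem_toFinset]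
    exact ⟨fun hx => hx.2, fun hx => ⟨hS x hx, hx⟩⟩
  rw [e P hP]
  have h1 : hf.toFinset.filter P ⊆ R.biUnion (fun c => hf.toFinset.filter (Pc c)) := by
    intro x hx
    rw [Finset.mem_filter] at hx
    obtain ⟨c, hc, hcx⟩ := h x hx.2
    rw [Finset.mem_biUnion]
    exact ⟨c, hc, Finset.mem_filter.2 ⟨hx.1, hcx⟩⟩
  have h2 := (Finset.card_le_card h1).trans Finset.card_biUnion_le
  have h3 : ((hf.toFinset.filter P).card : ℝ) ≤ ∑ c ∈ R, ((hf.toFinset.filter (Pc c)).card : ℝ) := by exact_mod_cast h2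
  refine h3.trans ?_
  rw [← nsmul_eq_mul]
  refine Finset.sum_le_card_nsmul _ _ _ fun c hc => ?_
  rw [← e (Pc c) (hPc c)]
  exact hK c hc

theorem bad_xq {ι : Type} [Fintype ι] [DecidableEq ι] {g : ι → ℤ[X]} (hg : TR.Fam g) (q : ι) (hq : (g q).natDegree = 2)
    (C : ℝ) (hC : 1 ≤ C) (ε : ℝ) (hε : 0 < ε) (A : ℝ) (η : ℝ) (hη : 0 < η) :
    ∃ (C' : ℝ) (L1 M1 : ℕ), 0 < C' ∧ ∀ (j : ι → ℕ) (k : ι) (L a b Q : ℕ), k ≠ q → L1 ≤ L →
      (L : ℝ) ^ ε ≤ j k → 1 ≤ a → b ≤ 2 * L → (∀ x, Bx g C j x → |mq g q x| ≤ (Q : ℤ)) → Q < 2 ^ a → M1 < 2 ^ a →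
      (∀ i ∈ Ico a b, 32 * (Q : ℝ) ^ 2 * (i : ℝ) ^ 2 ≤ η ^ 2 * 2 ^ i) →
      (Nat.card {x : Co g → ℤ // Bx g C j x ∧ (∀ i, pol g x i ≠ 0) ∧ ∃ i ∈ Ico a b, η / i < |sw (bt g q) (mq g q x) i|} : ℝ) ≤
        C' * 2 ^ (∑ i, j i) * (L : ℝ) ^ (-A) := by
  classical
  obtain ⟨M1, hM1, hgood⟩ := good_exists hg
  obtain ⟨C0, L0, hC0, hE⟩ := exc_xq hg q C hC ε hε (A + 3)
  obtain ⟨bb, hbb⟩ : ∃ bb : ℕ → ℝ, bb = fun p => if p ∣ M1 then 0 else bt g q p := ⟨_, rfl⟩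
  have hbb1 : ∀ p : ℕ, ¬ p ∣ M1 → bt g q p = bb p := fun p hp => by
    rw [hbb]
    exact (if_neg hp).symm
  have hbb2 : ∀ p : ℕ, p.Prime → |bb p| ≤ 2 := fun p hp => by
    by_cases h : p ∣ M1
    · rw [hbb]
      show |if p ∣ M1 then (0 : ℝ) else bt g q p| ≤ 2
      rw [if_pos h, abs_zero]
      norm_num
    · rw [← hbb1 p h]
      exact (bt_facts hg q hq p (hgood p hp h)).2.1
  refine ⟨64 * C0 / η ^ 2, max L0 1, M1, by positivity, ?_⟩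
  intro j k L a b Q hkq hL hj ha hb hmm hQ hMa hP
  have hL0 : L0 ≤ L := (le_max_left _ _).trans hL
  have hL1 : 1 ≤ L := (le_max_right _ _).trans hL
  have hLr : (1 : ℝ) ≤ L := by exact_mod_cast hL1
  have hLp : (0 : ℝ) < L := by linarith
  set R : Finset ℤ := (Finset.Icc (-(Q : ℤ)) Q).filter
    (fun c => Squarefree c ∧ ∃ i ∈ Ico a b, η / i < |sw bb c i|) with hRdef
  have hmem : ∀ c, c ∈ R ↔ ((-(Q : ℤ) ≤ c ∧ c ≤ Q) ∧ Squarefree c ∧ ∃ i ∈ Ico a b, η / i < |sw bb c i|) := by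
    intro c
    rw [hRdef, Finset.mem_filter, Finset.mem_Icc]
  have hcard : (R.card : ℝ) ≤ 2 * (2 : ℝ) ^ 2 * (b : ℝ) ^ 3 / η ^ 2 := by
    refine exc_w bb 2 (by norm_num) hbb2 R Q a b η hη ?_ ?_ ha (fun i hi => ?_) ?_
    · intro m hm
      rw [hmem] at hm
      exact ⟨hm.2.1.ne_zero, abs_le.2 hm.1⟩
    · intro m hm m' hm' hne hs'
      rw [hmem] at hm hm'
      exact hne (QG1_sq m m' hm.2.1 hm'.2.1 hs')
    · have h1 := hP i hi
      have h2 : 8 * (2 : ℝ) ^ 2 * (Q : ℝ) ^ 2 * (i : ℝ) ^ 2 = 32 * (Q : ℝ) ^ 2 * (i : ℝ) ^ 2 := by ring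
      rw [h2]
      exact h1
    · intro m hm
      rw [hmem] at hm
      exact hm.2.2
  have hcover : ∀ x : Co g → ℤ, (Bx g C j x ∧ (∀ i, pol g x i ≠ 0) ∧ ∃ i ∈ Ico a b, η / i < |sw (bt g q) (mq g q x) i|) →
      ∃ c ∈ R, Bx g C j x ∧ (∀ i, pol g x i ≠ 0) ∧ IsSquare (c * mq g q x) := by
    rintro x ⟨hx1, hx2, i, hi, hx3⟩
    have hne : mq g q x ≠ 0 := mq_ne hg q x (fun i _ => hx2 i)
    obtain ⟨c, w, hc1, hw1, hc2, hc3, hw2⟩ := QG1_dec (mq g q x) hne Q (hmm x hx1)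
    have hai : a ≤ i := (Finset.mem_Ico.1 hi).1
    refine ⟨c, (hmem c).2 ⟨abs_le.1 hc3, hc1, i, hi, ?_⟩, hx1, hx2, ?_⟩
    · rw [← QG1_sw bb c w Q a i hw1 hw2 hQ hai, ← hc2, ← QG1_eq (bt g q) bb M1 a i hM1 hMa hai hbb1]
      exact hx3
    · rw [hc2]
      exact ⟨c * w, by ring⟩
  have hmain := QG1_card (fun x : Co g → ℤ => Bx g C j x)
    (fun x => Bx g C j x ∧ (∀ i, pol g x i ≠ 0) ∧ ∃ i ∈ Ico a b, η / i < |sw (bt g q) (mq g q x) i|)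
    (bx_card hg C hC j).1 (fun x hx => hx.1) R
    (fun c x => Bx g C j x ∧ (∀ i, pol g x i ≠ 0) ∧ IsSquare (c * mq g q x)) (fun c x hx => hx.1) hcover
    (C0 * 2 ^ (∑ i, j i) * (L : ℝ) ^ (-(A + 3))) (fun c hc => hE j k L c hkq hL0 hj ((hmem c).1 hc).2.1.ne_zero)
  refine hmain.trans ?_
  have hpos : (0 : ℝ) ≤ C0 * 2 ^ (∑ i, j i) * (L : ℝ) ^ (-(A + 3)) := by positivity
  have hb3 : (b : ℝ) ^ 3 ≤ (2 * (L : ℝ)) ^ 3 := by
    have : (b : ℝ) ≤ 2 * (L : ℝ) := by exact_mod_cast hb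
    exact pow_le_pow_left₀ (Nat.cast_nonneg _) this 3
  have hsplit : (L : ℝ) ^ (-(A + 3)) * (L : ℝ) ^ 3 = (L : ℝ) ^ (-A) := by
    rw [← Real.rpow_natCast, ← Real.rpow_add hLp]
    congr 1
    push_cast
    ring
  calc (R.card : ℝ) * (C0 * 2 ^ (∑ i, j i) * (L : ℝ) ^ (-(A + 3)))
      ≤ (2 * (2 : ℝ) ^ 2 * (2 * (L : ℝ)) ^ 3 / η ^ 2) * (C0 * 2 ^ (∑ i, j i) * (L : ℝ) ^ (-(A + 3))) := by
        refine mul_le_mul_of_nonneg_right (hcard.trans ?_) hpos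
        exact div_le_div_of_nonneg_right (by linarith) (by positivity)
    _ = 64 * C0 / η ^ 2 * 2 ^ (∑ i, j i) * ((L : ℝ) ^ (-(A + 3)) * (L : ℝ) ^ 3) := by ring
    _ = 64 * C0 / η ^ 2 * 2 ^ (∑ i, j i) * (L : ℝ) ^ (-A) := by rw [hsplit]

end QV
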