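import Pool.Agent.Lib.MP_10e784_agQV.QD
import Pool.Agent.Lib.MP_10e784_agTR.TWGood

/-! JOB QNQ.
`fam_TR`: immediate.
`qd_of`: for every `l` let `qq (g l) * k = (qq (g q)).comp h` in `ℚ[X]`, and `m ≠ 0` an integer with `m h = H`, `m ^ 2 k = K` in `ℤ[X]` (common denominators: `IsLocalization.integerNormalization` or `exists_integer_multiples`; take a common `m` with `m h`, `m k` integral, then `m ^ 2 k` is integral as well).  `g q = X ^ 2 + c₁ X + c₀` gives `H ^ 2 + c₁ m H + c₀ m ^ 2 = g l * K` in `ℤ[X]`.  For a prime `p ∤ m` and a root `t` of `g l` modulo `p`: `H(t) / m` is a root of `g q` modulo `p`.  `M2` = the product of all `m` (over `l`) and of the constant of `TR.good_exists` (and of all the primes `≤ 2` and those dividing the discriminant `c₁ ^ 2 - 4 c₀`, nonzero as `qq (g q)` is irreducible of degree 2, see the private lemmas `N6_form`, `N6_disc`, `N6_rt` of MP_10e784_agN2/N6.lean: copy them): for `p ∤ M2`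 in `RP g` (`1 ≤ rts g univ p`, so some `PT.rt (g l) p ≥ 1`) we get `PT.rt (g q) p ≥ 1`, so `= 2` by `N6_rt`. -/

set_option autoImplicit false

namespace QV

open Finset Polynomial TW TR

theorem fam_TR {ι : Type} [Fintype ι] {g : ι → ℤ[X]} (hg : TW.Fam g) : TR.Fam g :=
  ⟨hg.monic, hg.irr, hg.inj, hg.even, hg.six⟩

private theorem QNQ_form (g : ℤ[X]) (h1 : g.Monic) (hd : g.natDegree = 2) :
    g = C (g.coeff 0) + C (g.coeff 1) * X + X ^ 2 := by
  have h2 : g.coeff 2 = 1 := by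
    rw [← hd]
    exact h1
  have h3 := g.as_sum_range_C_mul_X_pow
  rw [hd, Finset.sum_range_succ, Finset.sum_range_succ, Finset.sum_range_succ, Finset.sum_range_zero,
    h2, zero_add, pow_zero, mul_one, pow_one, C_1, one_mul] at h3
  exact h3

private theorem QNQ_form_qq (g : ℤ[X]) (h1 : g.Monic) (hd : g.natDegree = 2) :
    qq g = C (g.coeff 0 : ℚ) + C (g.coeff 1 : ℚ) * X + X ^ 2 := by
  have h3 := congrArg (Polynomial.map (Int.castRingHom ℚ)) (QNQ_form g h1 hd)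
  simp only [Polynomial.map_add, Polynomial.map_mul, Polynomial.map_pow, map_X, map_C] at h3
  exact h3

private theorem QNQ_disc (g : ℤ[X]) (h1 : g.Monic) (hi : Irreducible (qq g)) (hd : g.natDegree = 2) :
    g.coeff 1 ^ 2 - 4 * g.coeff 0 ≠ 0 := by
  intro h0
  have h2 := QNQ_form_qq g h1 hd
  have h4 : ((g.coeff 1 : ℚ)) ^ 2 - 4 * (g.coeff 0 : ℚ) = 0 := by exact_mod_cast h0
  have h5 : (qq g).IsRoot (-(g.coeff 1 : ℚ) / 2) := by
    rw [IsRoot.def, h2]
    simp only [eval_add, eval_mul, eval_C, eval_X, eval_pow]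
    linear_combination (-1 / 4) * h4
  have h6 := degree_eq_one_of_irreducible_of_root hi h5
  have h7 : (qq g).natDegree = 2 := by
    rw [← hd]
    exact h1.natDegree_map (Int.castRingHom ℚ)
  rw [natDegree_eq_of_degree_eq_some h6] at h7
  exact absurd h7 (by norm_num)

private theorem QNQ_ev (g : ℤ[X]) (h1 : g.Monic) (hd : g.natDegree = 2) (p : ℕ) (ρ : ZMod p) :
    (g.map (Int.castRingHom (ZMod p))).eval ρ = (g.coeff 0 : ZMod p) + (g.coeff 1 : ZMod p) * ρ + ρ ^ 2 := by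
  have h3 := congrArg (fun q => (Polynomial.map (Int.castRingHom (ZMod p)) q).eval ρ) (QNQ_form g h1 hd)
  simp only [Polynomial.map_add, Polynomial.map_mul, Polynomial.map_pow, map_X, map_C,
    eval_add, eval_mul, eval_C, eval_X, eval_pow] at h3
  exact h3

private theorem QNQ_rt (g : ℤ[X]) (h1 : g.Monic) (hd : g.natDegree = 2) (p : ℕ) (hp : p.Prime)
    (hpd : ¬ p ∣ (g.coeff 1 ^ 2 - 4 * g.coeff 0).natAbs) (t : ZMod p)
    (ht : (g.map (Int.castRingHom (ZMod p))).eval t = 0) : PT.rt g p = 2 := by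
  have : Fact p.Prime := ⟨hp⟩
  have hev := QNQ_ev g h1 hd p
  have hdp : (g.coeff 1 : ZMod p) ^ 2 - 4 * (g.coeff 0 : ZMod p) ≠ 0 := by
    intro h0
    apply hpd
    rw [← Int.natCast_dvd, ← ZMod.intCast_zmod_eq_zero_iff_dvd]
    push_cast
    exact h0
  have hne : t ≠ -(g.coeff 1 : ZMod p) - t := by
    intro h2
    apply hdp
    rw [hev] at ht
    linear_combination (2 * t + (g.coeff 1 : ZMod p)) * h2 - 4 * ht
  have hset : {ρ : ZMod p | (g.map (Int.castRingHom (ZMod p))).eval ρ = 0} =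
      {t, -(g.coeff 1 : ZMod p) - t} := by
    ext ρ
    rw [Set.mem_insert_iff, Set.mem_singleton_iff]
    change (g.map (Int.castRingHom (ZMod p))).eval ρ = 0 ↔ _
    rw [hev] at ht ⊢
    constructor
    · intro h2
      have h3 : (ρ - t) * (ρ - (-(g.coeff 1 : ZMod p) - t)) = 0 := by
        linear_combination h2 - ht
      rcases mul_eq_zero.1 h3 with h4 | h4
      · exact Or.inl (sub_eq_zero.1 h4)
      · exact Or.inr (sub_eq_zero.1 h4)
    · rintro (rfl | rfl)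
      · exact ht
      · linear_combination ht
  unfold PT.rt
  change Nat.card ↥{ρ : ZMod p | (g.map (Int.castRingHom (ZMod p))).eval ρ = 0} = 2
  rw [Nat.card_coe_set_eq, hset, Set.ncard_pair hne]

private theorem QNQ_den (h : ℚ[X]) : ∃ (m : ℤ) (H : ℤ[X]), m ≠ 0 ∧ H.map (Int.castRingHom ℚ) = (m : ℚ[X]) * h := by
  obtain ⟨b, hbM, hb⟩ := IsLocalization.integerNormalization_spec (nonZeroDivisors ℤ) h
  refine ⟨b, IsLocalization.integerNormalization (nonZeroDivisors ℤ) h, nonZeroDivisors.ne_zero hbM, ?_⟩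
  have h1 : (Int.castRingHom ℚ) = algebraMap ℤ ℚ := rfl
  rw [h1, hb, zsmul_eq_mul]

/-- one member -/
private theorem QNQ_one (g G : ℤ[X]) (h1 : g.Monic) (hd : g.natDegree = 2) (h : ℚ[X]) (hdiv : qq G ∣ (qq g).comp h) :
    ∃ m : ℤ, m ≠ 0 ∧ ∀ p : ℕ, p.Prime → ¬ (p : ℤ) ∣ m → ∀ t : ZMod p, (G.map (Int.castRingHom (ZMod p))).eval t = 0 →
      ∃ t' : ZMod p, (g.map (Int.castRingHom (ZMod p))).eval t' = 0 := by
  obtain ⟨k, hk⟩ := hdiv
  obtain ⟨m1, H, hm1, hH⟩ := QNQ_den h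
  obtain ⟨m2, K, hm2, hK⟩ := QNQ_den k
  obtain ⟨c0, hc0⟩ : ∃ c0, c0 = g.coeff 0 := ⟨_, rfl⟩
  obtain ⟨c1, hc1⟩ : ∃ c1, c1 = g.coeff 1 := ⟨_, rfl⟩
  have hpoly : (m2 : ℤ[X]) * (H ^ 2 + (c1 : ℤ[X]) * (m1 : ℤ[X]) * H + (c0 : ℤ[X]) * (m1 : ℤ[X]) ^ 2) =
      (m1 : ℤ[X]) ^ 2 * (G * K) := by
    apply Polynomial.map_injective (Int.castRingHom ℚ) Int.cast_injective
    have h3 : (qq g).comp h = (c0 : ℚ[X]) + (c1 : ℚ[X]) * h + h ^ 2 := by
      rw [QNQ_form_qq g h1 hd, hc0, hc1]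
      simp
    rw [h3] at hk
    simp only [Polynomial.map_add, Polynomial.map_mul, Polynomial.map_pow, Polynomial.map_intCast, hH, hK]
    have h4 : G.map (Int.castRingHom ℚ) = qq G := rfl
    rw [h4]
    linear_combination ((m2 : ℚ[X]) * (m1 : ℚ[X]) ^ 2) * hk
  refine ⟨m1 * m2, mul_ne_zero hm1 hm2, fun p hp hpm t ht => ?_⟩
  have : Fact p.Prime := ⟨hp⟩
  have e1 : (m1 : ZMod p) ≠ 0 := by
    intro h0
    exact hpm (dvd_mul_of_dvd_left ((ZMod.intCast_zmod_eq_zero_iff_dvd _ _).1 h0) _)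
  have e2 : (m2 : ZMod p) ≠ 0 := by
    intro h0
    exact hpm (dvd_mul_of_dvd_right ((ZMod.intCast_zmod_eq_zero_iff_dvd _ _).1 h0) _)
  have h5 := congrArg (fun q => (Polynomial.map (Int.castRingHom (ZMod p)) q).eval t) hpoly
  simp only [Polynomial.map_add, Polynomial.map_mul, Polynomial.map_pow, Polynomial.map_intCast, eval_add, eval_mul, eval_pow,
    eval_intCast, ht, zero_mul, mul_zero] at h5
  set y : ZMod p := (H.map (Int.castRingHom (ZMod p))).eval t with hy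
  have h6 := (mul_eq_zero.1 h5).resolve_left e2
  refine ⟨y / m1, ?_⟩
  rw [QNQ_ev g h1 hd p, ← hc0, ← hc1]
  field_simp
  linear_combination h6

theorem qd_of {ι : Type} [Fintype ι] [DecidableEq ι] {g : ι → ℤ[X]} (hg : TR.Fam g) (q : ι) (hq : (g q).natDegree = 2)
    (h : ∀ l, ∃ h : ℚ[X], qq (g l) ∣ (qq (g q)).comp h) : Qd g q := by
  refine ⟨hq, ?_⟩
  have h1 : ∀ l, ∃ m : ℤ, m ≠ 0 ∧ ∀ p : ℕ, p.Prime → ¬ (p : ℤ) ∣ m → ∀ t : ZMod p,
      ((g l).map (Int.castRingHom (ZMod p))).eval t = 0 →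
      ∃ t' : ZMod p, ((g q).map (Int.castRingHom (ZMod p))).eval t' = 0 := by
    intro l
    obtain ⟨w, hw⟩ := h l
    exact QNQ_one (g q) (g l) (hg.monic q) hq w hw
  choose m hm hm2 using h1
  have hdisc := QNQ_disc (g q) (hg.monic q) (hg.irr q) hq
  refine ⟨((g q).coeff 1 ^ 2 - 4 * (g q).coeff 0).natAbs * (∏ l, m l).natAbs,
    mul_ne_zero (Int.natAbs_ne_zero.2 hdisc) (Int.natAbs_ne_zero.2 (Finset.prod_ne_zero_iff.2 fun l _ => hm l)),
    fun p hp hpM hR => ?_⟩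
  have : Fact p.Prime := ⟨hp⟩
  have hR' : 1 ≤ rts g univ p := hR
  have hex : ∃ l, PT.rt (g l) p ≠ 0 := by
    by_contra hc
    push Not at hc
    have h2 : rts g univ p = 0 := Finset.sum_eq_zero fun l _ => hc l
    omega
  obtain ⟨l, hl⟩ := hex
  have h3 : ∃ t : ZMod p, ((g l).map (Int.castRingHom (ZMod p))).eval t = 0 := by
    unfold PT.rt at hl
    obtain ⟨⟨t, ht⟩⟩ := (Nat.card_ne_zero.1 hl).1
    exact ⟨t, ht⟩
  obtain ⟨t, ht⟩ := h3
  have h4 : ¬ (p : ℤ) ∣ m l := by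
    intro hd
    apply hpM
    apply dvd_mul_of_dvd_right
    rw [← Int.natCast_dvd]
    exact hd.trans (Finset.dvd_prod_of_mem m (Finset.mem_univ l))
  obtain ⟨t', ht'⟩ := hm2 l p hp h4 t ht
  exact QNQ_rt (g q) (hg.monic q) hq p hp (fun hd => hpM (dvd_mul_of_dvd_left hd _)) t' ht'

end QV
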