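import Pool.Agent.Lib.MP_10e784_agQV.QS2
import Pool.Agent.Lib.MP_10e784_agQV.QGP

/-! JOB QUQ.  The twists whose vectors lie in the layers with `e q` on top and a second large coordinate.
`c, C', L1` from `sv_q` for `C = 2 * C₀`; `good_gen` for `P j := (∀ i, j i ≤ j q) ∧ ∃ k, k ≠ q ∧ (j q) ^ ε ≤ j k`, `i₀ = q`, `δ = c`.  For `j q < L1` (also with all `j i < L1`): `bx_card` bounds the number of the `x` by a constant times `2 ^ (∑ j i)`, `∏ (1 + j i)⁻¹ ≥ (1 + L1) ^ (- card ι)`, `(1 + j q) ^ (-c) ≥ (1 + L1) ^ (-c)`, `exp (TT) ≥ 1` (`TT` is a sum of nonnegative terms); see `EN.sv3` at the end of the file MP_10e784_agN2/N4.lean. -/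

set_option autoImplicit false

namespace QV

open Finset Polynomial TW TR

theorem upper_q {ι : Type} [Fintype ι] [DecidableEq ι] {g : ι → ℤ[X]} (hg : TW.Fam g) (h2 : ∀ i, 2 ≤ (g i).natDegree)
    (q : ι) (hq : Qd g q) (C₀ : ℝ) (hC : 1 ≤ C₀) (M : ℕ) (hM : M ≠ 0) (ε : ℝ) (hε : 0 < ε) (hε1 : ε ≤ 1) :
    ∃ A δ : ℝ, 0 < A ∧ 0 < δ ∧ ∀ N : ℕ, 2 ≤ N →
      (Nat.card {D : ℤ // Squarefree D ∧ |D| ≤ (N : ℤ) ∧ ∃ (g0 : ℤ) (e : ι → ℕ) (x : Co g → ℤ),
        EN.Dat g C₀ M D g0 e x ∧ (∀ i, pol g x i ≠ 0) ∧ (∀ i, Nat.log 2 (e i) ≤ Nat.log 2 (e q)) ∧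
        ∃ k, k ≠ q ∧ (Nat.log 2 (e q) : ℝ) ^ ε ≤ Nat.log 2 (e k)} : ℝ) ≤
        A * (N / Real.log N ^ (1 + δ)) * Real.exp (EL.TT g N) := by
  obtain ⟨c, C', L1, hc, hC', h⟩ := sv_q hg h2 q hq M hM (2 * C₀) (by linarith) ε hε hε1
  have hL1 : (1 : ℝ) ≤ 1 + L1 := by
    have : (0 : ℝ) ≤ L1 := Nat.cast_nonneg _
    linarith
  obtain ⟨n, hn⟩ : ∃ n : ℕ, n = ∑ i, (g i).natDegree := ⟨_, rfl⟩
  have hC0 : 0 < C₀ := by linarith
  obtain ⟨C3, hC3⟩ : ∃ C3 : ℝ, C3 = (3 * (2 * C₀)) ^ n *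
    ((1 + (L1 : ℝ)) ^ (Fintype.card ι) * (1 + (L1 : ℝ)) ^ c) := ⟨_, rfl⟩
  have hC30 : 0 < C3 := by
    rw [hC3]
    positivity
  obtain ⟨A, hA, hAN⟩ := good_gen hg C₀ hC M hM
    (fun j => (∀ i, j i ≤ j q) ∧ ∃ k, k ≠ q ∧ (j q : ℝ) ^ ε ≤ j k) (max C' C3) c hc
    (lt_max_of_lt_left hC') (by
      rintro j ⟨hmax, k₂, hk₂, hj⟩
      refine ⟨q, hmax, ?_⟩
      have hpos : 0 ≤ 2 ^ (∑ i, j i) * (∏ i, (1 + j i : ℝ)⁻¹) * (1 + j q : ℝ) ^ (-c) := by
        have h1 : 0 ≤ ∏ i, (1 + j i : ℝ)⁻¹ := Finset.prod_nonneg fun i _ => by positivity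
        positivity
      rcases le_or_gt L1 (j q) with hL | hL
      · refine le_trans (h j k₂ hmax hL hk₂ hj) ?_
        apply mul_le_mul_of_nonneg_right _ (Real.exp_pos _).le
        exact mul_le_mul_of_nonneg_right (le_max_left _ _) hpos
      · have hb := TW.bx_card hg (2 * C₀) (by linarith) j
        rw [← hn] at hb
        have hsub : (Nat.card {x : Co g → ℤ // Bx g (2 * C₀) j x ∧ Loc g M x ∧
            (∀ i, pol g x i ≠ 0)} : ℝ) ≤ Nat.card {x : Co g → ℤ // Bx g (2 * C₀) j x} := by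
          have hfin : {x : Co g → ℤ | Bx g (2 * C₀) j x}.Finite := hb.1
          have h2 := Nat.card_mono hfin (s := {x : Co g → ℤ | Bx g (2 * C₀) j x ∧ Loc g M x ∧
            (∀ i, pol g x i ≠ 0)}) fun x hx => hx.1
          exact_mod_cast h2
        have hTT : 1 ≤ Real.exp (EL.TT g (Real.exp (j q))) := by
          apply Real.one_le_exp
          unfold EL.TT PT.PS
          apply Finset.sum_nonneg
          intro p _
          have h4 : 0 ≤ PT.ind (EL.RP g) p := by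
            unfold PT.ind
            split_ifs
            · exact zero_le_one
            · exact le_rfl
          positivity
        have hprod : ((1 + (L1 : ℝ)) ^ (Fintype.card ι))⁻¹ ≤ ∏ i, (1 + j i : ℝ)⁻¹ := by
          rw [← inv_pow, ← Finset.card_univ, ← Finset.prod_const]
          apply Finset.prod_le_prod
          · intro i _
            positivity
          · intro i _
            apply inv_anti₀ (by positivity)
            have h5 : ((j i : ℕ) : ℝ) ≤ L1 := by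
              have := hmax i
              exact_mod_cast (by omega : j i ≤ L1)
            linarith
        have hrp : ((1 + (L1 : ℝ)) ^ c)⁻¹ ≤ (1 + j q : ℝ) ^ (-c) := by
          rw [Real.rpow_neg (by positivity)]
          apply inv_anti₀ (by positivity)
          apply Real.rpow_le_rpow (by positivity) _ hc.le
          have h5 : ((j q : ℕ) : ℝ) ≤ L1 := by exact_mod_cast hL.le
          linarith
        have h6 : 1 ≤ ((1 + (L1 : ℝ)) ^ (Fintype.card ι) * (1 + (L1 : ℝ)) ^ c) *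
            ((∏ i, (1 + j i : ℝ)⁻¹) * (1 + j q : ℝ) ^ (-c)) := by
          have h7 : ((1 + (L1 : ℝ)) ^ (Fintype.card ι))⁻¹ * ((1 + (L1 : ℝ)) ^ c)⁻¹ ≤
              (∏ i, (1 + j i : ℝ)⁻¹) * (1 + j q : ℝ) ^ (-c) :=
            mul_le_mul hprod hrp (by positivity) (Finset.prod_nonneg fun i _ => by positivity)
          have h8 : 0 < (1 + (L1 : ℝ)) ^ (Fintype.card ι) * (1 + (L1 : ℝ)) ^ c := by positivity
          calc (1 : ℝ) = ((1 + (L1 : ℝ)) ^ (Fintype.card ι) * (1 + (L1 : ℝ)) ^ c) *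
                (((1 + (L1 : ℝ)) ^ (Fintype.card ι))⁻¹ * ((1 + (L1 : ℝ)) ^ c)⁻¹) := by
                rw [← mul_inv, mul_inv_cancel₀ h8.ne']
            _ ≤ _ := mul_le_mul_of_nonneg_left h7 h8.le
        have h9 : 0 ≤ (3 * (2 * C₀)) ^ n * 2 ^ (∑ i, j i) := by positivity
        have h10 : C3 * (2 ^ (∑ i, j i) * (∏ i, (1 + j i : ℝ)⁻¹) * (1 + j q : ℝ) ^ (-c)) ≤
            max C' C3 * (2 ^ (∑ i, j i) * (∏ i, (1 + j i : ℝ)⁻¹) * (1 + j q : ℝ) ^ (-c)) :=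
          mul_le_mul_of_nonneg_right (le_max_right _ _) hpos
        calc (Nat.card {x : Co g → ℤ // Bx g (2 * C₀) j x ∧ Loc g M x ∧
              (∀ i, pol g x i ≠ 0)} : ℝ)
            ≤ (3 * (2 * C₀)) ^ n * 2 ^ (∑ i, j i) := hsub.trans hb.2
          _ ≤ ((3 * (2 * C₀)) ^ n * 2 ^ (∑ i, j i)) *
              (((1 + (L1 : ℝ)) ^ (Fintype.card ι) * (1 + (L1 : ℝ)) ^ c) *
                ((∏ i, (1 + j i : ℝ)⁻¹) * (1 + j q : ℝ) ^ (-c))) :=
              le_mul_of_one_le_right h9 h6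
          _ = C3 * (2 ^ (∑ i, j i) * (∏ i, (1 + j i : ℝ)⁻¹) * (1 + j q : ℝ) ^ (-c)) := by
              rw [hC3]
              ring
          _ ≤ max C' C3 * (2 ^ (∑ i, j i) * (∏ i, (1 + j i : ℝ)⁻¹) * (1 + j q : ℝ) ^ (-c)) := h10
          _ ≤ _ := le_mul_of_one_le_right (mul_nonneg (le_max_of_le_left hC'.le) hpos) hTT)
  exact ⟨A, c / 2, hA, half_pos hc, fun N hN => hAN N hN⟩

end QV
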