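import Pool.Agent.Lib.MP_10e784_agQV.QMB
import Pool.Agent.Lib.MP_10e784_agQV.QF1
import Pool.Agent.Lib.MP_10e784_agQV.QUQ
import Pool.Agent.Lib.MP_10e784_agQV.QNQ
import Pool.Agent.Lib.MP_10e784_agQV.QBW
import Pool.Agent.Lib.MP_10e784_agN2.N8
import Pool.Agent.Lib.MP_10e784_agTR.TWMain

/-! JOB QMA.  The upper bound for families without linear members, total degree at least eight.
MODELS: `EN.upper3` (file MP_10e784_agN2/N8.lean) and `QV.main_QV` (file MA.lean).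
`C₀, M` from `desc5` (`fam_TR`).  For every `D` of the set choose the data of `desc5`; `EN.Dat g C₀ M D g0 e x`; `pol g x i ≠ 0` by `TR.pol_ne`; `j i = Nat.log 2 (e i)`.  `C', δ1, K` from `EN.sv3` (for `2 * C₀`), `A1` from `EN.good_part`.
(G) `EN.GdJ g K j`: at most `A1 (N / log N ^ (1 + δ1 / 2)) exp TT`.
Otherwise, with `q` an index of maximal `j q` (the index type is not empty, `hg.six`): `natDegree (g q) = 2` and `j i < (j q) ^ (1 - 1/K)` for all `i ≠ q`.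
(W) there is `l` with `∀ h, ¬ qq (g l) ∣ (qq (g q)).comp h`: `bad_wit`.
Otherwise `Qd g q` by `qd_of`; `ε_q` from `mid_D`, `ε = ε_q / 2`:
(B3) `∃ k ≠ q, (j q) ^ ε ≤ j k`: `upper_q`.
(B1), (B2) otherwise `j k < (j q) ^ ε` for all `k ≠ q`, so `∏_{k ≠ q} e k ≤ ∏ 2 ^ (j k + 1) ≤ exp (card ι ((log N / log 2) ^ ε + 1)) ≤ exp ((log N) ^ (ε_q))` for `N` large; `Q0` from `mid_D` for `η / (2 card ι + 2)`: if `∏ e k ≤ Q0` then `D` lies in a finite set (`q_fin`), of at most `F` elements, `F ≤ (η / ..) (N / log N) exp TT` for `N` large (`TT ≥ 0`); otherwise `mid_D`.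
All the bounds with `log N ^ (1 + δ)` are at most `(η / ..) (N / log N) exp TT` for `N` large.  The sum over `q : ι` is finite. -/

set_option autoImplicit false

namespace QV

open Finset Polynomial TW TR

open Classical in
private theorem QMA_c0 (N : ℕ) (P : ℤ → Prop) :
    Nat.card {D : ℤ // Squarefree D ∧ |D| ≤ (N : ℤ) ∧ P D} =
      ((Icc (-(N : ℤ)) N).filter (fun D => Squarefree D ∧ |D| ≤ (N : ℤ) ∧ P D)).card := by
  refine Nat.subtype_card _ fun D => ?_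
  rw [mem_filter, mem_Icc, and_iff_right_iff_imp]
  intro h
  exact abs_le.1 h.2.1

private theorem QMA_split {κ : Type} [Fintype κ] (N : ℕ) (P Q : ℤ → Prop) (R : κ → ℤ → Prop)
    (h : ∀ D : ℤ, Squarefree D → |D| ≤ (N : ℤ) → P D → Q D ∨ ∃ q, R q D) :
    Nat.card {D : ℤ // Squarefree D ∧ |D| ≤ (N : ℤ) ∧ P D} ≤
      Nat.card {D : ℤ // Squarefree D ∧ |D| ≤ (N : ℤ) ∧ Q D} +
      ∑ q, Nat.card {D : ℤ // Squarefree D ∧ |D| ≤ (N : ℤ) ∧ R q D} := by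
  classical
  rw [QMA_c0 N P, QMA_c0 N Q, Finset.sum_congr rfl fun q _ => QMA_c0 N (R q)]
  refine (card_le_card (t := ((Icc (-(N : ℤ)) N).filter (fun D => Squarefree D ∧ |D| ≤ (N : ℤ) ∧ Q D)) ∪
    univ.biUnion fun q => (Icc (-(N : ℤ)) N).filter (fun D => Squarefree D ∧ |D| ≤ (N : ℤ) ∧ R q D)) ?_).trans
    ((card_union_le _ _).trans (Nat.add_le_add_left card_biUnion_le _))
  intro D hD
  rw [mem_filter] at hD
  obtain ⟨h1, h2, h3, h4⟩ := hD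
  rw [mem_union]
  rcases h D h2 h3 h4 with h5 | ⟨q, h5⟩
  · exact Or.inl (mem_filter.2 ⟨h1, h2, h3, h5⟩)
  · exact Or.inr (mem_biUnion.2 ⟨q, mem_univ _, mem_filter.2 ⟨h1, h2, h3, h5⟩⟩)

private theorem QMA_split2 (N : ℕ) (P Q R : ℤ → Prop)
    (h : ∀ D : ℤ, Squarefree D → |D| ≤ (N : ℤ) → P D → Q D ∨ R D) :
    Nat.card {D : ℤ // Squarefree D ∧ |D| ≤ (N : ℤ) ∧ P D} ≤
      Nat.card {D : ℤ // Squarefree D ∧ |D| ≤ (N : ℤ) ∧ Q D} +
      Nat.card {D : ℤ // Squarefree D ∧ |D| ≤ (N : ℤ) ∧ R D} := by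
  have h1 := QMA_split (κ := Unit) N P Q (fun _ => R) fun D a b c =>
    (h D a b c).imp id fun d => ⟨(), d⟩
  simpa only [univ_unique, sum_singleton] using h1

private theorem QMA_mono (N : ℕ) (P Q : ℤ → Prop)
    (h : ∀ D : ℤ, Squarefree D → |D| ≤ (N : ℤ) → P D → Q D) :
    Nat.card {D : ℤ // Squarefree D ∧ |D| ≤ (N : ℤ) ∧ P D} ≤
      Nat.card {D : ℤ // Squarefree D ∧ |D| ≤ (N : ℤ) ∧ Q D} := by
  have h1 := QMA_split (κ := Empty) N P Q (fun _ => Q) fun D a b c => Or.inl (h D a b c)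
  simpa only [univ_eq_empty, sum_empty, add_zero] using h1

private theorem QMA_fin (N : ℕ) (S : Finset ℤ) :
    Nat.card {D : ℤ // Squarefree D ∧ |D| ≤ (N : ℤ) ∧ D ∈ S} ≤ S.card := by
  have h := Nat.card_le_card_of_injective
    (fun D : {D : ℤ // Squarefree D ∧ |D| ≤ (N : ℤ) ∧ D ∈ S} => (⟨D.1, D.2.2.2⟩ : ↥S)) (fun D D' h => by
      have := congrArg Subtype.val h
      exact Subtype.ext this)
  rwa [Nat.card_eq_fintype_card (α := ↥S), Fintype.card_coe] at h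

private theorem QMA_lim (A δ η : ℝ) (hδ : 0 < δ) (hη : 0 < η) : ∃ N0 : ℕ, 2 ≤ N0 ∧ ∀ N : ℕ, N0 ≤ N →
    A * (N / Real.log N ^ (1 + δ)) ≤ η * (N / Real.log N) := by
  have h1 : ∀ᶠ N : ℕ in Filter.atTop, A / η ≤ Real.log N ^ δ :=
    ((tendsto_rpow_atTop hδ).comp
      (Real.tendsto_log_atTop.comp tendsto_natCast_atTop_atTop)).eventually_ge_atTop _
  obtain ⟨N1, hN1⟩ := Filter.eventually_atTop.1 h1
  refine ⟨max 2 N1, le_max_left _ _, fun N hN => ?_⟩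
  have h2 : (2 : ℝ) ≤ N := by exact_mod_cast (le_max_left _ _).trans hN
  have h3 : 0 < Real.log N := Real.log_pos (by linarith)
  have h4 := hN1 N ((le_max_right _ _).trans hN)
  rw [div_le_iff₀ hη] at h4
  have h5 : Real.log N ^ (1 + δ) = Real.log N * Real.log N ^ δ := by
    rw [Real.rpow_add h3, Real.rpow_one]
  have h6 : 0 < Real.log N ^ δ := Real.rpow_pos_of_pos h3 _
  have h7 : (0 : ℝ) ≤ N / Real.log N := by positivity
  have h8 : A * (N / Real.log N ^ (1 + δ)) = A / Real.log N ^ δ * (N / Real.log N) := by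
    rw [h5]
    field_simp
  rw [h8]
  refine mul_le_mul_of_nonneg_right ?_ h7
  rw [div_le_iff₀ h6]
  linarith

private theorem QMA_limF (F η : ℝ) (hη : 0 < η) : ∃ N0 : ℕ, ∀ N : ℕ, N0 ≤ N →
    F ≤ η * (N / Real.log N) := by
  have h1 : ∀ᶠ x : ℝ in Filter.atTop, ‖Real.log x‖ ≤ η / (|F| + 1) * ‖(id x : ℝ)‖ :=
    Real.isLittleO_log_id_atTop.bound (by positivity)
  have h2 : ∀ᶠ N : ℕ in Filter.atTop, ‖Real.log N‖ ≤ η / (|F| + 1) * ‖(id (N : ℝ) : ℝ)‖ :=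
    tendsto_natCast_atTop_atTop.eventually h1
  obtain ⟨N1, hN1⟩ := Filter.eventually_atTop.1 h2
  refine ⟨max 2 N1, fun N hN => ?_⟩
  have h3 : (2 : ℝ) ≤ N := by exact_mod_cast (le_max_left _ _).trans hN
  have h4 : 0 < Real.log N := Real.log_pos (by linarith)
  have h5 := hN1 N ((le_max_right _ _).trans hN)
  rw [id, Real.norm_of_nonneg h4.le, Real.norm_of_nonneg (by linarith)] at h5
  have h6 : (|F| + 1) * Real.log N ≤ η * N := by
    have h7 : (|F| + 1) * Real.log N ≤ (|F| + 1) * (η / (|F| + 1) * N) :=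
      mul_le_mul_of_nonneg_left h5 (by positivity)
    have h8 : (|F| + 1) * (η / (|F| + 1) * N) = η * N := by
      field_simp
    linarith
  have h9 : |F| + 1 ≤ η * (N / Real.log N) := by
    rw [← mul_div_assoc, le_div_iff₀ h4]
    exact h6
  have := le_abs_self F
  linarith

private theorem QMA_TT {ι : Type} [Fintype ι] (g : ι → ℤ[X]) (x : ℝ) : 0 ≤ EL.TT g x := by
  rw [EL.TT, PT.PS]
  refine Finset.sum_nonneg fun p _ => div_nonneg ?_ (Nat.cast_nonneg p)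
  rw [PT.ind]
  split_ifs
  · exact zero_le_one
  · exact le_rfl

/-- a large product has a large factor -/
private theorem QMA_big {ι : Type} [Fintype ι] [DecidableEq ι] (P : Finset ι) (e : ι → ℕ) {y : ℝ}
    (hy : 2 * (Fintype.card ι : ℝ) + 1 ≤ y) (h : Real.exp (y ^ 2) < ((∏ k ∈ P, e k : ℕ) : ℝ)) :
    ∃ k ∈ P, y ≤ (Nat.log 2 (e k) : ℝ) := by
  by_contra hcon
  push Not at hcon
  have hc0 : (0 : ℝ) ≤ Fintype.card ι := Nat.cast_nonneg _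
  have hy0 : 0 < y := by linarith
  have h1 : ((∏ k ∈ P, e k : ℕ) : ℝ) ≤ Real.exp (∑ k ∈ P, (y + 1)) := by
    rw [Real.exp_sum]
    push_cast
    refine Finset.prod_le_prod (fun k _ => Nat.cast_nonneg _) fun k hk => ?_
    have h2 : e k < 2 ^ (Nat.log 2 (e k) + 1) := Nat.lt_pow_succ_log_self (by norm_num) _
    have h3 : (e k : ℝ) ≤ (2 : ℝ) ^ (Nat.log 2 (e k) + 1) := by exact_mod_cast h2.le
    have h4 : (2 : ℝ) ≤ Real.exp 1 := by
      have := Real.add_one_le_exp (1 : ℝ)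
      linarith
    calc (e k : ℝ) ≤ (2 : ℝ) ^ (Nat.log 2 (e k) + 1) := h3
      _ ≤ Real.exp 1 ^ (Nat.log 2 (e k) + 1) := pow_le_pow_left₀ (by norm_num) h4 _
      _ = Real.exp ((Nat.log 2 (e k) + 1 : ℕ) : ℝ) := by
          rw [← Real.exp_nat_mul, mul_one]
      _ ≤ Real.exp (y + 1) := by
          refine Real.exp_le_exp.2 ?_
          push_cast
          linarith [hcon k hk]
  have h2 := Real.exp_lt_exp.1 (h.trans_le h1)
  rw [sum_const, nsmul_eq_mul] at h2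
  have h3 : (P.card : ℝ) ≤ Fintype.card ι := by exact_mod_cast P.card_le_univ
  have h4 : (P.card : ℝ) * (y + 1) ≤ Fintype.card ι * (y + 1) :=
    mul_le_mul_of_nonneg_right h3 (by linarith)
  nlinarith

/-- the data of a twist -/
private def QMA_Dat {ι : Type} [Fintype ι] (g : ι → ℤ[X]) (a : ℤ) (C₀ : ℝ) (M : ℕ) (D u v : ℤ)
    (g0 : ℤ) (e : ι → ℕ) (x : Co g → ℤ) (sg w : ι → ℤ) : Prop :=
  IsCoprime u v ∧ (∀ i, PT.hom (g i) u v ≠ 0) ∧ IsSquare (D * a * ∏ i, PT.hom (g i) u v) ∧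
    EN.Dat g C₀ M D g0 e x ∧
    (∀ i, ∃ κ : ℚ[X], ¬ qq (g i) ∣ κ ∧
      qq (g i) ∣ pol g (fun c => (x c : ℚ)) i - (C (u : ℚ) - C (v : ℚ) * X) * κ ^ 2) ∧
    (∀ i, (sg i).natAbs ∣ M ∧ sg i ≠ 0 ∧ PT.hom (g i) u v = sg i * e i * w i ^ 2)

private theorem QMA_e {ι : Type} [Fintype ι] {g : ι → ℤ[X]} {C₀ : ℝ} {M : ℕ} {D : ℤ} {g0 : ℤ}
    {e : ι → ℕ} {x : Co g → ℤ} (hD : Squarefree D) {N : ℕ} (hN : |D| ≤ N) (h : EN.Dat g C₀ M D g0 e x) :
    (∀ i, 1 ≤ e i) ∧ ∀ i, e i ≤ N := by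
  obtain ⟨-, h2, h3, -⟩ := h
  have hg0 : g0 ≠ 0 := by
    rintro rfl
    rw [zero_mul] at h2
    exact hD.ne_zero h2
  have he0 : ∀ i, e i ≠ 0 := by
    intro i hi
    apply h3.ne_zero
    exact Finset.prod_eq_zero (mem_univ i) hi
  have hprod : ∏ i, e i ≤ N := by
    have h9 : D.natAbs = g0.natAbs * ∏ i, e i := by
      rw [h2, Int.natAbs_mul]
      congr 1
      rw [← Nat.cast_prod, Int.natAbs_natCast]
    have h10 : D.natAbs ≤ N := by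
      have : (D.natAbs : ℤ) ≤ N := by rwa [Int.natCast_natAbs]
      exact_mod_cast this
    have h11 : 1 ≤ g0.natAbs := Nat.one_le_iff_ne_zero.2 (Int.natAbs_ne_zero.2 hg0)
    calc ∏ i, e i = 1 * ∏ i, e i := (one_mul _).symm
      _ ≤ g0.natAbs * ∏ i, e i := Nat.mul_le_mul_right _ h11
      _ = D.natAbs := h9.symm
      _ ≤ N := h10
  exact ⟨fun i => Nat.one_le_iff_ne_zero.2 (he0 i), fun i =>
    (Nat.le_of_dvd (Nat.pos_of_ne_zero h3.ne_zero) (Finset.dvd_prod_of_mem e (mem_univ i))).trans hprod⟩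

private theorem QMA_j {e N : ℕ} (h1 : 1 ≤ e) (h2 : e ≤ N) : (Nat.log 2 e : ℝ) ≤ 2 * Real.log N := by
  have h3 : 2 ^ Nat.log 2 e ≤ N := (Nat.pow_log_le_self 2 (by omega)).trans h2
  have h4 : ((2 : ℝ) ^ Nat.log 2 e) ≤ N := by exact_mod_cast h3
  have h5 := Real.log_le_log (by positivity) h4
  rw [Real.log_pow] at h5
  have h6 := Real.log_two_gt_d9
  have h7 : (0 : ℝ) ≤ (Nat.log 2 e : ℝ) := Nat.cast_nonneg _
  nlinarith

/-- one quadratic member -/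
private theorem QMA_q (Hq : ∀ (K : Type) [Field K] [NumberField K] (θ : Fin 5 → K), Function.Injective θ →
      {x : K | IsSquare ((x - θ 0) * (x - θ 1) * (x - θ 2) * (x - θ 3)) ∧
        IsSquare ((x - θ 0) * (x - θ 1) * (x - θ 2) * (x - θ 4))}.Finite)
    {ι : Type} [Fintype ι] [DecidableEq ι] {g : ι → ℤ[X]} (hg : TW.Fam g) (h2 : ∀ i, 2 ≤ (g i).natDegree)
    (h8 : 8 ≤ ∑ i, (g i).natDegree) (a : ℤ) (ha : a ≠ 0) (C₀ : ℝ) (hC : 1 ≤ C₀) (M : ℕ) (hM : M ≠ 0)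
    (K : ℕ) (hK : 2 ≤ K) (η : ℝ) (hη : 0 < η) (q : ι) :
    ∃ N0 : ℕ, ∀ N : ℕ, N0 ≤ N → (Nat.card {D : ℤ // Squarefree D ∧ |D| ≤ (N : ℤ) ∧ ((g q).natDegree = 2 ∧
      ∃ (u v g0 : ℤ) (e : ι → ℕ) (x : Co g → ℤ) (sg w : ι → ℤ), QMA_Dat g a C₀ M D u v g0 e x sg w ∧
        (∀ i, Nat.log 2 (e i) ≤ Nat.log 2 (e q)) ∧
        ∀ i, i ≠ q → (Nat.log 2 (e i) : ℝ) < (Nat.log 2 (e q) : ℝ) ^ (1 - 1 / (K : ℝ)))} : ℝ) ≤
      η * (N / Real.log N) * Real.exp (EL.TT g N) := by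
  have hgT := fam_TR hg
  by_cases hq : (g q).natDegree = 2
  swap
  · refine ⟨0, fun N _ => ?_⟩
    have h0 := QMA_mono N (fun D => ((g q).natDegree = 2 ∧
      ∃ (u v g0 : ℤ) (e : ι → ℕ) (x : Co g → ℤ) (sg w : ι → ℤ), QMA_Dat g a C₀ M D u v g0 e x sg w ∧
        (∀ i, Nat.log 2 (e i) ≤ Nat.log 2 (e q)) ∧
        ∀ i, i ≠ q → (Nat.log 2 (e i) : ℝ) < (Nat.log 2 (e q) : ℝ) ^ (1 - 1 / (K : ℝ))))
      (fun D => D ∈ (∅ : Finset ℤ)) fun D _ _ h => absurd h.1 hq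
    have h1 := h0.trans (QMA_fin N ∅)
    rw [card_empty, Nat.le_zero] at h1
    rw [h1, Nat.cast_zero]
    have h3 : 0 ≤ Real.log N := Real.log_natCast_nonneg N
    positivity
  by_cases hW : ∃ l, ∀ h : ℚ[X], ¬ qq (g l) ∣ (qq (g q)).comp h
  · obtain ⟨l, hl⟩ := hW
    obtain ⟨A, δ, hA, hδ, hb⟩ := bad_wit hg q hq l hl C₀ M K hM hK
    obtain ⟨N0, hN2, hN0⟩ := QMA_lim A δ η hδ hη
    refine ⟨N0, fun N hN => ?_⟩
    have h0 := QMA_mono N (fun D => ((g q).natDegree = 2 ∧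
      ∃ (u v g0 : ℤ) (e : ι → ℕ) (x : Co g → ℤ) (sg w : ι → ℤ), QMA_Dat g a C₀ M D u v g0 e x sg w ∧
        (∀ i, Nat.log 2 (e i) ≤ Nat.log 2 (e q)) ∧
        ∀ i, i ≠ q → (Nat.log 2 (e i) : ℝ) < (Nat.log 2 (e q) : ℝ) ^ (1 - 1 / (K : ℝ))))
      (fun D => ∃ (g0 : ℤ) (e : ι → ℕ) (x : Co g → ℤ),
        EN.Dat g C₀ M D g0 e x ∧ ∀ i, i ≠ q → (Nat.log 2 (e i) : ℝ) < (Nat.log 2 (e q) : ℝ) ^ (1 - 1 / (K : ℝ)))
      (by
        rintro D - - ⟨-, u, v, g0, e, x, sg, w, hd, -, hj⟩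
        exact ⟨g0, e, x, hd.2.2.2.1, hj⟩)
    have h1 : (Nat.card {D : ℤ // Squarefree D ∧ |D| ≤ (N : ℤ) ∧ ((g q).natDegree = 2 ∧
      ∃ (u v g0 : ℤ) (e : ι → ℕ) (x : Co g → ℤ) (sg w : ι → ℤ), QMA_Dat g a C₀ M D u v g0 e x sg w ∧
        (∀ i, Nat.log 2 (e i) ≤ Nat.log 2 (e q)) ∧
        ∀ i, i ≠ q → (Nat.log 2 (e i) : ℝ) < (Nat.log 2 (e q) : ℝ) ^ (1 - 1 / (K : ℝ)))} : ℝ) ≤ _ :=
      Nat.cast_le.2 h0
    refine h1.trans ((hb N (hN2.trans hN)).trans ?_)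
    exact mul_le_mul_of_nonneg_right (hN0 N hN) (Real.exp_pos _).le
  · push Not at hW
    have hQd : Qd g q := qd_of hgT q hq hW
    obtain ⟨ε, hε, hε1, hmid⟩ := mid_D hgT q hQd
    obtain ⟨A, δ, hA, hδ, hup⟩ := upper_q hg h2 q hQd C₀ hC M hM (ε / 4) (by linarith) (by linarith)
    obtain ⟨Q0, N1, hmid'⟩ := hmid M (η / 4) hM (by positivity)
    have hf := q_fin Hq hgT h8 q hq a ha C₀ hC Q0
    obtain ⟨S, hS⟩ : ∃ S : Finset ℤ, S = hf.toFinset := ⟨_, rfl⟩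
    obtain ⟨N2, hN2, hlim⟩ := QMA_lim A δ (η / 4) hδ (by positivity)
    obtain ⟨N3, hlimF⟩ := QMA_limF (S.card : ℝ) (η / 4) (by positivity)
    have eL : ∀ᶠ N : ℕ in Filter.atTop, 2 * (Fintype.card ι : ℝ) + 1 ≤ Real.log N ^ (ε / 2) :=
      ((tendsto_rpow_atTop (by linarith : (0 : ℝ) < ε / 2)).comp
        (Real.tendsto_log_atTop.comp tendsto_natCast_atTop_atTop)).eventually_ge_atTop _
    obtain ⟨N4, hN4⟩ := Filter.eventually_atTop.1 eL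
    have eL2 : ∀ᶠ N : ℕ in Filter.atTop, 2 ≤ Real.log N :=
      (Real.tendsto_log_atTop.comp tendsto_natCast_atTop_atTop).eventually_ge_atTop _
    obtain ⟨N5, hN5⟩ := Filter.eventually_atTop.1 eL2
    refine ⟨N1 + N2 + N3 + N4 + N5, fun N hN => ?_⟩
    have hL : 2 * (Fintype.card ι : ℝ) + 1 ≤ Real.log N ^ (ε / 2) := hN4 N (by omega)
    have hL2 : 2 ≤ Real.log N := hN5 N (by omega)
    have hlog0 : 0 ≤ Real.log N := by linarith
    have h0 := QMA_split2 N (fun D => ((g q).natDegree = 2 ∧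
      ∃ (u v g0 : ℤ) (e : ι → ℕ) (x : Co g → ℤ) (sg w : ι → ℤ), QMA_Dat g a C₀ M D u v g0 e x sg w ∧
        (∀ i, Nat.log 2 (e i) ≤ Nat.log 2 (e q)) ∧
        ∀ i, i ≠ q → (Nat.log 2 (e i) : ℝ) < (Nat.log 2 (e q) : ℝ) ^ (1 - 1 / (K : ℝ))))
      (fun D => ∃ (g0 : ℤ) (e : ι → ℕ) (x : Co g → ℤ),
        EN.Dat g C₀ M D g0 e x ∧ (∀ i, pol g x i ≠ 0) ∧ (∀ i, Nat.log 2 (e i) ≤ Nat.log 2 (e q)) ∧
        ∃ k, k ≠ q ∧ (Nat.log 2 (e q) : ℝ) ^ (ε / 4) ≤ Nat.log 2 (e k))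
      (fun D => D ∈ S ∨ ∃ (g0 : ℤ) (e : ι → ℕ) (sg w : ι → ℤ) (u v : ℤ), IsCoprime u v ∧
        g0.natAbs ∣ M ∧ D = g0 * ∏ i, (e i : ℤ) ∧ Squarefree (∏ i, e i) ∧
        (∀ i, (sg i).natAbs ∣ M ∧ sg i ≠ 0 ∧ PT.hom (g i) u v = sg i * e i * w i ^ 2) ∧
        Q0 < ∏ k ∈ univ.erase q, e k ∧
        ((∏ k ∈ univ.erase q, e k : ℕ) : ℝ) ≤ Real.exp (Real.log N ^ ε)) (by
        rintro D hD hDN ⟨-, u, v, g0, e, x, sg, w, hd, hjq, hj⟩
        obtain ⟨d1, d2, d3, d4, d5, d6⟩ := hd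
        obtain ⟨he1, heN⟩ := QMA_e hD hDN d4
        by_cases hk : ∃ k, k ≠ q ∧ (Nat.log 2 (e q) : ℝ) ^ (ε / 4) ≤ Nat.log 2 (e k)
        · exact Or.inl ⟨g0, e, x, d4, fun i => pol_ne hgT u v d1 i (d2 i) x (d5 i), hjq, hk⟩
        · push Not at hk
          right
          by_cases hQ : ∏ k ∈ univ.erase q, e k ≤ Q0
          · left
            rw [hS, Set.Finite.mem_toFinset]
            exact ⟨hD, u, v, e, x, d1, d2, d3, d4.2.2.2.2.1, d5, he1, hQ⟩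
          · right
            rw [not_le] at hQ
            refine ⟨g0, e, sg, w, u, v, d1, d4.1, d4.2.1, d4.2.2.1, d6, hQ, ?_⟩
            by_contra hexp
            rw [not_le] at hexp
            have hsq : (Real.log N ^ (ε / 2)) ^ 2 = Real.log N ^ ε := by
              rw [← Real.rpow_natCast, ← Real.rpow_mul hlog0]
              congr 1
              push_cast
              ring
            rw [← hsq] at hexp
            obtain ⟨k, hkP, hky⟩ := QMA_big _ e hL hexp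
            have h3 := hk k (mem_erase.1 hkP).1
            have h4 : (Nat.log 2 (e q) : ℝ) ^ (ε / 4) ≤ Real.log N ^ (ε / 2) := by
              have h5 : (Nat.log 2 (e q) : ℝ) ≤ Real.log N ^ (2 : ℝ) := by
                have h6 := QMA_j (he1 q) (heN q)
                rw [Real.rpow_two]
                nlinarith
              have h7 : Real.log N ^ (ε / 2) = (Real.log N ^ (2 : ℝ)) ^ (ε / 4) := by
                rw [← Real.rpow_mul hlog0]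
                congr 1
                ring
              rw [h7]
              exact Real.rpow_le_rpow (Nat.cast_nonneg _) h5 (by linarith)
            linarith)
    have h0' := QMA_split2 N (fun D => D ∈ S ∨ ∃ (g0 : ℤ) (e : ι → ℕ) (sg w : ι → ℤ) (u v : ℤ), IsCoprime u v ∧
        g0.natAbs ∣ M ∧ D = g0 * ∏ i, (e i : ℤ) ∧ Squarefree (∏ i, e i) ∧
        (∀ i, (sg i).natAbs ∣ M ∧ sg i ≠ 0 ∧ PT.hom (g i) u v = sg i * e i * w i ^ 2) ∧
        Q0 < ∏ k ∈ univ.erase q, e k ∧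
        ((∏ k ∈ univ.erase q, e k : ℕ) : ℝ) ≤ Real.exp (Real.log N ^ ε)) (fun D => D ∈ S)
      (fun D => ∃ (g0 : ℤ) (e : ι → ℕ) (sg w : ι → ℤ) (u v : ℤ), IsCoprime u v ∧
        g0.natAbs ∣ M ∧ D = g0 * ∏ i, (e i : ℤ) ∧ Squarefree (∏ i, e i) ∧
        (∀ i, (sg i).natAbs ∣ M ∧ sg i ≠ 0 ∧ PT.hom (g i) u v = sg i * e i * w i ^ 2) ∧
        Q0 < ∏ k ∈ univ.erase q, e k ∧
        ((∏ k ∈ univ.erase q, e k : ℕ) : ℝ) ≤ Real.exp (Real.log N ^ ε)) fun D _ _ h => h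
    have b1 := hup N (by omega)
    have b2 := hmid' Q0 N le_rfl (by omega)
    have b3 := QMA_fin N S
    have b4 := hlim N (by omega)
    have b5 := hlimF N (by omega)
    have hexp : 1 ≤ Real.exp (EL.TT g N) := Real.one_le_exp (QMA_TT g N)
    have hexp0 : 0 < Real.exp (EL.TT g N) := Real.exp_pos _
    have hN0 : (0 : ℝ) ≤ N / Real.log N := by positivity
    have c0 : (Nat.card {D : ℤ // Squarefree D ∧ |D| ≤ (N : ℤ) ∧ ((g q).natDegree = 2 ∧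
      ∃ (u v g0 : ℤ) (e : ι → ℕ) (x : Co g → ℤ) (sg w : ι → ℤ), QMA_Dat g a C₀ M D u v g0 e x sg w ∧
        (∀ i, Nat.log 2 (e i) ≤ Nat.log 2 (e q)) ∧
        ∀ i, i ≠ q → (Nat.log 2 (e i) : ℝ) < (Nat.log 2 (e q) : ℝ) ^ (1 - 1 / (K : ℝ)))} : ℝ) ≤ _ :=
      Nat.cast_le.2 (h0.trans (Nat.add_le_add_left (h0'.trans (Nat.add_le_add_right b3 _)) _))
    rw [Nat.cast_add, Nat.cast_add] at c0
    have c1 := mul_le_mul_of_nonneg_right b4 hexp0.le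
    have c2 : (S.card : ℝ) ≤ η / 4 * (N / Real.log N) * Real.exp (EL.TT g N) := by
      refine b5.trans ?_
      exact le_mul_of_one_le_right (by positivity) hexp
    have c3 : 0 ≤ η / 4 * (N / Real.log N) * Real.exp (EL.TT g N) := by positivity
    have c4 : η * (N / Real.log N) * Real.exp (EL.TT g N) =
        4 * (η / 4 * (N / Real.log N) * Real.exp (EL.TT g N)) := by ring
    rw [c4]
    linarith

theorem main_q (Hq : ∀ (K : Type) [Field K] [NumberField K] (θ : Fin 5 → K), Function.Injective θ →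
      {x : K | IsSquare ((x - θ 0) * (x - θ 1) * (x - θ 2) * (x - θ 3)) ∧
        IsSquare ((x - θ 0) * (x - θ 1) * (x - θ 2) * (x - θ 4))}.Finite)
    {ι : Type} [Fintype ι] [DecidableEq ι] {g : ι → ℤ[X]} (hg : TW.Fam g) (h2 : ∀ i, 2 ≤ (g i).natDegree)
    (h8 : 8 ≤ ∑ i, (g i).natDegree) (a : ℤ) (ha : a ≠ 0) (η : ℝ) (hη : 0 < η) :
    ∃ N0 : ℕ, ∀ N : ℕ, N0 ≤ N → (Nat.card {D : ℤ // Squarefree D ∧ |D| ≤ (N : ℤ) ∧ ∃ u v : ℤ, IsCoprime u v ∧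
      (∀ i, PT.hom (g i) u v ≠ 0) ∧ IsSquare (D * a * ∏ i, PT.hom (g i) u v)} : ℝ) ≤
      η * (N / Real.log N) * Real.exp (EL.TT g N) := by
  obtain ⟨C₀, M, hC, hM, hdesc⟩ := desc5 (fam_TR hg) a ha
  obtain ⟨C', δ1, K, hδ1, hC', hK, hsv⟩ := EN.sv3 hg h2 M hM (2 * C₀) (by linarith)
  obtain ⟨A1, hA1, hgood⟩ := EN.good_part hg C₀ hC M K hM C' δ1 hδ1 hC' hsv
  have hc0 : (0 : ℝ) ≤ Fintype.card ι := Nat.cast_nonneg _
  have hη' : 0 < η / (2 * (Fintype.card ι : ℝ) + 2) := by positivity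
  choose N0 hN0 using QMA_q Hq hg h2 h8 a ha C₀ hC M hM K hK (η / (2 * (Fintype.card ι : ℝ) + 2)) hη'
  obtain ⟨N1, hN1, hlim⟩ := QMA_lim A1 (δ1 / 2) (η / 2) (by linarith) (by linarith)
  refine ⟨N1 + ∑ q, N0 q, fun N hN => ?_⟩
  have hle : ∀ q, N0 q ≤ ∑ q, N0 q := fun q =>
    Finset.single_le_sum (f := N0) (fun _ _ => Nat.zero_le _) (mem_univ q)
  have h0 := QMA_split (κ := ι) N (fun D => ∃ u v : ℤ, IsCoprime u v ∧
      (∀ i, PT.hom (g i) u v ≠ 0) ∧ IsSquare (D * a * ∏ i, PT.hom (g i) u v))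
    (fun D => ∃ (g0 : ℤ) (e : ι → ℕ) (x : Co g → ℤ),
      EN.Dat g C₀ M D g0 e x ∧ EN.GdJ g K (fun i => Nat.log 2 (e i)))
    (fun q D => ((g q).natDegree = 2 ∧
      ∃ (u v g0 : ℤ) (e : ι → ℕ) (x : Co g → ℤ) (sg w : ι → ℤ), QMA_Dat g a C₀ M D u v g0 e x sg w ∧
        (∀ i, Nat.log 2 (e i) ≤ Nat.log 2 (e q)) ∧
        ∀ i, i ≠ q → (Nat.log 2 (e i) : ℝ) < (Nat.log 2 (e q) : ℝ) ^ (1 - 1 / (K : ℝ)))) (by
      rintro D hD hDN ⟨u, v, huv, hh, hsq⟩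
      obtain ⟨g0, e, x, sg, w, d1, d2, d3, d4, d5, d6, d7, d8, d9⟩ := hdesc D hD u v huv hh hsq
      have hdat : EN.Dat g C₀ M D g0 e x := ⟨d1, d2, d3, d4, d5, d6, d7⟩
      by_cases hG : EN.GdJ g K (fun i => Nat.log 2 (e i))
      · exact Or.inl ⟨g0, e, x, hdat, hG⟩
      · right
        have hne : Nonempty ι := by
          by_contra hempty
          rw [not_nonempty_iff] at hempty
          have := hg.six
          rw [Finset.univ_eq_empty, Finset.sum_empty] at this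
          omega
        obtain ⟨q, hq⟩ := Finite.exists_max (fun i => Nat.log 2 (e i))
        have hG1 : ¬ (3 ≤ (g q).natDegree ∨ ∃ i₁, i₁ ≠ q ∧
            ((Nat.log 2 (e q) : ℕ) : ℝ) ^ (1 - 1 / (K : ℝ)) ≤ ((Nat.log 2 (e i₁) : ℕ) : ℝ)) :=
          fun h => hG ⟨q, hq, h⟩
        rw [not_or] at hG1
        obtain ⟨hG2, hG3⟩ := hG1
        push Not at hG3
        refine ⟨q, ?_, u, v, g0, e, x, sg, w, ⟨huv, hh, hsq, hdat, d8, d9⟩, hq, hG3⟩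
        have := h2 q
        omega)
  have h1 : (Nat.card {D : ℤ // Squarefree D ∧ |D| ≤ (N : ℤ) ∧ ∃ u v : ℤ, IsCoprime u v ∧
      (∀ i, PT.hom (g i) u v ≠ 0) ∧ IsSquare (D * a * ∏ i, PT.hom (g i) u v)} : ℝ) ≤ _ := Nat.cast_le.2 h0
  rw [Nat.cast_add, Nat.cast_sum] at h1
  have b1 := hgood N (by omega)
  have b2 := mul_le_mul_of_nonneg_right (hlim N (by omega)) (Real.exp_pos (EL.TT g N)).le
  have b3 := Finset.sum_le_sum fun (q : ι) (_ : q ∈ univ) => hN0 q N (by have := hle q; omega)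
  rw [sum_const, card_univ, nsmul_eq_mul] at b3
  have hN2 : (2 : ℝ) ≤ N := by
    have : 2 ≤ N := by omega
    exact_mod_cast this
  have hlog : 0 < Real.log N := Real.log_pos (by linarith)
  have hpos : 0 ≤ N / Real.log N * Real.exp (EL.TT g N) := by positivity
  have h3 : (Fintype.card ι : ℝ) * (η / (2 * (Fintype.card ι : ℝ) + 2)) ≤ η / 2 := by
    rw [← mul_div_assoc, div_le_div_iff₀ (by positivity) (by norm_num)]
    nlinarith
  have h4 : (Fintype.card ι : ℝ) * (η / (2 * (Fintype.card ι : ℝ) + 2) * (N / Real.log N) *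
      Real.exp (EL.TT g N)) ≤ η / 2 * (N / Real.log N * Real.exp (EL.TT g N)) := by
    have := mul_le_mul_of_nonneg_right h3 hpos
    linarith
  linarith

end QV
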