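import Pool.Agent.Lib.MP_10e784_agQV.QD2
import Pool.Agent.Lib.MP_10e784_agQV.QA6

/-! JOB QMB.  The twists with a part outside `e q` in the middle range.  MODEL: `QV.mid_pair` (file MB.lean, proved).
`ε` from `mid_q`.  Write `d = ∏_{k ≠ q} e k`, `z = e q`, `σ = ∏_{k ≠ q} sg k`.  `g0 ≠ 0` divides `M`, `σ` lies in the finite set `Sg` of the nonzero integers with `|σ| ≤ M ^ card ι`, `D = g0 d z`, so `d z ≤ N`; `z` is squarefree and `loc_q` shows that `z` is counted in `zq g q (σ * d) M (N / d)`; `d` is squarefree, `Q0 < d ≤ exp ((log N) ^ ε)`.  `D` is determined by `(g0, d, z)`.  So the number is at most `∑_{g0 ∈ Icc (-M) M} ∑_{σ ∈ Sg} ∑_d zq (..)`; `mid_q` for all `σ ∈ Sg` and `η' = η / ((2 M + 1) card Sg)`, `Q0`, `N0` = the maxima over `Sg`. -/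

set_option autoImplicit false

namespace QV

open Finset Polynomial TW TR

private theorem QMB_card {α : Type} (P : α → Prop) (S : Finset α) (h : ∀ a, P a → a ∈ S) : Nat.card {a // P a} ≤ S.card := by
  have h1 := Nat.card_le_card_of_injective (fun a : {a // P a} => (⟨a.1, h a.1 a.2⟩ : {x // x ∈ S}))
    (fun a b hab => Subtype.ext (congrArg (fun z : {x // x ∈ S} => z.1) hab))
  have h2 : Nat.card {x // x ∈ S} = S.card := by simp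
  rwa [h2] at h1

open Classical in
private noncomputable def QMBZ {ι : Type} [Fintype ι] [DecidableEq ι] (g : ι → ℤ[X]) (q : ι) (c : ℤ) (M x : ℕ) : Finset ℕ :=
  (range (x + 1)).filter fun z => 1 ≤ z ∧ z ≤ x ∧ Squarefree z ∧ ∀ p : ℕ, p.Prime → p ∣ z → ¬ p ∣ M →
    ∃ t : ZMod p, (red p (g q)).eval t = 0 ∧ IsSquare ((c : ZMod p) * (red p (fq g q)).eval t)

open Classical in
private theorem QMB_mem {ι : Type} [Fintype ι] [DecidableEq ι] (g : ι → ℤ[X]) (q : ι) (c : ℤ) (M x z : ℕ) :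
    z ∈ QMBZ g q c M x ↔ 1 ≤ z ∧ z ≤ x ∧ Squarefree z ∧ ∀ p : ℕ, p.Prime → p ∣ z → ¬ p ∣ M →
      ∃ t : ZMod p, (red p (g q)).eval t = 0 ∧ IsSquare ((c : ZMod p) * (red p (fq g q)).eval t) := by
  unfold QMBZ
  rw [mem_filter, mem_range]
  constructor
  · rintro ⟨_, h⟩
    exact h
  · rintro ⟨h1, h2, h3⟩
    exact ⟨by omega, h1, h2, h3⟩

private theorem QMB_zq {ι : Type} [Fintype ι] [DecidableEq ι] (g : ι → ℤ[X]) (q : ι) (c : ℤ) (M x : ℕ) :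
    zq g q c M x = (QMBZ g q c M x).card := by
  unfold zq
  exact Nat.subtype_card _ (fun z => QMB_mem g q c M x z)

private theorem QMB_prod {ι : Type} [Fintype ι] [DecidableEq ι] (F : Finset ι) (sg : ι → ℤ) (M : ℕ) (hM : M ≠ 0)
    (h : ∀ i, (sg i).natAbs ∣ M ∧ sg i ≠ 0) : (∏ k ∈ F, sg k).natAbs ≤ M ^ Fintype.card ι ∧ ∏ k ∈ F, sg k ≠ 0 := by
  constructor
  · have h1 : (∏ k ∈ F, sg k).natAbs = ∏ k ∈ F, (sg k).natAbs := map_prod Int.natAbsHom sg F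
    rw [h1]
    calc ∏ k ∈ F, (sg k).natAbs ≤ ∏ k ∈ F, M := prod_le_prod' fun k _ => Nat.le_of_dvd (Nat.pos_of_ne_zero hM) (h k).1
      _ = M ^ F.card := by rw [prod_const]
      _ ≤ M ^ Fintype.card ι := Nat.pow_le_pow_right (Nat.pos_of_ne_zero hM) (card_le_univ F)
  · exact prod_ne_zero_iff.2 fun k _ => (h k).2

theorem mid_D {ι : Type} [Fintype ι] [DecidableEq ι] {g : ι → ℤ[X]} (hg : TR.Fam g) (q : ι) (hq : Qd g q) :
    ∃ ε : ℝ, 0 < ε ∧ ε < 1 ∧ ∀ (M : ℕ) (η : ℝ), M ≠ 0 → 0 < η → ∃ Q0 N0 : ℕ, ∀ Q1 N : ℕ, Q0 ≤ Q1 → N0 ≤ N →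
      (Nat.card {D : ℤ // Squarefree D ∧ |D| ≤ (N : ℤ) ∧ ∃ (g0 : ℤ) (e : ι → ℕ) (sg w : ι → ℤ) (u v : ℤ), IsCoprime u v ∧
        g0.natAbs ∣ M ∧ D = g0 * ∏ i, (e i : ℤ) ∧ Squarefree (∏ i, e i) ∧
        (∀ i, (sg i).natAbs ∣ M ∧ sg i ≠ 0 ∧ PT.hom (g i) u v = sg i * e i * w i ^ 2) ∧
        Q1 < ∏ k ∈ univ.erase q, e k ∧
        ((∏ k ∈ univ.erase q, e k : ℕ) : ℝ) ≤ Real.exp (Real.log N ^ ε)} : ℝ) ≤
        η * (N / Real.log N) * Real.exp (EL.TT g N) := by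
  classical
  obtain ⟨ε, hε0, hε1, hmid⟩ := mid_q hg q hq
  refine ⟨ε, hε0, hε1, fun M η hM hη => ?_⟩
  obtain ⟨F, hF⟩ : ∃ F : Finset ι, F = univ.erase q := ⟨_, rfl⟩
  obtain ⟨B, hB⟩ : ∃ B : ℕ, B = M ^ Fintype.card ι := ⟨_, rfl⟩
  obtain ⟨Sg, hSg⟩ : ∃ Sg : Finset ℤ, Sg = (Icc (-(B : ℤ)) B).filter fun σ => σ ≠ 0 := ⟨_, rfl⟩
  obtain ⟨I0, hI0⟩ : ∃ I0 : Finset ℤ, I0 = Icc (-(M : ℤ)) M := ⟨_, rfl⟩
  obtain ⟨A, hA⟩ : ∃ A : ℝ, A = (I0.card : ℝ) * Sg.card := ⟨_, rfl⟩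
  have hA0 : 0 ≤ A := by rw [hA]; positivity
  have key : ∀ σ : ℤ, ∃ Q0 N0 : ℕ, σ ≠ 0 → ∀ N : ℕ, N0 ≤ N →
      (∑ d ∈ (Ioc Q0 ⌊Real.exp (Real.log N ^ ε)⌋₊ : Finset ℕ).filter Squarefree,
        (zq g q (σ * (d : ℤ)) M (N / d) : ℝ)) ≤ η / (A + 1) * (N / Real.log N) * Real.exp (EL.TT g N) := by
    intro σ
    by_cases hσ : σ = 0
    · exact ⟨0, 0, fun h => absurd hσ h⟩
    · obtain ⟨Q0, N0, h⟩ := hmid σ M (η / (A + 1)) hσ hM (by positivity)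
      exact ⟨Q0, N0, fun _ => h⟩
  choose fQ fN hfQ using key
  refine ⟨Sg.sup fQ, Sg.sup fN, ?_⟩
  intro Q1 N hQ hN
  obtain ⟨Ds, hDs⟩ : ∃ Ds : Finset ℕ, Ds = (Ioc Q1 ⌊Real.exp (Real.log N ^ ε)⌋₊ : Finset ℕ).filter Squarefree := ⟨_, rfl⟩
  have hmem : ∀ D : ℤ, (Squarefree D ∧ |D| ≤ (N : ℤ) ∧ ∃ (g0 : ℤ) (e : ι → ℕ) (sg w : ι → ℤ) (u v : ℤ), IsCoprime u v ∧
        g0.natAbs ∣ M ∧ D = g0 * ∏ i, (e i : ℤ) ∧ Squarefree (∏ i, e i) ∧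
        (∀ i, (sg i).natAbs ∣ M ∧ sg i ≠ 0 ∧ PT.hom (g i) u v = sg i * e i * w i ^ 2) ∧
        Q1 < ∏ k ∈ univ.erase q, e k ∧
        ((∏ k ∈ univ.erase q, e k : ℕ) : ℝ) ≤ Real.exp (Real.log N ^ ε)) →
      D ∈ (I0 ×ˢ (Sg ×ˢ Ds)).biUnion fun x => (QMBZ g q (x.2.1 * (x.2.2 : ℤ)) M (N / x.2.2)).image
        fun z : ℕ => x.1 * (x.2.2 : ℤ) * (z : ℤ) := by
    rintro D ⟨hD, hDN, g0, e, sg, w, u, v, huv, hg0, hDe, hsq, hsg, hlo, hhi⟩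
    rw [← hF] at hlo hhi
    obtain ⟨d, hd⟩ : ∃ d : ℕ, d = ∏ k ∈ F, e k := ⟨_, rfl⟩
    rw [← hd] at hlo hhi
    have hpe : ∏ i, e i = d * e q := by rw [hd, hF]; exact (prod_erase_mul _ _ (mem_univ q)).symm
    rw [hpe] at hsq
    have hd0 : d ≠ 0 := by
      intro h
      rw [h] at hlo
      omega
    have hz0 : e q ≠ 0 := by
      intro h
      rw [h, mul_zero] at hsq
      exact not_squarefree_zero hsq
    have hDe' : D = g0 * (d : ℤ) * ((e q : ℕ) : ℤ) := by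
      rw [hDe, mul_assoc]
      congr 1
      rw [← Nat.cast_mul, ← hpe]
      push_cast
      rfl
    have hg00 : g0 ≠ 0 := by
      intro h
      rw [h] at hDe'
      rw [zero_mul, zero_mul] at hDe'
      rw [hDe'] at hD
      exact not_squarefree_zero hD
    have hdz : d * e q ≤ N := by
      have h1 : |D| = |g0| * ((d * e q : ℕ) : ℤ) := by
        rw [hDe', mul_assoc, abs_mul, ← Nat.cast_mul, Nat.abs_cast]
      rw [h1] at hDN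
      have h2 : 1 ≤ |g0| := Int.one_le_abs hg00
      have h3 : ((d * e q : ℕ) : ℤ) ≤ |g0| * ((d * e q : ℕ) : ℤ) := by
        have h4 : (0 : ℤ) ≤ ((d * e q : ℕ) : ℤ) := Int.natCast_nonneg _
        nlinarith
      exact_mod_cast h3.trans hDN
    have hσ := QMB_prod F sg M hM fun i => ⟨(hsg i).1, (hsg i).2.1⟩
    rw [mem_biUnion]
    refine ⟨(g0, (∏ k ∈ F, sg k, d)), ?_, ?_⟩
    · rw [mem_product, mem_product]
      refine ⟨?_, ?_, ?_⟩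
      · rw [hI0, mem_Icc]
        have h1 : g0.natAbs ≤ M := Nat.le_of_dvd (Nat.pos_of_ne_zero hM) hg0
        have h2 : |g0| ≤ (M : ℤ) := by
          rw [Int.abs_eq_natAbs]
          exact_mod_cast h1
        exact abs_le.1 h2
      · rw [hSg, mem_filter, mem_Icc]
        refine ⟨?_, hσ.2⟩
        have h2 : |∏ k ∈ F, sg k| ≤ (B : ℤ) := by
          rw [Int.abs_eq_natAbs, hB]
          exact_mod_cast hσ.1
        exact abs_le.1 h2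
      · rw [hDs, mem_filter, mem_Ioc]
        exact ⟨⟨hlo, Nat.le_floor hhi⟩, Squarefree.of_mul_left hsq⟩
    · rw [mem_image]
      refine ⟨e q, ?_, hDe'.symm⟩
      rw [QMB_mem]
      refine ⟨Nat.pos_of_ne_zero hz0, ?_, Squarefree.of_mul_right hsq, ?_⟩
      · rw [Nat.le_div_iff_mul_le (Nat.pos_of_ne_zero hd0), mul_comm]
        exact hdz
      · intro p hp hpz _
        obtain ⟨t, ht1, ht2⟩ := loc_q hg q hq.1 u v huv sg w e (fun i => (hsg i).2.2) p hp hpz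
        rw [← hF, ← hd] at ht2
        exact ⟨t, ht1, ht2⟩
  have hcard : ∀ x ∈ I0 ×ˢ (Sg ×ˢ Ds), ((QMBZ g q (x.2.1 * (x.2.2 : ℤ)) M (N / x.2.2)).image
        fun z : ℕ => x.1 * (x.2.2 : ℤ) * (z : ℤ)).card ≤ zq g q (x.2.1 * (x.2.2 : ℤ)) M (N / x.2.2) := by
    intro x _
    rw [QMB_zq]
    exact card_image_le
  have h1 := (QMB_card _ _ hmem).trans ((card_biUnion_le).trans (sum_le_sum hcard))
  have h2 : (Nat.card {D : ℤ // Squarefree D ∧ |D| ≤ (N : ℤ) ∧ ∃ (g0 : ℤ) (e : ι → ℕ) (sg w : ι → ℤ) (u v : ℤ), IsCoprime u v ∧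
        g0.natAbs ∣ M ∧ D = g0 * ∏ i, (e i : ℤ) ∧ Squarefree (∏ i, e i) ∧
        (∀ i, (sg i).natAbs ∣ M ∧ sg i ≠ 0 ∧ PT.hom (g i) u v = sg i * e i * w i ^ 2) ∧
        Q1 < ∏ k ∈ univ.erase q, e k ∧
        ((∏ k ∈ univ.erase q, e k : ℕ) : ℝ) ≤ Real.exp (Real.log N ^ ε)} : ℝ) ≤
      ((∑ x ∈ I0 ×ˢ (Sg ×ˢ Ds), zq g q (x.2.1 * (x.2.2 : ℤ)) M (N / x.2.2) : ℕ) : ℝ) := by
    exact_mod_cast h1
  refine h2.trans ?_
  obtain ⟨W, hW⟩ : ∃ W : ℝ, W = (N / Real.log N) * Real.exp (EL.TT g N) := ⟨_, rfl⟩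
  have hW0 : 0 ≤ W := by
    rw [hW]
    exact mul_nonneg (div_nonneg (Nat.cast_nonneg _) (Real.log_natCast_nonneg N)) (Real.exp_pos _).le
  have hfW : ∀ σ : ℤ, σ ≠ 0 → fN σ ≤ N → (∑ d ∈ (Ioc (fQ σ) ⌊Real.exp (Real.log N ^ ε)⌋₊ : Finset ℕ).filter Squarefree,
        (zq g q (σ * (d : ℤ)) M (N / d) : ℝ)) ≤ η / (A + 1) * W := by
    intro σ hσ hN2
    have h3 := hfQ σ hσ N hN2
    rw [mul_assoc, ← hW] at h3
    exact h3
  rw [mul_assoc, ← hW, Nat.cast_sum, sum_product]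
  have h3 : ∀ g0 ∈ I0, ∑ y ∈ Sg ×ˢ Ds, ((zq g q (y.1 * (y.2 : ℤ)) M (N / y.2) : ℕ) : ℝ) ≤ Sg.card * (η / (A + 1) * W) := by
    intro g0 _
    rw [sum_product]
    have h4 : ∀ σ ∈ Sg, ∑ d ∈ Ds, ((zq g q (σ * (d : ℤ)) M (N / d) : ℕ) : ℝ) ≤ η / (A + 1) * W := by
      intro σ hσ
      have hσ0 : σ ≠ 0 := by
        rw [hSg, mem_filter] at hσ
        exact hσ.2
      refine le_trans ?_ (hfW σ hσ0 ((le_sup hσ).trans hN))
      refine sum_le_sum_of_subset_of_nonneg ?_ fun _ _ _ => Nat.cast_nonneg _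
      rw [hDs]
      refine filter_subset_filter _ ?_
      exact Ioc_subset_Ioc_left ((le_sup hσ).trans hQ)
    calc ∑ σ ∈ Sg, ∑ d ∈ Ds, ((zq g q (σ * (d : ℤ)) M (N / d) : ℕ) : ℝ) ≤ ∑ σ ∈ Sg, η / (A + 1) * W := sum_le_sum h4
      _ = Sg.card * (η / (A + 1) * W) := by rw [sum_const, nsmul_eq_mul]
  calc ∑ g0 ∈ I0, ∑ y ∈ Sg ×ˢ Ds, ((zq g q (y.1 * (y.2 : ℤ)) M (N / y.2) : ℕ) : ℝ) ≤
        ∑ g0 ∈ I0, Sg.card * (η / (A + 1) * W) := sum_le_sum h3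
    _ = A * (η / (A + 1) * W) := by
        rw [sum_const, nsmul_eq_mul, hA]
        ring
    _ ≤ η * W := by
        have h5 : A * (η / (A + 1)) ≤ η := by
          rw [mul_div_assoc', div_le_iff₀ (by positivity)]
          nlinarith
        calc A * (η / (A + 1) * W) = A * (η / (A + 1)) * W := by ring
          _ ≤ η * W := mul_le_mul_of_nonneg_right h5 hW0

end QV
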