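import Pool.Agent.Lib.MP_10e784_agQV.QD
import Pool.Agent.Lib.MP_10e784_agTR.TWNrm

/-! JOB QR1.  The local condition at a root of `g q`.  MODEL: `QV.al_sq` (file R1.lean, proved).
`X - C t` divides `red p (g q)` and `pol g w q`, so the second alternative of `Al` holds, with some `i₀, t', s'`; as in the model `i₀ = q` and `t' = t` (otherwise `h = X - C t` would not divide `pol g w q`: if `i₀ ≠ q` then `t ≠ t'` since `red p (∏ g)` is squarefree).  For `k ≠ q` all the irreducible factors `h` of `red p (g k)` are `≠ X - C t`, so `pol g w k * C s' * (C t - X)` is a square modulo each `h`; `TR.res_sq`: `resultant (red p (g k)) (pol g w k * C s' * (C t - X)) n n` is a square; it is `s' ^ n * resultant (red p (g k)) (pol g w k) n n * (red p (g k)).eval t` (`resultant` of `g k` and `C t - X` is `g k (t)`, monic; `resultant_mul_right`, the formal degrees do not matter for monic `g k`; `natDegree (pol g w k) < n`).  The product over `k ≠ q`: `s' ^ (∑_{k ≠ q} n k) * mq * fq(t)`, and the exponent is even (`hg.even`, `natDegree (g q) = 2`). -/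

set_option autoImplicit false

namespace QV

open Finset Polynomial TW TR

private theorem QR1_deg {ι R : Type} [CommRing R] (g : ι → ℤ[X]) (x : Co g → R) (i : ι) :
    (pol g x i).degree < ((g i).natDegree : WithBot ℕ) := by
  unfold pol
  exact Polynomial.degree_sum_fin_lt (fun c : Fin (g i).natDegree => x ⟨i, c⟩)

private theorem QR1_nd {ι R : Type} [CommRing R] (g : ι → ℤ[X]) (x : Co g → R) (i : ι) (h : 1 ≤ (g i).natDegree) :
    (pol g x i).natDegree + 1 ≤ (g i).natDegree := by
  by_cases h0 : pol g x i = 0
  · rw [h0, natDegree_zero]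
    exact h
  · have h1 := QR1_deg g x i
    rw [degree_eq_natDegree h0] at h1
    have h2 : (pol g x i).natDegree < (g i).natDegree := by exact_mod_cast h1
    omega

private theorem QR1_fd {R : Type} [CommRing R] (f G : R[X]) (hf : f.Monic) {N : ℕ} (hN : G.natDegree ≤ N) :
    resultant f G f.natDegree N = resultant f G f.natDegree G.natDegree := by
  obtain ⟨k, rfl⟩ := Nat.exists_eq_add_of_le hN
  rw [resultant_add_right_deg _ _ _ _ k le_rfl, hf.coeff_natDegree, one_pow, one_mul]

private theorem QR1_res {F : Type} [Field F] (f a : F[X]) (hf : f.Monic) (s t : F) (ha : a.natDegree + 1 ≤ f.natDegree) :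
    resultant f (a * C s * (C t - X)) f.natDegree f.natDegree =
      s ^ f.natDegree * resultant f a f.natDegree f.natDegree * f.eval t := by
  have h1 : a * C s * (C t - X) = C s * (a * (C t - X)) := by ring
  have hb : (C t - X : F[X]).natDegree = 1 := by
    rw [← neg_sub, natDegree_neg, natDegree_X_sub_C]
  have h2 : (a * (C t - X)).natDegree ≤ a.natDegree + (C t - X : F[X]).natDegree := natDegree_mul_le
  have h3 : (a * (C t - X)).natDegree ≤ f.natDegree := by omega
  have h4 : resultant f (C t - X) f.natDegree 1 = f.eval t := by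
    have h5 : (C t - X : F[X]) = C (-1) * (X - C t) := by
      rw [C_neg, C_1]
      ring
    rw [h5, resultant_C_mul_right, resultant_X_sub_C_right _ _ _ le_rfl, ← mul_assoc, ← mul_pow, neg_one_mul, neg_neg,
      one_pow, one_mul]
  rw [h1, resultant_C_mul_right, QR1_fd f _ hf h3, ← QR1_fd f _ hf h2, resultant_mul_right _ _ _ _ le_rfl, hb, h4,
    ← QR1_fd f a hf (by omega : a.natDegree ≤ f.natDegree)]
  ring

theorem al_sq_q {ι : Type} [Fintype ι] [DecidableEq ι] {g : ι → ℤ[X]} (hg : TR.Fam g) (q : ι) (hq : (g q).natDegree = 2)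
    (p : ℕ) (hp : GoodP g p) (x : Co g → ℤ) (hal : Al g p (fun c => (x c : ZMod p))) (t : ZMod p)
    (ht : (red p (g q)).eval t = 0) (hz : (pol g (fun c => (x c : ZMod p)) q).eval t = 0) :
    IsSquare (((mq g q x : ℤ) : ZMod p) * (red p (fq g q)).eval t) := by
  have : Fact p.Prime := ⟨hp.prime⟩
  obtain ⟨w, hw⟩ : ∃ w : Co g → ZMod p, w = fun c => ((x c : ℤ) : ZMod p) := ⟨_, rfl⟩
  rw [← hw] at hal hz
  have hdq : X - C t ∣ red p (g q) := dvd_iff_isRoot.2 ht
  have hdw : X - C t ∣ pol g w q := dvd_iff_isRoot.2 hz
  rcases hal with hal | ⟨i₀, t', s', hs', -, -, hall⟩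
  · exact absurd hdw (hal q (X - C t) (monic_X_sub_C t) (irreducible_X_sub_C t) hdq)
  · have htt : X - C t = X - C t' := by
      by_contra hne
      exact (hall q (X - C t) (monic_X_sub_C t) (irreducible_X_sub_C t) hdq hne).1 hdw
    have htt' : t' = t := by
      have h1 : C t = C t' := by linear_combination -htt
      exact (C_injective h1).symm
    subst htt'
    have hnd : ∀ k, k ≠ q → ¬ X - C t' ∣ red p (g k) := by
      intro k hk hd
      have h1 := hp.sqf
      have h2 : (X - C t') * (X - C t') ∣ red p (∏ i, g i) := by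
        have h3 : red p (∏ i, g i) = red p (g q) * (red p (g k) * ∏ i ∈ (univ.erase q).erase k, red p (g i)) := by
          rw [Finset.mul_prod_erase (univ.erase q) (fun i => red p (g i)) (Finset.mem_erase.2 ⟨hk, Finset.mem_univ k⟩),
            Finset.mul_prod_erase univ (fun i => red p (g i)) (Finset.mem_univ q)]
          unfold red
          rw [Polynomial.map_prod]
        rw [h3]
        exact mul_dvd_mul hdq (hd.mul_right _)
      exact (irreducible_X_sub_C t').not_isUnit (h1 _ h2)
    have hres : ∀ k, ((resultant (g k) (pol g x k) (g k).natDegree (g k).natDegree : ℤ) : ZMod p) =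
        resultant (red p (g k)) (pol g w k) (g k).natDegree (g k).natDegree := by
      intro k
      have h1 := resultant_map_map (g k) (pol g x k) (g k).natDegree (g k).natDegree (Int.castRingHom (ZMod p))
      have h2 : (pol g x k).map (Int.castRingHom (ZMod p)) = pol g w k := by
        have h3 := TR.pol_map (Int.castRingHom (ZMod p)) g x k
        simp only [Int.coe_castRingHom] at h3
        rw [h3, hw]
      rw [h2] at h1
      exact h1.symm
    have hpos : ∀ k, 1 ≤ (g k).natDegree := by
      intro k
      have h1 := (hg.irr k).natDegree_pos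
      rwa [(hg.monic k).natDegree_map] at h1
    have hsq : ∀ k, k ≠ q → IsSquare (s' ^ (g k).natDegree *
        ((resultant (g k) (pol g x k) (g k).natDegree (g k).natDegree : ℤ) : ZMod p) * (red p (g k)).eval t') := by
      intro k hk
      have e1 := (TR.red_monic hg p k).2
      have e2 : (pol g w k).natDegree + 1 ≤ (red p (g k)).natDegree := by
        rw [e1]
        exact QR1_nd g w k (hpos k)
      have h5 : (pol g w k * C s' * (C t' - X)).natDegree ≤ (red p (g k)).natDegree := by
        have h6 : (pol g w k * C s').natDegree ≤ (pol g w k).natDegree := natDegree_mul_C_le _ _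
        have h7 : (C t' - X : (ZMod p)[X]).natDegree = 1 := by
          rw [← neg_sub, natDegree_neg, natDegree_X_sub_C]
        have h8 := natDegree_mul_le (p := pol g w k * C s') (q := C t' - X)
        omega
      have h4 := TR.res_sq (red p (g k)) (pol g w k * C s' * (C t' - X)) (TR.red_monic hg p k).1
        (TR.red_sqf hg p hp k) (fun h hm hirr hdvd => by
          have hne : h ≠ X - C t' := by
            rintro rfl
            exact hnd k hk hdvd
          exact (hall k h hm hirr hdvd hne).2) (red p (g k)).natDegree h5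
      rw [QR1_res _ _ (TR.red_monic hg p k).1 _ _ e2, e1, ← hres k] at h4
      exact h4
    have hprod : IsSquare (∏ k ∈ univ.erase q, (s' ^ (g k).natDegree *
        ((resultant (g k) (pol g x k) (g k).natDegree (g k).natDegree : ℤ) : ZMod p) * (red p (g k)).eval t')) :=
      Finset.prod_induction _ IsSquare (fun a b ha hb => ha.mul hb) ⟨1, by simp⟩ fun i hi =>
        hsq i (Finset.ne_of_mem_erase hi)
    have hev : ∏ k ∈ univ.erase q, (red p (g k)).eval t' = (red p (fq g q)).eval t' := by
      unfold fq red
      rw [Polynomial.map_prod, eval_prod]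
    rw [Finset.prod_mul_distrib, Finset.prod_mul_distrib, Finset.prod_pow_eq_pow_sum, ← Int.cast_prod, hev] at hprod
    have heven : Even (∑ k ∈ univ.erase q, (g k).natDegree) := by
      have h5 := Finset.sum_erase_add univ (fun i => (g i).natDegree) (Finset.mem_univ q)
      have h6 := hg.even
      simp only [hq] at h5
      obtain ⟨b, hb⟩ := h6
      refine ⟨b - 1, ?_⟩
      omega
    obtain ⟨k, hk⟩ := heven
    rw [hk] at hprod
    obtain ⟨z, hz'⟩ := hprod
    refine ⟨z * (s' ^ k)⁻¹, ?_⟩
    have hsk : s' ^ k ≠ 0 := pow_ne_zero k hs'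
    have h8 : z * (s' ^ k)⁻¹ * (z * (s' ^ k)⁻¹) = (z * z) * ((s' ^ k)⁻¹ * (s' ^ k)⁻¹) := by ring
    rw [h8, ← hz', pow_add, mq]
    field_simp

end QV
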