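import Pool.Agent.Lib.MP_10e784_agQV.S0

/-! JOB QS0.  The choice of the dyadic range of the top primes.  COPY of `QV.top_range` (file S0.lean, proved), with three more facts: `2 ^ a ≤ 2 zz (kst + 1)` and `zz (K - 1) ≤ 2 * 2 ^ b` (from `a = ⌈x⌉₊`, `b = ⌊y⌋₊`), `M1 < 2 ^ a` (`a` is large with `L`), and `32` in place of `8`. -/

set_option autoImplicit false

namespace QV

open Finset TW

private theorem QS0_lam {K : ℕ} (hK : 0 < K) {Λ : ℝ} (hΛ : 0 ≤ Λ) {L : ℝ} (hL : Λ ^ K ≤ L) : Λ ≤ lam K L := by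
  unfold lam
  rw [one_div]
  calc Λ = (Λ ^ K) ^ ((K : ℝ)⁻¹) := (Real.pow_rpow_inv_natCast hΛ hK.ne').symm
    _ ≤ L ^ ((K : ℝ)⁻¹) := Real.rpow_le_rpow (by positivity) hL (by positivity)

private theorem QS0_pow (η : ℝ) (hη : 0 < η) : ∃ i0 : ℕ, ∀ i : ℕ, i0 ≤ i → ∀ Q : ℝ, 0 ≤ Q → Q ^ 8 ≤ 2 ^ i →
    8 * Q ^ 2 * (i : ℝ) ^ 2 ≤ η ^ 2 * 2 ^ i := by
  have h1 : Filter.Tendsto (fun n : ℕ => (n : ℝ) ^ 8 / (8 : ℝ) ^ n) Filter.atTop (nhds 0) :=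
    tendsto_pow_const_div_const_pow_of_one_lt 8 (by norm_num)
  have h2 : ∀ᶠ n : ℕ in Filter.atTop, (n : ℝ) ^ 8 / (8 : ℝ) ^ n < η ^ 8 / 4096 :=
    h1.eventually_lt_const (by positivity)
  obtain ⟨i0, hi0⟩ := Filter.eventually_atTop.1 h2
  refine ⟨i0, fun i hi Q hQ hQ8 => ?_⟩
  have h3 := (hi0 i hi).le
  have h8 : (0 : ℝ) < (8 : ℝ) ^ i := by positivity
  rw [div_le_iff₀ h8] at h3
  refine le_of_pow_le_pow_left₀ (n := 4) (by norm_num) (by positivity) ?_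
  have e1 : (8 * Q ^ 2 * (i : ℝ) ^ 2) ^ 4 = 4096 * Q ^ 8 * (i : ℝ) ^ 8 := by ring
  have e2 : (η ^ 2 * (2 : ℝ) ^ i) ^ 4 = η ^ 8 * ((8 : ℝ) ^ i * 2 ^ i) := by
    rw [← mul_pow, show (8 : ℝ) * 2 = 2 ^ 4 by norm_num, ← pow_mul, mul_pow, ← pow_mul, ← pow_mul]
    congr 2
    ring
  rw [e1, e2]
  calc 4096 * Q ^ 8 * (i : ℝ) ^ 8 ≤ 4096 * 2 ^ i * (i : ℝ) ^ 8 := by
        gcongr
    _ ≤ 4096 * 2 ^ i * (η ^ 8 / 4096 * 8 ^ i) := by
        gcongr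
    _ = η ^ 8 * ((8 : ℝ) ^ i * 2 ^ i) := by ring

theorem top_range_q (K : ℕ) (hK : 0 < K) (s : ℕ) (A η : ℝ) (hA : 1 ≤ A) (hη : 0 < η) (M1 : ℕ) : ∃ (L1 : ℕ), 1 ≤ L1 ∧
    ∀ L kst m : ℕ, L1 ≤ L → kst + 2 < K → (m : ℝ) ≤ s * lam K L ^ (kst + 1) →
      ∃ a b Q : ℕ, 1 ≤ a ∧ a ≤ b ∧ b ≤ 2 * L ∧ A * 2 ^ m ≤ Q ∧ Q < 2 ^ a ∧ M1 < 2 ^ a ∧
        (∀ i : ℕ, a ≤ i → 32 * (Q : ℝ) ^ 2 * (i : ℝ) ^ 2 ≤ η ^ 2 * 2 ^ i) ∧
        zz K L (kst + 1) ≤ 2 ^ a ∧ (2 : ℝ) ^ a ≤ 2 * zz K L (kst + 1) ∧ (2 : ℝ) ^ b ≤ zz K L (K - 1) ∧ zz K L (K - 1) ≤ 2 * 2 ^ b := by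
  have hA0 : 0 < A := by linarith
  obtain ⟨i0, hi0⟩ := QS0_pow (η / 2) (by positivity)
  obtain ⟨N1, hN1⟩ := pow_unbounded_of_one_lt ((A + 1) ^ 16) (by norm_num : (1 : ℝ) < 2)
  obtain ⟨Λ0, hΛ0⟩ : ∃ Λ0 : ℝ, Λ0 = 4 + (16 * s) ^ 2 + i0 + N1 + M1 := ⟨_, rfl⟩
  have hM10 : (0 : ℝ) ≤ M1 := Nat.cast_nonneg _
  have hΛ04 : 4 ≤ Λ0 := by
    rw [hΛ0]
    have : (0 : ℝ) ≤ (16 * (s : ℝ)) ^ 2 := by positivity
    have h2 : (0 : ℝ) ≤ i0 := Nat.cast_nonneg _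
    have h3 : (0 : ℝ) ≤ N1 := Nat.cast_nonneg _
    linarith
  refine ⟨⌈Λ0 ^ K⌉₊ + 1, by omega, fun L kst m hL hk hm => ?_⟩
  have hLr : Λ0 ^ K ≤ (L : ℝ) := (Nat.le_ceil _).trans (by exact_mod_cast (by omega : ⌈Λ0 ^ K⌉₊ ≤ L))
  have hLpos : (0 : ℝ) < L := lt_of_lt_of_le (by positivity) hLr
  obtain ⟨l, hl⟩ : ∃ l, l = lam K (L : ℝ) := ⟨_, rfl⟩
  have hlΛ : Λ0 ≤ l := by
    rw [hl]
    exact QS0_lam hK (by linarith) hLr
  have hl4 : 4 ≤ l := hΛ04.trans hlΛ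
  have hl0 : 0 < l := by linarith
  have hl1 : 1 ≤ l := by linarith
  have hls : (16 * (s : ℝ)) ^ 2 ≤ l := by
    refine le_trans ?_ hlΛ
    rw [hΛ0]
    have h2 : (0 : ℝ) ≤ i0 := Nat.cast_nonneg _
    have h3 : (0 : ℝ) ≤ N1 := Nat.cast_nonneg _
    linarith
  have hli : (i0 : ℝ) ≤ l := by
    refine le_trans ?_ hlΛ
    rw [hΛ0]
    have : (0 : ℝ) ≤ (16 * (s : ℝ)) ^ 2 := by positivity
    have h3 : (0 : ℝ) ≤ N1 := Nat.cast_nonneg _
    linarith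
  have hlN : (N1 : ℝ) ≤ l := by
    refine le_trans ?_ hlΛ
    rw [hΛ0]
    have : (0 : ℝ) ≤ (16 * (s : ℝ)) ^ 2 := by positivity
    have h3 : (0 : ℝ) ≤ i0 := Nat.cast_nonneg _
    linarith
  have hlM : (M1 : ℝ) ≤ l := by
    refine le_trans ?_ hlΛ
    rw [hΛ0]
    have : (0 : ℝ) ≤ (16 * (s : ℝ)) ^ 2 := by positivity
    have h2 : (0 : ℝ) ≤ N1 := Nat.cast_nonneg _
    have h3 : (0 : ℝ) ≤ i0 := Nat.cast_nonneg _
    linarith
  rw [← hl] at hm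
  have hlK : l ^ K = L := by
    rw [hl]
    unfold lam
    rw [one_div, Real.rpow_inv_natCast_pow hLpos.le hK.ne']
  have hloglam : Real.log l = Real.log L / K := by
    rw [hl]
    unfold lam
    rw [Real.log_rpow hLpos]
    ring
  have ht0 : 0 < Real.log 2 := Real.log_pos (by norm_num)
  have ht1 : Real.log 2 ≤ 1 := by
    have := Real.log_two_lt_d9
    linarith
  have ht2 : 1 / 2 ≤ Real.log 2 := by
    have := Real.log_two_gt_d9
    linarith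
  obtain ⟨t, ht⟩ : ∃ t, t = Real.log 2 := ⟨_, rfl⟩
  rw [← ht] at ht0 ht1 ht2
  have hpow2 : ∀ j : ℕ, (2 : ℝ) ^ j = Real.exp (j * t) := fun j => by
    rw [ht, mul_comm, Real.exp_mul, Real.exp_log (by norm_num), Real.rpow_natCast]
  obtain ⟨x, hx⟩ : ∃ x, x = l ^ (((kst + 1 : ℕ) : ℝ) + 1 / 2) := ⟨_, rfl⟩
  obtain ⟨y, hy⟩ : ∃ y, y = l ^ (((K - 1 : ℕ) : ℝ) + 1 / 2) := ⟨_, rfl⟩
  have hxz : zz K L (kst + 1) = Real.exp x := by
    rw [hx, hl]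
    rfl
  have hyz : zz K L (K - 1) = Real.exp y := by
    rw [hy, hl]
    rfl
  have hx1 : x = l ^ (kst + 1) * Real.sqrt l := by
    rw [hx, Real.rpow_add hl0, Real.rpow_natCast, Real.sqrt_eq_rpow]
  have hxl : l ≤ x := by
    rw [hx]
    calc l = l ^ (1 : ℝ) := (Real.rpow_one l).symm
      _ ≤ _ := Real.rpow_le_rpow_of_exponent_le hl1 (by push_cast; have : (0 : ℝ) ≤ kst := Nat.cast_nonneg _; linarith)
  have hx0 : 0 < x := lt_of_lt_of_le hl0 hxl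
  have hyx : y = x * l ^ (K - (kst + 2)) := by
    rw [hx, hy, ← Real.rpow_natCast, ← Real.rpow_add hl0]
    congr 1
    have h1 : ((K - 1 : ℕ) : ℝ) = (K : ℝ) - 1 := by
      rw [Nat.cast_sub (by omega), Nat.cast_one]
    have h2 : ((K - (kst + 2) : ℕ) : ℝ) = (K : ℝ) - (kst + 2) := by
      rw [Nat.cast_sub (by omega)]
      push_cast
      ring
    rw [h1, h2]
    push_cast
    ring
  have hyK : y ≤ L := by
    rw [hy, ← hlK, ← Real.rpow_natCast l K]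
    refine Real.rpow_le_rpow_of_exponent_le hl1 ?_
    rw [Nat.cast_sub (by omega), Nat.cast_one]
    linarith
  have hlp : 4 ≤ l ^ (K - (kst + 2)) := by
    calc (4 : ℝ) ≤ l := hl4
      _ = l ^ 1 := (pow_one l).symm
      _ ≤ _ := pow_le_pow_right₀ hl1 (by omega)
  have hyl : x * 4 ≤ y := by
    rw [hyx]
    exact mul_le_mul_of_nonneg_left hlp hx0.le
  obtain ⟨a, ha⟩ : ∃ a, a = ⌈x / t⌉₊ := ⟨_, rfl⟩
  obtain ⟨b, hb⟩ : ∃ b, b = ⌊y / t⌋₊ := ⟨_, rfl⟩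
  have hxt : x ≤ x / t := by
    rw [le_div_iff₀ ht0]
    exact mul_le_of_le_one_right hx0.le ht1
  have ha1 : x / t ≤ a := by
    rw [ha]
    exact Nat.le_ceil _
  have ha2 : (a : ℝ) ≤ 2 * x / t := by
    have h1 : (a : ℝ) < x / t + 1 := by
      rw [ha]
      exact Nat.ceil_lt_add_one (by positivity)
    have h2 : 1 ≤ x / t := by linarith
    have h3 : 2 * x / t = x / t + x / t := by ring
    linarith
  have hy0 : 0 ≤ y := by linarith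
  have hb1 : (b : ℝ) ≤ y / t := by
    rw [hb]
    exact Nat.floor_le (div_nonneg hy0 ht0.le)
  have hb2 : y / t / 2 ≤ b := by
    have h1 : y / t < b + 1 := by
      rw [hb]
      exact Nat.lt_floor_add_one _
    have h2 : y ≤ y / t := by
      rw [le_div_iff₀ ht0]
      exact mul_le_of_le_one_right hy0 ht1
    linarith
  have haR : (0 : ℝ) < a := by
    have h1 : 0 < x / t := by positivity
    linarith
  have haN : 1 ≤ a := by exact_mod_cast haR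
  have hal : l ≤ a := by linarith
  have hab4 : l ^ (K - (kst + 2)) / 4 ≤ (b : ℝ) / a := by
    rw [div_le_div_iff₀ (by norm_num) haR]
    calc l ^ (K - (kst + 2)) * a ≤ l ^ (K - (kst + 2)) * (2 * x / t) := by
          refine mul_le_mul_of_nonneg_left ha2 (by positivity)
      _ = (y / t / 2) * 4 := by
          rw [hyx]
          ring
      _ ≤ b * 4 := by linarith
  have hab : a ≤ b := by
    have h1 : 1 ≤ (b : ℝ) / a := by
      refine le_trans ?_ hab4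
      rw [le_div_iff₀ (by norm_num : (0 : ℝ) < 4)]
      linarith
    rw [le_div_iff₀ haR, one_mul] at h1
    exact_mod_cast h1
  -- `16 m ≤ a`
  have h16 : 16 * (m : ℝ) ≤ a := by
    have h1 : 16 * (s : ℝ) ≤ Real.sqrt l := Real.le_sqrt_of_sq_le hls
    have h2 : 0 ≤ l ^ (kst + 1) := by positivity
    have h3 : 16 * (m : ℝ) ≤ x := by
      rw [hx1]
      calc 16 * (m : ℝ) ≤ 16 * (s * l ^ (kst + 1)) := mul_le_mul_of_nonneg_left hm (by norm_num)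
        _ = l ^ (kst + 1) * (16 * s) := by ring
        _ ≤ _ := mul_le_mul_of_nonneg_left h1 h2
    linarith
  have h16N : 16 * m ≤ a := by exact_mod_cast h16
  obtain ⟨Q, hQ⟩ : ∃ Q, Q = ⌈A * 2 ^ m⌉₊ := ⟨_, rfl⟩
  have hQ1 : A * 2 ^ m ≤ (Q : ℝ) := by
    rw [hQ]
    exact Nat.le_ceil _
  have h2m : (1 : ℝ) ≤ 2 ^ m := one_le_pow₀ (by norm_num)
  have hQ2 : (Q : ℝ) ≤ (A + 1) * 2 ^ m := by
    have h1 : (Q : ℝ) < A * 2 ^ m + 1 := by
      rw [hQ]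
      exact Nat.ceil_lt_add_one (by positivity)
    linarith
  have hQ8 : (Q : ℝ) ^ 8 ≤ 2 ^ a := by
    refine le_of_pow_le_pow_left₀ (n := 2) (by norm_num) (by positivity) ?_
    calc ((Q : ℝ) ^ 8) ^ 2 = (Q : ℝ) ^ 16 := by ring
      _ ≤ ((A + 1) * 2 ^ m) ^ 16 := by gcongr
      _ = (A + 1) ^ 16 * 2 ^ (16 * m) := by
          rw [mul_pow, ← pow_mul, mul_comm m 16]
      _ ≤ 2 ^ a * 2 ^ a := by
          refine mul_le_mul ?_ (pow_le_pow_right₀ (by norm_num) h16N) (by positivity) (by positivity)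
          refine hN1.le.trans (pow_le_pow_right₀ (by norm_num) ?_)
          exact_mod_cast hlN.trans hal
      _ = (2 ^ a) ^ 2 := by ring
  have hQ8N : Q ^ 8 ≤ 2 ^ a := by exact_mod_cast hQ8
  refine ⟨a, b, Q, haN, hab, ?_, hQ1, ?_, ?_, fun i hi => ?_, ?_, ?_, ?_, ?_⟩
  · have h1 : (b : ℝ) ≤ 2 * L := by
      refine hb1.trans ?_
      rw [div_le_iff₀ ht0]
      calc y ≤ L := hyK
        _ = 2 * L * (1 / 2) := by ring
        _ ≤ 2 * L * t := mul_le_mul_of_nonneg_left ht2 (by positivity)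
    exact_mod_cast h1
  · rcases Nat.lt_or_ge 1 Q with h | h
    · calc Q = Q ^ 1 := (pow_one Q).symm
        _ < Q ^ 8 := Nat.pow_lt_pow_right h (by norm_num)
        _ ≤ 2 ^ a := hQ8N
    · calc Q ≤ 1 := h
        _ < 2 ^ a := Nat.one_lt_two_pow (by omega)
  · have h1 : (M1 : ℝ) ≤ a := hlM.trans hal
    have h2 : M1 ≤ a := by exact_mod_cast h1
    exact Nat.lt_two_pow_self.trans_le (Nat.pow_le_pow_right (by norm_num) h2)
  · have h1 : (i0 : ℝ) ≤ a := hli.trans hal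
    have h2 : i0 ≤ a := by exact_mod_cast h1
    have h3 := hi0 i (by omega) Q (Nat.cast_nonneg _) (hQ8.trans (pow_le_pow_right₀ (by norm_num) hi))
    have h4 : (η / 2) ^ 2 * (2 : ℝ) ^ i = η ^ 2 * 2 ^ i / 4 := by ring
    rw [h4] at h3
    linarith
  · rw [hxz, hpow2]
    refine Real.exp_le_exp.2 ?_
    rwa [div_le_iff₀ ht0] at ha1
  · have h1 : (a : ℝ) < x / t + 1 := by
      rw [ha]
      exact Nat.ceil_lt_add_one (by positivity)
    have h2 : (a : ℝ) * t ≤ x + t := by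
      have h3 := mul_le_mul_of_nonneg_right h1.le ht0.le
      rwa [add_mul, div_mul_cancel₀ _ ht0.ne', one_mul] at h3
    have h4 : (2 : ℝ) = Real.exp t := by
      rw [ht, Real.exp_log (by norm_num)]
    rw [hxz, hpow2]
    calc Real.exp (a * t) ≤ Real.exp (x + t) := Real.exp_le_exp.2 h2
      _ = 2 * Real.exp x := by
          rw [Real.exp_add, ← h4, mul_comm]
  · rw [hyz, hpow2]
    refine Real.exp_le_exp.2 ?_
    rwa [le_div_iff₀ ht0] at hb1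
  · have h1 : y / t < b + 1 := by
      rw [hb]
      exact Nat.lt_floor_add_one _
    have h2 : y ≤ b * t + t := by
      rw [div_lt_iff₀ ht0, add_mul, one_mul] at h1
      exact h1.le
    have h4 : (2 : ℝ) = Real.exp t := by
      rw [ht, Real.exp_log (by norm_num)]
    rw [hyz, hpow2]
    calc Real.exp y ≤ Real.exp (b * t + t) := Real.exp_le_exp.2 h2
      _ = 2 * Real.exp (b * t) := by
          rw [Real.exp_add, ← h4, mul_comm]

end QV
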