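import Pool.Agent.Lib.MP_10e784_agQV.QL2
import Pool.Agent.Lib.MP_10e784_agQV.QC

/-! JOB QT1.  The sum of the excluded proportions over the top primes.  MODEL: `QV.top_low` (file T1.lean, proved).
`M1` from `good_exists`.  For a prime `p ∈ (2 ^ a, 2 ^ b]`, `p ∤ M`, `p ∤ M1`, `p ∤ m` (as `|m| < 2 ^ a < p`): `nq = (rt - J(m | p) bt) / 2` (`bt_facts`), and `twq ≥ nq / p - 1 / p ^ 2` (`nq ≤ 2`).  So the sum is at least `∑ rt / (2 p) - (1/2) |∑ bt J / p| - 2 - (the primes dividing M1)`; `blocks_w`. -/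

set_option autoImplicit false

namespace QV

open Finset Polynomial TW TR

private theorem QT1_card {p : ℕ} [Fact p.Prime] (P : ZMod p → Prop) : Nat.card {t : ZMod p // P t} ≤ p := by
  have h := Finite.card_subtype_le P
  rwa [Nat.card_zmod] at h

private theorem QT1_div {p : ℕ} (hp : p.Prime) {c : ℝ} (hc : |c| ≤ p) (m : ℤ) : |c * (jacobiSym m p : ℝ) / p| ≤ 1 := by
  have hp0 : (0 : ℝ) < p := by exact_mod_cast hp.pos
  rw [abs_div, abs_mul, abs_of_pos hp0, div_le_one hp0]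
  have h1 : |(jacobiSym m p : ℝ)| ≤ 1 := by
    rcases jacobiSym.trichotomy m p with h | h | h <;> rw [h] <;> norm_num
  calc |c| * |(jacobiSym m p : ℝ)| ≤ |c| * 1 := mul_le_mul_of_nonneg_left h1 (abs_nonneg _)
    _ ≤ p := by rw [mul_one]; exact hc

private theorem QT1_bt {ι : Type} [Fintype ι] [DecidableEq ι] (g : ι → ℤ[X]) (q : ι) {p : ℕ} (hp : p.Prime) :
    |bt g q p| ≤ p := by
  have _ : Fact p.Prime := ⟨hp⟩
  have h1 := QT1_card (p := p) fun t => (red p (g q)).eval t = 0 ∧ (red p (fq g q)).eval t ≠ 0 ∧ IsSquare ((red p (fq g q)).eval t)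
  have h2 := QT1_card (p := p) fun t => (red p (g q)).eval t = 0 ∧ ¬ IsSquare ((red p (fq g q)).eval t)
  unfold bt
  have h3 : ((Nat.card {t : ZMod p // (red p (g q)).eval t = 0 ∧ (red p (fq g q)).eval t ≠ 0 ∧
      IsSquare ((red p (fq g q)).eval t)} : ℕ) : ℝ) ≤ p := by exact_mod_cast h1
  have h4 : ((Nat.card {t : ZMod p // (red p (g q)).eval t = 0 ∧ ¬ IsSquare ((red p (fq g q)).eval t)} : ℕ) : ℝ) ≤ p := by
    exact_mod_cast h2
  have h5 : (0 : ℝ) ≤ ((Nat.card {t : ZMod p // (red p (g q)).eval t = 0 ∧ (red p (fq g q)).eval t ≠ 0 ∧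
      IsSquare ((red p (fq g q)).eval t)} : ℕ) : ℝ) := Nat.cast_nonneg _
  have h6 : (0 : ℝ) ≤ ((Nat.card {t : ZMod p // (red p (g q)).eval t = 0 ∧ ¬ IsSquare ((red p (fq g q)).eval t)} : ℕ) : ℝ) :=
    Nat.cast_nonneg _
  rw [abs_le]
  constructor <;> linarith

private theorem QT1_twq {ι : Type} [Fintype ι] [DecidableEq ι] (g : ι → ℤ[X]) (q : ι) (m : ℤ) {p : ℕ} (hp : p.Prime) :
    0 ≤ twq g q m p := by
  have _ : Fact p.Prime := ⟨hp⟩
  have h1 : ((nq g q m p : ℕ) : ℝ) ≤ p := by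
    have h2 : nq g q m p ≤ p := QT1_card _
    exact_mod_cast h2
  have h3 : (0 : ℝ) ≤ ((nq g q m p : ℕ) : ℝ) := Nat.cast_nonneg _
  have hp0 : (0 : ℝ) < p := by exact_mod_cast hp.pos
  unfold twq
  have h4 : (nq g q m p : ℝ) / p = (nq g q m p : ℝ) * p / (p : ℝ) ^ 2 := by
    field_simp
  rw [h4, ← sub_div]
  refine div_nonneg ?_ (by positivity)
  nlinarith

private theorem QT1_rt (G : ℤ[X]) {p : ℕ} (hp : p.Prime) : (PT.rt G p : ℝ) / (2 * p) ≤ 1 / 2 := by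
  have _ : Fact p.Prime := ⟨hp⟩
  have h2 : PT.rt G p ≤ p := QT1_card _
  have h1 : (PT.rt G p : ℝ) ≤ p := by exact_mod_cast h2
  have hp0 : (0 : ℝ) < p := by exact_mod_cast hp.pos
  rw [div_le_iff₀ (by positivity)]
  linarith

open Classical in
theorem top_low_q {ι : Type} [Fintype ι] [DecidableEq ι] {g : ι → ℤ[X]} (hg : TR.Fam g) (q : ι) (hq : (g q).natDegree = 2)
    (M : ℕ) (hM : M ≠ 0) : ∃ C : ℝ, 0 ≤ C ∧ ∀ (m : ℤ) (a b : ℕ) (η : ℝ), 0 ≤ η → η ≤ 1 → 1 ≤ a → a ≤ b → m ≠ 0 →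
    |m| < 2 ^ a → (∀ i ∈ Ico a b, |sw (bt g q) m i| ≤ η / i) →
    (∑ p ∈ (Ioc (2 ^ a) (2 ^ b)).filter (fun p => p.Prime ∧ ¬ p ∣ M), (PT.rt (g q) p : ℝ) / (2 * p)) - η * Real.log ((b : ℝ) / a) - C ≤
      ∑ p ∈ (Ioc (2 ^ a) (2 ^ b)).filter (fun p => p.Prime ∧ ¬ p ∣ M), twq g q m p := by
  obtain ⟨M1, hM1, hgood⟩ := TR.good_exists hg
  refine ⟨2 + M.divisors.card + M1.divisors.card, by positivity, fun m a b η hη hη1 ha hab hm hb hs => ?_⟩
  obtain ⟨S, hS⟩ : ∃ S : Finset ℕ, S = (Ioc (2 ^ a) (2 ^ b)).filter Nat.Prime := ⟨_, rfl⟩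
  have hSm : ∀ p ∈ S, p.Prime ∧ 2 ^ a < p ∧ p ≤ 2 ^ b := by
    intro p hp
    rw [hS, mem_filter, mem_Ioc] at hp
    exact ⟨hp.2, hp.1⟩
  have h1 := (abs_le.1 (blocks_w (bt g q) m a b ha hab η hη hs)).2
  rw [← hS] at h1
  have h6 : ∀ p ∈ S, (if p ∣ M then 0 else (PT.rt (g q) p : ℝ) / (2 * p)) ≤
      (if p ∣ M then 0 else twq g q m p) + (bt g q p * (jacobiSym m p : ℝ) / p) / 2 + ((p : ℝ) ^ 2)⁻¹ +
        (if p ∣ M then 1 else 0) + (if p ∣ M1 then 1 else 0) := by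
    intro p hp
    obtain ⟨hp1, hp2, -⟩ := hSm p hp
    have hp0 : (0 : ℝ) < p := by exact_mod_cast hp1.pos
    have e5 : (0 : ℝ) ≤ ((p : ℝ) ^ 2)⁻¹ := by positivity
    have e6 := (abs_le.1 (QT1_div hp1 (QT1_bt g q hp1) m)).1
    have e7 : (0 : ℝ) ≤ if p ∣ M1 then 1 else 0 := by
      split_ifs
      · exact zero_le_one
      · exact le_refl _
    by_cases hM' : p ∣ M
    · rw [if_pos hM', if_pos hM', if_pos hM']
      linarith
    · rw [if_neg hM', if_neg hM', if_neg hM']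
      by_cases hM1' : p ∣ M1
      · rw [if_pos hM1']
        have e8 := QT1_rt (g q) hp1
        have e9 := QT1_twq g q m hp1
        linarith
      · rw [if_neg hM1']
        have hpm : ¬ (p : ℤ) ∣ m := by
          intro h0
          have h2 := Int.le_of_dvd (abs_pos.2 hm) ((dvd_abs _ _).2 h0)
          have hpz : (2 : ℤ) ^ a < p := by exact_mod_cast hp2
          omega
        obtain ⟨f1, f2, f3⟩ := bt_facts hg q hq p (hgood p hp1 hM1')
        obtain ⟨f4, -⟩ := f3 m hpm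
        have f5 : |bt g q p * (jacobiSym m p : ℝ)| ≤ 2 := by
          rw [abs_mul]
          have g1 : |(jacobiSym m p : ℝ)| ≤ 1 := by
            rcases jacobiSym.trichotomy m p with h | h | h <;> rw [h] <;> norm_num
          calc |bt g q p| * |(jacobiSym m p : ℝ)| ≤ 2 * 1 := mul_le_mul f2 g1 (abs_nonneg _) (by norm_num)
            _ = 2 := by norm_num
        have f6 : (PT.rt (g q) p : ℝ) ≤ 2 := by
          rcases f1 with f1 | f1 <;> rw [f1] <;> norm_num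
        have f7 : (nq g q m p : ℝ) ≤ 2 := by
          have f8 := (abs_le.1 f5).1
          rw [f4]
          linarith
        have f9 : (0 : ℝ) ≤ (nq g q m p : ℝ) := Nat.cast_nonneg _
        have f10 : (nq g q m p : ℝ) * ((nq g q m p : ℝ) - 1) / 2 / (p : ℝ) ^ 2 ≤ ((p : ℝ) ^ 2)⁻¹ := by
          rw [div_eq_mul_inv]
          refine mul_le_of_le_one_left e5 ?_
          nlinarith
        have f11 : (nq g q m p : ℝ) / p = (PT.rt (g q) p : ℝ) / (2 * p) - (bt g q p * (jacobiSym m p : ℝ) / p) / 2 := by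
          rw [f4]
          field_simp
        unfold twq
        linarith
  have h7 := sum_le_sum h6
  rw [sum_add_distrib, sum_add_distrib, sum_add_distrib, sum_add_distrib, ← sum_div] at h7
  have h8 : ∀ f : ℕ → ℝ, ∑ p ∈ S, (if p ∣ M then 0 else f p) =
      ∑ p ∈ (Ioc (2 ^ a) (2 ^ b)).filter (fun p => p.Prime ∧ ¬ p ∣ M), f p := by
    intro f
    rw [hS, ← filter_filter, sum_filter (fun p => ¬ p ∣ M)]
    refine sum_congr rfl fun p _ => ?_
    by_cases hM' : p ∣ M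
    · rw [if_pos hM', if_neg (not_not.2 hM')]
    · rw [if_neg hM', if_pos hM']
  have h9 : ∑ p ∈ S, ((p : ℝ) ^ 2)⁻¹ ≤ 1 := by
    have e1 : ∑ p ∈ S, ((p : ℝ) ^ 2)⁻¹ ≤ ∑ p ∈ Ioc (2 ^ a : ℕ) (2 ^ b : ℕ), ((p : ℝ) ^ 2)⁻¹ := by
      rw [hS]
      exact sum_le_sum_of_subset_of_nonneg (filter_subset _ _) fun p _ _ => by positivity
    have e2 : ∑ p ∈ Ioc (2 ^ a : ℕ) (2 ^ b : ℕ), ((p : ℝ) ^ 2)⁻¹ ≤ (((2 ^ a : ℕ) : ℝ))⁻¹ - (((2 ^ b : ℕ) : ℝ))⁻¹ :=
      sum_Ioc_inv_sq_le_sub (pow_ne_zero _ two_ne_zero) (Nat.pow_le_pow_right (by norm_num) hab)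
    have e3 : (((2 ^ a : ℕ) : ℝ))⁻¹ ≤ 1 := by
      apply inv_le_one_of_one_le₀
      exact_mod_cast Nat.one_le_two_pow
    have e4 : (0 : ℝ) ≤ (((2 ^ b : ℕ) : ℝ))⁻¹ := by positivity
    linarith
  have h10 : ∀ N : ℕ, N ≠ 0 → ∑ p ∈ S, (if p ∣ N then (1 : ℝ) else 0) ≤ N.divisors.card := by
    intro N hN
    rw [← sum_filter, sum_const, nsmul_eq_mul, mul_one]
    refine Nat.cast_le.2 (card_le_card fun p hp => ?_)
    exact Nat.mem_divisors.2 ⟨(mem_filter.1 hp).2, hN⟩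
  have h11 := h10 M hM
  have h12 := h10 M1 hM1
  rw [h8 fun p => (PT.rt (g q) p : ℝ) / (2 * p), h8 fun p => twq g q m p] at h7
  have h13 : 0 ≤ Real.log ((b : ℝ) / a) := by
    refine Real.log_nonneg ?_
    have ha0 : (0 : ℝ) < a := by exact_mod_cast ha
    rw [le_div_iff₀ ha0, one_mul]
    exact_mod_cast hab
  have h14 : 0 ≤ η * Real.log ((b : ℝ) / a) := mul_nonneg hη h13
  have h15 : η * (Real.log ((b : ℝ) / a) + 1) = η * Real.log ((b : ℝ) / a) + η := by ring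
  rw [h15] at h1
  linarith

end QV
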