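import Pool.Agent.Lib.MP_10e784_agQV.QC

/-! JOB QT2.  The size of the excluded set, exactly.  MODEL: `QV.top_count` (file T2.lean, proved).
`p` good.  `pol g w q = C w0 + C w1 * X`, `(pol g w q).eval t = w0 + t w1` depends on the two coordinates of index `q` only, and the others are fixed by `y`.  For one root `t` with `m fq(t)` no square: `p` vectors.  For two such roots `t ≠ t'` the two linear forms are independent: `2 p - 1` vectors.  (`nq ≤ 2`.)  `p ^ 2` is the number of all the vectors. -/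

set_option autoImplicit false

namespace QV

open Finset Polynomial TW TR

private theorem QT2_two {R : Type} [AddCommMonoid R] {d : ℕ} (hd : d = 2) (f : Fin d → R) :
    ∑ c, f c = f ⟨0, by omega⟩ + f ⟨1, by omega⟩ := by
  subst hd
  exact Fin.sum_univ_two f

private theorem QT2_line (p : ℕ) [Fact p.Prime] (t : ZMod p) :
    (univ.filter fun z : ZMod p × ZMod p => z.1 + z.2 * t = 0).card = p := by
  have h : (univ.filter fun z : ZMod p × ZMod p => z.1 + z.2 * t = 0) =
      (univ : Finset (ZMod p)).image fun b => (-(b * t), b) := by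
    ext z
    simp only [mem_filter, mem_univ, true_and, mem_image]
    constructor
    · intro h
      exact ⟨z.2, Prod.ext (neg_eq_of_add_eq_zero_left h) rfl⟩
    · rintro ⟨b, hb⟩
      rw [← hb]
      exact neg_add_cancel _
  rw [h, card_image_of_injective _ fun b b' hb => congrArg Prod.snd hb, card_univ, ZMod.card]

private theorem QT2_cnt (p : ℕ) [Fact p.Prime] (T : Finset (ZMod p)) (hT : T.card ≤ 2) :
    (Nat.card {z : ZMod p × ZMod p // ∃ t ∈ T, z.1 + z.2 * t = 0} : ℝ) =
      (T.card : ℝ) * p - (T.card : ℝ) * ((T.card : ℝ) - 1) / 2 := by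
  classical
  have hN : Nat.card {z : ZMod p × ZMod p // ∃ t ∈ T, z.1 + z.2 * t = 0} =
      (univ.filter fun z : ZMod p × ZMod p => ∃ t ∈ T, z.1 + z.2 * t = 0).card := by
    rw [Nat.card_eq_fintype_card, Fintype.card_subtype]
  rw [hN]
  rcases Nat.lt_or_ge T.card 2 with h2 | h2
  · rcases Nat.lt_or_ge T.card 1 with h1 | h1
    · have h0 : T.card = 0 := by omega
      have hE : (univ.filter fun z : ZMod p × ZMod p => ∃ t ∈ T, z.1 + z.2 * t = 0) = ∅ := by
        refine filter_eq_empty_iff.2 fun z _ => ?_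
        rintro ⟨t, ht, -⟩
        rw [card_eq_zero.1 h0] at ht
        exact notMem_empty _ ht
      rw [hE, h0, card_empty]
      norm_num
    · have h0 : T.card = 1 := by omega
      obtain ⟨t, ht⟩ := card_eq_one.1 h0
      have hE : (univ.filter fun z : ZMod p × ZMod p => ∃ t ∈ T, z.1 + z.2 * t = 0) =
          univ.filter fun z : ZMod p × ZMod p => z.1 + z.2 * t = 0 := by
        ext z
        simp only [mem_filter, mem_univ, true_and, ht, mem_singleton, exists_eq_left]
      rw [hE, QT2_line, h0]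
      norm_num
  · have h0 : T.card = 2 := by omega
    obtain ⟨t, t', hne, ht⟩ := card_eq_two.1 h0
    have hE : (univ.filter fun z : ZMod p × ZMod p => ∃ t ∈ T, z.1 + z.2 * t = 0) =
        (univ.filter fun z : ZMod p × ZMod p => z.1 + z.2 * t = 0) ∪
          univ.filter fun z : ZMod p × ZMod p => z.1 + z.2 * t' = 0 := by
      ext z
      simp only [mem_filter, mem_univ, true_and, ht, mem_insert, mem_singleton, exists_eq_or_imp, exists_eq_left, mem_union]
    have hI : (univ.filter fun z : ZMod p × ZMod p => z.1 + z.2 * t = 0) ∩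
        (univ.filter fun z : ZMod p × ZMod p => z.1 + z.2 * t' = 0) = {((0 : ZMod p), (0 : ZMod p))} := by
      ext z
      simp only [mem_inter, mem_filter, mem_univ, true_and, mem_singleton]
      constructor
      · rintro ⟨h3, h4⟩
        have h5 : z.2 * (t - t') = 0 := by
          have h6 : z.2 * (t - t') = (z.1 + z.2 * t) - (z.1 + z.2 * t') := by ring
          rw [h6, h3, h4, sub_self]
        have h7 : z.2 = 0 := (mul_eq_zero.1 h5).resolve_right (sub_ne_zero.2 hne)
        rw [h7, zero_mul, add_zero] at h3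
        exact Prod.ext h3 h7
      · intro h
        rw [h]
        simp
    have hU := card_union_add_card_inter (univ.filter fun z : ZMod p × ZMod p => z.1 + z.2 * t = 0)
      (univ.filter fun z : ZMod p × ZMod p => z.1 + z.2 * t' = 0)
    rw [hI, card_singleton, QT2_line, QT2_line, ← hE] at hU
    have hU2 := congrArg (fun n : ℕ => (n : ℝ)) hU
    simp only [Nat.cast_add, Nat.cast_one] at hU2
    rw [h0]
    push_cast
    linarith

theorem top_count_q {ι : Type} [Fintype ι] [DecidableEq ι] {g : ι → ℤ[X]} (hg : TR.Fam g) (q : ι) (hq : (g q).natDegree = 2)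
    (m : ℤ) (p : ℕ) (hp : GoodP g p) (y : Co g → ZMod p) :
    (Nat.card {w : Co g → ZMod p // w ∈ tQ g q m p ∧ ∀ c : Co g, ¬ (c.1 = q) → w c = y c} : ℝ) =
      twq g q m p * (p : ℝ) ^ (univ.filter fun c : Co g => c.1 = q).card ∧
    0 ≤ twq g q m p ∧ twq g q m p ≤ 1 ∧ twq g q m p ≤ 2 / p := by
  classical
  have hF : Fact p.Prime := ⟨hp.prime⟩
  have hp0 : (0 : ℝ) < p := by exact_mod_cast hp.prime.pos
  have hp1 : (1 : ℝ) ≤ p := by exact_mod_cast hp.prime.one_lt.le
  obtain ⟨T, hT⟩ : ∃ T : Finset (ZMod p), T = univ.filter fun t : ZMod p => (red p (g q)).eval t = 0 ∧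
      ¬ IsSquare ((m : ZMod p) * (red p (fq g q)).eval t) := ⟨_, rfl⟩
  have hnq : nq g q m p = T.card := by
    unfold nq
    rw [Nat.card_eq_fintype_card, Fintype.card_subtype, hT]
  have hT2 : T.card ≤ 2 := by
    have hmon : (red p (g q)).Monic := (hg.monic q).map _
    have h1 : T ⊆ (red p (g q)).roots.toFinset := by
      intro t ht
      rw [hT, mem_filter] at ht
      exact Multiset.mem_toFinset.2 ((mem_roots hmon.ne_zero).2 ht.2.1)
    calc T.card ≤ (red p (g q)).roots.toFinset.card := card_le_card h1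
      _ ≤ Multiset.card (red p (g q)).roots := Multiset.toFinset_card_le _
      _ ≤ (red p (g q)).natDegree := card_roots' _
      _ ≤ (g q).natDegree := natDegree_map_le
      _ = 2 := hq
  obtain ⟨c0, hc0⟩ : ∃ c : Co g, c = ⟨q, ⟨0, by omega⟩⟩ := ⟨_, rfl⟩
  obtain ⟨c1, hc1⟩ : ∃ c : Co g, c = ⟨q, ⟨1, by omega⟩⟩ := ⟨_, rfl⟩
  have hne : c0 ≠ c1 := by
    rw [hc0, hc1]
    intro h
    have h1 := (Sigma.mk.inj_iff.1 h).2
    have h2 := congrArg Fin.val (eq_of_heq h1)
    exact absurd h2 (by norm_num)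
  have hcq : ∀ c : Co g, c.1 = q ↔ c = c0 ∨ c = c1 := by
    intro c
    constructor
    · intro h
      obtain ⟨i, a⟩ := c
      obtain rfl : i = q := h
      have h2 := a.2
      have h3 : (a : ℕ) = 0 ∨ (a : ℕ) = 1 := by omega
      rcases h3 with h3 | h3
      · left
        rw [hc0]
        exact Sigma.ext rfl (heq_of_eq (Fin.ext h3))
      · right
        rw [hc1]
        exact Sigma.ext rfl (heq_of_eq (Fin.ext h3))
    · rintro (h | h)
      · rw [h, hc0]
      · rw [h, hc1]
  have hcard : (univ.filter fun c : Co g => c.1 = q).card = 2 := by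
    have h : (univ.filter fun c : Co g => c.1 = q) = {c0, c1} := by
      ext c
      rw [mem_filter, mem_insert, mem_singleton, hcq]
      exact ⟨fun h => h.2, fun h => ⟨mem_univ _, h⟩⟩
    rw [h, card_pair hne]
  have hev : ∀ (w : Co g → ZMod p) (t : ZMod p), (pol g w q).eval t = w c0 + w c1 * t := by
    intro w t
    unfold pol
    rw [QT2_two hq, hc0, hc1, eval_add, eval_mul, eval_mul, eval_C, eval_C, eval_pow, eval_pow, eval_X, pow_zero,
      pow_one, mul_one]
  have htQ : ∀ w : Co g → ZMod p, w ∈ tQ g q m p ↔ ∃ t ∈ T, w c0 + w c1 * t = 0 := by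
    intro w
    constructor
    · rintro ⟨t, h1, h2, h3⟩
      exact ⟨t, by rw [hT, mem_filter]; exact ⟨mem_univ _, h1, h3⟩, by rw [← hev]; exact h2⟩
    · rintro ⟨t, h1, h2⟩
      rw [hT, mem_filter] at h1
      exact ⟨t, h1.2.1, by rw [hev]; exact h2, h1.2.2⟩
  have hN : Nat.card {w : Co g → ZMod p // w ∈ tQ g q m p ∧ ∀ c : Co g, ¬ (c.1 = q) → w c = y c} =
      Nat.card {z : ZMod p × ZMod p // ∃ t ∈ T, z.1 + z.2 * t = 0} := by
    refine Nat.card_congr (Equiv.ofBijective (fun w => ⟨(w.1 c0, w.1 c1), (htQ w.1).1 w.2.1⟩) ⟨?_, ?_⟩)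
    · intro w w' h
      have h1 := congrArg Subtype.val h
      have h2 : w.1 c0 = w'.1 c0 := congrArg Prod.fst h1
      have h3 : w.1 c1 = w'.1 c1 := congrArg Prod.snd h1
      refine Subtype.ext (funext fun c => ?_)
      by_cases hc : c.1 = q
      · rcases (hcq c).1 hc with hc | hc
        · rw [hc, h2]
        · rw [hc, h3]
      · rw [w.2.2 c hc, w'.2.2 c hc]
    · rintro ⟨⟨u, v⟩, hz⟩
      obtain ⟨w, hw1, hw2, hw3⟩ : ∃ w : Co g → ZMod p, w c0 = u ∧ w c1 = v ∧ ∀ c : Co g, ¬ (c.1 = q) → w c = y c := by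
        refine ⟨fun c => if c = c0 then u else if c = c1 then v else y c, if_pos rfl, ?_, fun c hc => ?_⟩
        · show (if c1 = c0 then u else if c1 = c1 then v else y c1) = v
          rw [if_neg hne.symm, if_pos rfl]
        · show (if c = c0 then u else if c = c1 then v else y c) = y c
          rw [if_neg fun h => hc ((hcq c).2 (Or.inl h)), if_neg fun h => hc ((hcq c).2 (Or.inr h))]
      refine ⟨⟨w, (htQ w).2 ?_, hw3⟩, Subtype.ext (Prod.ext hw1 hw2)⟩
      rw [hw1, hw2]
      exact hz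
  have hi0 : 0 < 1 / (p : ℝ) := by positivity
  have hi1 : 1 / (p : ℝ) ≤ 1 := by
    rw [div_le_one hp0]
    exact hp1
  have htw : twq g q m p = (T.card : ℝ) * (1 / p) - (T.card : ℝ) * ((T.card : ℝ) - 1) / 2 * (1 / p) ^ 2 := by
    unfold twq
    rw [hnq]
    ring
  have hb : (T.card : ℝ) = 0 ∨ (T.card : ℝ) = 1 ∨ (T.card : ℝ) = 2 := by
    have h3 : T.card = 0 ∨ T.card = 1 ∨ T.card = 2 := by omega
    rcases h3 with h3 | h3 | h3
    · exact Or.inl (by rw [h3]; norm_num)
    · exact Or.inr (Or.inl (by rw [h3]; norm_num))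
    · exact Or.inr (Or.inr (by rw [h3]; norm_num))
  refine ⟨?_, ?_, ?_, ?_⟩
  · rw [hN, QT2_cnt p T hT2, hcard, htw]
    field_simp
  · rw [htw]
    rcases hb with h1 | h1 | h1 <;> rw [h1] <;> nlinarith
  · rw [htw]
    rcases hb with h1 | h1 | h1 <;> rw [h1] <;> nlinarith [sq_nonneg (1 - 1 / (p : ℝ))]
  · rw [htw, show (2 : ℝ) / p = 2 * (1 / p) by ring]
    rcases hb with h1 | h1 | h1 <;> rw [h1] <;> nlinarith [sq_nonneg (1 / (p : ℝ))]

end QV
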