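import Pool.Agent.Lib.MP_10e784_agQV.QD
import Pool.Agent.Lib.MP_10e784_agN2.N3

/-! JOB QW1.  The sum of the weights, no rational root.  MODELS: `EN.W3` (file MP_10e784_agN2/N3.lean) and `QV.W_small` (file W1.lean, proved).
`Λ = log L / K`, `log log (zz K L k) = (k + 1/2) Λ`, `l i = lv K L (j i)`, `l q = K`, `l i ≤ kst` for `i ≠ q`.  `EN.W3` computes the sum over all ranges of `(rts g (I k) p - ind RP p) / p`.  Here the two ranges `kst`, `kst + 1` are left out, and in the ranges `k ≥ kst + 2` the index set is `{q}`: `rts = rt (g q)`; these appear on the right side.  So the right side is at least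
`∑_i ∑_{k < l i} ∑_{P k} rt (g i) p / p - ∑_{all ranges} ind RP p / p + (1/4) ∑_{k < kst} ind S p / p - (two ranges: 2 (B + 1) (Λ + A)) - η log L - C`, where `rt (g q) ≤ B`.
As in `W3`: `∑_{k < l i} .. ≥ log (1 + j i) - (3/2) Λ - C`, `∑ ind RP / p ≤ TT g (exp L)`, the gain `(1 / (4 n₀)) (kst - 1/2) Λ` with `(kst + 1) Λ ≥ log (j k₂) ≥ ε log L` (if `kst < K`; `lv_iff`).  `η = ε / (32 n₀)`, `K ≥ 64 n₀ (card ι + 2 B + 6) / ε`, `c = ε / (16 n₀)`. -/

set_option autoImplicit false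

namespace QV

open Finset Polynomial TW TR

private noncomputable def QW1_Q (M : ℕ) (x : ℝ) : Finset ℕ := (Icc 1 ⌊x⌋₊).filter fun p => p.Prime ∧ ¬ p ∣ M

private theorem QW1_lam_one (K : ℕ) (L : ℝ) (hL : 1 ≤ L) : 1 ≤ lam K L :=
  Real.one_le_rpow hL (by positivity)

private theorem QW1_log_lam (K : ℕ) (L : ℝ) (hL : 1 ≤ L) : Real.log (lam K L) = Real.log L / K := by
  unfold lam
  rw [Real.log_rpow (by linarith)]
  ring

private theorem QW1_zz_mono (K : ℕ) (L : ℝ) (hL : 1 ≤ L) (k k' : ℕ) (h : k ≤ k') : zz K L k ≤ zz K L k' := by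
  unfold zz
  apply Real.exp_le_exp.mpr
  apply Real.rpow_le_rpow_of_exponent_le (QW1_lam_one K L hL)
  have : (k : ℝ) ≤ k' := by exact_mod_cast h
  linarith

private theorem QW1_zz_two (K : ℕ) (L : ℝ) (hL : 1 ≤ L) (k : ℕ) : 2 ≤ zz K L k := by
  unfold zz
  have h1 : (1 : ℝ) ≤ lam K L ^ ((k : ℝ) + 1 / 2) := Real.one_le_rpow (QW1_lam_one K L hL) (by positivity)
  have h2 := Real.add_one_le_exp (lam K L ^ ((k : ℝ) + 1 / 2))
  linarith

private theorem QW1_loglog (K : ℕ) (L : ℝ) (hL : 1 ≤ L) (k : ℕ) :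
    Real.log (Real.log (zz K L k)) = ((k : ℝ) + 1 / 2) * (Real.log L / K) := by
  unfold zz
  rw [Real.log_exp, Real.log_rpow (by linarith [QW1_lam_one K L hL]), QW1_log_lam K L hL]

private theorem QW1_part (M K : ℕ) (L : ℝ) (hL : 1 ≤ L) (a : ℕ → ℝ) (l : ℕ) :
    ∑ k ∈ range (l + 1), ∑ p ∈ Pk M K L k, a p = ∑ p ∈ QW1_Q M (zz K L l), a p := by
  induction l with
  | zero =>
    rw [zero_add, Finset.sum_range_one]
    apply Finset.sum_congr _ (fun _ _ => rfl)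
    ext p
    simp [Pk, QW1_Q]
  | succ l ih =>
    rw [Finset.sum_range_succ, ih, ← Finset.sum_union]
    · apply Finset.sum_congr _ (fun _ _ => rfl)
      ext p
      have h0 : (0 : ℝ) ≤ zz K L l := by linarith [QW1_zz_two K L hL l]
      have h1 : (0 : ℝ) ≤ zz K L (l + 1) := by linarith [QW1_zz_two K L hL (l + 1)]
      have h2 := QW1_zz_mono K L hL l (l + 1) (by omega)
      simp only [Pk, QW1_Q, Finset.mem_union, Finset.mem_filter, Finset.mem_Icc, Nat.le_floor_iff h0,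
        Nat.le_floor_iff h1, Nat.add_sub_cancel]
      constructor
      · rintro (⟨⟨h3, h4⟩, h5⟩ | ⟨⟨h3, h4⟩, h5⟩)
        · exact ⟨⟨h3, h4.trans h2⟩, h5⟩
        · exact ⟨⟨h3, h4⟩, h5.1, h5.2.1⟩
      · rintro ⟨⟨h3, h4⟩, h5⟩
        rcases le_or_gt (p : ℝ) (zz K L l) with h6 | h6
        · exact Or.inl ⟨⟨h3, h6⟩, h5⟩
        · exact Or.inr ⟨⟨h3, h4⟩, h5.1, h5.2, Or.inr h6⟩
    · rw [Finset.disjoint_left]
      intro p hp hp2
      have h0 : (0 : ℝ) ≤ zz K L l := by linarith [QW1_zz_two K L hL l]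
      simp only [Pk, QW1_Q, Finset.mem_filter, Finset.mem_Icc, Nat.le_floor_iff h0, Nat.add_sub_cancel] at hp hp2
      rcases hp2.2.2.2 with h | h
      · omega
      · linarith [hp.1.2]

private theorem QW1_up (M : ℕ) (a : ℕ → ℝ) (ha : ∀ p : ℕ, p.Prime → 0 ≤ a p) (x : ℝ) :
    ∑ p ∈ QW1_Q M x, a p / p ≤ PT.PS a x := by
  unfold QW1_Q PT.PS
  apply Finset.sum_le_sum_of_subset_of_nonneg
  · intro p hp
    simp only [Finset.mem_filter] at hp ⊢
    exact ⟨hp.1, hp.2.1⟩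
  · intro p hp _
    simp only [Finset.mem_filter] at hp
    exact div_nonneg (ha p hp.2) (by positivity)

private theorem QW1_down (M : ℕ) (hM : M ≠ 0) (a : ℕ → ℝ) (A : ℝ) (ha : ∀ p : ℕ, p.Prime → 0 ≤ a p)
    (hA : ∀ p : ℕ, p.Prime → a p ≤ A) (x : ℝ) :
    PT.PS a x - A * M ≤ ∑ p ∈ QW1_Q M x, a p / p := by
  have hA0 : 0 ≤ A := (ha 2 Nat.prime_two).trans (hA 2 Nat.prime_two)
  have h1 : PT.PS a x = ∑ p ∈ ((Icc 1 ⌊x⌋₊).filter Nat.Prime).filter (fun p => p ∣ M), a p / p +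
      ∑ p ∈ ((Icc 1 ⌊x⌋₊).filter Nat.Prime).filter (fun p => ¬ p ∣ M), a p / p := by
    unfold PT.PS
    rw [Finset.sum_filter_add_sum_filter_not]
  have h2 : ((Icc 1 ⌊x⌋₊).filter Nat.Prime).filter (fun p => ¬ p ∣ M) = QW1_Q M x := by
    ext p
    simp [QW1_Q, and_assoc]
  have h3 : ∑ p ∈ ((Icc 1 ⌊x⌋₊).filter Nat.Prime).filter (fun p => p ∣ M), a p / p ≤ A * M := by
    have h4 : ∀ p ∈ ((Icc 1 ⌊x⌋₊).filter Nat.Prime).filter (fun p => p ∣ M), a p / p ≤ A := by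
      intro p hp
      simp only [Finset.mem_filter] at hp
      have h5 : (1 : ℝ) ≤ p := by exact_mod_cast hp.1.2.one_lt.le
      rw [div_le_iff₀ (by linarith)]
      nlinarith [hA p hp.1.2]
    have h6 := Finset.sum_le_card_nsmul _ _ _ h4
    rw [nsmul_eq_mul] at h6
    have h7 : (((Icc 1 ⌊x⌋₊).filter Nat.Prime).filter (fun p => p ∣ M)).card ≤ M := by
      calc (((Icc 1 ⌊x⌋₊).filter Nat.Prime).filter (fun p => p ∣ M)).card ≤ (Icc 1 M).card := by
            apply Finset.card_le_card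
            intro p hp
            simp only [Finset.mem_filter, Finset.mem_Icc] at hp ⊢
            exact ⟨hp.1.1.1, Nat.le_of_dvd (Nat.pos_of_ne_zero hM) hp.2⟩
        _ = M := by simp
    have h8 : ((((Icc 1 ⌊x⌋₊).filter Nat.Prime).filter (fun p => p ∣ M)).card : ℝ) ≤ M := by exact_mod_cast h7
    nlinarith
  rw [h1, h2]
  linarith

private theorem QW1_sq (M : ℕ) (x C1 : ℝ) (hC1 : 0 ≤ C1) : ∑ p ∈ QW1_Q M x, C1 / (p : ℝ) ^ 2 ≤ 2 * C1 := by
  have h1 := sum_Ioo_inv_sq_le (α := ℝ) 0 (⌊x⌋₊ + 1)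
  have h2 : ∑ p ∈ QW1_Q M x, ((p : ℝ) ^ 2)⁻¹ ≤ ∑ i ∈ Ioo 0 (⌊x⌋₊ + 1), ((i : ℝ) ^ 2)⁻¹ := by
    apply Finset.sum_le_sum_of_subset_of_nonneg
    · intro p hp
      simp only [QW1_Q, Finset.mem_filter, Finset.mem_Icc] at hp
      simp only [Finset.mem_Ioo]
      omega
    · intro p _ _
      positivity
  have h3 : ∑ p ∈ QW1_Q M x, C1 / (p : ℝ) ^ 2 = C1 * ∑ p ∈ QW1_Q M x, ((p : ℝ) ^ 2)⁻¹ := by
    rw [Finset.mul_sum]
    exact Finset.sum_congr rfl fun p _ => by rw [div_eq_mul_inv]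
  rw [h3]
  have h4 : ∑ p ∈ QW1_Q M x, ((p : ℝ) ^ 2)⁻¹ ≤ 2 := by
    refine h2.trans (h1.trans ?_)
    norm_num
  nlinarith

private theorem QW1_rtX (p : ℕ) (hp : p.Prime) : PT.rt (X : ℤ[X]) p = 1 := by
  have : Fact p.Prime := ⟨hp⟩
  unfold PT.rt
  simp only [Polynomial.map_X, eval_X]
  rw [Nat.card_unique]

private theorem QW1_one (M : ℕ) : ∃ C : ℝ, 0 ≤ C ∧ ∀ x : ℝ, 2 ≤ x →
    ∑ p ∈ QW1_Q M x, (1 : ℝ) / p ≤ Real.log (Real.log x) + C := by
  obtain ⟨C, hC⟩ := PT.rt_sum (X : ℤ[X]) (by rw [Polynomial.map_X]; exact irreducible_X)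
  refine ⟨|C|, abs_nonneg C, fun x hx => ?_⟩
  have h1 := hC x hx
  have h2 := QW1_up M (fun p => (PT.rt (X : ℤ[X]) p : ℝ)) (fun p _ => by positivity) x
  have h3 : ∑ p ∈ QW1_Q M x, (1 : ℝ) / p = ∑ p ∈ QW1_Q M x, (PT.rt (X : ℤ[X]) p : ℝ) / p := by
    refine Finset.sum_congr rfl fun p hp => ?_
    simp only [QW1_Q, Finset.mem_filter] at hp
    rw [QW1_rtX p hp.2.1]
    simp
  rw [h3]
  linarith [le_abs_self C]

private theorem QW1_low (M : ℕ) (hM : M ≠ 0) (g : ℤ[X]) (hm : g.Monic)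
    (hirr : Irreducible (g.map (Int.castRingHom ℚ))) : ∃ C : ℝ, 0 ≤ C ∧ ∀ x : ℝ, 2 ≤ x →
    Real.log (Real.log x) - C ≤ ∑ p ∈ QW1_Q M x, (PT.rt g p : ℝ) / p := by
  obtain ⟨C, hC⟩ := rt_low g hm hirr
  obtain ⟨A, hA⟩ := PT.rt_le g hm.ne_zero
  refine ⟨|C| + A * M, by positivity, fun x hx => ?_⟩
  have h1 := hC x hx
  have h2 := QW1_down M hM (fun p => (PT.rt g p : ℝ)) A (fun p _ => by positivity)
    (fun p hp => by exact_mod_cast hA p hp) x
  linarith [le_abs_self C]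

private theorem QW1_S {ι : Type} {g : ι → ℤ[X]} (S : Set ℕ) (n : ℕ) (hS : PT.Spl g S n) (M : ℕ) (hM : M ≠ 0) :
    ∃ C : ℝ, 0 ≤ C ∧ ∀ x : ℝ, 2 ≤ x →
    (1 / n : ℝ) * Real.log (Real.log x) - C ≤ ∑ p ∈ QW1_Q M x, PT.ind S p / p := by
  obtain ⟨C, hC⟩ := hS.lower
  refine ⟨|C| + M, by positivity, fun x hx => ?_⟩
  have h1 := hC x hx
  have h2 := QW1_down M hM (PT.ind S) 1 (fun p _ => by unfold PT.ind; split_ifs <;> norm_num)
    (fun p hp => by unfold PT.ind; split_ifs <;> norm_num) x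
  linarith [le_abs_self C]

/-- exchange of the sums -/
private theorem QW1_exch {ι : Type} [Fintype ι] [DecidableEq ι] (g : ι → ℤ[X]) (M K : ℕ) (L : ℝ) (l : ι → ℕ)
    (t : ℕ) :
    ∑ k ∈ range t, ∑ p ∈ Pk M K L k, (rts g (univ.filter fun i => k + 1 ≤ l i) p : ℝ) / p =
      ∑ i, ∑ k ∈ range (min (l i) t), ∑ p ∈ Pk M K L k, (PT.rt (g i) p : ℝ) / p := by
  have h1 : ∀ k, ∑ p ∈ Pk M K L k, (rts g (univ.filter fun i => k + 1 ≤ l i) p : ℝ) / p =
      ∑ i, if k < l i then ∑ p ∈ Pk M K L k, (PT.rt (g i) p : ℝ) / p else 0 := by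
    intro k
    rw [← Finset.sum_filter]
    rw [Finset.sum_comm]
    refine Finset.sum_congr rfl fun p _ => ?_
    unfold rts
    rw [Nat.cast_sum, Finset.sum_div]
    rfl
  rw [Finset.sum_congr rfl fun k _ => h1 k, Finset.sum_comm]
  refine Finset.sum_congr rfl fun i _ => ?_
  rw [← Finset.sum_filter]
  apply Finset.sum_congr _ (fun _ _ => rfl)
  ext k
  simp only [Finset.mem_filter, Finset.mem_range]
  omega

private theorem QW1_log (x : ℝ) (hx : 1 ≤ x) : Real.log (1 + x) ≤ Real.log x + Real.log 2 := by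
  have h9 : Real.log (1 + x) ≤ Real.log (2 * x) := by
    apply Real.log_le_log (by positivity)
    linarith
  rw [Real.log_mul (by norm_num) (by positivity)] at h9
  linarith

/-- the sum of `1 / p` over one range `k + 1` -/
private theorem QW1_last (M : ℕ) (hM : M ≠ 0) : ∃ A : ℝ, 0 ≤ A ∧ ∀ (K : ℕ) (L : ℝ), 1 ≤ L → ∀ k : ℕ,
    ∑ p ∈ Pk M K L (k + 1), (1 : ℝ) / p ≤ Real.log L / K + A := by
  obtain ⟨A1, hA1, h1⟩ := QW1_one M
  obtain ⟨A2, hA2, h2⟩ := QW1_low M hM (X : ℤ[X]) monic_X (by rw [Polynomial.map_X]; exact irreducible_X)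
  refine ⟨A1 + A2, by linarith, fun K L hL k => ?_⟩
  have h3 := QW1_part M K L hL (fun p => (1 : ℝ) / p) (k + 1)
  have h4 := QW1_part M K L hL (fun p => (1 : ℝ) / p) k
  rw [Finset.sum_range_succ, h4] at h3
  have h5 := h1 _ (QW1_zz_two K L hL (k + 1))
  have h6 := h2 _ (QW1_zz_two K L hL k)
  have h7 : ∑ p ∈ QW1_Q M (zz K L k), (PT.rt (X : ℤ[X]) p : ℝ) / p = ∑ p ∈ QW1_Q M (zz K L k), (1 : ℝ) / p := by
    refine Finset.sum_congr rfl fun p hp => ?_
    simp only [QW1_Q, Finset.mem_filter] at hp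
    rw [QW1_rtX p hp.2.1]
    simp
  rw [h7, QW1_loglog K L hL k] at h6
  rw [QW1_loglog K L hL (k + 1)] at h5
  push_cast at h5
  have h8 : ((k : ℝ) + 1 + 1 / 2) * (Real.log L / K) = ((k : ℝ) + 1 / 2) * (Real.log L / K) + Real.log L / K := by ring
  linarith

private theorem QW1_PS_mono (a : ℕ → ℝ) (ha : ∀ p : ℕ, p.Prime → 0 ≤ a p) (x y : ℝ) (h : x ≤ y) :
    PT.PS a x ≤ PT.PS a y := by
  unfold PT.PS
  apply Finset.sum_le_sum_of_subset_of_nonneg
  · intro p hp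
    simp only [Finset.mem_filter, Finset.mem_Icc] at hp ⊢
    exact ⟨⟨hp.1.1, hp.1.2.trans (Nat.floor_le_floor h)⟩, hp.2⟩
  · intro p hp _
    simp only [Finset.mem_filter] at hp
    exact div_nonneg (ha p hp.2) (by positivity)

private theorem QW1_lam_pow (K : ℕ) (hK : 0 < K) (L : ℝ) (hL : 1 ≤ L) : lam K L ^ (K : ℝ) = L := by
  unfold lam
  rw [← Real.rpow_mul (by linarith)]
  have : (1 : ℝ) / K * (K : ℝ) = 1 := by
    have : (K : ℝ) ≠ 0 := by positivity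
    field_simp
  rw [this, Real.rpow_one]

private theorem QW1_zz_top (K K' : ℕ) (hK : K = K' + 1) (L : ℝ) (hL : 1 ≤ L) : zz K L K' ≤ Real.exp L := by
  unfold zz
  apply Real.exp_le_exp.mpr
  have h1 : lam K L ^ ((K' : ℝ) + 1 / 2) ≤ lam K L ^ (K : ℝ) := by
    apply Real.rpow_le_rpow_of_exponent_le (QW1_lam_one K L hL)
    have : (K : ℝ) = K' + 1 := by rw [hK]; push_cast; ring
    linarith
  rwa [QW1_lam_pow K (by omega) L hL] at h1

private theorem QW1_RP {ι : Type} [Fintype ι] (g : ι → ℤ[X]) (M K K' : ℕ) (hK : K = K' + 1) (L : ℝ) (hL : 1 ≤ L) :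
    ∑ p ∈ QW1_Q M (zz K L K'), PT.ind (EL.RP g) p / p ≤ EL.TT g (Real.exp L) := by
  have h0 : ∀ p : ℕ, p.Prime → 0 ≤ PT.ind (EL.RP g) p := by
    intro p _
    unfold PT.ind
    split_ifs <;> norm_num
  refine (QW1_up M (PT.ind (EL.RP g)) h0 _).trans ?_
  unfold EL.TT
  exact QW1_PS_mono _ h0 _ _ (QW1_zz_top K K' hK L hL)

/-- `range K` is `range t`, the ranges `t`, `t + 1` and the rest -/
private theorem QW1_split (f : ℕ → ℝ) (t K : ℕ) (ht : t ≤ K) (D : ℝ) (hD : 0 ≤ D) (hf : ∀ k, t ≤ k → f k ≤ D) :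
    ∑ k ∈ range K, f k ≤ ∑ k ∈ range t, f k + ∑ k ∈ Ico (t + 2) K, f k + 2 * D := by
  rcases Nat.lt_or_ge K (t + 2) with h | h
  · rw [Finset.Ico_eq_empty_of_le (by omega), Finset.sum_empty]
    rcases (by omega : K = t ∨ K = t + 1) with h1 | h1
    · rw [h1]
      linarith
    · rw [h1, Finset.sum_range_succ]
      have := hf t le_rfl
      linarith
  · rw [← Finset.sum_range_add_sum_Ico f h, Finset.sum_range_succ, Finset.sum_range_succ]
    have h1 := hf t le_rfl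
    have h2 := hf (t + 1) (by omega)
    linarith

private theorem QW1_split' (f : ℕ → ℝ) (t K : ℕ) (ht : t ≤ K) (hf : ∀ k, 0 ≤ f k) :
    ∑ k ∈ range t, f k + ∑ k ∈ Ico (t + 2) K, f k ≤ ∑ k ∈ range K, f k := by
  rcases Nat.lt_or_ge K (t + 2) with h | h
  · rw [Finset.Ico_eq_empty_of_le (by omega), Finset.sum_empty, add_zero]
    exact Finset.sum_le_sum_of_subset_of_nonneg (Finset.range_subset_range.2 ht) fun k _ _ => hf k
  · rw [← Finset.sum_range_add_sum_Ico f h, Finset.sum_range_succ, Finset.sum_range_succ]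
    have h1 := hf t
    have h2 := hf (t + 1)
    linarith

theorem W_q {ι : Type} [Fintype ι] [DecidableEq ι] {g : ι → ℤ[X]} (hg : TW.Fam g) (S : Set ℕ) (n₀ : ℕ)
    (hS : PT.Spl g S n₀) (M : ℕ) (hM : M ≠ 0) (C1 : ℝ) (hC1 : 0 ≤ C1) (ε : ℝ) (hε : 0 < ε) (hε1 : ε ≤ 1) :
    ∃ (K : ℕ) (η c C2 L0 : ℝ), 0 < K ∧ 0 < η ∧ η ≤ 1 / 2 ∧ 0 < c ∧ 0 ≤ C2 ∧ ∀ (j : ι → ℕ) (q k₂ : ι) (L kst : ℕ),
      L0 ≤ L → j q = L → (∀ i, j i ≤ L) → k₂ ≠ q → (L : ℝ) ^ ε ≤ j k₂ → (∀ i, i ≠ q → lv K L (j i) ≤ kst) → kst ≤ K → ∀ ω : ℕ → ℝ,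
      (∀ k < kst, ∀ p ∈ Pk M K L k,
        ((rts g (univ.filter fun i => k + 1 ≤ lv K L (j i)) p : ℝ) - PT.ind (EL.RP g) p + PT.ind S p / 4) / p - C1 / (p : ℝ) ^ 2 ≤ ω p ∧
        ω p ≤ (∑ i, (g i).natDegree : ℕ) / (p : ℝ)) →
      (∑ i, Real.log (1 + j i)) + c * Real.log L - EL.TT g (Real.exp L) - C2 ≤
        (∑ k ∈ range kst, ∑ p ∈ Pk M K L k, ω p) +
          (∑ k ∈ Ico (kst + 2) K, ∑ p ∈ Pk M K L k, ((PT.rt (g q) p : ℝ) - PT.ind (EL.RP g) p) / p) - η * Real.log L ∧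
      ∑ k ∈ range kst, ∑ p ∈ Pk M K L k, ω p ≤ (∑ i, (g i).natDegree : ℕ) * Real.log L + C2 := by
  have hn : 1 ≤ n₀ := hS.npos
  have hn' : (1 : ℝ) ≤ n₀ := by exact_mod_cast hn
  obtain ⟨CX, hCX0, hCX⟩ := QW1_one M
  obtain ⟨CS, hCS0, hCS⟩ := QW1_S S n₀ hS M hM
  choose Cl hCl0 hCl using fun i => QW1_low M hM (g i) (hg.monic i) (hg.irr i)
  choose Bi hBi using fun i => PT.rt_le (g i) (hg.monic i).ne_zero
  obtain ⟨CL, hCL0, hCL⟩ := QW1_last M hM
  obtain ⟨B, hB⟩ : ∃ B : ℕ, B = ∑ i, Bi i := ⟨_, rfl⟩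
  obtain ⟨m, hm⟩ : ∃ m : ℕ, m = Fintype.card ι := ⟨_, rfl⟩
  obtain ⟨N, hN⟩ : ∃ N : ℕ, N = ∑ i, (g i).natDegree := ⟨_, rfl⟩
  have hA0 : 0 ≤ ∑ i, Cl i := Finset.sum_nonneg fun i _ => hCl0 i
  have hlog2 : 0 ≤ Real.log 2 := Real.log_nonneg (by norm_num)
  rw [← hN]
  obtain ⟨K, hKdef⟩ : ∃ K : ℕ, K = ⌈64 * (n₀ : ℝ) * ((m : ℝ) + 2 * B + 6) / ε⌉₊ := ⟨_, rfl⟩
  have hKbig : 64 * (n₀ : ℝ) * ((m : ℝ) + 2 * B + 6) ≤ ε * K := by
    have h1 : 64 * (n₀ : ℝ) * ((m : ℝ) + 2 * B + 6) / ε ≤ K := by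
      rw [hKdef]
      exact Nat.le_ceil _
    rw [div_le_iff₀ hε] at h1
    linarith
  have hm0 : (0 : ℝ) ≤ m := Nat.cast_nonneg m
  have hB0 : (0 : ℝ) ≤ B := Nat.cast_nonneg B
  have h192 : (192 : ℝ) ≤ 64 * (n₀ : ℝ) * ((m : ℝ) + 2 * B + 6) := by
    have h1 : (3 : ℝ) ≤ (m : ℝ) + 2 * B + 6 := by linarith
    have h2 : (1 : ℝ) * 3 ≤ n₀ * ((m : ℝ) + 2 * B + 6) := mul_le_mul hn' h1 (by norm_num) (by linarith)
    linarith
  have hK1 : (1 : ℝ) ≤ K := by
    have h2 : ε * K ≤ K := mul_le_of_le_one_left (Nat.cast_nonneg K) hε1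
    linarith
  have hK : 0 < K := by
    have : (0 : ℝ) < K := by linarith
    exact_mod_cast this
  refine ⟨K, ε / (32 * n₀), ε / (16 * n₀), ((m : ℝ) + 1) * Real.log 2 + ∑ i, Cl i + CX + CS + 2 * C1 + N * CX +
    2 * (B * CL), 2, hK, by positivity, ?_, by positivity, by positivity, ?_⟩
  · rw [div_le_iff₀ (by positivity)]
    linarith
  intro j q k₂ L kst hL2 hjq hj1 hk2q hk2 hlv hkst ω hω
  have hL : (1 : ℝ) ≤ L := by linarith
  obtain ⟨Λ, hΛ⟩ : ∃ Λ : ℝ, Λ = Real.log L / K := ⟨_, rfl⟩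
  have hlogL : 0 < Real.log (L : ℝ) := Real.log_pos (by linarith)
  have hΛ0 : 0 < Λ := by
    rw [hΛ]
    positivity
  have hKΛ : (K : ℝ) * Λ = Real.log L := by
    rw [hΛ]
    field_simp
  have hlam1 : 1 ≤ lam K L := QW1_lam_one K L hL
  have hloglam : Real.log (lam K L) = Λ := by
    rw [QW1_log_lam K L hL, hΛ]
  -- the size of `kst`
  have hbig : ε * K ≤ kst + 1 := by
    rcases lt_or_ge kst K with h | h
    · have h1 : ¬ (kst + 1 ≤ lv K L (j k₂)) := by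
        have := hlv k₂ hk2q
        omega
      rw [lv_iff K hK L hL (j k₂) kst h, not_le] at h1
      have h2 : (L : ℝ) ^ ε ≤ lam K L ^ (kst + 1) := hk2.trans h1.le
      have h3 := Real.log_le_log (Real.rpow_pos_of_pos (by linarith) ε) h2
      rw [Real.log_rpow (by linarith), Real.log_pow, hloglam, ← hKΛ] at h3
      push_cast at h3
      rw [← mul_assoc] at h3
      exact le_of_mul_le_mul_right h3 hΛ0
    · have h1 : (K : ℝ) ≤ kst := by exact_mod_cast h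
      have h2 : ε * K ≤ K := mul_le_of_le_one_left (Nat.cast_nonneg K) hε1
      linarith
  have hkst1 : 1 ≤ kst := by
    have h2 : (1 : ℝ) ≤ kst := by linarith
    exact_mod_cast h2
  obtain ⟨t, ht⟩ : ∃ t, kst = t + 1 := ⟨kst - 1, by omega⟩
  obtain ⟨K', hK'⟩ : ∃ K', K = K' + 1 := ⟨K - 1, by omega⟩
  have htr : (t : ℝ) = kst - 1 := by
    rw [ht]
    push_cast
    ring
  have hkK : (kst : ℝ) ≤ K := by exact_mod_cast hkst
  -- sums over the ranges
  have hpart : ∀ a : ℕ → ℝ, ∑ k ∈ range kst, ∑ p ∈ Pk M K L k, a p = ∑ p ∈ QW1_Q M (zz K L t), a p := by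
    intro a
    rw [ht]
    exact QW1_part M K L hL a t
  have hpartK : ∀ a : ℕ → ℝ, ∑ k ∈ range K, ∑ p ∈ Pk M K L k, a p = ∑ p ∈ QW1_Q M (zz K L K'), a p := by
    intro a
    have h := QW1_part M K L hL a K'
    rwa [← hK'] at h
  have hx2 : ∀ k, 2 ≤ zz K L k := fun k => QW1_zz_two K L hL k
  have hll : ∀ k : ℕ, Real.log (Real.log (zz K L k)) = ((k : ℝ) + 1 / 2) * Λ := fun k => by
    rw [QW1_loglog K L hL k, hΛ]
  have hllt : Real.log (Real.log (zz K L t)) = ((kst : ℝ) - 1 / 2) * Λ := by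
    rw [hll, htr]
    ring
  have hone : ∑ p ∈ QW1_Q M (zz K L t), (1 : ℝ) / p ≤ ((kst : ℝ) - 1 / 2) * Λ + CX := by
    have := hCX _ (hx2 t)
    rwa [hllt] at this
  have hone' : ∑ p ∈ QW1_Q M (zz K L t), (1 : ℝ) / p ≤ Real.log L + CX := by
    have : ((kst : ℝ) - 1 / 2) * Λ ≤ K * Λ := mul_le_mul_of_nonneg_right (by linarith) hΛ0.le
    rw [hKΛ] at this
    linarith
  have hsS : (1 / n₀ : ℝ) * (((kst : ℝ) - 1 / 2) * Λ) - CS ≤ ∑ p ∈ QW1_Q M (zz K L t), PT.ind S p / p := by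
    have := hCS _ (hx2 t)
    rwa [hllt] at this
  have hRP := QW1_RP g M K K' hK' L hL
  have hsq := QW1_sq M (zz K L t) C1 hC1
  have hNCX : 0 ≤ (N : ℝ) * CX := by positivity
  refine ⟨?_, ?_⟩
  · -- lower bound
    have hlow : ∑ k ∈ range kst, ∑ p ∈ Pk M K L k,
        (((rts g (univ.filter fun i => k + 1 ≤ lv K L (j i)) p : ℝ) - PT.ind (EL.RP g) p + PT.ind S p / 4) / p -
          C1 / (p : ℝ) ^ 2) ≤ ∑ k ∈ range kst, ∑ p ∈ Pk M K L k, ω p := by
      refine Finset.sum_le_sum fun k hk => Finset.sum_le_sum fun p hp => ?_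
      exact (hω k (Finset.mem_range.mp hk) p hp).1
    have hdec : ∑ k ∈ range kst, ∑ p ∈ Pk M K L k,
        (((rts g (univ.filter fun i => k + 1 ≤ lv K L (j i)) p : ℝ) - PT.ind (EL.RP g) p + PT.ind S p / 4) / p -
          C1 / (p : ℝ) ^ 2) =
        ∑ k ∈ range kst, ∑ p ∈ Pk M K L k, (rts g (univ.filter fun i => k + 1 ≤ lv K L (j i)) p : ℝ) / p -
        ∑ k ∈ range kst, ∑ p ∈ Pk M K L k, PT.ind (EL.RP g) p / p +
        1 / 4 * ∑ k ∈ range kst, ∑ p ∈ Pk M K L k, PT.ind S p / p -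
        ∑ k ∈ range kst, ∑ p ∈ Pk M K L k, C1 / (p : ℝ) ^ 2 := by
      rw [Finset.mul_sum, ← Finset.sum_sub_distrib, ← Finset.sum_add_distrib, ← Finset.sum_sub_distrib]
      refine Finset.sum_congr rfl fun k _ => ?_
      rw [Finset.mul_sum, ← Finset.sum_sub_distrib, ← Finset.sum_add_distrib, ← Finset.sum_sub_distrib]
      refine Finset.sum_congr rfl fun p _ => ?_
      ring
    rw [hdec, QW1_exch g M K L (fun i => lv K L (j i)) kst, hpart (fun p => PT.ind S p / p),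
      hpart (fun p => C1 / (p : ℝ) ^ 2)] at hlow
    -- the ranges `k ≥ kst + 2`
    have hdec2 : ∑ k ∈ Ico (kst + 2) K, ∑ p ∈ Pk M K L k, ((PT.rt (g q) p : ℝ) - PT.ind (EL.RP g) p) / p =
        ∑ k ∈ Ico (kst + 2) K, ∑ p ∈ Pk M K L k, (PT.rt (g q) p : ℝ) / p -
        ∑ k ∈ Ico (kst + 2) K, ∑ p ∈ Pk M K L k, PT.ind (EL.RP g) p / p := by
      rw [← Finset.sum_sub_distrib]
      refine Finset.sum_congr rfl fun k _ => ?_
      rw [← Finset.sum_sub_distrib]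
      refine Finset.sum_congr rfl fun p _ => ?_
      ring
    rw [hdec2]
    -- the sum of `ind RP`
    have hRP2 : ∑ k ∈ range kst, ∑ p ∈ Pk M K L k, PT.ind (EL.RP g) p / p +
        ∑ k ∈ Ico (kst + 2) K, ∑ p ∈ Pk M K L k, PT.ind (EL.RP g) p / p ≤ EL.TT g (Real.exp L) := by
      refine (QW1_split' (fun k => ∑ p ∈ Pk M K L k, PT.ind (EL.RP g) p / p) kst K hkst fun k => ?_).trans ?_
      · refine Finset.sum_nonneg fun p _ => div_nonneg ?_ (Nat.cast_nonneg p)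
        unfold PT.ind
        split_ifs <;> norm_num
      · rw [hpartK]
        exact hRP
    -- the sum of `rt (g q)`
    have hBq : ∀ p : ℕ, p.Prime → (PT.rt (g q) p : ℝ) ≤ B := by
      intro p hp
      have h1 : PT.rt (g q) p ≤ B := by
        rw [hB]
        exact (hBi q p hp).trans (Finset.single_le_sum (f := Bi) (fun i _ => Nat.zero_le _) (Finset.mem_univ q))
      exact_mod_cast h1
    have hq2 : ∑ k ∈ range K, ∑ p ∈ Pk M K L k, (PT.rt (g q) p : ℝ) / p ≤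
        ∑ k ∈ range kst, ∑ p ∈ Pk M K L k, (PT.rt (g q) p : ℝ) / p +
        ∑ k ∈ Ico (kst + 2) K, ∑ p ∈ Pk M K L k, (PT.rt (g q) p : ℝ) / p + 2 * (B * (Λ + CL)) := by
      refine QW1_split (fun k => ∑ p ∈ Pk M K L k, (PT.rt (g q) p : ℝ) / p) kst K hkst (B * (Λ + CL))
        (by positivity) fun k hk => ?_
      obtain ⟨k', hk'⟩ : ∃ k', k = k' + 1 := ⟨k - 1, by omega⟩
      have h1 : ∑ p ∈ Pk M K L k, (PT.rt (g q) p : ℝ) / p ≤ ∑ p ∈ Pk M K L k, (B : ℝ) * (1 / p) := by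
        refine Finset.sum_le_sum fun p hp => ?_
        have hpp : p.Prime := by
          simp only [Pk, Finset.mem_filter] at hp
          exact hp.2.1
        have h2 := div_le_div_of_nonneg_right (hBq p hpp) (Nat.cast_nonneg p : (0 : ℝ) ≤ (p : ℝ))
        have h3 : (B : ℝ) / p = B * (1 / p) := by ring
        rw [← h3]
        exact h2
      rw [← Finset.mul_sum] at h1
      have h4 : ∑ p ∈ Pk M K L k, (1 : ℝ) / p ≤ Λ + CL := by
        rw [hk', hΛ]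
        exact hCL K L hL k'
      exact h1.trans (mul_le_mul_of_nonneg_left h4 hB0)
    -- the index `q`
    have hlvq : lv K L (j q) = K := lv_top K hK L hL (j q) (by rw [hjq])
    -- every index
    have hi : ∀ i, Real.log (1 + j i) - Real.log 2 - 3 / 2 * Λ - Cl i ≤
        ∑ k ∈ range (lv K L (j i)), ∑ p ∈ Pk M K L k, (PT.rt (g i) p : ℝ) / p := by
      intro i
      have hle := lv_le K L (j i)
      have hj0 : (0 : ℝ) ≤ (j i : ℝ) := by positivity
      rcases Nat.eq_zero_or_pos (lv K L (j i)) with h0 | h0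
      · rw [h0, Finset.range_zero, Finset.sum_empty]
        have h1 : ¬ (0 + 1 ≤ lv K L (j i)) := by omega
        rw [lv_iff K hK L hL (j i) 0 hK] at h1
        have h2 : (j i : ℝ) < lam K L := by
          rw [not_le] at h1
          simpa using h1
        have h3 : Real.log (1 + j i) ≤ Real.log (2 * lam K L) := by
          apply Real.log_le_log (by positivity)
          linarith
        rw [Real.log_mul (by norm_num) (by positivity), hloglam] at h3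
        linarith [hCl0 i]
      · obtain ⟨l, hl⟩ : ∃ l, lv K L (j i) = l + 1 := ⟨lv K L (j i) - 1, by omega⟩
        rw [hl, QW1_part M K L hL]
        have h4 := hCl i _ (hx2 l)
        rw [hll] at h4
        have h5 : Real.log (1 + j i) ≤ Real.log 2 + ((l : ℝ) + 2) * Λ := by
          rcases Nat.lt_or_ge (l + 1) K with h6 | h6
          · have h7 : ¬ (l + 1 + 1 ≤ lv K L (j i)) := by omega
            rw [lv_iff K hK L hL (j i) (l + 1) h6, not_le] at h7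
            have h8 : (1 : ℝ) ≤ lam K L ^ (l + 1 + 1) := one_le_pow₀ hlam1
            have h9 : Real.log (1 + j i) ≤ Real.log (2 * lam K L ^ (l + 1 + 1)) := by
              apply Real.log_le_log (by positivity)
              linarith
            rw [Real.log_mul (by norm_num) (by positivity), Real.log_pow, hloglam] at h9
            push_cast at h9
            linarith
          · have h7 : (j i : ℝ) ≤ L := by exact_mod_cast hj1 i
            have h9 : Real.log (1 + j i) ≤ Real.log (2 * L) := by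
              apply Real.log_le_log (by positivity)
              linarith
            rw [Real.log_mul (by norm_num) (by positivity)] at h9
            have h10 : (K : ℝ) ≤ l + 1 := by exact_mod_cast h6
            have h11 := mul_le_mul_of_nonneg_right h10 hΛ0.le
            rw [hKΛ] at h11
            have h12 : ((l : ℝ) + 2) * Λ = (l + 1) * Λ + Λ := by ring
            rw [h12]
            linarith
        linarith
    obtain ⟨R, hR⟩ : ∃ R : Finset ι, R = univ.erase q := ⟨_, rfl⟩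
    have hspl : ∀ f : ι → ℝ, ∑ i, f i = f q + ∑ i ∈ R, f i := fun f => by
      rw [hR, Finset.add_sum_erase _ f (Finset.mem_univ q)]
    have hsum : ∑ i ∈ R, (Real.log (1 + j i) - Real.log 2 - 3 / 2 * Λ - Cl i) ≤
        ∑ i ∈ R, ∑ k ∈ range (min (lv K L (j i)) kst), ∑ p ∈ Pk M K L k, (PT.rt (g i) p : ℝ) / p := by
      refine Finset.sum_le_sum fun i hi' => ?_
      rw [hR] at hi'
      rw [min_eq_left (hlv i (Finset.ne_of_mem_erase hi'))]
      exact hi i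
    have hiq := hi q
    rw [hlvq] at hiq
    have hcard : ((univ : Finset ι).card : ℝ) = m := by
      rw [hm, ← Finset.card_univ]
    have hexp : ∑ i, (Real.log (1 + j i) - Real.log 2 - 3 / 2 * Λ - Cl i) =
        ∑ i, Real.log (1 + j i) - (m : ℝ) * Real.log 2 - (m : ℝ) * (3 / 2 * Λ) - ∑ i, Cl i := by
      rw [Finset.sum_sub_distrib, Finset.sum_sub_distrib, Finset.sum_sub_distrib, Finset.sum_const, Finset.sum_const,
        nsmul_eq_mul, nsmul_eq_mul, hcard]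
    rw [hspl fun i => Real.log (1 + (j i : ℝ)) - Real.log 2 - 3 / 2 * Λ - Cl i] at hexp
    rw [hspl fun i => ∑ k ∈ range (min (lv K L (j i)) kst), ∑ p ∈ Pk M K L k, (PT.rt (g i) p : ℝ) / p] at hlow
    simp only [hlvq, min_eq_right hkst] at hlow
    -- the gain
    have hn0 : (0 : ℝ) < n₀ := by linarith
    have hgain : ε / (16 * n₀) * Real.log L + m * (3 / 2 * Λ) + ε / (32 * n₀) * Real.log L + 2 * (B * Λ) ≤
        1 / 4 * ((1 / n₀) * (((kst : ℝ) - 1 / 2) * Λ)) := by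
      rw [← hKΛ]
      have h1 : ε * K - 3 / 2 ≤ (kst : ℝ) - 1 / 2 := by linarith
      have h2 : 1 / 4 * ((1 / n₀) * ((ε * K - 3 / 2) * Λ)) ≤ 1 / 4 * ((1 / (n₀ : ℝ)) * (((kst : ℝ) - 1 / 2) * Λ)) := by
        refine mul_le_mul_of_nonneg_left (mul_le_mul_of_nonneg_left
          (mul_le_mul_of_nonneg_right h1 hΛ0.le) (by positivity)) (by norm_num)
      refine le_trans ?_ h2
      have h3 : ε / (16 * n₀) * (K * Λ) + m * (3 / 2 * Λ) + ε / (32 * n₀) * (K * Λ) + 2 * (B * Λ) =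
          (3 * (ε * K) + 32 * n₀ * (3 / 2 * m + 2 * B)) / (32 * n₀) * Λ := by
        field_simp
        ring
      have h4 : 1 / 4 * ((1 / n₀) * ((ε * K - 3 / 2) * Λ)) = (8 * (ε * K) - 12) / (32 * n₀) * Λ := by
        field_simp
        ring
      rw [h3, h4]
      refine mul_le_mul_of_nonneg_right (div_le_div_of_nonneg_right ?_ (by positivity)) hΛ0.le
      have h5 : (0 : ℝ) ≤ n₀ * m := by positivity
      have h6 : (0 : ℝ) ≤ n₀ * B := by positivity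
      linarith
    have hCS4 : 1 / 4 * CS ≤ CS := by linarith
    have hS4 := mul_le_mul_of_nonneg_left hsS (show (0 : ℝ) ≤ 1 / 4 by norm_num)
    rw [mul_sub] at hS4
    have hdist : 2 * ((B : ℝ) * (Λ + CL)) = 2 * (B * Λ) + 2 * (B * CL) := by ring
    rw [hdist] at hq2
    linarith
  · -- upper bound
    have h1 : ∑ k ∈ range kst, ∑ p ∈ Pk M K L k, ω p ≤ ∑ k ∈ range kst, ∑ p ∈ Pk M K L k, (N : ℝ) / p := by
      refine Finset.sum_le_sum fun k hk => Finset.sum_le_sum fun p hp => ?_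
      exact (hω k (Finset.mem_range.mp hk) p hp).2
    rw [hpart (fun p => (N : ℝ) / p)] at h1
    have h2 : ∑ p ∈ QW1_Q M (zz K L t), (N : ℝ) / p = N * ∑ p ∈ QW1_Q M (zz K L t), (1 : ℝ) / p := by
      rw [Finset.mul_sum]
      exact Finset.sum_congr rfl fun p _ => by ring
    rw [h2] at h1
    have h3 : (N : ℝ) * ∑ p ∈ QW1_Q M (zz K L t), (1 : ℝ) / p ≤ N * (Real.log L + CX) :=
      mul_le_mul_of_nonneg_left hone' (by positivity)
    have h4 : 0 ≤ ((m : ℝ) + 1) * Real.log 2 := by positivity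
    have h5 : 0 ≤ (B : ℝ) * CL := by positivity
    rw [mul_add] at h3
    linarith

end QV
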