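import Pool.Agent.Lib.MP_10e784_agQV.QS0
import Pool.Agent.Lib.MP_10e784_agQV.M4
import Pool.Agent.Lib.MP_10e784_agQV.QR1
import Pool.Agent.Lib.MP_10e784_agQV.QR2
import Pool.Agent.Lib.MP_10e784_agQV.QT1
import Pool.Agent.Lib.MP_10e784_agQV.QT2
import Pool.Agent.Lib.MP_10e784_agQV.QW1
import Pool.Agent.Lib.MP_10e784_agN2.N4
import Pool.Agent.Lib.MP_10e784_agTR.TWSV

/-! JOB QS1.  The layers with `e q` on top, vectors without exceptional norms.
MODEL: `QV.sv_good` (file S1.lean; in work or proved, see the store) and `EN.sv3` (file MP_10e784_agN2/N4.lean).  Differences from `sv_good`: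
Data: `M1` from `good_exists`, `M2` from `Qd`, everything for `M * M1 * M2`; `C1` from `EN.omega3` (`3 ≤ dg g I`); `W_q`; `mq_bound`; `top_range_q` with `s := card ι`, `M1 := M1'` (an arbitrary given number, see the statement); `top_low_q` for `M * M1 * M2`.
`L = j q`, `kst = sup_{i ≠ q} lv K L (j i)`; `m = ∑_{i ≠ q} j i ≤ card ι * lam ^ (kst + 1)` if `kst < K`.
Small ranges `k < kst`: the index set contains `q` and a second index, so `dg ≥ 4`.  Top ranges: `U c ↔ c.1 = q`, `Ω' x p = tQ g q (mq g q x) p`, `ω' x p = twq g q (mq g q x) p` (`top_count_q`; `mq_congr`).  `Good x`: `mq g q x ≠ 0`, `|mq g q x| ≤ Q` and the condition on `sw`.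
`∑_{top} ω' ≥ ∑_{p ∈ (2 ^ a, 2 ^ b], p ∤ M M1 M2} ω' ≥ ∑ rt (g q) p / (2 p) - η log (b / a) - C` (`top_low_q`), and `rt (g q) p / 2 = rt (g q) p - ind RP p` for these primes (`rt = 0` or `2` by `bt_facts`; if `rt = 2` then `p ∈ RP`; if `p ∈ RP` then `rt = 2` by `Qd`); the primes in the top ranges outside `(2 ^ a, 2 ^ b]` lie in `(z, 2 z]` for two values of `z`, the sum of their `1 / p` is at most a constant; `log (b / a) ≤ log (2 L)`.  So `∑_{top} ω' ≥ T0 := ∑_{k ∈ Ico (kst + 2) K} ∑_{P k} (rt (g q) p - ind RP p) / p - η log L - C`, `α = 3 ^ K exp (- T0)`.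
If `K ≤ kst + 2`: no top ranges, as in the model.
Local conditions: `al_sq_q` for every root `t`.
The result: `exp (- (W + T0)) ≤ C exp (TT g (exp L)) ∏ (1 + j i)⁻¹ L ^ (-c)` by `W_q`.  (`TT ≥ 0`.) -/

set_option autoImplicit false

namespace QV

open Finset Polynomial TW TR

open Filter in
private theorem QS1_ev (K : ℕ) (hK : 0 < K) (A B c : ℝ) (hc : 0 < c) :
    ∀ᶠ L : ℕ in atTop, A * Real.log L + B ≤ c * lam K L ^ (1 / 2 : ℝ) := by
  have hK' : (0 : ℝ) < K := by exact_mod_cast hK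
  set a : ℝ := (1 / K) * (1 / 2) with ha
  have ha0 : 0 < a := by positivity
  have h1 : (fun x : ℝ => A * Real.log x) =o[atTop] fun x => x ^ a :=
    (isLittleO_log_rpow_atTop ha0).const_mul_left A
  have h2 : (fun _ : ℝ => B) =o[atTop] fun x : ℝ => x ^ a := by
    apply Asymptotics.isLittleO_const_left.mpr
    right
    exact tendsto_norm_atTop_atTop.comp (tendsto_rpow_atTop ha0)
  have h3 := (h1.add h2).bound hc
  have h4 := (tendsto_natCast_atTop_atTop (R := ℝ)).eventually h3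
  filter_upwards [h4, eventually_ge_atTop 1] with L hL hL1
  have hL0 : (0 : ℝ) ≤ L := Nat.cast_nonneg L
  have h5 : lam K L ^ (1 / 2 : ℝ) = (L : ℝ) ^ a := by
    unfold lam
    rw [← Real.rpow_mul hL0, ha]
  rw [h5]
  have h6 : 0 ≤ (L : ℝ) ^ a := Real.rpow_nonneg hL0 _
  calc A * Real.log L + B ≤ ‖A * Real.log L + B‖ := le_abs_self _
    _ ≤ c * ‖(L : ℝ) ^ a‖ := hL
    _ = c * (L : ℝ) ^ a := by rw [Real.norm_of_nonneg h6]

private theorem QS1_prod_le (P : Finset ℕ) (ω : ℕ → ℝ) (h : ∀ p ∈ P, 0 ≤ ω p ∧ ω p ≤ 1) :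
    ∏ p ∈ P, (1 - ω p) ≤ Real.exp (-∑ p ∈ P, ω p) := by
  rw [← Finset.sum_neg_distrib, Real.exp_sum]
  apply Finset.prod_le_prod
  · intro p hp
    linarith [(h p hp).2]
  · intro p hp
    have := Real.add_one_le_exp (-ω p)
    linarith

private theorem QS1_prod_le' (P : Finset ℕ) (ω : ℕ → ℝ) (h : ∀ p ∈ P, 0 ≤ ω p) :
    ∏ p ∈ P, (1 + ω p) ≤ Real.exp (∑ p ∈ P, ω p) := by
  rw [Real.exp_sum]
  apply Finset.prod_le_prod
  · intro p hp
    linarith [h p hp]
  · intro p hp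
    have := Real.add_one_le_exp (ω p)
    linarith

private theorem QS1_tl_nonneg (D : ℝ) (P : Finset ℕ) (ω : ℕ → ℝ) (h : ∀ p ∈ P, 0 ≤ ω p) : 0 ≤ tl D P ω := by
  unfold tl
  apply Finset.sum_nonneg
  intro T hT
  apply Finset.prod_nonneg
  intro p hp
  exact h p (Finset.mem_powerset.mp (Finset.mem_filter.mp hT).1 hp)

/-- one range -/
private theorem QS1_one (K : ℕ) (L : ℝ) (hL : 1 ≤ L) (c1 : ℝ) (hc1 : 0 ≤ c1) (k : ℕ) (P : Finset ℕ)
    (hP : ∀ p ∈ P, 1 ≤ p ∧ (p : ℝ) ≤ zz K L k) (ω : ℕ → ℝ) (hω : ∀ p ∈ P, 0 ≤ ω p ∧ ω p ≤ 1)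
    (hb : (Real.exp 1 + 1) * ∑ p ∈ P, ω p ≤ c1 * lam K L ^ (1 / 2 : ℝ)) :
    ∏ p ∈ P, (1 - ω p) + 2 * tl (Dd c1 K L k) P ω ≤ 3 * Real.exp (-∑ p ∈ P, ω p) := by
  have hlam : 0 < lam K L := Real.rpow_pos_of_pos (by linarith) _
  have hD : 1 ≤ Dd c1 K L k := by
    unfold Dd
    exact Real.one_le_exp (by positivity)
  have hz : 1 < zz K L k := by
    unfold zz
    exact Real.one_lt_exp_iff.mpr (Real.rpow_pos_of_pos hlam _)
  have h1 := tail (Dd c1 K L k) (zz K L k) hD hz P hP ω (fun p hp => (hω p hp).1)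
  have h2 : Real.log (Dd c1 K L k) / Real.log (zz K L k) = c1 * lam K L ^ (1 / 2 : ℝ) := by
    unfold Dd zz
    rw [Real.log_exp, Real.log_exp]
    have h3 : lam K L ^ (k + 1) = lam K L ^ ((k : ℝ) + 1 / 2) * lam K L ^ (1 / 2 : ℝ) := by
      rw [← Real.rpow_add hlam, ← Real.rpow_natCast]
      congr 1
      push_cast
      ring
    rw [h3]
    have h4 : lam K L ^ ((k : ℝ) + 1 / 2) ≠ 0 := (Real.rpow_pos_of_pos hlam _).ne'
    field_simp
  rw [h2, ← Real.exp_add] at h1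
  have h3 := QS1_prod_le P ω hω
  have h4 : Real.exp (-(c1 * lam K L ^ (1 / 2 : ℝ)) + Real.exp 1 * ∑ p ∈ P, ω p) ≤
      Real.exp (-∑ p ∈ P, ω p) := by
    apply Real.exp_le_exp.mpr
    nlinarith
  linarith

/-! the primes of the ranges -/

private theorem QS1_lam_one (K : ℕ) (L : ℝ) (hL : 1 ≤ L) : 1 ≤ lam K L :=
  Real.one_le_rpow hL (by positivity)

private theorem QS1_zz_mono (K : ℕ) (L : ℝ) (hL : 1 ≤ L) (k k' : ℕ) (h : k ≤ k') : zz K L k ≤ zz K L k' := by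
  unfold zz
  apply Real.exp_le_exp.mpr
  apply Real.rpow_le_rpow_of_exponent_le (QS1_lam_one K L hL)
  have : (k : ℝ) ≤ k' := by exact_mod_cast h
  linarith

private theorem QS1_zz_two (K : ℕ) (L : ℝ) (hL : 1 ≤ L) (k : ℕ) : 2 ≤ zz K L k := by
  unfold zz
  have h1 : (1 : ℝ) ≤ lam K L ^ ((k : ℝ) + 1 / 2) := Real.one_le_rpow (QS1_lam_one K L hL) (by positivity)
  have h2 := Real.add_one_le_exp (lam K L ^ ((k : ℝ) + 1 / 2))
  linarith

private theorem QS1_loglog (K : ℕ) (L : ℝ) (hL : 1 ≤ L) (k : ℕ) :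
    Real.log (Real.log (zz K L k)) = ((k : ℝ) + 1 / 2) * (Real.log L / K) := by
  unfold zz
  rw [Real.log_exp, Real.log_rpow (by linarith [QS1_lam_one K L hL])]
  unfold lam
  rw [Real.log_rpow (by linarith)]
  ring
private noncomputable def QS1_Q (M : ℕ) (x : ℝ) : Finset ℕ := (Icc 1 ⌊x⌋₊).filter fun p => p.Prime ∧ ¬ p ∣ M

private theorem QS1_part (M K : ℕ) (L : ℝ) (hL : 1 ≤ L) (a : ℕ → ℝ) (l : ℕ) :
    ∑ k ∈ range (l + 1), ∑ p ∈ Pk M K L k, a p = ∑ p ∈ QS1_Q M (zz K L l), a p := by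
  induction l with
  | zero =>
    rw [zero_add, Finset.sum_range_one]
    apply Finset.sum_congr _ (fun _ _ => rfl)
    ext p
    simp [Pk, QS1_Q]
  | succ l ih =>
    rw [Finset.sum_range_succ, ih, ← Finset.sum_union]
    · apply Finset.sum_congr _ (fun _ _ => rfl)
      ext p
      have h0 : (0 : ℝ) ≤ zz K L l := by linarith [QS1_zz_two K L hL l]
      have h1 : (0 : ℝ) ≤ zz K L (l + 1) := by linarith [QS1_zz_two K L hL (l + 1)]
      have h2 := QS1_zz_mono K L hL l (l + 1) (by omega)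
      simp only [Pk, QS1_Q, Finset.mem_union, Finset.mem_filter, Finset.mem_Icc, Nat.le_floor_iff h0,
        Nat.le_floor_iff h1, Nat.add_sub_cancel]
      constructor
      · rintro (⟨⟨h3, h4⟩, h5⟩ | ⟨⟨h3, h4⟩, h5⟩)
        · exact ⟨⟨h3, h4.trans h2⟩, h5⟩
        · exact ⟨⟨h3, h4⟩, h5.1, h5.2.1⟩
      · rintro ⟨⟨h3, h4⟩, h5⟩
        rcases le_or_gt (p : ℝ) (zz K L l) with h6 | h6
        · exact Or.inl ⟨⟨h3, h6⟩, h5⟩
        · exact Or.inr ⟨⟨h3, h4⟩, h5.1, h5.2, Or.inr h6⟩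
    · rw [Finset.disjoint_left]
      intro p hp hp2
      have h0 : (0 : ℝ) ≤ zz K L l := by linarith [QS1_zz_two K L hL l]
      simp only [Pk, QS1_Q, Finset.mem_filter, Finset.mem_Icc, Nat.le_floor_iff h0, Nat.add_sub_cancel] at hp hp2
      rcases hp2.2.2.2 with h | h
      · omega
      · linarith [hp.1.2]

private theorem QS1_up (M : ℕ) (a : ℕ → ℝ) (ha : ∀ p : ℕ, p.Prime → 0 ≤ a p) (x : ℝ) :
    ∑ p ∈ QS1_Q M x, a p / p ≤ PT.PS a x := by
  unfold QS1_Q PT.PS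
  apply Finset.sum_le_sum_of_subset_of_nonneg
  · intro p hp
    simp only [Finset.mem_filter] at hp ⊢
    exact ⟨hp.1, hp.2.1⟩
  · intro p hp _
    simp only [Finset.mem_filter] at hp
    exact div_nonneg (ha p hp.2) (by positivity)

private theorem QS1_rtX (p : ℕ) (hp : p.Prime) : PT.rt (X : ℤ[X]) p = 1 := by
  have : Fact p.Prime := ⟨hp⟩
  unfold PT.rt
  simp only [Polynomial.map_X, eval_X]
  rw [Nat.card_unique]

private theorem QS1_inv (M : ℕ) : ∃ C : ℝ, 0 ≤ C ∧ ∀ x : ℝ, 2 ≤ x →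
    ∑ p ∈ QS1_Q M x, (1 : ℝ) / p ≤ Real.log (Real.log x) + C := by
  obtain ⟨C, hC⟩ := PT.rt_sum (X : ℤ[X]) (by rw [Polynomial.map_X]; exact irreducible_X)
  refine ⟨|C|, abs_nonneg C, fun x hx => ?_⟩
  have h1 := hC x hx
  have h2 := QS1_up M (fun p => (PT.rt (X : ℤ[X]) p : ℝ)) (fun p _ => by positivity) x
  have h3 : ∑ p ∈ QS1_Q M x, (1 : ℝ) / p = ∑ p ∈ QS1_Q M x, (PT.rt (X : ℤ[X]) p : ℝ) / p := by
    refine Finset.sum_congr rfl fun p hp => ?_
    simp only [QS1_Q, Finset.mem_filter] at hp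
    rw [QS1_rtX p hp.2.1]
    simp
  rw [h3]
  linarith [le_abs_self C]
/-- the sum of `1 / p` over an interval `(z, 2 z]` -/
private theorem QS1_iv (z : ℝ) (hz : 1 ≤ z) (P : Finset ℕ) (hP : ∀ p ∈ P, z < (p : ℝ) ∧ (p : ℝ) ≤ 2 * z) :
    ∑ p ∈ P, (1 : ℝ) / p ≤ 2 := by
  have hz0 : 0 < z := by linarith
  have h1 : ∀ p ∈ P, (1 : ℝ) / p ≤ 1 / z := fun p hp => one_div_le_one_div_of_le hz0 (hP p hp).1.le
  have h2 := Finset.sum_le_card_nsmul _ _ _ h1
  rw [nsmul_eq_mul] at h2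
  have h3 : P ⊆ Ioc ⌊z⌋₊ ⌊2 * z⌋₊ := by
    intro p hp
    rw [Finset.mem_Ioc]
    exact ⟨(Nat.floor_lt hz0.le).2 (hP p hp).1, Nat.le_floor (hP p hp).2⟩
  have h4 := Finset.card_le_card h3
  rw [Nat.card_Ioc] at h4
  have h5 : z < (⌊z⌋₊ : ℝ) + 1 := Nat.lt_floor_add_one z
  have h6 : ((⌊2 * z⌋₊ : ℕ) : ℝ) ≤ 2 * z := Nat.floor_le (by linarith)
  have h7 : (P.card : ℝ) ≤ 2 * z := by
    have h8 : ⌊z⌋₊ ≤ ⌊2 * z⌋₊ := Nat.floor_le_floor (by linarith)
    have h9 : (P.card : ℝ) ≤ (⌊2 * z⌋₊ : ℝ) - (⌊z⌋₊ : ℝ) := by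
      rw [← Nat.cast_sub h8]
      exact_mod_cast h4
    linarith
  calc ∑ p ∈ P, (1 : ℝ) / p ≤ (P.card : ℝ) * (1 / z) := h2
    _ ≤ (2 * z) * (1 / z) := mul_le_mul_of_nonneg_right h7 (by positivity)
    _ = 2 := by field_simp

/-- the top ranges -/
private theorem QS1_top {ι : Type} [Fintype ι] [DecidableEq ι] {g : ι → ℤ[X]} (hg : TR.Fam g) (q : ι)
    (hq : (g q).natDegree = 2) (K : ℕ) (hK : 0 < K) (M : ℕ) (hM : M ≠ 0)
    (hMg : ∀ p : ℕ, p.Prime → ¬ p ∣ M → GoodP g p)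
    (hMq : ∀ p : ℕ, p.Prime → ¬ p ∣ M → p ∈ EL.RP g → PT.rt (g q) p = 2)
    (n : ℕ) (A η c1 : ℝ) (hA : 1 ≤ A) (hη : 0 < η)
    (hη1 : η ≤ 1) (hc1 : 0 < c1) (M1' : ℕ) :
    ∃ (L1 : ℕ) (CT : ℝ), 1 ≤ L1 ∧ 0 ≤ CT ∧ ∀ L kst m : ℕ, L1 ≤ L →
      (kst + 2 < K → (m : ℝ) ≤ n * lam K L ^ (kst + 1)) →
      ∃ a b Q : ℕ, 1 ≤ a ∧ b ≤ 2 * L ∧ A * 2 ^ m ≤ Q ∧ Q < 2 ^ a ∧ M1' < 2 ^ a ∧
        (∀ i ∈ Ico a b, 32 * (Q : ℝ) ^ 2 * (i : ℝ) ^ 2 ≤ η ^ 2 * 2 ^ i) ∧
        -(η * Real.log L) ≤ (∑ k ∈ Ico (kst + 2) K, ∑ p ∈ Pk M K L k, ((PT.rt (g q) p : ℝ) - PT.ind (EL.RP g) p) / p) -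
          η * Real.log L ∧
        ∀ m1 : ℤ, m1 ≠ 0 → |m1| ≤ (Q : ℤ) → (∀ i ∈ Ico a b, |sw (bt g q) m1 i| ≤ η / i) →
          ∏ k : Fin (K - (kst + 2)), (∏ p ∈ Pk M K L (kst + 2 + k), (1 - twq g q m1 p) +
              2 * tl (Dd c1 K L (kst + 2 + k)) (Pk M K L (kst + 2 + k)) (twq g q m1)) ≤
            3 ^ K * Real.exp (-((∑ k ∈ Ico (kst + 2) K, ∑ p ∈ Pk M K L k,
              ((PT.rt (g q) p : ℝ) - PT.ind (EL.RP g) p) / p) - η * Real.log L) + CT) ∧
          ∏ k : Fin (K - (kst + 2)), ∏ p ∈ Pk M K L (kst + 2 + k), (1 + twq g q m1 p) ≤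
            Real.exp (2 * Real.log L + CT) := by
  obtain ⟨L0, hL0, hrange⟩ := top_range_q K hK n A η hA hη M1'
  obtain ⟨Cl, hCl, hlow⟩ := top_low_q hg q hq M hM
  obtain ⟨CX, hCX0, hCX⟩ := QS1_inv M
  have hev := QS1_ev K hK (2 * (Real.exp 1 + 1)) (2 * (Real.exp 1 + 1) * CX) c1 hc1
  obtain ⟨L2, hL2⟩ := Filter.eventually_atTop.mp hev
  have hlog2 : 0 < Real.log 2 := Real.log_pos (by norm_num)
  refine ⟨max L0 L2, Cl + 4 + Real.log 2 + 2 * CX, hL0.trans (le_max_left _ _), by positivity, ?_⟩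
  intro L kst m hL hm
  have hLL0 : L0 ≤ L := (le_max_left _ _).trans hL
  have hLL2 : L2 ≤ L := (le_max_right _ _).trans hL
  have hL1 : (1 : ℝ) ≤ (L : ℝ) := by exact_mod_cast hL0.trans hLL0
  have hlogL : 0 ≤ Real.log (L : ℝ) := Real.log_nonneg hL1
  have hKr : (0 : ℝ) < K := by exact_mod_cast hK
  have h3K : (1 : ℝ) ≤ 3 ^ K := one_le_pow₀ (by norm_num)
  have hPk : ∀ k p, p ∈ Pk M K L k → p.Prime ∧ ¬ p ∣ M ∧ 1 ≤ p ∧ (p : ℝ) ≤ zz K L k := by
    intro k p hp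
    unfold Pk at hp
    rw [Finset.mem_filter, Finset.mem_Icc] at hp
    have h0 : 0 ≤ zz K L k := (Real.exp_pos _).le
    exact ⟨hp.2.1, hp.2.2.1, hp.1.1, (Nat.le_floor_iff h0).mp hp.1.2⟩
  -- `rt - ind = rt / 2`
  have hhalf : ∀ p : ℕ, p.Prime → ¬ p ∣ M → ((PT.rt (g q) p : ℝ) - PT.ind (EL.RP g) p) / p = (PT.rt (g q) p : ℝ) / (2 * p) ∧
      0 ≤ (PT.rt (g q) p : ℝ) / (2 * p) ∧ (PT.rt (g q) p : ℝ) / (2 * p) ≤ 1 / p := by
    intro p hp hpM
    have hp0 : (0 : ℝ) < p := by exact_mod_cast hp.pos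
    have h0 := (bt_facts hg q hq p (hMg p hp hpM)).1
    rcases h0 with h0 | h0
    · have h1 : p ∉ EL.RP g := by
        intro h2
        have h3 := hMq p hp hpM h2
        omega
      unfold PT.ind
      rw [if_neg h1, h0]
      simp
    · have h1 : p ∈ EL.RP g := by
        show 1 ≤ TW.rts g univ p
        have h2 : PT.rt (g q) p ≤ TW.rts g univ p :=
          Finset.single_le_sum (f := fun i => PT.rt (g i) p) (fun i _ => Nat.zero_le _) (Finset.mem_univ q)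
        omega
      unfold PT.ind
      rw [if_pos h1, h0]
      have h5 : ((2 : ℕ) : ℝ) / (2 * p) = 1 / p := by
        push_cast
        field_simp
      rw [h5]
      refine ⟨?_, by positivity, le_rfl⟩
      push_cast
      norm_num
  have hTnn : 0 ≤ ∑ k ∈ Ico (kst + 2) K, ∑ p ∈ Pk M K L k, ((PT.rt (g q) p : ℝ) - PT.ind (EL.RP g) p) / p := by
    refine Finset.sum_nonneg fun k _ => Finset.sum_nonneg fun p hp => ?_
    obtain ⟨h1, h2, -⟩ := hhalf p (hPk k p hp).1 (hPk k p hp).2.1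
    rw [h1]
    exact h2
  rcases Nat.lt_or_ge (kst + 2) K with hlt | hge
  · obtain ⟨a, b, Q, ha, hab, hb, hQ1, hQ2, hQM, hQ3, hz1, hz1', hz2, hz2'⟩ := hrange L kst m hLL0 hlt (hm hlt)
    refine ⟨a, b, Q, ha, hb, hQ1, hQ2, hQM, fun i hi => hQ3 i (Finset.mem_Ico.1 hi).1, by linarith, ?_⟩
    intro m1 hm1 hmQ1 hs1
    have hQa : ((Q : ℤ)) < 2 ^ a := by exact_mod_cast hQ2
    have hw := hlow m1 a b η hη.le hη1 ha hab hm1 (lt_of_le_of_lt hmQ1 hQa) hs1
    have htq : ∀ p : ℕ, p.Prime → ¬ p ∣ M → 0 ≤ twq g q m1 p ∧ twq g q m1 p ≤ 1 ∧ twq g q m1 p ≤ 2 / p := fun p hp hpM =>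
      (top_count_q hg q hq m1 p (hMg p hp hpM) 0).2
    have hω : ∀ k, ∀ p ∈ Pk M K L k, 0 ≤ twq g q m1 p ∧ twq g q m1 p ≤ 1 := fun k p hp =>
      ⟨(htq p (hPk k p hp).1 (hPk k p hp).2.1).1, (htq p (hPk k p hp).1 (hPk k p hp).2.1).2.1⟩
    -- all the ranges
    have hKK : K - 1 + 1 = K := by omega
    have hall : ∀ f : ℕ → ℝ, ∑ k ∈ range K, ∑ p ∈ Pk M K L k, f p = ∑ p ∈ QS1_Q M (zz K L (K - 1)), f p := by
      intro f
      have h := QS1_part M K L hL1 f (K - 1)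
      rwa [hKK] at h
    have hlowr : ∀ f : ℕ → ℝ, ∑ k ∈ range (kst + 2), ∑ p ∈ Pk M K L k, f p =
        ∑ p ∈ QS1_Q M (zz K L (kst + 1)), f p := fun f => QS1_part M K L hL1 f (kst + 1)
    have hsplit : ∀ f : ℕ → ℝ, ∑ k ∈ range K, ∑ p ∈ Pk M K L k, f p =
        ∑ k ∈ range (kst + 2), ∑ p ∈ Pk M K L k, f p +
          ∑ k ∈ range (K - (kst + 2)), ∑ p ∈ Pk M K L (kst + 2 + k), f p := by
      intro f
      rw [← Finset.sum_range_add (fun k => ∑ p ∈ Pk M K L k, f p)]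
      congr 2
      omega
    set W : ℝ := ∑ k ∈ range (K - (kst + 2)), ∑ p ∈ Pk M K L (kst + 2 + k), twq g q m1 p with hW
    -- the upper bound
    have hinvK : ∑ k ∈ range K, ∑ p ∈ Pk M K L k, (2 : ℝ) / p ≤ 2 * Real.log L + 2 * CX := by
      rw [hall]
      have h1 := hCX _ (QS1_zz_two K L hL1 (K - 1))
      rw [QS1_loglog K L hL1] at h1
      have h2 : ∑ p ∈ QS1_Q M (zz K L (K - 1)), (2 : ℝ) / p = 2 * ∑ p ∈ QS1_Q M (zz K L (K - 1)), (1 : ℝ) / p := by
        rw [Finset.mul_sum]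
        exact Finset.sum_congr rfl fun p _ => by ring
      rw [h2]
      have h3 : (((K - 1 : ℕ) : ℝ) + 1 / 2) * (Real.log L / K) ≤ Real.log L := by
        have h4 : ((K - 1 : ℕ) : ℝ) = K - 1 := by rw [Nat.cast_sub hK]; simp
        rw [h4]
        have h5 : (K : ℝ) * (Real.log L / K) = Real.log L := by field_simp
        have h6 : 0 ≤ Real.log L / K := by positivity
        nlinarith
      linarith
    have hpart0 : ∀ k, 0 ≤ ∑ p ∈ Pk M K L k, twq g q m1 p := fun k => Finset.sum_nonneg fun p hp => (hω k p hp).1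
    have hsumK : ∑ k ∈ range K, ∑ p ∈ Pk M K L k, twq g q m1 p ≤ 2 * Real.log L + 2 * CX := by
      refine le_trans (Finset.sum_le_sum fun k _ => Finset.sum_le_sum fun p hp => ?_) hinvK
      exact (htq p (hPk k p hp).1 (hPk k p hp).2.1).2.2
    have hWK : W ≤ 2 * Real.log L + 2 * CX := by
      have h1 := hsplit (twq g q m1)
      have h2 : 0 ≤ ∑ k ∈ range (kst + 2), ∑ p ∈ Pk M K L k, twq g q m1 p :=
        Finset.sum_nonneg fun k _ => hpart0 k
      linarith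
    have hWk : ∀ k, k < K - (kst + 2) → ∑ p ∈ Pk M K L (kst + 2 + k), twq g q m1 p ≤ 2 * Real.log L + 2 * CX := by
      intro k hk
      refine le_trans ?_ hWK
      exact Finset.single_le_sum (f := fun k => ∑ p ∈ Pk M K L (kst + 2 + k), twq g q m1 p)
        (fun k' _ => hpart0 _) (Finset.mem_range.mpr hk)
    -- the lower bound
    have hWlow : (∑ k ∈ Ico (kst + 2) K, ∑ p ∈ Pk M K L k, ((PT.rt (g q) p : ℝ) - PT.ind (EL.RP g) p) / p) -
        η * Real.log L - (Cl + 4 + Real.log 2) ≤ W := by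
      have hsub : QS1_Q M (zz K L (kst + 1)) ⊆ QS1_Q M (zz K L (K - 1)) := by
        intro p hp
        simp only [QS1_Q, Finset.mem_filter, Finset.mem_Icc] at hp ⊢
        refine ⟨⟨hp.1.1, hp.1.2.trans (Nat.floor_le_floor (QS1_zz_mono K L hL1 _ _ (by omega)))⟩, hp.2⟩
      have htop : ∀ f : ℕ → ℝ, ∑ k ∈ range (K - (kst + 2)), ∑ p ∈ Pk M K L (kst + 2 + k), f p =
          ∑ p ∈ QS1_Q M (zz K L (K - 1)) \ QS1_Q M (zz K L (kst + 1)), f p := by
        intro f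
        have h2 := hsplit f
        rw [hall, hlowr, ← Finset.sum_sdiff hsub] at h2
        linarith
      have hTm : ∀ p ∈ QS1_Q M (zz K L (K - 1)) \ QS1_Q M (zz K L (kst + 1)), p.Prime ∧ ¬ p ∣ M ∧
          zz K L (kst + 1) < p ∧ (p : ℝ) ≤ zz K L (K - 1) := by
        intro p hp
        have h5 : (0 : ℝ) ≤ zz K L (K - 1) := (Real.exp_pos _).le
        have h6 : (0 : ℝ) ≤ zz K L (kst + 1) := (Real.exp_pos _).le
        simp only [Finset.mem_sdiff, QS1_Q, Finset.mem_filter, Finset.mem_Icc, Nat.le_floor_iff h5,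
          Nat.le_floor_iff h6] at hp
        refine ⟨hp.1.2.1, hp.1.2.2, ?_, hp.1.1.2⟩
        by_contra h7
        exact hp.2 ⟨⟨hp.1.1.1, not_lt.1 h7⟩, hp.1.2⟩
      have hBT : (Ioc (2 ^ a) (2 ^ b)).filter (fun p => p.Prime ∧ ¬ p ∣ M) ⊆
          QS1_Q M (zz K L (K - 1)) \ QS1_Q M (zz K L (kst + 1)) := by
        intro p hp
        simp only [Finset.mem_filter, Finset.mem_Ioc] at hp
        have h3 : (2 : ℝ) ^ a < p := by exact_mod_cast hp.1.1
        have h4 : (p : ℝ) ≤ 2 ^ b := by exact_mod_cast hp.1.2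
        have h5 : (0 : ℝ) ≤ zz K L (K - 1) := (Real.exp_pos _).le
        have h6 : (0 : ℝ) ≤ zz K L (kst + 1) := (Real.exp_pos _).le
        simp only [Finset.mem_sdiff, QS1_Q, Finset.mem_filter, Finset.mem_Icc, Nat.le_floor_iff h5,
          Nat.le_floor_iff h6]
        refine ⟨⟨⟨hp.2.1.one_lt.le, h4.trans hz2⟩, hp.2⟩, fun h7 => ?_⟩
        linarith [h7.1.2]
      have hIco : (∑ k ∈ Ico (kst + 2) K, ∑ p ∈ Pk M K L k, ((PT.rt (g q) p : ℝ) - PT.ind (EL.RP g) p) / p) =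
          ∑ p ∈ QS1_Q M (zz K L (K - 1)) \ QS1_Q M (zz K L (kst + 1)), (PT.rt (g q) p : ℝ) / (2 * p) := by
        rw [Finset.sum_Ico_eq_sum_range, htop]
        exact Finset.sum_congr rfl fun p hp => (hhalf p (hTm p hp).1 (hTm p hp).2.1).1
      have hW2 : W = ∑ p ∈ QS1_Q M (zz K L (K - 1)) \ QS1_Q M (zz K L (kst + 1)), twq g q m1 p := by
        rw [hW, htop]
      obtain ⟨TP, hTP⟩ : ∃ TP : Finset ℕ, TP = QS1_Q M (zz K L (K - 1)) \ QS1_Q M (zz K L (kst + 1)) := ⟨_, rfl⟩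
      obtain ⟨B, hB⟩ : ∃ B : Finset ℕ, B = (Ioc (2 ^ a) (2 ^ b)).filter (fun p => p.Prime ∧ ¬ p ∣ M) := ⟨_, rfl⟩
      have hBm : ∀ p : ℕ, p ∈ B ↔ (2 ^ a < p ∧ p ≤ 2 ^ b) ∧ p.Prime ∧ ¬ p ∣ M := by
        intro p
        rw [hB, Finset.mem_filter, Finset.mem_Ioc]
      rw [← hTP] at hTm hIco hW2
      rw [← hTP, ← hB] at hBT
      have hw' : (∑ p ∈ B, (PT.rt (g q) p : ℝ) / (2 * p)) - η * Real.log ((b : ℝ) / a) - Cl ≤ ∑ p ∈ B, twq g q m1 p := by
        rw [hB]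
        exact hw
      rw [hIco, hW2]
      have h1 : ∑ p ∈ B, twq g q m1 p ≤ ∑ p ∈ TP, twq g q m1 p :=
        Finset.sum_le_sum_of_subset_of_nonneg hBT fun p hp _ => (htq p (hTm p hp).1 (hTm p hp).2.1).1
      have h2 : ∑ p ∈ TP, (PT.rt (g q) p : ℝ) / (2 * p) ≤ ∑ p ∈ B, (PT.rt (g q) p : ℝ) / (2 * p) + 4 := by
        rw [← Finset.sum_sdiff hBT]
        have h3 : ∑ p ∈ TP \ B, (PT.rt (g q) p : ℝ) / (2 * p) ≤ ∑ p ∈ TP \ B, (1 : ℝ) / p := by
          refine Finset.sum_le_sum fun p hp => ?_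
          have h4 := hTm p (Finset.mem_sdiff.1 hp).1
          exact (hhalf p h4.1 h4.2.1).2.2
        have h5 : ∑ p ∈ TP \ B, (1 : ℝ) / p ≤ 4 := by
          rw [← Finset.sum_filter_add_sum_filter_not (TP \ B) (fun p => p ≤ 2 ^ a)]
          have h6 := QS1_iv (zz K L (kst + 1)) (by linarith [QS1_zz_two K L hL1 (kst + 1)])
            ((TP \ B).filter fun p => p ≤ 2 ^ a) (by
              intro p hp
              rw [Finset.mem_filter, Finset.mem_sdiff] at hp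
              have h7 : (p : ℝ) ≤ 2 ^ a := by exact_mod_cast hp.2
              exact ⟨(hTm p hp.1.1).2.2.1, h7.trans hz1'⟩)
          have h8 := QS1_iv (zz K L (K - 1) / 2) (by linarith [QS1_zz_two K L hL1 (K - 1)])
            ((TP \ B).filter fun p => ¬ p ≤ 2 ^ a) (by
              intro p hp
              rw [Finset.mem_filter, Finset.mem_sdiff, hBm] at hp
              have h9 := hTm p hp.1.1
              have h10 : ¬ p ≤ 2 ^ b := fun h => hp.1.2 ⟨⟨not_le.1 hp.2, h⟩, h9.1, h9.2.1⟩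
              have h11 : (2 : ℝ) ^ b < p := by exact_mod_cast not_le.1 h10
              exact ⟨by linarith, by linarith [h9.2.2.2]⟩)
          linarith
        linarith
      have h12 : Real.log ((b : ℝ) / a) ≤ Real.log 2 + Real.log L := by
        have ha0 : (0 : ℝ) < a := by exact_mod_cast ha
        have ha1 : (1 : ℝ) ≤ a := by exact_mod_cast ha
        have hb0 : (0 : ℝ) < b := by
          have : 0 < b := by omega
          exact_mod_cast this
        rw [← Real.log_mul (by norm_num) (by positivity)]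
        apply Real.log_le_log (by positivity)
        rw [div_le_iff₀ ha0]
        have h13 : (b : ℝ) ≤ 2 * L := by exact_mod_cast hb
        have h14 : (0 : ℝ) ≤ 2 * L := by positivity
        nlinarith
      have h15 : η * Real.log ((b : ℝ) / a) ≤ η * (Real.log 2 + Real.log L) := mul_le_mul_of_nonneg_left h12 hη.le
      have h16 : η * Real.log 2 ≤ Real.log 2 := mul_le_of_le_one_left hlog2.le hη1
      linarith
    refine ⟨?_, ?_⟩
    · have h1 : ∏ k : Fin (K - (kst + 2)), (∏ p ∈ Pk M K L (kst + 2 + k), (1 - twq g q m1 p) +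
              2 * tl (Dd c1 K L (kst + 2 + k)) (Pk M K L (kst + 2 + k)) (twq g q m1)) ≤
          ∏ k : Fin (K - (kst + 2)), (3 * Real.exp (-∑ p ∈ Pk M K L (kst + 2 + k), twq g q m1 p)) := by
        apply Finset.prod_le_prod
        · intro k _
          have h2 : 0 ≤ ∏ p ∈ Pk M K L (kst + 2 + k), (1 - twq g q m1 p) :=
            Finset.prod_nonneg fun p hp => by linarith [(hω _ p hp).2]
          have h3 := QS1_tl_nonneg (Dd c1 K L (kst + 2 + k)) (Pk M K L (kst + 2 + k)) (twq g q m1)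
            (fun p hp => (hω _ p hp).1)
          linarith
        · intro k _
          refine QS1_one K L hL1 c1 hc1.le (kst + 2 + k) _ (fun p hp => (hPk _ p hp).2.2) _ (fun p hp => hω _ p hp) ?_
          have h4 := mul_le_mul_of_nonneg_left (hWk k k.2) (show (0 : ℝ) ≤ Real.exp 1 + 1 by positivity)
          have h5 := hL2 L hLL2
          linarith
      refine h1.trans ?_
      rw [Finset.prod_mul_distrib, Finset.prod_const, Finset.card_univ, Fintype.card_fin, ← Real.exp_sum,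
        Finset.sum_neg_distrib]
      have h2 : ∑ k : Fin (K - (kst + 2)), ∑ p ∈ Pk M K L (kst + 2 + k), twq g q m1 p = W := by
        rw [hW, Finset.sum_range]
      rw [h2]
      refine mul_le_mul (pow_le_pow_right₀ (by norm_num) (by omega)) (Real.exp_le_exp.mpr ?_) (Real.exp_pos _).le
        (by positivity)
      linarith
    · have h1 : ∏ k : Fin (K - (kst + 2)), ∏ p ∈ Pk M K L (kst + 2 + k), (1 + twq g q m1 p) ≤
          ∏ k : Fin (K - (kst + 2)), Real.exp (∑ p ∈ Pk M K L (kst + 2 + k), twq g q m1 p) := by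
        apply Finset.prod_le_prod
        · intro k _
          exact Finset.prod_nonneg fun p hp => by linarith [(hω _ p hp).1]
        · intro k _
          exact QS1_prod_le' _ _ fun p hp => (hω _ p hp).1
      refine h1.trans ?_
      rw [← Real.exp_sum]
      have h2 : ∑ k : Fin (K - (kst + 2)), ∑ p ∈ Pk M K L (kst + 2 + k), twq g q m1 p = W := by
        rw [hW, Finset.sum_range]
      rw [h2]
      exact Real.exp_le_exp.mpr (by linarith)
  · have hz : K - (kst + 2) = 0 := by omega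
    obtain ⟨Q, hQ⟩ : ∃ Q : ℕ, Q = ⌈A * 2 ^ m⌉₊ := ⟨_, rfl⟩
    refine ⟨Q + M1' + 1, 0, Q, by omega, by omega, ?_, ?_, ?_, ?_, by linarith, ?_⟩
    · rw [hQ]
      exact Nat.le_ceil _
    · have : Q + M1' + 1 < 2 ^ (Q + M1' + 1) := Nat.lt_two_pow_self
      omega
    · have : Q + M1' + 1 < 2 ^ (Q + M1' + 1) := Nat.lt_two_pow_self
      omega
    · intro i hi
      exact absurd (Finset.mem_Ico.1 hi).2 (by omega)
    · intro m1 _ _ _
      rw [hz]
      refine ⟨?_, ?_⟩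
      · rw [Finset.univ_eq_empty, Finset.prod_empty, Finset.Ico_eq_empty (by omega), Finset.sum_empty]
        have h0 : 0 ≤ η * Real.log L := by positivity
        have h1 : (1 : ℝ) ≤ Real.exp (-(0 - η * Real.log L) + (Cl + 4 + Real.log 2 + 2 * CX)) :=
          Real.one_le_exp (by linarith)
        nlinarith
      · rw [Finset.univ_eq_empty, Finset.prod_empty]
        exact Real.one_le_exp (by positivity)


private theorem QS1_pow (η : ℝ) (h0 : 0 ≤ η) (h1 : η ≤ 1) (N : ℕ) : (1 + η) ^ N - 1 ≤ (2 ^ N - 1) * η := by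
  induction N with
  | zero => simp
  | succ N ih =>
    have h2 : (1 : ℝ) ≤ 2 ^ N := one_le_pow₀ (by norm_num)
    have h3 : (1 + η) ^ (N + 1) - 1 = ((1 + η) ^ N - 1) * (1 + η) + η := by ring
    rw [h3]
    have h4 : ((1 + η) ^ N - 1) * (1 + η) ≤ ((2 ^ N - 1) * η) * (1 + η) :=
      mul_le_mul_of_nonneg_right ih (by linarith)
    have h5 : ((2 ^ N - 1) * η) * (1 + η) ≤ ((2 ^ N - 1) * η) * 2 :=
      mul_le_mul_of_nonneg_left (by linarith) (mul_nonneg (by linarith) h0)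
    have h6 : ((2 : ℝ) ^ (N + 1) - 1) * η = ((2 ^ N - 1) * η) * 2 + η := by ring
    linarith

/-- a product over some of the ranges is at most the product over all of them up to a level -/
private theorem QS1_sub (f : ℕ → ℝ) (hf : ∀ k, 1 ≤ f k) (K l n : ℕ) (hl : l ≤ K) :
    ∏ k ∈ univ.filter (fun k : Fin n => (k : ℕ) + 1 ≤ l), f k ≤
      ∏ k ∈ univ.filter (fun k : Fin K => (k : ℕ) + 1 ≤ l), f k := by
  have h1 : ∀ m : ℕ, ∏ k ∈ univ.filter (fun k : Fin m => (k : ℕ) + 1 ≤ l), f k =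
      ∏ k ∈ (range m).filter (fun k => k + 1 ≤ l), f k := by
    intro m
    rw [Finset.prod_filter, Finset.prod_filter, Finset.prod_range]
  have h2 : (range n).filter (fun k => k + 1 ≤ l) ⊆ (range K).filter (fun k => k + 1 ≤ l) := by
    intro k hk
    rw [Finset.mem_filter, Finset.mem_range] at hk ⊢
    exact ⟨by omega, hk.2⟩
  rw [h1, h1, ← Finset.prod_sdiff h2]
  refine le_mul_of_one_le_left (Finset.prod_nonneg fun k _ => by linarith [hf k]) ?_
  exact Finset.prod_induction _ (fun x : ℝ => 1 ≤ x) (fun a b ha hb => one_le_mul_of_one_le_of_one_le ha hb) le_rfl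
    fun k _ => hf k

/-- the product over the small and the top ranges is at most the product over all the ranges -/
private theorem QS1_sub2 (f : ℕ → ℝ) (hf : ∀ k, 1 ≤ f k) (K n : ℕ) (hn : n ≤ K) :
    (∏ k : Fin n, f k) * ∏ k : Fin (K - (n + 2)), f (n + 2 + k) ≤
      ∏ k ∈ univ.filter (fun k : Fin K => (k : ℕ) + 1 ≤ K), f k := by
  have h1 : ∏ k ∈ univ.filter (fun k : Fin K => (k : ℕ) + 1 ≤ K), f k = ∏ k ∈ range K, f k := by
    rw [Finset.prod_range]
    refine Finset.prod_congr ?_ fun _ _ => rfl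
    ext k
    simp only [Finset.mem_filter, Finset.mem_univ, true_and, iff_true]
    omega
  have hone : ∀ s : Finset ℕ, 1 ≤ ∏ k ∈ s, f k := fun s =>
    Finset.prod_induction _ (fun x : ℝ => 1 ≤ x) (fun a b ha hb => one_le_mul_of_one_le_of_one_le ha hb) le_rfl
      fun k _ => hf k
  rw [h1, ← Finset.prod_range (fun k => f k), ← Finset.prod_range (fun k => f (n + 2 + k))]
  rcases Nat.lt_or_ge K (n + 2) with h | h
  · have h2 : K - (n + 2) = 0 := by omega
    rw [h2, Finset.prod_range_zero, mul_one]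
    have h3 : range n ⊆ range K := Finset.range_subset_range.2 hn
    rw [← Finset.prod_sdiff h3]
    exact le_mul_of_one_le_left (zero_le_one.trans (hone _)) (hone _)
  · obtain ⟨e, rfl⟩ := Nat.exists_eq_add_of_le h
    have h2 : n + 2 + e - (n + 2) = e := by omega
    rw [h2, Finset.prod_range_add (fun k => f k) (n + 2) e]
    refine mul_le_mul_of_nonneg_right ?_ (zero_le_one.trans ?_)
    · rw [Finset.prod_range_add (fun k => f k) n 2]
      exact le_mul_of_one_le_right (zero_le_one.trans (hone _))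
        (Finset.prod_induction _ (fun x : ℝ => 1 ≤ x) (fun a b ha hb => one_le_mul_of_one_le_of_one_le ha hb) le_rfl
          fun k _ => hf _)
    · exact Finset.prod_induction _ (fun x : ℝ => 1 ≤ x) (fun a b ha hb => one_le_mul_of_one_le_of_one_le ha hb) le_rfl
        fun k _ => hf _
theorem sv_good_q {ι : Type} [Fintype ι] [DecidableEq ι] {g : ι → ℤ[X]} (hg : TW.Fam g) (h2 : ∀ i, 2 ≤ (g i).natDegree)
    (q : ι) (hq : Qd g q) (M : ℕ) (hM : M ≠ 0) (C : ℝ) (hC : 1 ≤ C) (ε : ℝ) (hε : 0 < ε) (hε1 : ε ≤ 1) :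
    ∃ (η c : ℝ), 0 < η ∧ 0 < c ∧ ∀ M1' : ℕ, ∃ (C' : ℝ) (L1 : ℕ), 0 < C' ∧ 1 ≤ L1 ∧ ∀ (j : ι → ℕ) (k₂ : ι), (∀ i, j i ≤ j q) →
      L1 ≤ j q → k₂ ≠ q → ((j q : ℝ) ^ ε ≤ j k₂) →
      ∃ a b Q : ℕ, 1 ≤ a ∧ b ≤ 2 * j q ∧ (∀ x, Bx g C j x → |mq g q x| ≤ (Q : ℤ)) ∧ Q < 2 ^ a ∧ M1' < 2 ^ a ∧
        (∀ i ∈ Ico a b, 32 * (Q : ℝ) ^ 2 * (i : ℝ) ^ 2 ≤ η ^ 2 * 2 ^ i) ∧
        (Nat.card {x : Co g → ℤ // Bx g C j x ∧ Loc g M x ∧ (∀ i, pol g x i ≠ 0) ∧
          (∀ i ∈ Ico a b, |sw (bt g q) (mq g q x) i| ≤ η / i)} : ℝ) ≤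
          C' * (2 ^ (∑ i, j i) * (∏ i, (1 + j i : ℝ)⁻¹) * (1 + j q : ℝ) ^ (-c)) * Real.exp (EL.TT g (Real.exp (j q))) := by
  have hgR : TR.Fam g := ⟨hg.monic, hg.irr, hg.inj, hg.even, hg.six⟩
  obtain ⟨hq2, M2, hM2, hM2'⟩ := hq
  obtain ⟨M1, hM1, hgood⟩ := TR.good_exists hgR
  obtain ⟨S, n₀, hS⟩ := PT.split_set g hg.irr
  obtain ⟨C1, hC1, hom⟩ := EN.omega3 hg S (fun p hp i => hS.split p hp i)
  obtain ⟨MM, hMMd⟩ : ∃ MM : ℕ, MM = M * M1 * M2 := ⟨_, rfl⟩
  have hMM : MM ≠ 0 := by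
    rw [hMMd]
    exact mul_ne_zero (mul_ne_zero hM hM1) hM2
  have hMg : ∀ p : ℕ, p.Prime → ¬ p ∣ MM → GoodP g p := by
    intro p hp hpM
    refine hgood p hp fun h => hpM ?_
    rw [hMMd]
    exact dvd_mul_of_dvd_left (dvd_mul_of_dvd_right h M) M2
  have hMq : ∀ p : ℕ, p.Prime → ¬ p ∣ MM → p ∈ EL.RP g → PT.rt (g q) p = 2 := by
    intro p hp hpM hpR
    refine hM2' p hp (fun h => hpM ?_) hpR
    rw [hMMd]
    exact dvd_mul_of_dvd_right h (M * M1)
  obtain ⟨K, η, c, C2, L0, hK, hη, hη2, hc, hC2, hW⟩ := W_q hg S n₀ hS MM hMM C1 hC1 ε hε hε1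
  obtain ⟨A, hA1, hAb⟩ := mq_bound hgR q C hC
  set N : ℕ := ∑ i, (g i).natDegree with hN
  have hN6 : 6 ≤ N := hg.six
  have hN0 : (0 : ℝ) < N := by
    have : 0 < N := by omega
    exact_mod_cast this
  have hlog2 : 0 < Real.log 2 := Real.log_pos (by norm_num)
  refine ⟨η, c, hη, hc, fun M1' => ?_⟩
  set c1 : ℝ := Real.log 2 / (8 * N) with hc1
  have hc1p : 0 < c1 := by positivity
  obtain ⟨Lt, CT, hLt, hCT, htop⟩ := QS1_top hgR q hq2 K hK MM hMM hMg hMq (Fintype.card ι) A η c1 hA1 hη (by linarith) hc1p M1'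
  have hdeg : ∀ i, 1 ≤ (g i).natDegree := fun i => (by norm_num : 1 ≤ 2).trans (h2 i)
  have hcardN : (Fintype.card ι : ℝ) ≤ N := by
    have h1 : Fintype.card ι ≤ N := by
      calc Fintype.card ι = ∑ _i : ι, 1 := by simp
        _ ≤ N := Finset.sum_le_sum fun i _ => hdeg i
    exact_mod_cast h1
  -- the largeness conditions
  have hev : ∀ᶠ L : ℕ in Filter.atTop, (0 * Real.log L + 2 ≤ 1 * lam K L ^ (1 / 2 : ℝ) ∧
      0 * Real.log L + 1 / c1 ≤ 1 * lam K L ^ (1 / 2 : ℝ)) ∧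
      (((Real.exp 1 + 1) * N) * Real.log L + (Real.exp 1 + 1) * C2 ≤ c1 * lam K L ^ (1 / 2 : ℝ) ∧
      (2 * N + 2 + c) * Real.log L + (K * Real.log 3 + CT + (2 * N + 1) * Real.log 2 + C2) ≤
        (Real.log 2 / (2 * N)) * lam K L ^ (1 / 2 : ℝ)) ∧
      (L0 ≤ (L : ℝ) ∧ 1 ≤ L ∧ Lt ≤ L) := by
    refine ((QS1_ev K hK 0 2 1 one_pos).and (QS1_ev K hK 0 (1 / c1) 1 one_pos)).and
      (((QS1_ev K hK _ _ c1 hc1p).and (QS1_ev K hK _ _ _ (by positivity))).and
        (((tendsto_natCast_atTop_atTop (R := ℝ)).eventually (Filter.eventually_ge_atTop L0)).and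
          ((Filter.eventually_ge_atTop 1).and (Filter.eventually_ge_atTop Lt))))
  obtain ⟨L1, hL1⟩ := Filter.eventually_atTop.mp hev
  refine ⟨(3 * C) ^ N * ((3 ^ K) ^ 2 * Real.exp (CT + C2) + 2) * 2 ^ c, max L1 1, by positivity,
    le_max_right _ _, ?_⟩
  intro j k₂ hmax hLj hk2q hk2
  obtain ⟨⟨e1, e2⟩, ⟨e3, e4⟩, e5, e6, e7⟩ := hL1 (j q) ((le_max_left _ _).trans hLj)
  obtain ⟨L, hLdef⟩ : ∃ L, L = j q := ⟨_, rfl⟩
  rw [← hLdef] at hLj hk2 e1 e2 e3 e4 e5 e6 e7 ⊢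
  have hmax' : ∀ i, j i ≤ L := fun i => (hmax i).trans hLdef.symm.le
  have hL1' : (1 : ℝ) ≤ (L : ℝ) := by exact_mod_cast e6
  have hL0' : (0 : ℝ) < (L : ℝ) := by linarith
  have hlogL : 0 ≤ Real.log (L : ℝ) := Real.log_nonneg hL1'
  have hlampos : 0 < lam K L := Real.rpow_pos_of_pos hL0' _
  have hsq : lam K L ^ (1 / 2 : ℝ) * lam K L ^ (1 / 2 : ℝ) = lam K L := by
    rw [← Real.rpow_add hlampos]
    norm_num
  rw [zero_mul, zero_add, one_mul] at e1 e2
  have hlam2 : 2 ≤ lam K L := by nlinarith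
  have hhalf : lam K L ^ (1 / 2 : ℝ) ≤ lam K L := by nlinarith
  have hlamc : lam K L ^ (-(1 / 2) : ℝ) ≤ Real.log 2 / (8 * N) := by
    rw [Real.rpow_neg hlampos.le, ← hc1]
    have h1 : 0 < lam K L ^ (1 / 2 : ℝ) := by positivity
    rw [inv_le_comm₀ h1 hc1p, ← one_div]
    exact e2
  have hltq : lv K L (j q) = K := lv_top K hK L hL1' (j q) (by exact_mod_cast hLdef.le)
  obtain ⟨kst, hkst⟩ : ∃ kst, kst = (univ.erase q).sup (fun i => lv K L (j i)) := ⟨_, rfl⟩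
  have hkK : kst ≤ K := by
    rw [hkst]
    exact Finset.sup_le fun i _ => lv_le K L (j i)
  have hkl : ∀ i, i ≠ q → lv K L (j i) ≤ kst := by
    intro i hiq
    rw [hkst]
    exact Finset.le_sup (f := fun i => lv K L (j i)) (Finset.mem_erase.2 ⟨hiq, Finset.mem_univ i⟩)
  obtain ⟨m, hmdef⟩ : ∃ m, m = ∑ k ∈ univ.erase q, j k := ⟨_, rfl⟩
  obtain ⟨a, b, Q, ha, hb, hQ1, hQ2, hQM, hQ3, hT0low, htopQ⟩ := htop L kst m e7 (by
    intro hk
    rw [hmdef, Nat.cast_sum]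
    have h1 : ∀ i ∈ univ.erase q, (j i : ℝ) ≤ lam K L ^ (kst + 1) := by
      intro i hi
      have h2 : ¬ (kst + 1 ≤ lv K L (j i)) := by
        have := hkl i (Finset.ne_of_mem_erase hi)
        omega
      rw [lv_iff K hK L hL1' (j i) kst (by omega), not_le] at h2
      exact h2.le
    have h2 := Finset.sum_le_card_nsmul _ _ _ h1
    rw [nsmul_eq_mul] at h2
    refine h2.trans (mul_le_mul_of_nonneg_right ?_ (by positivity))
    exact_mod_cast Finset.card_le_univ _)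
  have hQb : ∀ x, Bx g C j x → |mq g q x| ≤ (Q : ℤ) := by
    intro x hx
    have h1 := hAb j x hx
    rw [← hmdef] at h1
    have h5 := h1.trans hQ1
    exact_mod_cast h5
  refine ⟨a, b, Q, ha, hb, hQb, hQ2, hQM, hQ3, ?_⟩
  have hPk : ∀ k p, p ∈ Pk MM K L k → p.Prime ∧ ¬ p ∣ MM ∧ 1 ≤ p ∧ (p : ℝ) ≤ zz K L k := by
    intro k p hp
    unfold Pk at hp
    rw [Finset.mem_filter, Finset.mem_Icc] at hp
    refine ⟨hp.2.1, hp.2.2.1, hp.1.1, ?_⟩
    have h0 : 0 ≤ zz K L k := (Real.exp_pos _).le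
    exact (Nat.le_floor_iff h0).mp hp.1.2
  have hgp : ∀ k p, p ∈ Pk MM K L k → GoodP g p := fun k p hp => hMg p (hPk k p hp).1 (hPk k p hp).2.1
  have hcard : ∀ k, k < kst → 3 ≤ dg g (univ.filter fun i => k + 1 ≤ lv K L (j i)) := by
    intro k hk
    have h0 : q ∈ univ.filter fun i => k + 1 ≤ lv K L (j i) := by
      rw [Finset.mem_filter]
      exact ⟨Finset.mem_univ _, by omega⟩
    have hk' := hk
    rw [hkst, Finset.lt_sup_iff] at hk'
    obtain ⟨i, hi, hik⟩ := hk'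
    have hiq := Finset.ne_of_mem_erase hi
    have h1 : i ∈ univ.filter fun i => k + 1 ≤ lv K L (j i) := by
      rw [Finset.mem_filter]
      exact ⟨Finset.mem_univ _, by omega⟩
    have h5 : ({q, i} : Finset ι) ⊆ (univ.filter fun i => k + 1 ≤ lv K L (j i)) := by
      intro i' hi'
      rw [Finset.mem_insert, Finset.mem_singleton] at hi'
      rcases hi' with rfl | rfl
      · exact h0
      · exact h1
    have h6 : ∑ i ∈ ({q, i} : Finset ι), (g i).natDegree ≤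
        dg g (univ.filter fun i => k + 1 ≤ lv K L (j i)) := Finset.sum_le_sum_of_subset h5
    rw [Finset.sum_pair hiq.symm] at h6
    have h7 := h2 q
    have h8 := h2 i
    omega
  -- the choice of the forbidden residues
  have hex : ∀ p : ℕ, ∃ F : Set (Co g → ZMod p) × ℝ, ∀ k, k < kst → p ∈ Pk MM K L k →
      ((∀ w ∈ F.1, ¬ Al g p w) ∧ 0 ≤ F.2 ∧ F.2 ≤ 1 / 2 ∧
        F.2 ≤ (N : ℝ) / (p : ℝ) ∧
        ((rts g (univ.filter fun i => k + 1 ≤ lv K L (j i)) p : ℝ) - PT.ind (EL.RP g) p + PT.ind S p / 4) / p -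
          C1 / (p : ℝ) ^ 2 ≤ F.2 ∧
        ∀ y : Co g → ZMod p, (Nat.card {w : Co g → ZMod p // w ∈ F.1 ∧
          ∀ c : Co g, c.1 ∉ (univ.filter fun i => k + 1 ≤ lv K L (j i)) → w c = y c} : ℝ) =
          F.2 * (p : ℝ) ^ (univ.filter fun c : Co g => c.1 ∈ (univ.filter fun i => k + 1 ≤ lv K L (j i))).card) := by
    intro p
    by_cases h : ∃ k, k < kst ∧ p ∈ Pk MM K L k
    · obtain ⟨k, hk, hp⟩ := h
      obtain ⟨Ω, ω, h1⟩ := hom p (hgp k p hp) (univ.filter fun i => k + 1 ≤ lv K L (j i)) (hcard k hk)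
      refine ⟨(Ω, ω), ?_⟩
      intro k' hk' hp'
      have hkk : k = k' := by
        by_contra hne'
        exact (Finset.disjoint_left.mp (Pk_disj MM K L hL1' k k' hne')) hp hp'
      subst hkk
      exact h1
    · refine ⟨(∅, 0), ?_⟩
      intro k hk hp
      exact absurd ⟨k, hk, hp⟩ h
  choose F hF using hex
  have hω0 : ∀ k, k < kst → ∀ p ∈ Pk MM K L k, 0 ≤ (F p).2 ∧ (F p).2 ≤ 1 := by
    intro k hk p hp
    obtain ⟨-, h1, h2, -⟩ := hF p k hk hp
    exact ⟨h1, by linarith⟩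
  obtain ⟨hWl, hWu⟩ := hW j q k₂ L kst e5 hLdef.symm hmax' hk2q hk2 hkl hkK (fun p => (F p).2) (by
    intro k hk p hp
    obtain ⟨-, -, -, h4, h5, -⟩ := hF p k hk hp
    exact ⟨h5, h4⟩)
  set W : ℝ := ∑ k ∈ range kst, ∑ p ∈ Pk MM K L k, (F p).2 with hWdef
  obtain ⟨T0, hT0⟩ : ∃ T0 : ℝ, T0 = (∑ k ∈ Ico (kst + 2) K, ∑ p ∈ Pk MM K L k,
    ((PT.rt (g q) p : ℝ) - PT.ind (EL.RP g) p) / p) - η * Real.log L := ⟨_, rfl⟩
  rw [← hT0] at hT0low
  have hWT : (∑ i, Real.log (1 + j i)) + c * Real.log L - EL.TT g (Real.exp L) - C2 ≤ W + T0 := by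
    rw [hT0]
    linarith
  have hT00 : -T0 ≤ Real.log L := by
    have h1 : η * Real.log L ≤ Real.log L := mul_le_of_le_one_left hlogL (by linarith)
    linarith
  have hTT : 0 ≤ EL.TT g (Real.exp L) := by
    unfold EL.TT PT.PS
    apply Finset.sum_nonneg
    intro p _
    have h4 : 0 ≤ PT.ind (EL.RP g) p := by
      unfold PT.ind
      split_ifs
      · exact zero_le_one
      · exact le_rfl
    positivity
  have hWk0 : ∀ k, k < kst → 0 ≤ ∑ p ∈ Pk MM K L k, (F p).2 := by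
    intro k hk
    exact Finset.sum_nonneg fun p hp => (hω0 k hk p hp).1
  have hWk : ∀ k, k < kst → ∑ p ∈ Pk MM K L k, (F p).2 ≤ W := by
    intro k hk
    exact Finset.single_le_sum (f := fun k => ∑ p ∈ Pk MM K L k, (F p).2)
      (fun k' hk' => hWk0 k' (Finset.mem_range.mp hk')) (Finset.mem_range.mpr hk)
  have hW0 : 0 ≤ W := Finset.sum_nonneg fun k hk => hWk0 k (Finset.mem_range.mp hk)
  have hexp1 : 0 < Real.exp 1 + 1 := by positivity
  -- the sieve
  set η0 : ℝ := (2 : ℝ) ^ (-(lam K L / (2 * N))) with hη0d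
  have hη00 : 0 ≤ η0 := by positivity
  have hη01 : η0 ≤ 1 := by
    rw [hη0d]
    apply Real.rpow_le_one_of_one_le_of_nonpos (by norm_num)
    have : 0 ≤ lam K L / (2 * N) := by positivity
    linarith
  have hDz : ∀ k, 1 ≤ Dd c1 K L k * zz K L k := by
    intro k
    have h1 : 1 ≤ Dd c1 K L k := by
      unfold Dd
      exact Real.one_le_exp (by positivity)
    have h2 : 1 ≤ zz K L k := by
      unfold zz
      exact Real.one_le_exp (by positivity)
    exact one_le_mul_of_one_le_of_one_le h1 h2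
  have hnN : ∀ c : Co g, 1 ≤ (g c.1).natDegree ∧ (g c.1).natDegree ≤ N := fun c =>
    ⟨hdeg c.1, Finset.single_le_sum (f := fun i => (g i).natDegree) (fun i _ => Nat.zero_le _) (Finset.mem_univ c.1)⟩
  set Good : (Co g → ℤ) → Prop := fun x => mq g q x ≠ 0 ∧ |mq g q x| ≤ (Q : ℤ) ∧
    (∀ i ∈ Ico a b, |sw (bt g q) (mq g q x) i| ≤ η / i) with hGood
  set β : ℝ := Real.exp (2 * Real.log L + CT) with hβ
  set α : ℝ := 3 ^ K * Real.exp (-T0 + CT) with hα
  have hmul := multi2 (κ := Co g) (τ := Fin kst) (σ := Fin (K - (kst + 2)))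
    (fun k => Pk MM K L k) (fun k => Pk MM K L (kst + 2 + k))
    (fun k p hp => (hPk k p hp).1) (fun k p hp => (hPk _ p hp).1)
    (fun k k' hkk => Pk_disj MM K L hL1' k k' (fun h => hkk (Fin.ext h)))
    (fun k k' hkk => Pk_disj MM K L hL1' _ _ (fun h => hkk (Fin.ext (by omega))))
    (fun k k' => Pk_disj MM K L hL1' _ _ (by have := k.2; omega))
    (fun k => (k : ℕ) + 1) (fun k => by omega)
    (fun c => lv K L (j c.1)) (fun p => (F p).1) (fun p => (F p).2)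
    (fun k p hp => hω0 k k.2 p hp) (by
      intro k p hp y
      obtain ⟨-, -, -, -, -, h6⟩ := hF p k k.2 hp
      have h7 := h6 y
      simp only [Finset.mem_filter, Finset.mem_univ, true_and, not_le] at h7
      exact h7)
    (fun c => c.1 = q) (by
      intro c hc k
      have hk := k.2
      show (k : ℕ) + 1 ≤ lv K L (j c.1)
      rw [hc, hltq]
      omega)
    (fun x p => tQ g q (mq g q x) p) (fun x p => twq g q (mq g q x) p) Good (by
      intro x y hxy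
      have h1 : mq g q x = mq g q y := mq_congr g q x y fun c hc1 => hxy c hc1
      refine ⟨?_, ?_, ?_⟩ <;> simp only [hGood, h1])
    (fun x _ k p hp => ⟨(top_count_q hgR q hq2 _ p (hgp _ p hp) 0).2.1, (top_count_q hgR q hq2 _ p (hgp _ p hp) 0).2.2.1⟩)
    (fun x _ k p hp => (top_count_q hgR q hq2 _ p (hgp _ p hp) (fun c => ((x c : ℤ) : ZMod p))).1)
    (TR.ba g C j) (TR.bH g C j) (fun k => Dd c1 K L k) (fun k => zz K L k)
    (fun k => by
      unfold Dd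
      exact Real.one_le_exp (by positivity))
    (fun k => by
      unfold zz
      exact Real.one_le_exp (by positivity))
    (fun k p hp => (hPk k p hp).2.2.2)
    (fun k => Dd c1 K L (kst + 2 + k)) (fun k => zz K L (kst + 2 + k))
    (fun k => by
      unfold Dd
      exact Real.one_le_exp (by positivity))
    (fun k => by
      unfold zz
      exact Real.one_le_exp (by positivity))
    (fun k p hp => (hPk _ p hp).2.2.2) η0 hη00 (by
      intro c _
      by_cases hc : lv K L (j c.1) = 0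
      · left; exact hc
      · right
        have h1 := modulus K N (g c.1).natDegree hK (hnN c).1 (hnN c).2 L hL1' hlam2 hlamc (j c.1) hc
        refine le_trans (QS1_sub (fun k => Dd c1 K L k * zz K L k) hDz K (lv K L (j c.1)) kst (lv_le K L _)) ?_
        refine le_trans h1 ?_
        exact mul_le_mul_of_nonneg_left (TR.bH_low g C hC j c) hη00)
    (by
      intro c hc
      have hlvc : lv K L (j c.1) = K := by
        rw [hc, hltq]
      have h1 := modulus K N (g c.1).natDegree hK (hnN c).1 (hnN c).2 L hL1' hlam2 hlamc (j c.1) (by omega)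
      rw [hlvc] at h1
      refine le_trans (QS1_sub2 (fun k => Dd c1 K L k * zz K L k) hDz K kst hkK) ?_
      refine le_trans h1 ?_
      exact mul_le_mul_of_nonneg_left (TR.bH_low g C hC j c) hη00)
    α β (by positivity) (by positivity)
    (fun x hx _ => by
      have h1 := (htopQ _ hx.1 hx.2.1 hx.2.2).1
      rw [← hT0] at h1
      exact h1)
    (fun x hx _ => (htopQ _ hx.1 hx.2.1 hx.2.2).2)
  have hsub : (Nat.card {x : Co g → ℤ // Bx g C j x ∧ Loc g M x ∧ (∀ i, pol g x i ≠ 0) ∧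
          (∀ i ∈ Ico a b, |sw (bt g q) (mq g q x) i| ≤ η / i)} : ℝ) ≤
      Nat.card {x : Co g → ℤ // (∀ c, TR.ba g C j c ≤ x c ∧ x c < TR.ba g C j c + TR.bH g C j c) ∧ Good x ∧
        (∀ k : Fin kst, ∀ p ∈ Pk MM K L k, (fun c => ((x c : ℤ) : ZMod p)) ∉ (F p).1) ∧
        ∀ k : Fin (K - (kst + 2)), ∀ p ∈ Pk MM K L (kst + 2 + k),
          (fun c => ((x c : ℤ) : ZMod p)) ∉ tQ g q (mq g q x) p} := by
    have hfin : {x : Co g → ℤ | (∀ c, TR.ba g C j c ≤ x c ∧ x c < TR.ba g C j c + TR.bH g C j c) ∧ Good x ∧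
        (∀ k : Fin kst, ∀ p ∈ Pk MM K L k, (fun c => ((x c : ℤ) : ZMod p)) ∉ (F p).1) ∧
        ∀ k : Fin (K - (kst + 2)), ∀ p ∈ Pk MM K L (kst + 2 + k),
          (fun c => ((x c : ℤ) : ZMod p)) ∉ tQ g q (mq g q x) p}.Finite := by
      have h1 : {x : Co g → ℤ | Bx g C j x}.Finite := by
        exact (TR.bx_card hgR C hC j).1
      apply h1.subset
      intro x hx
      exact (TR.bx_iff g C hC j x).mpr hx.1
    have h2 := Nat.card_mono hfin (s := {x : Co g → ℤ | Bx g C j x ∧ Loc g M x ∧ (∀ i, pol g x i ≠ 0) ∧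
          (∀ i ∈ Ico a b, |sw (bt g q) (mq g q x) i| ≤ η / i)}) (by
      rintro x ⟨hx1, hx2, hx3, hx4⟩
      have hAl : ∀ k p, p ∈ Pk MM K L k → Al g p (fun c => ((x c : ℤ) : ZMod p)) := by
        intro k p hp
        have h3 := hPk k p hp
        refine hx2 p h3.1 (fun h' => h3.2.1 ?_)
        rw [hMMd]
        exact dvd_mul_of_dvd_left (dvd_mul_of_dvd_left h' M1) M2
      refine ⟨(TR.bx_iff g C hC j x).mp hx1, ⟨mq_ne hgR q x fun i _ => hx3 i, hQb x hx1, hx4⟩, ?_, ?_⟩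
      · intro k p hp hxΩ
        obtain ⟨h1, -⟩ := hF p k k.2 hp
        exact h1 _ hxΩ (hAl k p hp)
      · intro k p hp hxΩ
        obtain ⟨t, ht, hz, hns⟩ := hxΩ
        exact hns (al_sq_q hgR q hq2 p (hgp _ p hp) x (hAl _ p hp) t ht hz))
    exact_mod_cast h2
  refine le_trans hsub (le_trans hmul ?_)
  have hcardκ : Fintype.card (Co g) = N := by
    rw [Fintype.card_sigma]
    simp [hN]
  rw [hcardκ]
  -- the main term
  have hmain : ∏ k : Fin kst, (∏ p ∈ Pk MM K L k, (1 - (F p).2) + 2 * tl (Dd c1 K L k) (Pk MM K L k) (fun p => (F p).2)) ≤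
      3 ^ K * Real.exp (-W) := by
    have h1 : ∏ k : Fin kst, (∏ p ∈ Pk MM K L k, (1 - (F p).2) + 2 * tl (Dd c1 K L k) (Pk MM K L k) (fun p => (F p).2)) ≤
        ∏ k : Fin kst, (3 * Real.exp (-∑ p ∈ Pk MM K L k, (F p).2)) := by
      apply Finset.prod_le_prod
      · intro k _
        have h2 : 0 ≤ ∏ p ∈ Pk MM K L k, (1 - (F p).2) :=
          Finset.prod_nonneg fun p hp => by linarith [(hω0 k k.2 p hp).2]
        have h3 := QS1_tl_nonneg (Dd c1 K L k) (Pk MM K L k) (fun p => (F p).2)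
          (fun p hp => (hω0 k k.2 p hp).1)
        linarith
      · intro k _
        apply QS1_one K L hL1' c1 hc1p.le k (Pk MM K L k) (fun p hp => (hPk k p hp).2.2) (fun p => (F p).2)
          (fun p hp => hω0 k k.2 p hp)
        have h4 : (Real.exp 1 + 1) * ∑ p ∈ Pk MM K L k, (F p).2 ≤ (Real.exp 1 + 1) * (N * Real.log L + C2) :=
          mul_le_mul_of_nonneg_left (le_trans (hWk k k.2) hWu) hexp1.le
        linarith
    refine le_trans h1 ?_
    rw [Finset.prod_mul_distrib, Finset.prod_const, Finset.card_univ, Fintype.card_fin, ← Real.exp_sum,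
      Finset.sum_neg_distrib]
    have h2 : ∑ k : Fin kst, ∑ p ∈ Pk MM K L k, (F p).2 = W := by
      rw [hWdef, Finset.sum_range]
    rw [h2]
    exact mul_le_mul_of_nonneg_right (pow_le_pow_right₀ (by norm_num) hkK) (Real.exp_pos _).le
  have hprodW : ∏ k : Fin kst, ∏ p ∈ Pk MM K L k, (1 + (F p).2) ≤ Real.exp W := by
    rw [hWdef, Finset.sum_range, Real.exp_sum]
    apply Finset.prod_le_prod
    · intro k _
      exact Finset.prod_nonneg fun p hp => by linarith [(hω0 k k.2 p hp).1]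
    · intro k _
      exact QS1_prod_le' _ (fun p => (F p).2) (fun p hp => (hω0 k k.2 p hp).1)
  have hprodW0 : 0 ≤ ∏ k : Fin kst, ∏ p ∈ Pk MM K L k, (1 + (F p).2) :=
    Finset.prod_nonneg fun k _ => Finset.prod_nonneg fun p hp => by linarith [(hω0 k k.2 p hp).1]
  -- the real analysis
  obtain ⟨TT0, hTT0⟩ : ∃ TT0 : ℝ, TT0 = EL.TT g (Real.exp L) := ⟨_, rfl⟩
  rw [← hTT0] at hTT hWT ⊢
  set Xs : ℝ := ∑ i, Real.log (1 + j i) with hXs
  have hXs0 : Xs ≤ N * Real.log L + N * Real.log 2 := by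
    have h1 : ∀ i ∈ (univ : Finset ι), Real.log (1 + j i) ≤ Real.log L + Real.log 2 := by
      intro i _
      have h7 : (j i : ℝ) ≤ L := by exact_mod_cast hmax' i
      have h9 : Real.log (1 + j i) ≤ Real.log (2 * L) := by
        apply Real.log_le_log (by positivity)
        linarith
      rw [Real.log_mul (by norm_num) (by positivity)] at h9
      linarith
    have h2 := Finset.sum_le_card_nsmul _ _ _ h1
    rw [nsmul_eq_mul] at h2
    refine h2.trans ?_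
    have h3 : ((univ : Finset ι).card : ℝ) ≤ N := by
      rw [Finset.card_univ]
      exact hcardN
    have h4 : 0 ≤ Real.log L + Real.log 2 := by positivity
    have h5 := mul_le_mul_of_nonneg_right h3 h4
    linarith
  set E : ℝ := (1 + η0) ^ N - 1 with hE
  have hE0 : 0 ≤ E := by
    have : (1 : ℝ) ≤ (1 + η0) ^ N := one_le_pow₀ (by linarith)
    linarith
  have hη0e : η0 = Real.exp (-(Real.log 2 * (lam K L / (2 * N)))) := by
    rw [hη0d, Real.rpow_def_of_pos (by norm_num)]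
    congr 1
    ring
  have h2Ne : (2 : ℝ) ^ N = Real.exp (N * Real.log 2) := by
    rw [mul_comm, Real.exp_mul, Real.exp_log (by norm_num), Real.rpow_natCast]
  have hlam : (Real.log 2 / (2 * N)) * lam K L ^ (1 / 2 : ℝ) ≤ Real.log 2 * (lam K L / (2 * N)) := by
    have h8 : (Real.log 2 / (2 * N)) * lam K L ^ (1 / 2 : ℝ) ≤ (Real.log 2 / (2 * N)) * lam K L :=
      mul_le_mul_of_nonneg_left hhalf (by positivity)
    have h9 : Real.log 2 * (lam K L / (2 * N)) = (Real.log 2 / (2 * N)) * lam K L := by ring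
    rw [h9]
    exact h8
  have hEle : E ≤ Real.exp (N * Real.log 2 - Real.log 2 * (lam K L / (2 * N))) := by
    have h3 := QS1_pow η0 hη00 hη01 N
    have h4 : E ≤ 2 ^ N * η0 := by nlinarith
    rw [h2Ne, hη0e, ← Real.exp_add] at h4
    rw [← sub_eq_add_neg] at h4
    exact h4
  have hlog3 : 0 ≤ Real.log 3 := Real.log_nonneg (by norm_num)
  have hK0 : (0 : ℝ) ≤ K * Real.log 3 := by positivity
  have hbig : (2 * N + 2 + c) * Real.log L + (K * Real.log 3 + CT + (2 * N + 1) * Real.log 2 + C2) ≤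
      Real.log 2 * (lam K L / (2 * N)) := e4.trans hlam
  have hcL : 0 ≤ c * Real.log L := by positivity
  have hNL : 0 ≤ (N : ℝ) * Real.log L := by positivity
  have hN2 : 0 ≤ (N : ℝ) * Real.log 2 := by positivity
  have hE1 : E ≤ 1 := by
    refine hEle.trans ?_
    rw [← Real.exp_zero]
    apply Real.exp_le_exp.mpr
    nlinarith
  have h3Ke : (3 : ℝ) ^ K = Real.exp (K * Real.log 3) := by
    rw [mul_comm, Real.exp_mul, Real.exp_log (by norm_num), Real.rpow_natCast]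
  have hterm1 : α * (E * ∏ k : Fin kst, ∏ p ∈ Pk MM K L k, (1 + (F p).2)) ≤
      Real.exp (TT0 + (-Xs - c * Real.log L)) := by
    calc α * (E * ∏ k : Fin kst, ∏ p ∈ Pk MM K L k, (1 + (F p).2)) ≤
          α * (Real.exp (N * Real.log 2 - Real.log 2 * (lam K L / (2 * N))) * Real.exp W) :=
          mul_le_mul_of_nonneg_left (mul_le_mul hEle hprodW hprodW0 (Real.exp_pos _).le) (by positivity)
      _ = Real.exp (K * Real.log 3 + (-T0 + CT) + ((N * Real.log 2 - Real.log 2 * (lam K L / (2 * N))) + W)) := by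
          rw [hα, h3Ke, ← Real.exp_add, ← Real.exp_add, ← Real.exp_add]
      _ ≤ Real.exp (TT0 + (-Xs - c * Real.log L)) := by
          apply Real.exp_le_exp.mpr
          nlinarith
  have hterm2 : E * β * ((1 + E) * ∏ k : Fin kst, ∏ p ∈ Pk MM K L k, (1 + (F p).2)) ≤
      Real.exp (TT0 + (-Xs - c * Real.log L)) := by
    have h1 : (1 + E) ≤ Real.exp (Real.log 2) := by
      rw [Real.exp_log (by norm_num)]
      linarith
    calc E * β * ((1 + E) * ∏ k : Fin kst, ∏ p ∈ Pk MM K L k, (1 + (F p).2)) ≤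
          (Real.exp (N * Real.log 2 - Real.log 2 * (lam K L / (2 * N))) * β) * (Real.exp (Real.log 2) * Real.exp W) :=
          mul_le_mul (mul_le_mul_of_nonneg_right hEle (Real.exp_pos _).le)
            (mul_le_mul h1 hprodW hprodW0 (Real.exp_pos _).le) (by positivity) (by positivity)
      _ = Real.exp (N * Real.log 2 - Real.log 2 * (lam K L / (2 * N)) + (2 * Real.log L + CT) + (Real.log 2 + W)) := by
          rw [hβ, ← Real.exp_add, ← Real.exp_add, ← Real.exp_add]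
      _ ≤ Real.exp (TT0 + (-Xs - c * Real.log L)) := by
          apply Real.exp_le_exp.mpr
          nlinarith
  have hterm0 : α * ∏ k : Fin kst, (∏ p ∈ Pk MM K L k, (1 - (F p).2) + 2 * tl (Dd c1 K L k) (Pk MM K L k) (fun p => (F p).2)) ≤
      (3 ^ K) ^ 2 * Real.exp (CT + C2) * Real.exp (TT0 + (-Xs - c * Real.log L)) := by
    calc α * ∏ k : Fin kst, (∏ p ∈ Pk MM K L k, (1 - (F p).2) + 2 * tl (Dd c1 K L k) (Pk MM K L k) (fun p => (F p).2)) ≤
          α * (3 ^ K * Real.exp (-W)) := mul_le_mul_of_nonneg_left hmain (by positivity)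
      _ = (3 ^ K) ^ 2 * Real.exp (-T0 + CT + -W) := by
          rw [hα, Real.exp_add (-T0 + CT)]
          ring
      _ ≤ (3 ^ K) ^ 2 * Real.exp (CT + C2 + (TT0 + (-Xs - c * Real.log L))) := by
          refine mul_le_mul_of_nonneg_left (Real.exp_le_exp.mpr ?_) (by positivity)
          linarith
      _ = _ := by
          rw [Real.exp_add (CT + C2)]
          ring
  have hexpX : Real.exp (-Xs - c * Real.log L) ≤
      2 ^ c * ((∏ i, (1 + j i : ℝ)⁻¹) * (1 + L : ℝ) ^ (-c)) := by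
    have h1 : ∏ i, (1 + j i : ℝ)⁻¹ = Real.exp (-Xs) := by
      rw [hXs, ← Finset.sum_neg_distrib, Real.exp_sum]
      apply Finset.prod_congr rfl
      intro i _
      have h2 : (0 : ℝ) < 1 + j i := by positivity
      rw [Real.exp_neg, Real.exp_log h2]
    have h2 : Real.exp (-(c * Real.log L)) ≤ 2 ^ c * (1 + L : ℝ) ^ (-c) := by
      have h3 : (0 : ℝ) < 1 + L := by positivity
      rw [Real.rpow_def_of_pos h3, Real.rpow_def_of_pos (show (0 : ℝ) < 2 by norm_num), ← Real.exp_add]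
      apply Real.exp_le_exp.mpr
      have h4 : Real.log (1 + L) ≤ Real.log 2 + Real.log L := by
        rw [← Real.log_mul (by norm_num) (by positivity)]
        apply Real.log_le_log h3
        linarith
      nlinarith
    rw [h1, sub_eq_add_neg, Real.exp_add]
    calc Real.exp (-Xs) * Real.exp (-(c * Real.log L)) ≤ Real.exp (-Xs) * (2 ^ c * (1 + L : ℝ) ^ (-c)) :=
          mul_le_mul_of_nonneg_left h2 (Real.exp_pos _).le
      _ = _ := by ring
  have hH := TR.bH_prod hgR C hC j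
  have hH0 : 0 ≤ ∏ c, (TR.bH g C j c : ℝ) := Finset.prod_nonneg fun c _ => Nat.cast_nonneg _
  calc (∏ c, (TR.bH g C j c : ℝ)) * (α * ((∏ k : Fin kst, (∏ p ∈ Pk MM K L k, (1 - (F p).2) +
        2 * tl (Dd c1 K L k) (Pk MM K L k) (fun p => (F p).2))) +
        E * ∏ k : Fin kst, ∏ p ∈ Pk MM K L k, (1 + (F p).2)) +
        E * β * ((1 + E) * ∏ k : Fin kst, ∏ p ∈ Pk MM K L k, (1 + (F p).2)))
      ≤ (∏ c, (TR.bH g C j c : ℝ)) * (((3 ^ K) ^ 2 * Real.exp (CT + C2) + 2) * Real.exp (TT0 + (-Xs - c * Real.log L))) := by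
        refine mul_le_mul_of_nonneg_left ?_ hH0
        rw [mul_add]
        linarith
    _ ≤ ((3 * C) ^ N * 2 ^ (∑ i, j i)) * (((3 ^ K) ^ 2 * Real.exp (CT + C2) + 2) * Real.exp (TT0 + (-Xs - c * Real.log L))) :=
        mul_le_mul_of_nonneg_right hH (by positivity)
    _ = ((3 * C) ^ N * 2 ^ (∑ i, j i)) * (((3 ^ K) ^ 2 * Real.exp (CT + C2) + 2) *
        Real.exp (-Xs - c * Real.log L)) * Real.exp TT0 := by
        rw [Real.exp_add TT0]
        ring
    _ ≤ ((3 * C) ^ N * 2 ^ (∑ i, j i)) * (((3 ^ K) ^ 2 * Real.exp (CT + C2) + 2) *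
        (2 ^ c * ((∏ i, (1 + j i : ℝ)⁻¹) * (1 + L : ℝ) ^ (-c)))) * Real.exp TT0 :=
        mul_le_mul_of_nonneg_right
          (mul_le_mul_of_nonneg_left (mul_le_mul_of_nonneg_left hexpX (by positivity)) (by positivity)) (Real.exp_pos _).le
    _ = (3 * C) ^ N * ((3 ^ K) ^ 2 * Real.exp (CT + C2) + 2) * 2 ^ c * (2 ^ (∑ i, j i) *
        (∏ i, (1 + j i : ℝ)⁻¹) * (1 + L : ℝ) ^ (-c)) * Real.exp TT0 := by ring

end QV
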