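import Pool.Agent.Lib.MP_10e784_agQV.QS1
import Pool.Agent.Lib.MP_10e784_agQV.QG1

/-! JOB QS2.  The sieve bound for the layers with `e q` on top.  MODEL: `QV.sv_pair` (file S2.lean, proved).
`η, c` from `sv_good_q`, `M1` from `bad_xq` (for this `η`, `A = card ι + 1 + c`), `C', L1` from `sv_good_q` for `M1' = M1`.  The set is contained in the union of the two sets; `L ^ (-A) ≤ 2 ^ A ∏_i (1 + j i)⁻¹ (1 + L) ^ (-c)`; `exp (TT) ≥ 1`. -/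

set_option autoImplicit false

namespace QV

open Finset Polynomial TW TR

private theorem QS2_pow {ι : Type} [Fintype ι] [DecidableEq ι] (c : ℝ) (hc : 0 < c) (j : ι → ℕ) (q : ι)
    (h1 : ∀ i, j i ≤ j q) (hL : 1 ≤ j q) :
    (j q : ℝ) ^ (-(Fintype.card ι + 1 + c)) ≤ 2 ^ (Fintype.card ι + 1 + c) *
      ((∏ i, (1 + j i : ℝ)⁻¹) * (1 + j q : ℝ) ^ (-c)) := by
  have hA0 : (0 : ℝ) ≤ Fintype.card ι + 1 + c := by positivity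
  have hLr : (1 : ℝ) ≤ j q := by exact_mod_cast hL
  have hL0 : (0 : ℝ) < j q := by linarith
  have hL1 : (1 : ℝ) ≤ 1 + j q := by linarith
  have hprod : (1 + j q : ℝ) ^ (-(Fintype.card ι : ℝ)) ≤ ∏ i, (1 + j i : ℝ)⁻¹ := by
    have h2 : ∀ i ∈ (univ : Finset ι), (1 + j q : ℝ)⁻¹ ≤ (1 + j i : ℝ)⁻¹ := by
      intro i _
      have h3 : (j i : ℝ) ≤ j q := by exact_mod_cast h1 i
      have h4 : (0 : ℝ) ≤ j i := Nat.cast_nonneg _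
      exact inv_anti₀ (by linarith) (by linarith)
    have h5 : ∏ _i : ι, (1 + j q : ℝ)⁻¹ ≤ ∏ i, (1 + j i : ℝ)⁻¹ :=
      prod_le_prod (fun _ _ => by positivity) h2
    refine le_trans (le_of_eq ?_) h5
    rw [prod_const, card_univ, Real.rpow_neg (by linarith), Real.rpow_natCast, inv_pow]
  have hsplit : (1 + j q : ℝ) ^ (-(Fintype.card ι + 1 + c)) ≤
      (∏ i, (1 + j i : ℝ)⁻¹) * (1 + j q : ℝ) ^ (-c) := by
    have h7 : (1 + j q : ℝ) ^ (-(Fintype.card ι + 1 + c)) ≤ (1 + j q : ℝ) ^ (-(Fintype.card ι : ℝ) + -c) :=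
      Real.rpow_le_rpow_of_exponent_le hL1 (by linarith)
    rw [Real.rpow_add (by linarith)] at h7
    exact h7.trans (mul_le_mul_of_nonneg_right hprod (by positivity))
  have h8 : (j q : ℝ) ^ (-(Fintype.card ι + 1 + c)) ≤ ((1 + j q) / 2 : ℝ) ^ (-(Fintype.card ι + 1 + c)) :=
    Real.rpow_le_rpow_of_nonpos (by linarith) (by linarith) (by linarith)
  have h9 : ((1 + j q) / 2 : ℝ) ^ (-(Fintype.card ι + 1 + c)) =
      2 ^ (Fintype.card ι + 1 + c) * (1 + j q : ℝ) ^ (-(Fintype.card ι + 1 + c)) := by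
    rw [Real.div_rpow (by linarith) (by norm_num), Real.rpow_neg (by norm_num : (0 : ℝ) ≤ 2), div_inv_eq_mul,
      mul_comm]
  rw [h9] at h8
  exact h8.trans (mul_le_mul_of_nonneg_left hsplit (by positivity))

private theorem QS2_tt {ι : Type} [Fintype ι] (g : ι → ℤ[X]) (x : ℝ) : 0 ≤ EL.TT g x := by
  rw [EL.TT, PT.PS]
  refine sum_nonneg fun p _ => div_nonneg ?_ (Nat.cast_nonneg p)
  rw [PT.ind]
  split_ifs
  · exact zero_le_one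
  · exact le_rfl

theorem sv_q {ι : Type} [Fintype ι] [DecidableEq ι] {g : ι → ℤ[X]} (hg : TW.Fam g) (h2 : ∀ i, 2 ≤ (g i).natDegree)
    (q : ι) (hq : Qd g q) (M : ℕ) (hM : M ≠ 0) (C : ℝ) (hC : 1 ≤ C) (ε : ℝ) (hε : 0 < ε) (hε1 : ε ≤ 1) :
    ∃ (c C' : ℝ) (L1 : ℕ), 0 < c ∧ 0 < C' ∧ ∀ (j : ι → ℕ) (k₂ : ι), (∀ i, j i ≤ j q) → L1 ≤ j q → k₂ ≠ q → ((j q : ℝ) ^ ε ≤ j k₂) →
      (Nat.card {x : Co g → ℤ // Bx g C j x ∧ Loc g M x ∧ (∀ i, pol g x i ≠ 0)} : ℝ) ≤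
          C' * (2 ^ (∑ i, j i) * (∏ i, (1 + j i : ℝ)⁻¹) * (1 + j q : ℝ) ^ (-c)) * Real.exp (EL.TT g (Real.exp (j q))) := by
  classical
  obtain ⟨η, c, hη, hc, hgood⟩ := sv_good_q hg h2 q hq M hM C hC ε hε hε1
  obtain ⟨A, hA⟩ : ∃ A : ℝ, A = Fintype.card ι + 1 + c := ⟨_, rfl⟩
  have hgR : TR.Fam g := ⟨hg.monic, hg.irr, hg.inj, hg.even, hg.six⟩
  obtain ⟨CB, LB, M1, hCB, hB⟩ := bad_xq hgR q hq.1 C hC ε hε A η hη
  obtain ⟨C₁, L₁, hC₁, hL₁, hG⟩ := hgood M1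
  refine ⟨c, C₁ + CB * 2 ^ A, L₁ + LB, hc, by positivity, ?_⟩
  intro j k₂ h1 h3 h4 h5
  have hLs : 1 ≤ j q := by omega
  obtain ⟨a, b, Q, ha, hb, hQ, hQa, hM1a, hi, hcard⟩ := hG j k₂ h1 (by omega) h4 h5
  have b1 := hB j k₂ (j q) a b Q h4 (by omega) h5 ha hb hQ hQa hM1a hi
  have hfin : {x : Co g → ℤ | Bx g C j x}.Finite := (TR.bx_card hgR C hC j).1
  obtain ⟨S0, hS0⟩ : ∃ S0 : Set (Co g → ℤ), S0 = {x | Bx g C j x ∧ Loc g M x ∧ (∀ i, pol g x i ≠ 0)} := ⟨_, rfl⟩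
  obtain ⟨S1, hS1⟩ : ∃ S1 : Set (Co g → ℤ), S1 = {x | Bx g C j x ∧ Loc g M x ∧ (∀ i, pol g x i ≠ 0) ∧
          (∀ i ∈ Ico a b, |sw (bt g q) (mq g q x) i| ≤ η / i)} := ⟨_, rfl⟩
  obtain ⟨S2, hS2⟩ : ∃ S2 : Set (Co g → ℤ), S2 = {x | Bx g C j x ∧ (∀ i, pol g x i ≠ 0) ∧
          ∃ i ∈ Ico a b, η / i < |sw (bt g q) (mq g q x) i|} := ⟨_, rfl⟩
  have f1 : S1.Finite := hfin.subset fun x hx => by
    rw [hS1] at hx
    exact hx.1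
  have f2 : S2.Finite := hfin.subset fun x hx => by
    rw [hS2] at hx
    exact hx.1
  have hsub : S0 ⊆ S1 ∪ S2 := by
    intro x hx
    rw [hS0] at hx
    obtain ⟨x1, x2, x3⟩ := hx
    by_cases e1 : ∃ i ∈ Ico a b, η / i < |sw (bt g q) (mq g q x) i|
    · refine Or.inr ?_
      rw [hS2]
      exact ⟨x1, x3, e1⟩
    · refine Or.inl ?_
      push Not at e1
      rw [hS1]
      exact ⟨x1, x2, x3, e1⟩
  have hn : (S0.ncard : ℝ) ≤ (S1.ncard : ℝ) + S2.ncard := by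
    have e1 : S0.ncard ≤ (S1 ∪ S2).ncard := Set.ncard_le_ncard hsub (f1.union f2)
    exact_mod_cast e1.trans (Set.ncard_union_le S1 S2)
  obtain ⟨E, hE⟩ : ∃ E : ℝ, E = Real.exp (EL.TT g (Real.exp (j q))) := ⟨_, rfl⟩
  have hE1 : 1 ≤ E := by
    rw [hE]
    exact Real.one_le_exp (QS2_tt g _)
  have n1 : (S1.ncard : ℝ) ≤ C₁ * (2 ^ (∑ i, j i) * (∏ i, (1 + j i : ℝ)⁻¹) * (1 + j q : ℝ) ^ (-c)) * E := by
    rw [hS1, hE, ← Nat.card_coe_set_eq]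
    exact hcard
  have n2 : (S2.ncard : ℝ) ≤ CB * 2 ^ (∑ i, j i) * (j q : ℝ) ^ (-A) := by
    rw [hS2, ← Nat.card_coe_set_eq]
    exact b1
  have hpw := QS2_pow c hc j q h1 hLs
  rw [← hA] at hpw
  have hfinal : (S0.ncard : ℝ) ≤ (C₁ + CB * 2 ^ A) *
      (2 ^ (∑ i, j i) * (∏ i, (1 + j i : ℝ)⁻¹) * (1 + j q : ℝ) ^ (-c)) * E := by
    obtain ⟨T, hT⟩ : ∃ T : ℝ, T = (2 : ℝ) ^ (∑ i, j i) := ⟨_, rfl⟩
    obtain ⟨P, hP⟩ : ∃ P : ℝ, P = ∏ i, (1 + j i : ℝ)⁻¹ := ⟨_, rfl⟩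
    obtain ⟨Z, hZ⟩ : ∃ Z : ℝ, Z = (1 + j q : ℝ) ^ (-c) := ⟨_, rfl⟩
    have hT0 : 0 ≤ T := by
      rw [hT]
      positivity
    have hP0 : 0 ≤ P := by
      rw [hP]
      exact prod_nonneg fun i _ => by positivity
    have hZ0 : 0 ≤ Z := by
      rw [hZ]
      positivity
    rw [← hT, ← hP, ← hZ] at n1 ⊢
    rw [← hT] at n2
    rw [← hP, ← hZ] at hpw
    have h6 : CB * T * (j q : ℝ) ^ (-A) ≤ CB * T * (2 ^ A * (P * Z)) :=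
      mul_le_mul_of_nonneg_left hpw (mul_nonneg hCB.le hT0)
    have h7 : CB * T * (2 ^ A * (P * Z)) * 1 ≤ CB * T * (2 ^ A * (P * Z)) * E :=
      mul_le_mul_of_nonneg_left hE1 (by positivity)
    calc (S0.ncard : ℝ) ≤ (S1.ncard : ℝ) + S2.ncard := hn
      _ ≤ C₁ * (T * P * Z) * E + CB * T * (2 ^ A * (P * Z)) * E := by linarith
      _ = (C₁ + CB * 2 ^ A) * (T * P * Z) * E := by ring
  rw [hS0, hE, ← Nat.card_coe_set_eq] at hfinal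
  exact hfinal

end QV
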