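import Pool.Agent.Lib.MP_10e784_agQV.DefsP
import Pool.Agent.Lib.MP_10e784_agTR.TWNrm

/-! JOB R1.  The local condition for a pair.
The reduction of `mm g r s x` modulo `p` is `∏_{k ≠ r, s} resultant (red p (g k)) (red p (..)) n n` (`resultant_map_map`), and `red p (pol g x k) = pol g (x mod p) k`.
`hz` says `pol g w r = C (w r) = 0`.  So the first alternative of `Al` fails (`h = X - C t`, `t` the root of `red p (g r)`, divides `pol g w r = 0`), so there are `i₀, t', s'` as in the second alternative.  If `i₀ ≠ r`: `h = X - C t` (`t = -(g r).coeff 0`) divides `red p (g r)` and `h ≠ X - C t'` (the roots of `red p (g r)` and `red p (g i₀)` are different: `GoodP.sqf`), so `h` does not divide `pol g w r = 0`, absurd.  So `i₀ = r`, `t' = t`.  For `k ≠ r` all the irreducible factors `h` of `red p (g k)` are `≠ X - C t` (same reason), so `pol g w k * C s' * (C t - X)` is a square modulo each `h`.  `TR.res_sq` (the reduction of `g k` is squarefree): `resultant (red p (g k)) (pol g w k * C s' * (C t - X)) n n` is a square; it is `s' ^ n` times the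 factor of `mm`.  The product over `k ≠ r, s`: `s' ^ (∑_{k ≠ r, s} n k) * mm`, and the exponent is even (`hg.even`, the two degrees `1` removed).  As `s' ≠ 0`, `mm` is a square. -/

set_option autoImplicit false

namespace QV

open Finset Polynomial TW TR

private theorem R1_deg {ι R : Type} [CommRing R] (g : ι → ℤ[X]) (x : Co g → R) (i : ι) :
    (pol g x i).degree < ((g i).natDegree : WithBot ℕ) := by
  unfold pol
  exact Polynomial.degree_sum_fin_lt (fun c : Fin (g i).natDegree => x ⟨i, c⟩)

private theorem R1_natDeg {ι R : Type} [CommRing R] [NoZeroDivisors R] (g : ι → ℤ[X]) (x : Co g → R) (i : ι) (s t : R) :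
    (pol g x i * C s * (C t - X)).natDegree ≤ (g i).natDegree := by
  by_cases h0 : pol g x i = 0
  · rw [h0, zero_mul, zero_mul, natDegree_zero]
    exact Nat.zero_le _
  · have h1 := R1_deg g x i
    rw [degree_eq_natDegree h0] at h1
    have h2 : (pol g x i).natDegree < (g i).natDegree := by exact_mod_cast h1
    have h3 : (pol g x i * C s).natDegree ≤ (pol g x i).natDegree := natDegree_mul_C_le _ _
    have h4 : (C t - X : R[X]).natDegree ≤ 1 := by
      refine (natDegree_sub_le _ _).trans ?_
      rw [natDegree_C]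
      exact max_le (Nat.zero_le _) natDegree_X_le
    have h5 := natDegree_mul_le (p := pol g x i * C s) (q := C t - X)
    omega

theorem al_sq {ι : Type} [Fintype ι] [DecidableEq ι] {g : ι → ℤ[X]} (hg : TR.Fam g) (r s : ι) (hrs : r ≠ s)
    (hr : (g r).natDegree = 1) (hs : (g s).natDegree = 1) (p : ℕ) (hp : GoodP g p) (x : Co g → ℤ)
    (hal : Al g p (fun c => (x c : ZMod p))) (hz : ∀ c : Co g, c.1 = r → ((x c : ℤ) : ZMod p) = 0) :
    IsSquare ((mm g r s x : ℤ) : ZMod p) := by
  have : Fact p.Prime := ⟨hp.prime⟩
  obtain ⟨w, hw⟩ : ∃ w : Co g → ZMod p, w = fun c => ((x c : ℤ) : ZMod p) := ⟨_, rfl⟩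
  rw [← hw] at hal
  obtain ⟨t, ht⟩ : ∃ t : ZMod p, t = -((g r).coeff 0 : ZMod p) := ⟨_, rfl⟩
  have hgr : red p (g r) = X - C t := by
    have h6 : g r = X + C ((g r).coeff 0) := (hg.monic r).eq_X_add_C hr
    unfold red
    conv_lhs => rw [h6]
    rw [Polynomial.map_add, map_X, map_C, ht, C_neg, sub_neg_eq_add]
    rfl
  have hpr : pol g w r = 0 := by
    unfold pol
    refine Finset.sum_eq_zero fun c _ => ?_
    have h1 : w ⟨r, c⟩ = 0 := by
      rw [hw]
      exact hz ⟨r, c⟩ rfl
    rw [h1, C_0, zero_mul]
  have hdvr : ∀ h : (ZMod p)[X], h ∣ pol g w r := fun h => by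
    rw [hpr]
    exact dvd_zero h
  rcases hal with hal | ⟨i₀, t', s', hs', -, -, hall⟩
  · exact absurd (hdvr _) (hal r (X - C t) (monic_X_sub_C t) (irreducible_X_sub_C t) (by rw [hgr]))
  · have htt : X - C t = X - C t' := by
      by_contra hne
      exact (hall r (X - C t) (monic_X_sub_C t) (irreducible_X_sub_C t) (by rw [hgr]) hne).1 (hdvr _)
    have htt' : t' = t := by
      have h1 : C t = C t' := by linear_combination -htt
      exact (C_injective h1).symm
    subst htt'
    have hnd : ∀ k, k ≠ r → ¬ X - C t' ∣ red p (g k) := by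
      intro k hk hd
      have h1 := hp.sqf
      have h2 : (X - C t') * (X - C t') ∣ red p (∏ i, g i) := by
        have h3 : red p (∏ i, g i) = red p (g r) * (red p (g k) * ∏ i ∈ (univ.erase r).erase k, red p (g i)) := by
          rw [Finset.mul_prod_erase (univ.erase r) (fun i => red p (g i)) (Finset.mem_erase.2 ⟨hk, Finset.mem_univ k⟩),
            Finset.mul_prod_erase univ (fun i => red p (g i)) (Finset.mem_univ r)]
          unfold red
          rw [Polynomial.map_prod]
        rw [h3, hgr]
        exact mul_dvd_mul_left _ (hd.mul_right _)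
      exact (irreducible_X_sub_C t').not_isUnit (h1 _ h2)
    have hres : ∀ k, ((resultant (g k) (pol g x k * (C (-(g r).coeff 0) - X)) (g k).natDegree (g k).natDegree : ℤ) :
        ZMod p) = resultant (red p (g k)) (pol g w k * (C t' - X)) (g k).natDegree (g k).natDegree := by
      intro k
      have h1 := resultant_map_map (g k) (pol g x k * (C (-(g r).coeff 0) - X)) (g k).natDegree (g k).natDegree
        (Int.castRingHom (ZMod p))
      have h2 : (pol g x k * (C (-(g r).coeff 0) - X)).map (Int.castRingHom (ZMod p)) =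
          pol g w k * (C t' - X) := by
        have h3 := TR.pol_map (Int.castRingHom (ZMod p)) g x k
        simp only [Int.coe_castRingHom] at h3
        rw [Polynomial.map_mul, h3, Polynomial.map_sub, map_C, map_X, map_neg, ht, hw]
        rfl
      rw [h2] at h1
      exact h1.symm
    have hsq : ∀ k, k ≠ r → IsSquare (s' ^ (g k).natDegree *
        ((resultant (g k) (pol g x k * (C (-(g r).coeff 0) - X)) (g k).natDegree (g k).natDegree : ℤ) : ZMod p)) := by
      intro k hk
      have h4 := TR.res_sq (red p (g k)) (pol g w k * C s' * (C t' - X)) (TR.red_monic hg p k).1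
        (TR.red_sqf hg p hp k) (fun h hm hirr hdvd => by
          have hne : h ≠ X - C t' := by
            rintro rfl
            exact hnd k hk hdvd
          exact (hall k h hm hirr hdvd hne).2) (g k).natDegree (R1_natDeg g w k s' t')
      have e : pol g w k * C s' * (C t' - X) = C s' * (pol g w k * (C t' - X)) := by ring
      rw [e, resultant_C_mul_right, (TR.red_monic hg p k).2, ← hres k] at h4
      exact h4
    have hprod : IsSquare (∏ k ∈ univ.filter (fun k => k ≠ r ∧ k ≠ s), (s' ^ (g k).natDegree *
        ((resultant (g k) (pol g x k * (C (-(g r).coeff 0) - X)) (g k).natDegree (g k).natDegree : ℤ) : ZMod p))) :=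
      Finset.prod_induction _ IsSquare (fun a b ha hb => ha.mul hb) ⟨1, by simp⟩ fun i hi =>
        hsq i (Finset.mem_filter.1 hi).2.1
    rw [Finset.prod_mul_distrib, Finset.prod_pow_eq_pow_sum, ← Int.cast_prod] at hprod
    have heven : Even (∑ k ∈ univ.filter (fun k => k ≠ r ∧ k ≠ s), (g k).natDegree) := by
      have hfil : univ.filter (fun k => k ≠ r ∧ k ≠ s) = (univ.erase r).erase s := by
        ext k
        simp only [Finset.mem_filter, Finset.mem_univ, true_and, Finset.mem_erase, and_true]
        tauto
      have h5 := Finset.sum_erase_add univ (fun i => (g i).natDegree) (Finset.mem_univ r)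
      have h5' := Finset.sum_erase_add (univ.erase r) (fun i => (g i).natDegree)
        (Finset.mem_erase.2 ⟨hrs.symm, Finset.mem_univ s⟩)
      have h6 := hg.even
      rw [hfil]
      simp only [hr, hs] at h5 h5'
      obtain ⟨b, hb⟩ := h6
      refine ⟨b - 1, ?_⟩
      omega
    obtain ⟨k, hk⟩ := heven
    rw [hk] at hprod
    obtain ⟨z, hz'⟩ := hprod
    refine ⟨z * (s' ^ k)⁻¹, ?_⟩
    have hsk : s' ^ k ≠ 0 := pow_ne_zero k hs'
    have h8 : z * (s' ^ k)⁻¹ * (z * (s' ^ k)⁻¹) = (z * z) * ((s' ^ k)⁻¹ * (s' ^ k)⁻¹) := by ring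
    rw [h8, ← hz', pow_add, mm]
    field_simp

end QV
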