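import Pool.Agent.Lib.MP_10e784_agQV.DefsT
import Pool.Agent.Lib.MP_10e784_agQV.LS3
import Pool.Agent.Lib.MP_10e784_agTR.TRInc
import Pool.Agent.Lib.MP_10e784_ag.TW.TWRtLow

/-! JOB T1.  The sum of the excluded proportions over the top primes.
For the primes `p ∈ (2 ^ a, 2 ^ b]` (odd, larger than `|m1|`, `|m2|`, so `p ∤ m1 m2`) the indicator of `¬ IsSquare (m : ZMod p)` is `(1 - J(m | p)) / 2`.  So
`∑ tw m1 m2 p ≥ ∑ 1 / p - (1/2) |∑ J(m1 | p) / p| - (1/2) |∑ J(m2 | p) / p| - ∑ 1 / p ^ 2 - (the primes dividing M: at most ∑_{p ∣ M} 1)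
≥ log (b / a) - C - η (log (b / a) + 1)` (`blocks`; `∑_{2 ^ a < p ≤ 2 ^ b} 1 / p ≥ log (b / a) - C`: `PT.rt_sum` and `TW.rt_low` for `G = X`, or the corresponding Mertens statement in the library). -/

set_option autoImplicit false

namespace QV

open Finset

open Polynomial in
private theorem T1_gen (G : ℤ[X]) (hm : G.Monic)
    (hirr : Irreducible (G.map (Int.castRingHom ℚ))) :
    ∃ C : ℝ, 0 ≤ C ∧ ∀ a b : ℕ, 1 ≤ a → a ≤ b → Real.log ((b : ℝ) / a) - C ≤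
      ∑ p ∈ (Ioc (2 ^ a) (2 ^ b)).filter Nat.Prime, (PT.rt G p : ℝ) / p := by
  obtain ⟨C1, h1⟩ := TW.rt_low G hm hirr
  obtain ⟨C2, h2⟩ := PT.rt_sum G hirr
  refine ⟨|C1 + C2|, abs_nonneg _, fun a b ha hab => ?_⟩
  have hx : ∀ n : ℕ, 1 ≤ n → (2 : ℝ) ≤ ((2 ^ n : ℕ) : ℝ) := by
    intro n hn
    have h3 : 2 ^ 1 ≤ 2 ^ n := Nat.pow_le_pow_right (by norm_num) hn
    rw [pow_one] at h3
    exact_mod_cast h3
  have hP : ∀ n : ℕ, PT.PS (fun p => (PT.rt G p : ℝ)) ((2 ^ n : ℕ) : ℝ) =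
      ∑ p ∈ Ioc 0 (2 ^ n), if p.Prime then (PT.rt G p : ℝ) / p else 0 := by
    intro n
    unfold PT.PS
    rw [Nat.floor_natCast, sum_filter]
    refine sum_congr ?_ fun p _ => rfl
    ext p
    rw [mem_Icc, mem_Ioc]
    omega
  have hl : ∀ n : ℕ, 1 ≤ n → Real.log (Real.log ((2 ^ n : ℕ) : ℝ)) =
      Real.log n + Real.log (Real.log 2) := by
    intro n hn
    have hn0 : (n : ℝ) ≠ 0 := by
      have : n ≠ 0 := by omega
      exact_mod_cast this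
    rw [Nat.cast_pow, Nat.cast_ofNat, Real.log_pow,
      Real.log_mul hn0 (Real.log_pos (by norm_num)).ne']
  have hb : 1 ≤ b := ha.trans hab
  have e1 := h1 _ (hx b hb)
  have e2 := h2 _ (hx a ha)
  rw [hP, hl b hb] at e1
  rw [hP, hl a ha] at e2
  have e3 := sum_Ioc_consecutive (fun p => if p.Prime then (PT.rt G p : ℝ) / p else 0)
    (Nat.zero_le (2 ^ a)) (Nat.pow_le_pow_right (by norm_num : 0 < 2) hab)
  have ha0 : (a : ℝ) ≠ 0 := by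
    have : a ≠ 0 := by omega
    exact_mod_cast this
  have hb0 : (b : ℝ) ≠ 0 := by
    have : b ≠ 0 := by omega
    exact_mod_cast this
  rw [sum_filter, Real.log_div hb0 ha0]
  have e4 := le_abs_self (C1 + C2)
  linarith

/-- the lower bound of Mertens for the primes in `(2 ^ a, 2 ^ b]` -/
private theorem T1_mer : ∃ C : ℝ, 0 ≤ C ∧ ∀ a b : ℕ, 1 ≤ a → a ≤ b → Real.log ((b : ℝ) / a) - C ≤
      ∑ p ∈ (Ioc (2 ^ a) (2 ^ b)).filter Nat.Prime, (1 : ℝ) / p := by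
  obtain ⟨C, hC, h⟩ := T1_gen Polynomial.X Polynomial.monic_X (by
    rw [Polynomial.map_X]
    exact Polynomial.irreducible_X)
  refine ⟨C, hC, fun a b ha hab => (h a b ha hab).trans (le_of_eq ?_)⟩
  refine sum_congr rfl fun p hp => ?_
  rw [mem_filter] at hp
  have : Fact p.Prime := ⟨hp.2⟩
  have h1 : (PT.rt Polynomial.X p : ℝ) = 1 := by
    unfold PT.rt
    rw [Polynomial.map_X]
    simp only [Polynomial.eval_X]
    rw [Nat.card_eq_fintype_card, Fintype.card_unique, Nat.cast_one]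
  rw [h1]

/-- the indicator of the nonsquares in terms of the character -/
private theorem T1_nr (m : ℤ) (p : ℕ) (hp : p.Prime) (hm : m ≠ 0) (hmp : |m| < p) :
    nr m p = (1 - (jacobiSym m p : ℝ)) / 2 := by
  have _ : Fact p.Prime := ⟨hp⟩
  have hd : ((m : ℤ) : ZMod p) ≠ 0 := by
    intro h0
    have h1 := (ZMod.intCast_zmod_eq_zero_iff_dvd m p).1 h0
    have h2 := Int.le_of_dvd (abs_pos.2 hm) ((dvd_abs _ _).2 h1)
    omega
  rw [← jacobiSym.legendreSym.to_jacobiSym]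
  unfold nr
  rcases legendreSym.eq_one_or_neg_one p hd with h | h
  · rw [if_pos ((legendreSym.eq_one_iff p hd).1 h), h]
    norm_num
  · rw [if_neg ((legendreSym.eq_neg_one_iff p).1 h), h]
    norm_num

private theorem T1_01 (m : ℤ) (p : ℕ) : 0 ≤ nr m p ∧ nr m p ≤ 1 := by
  unfold nr
  split_ifs
  · exact ⟨le_refl _, zero_le_one⟩
  · exact ⟨zero_le_one, le_refl _⟩

open Classical in
theorem top_low (M : ℕ) (hM : M ≠ 0) : ∃ C : ℝ, 0 ≤ C ∧ ∀ (m1 m2 : ℤ) (a b : ℕ) (η : ℝ), 0 ≤ η → η ≤ 1 → 1 ≤ a → a ≤ b → m1 ≠ 0 → m2 ≠ 0 →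
    |m1| < 2 ^ a → |m2| < 2 ^ a → (∀ i ∈ Ico a b, |sm m1 i| ≤ η / i) → (∀ i ∈ Ico a b, |sm m2 i| ≤ η / i) →
    (1 - η) * Real.log ((b : ℝ) / a) - C ≤
      ∑ p ∈ (Ioc (2 ^ a) (2 ^ b)).filter (fun p => p.Prime ∧ ¬ p ∣ M), tw m1 m2 p := by
  obtain ⟨C, hC, hmer⟩ := T1_mer
  refine ⟨C + 2 + M.divisors.card, by positivity, fun m1 m2 a b η hη hη1 ha hab hm1 hm2 hb1 hb2 hs1 hs2 => ?_⟩
  obtain ⟨S, hS⟩ : ∃ S : Finset ℕ, S = (Ioc (2 ^ a) (2 ^ b)).filter Nat.Prime := ⟨_, rfl⟩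
  have hSm : ∀ p ∈ S, p.Prime ∧ 2 ^ a < p ∧ p ≤ 2 ^ b := by
    intro p hp
    rw [hS, mem_filter, mem_Ioc] at hp
    exact ⟨hp.2, hp.1⟩
  have h1 := hmer a b ha hab
  have h2 := (abs_le.1 (blocks m1 a b ha hab η hη hs1)).2
  have h3 := (abs_le.1 (blocks m2 a b ha hab η hη hs2)).2
  rw [← hS] at h1 h2 h3
  have h4 : ∀ p ∈ S, (nr m1 p + nr m2 p) / p = 1 / p - (jacobiSym m1 p : ℝ) / p / 2 - (jacobiSym m2 p : ℝ) / p / 2 := by
    intro p hp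
    obtain ⟨hp1, hp2, -⟩ := hSm p hp
    have hpz : (2 : ℤ) ^ a < p := by exact_mod_cast hp2
    rw [T1_nr m1 p hp1 hm1 (hb1.trans hpz), T1_nr m2 p hp1 hm2 (hb2.trans hpz)]
    ring
  have h5 : ∑ p ∈ S, (nr m1 p + nr m2 p) / p = ∑ p ∈ S, (1 : ℝ) / p - (∑ p ∈ S, (jacobiSym m1 p : ℝ) / p) / 2 -
      (∑ p ∈ S, (jacobiSym m2 p : ℝ) / p) / 2 := by
    rw [sum_congr rfl h4, sum_sub_distrib, sum_sub_distrib, sum_div, sum_div]
  have h6 : ∀ p ∈ S, (nr m1 p + nr m2 p) / p ≤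
      (if p ∣ M then 0 else tw m1 m2 p) + ((p : ℝ) ^ 2)⁻¹ + (if p ∣ M then 1 else 0) := by
    intro p hp
    obtain ⟨hp1, -, -⟩ := hSm p hp
    have hp2 : (2 : ℝ) ≤ p := by exact_mod_cast hp1.two_le
    have hp0 : (0 : ℝ) < p := by linarith
    obtain ⟨e1, e2⟩ := T1_01 m1 p
    obtain ⟨e3, e4⟩ := T1_01 m2 p
    have e5 : (0 : ℝ) ≤ ((p : ℝ) ^ 2)⁻¹ := by positivity
    by_cases hM' : p ∣ M
    · rw [if_pos hM', if_pos hM']
      have e6 : (nr m1 p + nr m2 p) / p ≤ 1 := by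
        rw [div_le_one hp0]
        linarith
      linarith
    · rw [if_neg hM', if_neg hM', tw]
      have e6 : nr m1 p * nr m2 p / (p : ℝ) ^ 2 ≤ ((p : ℝ) ^ 2)⁻¹ := by
        rw [div_eq_mul_inv]
        have e7 : nr m1 p * nr m2 p ≤ 1 := by nlinarith
        exact mul_le_of_le_one_left e5 e7
      linarith
  have h7 := sum_le_sum h6
  rw [sum_add_distrib, sum_add_distrib] at h7
  have h8 : ∑ p ∈ S, (if p ∣ M then 0 else tw m1 m2 p) =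
      ∑ p ∈ (Ioc (2 ^ a) (2 ^ b)).filter (fun p => p.Prime ∧ ¬ p ∣ M), tw m1 m2 p := by
    rw [hS, ← filter_filter, sum_filter (fun p => ¬ p ∣ M)]
    refine sum_congr rfl fun p _ => ?_
    by_cases hM' : p ∣ M
    · rw [if_pos hM', if_neg (not_not.2 hM')]
    · rw [if_neg hM', if_pos hM']
  have h9 : ∑ p ∈ S, ((p : ℝ) ^ 2)⁻¹ ≤ 1 := by
    have e1 : ∑ p ∈ S, ((p : ℝ) ^ 2)⁻¹ ≤ ∑ p ∈ Ioc (2 ^ a : ℕ) (2 ^ b : ℕ), ((p : ℝ) ^ 2)⁻¹ := by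
      rw [hS]
      exact sum_le_sum_of_subset_of_nonneg (filter_subset _ _) fun p _ _ => by positivity
    have e2 : ∑ p ∈ Ioc (2 ^ a : ℕ) (2 ^ b : ℕ), ((p : ℝ) ^ 2)⁻¹ ≤ (((2 ^ a : ℕ) : ℝ))⁻¹ - (((2 ^ b : ℕ) : ℝ))⁻¹ :=
      sum_Ioc_inv_sq_le_sub (pow_ne_zero _ two_ne_zero) (Nat.pow_le_pow_right (by norm_num) hab)
    have e3 : (((2 ^ a : ℕ) : ℝ))⁻¹ ≤ 1 := by
      apply inv_le_one_of_one_le₀
      exact_mod_cast Nat.one_le_two_pow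
    have e4 : (0 : ℝ) ≤ (((2 ^ b : ℕ) : ℝ))⁻¹ := by positivity
    linarith
  have h10 : ∑ p ∈ S, (if p ∣ M then (1 : ℝ) else 0) ≤ M.divisors.card := by
    rw [← sum_filter, sum_const, nsmul_eq_mul, mul_one]
    refine Nat.cast_le.2 (card_le_card fun p hp => ?_)
    exact Nat.mem_divisors.2 ⟨(mem_filter.1 hp).2, hM⟩
  rw [h5, h8] at h7
  have h11 : η * (Real.log ((b : ℝ) / a) + 1) = η * Real.log ((b : ℝ) / a) + η := by ring
  have h12 : (1 - η) * Real.log ((b : ℝ) / a) = Real.log ((b : ℝ) / a) - η * Real.log ((b : ℝ) / a) := by ring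
  rw [h11] at h2 h3
  rw [h12]
  linarith

end QV
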