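import Pool.Agent.Lib.MP_10e784_agQV.DefsT

/-! JOB T2.  The size of the excluded set, exactly.
There is exactly one `c : Co g` with `c.1 = r` and one with `c.1 = s` (degree one).  The vectors which agree with `y` off these two are given by two residues `(u, v)`; excluded are those with `u = 0` (if `m1` is no square) and those with `v = 0` (if `m2` is no square): `n1 p + n2 p - n1 n2` of them. -/

set_option autoImplicit false

namespace QV

open Finset Polynomial TW TR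

private theorem T2_A (p : ℕ) [Fact p.Prime] : Nat.card {z : ZMod p × ZMod p // z.1 = 0} = p := by
  classical
  rw [Nat.card_eq_fintype_card, Fintype.card_subtype]
  have h : (univ.filter fun z : ZMod p × ZMod p => z.1 = 0) = ({0} : Finset (ZMod p)) ×ˢ univ := by
    ext z
    simp only [mem_filter, mem_univ, true_and, mem_product, mem_singleton, and_true]
  rw [h, card_product, card_singleton, one_mul, card_univ, ZMod.card]

private theorem T2_B (p : ℕ) [Fact p.Prime] : Nat.card {z : ZMod p × ZMod p // z.2 = 0} = p := by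
  classical
  rw [Nat.card_eq_fintype_card, Fintype.card_subtype]
  have h : (univ.filter fun z : ZMod p × ZMod p => z.2 = 0) = univ ×ˢ ({0} : Finset (ZMod p)) := by
    ext z
    simp only [mem_filter, mem_univ, true_and, mem_product, mem_singleton]
  rw [h, card_product, card_singleton, mul_one, card_univ, ZMod.card]

private theorem T2_AB (p : ℕ) [Fact p.Prime] : Nat.card {z : ZMod p × ZMod p // z.1 = 0 ∨ z.2 = 0} + 1 = p + p := by
  classical
  rw [Nat.card_eq_fintype_card, Fintype.card_subtype]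
  have h : (univ.filter fun z : ZMod p × ZMod p => z.1 = 0 ∨ z.2 = 0) =
      ({0} : Finset (ZMod p)) ×ˢ univ ∪ univ ×ˢ ({0} : Finset (ZMod p)) := by
    ext z
    simp only [mem_filter, mem_univ, true_and, mem_union, mem_product, mem_singleton, and_true]
  have h2 : (({0} : Finset (ZMod p)) ×ˢ (univ : Finset (ZMod p))) ∩ (univ ×ˢ ({0} : Finset (ZMod p))) = {((0 : ZMod p), (0 : ZMod p))} := by
    ext z
    simp only [mem_inter, mem_product, mem_singleton, mem_univ, true_and, and_true, Prod.ext_iff]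
  have h3 := card_union_add_card_inter (({0} : Finset (ZMod p)) ×ˢ (univ : Finset (ZMod p))) (univ ×ˢ ({0} : Finset (ZMod p)))
  rw [h2, card_singleton, card_product, card_product, card_singleton, one_mul, mul_one, card_univ, ZMod.card] at h3
  rw [h, h3]

private theorem T2_nr (m : ℤ) (p : ℕ) : (IsSquare ((m : ℤ) : ZMod p) ∧ nr m p = 0) ∨ (¬ IsSquare ((m : ℤ) : ZMod p) ∧ nr m p = 1) := by
  unfold nr
  by_cases h : IsSquare ((m : ℤ) : ZMod p)
  · exact Or.inl ⟨h, if_pos h⟩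
  · exact Or.inr ⟨h, if_neg h⟩

private theorem T2_cnt (p : ℕ) [Fact p.Prime] (m1 m2 : ℤ) :
    (Nat.card {z : ZMod p × ZMod p // (z.1 = 0 ∧ ¬ IsSquare ((m1 : ℤ) : ZMod p)) ∨ (z.2 = 0 ∧ ¬ IsSquare ((m2 : ℤ) : ZMod p))} : ℝ) =
      (nr m1 p + nr m2 p) * p - nr m1 p * nr m2 p := by
  rcases T2_nr m1 p with ⟨h1, e1⟩ | ⟨h1, e1⟩ <;> rcases T2_nr m2 p with ⟨h2, e2⟩ | ⟨h2, e2⟩ <;> rw [e1, e2]
  · have h : IsEmpty {z : ZMod p × ZMod p // (z.1 = 0 ∧ ¬ IsSquare ((m1 : ℤ) : ZMod p)) ∨ (z.2 = 0 ∧ ¬ IsSquare ((m2 : ℤ) : ZMod p))} :=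
      ⟨fun z => z.2.elim (fun h => h.2 h1) (fun h => h.2 h2)⟩
    rw [Nat.card_of_isEmpty]
    push_cast
    ring
  · have h : Nat.card {z : ZMod p × ZMod p // (z.1 = 0 ∧ ¬ IsSquare ((m1 : ℤ) : ZMod p)) ∨ (z.2 = 0 ∧ ¬ IsSquare ((m2 : ℤ) : ZMod p))} = p := by
      exact (Nat.card_congr (Equiv.subtypeEquivRight fun z => ⟨fun h => h.elim (fun h => absurd h1 h.2) (fun h => h.1), fun h => Or.inr ⟨h, h2⟩⟩)).trans (T2_B p)
    rw [h]
    ring
  · have h : Nat.card {z : ZMod p × ZMod p // (z.1 = 0 ∧ ¬ IsSquare ((m1 : ℤ) : ZMod p)) ∨ (z.2 = 0 ∧ ¬ IsSquare ((m2 : ℤ) : ZMod p))} = p := by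
      exact (Nat.card_congr (Equiv.subtypeEquivRight fun z => ⟨fun h => h.elim (fun h => h.1) (fun h => absurd h2 h.2), fun h => Or.inl ⟨h, h1⟩⟩)).trans (T2_A p)
    rw [h]
    ring
  · have h : Nat.card {z : ZMod p × ZMod p // (z.1 = 0 ∧ ¬ IsSquare ((m1 : ℤ) : ZMod p)) ∨ (z.2 = 0 ∧ ¬ IsSquare ((m2 : ℤ) : ZMod p))} + 1 = p + p := by
      exact (congrArg (fun n : ℕ => n + 1) (Nat.card_congr (Equiv.subtypeEquivRight fun z => ⟨fun h => h.elim (fun h => Or.inl h.1) (fun h => Or.inr h.1),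
        fun h => h.elim (fun h => Or.inl ⟨h, h1⟩) (fun h => Or.inr ⟨h, h2⟩)⟩))).trans (T2_AB p)
    have h' := congrArg (fun n : ℕ => (n : ℝ)) h
    simp only [Nat.cast_add, Nat.cast_one] at h'
    linarith

theorem top_count {ι : Type} [Fintype ι] [DecidableEq ι] (g : ι → ℤ[X]) (r s : ι) (hrs : r ≠ s)
    (hr : (g r).natDegree = 1) (hs : (g s).natDegree = 1) (m1 m2 : ℤ) (p : ℕ) (hp : p.Prime) (y : Co g → ZMod p) :
    (Nat.card {w : Co g → ZMod p // w ∈ tS g r s m1 m2 p ∧ ∀ c : Co g, ¬ (c.1 = r ∨ c.1 = s) → w c = y c} : ℝ) =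
      tw m1 m2 p * (p : ℝ) ^ (univ.filter fun c : Co g => c.1 = r ∨ c.1 = s).card ∧
    0 ≤ tw m1 m2 p ∧ tw m1 m2 p ≤ 1 ∧ tw m1 m2 p ≤ 2 / p := by
  classical
  have hF : Fact p.Prime := ⟨hp⟩
  have hp0 : (0 : ℝ) < p := by exact_mod_cast hp.pos
  have hp1 : (1 : ℝ) ≤ p := by exact_mod_cast hp.one_lt.le
  -- the two coordinates
  obtain ⟨cr, hcr⟩ : ∃ c : Co g, c.1 = r := ⟨⟨r, ⟨0, by omega⟩⟩, rfl⟩
  obtain ⟨cs, hcs⟩ : ∃ c : Co g, c.1 = s := ⟨⟨s, ⟨0, by omega⟩⟩, rfl⟩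
  have hu : ∀ (i : ι), (g i).natDegree = 1 → ∀ c c' : Co g, c.1 = i → c'.1 = i → c = c' := by
    rintro i hi ⟨j, a⟩ ⟨j', a'⟩ h h'
    obtain rfl : j = i := h
    obtain rfl : j' = j := h'
    have h1 := a.2
    have h2 := a'.2
    have h3 : a = a' := Fin.ext (by omega)
    rw [h3]
  have hur : ∀ c : Co g, c.1 = r ↔ c = cr := fun c => ⟨fun h => hu r hr c cr h hcr, fun h => by rw [h, hcr]⟩
  have hus : ∀ c : Co g, c.1 = s ↔ c = cs := fun c => ⟨fun h => hu s hs c cs h hcs, fun h => by rw [h, hcs]⟩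
  have hne : cr ≠ cs := fun h => hrs (by rw [← hcr, ← hcs, h])
  have hcard : (univ.filter fun c : Co g => c.1 = r ∨ c.1 = s).card = 2 := by
    have h : (univ.filter fun c : Co g => c.1 = r ∨ c.1 = s) = {cr, cs} := by
      ext c
      rw [mem_filter, mem_insert, mem_singleton, hur, hus]
      exact ⟨fun h => h.2, fun h => ⟨mem_univ _, h⟩⟩
    rw [h, card_pair hne]
  have htS : ∀ w : Co g → ZMod p, w ∈ tS g r s m1 m2 p ↔
      (w cr = 0 ∧ ¬ IsSquare ((m1 : ℤ) : ZMod p)) ∨ (w cs = 0 ∧ ¬ IsSquare ((m2 : ℤ) : ZMod p)) := by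
    intro w
    constructor
    · rintro (⟨h, h'⟩ | ⟨h, h'⟩)
      · exact Or.inl ⟨h cr hcr, h'⟩
      · exact Or.inr ⟨h cs hcs, h'⟩
    · rintro (⟨h, h'⟩ | ⟨h, h'⟩)
      · exact Or.inl ⟨fun c hc => by rw [(hur c).1 hc]; exact h, h'⟩
      · exact Or.inr ⟨fun c hc => by rw [(hus c).1 hc]; exact h, h'⟩
  have hN : Nat.card {w : Co g → ZMod p // w ∈ tS g r s m1 m2 p ∧ ∀ c : Co g, ¬ (c.1 = r ∨ c.1 = s) → w c = y c} =
      Nat.card {z : ZMod p × ZMod p // (z.1 = 0 ∧ ¬ IsSquare ((m1 : ℤ) : ZMod p)) ∨ (z.2 = 0 ∧ ¬ IsSquare ((m2 : ℤ) : ZMod p))} := by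
    refine Nat.card_congr (Equiv.ofBijective (fun w => ⟨(w.1 cr, w.1 cs), (htS w.1).1 w.2.1⟩) ⟨?_, ?_⟩)
    · intro w w' h
      have h1 := congrArg Subtype.val h
      have h2 : w.1 cr = w'.1 cr := congrArg Prod.fst h1
      have h3 : w.1 cs = w'.1 cs := congrArg Prod.snd h1
      refine Subtype.ext (funext fun c => ?_)
      by_cases hc : c.1 = r ∨ c.1 = s
      · rcases hc with hc | hc
        · rw [(hur c).1 hc, h2]
        · rw [(hus c).1 hc, h3]
      · rw [w.2.2 c hc, w'.2.2 c hc]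
    · rintro ⟨⟨u, v⟩, hz⟩
      obtain ⟨w, hw1, hw2, hw3⟩ : ∃ w : Co g → ZMod p, w cr = u ∧ w cs = v ∧ ∀ c : Co g, ¬ (c.1 = r ∨ c.1 = s) → w c = y c := by
        refine ⟨fun c => if c = cr then u else if c = cs then v else y c, if_pos rfl, ?_, fun c hc => ?_⟩
        · show (if cs = cr then u else if cs = cs then v else y cs) = v
          rw [if_neg hne.symm, if_pos rfl]
        · show (if c = cr then u else if c = cs then v else y c) = y c
          rw [if_neg fun h => hc (Or.inl ((hur c).2 h)), if_neg fun h => hc (Or.inr ((hus c).2 h))]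
      refine ⟨⟨w, (htS w).2 ?_, hw3⟩, Subtype.ext (Prod.ext hw1 hw2)⟩
      rw [hw1, hw2]
      exact hz
  have hb : (nr m1 p = 0 ∨ nr m1 p = 1) ∧ (nr m2 p = 0 ∨ nr m2 p = 1) :=
    ⟨(T2_nr m1 p).imp (fun h => h.2) (fun h => h.2), (T2_nr m2 p).imp (fun h => h.2) (fun h => h.2)⟩
  have hi0 : 0 ≤ 1 / (p : ℝ) := by positivity
  have hi1 : 1 / (p : ℝ) ≤ 1 := by
    rw [div_le_one hp0]
    exact hp1
  have htw : tw m1 m2 p = (nr m1 p + nr m2 p) * (1 / p) - nr m1 p * nr m2 p * (1 / p) ^ 2 := by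
    unfold tw
    ring
  refine ⟨?_, ?_, ?_, ?_⟩
  · rw [hN, T2_cnt, hcard]
    unfold tw
    field_simp
  · rw [htw]
    rcases hb with ⟨h1 | h1, h2 | h2⟩ <;> rw [h1, h2] <;> nlinarith
  · rw [htw]
    rcases hb with ⟨h1 | h1, h2 | h2⟩ <;> rw [h1, h2] <;> nlinarith [sq_nonneg (1 - 1 / (p : ℝ))]
  · rw [htw, show (2 : ℝ) / p = 2 * (1 / p) by ring]
    rcases hb with ⟨h1 | h1, h2 | h2⟩ <;> rw [h1, h2] <;> nlinarith [sq_nonneg (1 / (p : ℝ))]

end QV
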