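import Pool.Agent.Lib.MP_10e784_agQV.S1
import Pool.Agent.Lib.MP_10e784_agQV.G1

/-! JOB S2.  The sieve bound for the pair layers.
`SS g M C j` is contained in the union of the set of `sv_good` and the two sets of `bad_x` for `(r, s)` and `(s, r)` (`mm g s r`), `A = card ι + 1 + c`, `L = j s`, `k = k₂` (the same `η`; `a, b, Q` from `sv_good`; the constants of `bad_x` for all pairs `(r, s)`: `choose` and a maximum over the finite type).  `L ^ (-A) ≤ 2 ^ A (1 + L) ^ (-A) ≤ 2 ^ A (∏_{i ≠ r} (1 + j i) ^ (-1)) (1 + L) ^ (-c)` since `1 + j i ≤ 1 + L` for `i ≠ r` and there are at most `card ι` factors. -/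

set_option autoImplicit false

namespace QV

open Finset Polynomial TW TR

private theorem S2_pow {ι : Type} [Fintype ι] [DecidableEq ι] (c : ℝ) (j : ι → ℕ) (r s : ι)
    (h1 : ∀ k, k ≠ r → k ≠ s → j k ≤ j s) (hL : 1 ≤ j s) :
    (j s : ℝ) ^ (-(Fintype.card ι + 1 + c)) * 1 ≤ 2 ^ (Fintype.card ι + 1 + c) *
      ((∏ i ∈ univ.erase r, ((1 + j i : ℝ)) ^ (-1 : ℝ)) * (1 + j s : ℝ) ^ (-c)) ∨
    Fintype.card ι + 1 + c < 0 := by
  by_cases hA : Fintype.card ι + 1 + c < 0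
  · exact Or.inr hA
  · left
    have hA0 : (0 : ℝ) ≤ Fintype.card ι + 1 + c := not_lt.1 hA
    have hLr : (1 : ℝ) ≤ j s := by exact_mod_cast hL
    have hL0 : (0 : ℝ) < j s := by linarith
    have hL1 : (1 : ℝ) ≤ 1 + j s := by linarith
    have hprod : (1 + j s : ℝ) ^ (-(Fintype.card ι : ℝ)) ≤ ∏ i ∈ univ.erase r, ((1 + j i : ℝ)) ^ (-1 : ℝ) := by
      have h2 : ∀ i ∈ univ.erase r, (1 + j s : ℝ) ^ (-1 : ℝ) ≤ ((1 + j i : ℝ)) ^ (-1 : ℝ) := by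
        intro i hi
        have hir : i ≠ r := (mem_erase.1 hi).1
        have h3 : (j i : ℝ) ≤ j s := by
          by_cases his : i = s
          · rw [his]
          · exact_mod_cast h1 i hir his
        have h4 : (0 : ℝ) ≤ j i := Nat.cast_nonneg _
        exact Real.rpow_le_rpow_of_nonpos (by linarith) (by linarith) (by norm_num)
      have h5 : ∏ _i ∈ univ.erase r, (1 + j s : ℝ) ^ (-1 : ℝ) ≤ ∏ i ∈ univ.erase r, ((1 + j i : ℝ)) ^ (-1 : ℝ) :=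
        prod_le_prod (fun _ _ => by positivity) h2
      refine le_trans ?_ h5
      rw [prod_const, ← Real.rpow_natCast, ← Real.rpow_mul (by linarith)]
      refine Real.rpow_le_rpow_of_exponent_le hL1 ?_
      have h6 : ((univ.erase r).card : ℝ) ≤ Fintype.card ι := by
        exact_mod_cast (card_erase_le (s := (univ : Finset ι)) (a := r)).trans card_univ.le
      linarith
    have hsplit : (1 + j s : ℝ) ^ (-(Fintype.card ι + 1 + c)) ≤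
        (∏ i ∈ univ.erase r, ((1 + j i : ℝ)) ^ (-1 : ℝ)) * (1 + j s : ℝ) ^ (-c) := by
      have h7 : (1 + j s : ℝ) ^ (-(Fintype.card ι + 1 + c)) ≤ (1 + j s : ℝ) ^ (-(Fintype.card ι : ℝ) + -c) :=
        Real.rpow_le_rpow_of_exponent_le hL1 (by linarith)
      rw [Real.rpow_add (by linarith)] at h7
      exact h7.trans (mul_le_mul_of_nonneg_right hprod (by positivity))
    have h8 : (j s : ℝ) ^ (-(Fintype.card ι + 1 + c)) ≤ ((1 + j s) / 2 : ℝ) ^ (-(Fintype.card ι + 1 + c)) :=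
      Real.rpow_le_rpow_of_nonpos (by linarith) (by linarith) (by linarith)
    have h9 : ((1 + j s) / 2 : ℝ) ^ (-(Fintype.card ι + 1 + c)) =
        2 ^ (Fintype.card ι + 1 + c) * (1 + j s : ℝ) ^ (-(Fintype.card ι + 1 + c)) := by
      rw [Real.div_rpow (by linarith) (by norm_num), Real.rpow_neg (by norm_num : (0 : ℝ) ≤ 2), div_inv_eq_mul,
        mul_comm]
    rw [mul_one]
    rw [h9] at h8
    exact h8.trans (mul_le_mul_of_nonneg_left hsplit (by positivity))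

theorem sv_pair {ι : Type} [Fintype ι] [DecidableEq ι] {g : ι → ℤ[X]} (hg : TR.Fam g) (M : ℕ) (hM : M ≠ 0) (C : ℝ) (hC : 1 ≤ C)
    (ε : ℝ) (hε : 0 < ε) (hε1 : ε ≤ 1) :
    ∃ (c C' : ℝ) (L1 : ℕ), 0 < c ∧ 0 < C' ∧ ∀ (j : ι → ℕ) (r s k₂ : ι), r ≠ s → (g r).natDegree = 1 →
      (g s).natDegree = 1 → (∀ k, k ≠ r → k ≠ s → j k ≤ j s) → j s ≤ j r → L1 ≤ j s → k₂ ≠ r → k₂ ≠ s → ((j s : ℝ) ^ ε ≤ j k₂) →
      (Nat.card (SS g M C j) : ℝ) ≤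
          C' * 2 ^ (∑ i, j i) * (∏ i ∈ univ.erase r, ((1 + j i : ℝ)) ^ (-1 : ℝ)) * (1 + j s : ℝ) ^ (-c) := by
  classical
  obtain ⟨η, c, C₁, L₁, hη, hc, hC₁, hL₁, hgood⟩ := sv_good hg M hM C hC ε hε hε1
  obtain ⟨A, hA⟩ : ∃ A : ℝ, A = Fintype.card ι + 1 + c := ⟨_, rfl⟩
  have hA0 : 0 < A := by
    rw [hA]
    positivity
  have hbad : ∀ r s : ι, ∃ (C' : ℝ) (L1 : ℕ), 0 < C' ∧ (r ≠ s → (g r).natDegree = 1 → (g s).natDegree = 1 →
      ∀ (j : ι → ℕ) (k : ι) (L a b Q : ℕ), k ≠ r → k ≠ s → L1 ≤ L →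
      (L : ℝ) ^ ε ≤ j k → 1 ≤ a → b ≤ 2 * L → (∀ x, Bx g C j x → |mm g r s x| ≤ (Q : ℤ)) → Q < 2 ^ a →
      (∀ i ∈ Ico a b, 8 * (Q : ℝ) ^ 2 * (i : ℝ) ^ 2 ≤ η ^ 2 * 2 ^ i) →
      (Nat.card {x : Co g → ℤ // Bx g C j x ∧ (∀ i, pol g x i ≠ 0) ∧ ∃ i ∈ Ico a b, η / i < |sm (mm g r s x) i|} : ℝ) ≤
        C' * 2 ^ (∑ i, j i) * (L : ℝ) ^ (-A)) := by
    intro r s
    by_cases h : r ≠ s ∧ (g r).natDegree = 1 ∧ (g s).natDegree = 1
    · obtain ⟨C', L1, h1, h2⟩ := bad_x hg r s h.1 h.2.1 h.2.2 C hC ε hε A η hη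
      exact ⟨C', L1, h1, fun _ _ _ => h2⟩
    · exact ⟨1, 0, one_pos, fun h1 h2 h3 => absurd ⟨h1, h2, h3⟩ h⟩
  choose CB LB hCB hB using hbad
  obtain ⟨Cm, hCm⟩ : ∃ Cm : ℝ, Cm = ∑ r, ∑ s, CB r s := ⟨_, rfl⟩
  have hCm0 : ∀ r s, CB r s ≤ Cm := by
    intro r s
    rw [hCm]
    have h1 : CB r s ≤ ∑ s, CB r s := single_le_sum (f := fun s => CB r s) (fun s _ => (hCB r s).le) (mem_univ s)
    exact h1.trans (single_le_sum (f := fun r => ∑ s, CB r s)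
      (fun r _ => sum_nonneg fun s _ => (hCB r s).le) (mem_univ r))
  have hCm1 : 0 ≤ Cm := by
    rw [hCm]
    exact sum_nonneg fun r _ => sum_nonneg fun s _ => (hCB r s).le
  obtain ⟨Lm, hLm⟩ : ∃ Lm : ℕ, Lm = ∑ r, ∑ s, LB r s := ⟨_, rfl⟩
  have hLm0 : ∀ r s, LB r s ≤ Lm := by
    intro r s
    rw [hLm]
    have h1 : LB r s ≤ ∑ s, LB r s := single_le_sum (f := fun s => LB r s) (fun s _ => Nat.zero_le _) (mem_univ s)
    exact h1.trans (single_le_sum (f := fun r => ∑ s, LB r s) (fun r _ => Nat.zero_le _) (mem_univ r))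
  refine ⟨c, C₁ + 2 * (Cm * 2 ^ A), L₁ + Lm + 1, hc, by positivity, ?_⟩
  intro j r s k₂ hrs hr hs h1 h2 h3 h4 h5 h6
  have hLs : 1 ≤ j s := by omega
  obtain ⟨a, b, Q, ha, hb, hQ, hQa, hi, hcard⟩ := hgood j r s k₂ hrs hr hs h1 h2 (by omega) h4 h5 h6
  have hfin : {x : Co g → ℤ | Bx g C j x}.Finite := (bx_card hg C hC j).1
  have b1 := hB r s hrs hr hs j k₂ (j s) a b Q h4 h5 (by have := hLm0 r s; omega) h6 ha hb
    (fun x hx => (hQ x hx).1) hQa hi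
  have b2 := hB s r hrs.symm hs hr j k₂ (j s) a b Q h5 h4 (by have := hLm0 s r; omega) h6 ha hb
    (fun x hx => (hQ x hx).2) hQa hi
  obtain ⟨S1, hS1⟩ : ∃ S1 : Set (Co g → ℤ), S1 = {x | Bx g C j x ∧ Loc g M x ∧ (∀ i, pol g x i ≠ 0) ∧
          (∀ i ∈ Ico a b, |sm (mm g r s x) i| ≤ η / i) ∧ (∀ i ∈ Ico a b, |sm (mm g s r x) i| ≤ η / i)} := ⟨_, rfl⟩
  obtain ⟨S2, hS2⟩ : ∃ S2 : Set (Co g → ℤ), S2 = {x | Bx g C j x ∧ (∀ i, pol g x i ≠ 0) ∧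
          ∃ i ∈ Ico a b, η / i < |sm (mm g r s x) i|} := ⟨_, rfl⟩
  obtain ⟨S3, hS3⟩ : ∃ S3 : Set (Co g → ℤ), S3 = {x | Bx g C j x ∧ (∀ i, pol g x i ≠ 0) ∧
          ∃ i ∈ Ico a b, η / i < |sm (mm g s r x) i|} := ⟨_, rfl⟩
  have f1 : S1.Finite := hfin.subset fun x hx => by
    rw [hS1] at hx
    exact hx.1
  have f2 : S2.Finite := hfin.subset fun x hx => by
    rw [hS2] at hx
    exact hx.1
  have f3 : S3.Finite := hfin.subset fun x hx => by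
    rw [hS3] at hx
    exact hx.1
  have hsub : SS g M C j ⊆ S1 ∪ (S2 ∪ S3) := by
    intro x hx
    obtain ⟨x1, x2, x3, -⟩ := hx
    by_cases e1 : ∃ i ∈ Ico a b, η / i < |sm (mm g r s x) i|
    · refine Or.inr (Or.inl ?_)
      rw [hS2]
      exact ⟨x1, x3, e1⟩
    · by_cases e2 : ∃ i ∈ Ico a b, η / i < |sm (mm g s r x) i|
      · refine Or.inr (Or.inr ?_)
        rw [hS3]
        exact ⟨x1, x3, e2⟩
      · refine Or.inl ?_
        push Not at e1 e2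
        rw [hS1]
        exact ⟨x1, x2, x3, e1, e2⟩
  have hn : ((SS g M C j).ncard : ℝ) ≤ (S1.ncard : ℝ) + (S2.ncard + S3.ncard) := by
    have e1 : (SS g M C j).ncard ≤ (S1 ∪ (S2 ∪ S3)).ncard := Set.ncard_le_ncard hsub (f1.union (f2.union f3))
    have e2 := Set.ncard_union_le S1 (S2 ∪ S3)
    have e3 := Set.ncard_union_le S2 S3
    exact_mod_cast e1.trans (e2.trans (Nat.add_le_add_left e3 _))
  have n1 : (S1.ncard : ℝ) ≤ C₁ * 2 ^ (∑ i, j i) * (∏ i ∈ univ.erase r, ((1 + j i : ℝ)) ^ (-1 : ℝ)) *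
      (1 + j s : ℝ) ^ (-c) := by
    rw [hS1, ← Nat.card_coe_set_eq]
    exact hcard
  have n2 : (S2.ncard : ℝ) ≤ CB r s * 2 ^ (∑ i, j i) * (j s : ℝ) ^ (-A) := by
    rw [hS2, ← Nat.card_coe_set_eq]
    exact b1
  have n3 : (S3.ncard : ℝ) ≤ CB s r * 2 ^ (∑ i, j i) * (j s : ℝ) ^ (-A) := by
    rw [hS3, ← Nat.card_coe_set_eq]
    exact b2
  obtain ⟨P, hP⟩ : ∃ P : ℝ, P = ∏ i ∈ univ.erase r, ((1 + j i : ℝ)) ^ (-1 : ℝ) := ⟨_, rfl⟩
  obtain ⟨Z, hZ⟩ : ∃ Z : ℝ, Z = (1 + j s : ℝ) ^ (-c) := ⟨_, rfl⟩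
  obtain ⟨T, hT⟩ : ∃ T : ℝ, T = (2 : ℝ) ^ (∑ i, j i) := ⟨_, rfl⟩
  have hT0 : 0 ≤ T := by rw [hT]; positivity
  have hpw : (j s : ℝ) ^ (-A) ≤ 2 ^ A * (P * Z) := by
    rcases S2_pow c j r s h1 hLs with h7 | h7
    · rw [mul_one, ← hA, ← hP, ← hZ] at h7
      exact h7
    · rw [← hA] at h7
      exact absurd h7 (not_lt.2 hA0.le)
  have hjA : 0 ≤ (j s : ℝ) ^ (-A) := by positivity
  have hw : ∀ x : ℝ, x ≤ Cm → 0 ≤ x → x * T * (j s : ℝ) ^ (-A) ≤ Cm * 2 ^ A * (T * P * Z) := by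
    intro x hx hx0
    calc x * T * (j s : ℝ) ^ (-A) ≤ Cm * T * (j s : ℝ) ^ (-A) := by
          refine mul_le_mul_of_nonneg_right (mul_le_mul_of_nonneg_right hx hT0) hjA
      _ ≤ Cm * T * (2 ^ A * (P * Z)) := mul_le_mul_of_nonneg_left hpw (mul_nonneg hCm1 hT0)
      _ = Cm * 2 ^ A * (T * P * Z) := by ring
  have w1 := hw (CB r s) (hCm0 r s) (hCB r s).le
  have w2 := hw (CB s r) (hCm0 s r) (hCB s r).le
  rw [Nat.card_coe_set_eq]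
  rw [← hP, ← hZ, ← hT] at n1 ⊢
  rw [← hT] at n2 n3
  calc ((SS g M C j).ncard : ℝ) ≤ (S1.ncard : ℝ) + (S2.ncard + S3.ncard) := hn
    _ ≤ C₁ * T * P * Z + (Cm * 2 ^ A * (T * P * Z) + Cm * 2 ^ A * (T * P * Z)) := by
        linarith
    _ = (C₁ + 2 * (Cm * 2 ^ A)) * T * P * Z := by ring

end QV
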